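import Pool.Agent.W_7d29a1_h47.Model

/-!
# Two replicas and favourite regions (objects of the localization theorem)
-/

namespace Pool.Agent.W_7d29a1_h47

noncomputable section

/-- The expectation of `F` under the polymer measure with the additional force `h` (for `h = 0` this
is the polymer measure `P_n^{β,ω}`): the walk has density proportional to `e^{h S_n}` with respect to
the polymer measure. -/
def forceE (β h : ℝ) (ω : ℕ × ℤ → ℝ) (n : ℕ) (F : (Fin n → Bool) → ℝ) : ℝ :=
  (polE β ω n fun s => F s * Real.exp (h * (walk s n : ℝ))) / endMGF β h ω n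

open Classical in
/-- The probability of `A` for two walks that are independent given the environment, both with the law
of `forceE`. -/
def pairP (β h : ℝ) (ω : ℕ × ℤ → ℝ) (n : ℕ) (A : (Fin n → Bool) → (Fin n → Bool) → Prop) : ℝ :=
  forceE β h ω n fun s => forceE β h ω n fun r => if A s r then 1 else 0

open Classical in
/-- The largest probability `sup_y P(|S_t - y| ≤ K)` of an interval at time `t`. -/
def favP (β h : ℝ) (ω : ℕ × ℤ → ℝ) (n t K : ℕ) : ℝ :=
  ⨆ y : ℤ, forceE β h ω n fun s => if |walk s t - y| ≤ K then 1 else 0

end

end Pool.Agent.W_7d29a1_h47
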