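import Mathlib

/-!
# Convex functions without flat pieces
-/

namespace Pool.Agent.W_7d29a1_h47

/-- The midpoint touches the chord. -/
lemma FinE_mid {f : ℝ → ℝ} (hf : ConvexOn ℝ Set.univ f) {x y a b : ℝ} (ha : 0 < a) (hb : 0 < b)
    (hab : a + b = 1) (h : a * f x + b * f y ≤ f (a * x + b * y)) :
    f ((x + y) / 2) = (f x + f y) / 2 := by
  have h1 : f ((x + y) / 2) ≤ (f x + f y) / 2 := by
    have := hf.2 (Set.mem_univ x) (Set.mem_univ y) (by norm_num : (0 : ℝ) ≤ 1 / 2)
      (by norm_num : (0 : ℝ) ≤ 1 / 2) (by norm_num)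
    simp only [smul_eq_mul] at this
    have e : (1 / 2 : ℝ) * x + 1 / 2 * y = (x + y) / 2 := by ring
    rw [e] at this
    linarith
  have h2 : (f x + f y) / 2 ≤ f ((x + y) / 2) := by
    rcases le_total a (1 / 2) with h3 | h3
    · have := hf.2 (Set.mem_univ ((x + y) / 2)) (Set.mem_univ y)
        (by linarith : (0 : ℝ) ≤ 2 * a) (by linarith : (0 : ℝ) ≤ 1 - 2 * a) (by ring)
      simp only [smul_eq_mul] at this
      have e : 2 * a * ((x + y) / 2) + (1 - 2 * a) * y = a * x + b * y := by
        have : b = 1 - a := by linarith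
        rw [this]; ring
      rw [e] at this
      have hb' : b = 1 - a := by linarith
      have h4 : a * f x + (1 - a) * f y ≤ 2 * a * f ((x + y) / 2) + (1 - 2 * a) * f y := by
        rw [← hb']
        linarith
      have h5 : a * ((f x + f y) / 2) ≤ a * f ((x + y) / 2) := by nlinarith
      exact le_of_mul_le_mul_left h5 ha
    · have := hf.2 (Set.mem_univ ((x + y) / 2)) (Set.mem_univ x)
        (by linarith : (0 : ℝ) ≤ 2 * b) (by linarith : (0 : ℝ) ≤ 1 - 2 * b) (by ring)
      simp only [smul_eq_mul] at this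
      have e : 2 * b * ((x + y) / 2) + (1 - 2 * b) * x = a * x + b * y := by
        have : a = 1 - b := by linarith
        rw [this]; ring
      rw [e] at this
      have ha' : a = 1 - b := by linarith
      have h4 : (1 - b) * f x + b * f y ≤ 2 * b * f ((x + y) / 2) + (1 - 2 * b) * f x := by
        rw [← ha']
        linarith
      have h5 : b * ((f x + f y) / 2) ≤ b * f ((x + y) / 2) := by nlinarith
      exact le_of_mul_le_mul_left h5 hb
  exact le_antisymm h1 h2

/-- The ordered case. -/
lemma FinE_lt {f : ℝ → ℝ}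
    (hno : ∀ h δ v : ℝ, 0 < δ → f (h + δ) = f h + δ * v → f (h - δ) = f h - δ * v → False)
    {x y : ℝ} (hxy : x < y) (h : f ((x + y) / 2) = (f x + f y) / 2) : False := by
  have hd : y - x ≠ 0 := by
    intro h0
    linarith
  have e3 : (y - x) / 2 * ((f y - f x) / (y - x)) = (f y - f x) / 2 := by
    field_simp
  refine hno ((x + y) / 2) ((y - x) / 2) ((f y - f x) / (y - x)) (by linarith) ?_ ?_
  · have e : (x + y) / 2 + (y - x) / 2 = y := by ring
    rw [e, h, e3]
    ring
  · have e : (x + y) / 2 - (y - x) / 2 = x := by ring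
    rw [e, h, e3]
    ring

/-- A convex function without flat pieces is strictly convex. Proof. Otherwise there are `x < y` and
`a, b > 0`, `a + b = 1` with `f (a x + b y) = a f x + b f y`; by convexity `f` equals the chord on
`[x, y]` (a convex function that touches its chord at an interior point is equal to the chord),
in particular at the midpoint `h = (x+y)/2`; take `δ = (y-x)/2`, `v = (f y - f x)/(y - x)`. -/
lemma strictConvexOn_of_no_flat {f : ℝ → ℝ} (hf : ConvexOn ℝ Set.univ f)
    (hno : ∀ h δ v : ℝ, 0 < δ → f (h + δ) = f h + δ * v → f (h - δ) = f h - δ * v → False) :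
    StrictConvexOn ℝ Set.univ f := by
  refine ⟨convex_univ, ?_⟩
  intro x _ y _ hxy a b ha hb hab
  by_contra hcon
  have h := not_lt.1 hcon
  simp only [smul_eq_mul] at h
  have hm := FinE_mid hf ha hb hab h
  rcases lt_or_gt_of_ne hxy with h1 | h1
  · exact FinE_lt hno h1 hm
  · refine FinE_lt hno h1 ?_
    rw [add_comm y x, hm]
    ring

end Pool.Agent.W_7d29a1_h47
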