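import Pool.Agent.W_7d29a1_h47.FinD
import Pool.Agent.W_7d29a1_h47.FinE

/-!
# Strict convexity of the tilted free energy
-/

namespace Pool.Agent.W_7d29a1_h47

open MeasureTheory ProbabilityTheory

variable {μ : Measure ℝ} [IsProbabilityMeasure μ]

/-- **The tilted free energy is strictly convex.** -/
theorem Lam_strictConvex (hμ : EM μ) (hnd : Nondeg μ) : StrictConvexOn ℝ Set.univ (Lam μ) :=
  strictConvexOn_of_no_flat (Lam_convex hμ) fun _ _ _ hδ hu hd => no_aff hμ hnd ⟨hδ, hu, hd⟩

end Pool.Agent.W_7d29a1_h47
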