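import Pool.Agent.W_7d29a1_h47.FreeA

/-!
# The expected log partition function: dependence on the tilt
-/

namespace Pool.Agent.W_7d29a1_h47

open MeasureTheory ProbabilityTheory Finset

noncomputable section

variable {μ : Measure ℝ} [IsProbabilityMeasure μ]

lemma FreeC_convex (g : Env) (n : ℕ) (x y : ℝ) {α β : ℝ} (hα : 0 ≤ α) (hβ : 0 ≤ β) (hαβ : α + β = 1) :
    Real.log (Z g (α * x + β * y) 0 0 n) ≤ α * Real.log (Z g x 0 0 n) + β * Real.log (Z g y 0 0 n) := by
  have hx := Z_pos g x 0 0 n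
  have hy := Z_pos g y 0 0 n
  obtain ⟨A, hA⟩ : ∃ A, A = Real.log (Z g x 0 0 n) := ⟨_, rfl⟩
  obtain ⟨B, hB⟩ : ∃ B, B = Real.log (Z g y 0 0 n) := ⟨_, rfl⟩
  have hxA : Z g x 0 0 n = Real.exp A := by rw [hA, Real.exp_log hx]
  have hyB : Z g y 0 0 n = Real.exp B := by rw [hB, Real.exp_log hy]
  rw [← hA, ← hB, Real.log_le_iff_le_exp (Z_pos _ _ _ _ _)]
  have h1 : ∀ s ∈ T n, wt g (α * x + β * y) 0 0 n s * Real.exp (-(α * A + β * B)) ≤
      α * (wt g x 0 0 n s * Real.exp (-A)) + β * (wt g y 0 0 n s * Real.exp (-B)) := by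
    intro s _
    have h2 := convexOn_exp.2 (Set.mem_univ (En g 0 0 n s + x * (pos s n : ℝ) - A))
      (Set.mem_univ (En g 0 0 n s + y * (pos s n : ℝ) - B)) hα hβ hαβ
    simp only [smul_eq_mul] at h2
    unfold wt
    rw [← Real.exp_add, ← Real.exp_add, ← Real.exp_add]
    refine le_trans (le_of_eq ?_) (h2.trans (le_of_eq ?_))
    · congr 1
      have : En g 0 0 n s = (α + β) * En g 0 0 n s := by rw [hαβ, one_mul]
      rw [this]
      ring_nf
      have e : α = 1 - β := by linarith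
      rw [e]
      ring
    · rw [sub_eq_add_neg, sub_eq_add_neg]
  have h3 := Finset.sum_le_sum h1
  rw [← Finset.sum_mul, Finset.sum_add_distrib, ← Finset.mul_sum, ← Finset.mul_sum,
    ← Finset.sum_mul, ← Finset.sum_mul] at h3
  change Z g (α * x + β * y) 0 0 n * Real.exp (-(α * A + β * B)) ≤
    α * (Z g x 0 0 n * Real.exp (-A)) + β * (Z g y 0 0 n * Real.exp (-B)) at h3
  rw [hxA, hyB, ← Real.exp_add, ← Real.exp_add, add_neg_cancel, add_neg_cancel, Real.exp_zero,
    mul_one, mul_one, hαβ] at h3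
  have h4 := mul_le_mul_of_nonneg_right h3 (Real.exp_pos (α * A + β * B)).le
  rw [mul_assoc, ← Real.exp_add, neg_add_cancel, Real.exp_zero, mul_one, one_mul] at h4
  exact h4

/-- Flip the first `n` steps. -/
def FreeC_flip (n : ℕ) (s : ℕ → Bool) : ℕ → Bool := fun i => if i < n then !(s i) else false

lemma FreeC_flip_mem (n : ℕ) (s : ℕ → Bool) : FreeC_flip n s ∈ T n := by
  rw [mem_T]
  intro i hi
  unfold FreeC_flip
  rw [if_neg (not_lt.2 hi)]

lemma FreeC_flip_flip (n : ℕ) {s : ℕ → Bool} (hs : s ∈ T n) : FreeC_flip n (FreeC_flip n s) = s := by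
  funext i
  unfold FreeC_flip
  by_cases hi : i < n
  · simp [hi]
  · rw [if_neg hi, mem_T.1 hs i (not_lt.1 hi)]

lemma FreeC_pos (n : ℕ) (s : ℕ → Bool) {i : ℕ} (hi : i ≤ n) : pos (FreeC_flip n s) i = - pos s i := by
  unfold pos
  rw [← Finset.sum_neg_distrib]
  refine Finset.sum_congr rfl fun j hj => ?_
  have hj' : j < n := (Finset.mem_range.1 hj).trans_le hi
  unfold FreeC_flip
  rw [if_pos hj']
  cases s j <;> simp [stp]

/-- The reflected environment. -/
def FreeC_refl (g : Env) : Env := fun p => g (p.1, -p.2)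

lemma FreeC_mp : MeasurePreserving FreeC_refl (law μ) (law μ) := by
  refine mp_reindex (f := fun p => (p.1, -p.2)) ?_
  rintro ⟨i, y⟩ ⟨j, z⟩ h
  simp only [Prod.mk.injEq, neg_inj] at h
  rw [h.1, h.2]

lemma FreeC_Z (g : Env) (h : ℝ) (n : ℕ) : Z (FreeC_refl g) (-h) 0 0 n = Z g h 0 0 n := by
  unfold Z
  refine Finset.sum_nbij' (FreeC_flip n) (FreeC_flip n) (fun s _ => FreeC_flip_mem n s)
    (fun s _ => FreeC_flip_mem n s) (fun s hs => FreeC_flip_flip n hs)
    (fun s hs => FreeC_flip_flip n hs) fun s _ => ?_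
  unfold wt
  congr 1
  rw [FreeC_pos n s le_rfl]
  have e1 : En (FreeC_refl g) 0 0 n s = En g 0 0 n (FreeC_flip n s) := by
    unfold En FreeC_refl
    refine Finset.sum_congr rfl fun i hi => ?_
    rw [FreeC_pos n s (Finset.mem_range.1 hi)]
    simp
  rw [e1]
  push_cast
  ring

/-- Convexity in `h`. Proof. For each `g`, `h ↦ log Z` is convex: Hölder, or: for `h = α h₁ + β h₂`,
`α + β = 1`, `Z_h = Z_{h₁}^α Z_{h₂}^β · (…)`, e.g. `Real.inner_le_Lp_mul_Lq`/weighted AM–GM
`x^α y^β ≤ α x + β y` applied to `wt_{h₁}(s)/Z_{h₁}` and `wt_{h₂}(s)/Z_{h₂}` and summed over `s`. Integrate. -/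
lemma a_convex (hμ : EM μ) (n : ℕ) : ConvexOn ℝ Set.univ (fun h => a μ h n) := by
  refine ⟨convex_univ, fun x _ y _ α β hα hβ hαβ => ?_⟩
  simp only [smul_eq_mul]
  have i1 : Integrable (fun g : Env => Real.log (Z g x 0 0 n)) (law μ) :=
    (EMom_logZ hμ x 0 0 n).integrable
  have i2 : Integrable (fun g : Env => Real.log (Z g y 0 0 n)) (law μ) :=
    (EMom_logZ hμ y 0 0 n).integrable
  have i3 : Integrable (fun g : Env => Real.log (Z g (α * x + β * y) 0 0 n)) (law μ) :=
    (EMom_logZ hμ (α * x + β * y) 0 0 n).integrable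
  have h1 := integral_mono i3 ((i1.const_mul α).add (i2.const_mul β))
    fun g => FreeC_convex g n x y hα hβ hαβ
  have h2 : ∫ g : Env, (α * Real.log (Z g x 0 0 n) + β * Real.log (Z g y 0 0 n)) ∂(law μ) =
      α * a μ x n + β * a μ y n := by
    rw [integral_add (i1.const_mul α) (i2.const_mul β), integral_const_mul, integral_const_mul]
    rfl
  rw [← h2]
  exact h1

/-- Lipschitz. Proof. `|pos s n| ≤ n`, so `wt_h ≤ e^{|h - h'| n} wt_{h'}`. -/
lemma a_lip (hμ : EM μ) (h h' : ℝ) (n : ℕ) : a μ h n ≤ a μ h' n + |h - h'| * n := by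
  have i1 : Integrable (fun g : Env => Real.log (Z g h 0 0 n)) (law μ) :=
    (EMom_logZ hμ h 0 0 n).integrable
  have i2 : Integrable (fun g : Env => Real.log (Z g h' 0 0 n)) (law μ) :=
    (EMom_logZ hμ h' 0 0 n).integrable
  have hpt : ∀ g : Env, Real.log (Z g h 0 0 n) ≤ Real.log (Z g h' 0 0 n) + |h - h'| * n := by
    intro g
    have hZ := Z_pos g h 0 0 n
    have hZ' := Z_pos g h' 0 0 n
    have h1 : Z g h 0 0 n ≤ Z g h' 0 0 n * Real.exp (|h - h'| * n) := by
      unfold Z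
      rw [Finset.sum_mul]
      refine Finset.sum_le_sum fun s _ => ?_
      unfold wt
      rw [← Real.exp_add]
      refine Real.exp_le_exp.2 ?_
      have h2 : (h - h') * (pos s n : ℝ) ≤ |h - h'| * n := by
        refine (le_abs_self _).trans ?_
        rw [abs_mul]
        refine mul_le_mul_of_nonneg_left ?_ (abs_nonneg _)
        exact_mod_cast pos_abs_le s n
      linarith
    have h3 := Real.log_le_log hZ h1
    rw [Real.log_mul hZ'.ne' (Real.exp_pos _).ne', Real.log_exp] at h3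
    exact h3
  have h4 := integral_mono i1 (i2.add (integrable_const (|h - h'| * n))) hpt
  have h5 : ∫ g : Env, (Real.log (Z g h' 0 0 n) + |h - h'| * n) ∂(law μ) =
      a μ h' n + |h - h'| * n := by
    rw [integral_add i2 (integrable_const _)]
    simp [a]
  rw [← h5]
  exact h4

/-- Symmetry. Proof. The reflected environment `g'(i, y) = g(i, -y)` has the same law
(`mp_reindex`), and flipping all `n` steps is a bijection of `T n`. -/
lemma a_even (h : ℝ) (n : ℕ) : a μ (-h) n = a μ h n := by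
  unfold a
  rw [← mp_integral (FreeC_mp (μ := μ)) (F := fun g => Real.log (Z g (-h) 0 0 n))
    (by fun_prop : Measurable fun g : Env => Real.log (Z g (-h) 0 0 n)).aestronglyMeasurable]
  simp only [FreeC_Z]

end

end Pool.Agent.W_7d29a1_h47
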