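import Pool.Agent.W_7d29a1_h47.FreeB
import Pool.Agent.W_7d29a1_h47.FreeC

/-!
# The free energy `Lam μ h`
-/

namespace Pool.Agent.W_7d29a1_h47

open MeasureTheory ProbabilityTheory Finset Filter Topology

noncomputable section

variable {μ : Measure ℝ} [IsProbabilityMeasure μ]

/-- Proof. `a μ h (n+1) ≤ (n+1) * c1 μ h` by induction from `a_succ_le`, `a_zero`. -/
lemma bddAbove_a (hμ : EM μ) (h : ℝ) :
    BddAbove (Set.range fun n : ℕ => a μ h (n + 1) / ((n : ℝ) + 1)) := by
  have h1 : ∀ n : ℕ, a μ h n ≤ n * c1 μ h := by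
    intro n
    induction n with
    | zero => rw [a_zero, Nat.cast_zero, zero_mul]
    | succ n ih =>
      have h2 := a_succ_le hμ h n
      push_cast
      linarith
  refine ⟨c1 μ h, ?_⟩
  rintro _ ⟨n, rfl⟩
  have hn : (0 : ℝ) < (n : ℝ) + 1 := by positivity
  beta_reduce
  rw [div_le_iff₀ hn]
  have h2 := h1 (n + 1)
  push_cast at h2
  linarith

/-- Proof. `le_csSup`; for `n = 0` `a_zero`. -/
lemma a_le_Lam (hμ : EM μ) (h : ℝ) (n : ℕ) : a μ h n ≤ n * Lam μ h := by
  rcases n with _ | n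
  · rw [a_zero, Nat.cast_zero, zero_mul]
  · have hn : (0 : ℝ) < (n : ℝ) + 1 := by positivity
    have h1 : a μ h (n + 1) / ((n : ℝ) + 1) ≤ Lam μ h := le_csSup (bddAbove_a hμ h) ⟨n, rfl⟩
    rw [div_le_iff₀ hn] at h1
    push_cast
    linarith

/-- Proof. `csSup_le`. -/
lemma Lam_le (h : ℝ) {c : ℝ} (hc : ∀ n : ℕ, a μ h n ≤ n * c) : Lam μ h ≤ c := by
  refine csSup_le (Set.range_nonempty _) ?_
  rintro _ ⟨n, rfl⟩
  have hn : (0 : ℝ) < (n : ℝ) + 1 := by positivity
  beta_reduce
  rw [div_le_iff₀ hn]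
  have h2 := hc (n + 1)
  push_cast at h2
  linarith

/-- Proof. Fekete's lemma `Subadditive.tendsto_lim` for `n ↦ - a μ h n` (`a_add_le`); the limit is the
supremum. -/
lemma tendsto_a (hμ : EM μ) (h : ℝ) :
    Tendsto (fun n : ℕ => a μ h n / n) atTop (𝓝 (Lam μ h)) := by
  have hsub : Subadditive fun n => -a μ h n := fun m n => by
    have := a_add_le hμ h m n
    linarith
  have hle : ∀ n : ℕ, a μ h n / n ≤ max (Lam μ h) 0 := by
    intro n
    rcases Nat.eq_zero_or_pos n with rfl | hn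
    · rw [Nat.cast_zero, div_zero]
      exact le_max_right _ _
    · have hn' : (0 : ℝ) < n := by exact_mod_cast hn
      refine le_trans ?_ (le_max_left _ _)
      rw [div_le_iff₀ hn']
      have := a_le_Lam hμ h n
      linarith
  have hbdd : BddBelow (Set.range fun n : ℕ => (-a μ h n) / n) := by
    refine ⟨-max (Lam μ h) 0, ?_⟩
    rintro _ ⟨n, rfl⟩
    beta_reduce
    rw [neg_div]
    exact neg_le_neg (hle n)
  have ht := hsub.tendsto_lim hbdd
  have ht2 : Tendsto (fun n : ℕ => a μ h n / n) atTop (𝓝 (-hsub.lim)) := by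
    have h1 := ht.neg
    refine h1.congr fun n => ?_
    rw [neg_div, neg_neg]
  have heq : -hsub.lim = Lam μ h := by
    apply le_antisymm
    · refine le_of_tendsto ht2 ?_
      filter_upwards [eventually_gt_atTop 0] with n hn
      have hn' : (0 : ℝ) < n := by exact_mod_cast hn
      rw [div_le_iff₀ hn']
      have := a_le_Lam hμ h n
      linarith
    · refine Lam_le h fun n => ?_
      rcases Nat.eq_zero_or_pos n with rfl | hn
      · rw [a_zero, Nat.cast_zero, zero_mul]
      · have hn' : (0 : ℝ) < n := by exact_mod_cast hn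
        have h1 := hsub.lim_le_div hbdd hn.ne'
        rw [le_div_iff₀ hn'] at h1
        linarith
  rw [heq] at ht2
  exact ht2

/-- Proof. Pointwise limit of convex functions (`a_convex`, `tendsto_a`). -/
lemma Lam_convex (hμ : EM μ) : ConvexOn ℝ Set.univ (Lam μ) := by
  refine ⟨convex_univ, fun x _ y _ α β hα hβ hαβ => ?_⟩
  refine Lam_le _ fun n => ?_
  have h1 := (a_convex hμ n).2 (Set.mem_univ x) (Set.mem_univ y) hα hβ hαβ
  have h2 := a_le_Lam hμ x n
  have h3 := a_le_Lam hμ y n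
  simp only [smul_eq_mul] at h1 ⊢
  have h4 := mul_le_mul_of_nonneg_left h2 hα
  have h5 := mul_le_mul_of_nonneg_left h3 hβ
  linarith

/-- Proof. `a_lip`, `Lam_le`, `a_le_Lam`. -/
lemma Lam_lip (hμ : EM μ) (h h' : ℝ) : |Lam μ h - Lam μ h'| ≤ |h - h'| := by
  have key : ∀ x y : ℝ, Lam μ x ≤ Lam μ y + |x - y| := by
    intro x y
    refine Lam_le _ fun n => ?_
    have h1 := a_lip hμ x y n
    have h2 := a_le_Lam hμ y n
    linarith
  rw [abs_le]
  have h1 := key h h'
  have h2 := key h' h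
  rw [abs_sub_comm h' h] at h2
  constructor <;> linarith

lemma Lam_even (h : ℝ) : Lam μ (-h) = Lam μ h := by
  unfold Lam
  simp only [a_even]

/-- Proof. `le_a` with `n = 1` and `a_le_Lam`. -/
lemma le_Lam (hμ : EM μ) (h : ℝ) : Real.log (2 * Real.cosh h) + m0 μ ≤ Lam μ h := by
  have h1 := le_a hμ h 1
  have h2 := a_le_Lam hμ h 1
  push_cast at h1 h2
  linarith

/-- Proof. `2 cosh h > e^{|h|}` and `le_Lam`. -/
lemma lt_Lam (hμ : EM μ) (h : ℝ) : |h| + m0 μ < Lam μ h := by
  refine lt_of_lt_of_le ?_ (le_Lam hμ h)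
  have h1 : |h| < Real.log (2 * Real.cosh h) := by
    rw [Real.lt_log_iff_exp_lt (by have := Real.cosh_pos h; positivity), Real.cosh_eq]
    have h2 := Real.exp_pos h
    have h3 := Real.exp_pos (-h)
    rcases abs_cases h with ⟨h4, _⟩ | ⟨h4, _⟩
    · rw [h4]
      linarith
    · rw [h4]
      linarith
  linarith

end

end Pool.Agent.W_7d29a1_h47
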