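import Pool.Agent.W_7d29a1_h47.Conc
import Pool.Agent.W_7d29a1_h47.LamA

/-!
# Almost sure convergence of the free energy
-/

namespace Pool.Agent.W_7d29a1_h47

open MeasureTheory ProbabilityTheory Finset Filter Topology

noncomputable section

variable {μ : Measure ℝ} [IsProbabilityMeasure μ]

/-- Exponential Chebyshev bound. -/
lemma Lim_dev (hμ : EM μ) (h : ℝ) (n : ℕ) {θ ε : ℝ} (hθ : 0 < θ) (hθ1 : θ ≤ 1) :
    (law μ).real {g | ε * n ≤ |Real.log (Z g h 0 0 n) - a μ h n|} ≤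
      2 * Real.exp (Cc μ * θ ^ 2 * n - θ * ε * n) := by
  set X : Env → ℝ := fun g => Real.log (Z g h 0 0 n) - a μ h n with hX
  have hXm : EMom (law μ) X := (EMom_logZ hμ h 0 0 n).sub (EMom.const _)
  have hadm : Adm (fun y => Real.exp (h * y)) 0 n := Adm.of_pos (fun y => Real.exp_pos _) 0 n
  have hZ : ∀ g : Env, Z g h 0 0 n = Zv g (fun y => Real.exp (h * y)) 0 0 n := by
    intro g; rw [Z_eq_Zv]; simp
  have ha : a μ h n = ∫ g, Real.log (Zv g (fun y => Real.exp (h * y)) 0 0 n) ∂(law μ) := by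
    unfold a; simp only [hZ]
  have h1 : ∫ g, Real.exp (θ * X g) ∂(law μ) ≤ Real.exp (Cc μ * θ ^ 2 * n) := by
    have := conc hμ n hadm 0 (θ := θ) (by rw [abs_of_pos hθ]; exact hθ1)
    simpa only [hX, hZ, ha] using this
  have h2 : ∫ g, Real.exp (-θ * X g) ∂(law μ) ≤ Real.exp (Cc μ * θ ^ 2 * n) := by
    have := conc hμ n hadm 0 (θ := -θ) (by rw [abs_neg, abs_of_pos hθ]; exact hθ1)
    simpa only [hX, hZ, ha, neg_sq] using this
  have hi1 := hXm.integrable_exp θ
  have hi2 := hXm.integrable_exp (-θ)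
  have h3 : Real.exp (θ * ε * n) * (law μ).real {g | ε * n ≤ |X g|} ≤
      2 * Real.exp (Cc μ * θ ^ 2 * n) := by
    have h4 := mul_meas_ge_le_integral_of_nonneg (μ := law μ)
      (f := fun g => Real.exp (θ * X g) + Real.exp (-θ * X g))
      (Eventually.of_forall fun g => by positivity) (hi1.add hi2) (Real.exp (θ * ε * n))
    rw [integral_add hi1 hi2] at h4
    have h5 : (law μ).real {g | ε * n ≤ |X g|} ≤ (law μ).real
        {g | Real.exp (θ * ε * n) ≤ Real.exp (θ * X g) + Real.exp (-θ * X g)} := by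
      refine measureReal_mono (fun g hg => ?_) (measure_ne_top _ _)
      simp only [Set.mem_setOf_eq] at hg ⊢
      rcases le_abs.1 hg with h6 | h6
      · have : θ * ε * n ≤ θ * X g := by nlinarith
        linarith [Real.exp_le_exp.2 this, Real.exp_pos (-θ * X g)]
      · have : θ * ε * n ≤ -θ * X g := by nlinarith
        linarith [Real.exp_le_exp.2 this, Real.exp_pos (θ * X g)]
    have h6 := mul_le_mul_of_nonneg_left h5 (Real.exp_pos (θ * ε * n)).le
    linarith
  have h7 : (law μ).real {g | ε * n ≤ |X g|} ≤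
      Real.exp (-(θ * ε * n)) * (2 * Real.exp (Cc μ * θ ^ 2 * n)) := by
    have h8 := mul_le_mul_of_nonneg_left h3 (Real.exp_pos (-(θ * ε * n))).le
    rw [← mul_assoc, ← Real.exp_add] at h8
    simpa using h8
  refine h7.trans (le_of_eq ?_)
  rw [mul_comm, mul_assoc, ← Real.exp_add]
  ring_nf

lemma Cc_nonneg (μ : Measure ℝ) : 0 ≤ Cc μ := by unfold Cc; positivity

/-- For every `ε > 0`, almost surely `|log Z - a| < ε n` for large `n`. -/
lemma Lim_ev (hμ : EM μ) (h : ℝ) {ε : ℝ} (hε : 0 < ε) :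
    ∀ᵐ g ∂(law μ), ∀ᶠ n : ℕ in atTop, |Real.log (Z g h 0 0 n) - a μ h n| < ε * n := by
  set θ : ℝ := min 1 (ε / (2 * (Cc μ + 1))) with hθ
  have hC := Cc_nonneg μ
  have hθ0 : 0 < θ := lt_min one_pos (by positivity)
  have hθ1 : θ ≤ 1 := min_le_left _ _
  have hθ2 : Cc μ * θ ^ 2 ≤ θ * ε / 2 := by
    have h1 : θ ≤ ε / (2 * (Cc μ + 1)) := min_le_right _ _
    have h2 : θ * (2 * (Cc μ + 1)) ≤ ε := by rwa [le_div_iff₀ (by positivity)] at h1
    nlinarith
  set c : ℝ := θ * ε / 2 with hc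
  have hc0 : 0 < c := by positivity
  have hb : ∀ n : ℕ, (law μ) {g | ε * n ≤ |Real.log (Z g h 0 0 n) - a μ h n|} ≤
      ENNReal.ofReal (2 * Real.exp (-c) ^ n) := by
    intro n
    have h1 := Lim_dev hμ h n hθ0 hθ1 (ε := ε)
    have h2 : Cc μ * θ ^ 2 * n - θ * ε * n ≤ n * (-c) := by
      have : Cc μ * θ ^ 2 * n ≤ θ * ε / 2 * n :=
        mul_le_mul_of_nonneg_right hθ2 (Nat.cast_nonneg n)
      rw [hc]; linarith
    have h3 : (law μ).real {g | ε * n ≤ |Real.log (Z g h 0 0 n) - a μ h n|} ≤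
        2 * Real.exp (-c) ^ n := by
      refine h1.trans ?_
      rw [← Real.exp_nat_mul]
      exact mul_le_mul_of_nonneg_left (Real.exp_le_exp.2 h2) (by norm_num)
    rw [← ofReal_measureReal]
    exact ENNReal.ofReal_le_ofReal h3
  have hsum : (∑' n : ℕ, (law μ) {g | ε * n ≤ |Real.log (Z g h 0 0 n) - a μ h n|}) ≠ ⊤ := by
    have hr : Summable fun n : ℕ => 2 * Real.exp (-c) ^ n :=
      (summable_geometric_of_lt_one (Real.exp_pos _).le (by
        rw [Real.exp_lt_one_iff]; linarith)).mul_left 2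
    refine ne_top_of_le_ne_top ?_ (ENNReal.tsum_le_tsum hb)
    exact hr.tsum_ofReal_ne_top
  filter_upwards [ae_eventually_notMem hsum] with g hg
  filter_upwards [hg] with n hn
  simpa using hn

theorem tendsto_logZ (hμ : EM μ) (h : ℝ) :
    ∀ᵐ g ∂(law μ), Tendsto (fun n : ℕ => Real.log (Z g h 0 0 n) / n) atTop (𝓝 (Lam μ h)) := by
  have h1 : ∀ᵐ g ∂(law μ), ∀ m : ℕ, ∀ᶠ n : ℕ in atTop,
      |Real.log (Z g h 0 0 n) - a μ h n| < 1 / ((m : ℝ) + 1) * n :=
    ae_all_iff.2 fun m => Lim_ev hμ h (by positivity)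
  filter_upwards [h1] with g hg
  have h2 : Tendsto (fun n : ℕ => Real.log (Z g h 0 0 n) / n - a μ h n / n) atTop (𝓝 0) := by
    rw [Metric.tendsto_atTop]
    intro ε hε
    obtain ⟨m, hm⟩ := exists_nat_one_div_lt hε
    obtain ⟨N, hN⟩ := eventually_atTop.1 (hg m)
    refine ⟨max N 1, fun n hn => ?_⟩
    have hn1 : (0 : ℝ) < n := by
      have : 1 ≤ n := (le_max_right _ _).trans hn
      exact_mod_cast this
    rw [Real.dist_eq, sub_zero, ← sub_div, abs_div, abs_of_pos hn1, div_lt_iff₀ hn1]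
    refine (hN n ((le_max_left _ _).trans hn)).trans_le ?_
    exact mul_le_mul_of_nonneg_right hm.le hn1.le
  have h3 := h2.add (tendsto_a hμ h)
  simpa using h3

end

end Pool.Agent.W_7d29a1_h47
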