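import Mathlib

/-!
# One-site tools: calculus
-/

namespace Pool.Agent.W_7d29a1_h47

open MeasureTheory ProbabilityTheory Finset

noncomputable section

variable {μ : Measure ℝ} [IsProbabilityMeasure μ]

/-- The law of one site is not concentrated in a point. -/
def Nondeg (μ : Measure ℝ) : Prop := ∀ c : ℝ, μ {c} ≠ 1

/-- A countable union argument on the left. -/
lemma SiteG_Iio (c : ℝ) (h : ∀ x, x < c → μ (Set.Iic x) = 0) : μ (Set.Iio c) = 0 := by
  have h1 : Set.Iio c = ⋃ n : ℕ, Set.Iic (c - 1 / ((n : ℝ) + 1)) := by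
    ext x
    simp only [Set.mem_Iio, Set.mem_iUnion, Set.mem_Iic]
    constructor
    · intro hx
      obtain ⟨n, hn⟩ := exists_nat_one_div_lt (sub_pos.2 hx)
      exact ⟨n, by linarith⟩
    · rintro ⟨n, hn⟩
      have : (0 : ℝ) < 1 / ((n : ℝ) + 1) := by positivity
      linarith
  rw [h1, measure_iUnion_null_iff]
  intro n
  refine h _ ?_
  have : (0 : ℝ) < 1 / ((n : ℝ) + 1) := by positivity
  linarith

/-- A countable union argument on the right. -/
lemma SiteG_Ioi (c : ℝ) (h : ∀ x, c < x → μ (Set.Ici x) = 0) : μ (Set.Ioi c) = 0 := by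
  have h1 : Set.Ioi c = ⋃ n : ℕ, Set.Ici (c + 1 / ((n : ℝ) + 1)) := by
    ext x
    simp only [Set.mem_Ioi, Set.mem_iUnion, Set.mem_Ici]
    constructor
    · intro hx
      obtain ⟨n, hn⟩ := exists_nat_one_div_lt (sub_pos.2 hx)
      exact ⟨n, by linarith⟩
    · rintro ⟨n, hn⟩
      have : (0 : ℝ) < 1 / ((n : ℝ) + 1) := by positivity
      linarith
  rw [h1, measure_iUnion_null_iff]
  intro n
  refine h _ ?_
  have : (0 : ℝ) < 1 / ((n : ℝ) + 1) := by positivity
  linarith

/-- Proof. Otherwise for every `c` with rational … : let `F(c) = μ (Iic c)`; if for all `a < b`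
`μ (Iic a) = 0` or `μ (Ici b) = 0`, then `F` only takes the values `0, 1` and `μ` is a point mass at
`c = inf {F = 1}`. -/
lemma exists_gap (hnd : Nondeg μ) : ∃ p q : ℝ, p < q ∧ 0 < μ.real (Set.Iic p) ∧
    0 < μ.real (Set.Ici q) := by
  by_contra hcon
  have key : ∀ p q : ℝ, p < q → μ (Set.Iic p) ≠ 0 → μ (Set.Ici q) = 0 := by
    intro p q hpq hp
    by_contra hq
    refine hcon ⟨p, q, hpq, ?_, ?_⟩
    · exact ENNReal.toReal_pos hp (measure_ne_top _ _)
    · exact ENNReal.toReal_pos hq (measure_ne_top _ _)
  have huniv : μ Set.univ = 1 := measure_univ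
  -- some half line to the left has positive measure
  have hne : ∃ x : ℝ, μ (Set.Iic x) ≠ 0 := by
    by_contra h
    push Not at h
    have h1 : (Set.univ : Set ℝ) = ⋃ n : ℕ, Set.Iic (n : ℝ) := by
      ext x
      simp only [Set.mem_univ, Set.mem_iUnion, Set.mem_Iic, true_iff]
      exact exists_nat_ge x
    have h2 : μ Set.univ = 0 := by
      rw [h1, measure_iUnion_null_iff]
      exact fun n => h _
    rw [h2] at huniv
    exact zero_ne_one huniv
  have hne2 : ∃ x : ℝ, μ (Set.Iic x) = 0 := by
    by_contra h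
    push Not at h
    have h1 : (Set.univ : Set ℝ) = ⋃ n : ℕ, Set.Ici (-(n : ℝ)) := by
      ext x
      simp only [Set.mem_univ, Set.mem_iUnion, Set.mem_Ici, true_iff]
      obtain ⟨n, hn⟩ := exists_nat_ge (-x)
      exact ⟨n, by linarith⟩
    have h2 : μ Set.univ = 0 := by
      rw [h1, measure_iUnion_null_iff]
      exact fun n => key (-(n : ℝ) - 1) _ (by linarith) (h _)
    rw [h2] at huniv
    exact zero_ne_one huniv
  obtain ⟨x0, hx0⟩ := hne2
  set S : Set ℝ := {x | μ (Set.Iic x) ≠ 0} with hS
  have hSne : S.Nonempty := hne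
  have hSb : BddBelow S := by
    refine ⟨x0, fun x hx => ?_⟩
    by_contra hlt
    push Not at hlt
    exact hx (measure_mono_null (Set.Iic_subset_Iic.2 hlt.le) hx0)
  set c : ℝ := sInf S with hc
  have h1 : μ (Set.Iio c) = 0 := by
    refine SiteG_Iio c fun x hx => ?_
    by_contra h
    have : c ≤ x := csInf_le hSb h
    linarith
  have h2 : μ (Set.Ioi c) = 0 := by
    refine SiteG_Ioi c fun x hx => ?_
    obtain ⟨p, hp, hpx⟩ := exists_lt_of_csInf_lt hSne hx
    exact key p x hpx hp
  have h3 : μ ({c}ᶜ) = 0 := by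
    have : ({c}ᶜ : Set ℝ) = Set.Iio c ∪ Set.Ioi c := by
      ext x
      simp only [Set.mem_compl_iff, Set.mem_singleton_iff, Set.mem_union, Set.mem_Iio, Set.mem_Ioi]
      exact ne_iff_lt_or_gt
    rw [this]
    exact measure_union_null h1 h2
  refine hnd c ?_
  exact (prob_compl_eq_zero_iff (measurableSet_singleton c)).1 h3

/-- The bounded increasing test function: `(u - p)/(q - p)` clamped to `[0, 1]`. -/
def phi (p q : ℝ) (u : ℝ) : ℝ := max 0 (min 1 ((u - p) / (q - p)))

/-- The lower bound for the response. -/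
def kmin (μ : Measure ℝ) (p q : ℝ) : ℝ :=
  (1 / 4) * (1 - Real.exp (-((q - p) / 2))) * min (μ.real (Set.Iic p)) (μ.real (Set.Ici q))

lemma SiteG_phi_nonneg (p q u : ℝ) : 0 ≤ phi p q u := le_max_left _ _

lemma SiteG_phi_le (p q u : ℝ) : phi p q u ≤ 1 := max_le zero_le_one (min_le_left _ _)

lemma SiteG_phi_mono {p q : ℝ} (hpq : p < q) {u u' : ℝ} (h : u ≤ u') : phi p q u ≤ phi p q u' := by
  unfold phi
  have h1 : 0 < q - p := sub_pos.2 hpq
  have h2 : (u - p) / (q - p) ≤ (u' - p) / (q - p) := by gcongr
  exact max_le_max le_rfl (min_le_min le_rfl h2)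

lemma SiteG_phi_meas (p q : ℝ) : Measurable (phi p q) := by
  unfold phi
  fun_prop

/-- Response kernel: pure calculus. For `α, β, γ, ε ≥ 0` (sums over walks: not through the site and in
`A`; through the site and in `A`; not through the site; through the site) with `γ + ε > 0`,
put `P u = (α + β e^u)/(γ + ε e^u)`, `R u = ε e^u / (γ + ε e^u)`, `Q u = β e^u / (γ + ε e^u)`. With
`Cov = Q u - P u * R u = e^u (β γ - α ε)/(γ + ε e^u)²`:
`(phi u - phi u') (P u - P u') = Cov u * w`, `w = (phi u - phi u')(1 - e^{u'-u})(γ+ε e^u)/(γ+ε e^{u'})`,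
`|phi u - phi u'| (1 - e^{-|u-u'|}) ≤ w ≤ e^{|u - u'|}` (and `w ≥ 0`). In the form used: for numbers
`X, Y ≥ 0` with `Cov u = X - Y` (here `X = R u * (1 - P u)`, `Y = R u - Q u`, i.e. `P(y)P(Aᶜ)` and
`P(y ∩ Aᶜ)`):
`(phi u - phi u')(P u - P u') ≥ |phi u - phi u'| (1 - e^{-|u-u'|}) X - e^{|u-u'|} Y`. -/
lemma response_pointwise {p q α β γ ε : ℝ} (hpq : p < q) (hα : 0 ≤ α) (hβ : 0 ≤ β) (hαγ : α ≤ γ)
    (hβε : β ≤ ε) (hpos : 0 < γ + ε) (u u' : ℝ) :
    |phi p q u - phi p q u'| * (1 - Real.exp (-|u - u'|)) *
        (ε * Real.exp u / (γ + ε * Real.exp u) *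
          (1 - (α + β * Real.exp u) / (γ + ε * Real.exp u))) -
      Real.exp |u - u'| * ((ε - β) * Real.exp u / (γ + ε * Real.exp u)) ≤
    (phi p q u - phi p q u') * ((α + β * Real.exp u) / (γ + ε * Real.exp u) -
      (α + β * Real.exp u') / (γ + ε * Real.exp u')) := by
  have hγ : 0 ≤ γ := hα.trans hαγ
  have hε : 0 ≤ ε := hβ.trans hβε
  have hD : ∀ v : ℝ, 0 < γ + ε * Real.exp v := by
    intro v
    have hv := Real.exp_pos v
    rcases hγ.eq_or_lt with h | h
    · have : 0 < ε := by linarith
      positivity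
    · positivity
  set D := γ + ε * Real.exp u with hDdef
  set D' := γ + ε * Real.exp u' with hD'def
  have hD0 : 0 < D := hD u
  have hD'0 : 0 < D' := hD u'
  set X := ε * Real.exp u / D * (1 - (α + β * Real.exp u) / D) with hX
  set Y := (ε - β) * Real.exp u / D with hY
  set w := (phi p q u - phi p q u') * (1 - Real.exp (u' - u)) * (D / D') with hw
  have heu := Real.exp_pos u
  have heu' := Real.exp_pos u'
  have hX0 : 0 ≤ X := by
    refine mul_nonneg (by positivity) ?_
    rw [sub_nonneg, div_le_one hD0, hDdef]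
    have := mul_le_mul_of_nonneg_right hβε heu.le
    linarith
  have hY0 : 0 ≤ Y := by
    have : 0 ≤ ε - β := sub_nonneg.2 hβε
    positivity
  have hmain : (phi p q u - phi p q u') * ((α + β * Real.exp u) / D - (α + β * Real.exp u') / D') =
      (X - Y) * w := by
    have e1 : (α + β * Real.exp u) / D - (α + β * Real.exp u') / D' =
        (β * γ - α * ε) * (Real.exp u - Real.exp u') / (D * D') := by
      rw [div_sub_div _ _ hD0.ne' hD'0.ne', hDdef, hD'def]
      congr 1
      ring
    have e2 : X - Y = Real.exp u * (β * γ - α * ε) / D ^ 2 := by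
      rw [hX, hY]
      field_simp
      rw [hDdef]
      ring
    have e3 : 1 - Real.exp (u' - u) = (Real.exp u - Real.exp u') / Real.exp u := by
      rw [Real.exp_sub]
      field_simp
    rw [e1, e2, hw, e3]
    field_simp
  have hexp1 : ∀ t : ℝ, 0 ≤ t → 0 ≤ 1 - Real.exp (-t) := by
    intro t ht
    have : Real.exp (-t) ≤ 1 := Real.exp_le_one_iff.2 (by linarith)
    linarith
  have hw1 : |phi p q u - phi p q u'| * (1 - Real.exp (-|u - u'|)) ≤ w ∧ w ≤ Real.exp |u - u'| := by
    rcases le_total u' u with h | h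
    · have hphi : phi p q u' ≤ phi p q u := SiteG_phi_mono hpq h
      have hab : |u - u'| = u - u' := abs_of_nonneg (by linarith)
      have hr1 : 1 ≤ D / D' := by
        rw [le_div_iff₀ hD'0, one_mul, hDdef, hD'def]
        have := mul_le_mul_of_nonneg_left (Real.exp_le_exp.2 h) hε
        linarith
      have hr2 : D / D' ≤ Real.exp (u - u') := by
        rw [div_le_iff₀ hD'0, hDdef, hD'def, mul_add]
        have h3 : Real.exp (u - u') * (ε * Real.exp u') = ε * Real.exp u := by
          rw [mul_left_comm, ← Real.exp_add]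
          congr 2
          ring
        rw [h3]
        have h4 : 1 ≤ Real.exp (u - u') := Real.one_le_exp (by linarith)
        nlinarith
      have e4 : Real.exp (u' - u) = Real.exp (-(u - u')) := by
        congr 1
        ring
      have h5 := hexp1 (u - u') (by linarith)
      have h6 : 1 - Real.exp (-(u - u')) ≤ 1 := by
        have := Real.exp_pos (-(u - u'))
        linarith
      have h7 : 0 ≤ phi p q u - phi p q u' := by linarith
      have h8 : phi p q u - phi p q u' ≤ 1 := by
        have := SiteG_phi_nonneg p q u'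
        have := SiteG_phi_le p q u
        linarith
      rw [hab, abs_of_nonneg h7, hw, e4]
      have h9 : 0 ≤ (phi p q u - phi p q u') * (1 - Real.exp (-(u - u'))) := mul_nonneg h7 h5
      refine ⟨le_mul_of_one_le_right h9 hr1, ?_⟩
      have h10 : (phi p q u - phi p q u') * (1 - Real.exp (-(u - u'))) ≤ 1 :=
        mul_le_one₀ h8 h5 h6
      calc (phi p q u - phi p q u') * (1 - Real.exp (-(u - u'))) * (D / D') ≤ 1 * (D / D') := by
            gcongr
        _ ≤ Real.exp (u - u') := by rw [one_mul]; exact hr2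
    · have hphi : phi p q u ≤ phi p q u' := SiteG_phi_mono hpq h
      have hab : |u - u'| = u' - u := by
        rw [abs_sub_comm]
        exact abs_of_nonneg (by linarith)
      have hr1 : D / D' ≤ 1 := by
        rw [div_le_iff₀ hD'0, one_mul, hDdef, hD'def]
        have := mul_le_mul_of_nonneg_left (Real.exp_le_exp.2 h) hε
        linarith
      have hr2 : Real.exp (-(u' - u)) ≤ D / D' := by
        rw [le_div_iff₀ hD'0, hDdef, hD'def, mul_add]
        have h3 : Real.exp (-(u' - u)) * (ε * Real.exp u') = ε * Real.exp u := by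
          rw [mul_left_comm, ← Real.exp_add]
          congr 2
          ring
        rw [h3]
        have h4 : Real.exp (-(u' - u)) ≤ 1 := Real.exp_le_one_iff.2 (by linarith)
        nlinarith
      have h5 := hexp1 (u' - u) (by linarith)
      have h7 : 0 ≤ phi p q u' - phi p q u := by linarith
      have h8 : phi p q u' - phi p q u ≤ 1 := by
        have := SiteG_phi_nonneg p q u
        have := SiteG_phi_le p q u'
        linarith
      have e5 : |phi p q u - phi p q u'| = phi p q u' - phi p q u := by
        rw [abs_sub_comm, abs_of_nonneg h7]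
      have e6 : w = (phi p q u' - phi p q u) * (Real.exp (u' - u) - 1) * (D / D') := by
        rw [hw]
        ring
      have h11 : 0 ≤ Real.exp (u' - u) - 1 := by
        have := Real.one_le_exp (show 0 ≤ u' - u by linarith)
        linarith
      have e7 : 1 - Real.exp (-(u' - u)) = (Real.exp (u' - u) - 1) * Real.exp (-(u' - u)) := by
        rw [sub_mul, ← Real.exp_add]
        simp
      rw [hab, e5, e6]
      constructor
      · rw [e7, ← mul_assoc]
        exact mul_le_mul_of_nonneg_left hr2 (mul_nonneg h7 h11)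
      · calc (phi p q u' - phi p q u) * (Real.exp (u' - u) - 1) * (D / D')
            ≤ 1 * (Real.exp (u' - u) - 1) * 1 := by gcongr
          _ ≤ Real.exp (u' - u) := by linarith
  rw [hmain]
  have h12 := mul_le_mul_of_nonneg_right hw1.1 hX0
  have h13 := mul_le_mul_of_nonneg_right hw1.2 hY0
  linarith

/-- Proof. If `u ≥ (p+q)/2` use the `u' ≤ p`: `|phi u - phi u'| ≥ 1/2`, `|u - u'| ≥ (q-p)/2`; if
`u ≤ (p+q)/2` use the `u' ≥ q`. -/
lemma kmin_le {p q : ℝ} (hpq : p < q) (u : ℝ) :
    2 * kmin μ p q ≤ ∫ u', |phi p q u - phi p q u'| * (1 - Real.exp (-|u - u'|)) ∂μ := by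
  have hqp : 0 < q - p := sub_pos.2 hpq
  set κ : ℝ := (1 / 2) * (1 - Real.exp (-((q - p) / 2))) with hκ
  have hexp : ∀ t : ℝ, 0 ≤ t → 0 ≤ 1 - Real.exp (-t) := by
    intro t ht
    have : Real.exp (-t) ≤ 1 := Real.exp_le_one_iff.2 (by linarith)
    linarith
  have hκ0 : 0 ≤ κ := by
    have := hexp ((q - p) / 2) (by linarith)
    positivity
  set f : ℝ → ℝ := fun u' => |phi p q u - phi p q u'| * (1 - Real.exp (-|u - u'|)) with hf
  have hf0 : ∀ u', 0 ≤ f u' := fun u' => mul_nonneg (abs_nonneg _) (hexp _ (abs_nonneg _))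
  have hf1 : ∀ u', f u' ≤ 1 := by
    intro u'
    have h1 : |phi p q u - phi p q u'| ≤ 1 := by
      rw [abs_le]
      have := SiteG_phi_nonneg p q u
      have := SiteG_phi_le p q u
      have := SiteG_phi_nonneg p q u'
      have := SiteG_phi_le p q u'
      constructor <;> linarith
    have h2 : 1 - Real.exp (-|u - u'|) ≤ 1 := by
      have := Real.exp_pos (-|u - u'|)
      linarith
    exact mul_le_one₀ h1 (hexp _ (abs_nonneg _)) h2
  have hfm : Measurable f := by
    have := SiteG_phi_meas p q
    rw [hf]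
    fun_prop
  have hfi : Integrable f μ := by
    refine Integrable.of_bound hfm.aestronglyMeasurable 1 (Filter.Eventually.of_forall fun u' => ?_)
    rw [Real.norm_eq_abs, abs_of_nonneg (hf0 u')]
    exact hf1 u'
  -- lower bound from a set
  have key : ∀ S : Set ℝ, MeasurableSet S → (∀ u' ∈ S, κ ≤ f u') → κ * μ.real S ≤ ∫ u', f u' ∂μ := by
    intro S hS h
    calc κ * μ.real S = ∫ u', S.indicator (fun _ => κ) u' ∂μ := by
          rw [integral_indicator hS, setIntegral_const, smul_eq_mul, mul_comm]
      _ ≤ ∫ u', f u' ∂μ := by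
          refine integral_mono ((integrable_const κ).indicator hS) hfi fun u' => ?_
          by_cases hu : u' ∈ S
          · rw [Set.indicator_of_mem hu]
            exact h u' hu
          · rw [Set.indicator_of_notMem hu]
            exact hf0 u'
  have hmain : ∀ u', 1 / 2 ≤ |phi p q u - phi p q u'| → (q - p) / 2 ≤ |u - u'| → κ ≤ f u' := by
    intro u' h1 h2
    have h3 : Real.exp (-|u - u'|) ≤ Real.exp (-((q - p) / 2)) := Real.exp_le_exp.2 (by linarith)
    have h4 := hexp ((q - p) / 2) (by linarith)
    rw [hκ, hf]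
    simp only
    gcongr
  rcases le_total ((p + q) / 2) u with h | h
  · have h1 : κ * μ.real (Set.Iic p) ≤ ∫ u', f u' ∂μ := by
      refine key _ measurableSet_Iic fun u' hu' => hmain u' ?_ ?_
      · have hu'p : u' ≤ p := hu'
        have e1 : phi p q u' = 0 := by
          unfold phi
          rw [max_eq_left]
          refine (min_le_right _ _).trans ?_
          exact div_nonpos_of_nonpos_of_nonneg (by linarith) hqp.le
        have e2 : 1 / 2 ≤ phi p q u := by
          unfold phi
          refine le_max_of_le_right (le_min (by norm_num) ?_)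
          rw [le_div_iff₀ hqp]
          linarith
        rw [e1, sub_zero]
        exact e2.trans (le_abs_self _)
      · have hu'p : u' ≤ p := hu'
        refine le_trans ?_ (le_abs_self _)
        linarith
    refine le_trans ?_ h1
    have h2 : 2 * kmin μ p q = κ * min (μ.real (Set.Iic p)) (μ.real (Set.Ici q)) := by
      rw [hκ]
      unfold kmin
      ring
    rw [h2]
    exact mul_le_mul_of_nonneg_left (min_le_left _ _) hκ0
  · have h1 : κ * μ.real (Set.Ici q) ≤ ∫ u', f u' ∂μ := by
      refine key _ measurableSet_Ici fun u' hu' => hmain u' ?_ ?_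
      · have hu'p : q ≤ u' := hu'
        have e1 : phi p q u' = 1 := by
          unfold phi
          rw [min_eq_left, max_eq_right zero_le_one]
          rw [le_div_iff₀ hqp]
          linarith
        have e2 : phi p q u ≤ 1 / 2 := by
          unfold phi
          refine max_le (by norm_num) ((min_le_right _ _).trans ?_)
          rw [div_le_iff₀ hqp]
          linarith
        rw [e1, abs_sub_comm]
        refine le_trans ?_ (le_abs_self _)
        linarith
      · have hu'p : q ≤ u' := hu'
        rw [abs_sub_comm]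
        refine le_trans ?_ (le_abs_self _)
        linarith
    refine le_trans ?_ h1
    have h2 : 2 * kmin μ p q = κ * min (μ.real (Set.Iic p)) (μ.real (Set.Ici q)) := by
      rw [hκ]
      unfold kmin
      ring
    rw [h2]
    exact mul_le_mul_of_nonneg_left (min_le_right _ _) hκ0

end

end Pool.Agent.W_7d29a1_h47
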