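import Pool.Agent.W_7d29a1_h47.Defs

/-!
# Combinatorics of walks
-/

namespace Pool.Agent.W_7d29a1_h47

open MeasureTheory ProbabilityTheory Finset

noncomputable section

/-! ### Indicators -/

lemma ind_true {p : Prop} (h : p) : ind p = 1 := by simp [ind, h]

lemma ind_false {p : Prop} (h : ¬ p) : ind p = 0 := by simp [ind, h]

lemma ind_nonneg (p : Prop) : 0 ≤ ind p := by
  by_cases h : p
  · rw [ind_true h]; norm_num
  · rw [ind_false h]

lemma ind_le_one (p : Prop) : ind p ≤ 1 := by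
  by_cases h : p
  · rw [ind_true h]
  · rw [ind_false h]; norm_num

lemma ind_mono {p q : Prop} (h : p → q) : ind p ≤ ind q := by
  by_cases hp : p
  · rw [ind_true hp, ind_true (h hp)]
  · rw [ind_false hp]; exact ind_nonneg q

lemma ind_congr {p q : Prop} (h : p ↔ q) : ind p = ind q :=
  le_antisymm (ind_mono h.1) (ind_mono h.2)

lemma ind_abs (p : Prop) : |ind p| ≤ 1 := by
  rw [abs_of_nonneg (ind_nonneg p)]; exact ind_le_one p

lemma ind_not (p : Prop) : ind (¬ p) = 1 - ind p := by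
  by_cases h : p
  · rw [ind_true h, ind_false (not_not.2 h)]; norm_num
  · rw [ind_false h, ind_true h]; norm_num

lemma ind_and (p q : Prop) : ind (p ∧ q) = ind p * ind q := by
  by_cases h : p
  · by_cases h' : q
    · rw [ind_true h, ind_true h', ind_true ⟨h, h'⟩]; norm_num
    · rw [ind_false h', ind_false fun c => h' c.2]; norm_num
  · rw [ind_false h, ind_false fun c => h c.1]; norm_num

lemma ind_or_le (p q : Prop) : ind (p ∨ q) ≤ ind p + ind q := by
  by_cases h : p
  · rw [ind_true h, ind_true (Or.inl h)]; linarith [ind_nonneg q]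
  · by_cases h' : q
    · rw [ind_true h', ind_true (Or.inr h')]; linarith [ind_nonneg p]
    · rw [ind_false (not_or.2 ⟨h, h'⟩)]; linarith [ind_nonneg p, ind_nonneg q]

/-- Markov's inequality, pointwise form. -/
lemma ind_le_div {x c : ℝ} (hc : 0 < c) (hx : 0 ≤ x) : ind (c ≤ x) ≤ x / c := by
  by_cases h : c ≤ x
  · rw [ind_true h, le_div_iff₀ hc]; linarith
  · rw [ind_false h]; positivity

/-! ### The set `T n` -/

lemma mem_T {n : ℕ} {s : ℕ → Bool} : s ∈ T n ↔ ∀ i, n ≤ i → s i = false := by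
  constructor
  · intro h i hi
    simp only [T, Finset.mem_map, Finset.mem_univ, true_and, Function.Embedding.coeFn_mk] at h
    obtain ⟨r, rfl⟩ := h
    simp [ext, not_lt.2 hi]
  · intro h
    simp only [T, Finset.mem_map, Finset.mem_univ, true_and, Function.Embedding.coeFn_mk]
    refine ⟨fun i => s i, ?_⟩
    funext i
    by_cases hi : i < n
    · simp [ext, hi]
    · simp [ext, hi, h i (not_lt.1 hi)]

lemma card_T (n : ℕ) : (T n).card = 2 ^ n := by simp [T]

lemma T_nonempty (n : ℕ) : (T n).Nonempty := ⟨fun _ => false, mem_T.2 fun _ _ => rfl⟩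

lemma T_zero : T 0 = {fun _ => false} := by
  ext s
  rw [mem_T, Finset.mem_singleton]
  constructor
  · intro h; funext i; exact h i (Nat.zero_le i)
  · rintro rfl i _; rfl

lemma T_mono {m n : ℕ} (h : m ≤ n) : T m ⊆ T n := fun _ hs =>
  mem_T.2 fun i hi => mem_T.1 hs i (h.trans hi)

/-! ### Positions -/

lemma stp_abs (b : Bool) : |stp b| = 1 := by cases b <;> simp [stp]

lemma stp_le (b : Bool) : stp b ≤ 1 := by cases b <;> simp [stp]

lemma le_stp (b : Bool) : -1 ≤ stp b := by cases b <;> simp [stp]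

@[simp] lemma stp_true : stp true = 1 := rfl

@[simp] lemma stp_false : stp false = -1 := rfl

@[simp] lemma pos_zero (s : ℕ → Bool) : pos s 0 = 0 := by simp [pos]

lemma pos_succ (s : ℕ → Bool) (i : ℕ) : pos s (i + 1) = pos s i + stp (s i) := by
  simp [pos, Finset.sum_range_succ]

lemma pos_congr {s r : ℕ → Bool} {i : ℕ} (h : ∀ j < i, s j = r j) : pos s i = pos r i := by
  unfold pos
  exact Finset.sum_congr rfl fun j hj => by rw [h j (Finset.mem_range.1 hj)]

lemma pos_add (s : ℕ → Bool) (i j : ℕ) : pos s (i + j) = pos s i + pos (shf i s) j := by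
  simp [pos, Finset.sum_range_add, shf]

lemma pos_abs_le (s : ℕ → Bool) (i : ℕ) : |pos s i| ≤ i := by
  induction i with
  | zero => simp
  | succ i ih =>
    rw [pos_succ]
    have h1 := stp_abs (s i)
    have h2 := abs_add_le (pos s i) (stp (s i))
    push_cast
    omega

lemma pos_sub_abs_le (s : ℕ → Bool) {i j : ℕ} (h : i ≤ j) : |pos s j - pos s i| ≤ j - i := by
  obtain ⟨k, rfl⟩ := Nat.exists_eq_add_of_le h
  rw [pos_add]
  have := pos_abs_le (shf i s) k
  push_cast
  have h2 : pos s i + pos (shf i s) k - pos s i = pos (shf i s) k := by ring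
  rw [h2]
  omega

/-- Parity: `pos s i` has the parity of `i`. -/
lemma pos_parity (s : ℕ → Bool) (i : ℕ) : pos s i % 2 = i % 2 := by
  induction i with
  | zero => simp
  | succ i ih =>
    rw [pos_succ]
    have h : stp (s i) = 1 ∨ stp (s i) = -1 := by cases s i <;> simp
    push_cast
    rcases h with h | h <;> rw [h] <;> omega

lemma pos_mem_Icc (s : ℕ → Bool) (n : ℕ) (x : ℤ) : x + pos s n ∈ Finset.Icc (x - n) (x + n) := by
  have h := abs_le.1 (pos_abs_le s n)
  rw [Finset.mem_Icc]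
  constructor <;> linarith [h.1, h.2]

/-! ### Gluing and cutting -/

lemma glue_lt {a i : ℕ} (h : i < a) (s r : ℕ → Bool) : glue a s r i = s i := by simp [glue, h]

lemma glue_add (a i : ℕ) (s r : ℕ → Bool) : glue a s r (a + i) = r i := by simp [glue]

lemma cut_lt {a i : ℕ} (h : i < a) (s : ℕ → Bool) : cut a s i = s i := by simp [cut, h]

lemma glue_mem {a b : ℕ} {s r : ℕ → Bool} (hr : r ∈ T b) : glue a s r ∈ T (a + b) := by
  rw [mem_T]
  intro i hi
  have h : ¬ i < a := by omega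
  simp only [glue, h, if_false]
  exact mem_T.1 hr _ (by omega)

lemma cut_mem (a : ℕ) (s : ℕ → Bool) : cut a s ∈ T a := by
  rw [mem_T]
  intro i hi
  simp [cut, not_lt.2 hi]

lemma shf_mem {a b : ℕ} {s : ℕ → Bool} (hs : s ∈ T (a + b)) : shf a s ∈ T b := by
  rw [mem_T] at hs ⊢
  intro i hi
  exact hs (a + i) (by omega)

lemma glue_cut_shf (a : ℕ) (s : ℕ → Bool) : glue a (cut a s) (shf a s) = s := by
  funext i
  by_cases h : i < a
  · simp [glue, cut, h]
  · obtain ⟨k, rfl⟩ := Nat.exists_eq_add_of_le (not_lt.1 h)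
    simp [glue, shf]

lemma cut_glue {a : ℕ} {s : ℕ → Bool} (hs : s ∈ T a) (r : ℕ → Bool) : cut a (glue a s r) = s := by
  funext i
  by_cases h : i < a
  · simp [glue, cut, h]
  · simp only [cut, h, if_false]
    exact (mem_T.1 hs i (not_lt.1 h)).symm

lemma shf_glue (a : ℕ) (s r : ℕ → Bool) : shf a (glue a s r) = r := by
  funext i
  simp [glue, shf]

lemma pos_glue_le {a i : ℕ} (h : i ≤ a) (s r : ℕ → Bool) : pos (glue a s r) i = pos s i :=
  pos_congr fun _ hj => glue_lt (hj.trans_le h) s r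

lemma pos_glue_add (a i : ℕ) (s r : ℕ → Bool) :
    pos (glue a s r) (a + i) = pos s a + pos r i := by
  rw [pos_add, shf_glue, pos_glue_le le_rfl]

lemma pos_cut_le {a i : ℕ} (h : i ≤ a) (s : ℕ → Bool) : pos (cut a s) i = pos s i :=
  pos_congr fun _ hj => cut_lt (hj.trans_le h) s

/-- A sum over walks of length `a + b` is a double sum. -/
lemma sum_split {M : Type*} [AddCommMonoid M] (a b : ℕ) (F : (ℕ → Bool) → M) :
    ∑ s ∈ T (a + b), F s = ∑ s ∈ T a, ∑ r ∈ T b, F (glue a s r) := by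
  rw [← Finset.sum_product']
  refine Finset.sum_bij' (fun s _ => (cut a s, shf a s)) (fun p _ => glue a p.1 p.2) ?_ ?_ ?_ ?_ ?_
  · intro s hs
    exact Finset.mem_product.2 ⟨cut_mem a s, shf_mem hs⟩
  · rintro ⟨s, r⟩ h
    exact glue_mem (Finset.mem_product.1 h).2
  · intro s _
    exact glue_cut_shf a s
  · rintro ⟨s, r⟩ h
    simp only
    rw [cut_glue (Finset.mem_product.1 h).1, shf_glue]
  · intro s _
    simp only
    rw [glue_cut_shf]

/-! ### Energies and weights -/

lemma En_congr {g : Env} {t : ℕ} {x : ℤ} {n : ℕ} {s r : ℕ → Bool} (h : ∀ j < n, s j = r j) :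
    En g t x n s = En g t x n r := by
  unfold En
  refine Finset.sum_congr rfl fun i hi => ?_
  rw [pos_congr fun j hj => h j (by have := Finset.mem_range.1 hi; omega)]

lemma En_add (g : Env) (t : ℕ) (x : ℤ) (a b : ℕ) (s : ℕ → Bool) :
    En g t x (a + b) s = En g t x a s + En g (t + a) (x + pos s a) b (shf a s) := by
  unfold En
  rw [Finset.sum_range_add]
  congr 1
  refine Finset.sum_congr rfl fun i _ => ?_
  rw [add_assoc a i 1, pos_add, add_assoc t a i, add_assoc x]

lemma En_glue (g : Env) (t : ℕ) (x : ℤ) (a b : ℕ) (s r : ℕ → Bool) :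
    En g t x (a + b) (glue a s r) = En g t x a s + En g (t + a) (x + pos s a) b r := by
  rw [En_add, shf_glue, pos_glue_le le_rfl]
  congr 1
  exact En_congr fun j hj => glue_lt hj s r

lemma wt_pos (g : Env) (h : ℝ) (t : ℕ) (x : ℤ) (n : ℕ) (s : ℕ → Bool) : 0 < wt g h t x n s :=
  Real.exp_pos _

lemma wt_add (g : Env) (h : ℝ) (t : ℕ) (x : ℤ) (a b : ℕ) (s : ℕ → Bool) :
    wt g h t x (a + b) s = wt g h t x a s * wt g h (t + a) (x + pos s a) b (shf a s) := by
  unfold wt
  rw [← Real.exp_add, En_add, pos_add]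
  push_cast
  ring_nf

lemma wt_congr {g : Env} {h : ℝ} {t : ℕ} {x : ℤ} {n : ℕ} {s r : ℕ → Bool}
    (hs : ∀ j < n, s j = r j) : wt g h t x n s = wt g h t x n r := by
  unfold wt
  rw [En_congr hs, pos_congr hs]

lemma wt_glue (g : Env) (h : ℝ) (t : ℕ) (x : ℤ) (a b : ℕ) (s r : ℕ → Bool) :
    wt g h t x (a + b) (glue a s r) = wt g h t x a s * wt g h (t + a) (x + pos s a) b r := by
  rw [wt_add, shf_glue, pos_glue_le le_rfl]
  congr 1
  exact wt_congr fun j hj => glue_lt hj s r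

lemma Z_pos (g : Env) (h : ℝ) (t : ℕ) (x : ℤ) (n : ℕ) : 0 < Z g h t x n :=
  Finset.sum_pos (fun s _ => wt_pos g h t x n s) (T_nonempty n)

lemma Z_zero (g : Env) (h : ℝ) (t : ℕ) (x : ℤ) : Z g h t x 0 = 1 := by
  simp [Z, T_zero, wt, En]

lemma Z_split (g : Env) (h : ℝ) (t : ℕ) (x : ℤ) (a b : ℕ) :
    Z g h t x (a + b) = ∑ s ∈ T a, wt g h t x a s * Z g h (t + a) (x + pos s a) b := by
  unfold Z
  rw [sum_split]
  refine Finset.sum_congr rfl fun s _ => ?_
  rw [Finset.mul_sum]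
  exact Finset.sum_congr rfl fun r _ => wt_glue g h t x a b s r

/-- Terminal weights that are admissible for walks of length `n` from `x`: nonnegative and positive
at some point that can be reached. -/
def Adm (v : ℤ → ℝ) (x : ℤ) (n : ℕ) : Prop := (∀ y, 0 ≤ v y) ∧ ∃ s ∈ T n, 0 < v (x + pos s n)

lemma Adm.of_pos {v : ℤ → ℝ} (hv : ∀ y, 0 < v y) (x : ℤ) (n : ℕ) : Adm v x n :=
  ⟨fun y => (hv y).le, fun _ => false, mem_T.2 fun _ _ => rfl, hv _⟩

lemma Zv_nonneg (g : Env) {v : ℤ → ℝ} (hv : ∀ y, 0 ≤ v y) (t : ℕ) (x : ℤ) (n : ℕ) :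
    0 ≤ Zv g v t x n := Finset.sum_nonneg fun _ _ => mul_nonneg (Real.exp_pos _).le (hv _)

lemma Zv_pos (g : Env) {v : ℤ → ℝ} {x : ℤ} {n : ℕ} (hv : Adm v x n) (t : ℕ) :
    0 < Zv g v t x n := by
  obtain ⟨s, hs, h⟩ := hv.2
  exact Finset.sum_pos' (fun _ _ => mul_nonneg (Real.exp_pos _).le (hv.1 _))
    ⟨s, hs, mul_pos (Real.exp_pos _) h⟩

lemma Zv_split (g : Env) (v : ℤ → ℝ) (t : ℕ) (x : ℤ) (a b : ℕ) :
    Zv g v t x (a + b) = Zv g (fun y => Zv g v (t + a) y b) t x a := by
  unfold Zv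
  rw [sum_split]
  refine Finset.sum_congr rfl fun s _ => ?_
  rw [Finset.mul_sum]
  refine Finset.sum_congr rfl fun r _ => ?_
  rw [En_glue, Real.exp_add, pos_glue_add]
  ring_nf

lemma Z_eq_Zv (g : Env) (h : ℝ) (t : ℕ) (x : ℤ) (n : ℕ) :
    Z g h t x n = Real.exp (-(h * x)) * Zv g (fun y => Real.exp (h * y)) t x n := by
  unfold Z Zv
  rw [Finset.mul_sum]
  refine Finset.sum_congr rfl fun s _ => ?_
  unfold wt
  rw [← Real.exp_add, ← Real.exp_add]
  push_cast
  ring_nf

lemma Zp_nonneg (g : Env) (t : ℕ) (x : ℤ) (n : ℕ) (y : ℤ) : 0 ≤ Zp g t x n y := by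
  unfold Zp
  refine Finset.sum_nonneg fun s _ => ?_
  split_ifs
  · exact (Real.exp_pos _).le
  · exact le_rfl

/-- Sums over walks, sorted by the end point. -/
lemma sum_end {n : ℕ} (x : ℤ) (F : (ℕ → Bool) → ℝ) :
    ∑ s ∈ T n, F s = ∑ y ∈ Icc (x - n) (x + n), ∑ s ∈ T n, if x + pos s n = y then F s else 0 := by
  rw [Finset.sum_comm]
  refine Finset.sum_congr rfl fun s _ => ?_
  rw [Finset.sum_ite_eq, if_pos (pos_mem_Icc s n x)]

lemma Z_eq_sum_Zp (g : Env) (h : ℝ) (t : ℕ) (x : ℤ) (n : ℕ) :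
    Z g h t x n = ∑ y ∈ Icc (x - n) (x + n), Real.exp (h * ((y : ℝ) - x)) * Zp g t x n y := by
  unfold Z
  rw [sum_end x]
  refine Finset.sum_congr rfl fun y _ => ?_
  unfold Zp
  rw [Finset.mul_sum]
  refine Finset.sum_congr rfl fun s _ => ?_
  split_ifs with hy
  · unfold wt
    rw [← Real.exp_add]
    congr 1
    rw [← hy]
    push_cast
    ring
  · simp

/-- A point-to-point partition function is bounded by the tilted one, for every tilt. -/
lemma Zp_le (g : Env) (h : ℝ) (t : ℕ) (x : ℤ) (n : ℕ) (y : ℤ) :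
    Zp g t x n y ≤ Real.exp (-(h * ((y : ℝ) - x))) * Z g h t x n := by
  unfold Zp Z
  rw [Finset.mul_sum]
  refine Finset.sum_le_sum fun s _ => ?_
  split_ifs with hy
  · unfold wt
    rw [← Real.exp_add, ← hy]
    push_cast
    ring_nf
    exact le_rfl
  · exact mul_nonneg (Real.exp_pos _).le (wt_pos _ _ _ _ _ _).le

/-! ### Gibbs averages -/

section Av

variable {g : Env} {h : ℝ} {t : ℕ} {x : ℤ} {n : ℕ}

lemma Av_congr {F G : (ℕ → Bool) → ℝ} (hFG : ∀ s ∈ T n, F s = G s) :
    Av g h t x n F = Av g h t x n G := by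
  unfold Av
  rw [Finset.sum_congr rfl fun s hs => by rw [hFG s hs]]

lemma Av_mono {F G : (ℕ → Bool) → ℝ} (hFG : ∀ s ∈ T n, F s ≤ G s) :
    Av g h t x n F ≤ Av g h t x n G := by
  unfold Av
  exact div_le_div_of_nonneg_right (Finset.sum_le_sum fun s hs =>
    mul_le_mul_of_nonneg_left (hFG s hs) (wt_pos _ _ _ _ _ _).le) (Z_pos _ _ _ _ _).le

lemma Av_const (c : ℝ) : Av g h t x n (fun _ => c) = c := by
  unfold Av
  rw [← Finset.sum_mul]
  exact mul_div_cancel_left₀ c (Z_pos g h t x n).ne'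

lemma Av_add (F G : (ℕ → Bool) → ℝ) :
    Av g h t x n (fun s => F s + G s) = Av g h t x n F + Av g h t x n G := by
  unfold Av
  rw [← add_div, ← Finset.sum_add_distrib]
  simp only [mul_add]

lemma Av_sub (F G : (ℕ → Bool) → ℝ) :
    Av g h t x n (fun s => F s - G s) = Av g h t x n F - Av g h t x n G := by
  unfold Av
  rw [← sub_div, ← Finset.sum_sub_distrib]
  simp only [mul_sub]

lemma Av_neg (F : (ℕ → Bool) → ℝ) :
    Av g h t x n (fun s => - F s) = - Av g h t x n F := by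
  unfold Av
  simp only [mul_neg, Finset.sum_neg_distrib, neg_div]

lemma Av_mul_left (c : ℝ) (F : (ℕ → Bool) → ℝ) :
    Av g h t x n (fun s => c * F s) = c * Av g h t x n F := by
  unfold Av
  rw [← mul_div_assoc, Finset.mul_sum]
  congr 1
  exact Finset.sum_congr rfl fun s _ => by ring

lemma Av_mul_right (c : ℝ) (F : (ℕ → Bool) → ℝ) :
    Av g h t x n (fun s => F s * c) = Av g h t x n F * c := by
  rw [mul_comm, ← Av_mul_left]
  exact Av_congr fun s _ => mul_comm _ _

lemma Av_sum {ι : Type*} (I : Finset ι) (F : ι → (ℕ → Bool) → ℝ) :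
    Av g h t x n (fun s => ∑ i ∈ I, F i s) = ∑ i ∈ I, Av g h t x n (F i) := by
  unfold Av
  rw [← Finset.sum_div]
  congr 1
  simp only [Finset.mul_sum]
  exact Finset.sum_comm

lemma Av_nonneg {F : (ℕ → Bool) → ℝ} (hF : ∀ s ∈ T n, 0 ≤ F s) : 0 ≤ Av g h t x n F := by
  have := Av_mono (g := g) (h := h) (t := t) (x := x) (n := n) (F := fun _ => 0) (G := F) hF
  rwa [Av_const] at this

lemma Av_le {F : (ℕ → Bool) → ℝ} {c : ℝ} (hF : ∀ s ∈ T n, F s ≤ c) : Av g h t x n F ≤ c := by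
  have := Av_mono (g := g) (h := h) (t := t) (x := x) (n := n) (F := F) (G := fun _ => c) hF
  rwa [Av_const] at this

lemma le_Av {F : (ℕ → Bool) → ℝ} {c : ℝ} (hF : ∀ s ∈ T n, c ≤ F s) : c ≤ Av g h t x n F := by
  have := Av_mono (g := g) (h := h) (t := t) (x := x) (n := n) (F := fun _ => c) (G := F) hF
  rwa [Av_const] at this

lemma Av_abs_le {F : (ℕ → Bool) → ℝ} {c : ℝ} (hF : ∀ s ∈ T n, |F s| ≤ c) :
    |Av g h t x n F| ≤ c :=
  abs_le.2 ⟨le_Av fun s hs => (abs_le.1 (hF s hs)).1, Av_le fun s hs => (abs_le.1 (hF s hs)).2⟩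

lemma abs_Av_le (F : (ℕ → Bool) → ℝ) :
    |Av g h t x n F| ≤ Av g h t x n (fun s => |F s|) := by
  refine abs_le.2 ⟨?_, Av_mono fun s _ => le_abs_self _⟩
  rw [← Av_neg]
  exact Av_mono fun s _ => neg_abs_le _

lemma Av_pos {F : (ℕ → Bool) → ℝ} (hF : ∀ s ∈ T n, 0 < F s) : 0 < Av g h t x n F := by
  unfold Av
  exact div_pos (Finset.sum_pos (fun s hs => mul_pos (wt_pos _ _ _ _ _ _) (hF s hs))
    (T_nonempty n)) (Z_pos _ _ _ _ _)

/-- Jensen's inequality for the exponential. -/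
lemma exp_Av_le (F : (ℕ → Bool) → ℝ) :
    Real.exp (Av g h t x n F) ≤ Av g h t x n (fun s => Real.exp (F s)) := by
  have key : ∀ s ∈ T n, Real.exp (Av g h t x n F) * (1 + (F s - Av g h t x n F)) ≤
      Real.exp (F s) := by
    intro s _
    have h1 : 1 + (F s - Av g h t x n F) ≤ Real.exp (F s - Av g h t x n F) := by
      linarith [Real.add_one_le_exp (F s - Av g h t x n F)]
    calc _ ≤ Real.exp (Av g h t x n F) * Real.exp (F s - Av g h t x n F) :=
          mul_le_mul_of_nonneg_left h1 (Real.exp_pos _).le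
      _ = Real.exp (F s) := by rw [← Real.exp_add]; ring_nf
  have h2 := Av_mono (g := g) (h := h) (t := t) (x := x) key
  rw [Av_mul_left, Av_add, Av_const, Av_sub, Av_const] at h2
  simpa using h2

lemma Av_le_log (F : (ℕ → Bool) → ℝ) :
    Av g h t x n F ≤ Real.log (Av g h t x n (fun s => Real.exp (F s))) := by
  rw [Real.le_log_iff_exp_le (Av_pos fun s _ => Real.exp_pos _)]
  exact exp_Av_le F

/-- The Gibbs average of `F`, multiplied by the partition function. -/
lemma Z_mul_Av (F : (ℕ → Bool) → ℝ) :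
    Z g h t x n * Av g h t x n F = ∑ s ∈ T n, wt g h t x n s * F s := by
  unfold Av
  exact mul_div_cancel₀ _ (Z_pos g h t x n).ne'

/-- Splitting at time `a`: Gibbs average over the past of averages over the future (the marginal
of the past is not a Gibbs measure with the same tilt, the weight of the future appears). -/
lemma Av_split (b m : ℕ) (F : (ℕ → Bool) → ℝ) :
    Av g h t x (b + m) F =
      Av g h t x (b + m) fun s => Av g h (t + b) (x + pos s b) m fun r => F (glue b s r) := by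
  unfold Av
  congr 1
  rw [sum_split, sum_split]
  refine Finset.sum_congr rfl fun s _ => ?_
  have h1 : ∀ r ∈ T m, wt g h t x (b + m) (glue b s r) *
      ((∑ r' ∈ T m, wt g h (t + b) (x + pos (glue b s r) b) m r' * F (glue b (glue b s r) r')) /
        Z g h (t + b) (x + pos (glue b s r) b) m) =
      wt g h (t + b) (x + pos s b) m r * (wt g h t x b s *
      (∑ r' ∈ T m, wt g h (t + b) (x + pos s b) m r' * F (glue b s r')) /
        Z g h (t + b) (x + pos s b) m) := by
    intro r _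
    have h2 : ∀ r', glue b (glue b s r) r' = glue b s r' := by
      intro r'; funext i; by_cases hi : i < b <;> simp [glue, hi]
    rw [wt_glue, pos_glue_le le_rfl]
    simp only [h2]
    ring
  rw [Finset.sum_congr rfl h1, ← Finset.sum_mul]
  change _ = Z g h (t + b) (x + pos s b) m * _
  rw [mul_div_cancel₀ _ (Z_pos _ _ _ _ _).ne', Finset.mul_sum]
  refine Finset.sum_congr rfl fun r _ => ?_
  rw [wt_glue]
  ring

end Av

/-! ### Bounds by the cone noise -/

lemma V_nonneg (g : Env) (t : ℕ) (x : ℤ) (n : ℕ) : 0 ≤ V g t x n :=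
  Finset.sum_nonneg fun _ _ => Finset.sum_nonneg fun _ _ => abs_nonneg _

lemma En_abs_le (g : Env) (t : ℕ) (x : ℤ) (n : ℕ) (s : ℕ → Bool) : |En g t x n s| ≤ V g t x n := by
  unfold En V
  refine (Finset.abs_sum_le_sum_abs _ _).trans (Finset.sum_le_sum fun i _ => ?_)
  have h1 := pos_mem_Icc s (i + 1) x
  refine Finset.single_le_sum (f := fun y => |g (t + i, y)|) (fun _ _ => abs_nonneg _) ?_
  simpa using h1

lemma wt_le (g : Env) (h : ℝ) (t : ℕ) (x : ℤ) (n : ℕ) (s : ℕ → Bool) :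
    wt g h t x n s ≤ Real.exp (V g t x n + |h| * n) := by
  unfold wt
  refine Real.exp_le_exp.2 (add_le_add ((le_abs_self _).trans (En_abs_le g t x n s)) ?_)
  refine (le_abs_self _).trans ?_
  rw [abs_mul]
  refine mul_le_mul_of_nonneg_left ?_ (abs_nonneg h)
  exact_mod_cast pos_abs_le s n

lemma le_wt (g : Env) (h : ℝ) (t : ℕ) (x : ℤ) (n : ℕ) (s : ℕ → Bool) :
    Real.exp (-(V g t x n + |h| * n)) ≤ wt g h t x n s := by
  unfold wt
  refine Real.exp_le_exp.2 ?_
  have h1 := (abs_le.1 (En_abs_le g t x n s)).1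
  have h2 : |h * (pos s n : ℝ)| ≤ |h| * n := by
    rw [abs_mul]
    refine mul_le_mul_of_nonneg_left ?_ (abs_nonneg h)
    exact_mod_cast pos_abs_le s n
  have h3 := (abs_le.1 h2).1
  linarith

lemma Z_le (g : Env) (h : ℝ) (t : ℕ) (x : ℤ) (n : ℕ) :
    Z g h t x n ≤ Real.exp (V g t x n + (|h| + Real.log 2) * n) := by
  unfold Z
  refine (Finset.sum_le_sum fun s _ => wt_le g h t x n s).trans ?_
  rw [Finset.sum_const, card_T, nsmul_eq_mul]
  push_cast
  rw [← Real.exp_log (by norm_num : (0 : ℝ) < 2), ← Real.exp_nat_mul, ← Real.exp_add,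
    Real.exp_log (by norm_num : (0 : ℝ) < 2)]
  exact Real.exp_le_exp.2 (le_of_eq (by ring))

lemma le_Z (g : Env) (h : ℝ) (t : ℕ) (x : ℤ) (n : ℕ) :
    Real.exp (-(V g t x n + |h| * n)) ≤ Z g h t x n := by
  unfold Z
  obtain ⟨s, hs⟩ := T_nonempty n
  exact (le_wt g h t x n s).trans (Finset.single_le_sum
    (f := fun s => wt g h t x n s) (fun r _ => (wt_pos g h t x n r).le) hs)

lemma abs_log_Z_le (g : Env) (h : ℝ) (t : ℕ) (x : ℤ) (n : ℕ) :
    |Real.log (Z g h t x n)| ≤ V g t x n + (|h| + Real.log 2) * n := by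
  have h1 := Real.log_le_log (Z_pos g h t x n) (Z_le g h t x n)
  have h2 := Real.log_le_log (Real.exp_pos _) (le_Z g h t x n)
  rw [Real.log_exp] at h1 h2
  have h3 : (0 : ℝ) ≤ Real.log 2 * n := by positivity
  exact abs_le.2 ⟨by linarith, h1⟩

end

end Pool.Agent.W_7d29a1_h47
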