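import Mathlib

/-!
# The directed polymer in dimension `1 + 1` (objects of the problem file)

Simple random walk of length `n` on `ℤ` is given by a step sequence `s : Fin n → Bool`
(`true` is the step `+1`, `false` the step `-1`); all `2 ^ n` step sequences have the same weight.
-/

namespace Pool.Agent.W_7d29a1_h47

noncomputable section

/-- The position `S_i` after the first `i` steps of the walk `s` (`i ≤ n`). -/
def walk {n : ℕ} (s : Fin n → Bool) (i : ℕ) : ℤ :=
  ∑ j : Fin n, if (j : ℕ) < i then (if s j then 1 else -1) else 0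

/-- The energy `∑_{i=1}^n ω(i, S_i)` of the walk `s` in the environment `ω`. -/
def energy {n : ℕ} (ω : ℕ × ℤ → ℝ) (s : Fin n → Bool) : ℝ :=
  ∑ i : Fin n, ω (i + 1, walk s (i + 1))

/-- The expectation `E_n^{β,ω}(F)` of a function `F` of the walk under the polymer measure. -/
def polE (β : ℝ) (ω : ℕ × ℤ → ℝ) (n : ℕ) (F : (Fin n → Bool) → ℝ) : ℝ :=
  (∑ s : Fin n → Bool, F s * Real.exp (β * energy ω s)) /
    ∑ s : Fin n → Bool, Real.exp (β * energy ω s)

/-- The moment generating function `E_n^{β,ω}(e^{h S_n})` of the end point. -/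
def endMGF (β h : ℝ) (ω : ℕ × ℤ → ℝ) (n : ℕ) : ℝ :=
  polE β ω n fun s => Real.exp (h * (walk s n : ℝ))

open Classical in
/-- The probability of the set `A` of walks under the polymer measure with the additional force `h`:
the walk has density proportional to `e^{h S_n}` with respect to the polymer measure. -/
def forceP (β h : ℝ) (ω : ℕ × ℤ → ℝ) (n : ℕ) (A : Set (Fin n → Bool)) : ℝ :=
  (polE β ω n fun s => if s ∈ A then Real.exp (h * (walk s n : ℝ)) else 0) / endMGF β h ω n

end

end Pool.Agent.W_7d29a1_h47
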