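import Pool.Agent.W_7d29a1_h47.Lim
import Pool.Agent.W_7d29a1_h47.SiteG
import Pool.Agent.W_7d29a1_h47.Model

/-!
# From the abstract environment to the objects of the problem
-/

namespace Pool.Agent.W_7d29a1_h47

open MeasureTheory ProbabilityTheory Finset Filter Topology

noncomputable section

/-- The environment of the library that belongs to `β ω`: row `i` is time `i + 1`. -/
def toEnv (β : ℝ) (ω : ℕ × ℤ → ℝ) : Env := fun p => β * ω (p.1 + 1, p.2)

lemma sum_T_eq {M : Type*} [AddCommMonoid M] (n : ℕ) (F : (ℕ → Bool) → M) :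
    ∑ s ∈ T n, F s = ∑ s : Fin n → Bool, F (ext s) := by
  unfold T
  rw [Finset.sum_map]
  rfl

lemma walk_eq {n : ℕ} (s : Fin n → Bool) {i : ℕ} (hi : i ≤ n) : walk s i = pos (ext s) i := by
  unfold walk pos
  rw [← Finset.sum_filter, Finset.sum_range fun j => stp (ext s j)]
  refine Finset.sum_bij' (fun (j : Fin n) hj => ⟨j, (Finset.mem_filter.1 hj).2⟩)
    (fun (j : Fin i) _ => ⟨j, j.2.trans_le hi⟩) ?_ ?_ ?_ ?_ ?_
  · intro j _; exact Finset.mem_univ _
  · intro j _; simp
  · intro j _; rfl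
  · intro j _; rfl
  · intro j _
    have : ext s j = s j := by simp [ext]
    simp only [this, stp]

lemma energy_eq (β : ℝ) {n : ℕ} (ω : ℕ × ℤ → ℝ) (s : Fin n → Bool) :
    β * energy ω s = En (toEnv β ω) 0 0 n (ext s) := by
  unfold energy En toEnv
  rw [Finset.sum_range fun i => _, Finset.mul_sum]
  refine Finset.sum_congr rfl fun i _ => ?_
  rw [walk_eq s (by omega)]
  simp

lemma weight_eq (β h : ℝ) {n : ℕ} (ω : ℕ × ℤ → ℝ) (s : Fin n → Bool) :
    Real.exp (h * (walk s n : ℝ)) * Real.exp (β * energy ω s) =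
      wt (toEnv β ω) h 0 0 n (ext s) := by
  unfold wt
  rw [← Real.exp_add, energy_eq, walk_eq s le_rfl, add_comm]

lemma den_eq (β : ℝ) (ω : ℕ × ℤ → ℝ) (n : ℕ) :
    ∑ s : Fin n → Bool, Real.exp (β * energy ω s) = Z (toEnv β ω) 0 0 0 n := by
  unfold Z
  rw [sum_T_eq]
  refine Finset.sum_congr rfl fun s _ => ?_
  rw [← weight_eq]
  simp

lemma endMGF_eq (β h : ℝ) (ω : ℕ × ℤ → ℝ) (n : ℕ) :
    endMGF β h ω n = Z (toEnv β ω) h 0 0 n / Z (toEnv β ω) 0 0 0 n := by
  unfold endMGF polE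
  rw [den_eq]
  congr 1
  unfold Z
  rw [sum_T_eq]
  exact Finset.sum_congr rfl fun s _ => weight_eq β h ω s

lemma endMGF_pos (β h : ℝ) (ω : ℕ × ℤ → ℝ) (n : ℕ) : 0 < endMGF β h ω n := by
  rw [endMGF_eq]
  exact div_pos (Z_pos _ _ _ _ _) (Z_pos _ _ _ _ _)

lemma log_endMGF (β h : ℝ) (ω : ℕ × ℤ → ℝ) (n : ℕ) :
    Real.log (endMGF β h ω n) =
      Real.log (Z (toEnv β ω) h 0 0 n) - Real.log (Z (toEnv β ω) 0 0 0 n) := by
  rw [endMGF_eq, Real.log_div (Z_pos _ _ _ _ _).ne' (Z_pos _ _ _ _ _).ne']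

/-- Upper bound for the probability that the forced walk lags behind: for `h > 0`,
`P^h(S_n < c n) ≤ e^{h c n} / E(e^{h S_n})`. -/
lemma one_sub_forceP_le (β : ℝ) {h : ℝ} (hh : 0 < h) (c : ℝ) (ω : ℕ × ℤ → ℝ) (n : ℕ) :
    1 - forceP β h ω n {s | c * n ≤ (walk s n : ℝ)} ≤
      Real.exp (h * c * n) / endMGF β h ω n := by
  classical
  have hpos := endMGF_pos β h ω n
  have hD : 0 < ∑ s : Fin n → Bool, Real.exp (β * energy ω s) := by
    rw [den_eq]; exact Z_pos _ _ _ _ _
  have key : endMGF β h ω n - (polE β ω n fun s => if s ∈ {s : Fin n → Bool | c * n ≤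
      (walk s n : ℝ)} then Real.exp (h * (walk s n : ℝ)) else 0) ≤ Real.exp (h * c * n) := by
    unfold endMGF polE
    rw [← sub_div, div_le_iff₀ hD, ← Finset.sum_sub_distrib, Finset.mul_sum]
    refine Finset.sum_le_sum fun s _ => ?_
    by_cases hs : s ∈ {s : Fin n → Bool | c * n ≤ (walk s n : ℝ)}
    · simp only [hs, if_true, sub_self]
      positivity
    · simp only [hs, if_false, zero_mul, sub_zero]
      refine mul_le_mul_of_nonneg_right (Real.exp_le_exp.2 ?_) (Real.exp_pos _).le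
      have h1 : (walk s n : ℝ) < c * n := not_le.1 hs
      nlinarith
  have h2 : 1 - forceP β h ω n {s | c * n ≤ (walk s n : ℝ)} = (endMGF β h ω n -
      (polE β ω n fun s => if s ∈ {s : Fin n → Bool | c * n ≤ (walk s n : ℝ)} then
        Real.exp (h * (walk s n : ℝ)) else 0)) / endMGF β h ω n := by
    unfold forceP
    rw [sub_div, div_self hpos.ne']
  rw [h2]
  exact div_le_div_of_nonneg_right key hpos.le

lemma forceP_le_one (β h : ℝ) (ω : ℕ × ℤ → ℝ) (n : ℕ) (A : Set (Fin n → Bool)) :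
    forceP β h ω n A ≤ 1 := by
  classical
  unfold forceP
  rw [div_le_one (endMGF_pos β h ω n)]
  unfold endMGF polE
  refine div_le_div_of_nonneg_right (Finset.sum_le_sum fun s _ => ?_)
    (Finset.sum_nonneg fun _ _ => (Real.exp_pos _).le)
  refine mul_le_mul_of_nonneg_right ?_ (Real.exp_pos _).le
  by_cases hs : s ∈ A
  · simp only [hs, if_true]; exact le_rfl
  · simp only [hs, if_false]
    exact (Real.exp_pos _).le

/-- The law of `β ω`, seen as an environment of the library. -/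
lemma map_toEnv {Ω : Type*} [MeasurableSpace Ω] {P : Measure Ω} [IsProbabilityMeasure P]
    {ω : ℕ × ℤ → Ω → ℝ} (hmeas : ∀ p, Measurable (ω p)) (hindep : iIndepFun ω P)
    (hident : ∀ p q, IdentDistrib (ω p) (ω q) P P) (β : ℝ) :
    MeasurePreserving (fun x => toEnv β fun p => ω p x) P
      (law (P.map fun x => β * ω (0, 0) x)) := by
  have h1 : iIndepFun (fun (p : ℕ × ℤ) x => β * ω (p.1 + 1, p.2) x) P := by
    have h2 : iIndepFun (fun (p : ℕ × ℤ) => ω (p.1 + 1, p.2)) P := by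
      refine hindep.precomp (g := fun p : ℕ × ℤ => (p.1 + 1, p.2)) ?_
      rintro ⟨i, y⟩ ⟨j, z⟩ h
      simp only [Prod.mk.injEq, Nat.add_right_cancel_iff] at h
      exact Prod.ext h.1 h.2
    exact h2.comp (fun _ u => β * u) fun _ => measurable_const_mul β
  have hm : ∀ p : ℕ × ℤ, Measurable fun x => β * ω (p.1 + 1, p.2) x := fun p =>
    (hmeas _).const_mul β
  refine ⟨measurable_pi_iff.2 hm, ?_⟩
  have h3 := h1.map_fun_eq_infinitePi_map hm
  have h4 : (fun p : ℕ × ℤ => P.map fun x => β * ω (p.1 + 1, p.2) x) =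
      fun _ => P.map fun x => β * ω (0, 0) x := by
    funext p
    exact ((hident (p.1 + 1, p.2) (0, 0)).comp (measurable_const_mul β)).map_eq
  rw [h4] at h3
  exact h3

lemma EM_of {Ω : Type*} [MeasurableSpace Ω] {P : Measure Ω} [IsProbabilityMeasure P]
    {X : Ω → ℝ} (hX : Measurable X) (hexp : ∀ b : ℝ, Integrable (fun x => Real.exp (b * X x)) P)
    (β : ℝ) : EM (P.map fun x => β * X x) := by
  intro b
  have hm : Measurable fun x => β * X x := hX.const_mul β
  rw [integrable_map_measure (by fun_prop) hm.aemeasurable]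
  refine ((hexp (|b| * β)).add (hexp (-(|b| * β)))).mono' (by fun_prop)
    (Eventually.of_forall fun x => ?_)
  simp only [Function.comp, Pi.add_apply]
  rw [Real.norm_eq_abs, abs_of_pos (Real.exp_pos _)]
  have h1 : b * |β * X x| ≤ |b| * |β * X x| :=
    mul_le_mul_of_nonneg_right (le_abs_self b) (abs_nonneg _)
  rcases abs_cases (β * X x) with ⟨h, _⟩ | ⟨h, _⟩
  · have h2 : b * |β * X x| ≤ |b| * β * X x := by rw [h] at h1 ⊢; linarith
    linarith [Real.exp_le_exp.2 h2, Real.exp_pos (-(|b| * β) * X x)]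
  · have h2 : b * |β * X x| ≤ -(|b| * β) * X x := by rw [h] at h1 ⊢; linarith
    linarith [Real.exp_le_exp.2 h2, Real.exp_pos (|b| * β * X x)]

lemma Nondeg_of {Ω : Type*} [MeasurableSpace Ω] {P : Measure Ω} [IsProbabilityMeasure P]
    {X : Ω → ℝ} (hX : Measurable X) (hnc : ¬ ∃ c : ℝ, ∀ᵐ x ∂P, X x = c) {β : ℝ} (hβ : 0 < β) :
    Nondeg (P.map fun x => β * X x) := by
  intro c hc
  have hm : Measurable fun x => β * X x := hX.const_mul β
  rw [Measure.map_apply hm (measurableSet_singleton c)] at hc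
  apply hnc
  refine ⟨c / β, ?_⟩
  have h1 : MeasurableSet ((fun x => β * X x) ⁻¹' {c}) := hm (measurableSet_singleton c)
  have h2 : ∀ᵐ x ∂P, x ∈ (fun x => β * X x) ⁻¹' {c} := (prob_compl_eq_zero_iff h1).2 hc
  filter_upwards [h2] with x hx
  have h3 : β * X x = c := hx
  rw [eq_div_iff hβ.ne', mul_comm, h3]

/-- The main theorem, given strict convexity of `Lam`. -/
theorem main_of_strict (hstrict : ∀ (μ : Measure ℝ) [IsProbabilityMeasure μ], EM μ → Nondeg μ →
      StrictConvexOn ℝ Set.univ (Lam μ))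
    {Ω : Type*} [MeasurableSpace Ω] (P : Measure Ω) [IsProbabilityMeasure P]
    (ω : ℕ × ℤ → Ω → ℝ) (hmeas : ∀ p, Measurable (ω p)) (hindep : iIndepFun ω P)
    (hident : ∀ p q, IdentDistrib (ω p) (ω q) P P) (hnc : ¬ ∃ c : ℝ, ∀ᵐ x ∂P, ω (0, 0) x = c)
    (hexp : ∀ b : ℝ, Integrable (fun x => Real.exp (b * ω (0, 0) x)) P) {β : ℝ} (hβ : 0 < β) :
    ∃ lam : ℝ → ℝ, StrictConvexOn ℝ Set.univ lam ∧ (∀ h, lam (-h) = lam h) ∧
      (∀ h, h ≠ 0 → 0 < lam h) ∧
      (∀ h, ∀ᵐ x ∂P, Tendsto (fun n : ℕ => Real.log (endMGF β h (fun p => ω p x) n) / n) atTop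
        (𝓝 (lam h))) ∧
      ∀ h, 0 < h → ∀ c, c < lam h / h → ∀ᵐ x ∂P, Tendsto
        (fun n : ℕ => forceP β h (fun p => ω p x) n {s | c * n ≤ (walk s n : ℝ)}) atTop (𝓝 1) := by
  set μ : Measure ℝ := P.map fun x => β * ω (0, 0) x with hμdef
  have hm0 : Measurable fun x => β * ω (0, 0) x := (hmeas _).const_mul β
  have hprob : IsProbabilityMeasure μ := Measure.isProbabilityMeasure_map hm0.aemeasurable
  have hμ : EM μ := EM_of (hmeas _) hexp β
  have hnd : Nondeg μ := Nondeg_of (hmeas _) hnc hβ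
  have hmp := map_toEnv hmeas hindep hident β
  rw [← hμdef] at hmp
  have hS := hstrict μ hμ hnd
  have hS' : StrictConvexOn ℝ Set.univ fun h => Lam μ h - Lam μ 0 := by
    refine ⟨convex_univ, fun x _ y _ hxy a b ha hb hab => ?_⟩
    have h1 := hS.2 (Set.mem_univ x) (Set.mem_univ y) hxy ha hb hab
    simp only [smul_eq_mul] at h1 ⊢
    have h2 : a * (Lam μ x - Lam μ 0) + b * (Lam μ y - Lam μ 0) =
        a * Lam μ x + b * Lam μ y - Lam μ 0 := by
      have : a * Lam μ 0 + b * Lam μ 0 = Lam μ 0 := by rw [← add_mul, hab, one_mul]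
      linarith
    rw [h2]
    linarith
  have hpos : ∀ h, h ≠ 0 → 0 < Lam μ h - Lam μ 0 := by
    intro h hh
    have h1 := hS.2 (Set.mem_univ h) (Set.mem_univ (-h)) (by
      intro hc; apply hh; linarith) (show (0 : ℝ) < 1 / 2 by norm_num)
      (show (0 : ℝ) < 1 / 2 by norm_num) (by norm_num)
    simp only [smul_eq_mul] at h1
    rw [Lam_even] at h1
    have h2 : (1 / 2 : ℝ) * h + 1 / 2 * -h = 0 := by ring
    rw [h2] at h1
    linarith
  have hlim : ∀ h, ∀ᵐ x ∂P, Tendsto (fun n : ℕ => Real.log (endMGF β h (fun p => ω p x) n) / n)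
      atTop (𝓝 (Lam μ h - Lam μ 0)) := by
    intro h
    have h1 := hmp.quasiMeasurePreserving.ae (tendsto_logZ hμ h)
    have h2 := hmp.quasiMeasurePreserving.ae (tendsto_logZ hμ 0)
    filter_upwards [h1, h2] with x hx1 hx2
    have h3 := hx1.sub hx2
    refine h3.congr fun n => ?_
    rw [log_endMGF, sub_div]
  refine ⟨fun h => Lam μ h - Lam μ 0, hS', fun h => by simp only [Lam_even], hpos, hlim, ?_⟩
  intro h hh c hc
  filter_upwards [hlim h] with x hx
  rw [lt_div_iff₀ hh] at hc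
  -- the exponential bound
  have h1 : Tendsto (fun n : ℕ => Real.exp (h * c * n) / endMGF β h (fun p => ω p x) n) atTop
      (𝓝 0) := by
    set ℓ : ℝ := Lam μ h - Lam μ 0 with hℓ
    set d : ℝ := (ℓ - c * h) / 2 with hd
    have hd0 : 0 < d := by rw [hd]; linarith
    have h2 : ∀ᶠ n : ℕ in atTop, Real.exp (h * c * n) / endMGF β h (fun p => ω p x) n ≤
        Real.exp (-d * n) := by
      have h3 : ∀ᶠ n : ℕ in atTop, ℓ - d < Real.log (endMGF β h (fun p => ω p x) n) / n :=
        hx.eventually_const_lt (by linarith)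
      filter_upwards [h3, eventually_gt_atTop 0] with n hn hn0
      have hn1 : (0 : ℝ) < n := by exact_mod_cast hn0
      rw [lt_div_iff₀ hn1] at hn
      have h4 : endMGF β h (fun p => ω p x) n =
          Real.exp (Real.log (endMGF β h (fun p => ω p x) n)) :=
        (Real.exp_log (endMGF_pos _ _ _ _)).symm
      rw [h4, ← Real.exp_sub]
      refine Real.exp_le_exp.2 ?_
      have h5 : (ℓ - d) * n = (c * h + d) * n := by rw [hd]; ring
      rw [h5] at hn
      nlinarith
    refine squeeze_zero' (Eventually.of_forall fun n =>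
      (div_pos (Real.exp_pos _) (endMGF_pos _ _ _ _)).le) h2 ?_
    have h6 : Tendsto (fun n : ℕ => d * (n : ℝ)) atTop atTop :=
      tendsto_natCast_atTop_atTop.const_mul_atTop hd0
    have h7 := Real.tendsto_exp_neg_atTop_nhds_zero.comp h6
    refine h7.congr fun n => ?_
    simp only [Function.comp]
    ring_nf
  have h8 : Tendsto (fun n : ℕ => 1 - Real.exp (h * c * n) / endMGF β h (fun p => ω p x) n) atTop
      (𝓝 (1 - 0)) := tendsto_const_nhds.sub h1
  rw [sub_zero] at h8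
  refine tendsto_of_tendsto_of_tendsto_of_le_of_le h8 tendsto_const_nhds (fun n => ?_) fun n => ?_
  · have := one_sub_forceP_le β hh c (fun p => ω p x) n
    simp only
    linarith
  · exact forceP_le_one _ _ _ _ _

end

end Pool.Agent.W_7d29a1_h47
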