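import Pool.Agent.W_7d29a1_h47.BlockB

/-!
# The block lemma
-/

namespace Pool.Agent.W_7d29a1_h47

open MeasureTheory ProbabilityTheory Finset

noncomputable section

variable {μ : Measure ℝ} [IsProbabilityMeasure μ]

lemma Block_rpow_sum {ι : Type*} (I : Finset ι) (f : ι → ℝ) (hf : ∀ i ∈ I, 0 ≤ f i) {θ : ℝ}
    (hθ : 0 < θ) (hθ1 : θ ≤ 1) : (∑ i ∈ I, f i) ^ θ ≤ ∑ i ∈ I, f i ^ θ := by
  classical
  induction I using Finset.induction_on with
  | empty => simp [Real.zero_rpow hθ.ne']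
  | insert i I hi ih =>
    rw [Finset.sum_insert hi, Finset.sum_insert hi]
    have h1 : ∀ j ∈ I, 0 ≤ f j := fun j hj => hf j (Finset.mem_insert_of_mem hj)
    exact (Real.rpow_add_le_add_rpow (hf i (Finset.mem_insert_self i I)) (Finset.sum_nonneg h1)
      hθ.le hθ1).trans (add_le_add le_rfl (ih h1))

lemma Block_rpow_int {F : Env → ℝ} (hF : PMom (law μ) F) (h0 : ∀ g, 0 ≤ F g) {θ : ℝ}
    (hθ : 0 < θ) (hθ1 : θ ≤ 1) : Integrable (fun g => F g ^ θ) (law μ) := by
  refine ((integrable_const (1 : ℝ)).add hF.integrable).mono'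
    (hF.measurable.pow_const θ).aestronglyMeasurable (Filter.Eventually.of_forall fun g => ?_)
  rw [Real.norm_eq_abs, abs_of_nonneg (Real.rpow_nonneg (h0 g) θ)]
  show F g ^ θ ≤ 1 + F g
  rcases le_total (F g) 1 with h1 | h1
  · have := Real.rpow_le_one (h0 g) h1 hθ.le
    have := h0 g
    linarith
  · have h2 := Real.rpow_le_rpow_of_exponent_le h1 hθ1
    rw [Real.rpow_one] at h2
    linarith

/-- `log Av e^F`. -/
lemma Block_logAv_abs {g : Env} {h : ℝ} {t : ℕ} {x : ℤ} {n : ℕ} (F : (ℕ → Bool) → ℝ) :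
    |Real.log (Av g h t x n fun s => Real.exp (F s))| ≤ ∑ s ∈ T n, |F s| := by
  have h0 : 0 < Av g h t x n fun s => Real.exp (F s) := Av_pos fun s _ => Real.exp_pos _
  rw [abs_le]
  constructor
  · have h1 := Av_le_log (g := g) (h := h) (t := t) (x := x) (n := n) F
    have h2 := (abs_le.1 (abs_Av_le_sum (g := g) (h := h) (t := t) (x := x) (n := n) F)).1
    linarith
  · have h1 : Av g h t x n (fun s => Real.exp (F s)) ≤ Real.exp (∑ s ∈ T n, |F s|) := by
      refine Av_le fun s hs => Real.exp_le_exp.2 ((le_abs_self _).trans ?_)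
      exact Finset.single_le_sum (f := fun s => |F s|) (fun s _ => abs_nonneg _) hs
    have h2 := Real.log_le_log h0 h1
    rwa [Real.log_exp] at h2

lemma Block_Kp (hμ : EM μ) (h h' b : ℝ) (t : ℕ) (x : ℤ) (ℓ : ℕ) (y : ℤ) {θ : ℝ}
    (hθ : 0 < θ) (hθ1 : θ ≤ 1) :
    ∫ g, (Real.exp b * Kp g h t x ℓ y) ^ θ ∂(law μ) ≤
      Real.exp (θ * (b - (h' - h) * ((y : ℝ) - x) + a μ h' ℓ) + Cc μ * θ ^ 2 * ℓ) := by
  have hint : Integrable (fun g => Real.exp (θ * (b - (h' - h) * ((y : ℝ) - x))) *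
      Z g h' t x ℓ ^ θ) (law μ) := ((PMom_Z_rpow hμ h' t x ℓ θ).integrable).const_mul _
  have h1 : ∫ g, (Real.exp b * Kp g h t x ℓ y) ^ θ ∂(law μ) ≤
      ∫ g, Real.exp (θ * (b - (h' - h) * ((y : ℝ) - x))) * Z g h' t x ℓ ^ θ ∂(law μ) := by
    refine integral_mono_of_nonneg (Filter.Eventually.of_forall fun g => ?_) hint
      (Filter.Eventually.of_forall fun g => ?_)
    · exact Real.rpow_nonneg (mul_nonneg (Real.exp_pos _).le (Kp_nonneg _ _ _ _ _ _)) _
    · show (Real.exp b * Kp g h t x ℓ y) ^ θ ≤ _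
      have e1 : Real.exp b * Kp g h t x ℓ y ≤
          Real.exp (b - (h' - h) * ((y : ℝ) - x)) * Z g h' t x ℓ := by
        refine (mul_le_mul_of_nonneg_left (Kp_le g h h' t x ℓ y) (Real.exp_pos _).le).trans
          (le_of_eq ?_)
        rw [← mul_assoc, ← Real.exp_add]
        congr 2
      refine (Real.rpow_le_rpow (mul_nonneg (Real.exp_pos _).le (Kp_nonneg _ _ _ _ _ _)) e1
        hθ.le).trans (le_of_eq ?_)
      rw [Real.mul_rpow (Real.exp_pos _).le (Z_pos _ _ _ _ _).le, ← Real.exp_mul, mul_comm θ]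
  refine h1.trans ?_
  rw [integral_const_mul]
  have h2 := conc_Z hμ h' t x ℓ (θ := θ) (by rw [abs_of_pos hθ]; exact hθ1)
  refine (mul_le_mul_of_nonneg_left h2 (Real.exp_pos _).le).trans (le_of_eq ?_)
  rw [← Real.exp_add]
  congr 1
  ring

/-- **Block lemma.** Proof. `sum_Abl`: `∑_y Abl M y = Z * Av (s ↦ e^{∑ B})` (`Z_mul_Av`), so by
`Av_le_log` `∑_j Av (B j …) ≤ log ∑_y Abl M y - log Z`. Integrate; `∫ log ∑_y Abl =
θ⁻¹ ∫ log (∑_y Abl)^θ ≤ θ⁻¹ log ∫ (∑_y Abl)^θ ≤ θ⁻¹ log ∑_y ∫ Abl^θ` (Jensen: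
`log u ≤ log c + u / c - 1`) and `sum_Abl_rpow`. -/
theorem BM (hμ : EM μ) {h θ : ℝ} (hθ : 0 < θ) (hθ1 : θ ≤ 1) {M n : ℕ} {t : ℕ → ℕ} (ht0 : t 0 = 0)
    (htM : t M = n) (hmono : ∀ i < M, t i ≤ t (i + 1)) {B : ℕ → Env → ℤ → ℤ → ℝ}
    (hB : ∀ i < M, ∀ x y, EMom (law μ) fun g => B i g x y)
    (hBd : ∀ i < M, ∀ x y, DependsOn (fun g => B i g x y) (rows (t i) (t (i + 1)))) {c : ℕ → ℝ}
    (hc : ∀ i < M, ∀ x : ℤ, ∑ y ∈ Icc (x - (t (i + 1) - t i : ℕ)) (x + (t (i + 1) - t i : ℕ)),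
      ∫ g, (Real.exp (B i g x y) * Kp g h (t i) x (t (i + 1) - t i) y) ^ θ ∂(law μ) ≤
        Real.exp (c i)) :
    ∑ i ∈ range M, EA μ h n (fun g s => B i g (pos s (t i)) (pos s (t (i + 1)))) ≤
      θ⁻¹ * ∑ i ∈ range M, c i - a μ h n := by
  obtain ⟨F, hF⟩ : ∃ F : Env → (ℕ → Bool) → ℝ, F = fun g s =>
      ∑ i ∈ range M, B i g (pos s (t i)) (pos s (t (i + 1))) := ⟨_, rfl⟩
  have hBE : ∀ i ∈ range M, ∀ s : ℕ → Bool,
      EMom (law μ) fun g => B i g (pos s (t i)) (pos s (t (i + 1))) :=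
    fun i hi s => hB i (Finset.mem_range.1 hi) _ _
  have hFE : ∀ s : ℕ → Bool, EMom (law μ) fun g => F g s := by
    intro s
    rw [hF]
    exact EMom.sum _ fun i hi => hBE i hi s
  obtain ⟨S, hS⟩ : ∃ S : Env → ℝ, S = fun g => ∑ s ∈ T n, wt g h 0 0 n s * Real.exp (F g s) :=
    ⟨_, rfl⟩
  have hSZ : ∀ g, S g = Z g h 0 0 n * Av g h 0 0 n (fun s => Real.exp (F g s)) := by
    intro g
    rw [Z_mul_Av, hS]
  have hAvpos : ∀ g, 0 < Av g h 0 0 n (fun s => Real.exp (F g s)) := fun g =>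
    Av_pos fun s _ => Real.exp_pos _
  have hSpos : ∀ g, 0 < S g := fun g => by
    rw [hSZ]
    exact mul_pos (Z_pos _ _ _ _ _) (hAvpos g)
  have hSP : PMom (law μ) S := by
    rw [hS]
    exact PMom.sum _ fun s _ => (PMom_wt hμ h 0 0 n s).mul (hFE s).exp'
  have hSA : ∀ g, S g = ∑ y ∈ Icc (-(t M : ℤ)) (t M), Abl g h t B M y := by
    intro g
    rw [sum_Abl g h B ht0 M hmono, htM, hS, hF]
  have hAbl : ∀ g y, Abl g h t B M y = ∑ s ∈ T (t M), ind (pos s (t M) = y) *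
      (wt g h 0 0 (t M) s * Real.exp (F g s)) := by
    intro g y
    rw [Abl_eq g h B ht0 M hmono y, hF]
  have hAbl0 : ∀ g y, 0 ≤ Abl g h t B M y := by
    intro g y
    rw [hAbl]
    exact Finset.sum_nonneg fun s _ => mul_nonneg (ind_nonneg _)
      (mul_nonneg (wt_pos _ _ _ _ _ _).le (Real.exp_pos _).le)
  have hAblP : ∀ y, PMom (law μ) fun g => Abl g h t B M y := by
    intro y
    simp only [hAbl]
    exact PMom.sum _ fun s _ => ((PMom_wt hμ h 0 0 (t M) s).mul (hFE s).exp').const_mul _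
  -- the moment of order `θ`
  have hmom : ∫ g, S g ^ θ ∂(law μ) ≤ Real.exp (∑ i ∈ range M, c i) := by
    have h1 := sum_Abl_rpow hμ hθ hθ1 ht0 M hmono hB hBd hc
    refine le_trans ?_ h1
    rw [← integral_finsetSum _ fun y _ => Block_rpow_int (hAblP y) (fun g => hAbl0 g y) hθ hθ1]
    refine integral_mono (Block_rpow_int hSP (fun g => (hSpos g).le) hθ hθ1)
      (integrable_finsetSum _ fun y _ => Block_rpow_int (hAblP y) (fun g => hAbl0 g y) hθ hθ1)
      fun g => ?_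
    show S g ^ θ ≤ ∑ y ∈ Icc (-(t M : ℤ)) (t M), Abl g h t B M y ^ θ
    rw [hSA]
    exact Block_rpow_sum _ _ (fun y _ => hAbl0 g y) hθ hθ1
  -- integrability of the logarithm
  have hlogAv : EMom (law μ) fun g => Real.log (Av g h 0 0 n (fun s => Real.exp (F g s))) := by
    have hsum : EMom (law μ) fun g => ∑ s ∈ T n, |F g s| := EMom.sum _ fun s _ => (hFE s).abs
    refine hsum.mono (Real.measurable_log.comp (measurable_Av fun s _ =>
      Real.measurable_exp.comp (hFE s).measurable)) fun g => ?_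
    refine (Block_logAv_abs (F g)).trans (le_abs_self _)
  have hlogS : ∀ g, Real.log (S g) = Real.log (Z g h 0 0 n) +
      Real.log (Av g h 0 0 n (fun s => Real.exp (F g s))) := by
    intro g
    rw [hSZ, Real.log_mul (Z_pos _ _ _ _ _).ne' (hAvpos g).ne']
  have hlogSint : Integrable (fun g => Real.log (S g)) (law μ) := by
    simp only [hlogS]
    exact ((EMom_logZ hμ h 0 0 n).add hlogAv).integrable
  -- Jensen
  have hJ : θ * ∫ g, Real.log (S g) ∂(law μ) ≤ ∑ i ∈ range M, c i := by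
    obtain ⟨C, hC⟩ : ∃ C : ℝ, C = ∑ i ∈ range M, c i := ⟨_, rfl⟩
    rw [← hC] at hmom ⊢
    have h1 : ∀ g, θ * Real.log (S g) ≤ C + (S g ^ θ / Real.exp C - 1) := by
      intro g
      have h2 : 0 < S g ^ θ / Real.exp C := div_pos (Real.rpow_pos_of_pos (hSpos g) θ)
        (Real.exp_pos C)
      have h3 := Real.log_le_sub_one_of_pos h2
      rw [Real.log_div (Real.rpow_pos_of_pos (hSpos g) θ).ne' (Real.exp_pos C).ne',
        Real.log_rpow (hSpos g), Real.log_exp] at h3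
      linarith
    have hi3 : Integrable (fun g => S g ^ θ / Real.exp C) (law μ) :=
      (Block_rpow_int hSP (fun g => (hSpos g).le) hθ hθ1).div_const (Real.exp C)
    have hi2 : Integrable (fun g => S g ^ θ / Real.exp C - 1) (law μ) :=
      hi3.sub (integrable_const 1)
    have hi1 : Integrable (fun g => C + (S g ^ θ / Real.exp C - 1)) (law μ) :=
      (integrable_const C).add hi2
    have h4 := integral_mono (hlogSint.const_mul θ) hi1 h1
    rw [integral_const_mul] at h4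
    refine h4.trans ?_
    rw [integral_add (integrable_const C) hi2, integral_sub hi3 (integrable_const 1),
      integral_div]
    simp only [integral_const, probReal_univ, smul_eq_mul, one_mul]
    have h5 : (∫ g, S g ^ θ ∂(law μ)) / Real.exp C ≤ 1 := by
      rw [div_le_one (Real.exp_pos C)]
      exact hmom
    linarith
  -- comparison
  have hEA : ∑ i ∈ range M, EA μ h n (fun g s => B i g (pos s (t i)) (pos s (t (i + 1)))) =
      EA μ h n F := by
    rw [← EA_sum (range M) fun i hi s _ => (hBE i hi s).pmom, hF]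
  have hle : EA μ h n F ≤ ∫ g, (Real.log (S g) - Real.log (Z g h 0 0 n)) ∂(law μ) := by
    refine integral_mono (PF.integrable fun s _ => (hFE s).pmom)
      (hlogSint.sub (EMom_logZ hμ h 0 0 n).integrable) fun g => ?_
    show Av g h 0 0 n (F g) ≤ Real.log (S g) - Real.log (Z g h 0 0 n)
    rw [hlogS]
    have := Av_le_log (g := g) (h := h) (t := 0) (x := 0) (n := n) (F g)
    linarith
  rw [hEA]
  refine hle.trans ?_
  rw [integral_sub hlogSint (EMom_logZ hμ h 0 0 n).integrable]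
  have h6 : ∫ g, Real.log (S g) ∂(law μ) ≤ θ⁻¹ * ∑ i ∈ range M, c i := by
    rw [inv_mul_eq_div, le_div_iff₀ hθ, mul_comm]
    exact hJ
  have h7 : ∫ g, Real.log (Z g h 0 0 n) ∂(law μ) = a μ h n := rfl
  linarith

/-- The standard bound for a block without bonus, or with bonus `b ≤ δ-cost`: for `0 < θ ≤ 1`,
`∫ (e^b Kp g h t x ℓ y)^θ ≤ e^{θ (b - (h' - h)(y - x) + ℓ Λ(h')) + C θ² ℓ}` for every tilt `h'`.
Proof. `Kp_le`, `conc_Z`, `a_le_Lam`. -/
lemma integral_Kp_rpow (hμ : EM μ) (h h' b : ℝ) (t : ℕ) (x : ℤ) (ℓ : ℕ) (y : ℤ) {θ : ℝ}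
    (hθ : 0 < θ) (hθ1 : θ ≤ 1) :
    ∫ g, (Real.exp b * Kp g h t x ℓ y) ^ θ ∂(law μ) ≤
      Real.exp (θ * (b - (h' - h) * ((y : ℝ) - x) + ℓ * Lam μ h') + Cc μ * θ ^ 2 * ℓ) := by
  refine (Block_Kp hμ h h' b t x ℓ y hθ hθ1).trans (Real.exp_le_exp.2 ?_)
  have h1 := mul_le_mul_of_nonneg_left (a_le_Lam hμ h' ℓ) hθ.le
  nlinarith

/-- **Rate.** `n Λ(h) - a_n(h) ≤ eps n`. Proof. `BM` with `M` blocks of length `n` (`t j = j n`),
`B = 0`, `θ = 1 / √n`, `c j = log (2n+1) + θ a_n + C θ² n` (by `Kp_le` with `h' = h`, `conc_Z`; there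
are `2n+1` values of `y`): `a_{Mn} ≤ M θ⁻¹ (log (2n+1) + C θ² n) + M a_n`; divide by `M` and let
`M → ∞` (`tendsto_a` along `M ↦ M n`), or use `Lam` = limit. `n = 0` is trivial. -/
theorem rate (hμ : EM μ) (h : ℝ) (n : ℕ) : n * Lam μ h - a μ h n ≤ eps μ n := by
  rcases Nat.eq_zero_or_pos n with hn | hn
  · subst hn
    rw [a_zero]
    simp [eps]
  have hn0 : (0 : ℝ) < n := by exact_mod_cast hn
  have hn1 : (1 : ℝ) ≤ n := by exact_mod_cast hn
  obtain ⟨r, hr⟩ : ∃ r : ℝ, r = Real.sqrt n := ⟨_, rfl⟩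
  have hr1 : 1 ≤ r := by
    rw [hr]
    exact Real.one_le_sqrt.2 hn1
  have hr0 : 0 < r := by linarith
  have hrr : r * r = n := by
    rw [hr]
    exact Real.mul_self_sqrt hn0.le
  have hθ : 0 < r⁻¹ := inv_pos.2 hr0
  have hθ1 : r⁻¹ ≤ 1 := inv_le_one_of_one_le₀ hr1
  obtain ⟨A, hA⟩ : ∃ A : ℝ, A = a μ h n + eps μ n := ⟨_, rfl⟩
  -- all multiples
  have hM : ∀ M : ℕ, a μ h (M * n) ≤ M * A := by
    intro M
    have h1 := BM (μ := μ) hμ (h := h) hθ hθ1 (M := M) (n := M * n) (t := fun j => j * n)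
      (by simp) rfl (fun i _ => Nat.mul_le_mul_right n (Nat.le_succ i))
      (B := fun _ _ _ _ => 0) (fun i _ x y => EMom.const 0)
      (fun i _ x y => fun _ _ _ => rfl)
      (c := fun _ => Real.log (2 * n + 1) + (r⁻¹ * a μ h n + Cc μ * r⁻¹ ^ 2 * n))
      (by
        intro i _ x
        have hℓ : (i + 1) * n - i * n = n := by
          rw [Nat.succ_mul]
          omega
        simp only [hℓ]
        have h2 : ∀ y ∈ Icc (x - (n : ℤ)) (x + n),
            ∫ g, (Real.exp 0 * Kp g h (i * n) x n y) ^ r⁻¹ ∂(law μ) ≤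
              Real.exp (r⁻¹ * a μ h n + Cc μ * r⁻¹ ^ 2 * n) := by
          intro y _
          refine (Block_Kp hμ h h 0 (i * n) x n y hθ hθ1).trans (le_of_eq ?_)
          congr 1
          ring
        refine (Finset.sum_le_sum h2).trans ?_
        rw [Finset.sum_const, Int.card_Icc, nsmul_eq_mul, Real.exp_add (Real.log (2 * n + 1)),
          Real.exp_log (by positivity)]
        refine mul_le_mul_of_nonneg_right ?_ (Real.exp_pos _).le
        have h3 : ((x + n + 1 - (x - n)).toNat : ℝ) = 2 * n + 1 := by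
          have h4 : (x + n + 1 - (x - n)).toNat = 2 * n + 1 := by omega
          rw [h4]
          push_cast
          ring
        rw [h3])
    have h2 : ∑ i ∈ range M, EA μ h (M * n) (fun _ _ => (0 : ℝ)) = 0 :=
      Finset.sum_eq_zero fun i _ => EA_const 0
    rw [h2, Finset.sum_const, Finset.card_range, nsmul_eq_mul, inv_inv] at h1
    have h3 : r * (M * (Real.log (2 * n + 1) + (r⁻¹ * a μ h n + Cc μ * r⁻¹ ^ 2 * n))) =
        M * A := by
      have h4 : r * r⁻¹ = 1 := mul_inv_cancel₀ hr0.ne'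
      have h5 : r * (Cc μ * r⁻¹ ^ 2 * n) = Cc μ * r := by
        rw [← hrr]
        field_simp
      rw [hA]
      unfold eps
      rw [← hr]
      calc r * (M * (Real.log (2 * n + 1) + (r⁻¹ * a μ h n + Cc μ * r⁻¹ ^ 2 * n)))
          = M * (r * Real.log (2 * n + 1) + (r * r⁻¹) * a μ h n +
            r * (Cc μ * r⁻¹ ^ 2 * n)) := by ring
        _ = M * (a μ h n + r * (Real.log (2 * n + 1) + Cc μ)) := by
            rw [h4, h5]
            ring
    rw [h3] at h1
    linarith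
  -- the limit
  have hlim := (tendsto_a hμ h).comp (Filter.tendsto_id.atTop_mul_const' hn :
    Filter.Tendsto (fun M : ℕ => M * n) Filter.atTop Filter.atTop)
  have hle : Lam μ h ≤ A / n := by
    refine le_of_tendsto hlim ?_
    filter_upwards [Filter.eventually_ge_atTop 1] with M hM1
    have hM0 : (0 : ℝ) < M := by exact_mod_cast hM1
    show a μ h (M * n) / ((M * n : ℕ) : ℝ) ≤ A / n
    rw [div_le_div_iff₀ (by push_cast; positivity) hn0]
    push_cast
    have := mul_le_mul_of_nonneg_right (hM M) hn0.le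
    linarith
  rw [le_div_iff₀ hn0] at hle
  rw [hA] at hle
  linarith

end

end Pool.Agent.W_7d29a1_h47
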