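import Mathlib

/-!
# Directed polymers in dimension `1 + 1`: definitions

An environment is a function `g : ℕ × ℤ → ℝ`; the energy `g (i, y)` is collected by a walk whose
position at time `i + 1` is `y` (row `i` is used by the step from time `i` to time `i + 1`).
A walk is a step sequence `s : ℕ → Bool` (`true` = `+1`, `false` = `-1`); walks of length `n` are
the elements of the finite set `T n` (all entries from `n` on are `false`).
-/

namespace Pool.Agent.W_7d29a1_h47

open MeasureTheory ProbabilityTheory Finset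

noncomputable section

/-- Environments. -/
abbrev Env := ℕ × ℤ → ℝ

/-- The law of an i.i.d. environment with one-site law `μ`. -/
abbrev law (μ : Measure ℝ) : Measure Env := Measure.infinitePi fun _ : ℕ × ℤ => μ

/-- All exponential moments are finite. -/
def EM (μ : Measure ℝ) : Prop := ∀ b : ℝ, Integrable (fun u : ℝ => Real.exp (b * |u|)) μ

/-- The absolute exponential moments. -/
def Mom (μ : Measure ℝ) (b : ℝ) : ℝ := ∫ u, Real.exp (b * |u|) ∂μ

/-- The constant in the concentration inequality. -/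
def Cc (μ : Measure ℝ) : ℝ := 4 * Mom μ 2 ^ 2

open Classical in
/-- The real valued indicator of a proposition. -/
def ind (p : Prop) : ℝ := if p then 1 else 0

/-- The value of a step. -/
def stp (b : Bool) : ℤ := if b then 1 else -1

/-- The position after `i` steps, started at `0`. -/
def pos (s : ℕ → Bool) (i : ℕ) : ℤ := ∑ j ∈ range i, stp (s j)

/-- Extension of a finite step sequence by `false`. -/
def ext {n : ℕ} (s : Fin n → Bool) : ℕ → Bool := fun i => if h : i < n then s ⟨i, h⟩ else false

lemma ext_injective (n : ℕ) : Function.Injective (ext : (Fin n → Bool) → ℕ → Bool) := by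
  intro s r h
  funext i
  have := congrFun h i
  simpa [ext, i.2] using this

/-- The set of walks of length `n`. -/
def T (n : ℕ) : Finset (ℕ → Bool) := (Finset.univ : Finset (Fin n → Bool)).map ⟨ext, ext_injective n⟩

/-- The energy of the walk started at time `t` in `x`, with the `n` steps of `s`. -/
def En (g : Env) (t : ℕ) (x : ℤ) (n : ℕ) (s : ℕ → Bool) : ℝ :=
  ∑ i ∈ range n, g (t + i, x + pos s (i + 1))

/-- The weight of a walk, with tilt `h`. -/
def wt (g : Env) (h : ℝ) (t : ℕ) (x : ℤ) (n : ℕ) (s : ℕ → Bool) : ℝ :=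
  Real.exp (En g t x n s + h * (pos s n : ℝ))

/-- The (unnormalised) partition function with tilt `h`. -/
def Z (g : Env) (h : ℝ) (t : ℕ) (x : ℤ) (n : ℕ) : ℝ := ∑ s ∈ T n, wt g h t x n s

/-- The Gibbs average of `F` over walks of length `n` started at `(t, x)`, with tilt `h`. -/
def Av (g : Env) (h : ℝ) (t : ℕ) (x : ℤ) (n : ℕ) (F : (ℕ → Bool) → ℝ) : ℝ :=
  (∑ s ∈ T n, wt g h t x n s * F s) / Z g h t x n

/-- The Gibbs average over two independent walks started at `(0, 0)`. -/
def Av2 (g : Env) (h : ℝ) (n : ℕ) (F : (ℕ → Bool) → (ℕ → Bool) → ℝ) : ℝ :=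
  Av g h 0 0 n fun s => Av g h 0 0 n fun r => F s r

/-- Joint average over environment and one walk of length `n` started at `(0, 0)`. -/
def EA (μ : Measure ℝ) (h : ℝ) (n : ℕ) (F : Env → (ℕ → Bool) → ℝ) : ℝ :=
  ∫ g, Av g h 0 0 n (F g) ∂(law μ)

/-- Joint average over environment and two walks of length `n` started at `(0, 0)`, independent
given the environment. -/
def EA2 (μ : Measure ℝ) (h : ℝ) (n : ℕ) (F : Env → (ℕ → Bool) → (ℕ → Bool) → ℝ) : ℝ :=
  ∫ g, Av2 g h n (F g) ∂(law μ)

/-- Partition function with terminal weights `v`. -/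
def Zv (g : Env) (v : ℤ → ℝ) (t : ℕ) (x : ℤ) (n : ℕ) : ℝ :=
  ∑ s ∈ T n, Real.exp (En g t x n s) * v (x + pos s n)

open Classical in
/-- Point-to-point partition function (no tilt) from `(t, x)` to `(t + n, y)`. -/
def Zp (g : Env) (t : ℕ) (x : ℤ) (n : ℕ) (y : ℤ) : ℝ :=
  ∑ s ∈ T n, if x + pos s n = y then Real.exp (En g t x n s) else 0

/-- The sites of the rows `a ≤ i < b`. -/
def rows (a b : ℕ) : Set (ℕ × ℤ) := {p | a ≤ p.1 ∧ p.1 < b}

/-- The sum of `|g|` over the cone with apex `(t, x)` and height `n`. -/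
def V (g : Env) (t : ℕ) (x : ℤ) (n : ℕ) : ℝ :=
  ∑ i ∈ range n, ∑ y ∈ Icc (x - (i + 1)) (x + (i + 1)), |g (t + i, y)|

/-- The expected log partition function. -/
def a (μ : Measure ℝ) (h : ℝ) (n : ℕ) : ℝ := ∫ g, Real.log (Z g h 0 0 n) ∂(law μ)

/-- The free energy with tilt `h`. -/
def Lam (μ : Measure ℝ) (h : ℝ) : ℝ := sSup (Set.range fun n : ℕ => a μ h (n + 1) / ((n : ℝ) + 1))

/-- The error bound `n Λ - a_n ≤ eps n`. -/
def eps (μ : Measure ℝ) (n : ℕ) : ℝ := Real.sqrt n * (Real.log (2 * n + 1) + Cc μ)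

/-- Gluing two step sequences at time `a`. -/
def glue (a : ℕ) (s r : ℕ → Bool) : ℕ → Bool := fun i => if i < a then s i else r (i - a)

/-- Cutting a step sequence: only the first `a` steps are kept. -/
def cut (a : ℕ) (s : ℕ → Bool) : ℕ → Bool := fun i => if i < a then s i else false

/-- Shifting a step sequence. -/
def shf (a : ℕ) (s : ℕ → Bool) : ℕ → Bool := fun i => s (a + i)

end

end Pool.Agent.W_7d29a1_h47
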