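import Pool.Agent.W_7d29a1_h47.LamA

/-!
# The free energy: slopes are in `(-1, 1)`
-/

namespace Pool.Agent.W_7d29a1_h47

open MeasureTheory ProbabilityTheory Finset Filter Topology

noncomputable section

variable {μ : Measure ℝ} [IsProbabilityMeasure μ]

lemma LamB_exp_le (x : ℝ) : Real.exp x ≤ 1 + x + x ^ 2 * Real.exp |x| := by
  have h := Complex.norm_exp_sub_sum_le_norm_mul_exp (x : ℂ) 2
  have e : Complex.exp (x:ℂ) - ∑ m ∈ Finset.range 2, (x:ℂ) ^ m / (m.factorial : ℂ)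
      = ((Real.exp x - 1 - x : ℝ) : ℂ) := by
    rw [Finset.sum_range_succ, Finset.sum_range_succ, Finset.sum_range_zero]
    push_cast
    simp [Nat.factorial]
    ring
  rw [e, Complex.norm_real, Complex.norm_real, Real.norm_eq_abs, Real.norm_eq_abs, sq_abs] at h
  have := le_abs_self (Real.exp x - 1 - x)
  linarith

lemma LamB_exp_le' {θ : ℝ} (h0 : 0 < θ) (h1 : θ ≤ 1) (u : ℝ) :
    Real.exp (θ * u) ≤ 1 + θ * u + 2 * θ ^ 2 * Real.exp (2 * |u|) := by
  have h := LamB_exp_le (θ * u)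
  have h2 : |θ * u| ≤ |u| := by
    rw [abs_mul, abs_of_pos h0]
    exact mul_le_of_le_one_left (abs_nonneg u) h1
  have h3 : Real.exp |θ * u| ≤ Real.exp |u| := Real.exp_le_exp.2 h2
  have h4 : u ^ 2 ≤ 2 * Real.exp |u| := by
    have := Real.quadratic_le_exp_of_nonneg (abs_nonneg u)
    rw [sq_abs] at this
    linarith [abs_nonneg u]
  have h5 : Real.exp (2 * |u|) = Real.exp |u| * Real.exp |u| := by
    rw [← Real.exp_add]
    ring_nf
  have h6 : (θ * u) ^ 2 * Real.exp |θ * u| ≤ 2 * θ ^ 2 * Real.exp (2 * |u|) := by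
    calc (θ * u) ^ 2 * Real.exp |θ * u| ≤ (θ * u) ^ 2 * Real.exp |u| :=
          mul_le_mul_of_nonneg_left h3 (sq_nonneg _)
      _ = θ ^ 2 * Real.exp |u| * u ^ 2 := by ring
      _ ≤ θ ^ 2 * Real.exp |u| * (2 * Real.exp |u|) :=
          mul_le_mul_of_nonneg_left h4 (by positivity)
      _ = 2 * θ ^ 2 * Real.exp (2 * |u|) := by rw [h5]; ring
  linarith

lemma LamB_int_id (hμ : EM μ) : Integrable (fun u : ℝ => u) μ := by
  refine (hμ 1).mono' measurable_id.aestronglyMeasurable (Filter.Eventually.of_forall fun u => ?_)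
  have := Real.add_one_le_exp |u|
  rw [Real.norm_eq_abs, one_mul]
  linarith

lemma LamB_int_exp (hμ : EM μ) (θ : ℝ) : Integrable (fun u : ℝ => Real.exp (θ * u)) μ := by
  refine (hμ |θ|).mono' (by fun_prop) (Filter.Eventually.of_forall fun u => ?_)
  rw [Real.norm_eq_abs, abs_of_pos (Real.exp_pos _), ← abs_mul]
  exact Real.exp_le_exp.2 (le_abs_self _)

lemma LamB_mgf (hμ : EM μ) {θ : ℝ} (h0 : 0 < θ) (h1 : θ ≤ 1) :
    θ⁻¹ * Real.log (∫ u, Real.exp (θ * u) ∂μ) ≤ m0 μ + 2 * θ * Mom μ 2 := by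
  have hi := LamB_int_id hμ
  have he := LamB_int_exp hμ θ
  have h2 := hμ 2
  have hle : ∫ u, Real.exp (θ * u) ∂μ ≤ 1 + θ * m0 μ + 2 * θ ^ 2 * Mom μ 2 := by
    have hI : ∫ u, (1 + θ * u + 2 * θ ^ 2 * Real.exp (2 * |u|)) ∂μ
        = 1 + θ * m0 μ + 2 * θ ^ 2 * Mom μ 2 := by
      have a1 : Integrable (fun u : ℝ => (1 : ℝ) + θ * u) μ :=
        (integrable_const 1).add (hi.const_mul θ)
      rw [integral_add a1 (h2.const_mul _), integral_add (integrable_const 1) (hi.const_mul θ),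
        integral_const_mul, integral_const_mul]
      simp [m0, Mom]
    rw [← hI]
    refine integral_mono he ?_ fun u => LamB_exp_le' h0 h1 u
    exact ((integrable_const 1).add (hi.const_mul θ)).add (h2.const_mul _)
  have hpos : 0 < ∫ u, Real.exp (θ * u) ∂μ := integral_exp_pos he
  have hlog := Real.log_le_sub_one_of_pos hpos
  have : Real.log (∫ u, Real.exp (θ * u) ∂μ) ≤ θ * (m0 μ + 2 * θ * Mom μ 2) := by
    nlinarith [hlog, hle]
  calc θ⁻¹ * Real.log (∫ u, Real.exp (θ * u) ∂μ) ≤ θ⁻¹ * (θ * (m0 μ + 2 * θ * Mom μ 2)) :=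
        mul_le_mul_of_nonneg_left this (inv_nonneg.2 h0.le)
    _ = m0 μ + 2 * θ * Mom μ 2 := by field_simp

lemma LamB_cosh {θ h : ℝ} (h0 : 0 < θ) (hh : 0 < h) :
    θ⁻¹ * Real.log (2 * Real.cosh (θ * h)) ≤ h + (2 * θ ^ 2 * h)⁻¹ := by
  have e1 : 2 * Real.cosh (θ * h) = Real.exp (θ * h) * (1 + Real.exp (-(2 * (θ * h)))) := by
    rw [Real.cosh_eq, mul_add, ← Real.exp_add, mul_one]
    ring_nf
  have hy : 0 < 2 * (θ * h) := by positivity
  have e2 : Real.exp (-(2 * (θ * h))) ≤ (2 * (θ * h))⁻¹ := by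
    rw [Real.exp_neg]
    refine inv_anti₀ hy ?_
    have := Real.add_one_le_exp (2 * (θ * h))
    linarith
  have e3 : Real.log (2 * Real.cosh (θ * h)) ≤ θ * h + (2 * (θ * h))⁻¹ := by
    rw [e1, Real.log_mul (Real.exp_pos _).ne' (by positivity), Real.log_exp]
    have := Real.log_le_sub_one_of_pos (show (0:ℝ) < 1 + Real.exp (-(2 * (θ * h))) by positivity)
    linarith
  calc θ⁻¹ * Real.log (2 * Real.cosh (θ * h)) ≤ θ⁻¹ * (θ * h + (2 * (θ * h))⁻¹) :=
        mul_le_mul_of_nonneg_left e3 (inv_nonneg.2 h0.le)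
    _ = h + (2 * θ ^ 2 * h)⁻¹ := by
        field_simp

/-- `Λ(h) - |h| → m0` as `h → ∞`. Proof. By `a_le_theta` and `Lam_le`, for `0 < θ ≤ 1`:
`Λ(h) - h ≤ θ⁻¹ log ∫ e^{θ u} dμ + θ⁻¹ log (1 + e^{-2 θ h})`. As `θ → 0+`,
`θ⁻¹ log ∫ e^{θu} → m0` (derivative of the log moment generating function at `0`, or
`e^{θu} ≤ 1 + θ u + θ² e^{2|u|}` for `|θ| ≤ 1`, so `θ⁻¹ log ∫ e^{θu} ≤ m0 + θ Mom μ 2`). Given `ε`
fix such a `θ`, then take `h` large. -/
lemma Lam_sub_lt (hμ : EM μ) {ε : ℝ} (hε : 0 < ε) :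
    ∃ h₁ : ℝ, 0 < h₁ ∧ ∀ h, h₁ ≤ h → Lam μ h < h + m0 μ + ε := by
  set M := Mom μ 2 with hM
  have hM0 : 0 ≤ M := by
    rw [hM]
    exact integral_nonneg fun u => (Real.exp_pos _).le
  obtain ⟨θ, h0, h1, hθ⟩ : ∃ θ : ℝ, 0 < θ ∧ θ ≤ 1 ∧ 2 * θ * M ≤ ε / 4 := by
    refine ⟨min 1 (ε / (8 * (M + 1))), lt_min one_pos (by positivity), min_le_left _ _, ?_⟩
    have h := min_le_right 1 (ε / (8 * (M + 1)))
    calc 2 * min 1 (ε / (8 * (M + 1))) * M ≤ 2 * (ε / (8 * (M + 1))) * M := by gcongr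
      _ = ε / 4 * (M / (M + 1)) := by field_simp; ring
      _ ≤ ε / 4 * 1 := by
          refine mul_le_mul_of_nonneg_left ?_ (by positivity)
          rw [div_le_one (by positivity)]
          linarith
      _ = ε / 4 := mul_one _
  refine ⟨2 / (θ ^ 2 * ε), by positivity, fun h hh => ?_⟩
  have hpos : 0 < h := lt_of_lt_of_le (by positivity) hh
  have hL : Lam μ h ≤ θ⁻¹ * (Real.log (∫ u, Real.exp (θ * u) ∂μ)
      + Real.log (2 * Real.cosh (θ * h))) :=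
    Lam_le h fun n => a_le_theta hμ h n h0 h1
  have h3 := LamB_mgf hμ h0 h1
  have h4 := LamB_cosh h0 hpos
  have h5 : (2 * θ ^ 2 * h)⁻¹ ≤ ε / 4 := by
    rw [inv_le_comm₀ (by positivity) (by positivity), inv_div]
    rw [div_le_iff₀ (by positivity)] at hh
    rw [div_le_iff₀ hε]
    nlinarith
  rw [mul_add] at hL
  rw [← hM] at h3
  linarith

/-- All slopes are `< 1`. Proof. If `Λ c - Λ b ≥ c - b` then by convexity `Λ d - Λ c ≥ d - c` for all
`d ≥ c` (slope monotonicity), so `Λ d - d ≥ Λ c - c ≥ Λ b - b > m0` (`lt_Lam`; if `b < 0` use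
`Λ b - b ≥ Λ b - |b|`), contradiction to `Lam_sub_lt` with `ε = Λ b - b - m0` for large `d`. -/
lemma slope_lt_one (hμ : EM μ) {b c : ℝ} (hbc : b < c) : Lam μ c - Lam μ b < c - b := by
  by_contra hcon
  push Not at hcon
  have hε : 0 < Lam μ b - b - m0 μ := by
    have := lt_Lam hμ b
    linarith [le_abs_self b]
  obtain ⟨h₁, -, hh⟩ := Lam_sub_lt hμ hε
  have hd : c < max (c + 1) h₁ := lt_of_lt_of_le (by linarith) (le_max_left _ _)
  have h1 := hh (max (c + 1) h₁) (le_max_right _ _)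
  have h2 := (Lam_convex hμ).slope_mono_adjacent (Set.mem_univ b)
    (Set.mem_univ (max (c + 1) h₁)) hbc hd
  have h3 : 1 ≤ (Lam μ c - Lam μ b) / (c - b) := by
    rw [le_div_iff₀ (by linarith)]
    linarith
  have h4 := h3.trans h2
  rw [le_div_iff₀ (by linarith)] at h4
  linarith

/-- Proof. `slope_lt_one` and `Lam_even`. -/
lemma neg_one_lt_slope (hμ : EM μ) {b c : ℝ} (hbc : b < c) : -(c - b) < Lam μ c - Lam μ b := by
  have h := slope_lt_one hμ (neg_lt_neg hbc)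
  rw [Lam_even, Lam_even] at h
  linarith

/-- The hypothesis that will be refuted: `Λ` has the slope `v` on `[h₀ - δ, h₀ + δ]`. -/
structure Aff (μ : Measure ℝ) (h₀ δ v : ℝ) : Prop where
  pos : 0 < δ
  up : Lam μ (h₀ + δ) = Lam μ h₀ + δ * v
  dn : Lam μ (h₀ - δ) = Lam μ h₀ - δ * v

lemma Aff.lt_one (hμ : EM μ) {h₀ δ v : ℝ} (hA : Aff μ h₀ δ v) : v < 1 := by
  have h := slope_lt_one hμ (show h₀ < h₀ + δ by linarith [hA.pos])
  rw [hA.up] at h
  have h1 : δ * v < δ * 1 := by linarith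
  exact lt_of_mul_lt_mul_left h1 hA.pos.le

lemma Aff.neg_one_lt (hμ : EM μ) {h₀ δ v : ℝ} (hA : Aff μ h₀ δ v) : -1 < v := by
  have h := neg_one_lt_slope hμ (show h₀ < h₀ + δ by linarith [hA.pos])
  rw [hA.up] at h
  have h1 : δ * (-1) < δ * v := by linarith
  exact lt_of_mul_lt_mul_left h1 hA.pos.le

end

end Pool.Agent.W_7d29a1_h47
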