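import Pool.Agent.W_7d29a1_h47.Env

/-!
# Joint averages over environment and walk: elementary rules
-/

namespace Pool.Agent.W_7d29a1_h47

open MeasureTheory ProbabilityTheory Finset

noncomputable section

variable {μ : Measure ℝ} [IsProbabilityMeasure μ] {h : ℝ} {n : ℕ}

/-- A random path functional whose values have all polynomial moments. -/
def PF (μ : Measure ℝ) (n : ℕ) (F : Env → (ℕ → Bool) → ℝ) : Prop :=
  ∀ s ∈ T n, PMom (law μ) fun g => F g s

lemma PF.const (c : ℝ) : PF μ n (fun _ _ => c) := fun _ _ => PMom.const c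

lemma PF.det (F : (ℕ → Bool) → ℝ) : PF μ n (fun _ s => F s) := fun _ _ => PMom.const _

lemma PF.add {F G : Env → (ℕ → Bool) → ℝ} (hF : PF μ n F) (hG : PF μ n G) :
    PF μ n (fun g s => F g s + G g s) := fun s hs => (hF s hs).add (hG s hs)

lemma PF.sub {F G : Env → (ℕ → Bool) → ℝ} (hF : PF μ n F) (hG : PF μ n G) :
    PF μ n (fun g s => F g s - G g s) := fun s hs => (hF s hs).sub (hG s hs)

lemma PF.mul {F G : Env → (ℕ → Bool) → ℝ} (hF : PF μ n F) (hG : PF μ n G) :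
    PF μ n (fun g s => F g s * G g s) := fun s hs => (hF s hs).mul (hG s hs)

lemma PF.const_mul {F : Env → (ℕ → Bool) → ℝ} (hF : PF μ n F) (c : ℝ) :
    PF μ n (fun g s => c * F g s) := fun s hs => (hF s hs).const_mul c

lemma PF.sum {ι : Type*} (I : Finset ι) {F : ι → Env → (ℕ → Bool) → ℝ}
    (hF : ∀ i ∈ I, PF μ n (F i)) : PF μ n (fun g s => ∑ i ∈ I, F i g s) :=
  fun s hs => PMom.sum I fun i hi => hF i hi s hs

lemma PF.integrable {F : Env → (ℕ → Bool) → ℝ} (hF : PF μ n F) :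
    Integrable (fun g => Av g h 0 0 n (F g)) (law μ) := (PMom_Av hF).integrable

/-- Indicators of measurable events are admissible. -/
lemma PF.ind {p : Env → (ℕ → Bool) → Prop} (hp : ∀ s ∈ T n, MeasurableSet {g | p g s}) :
    PF μ n (fun g s => ind (p g s)) := by
  intro s hs
  refine PMom.of_bounded (c := 1) ?_ fun g => ind_abs _
  unfold Pool.Agent.W_7d29a1_h47.ind
  exact Measurable.ite (hp s hs) measurable_const measurable_const

lemma EA_congr {F G : Env → (ℕ → Bool) → ℝ} (hFG : ∀ g, ∀ s ∈ T n, F g s = G g s) :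
    EA μ h n F = EA μ h n G := by
  unfold EA
  congr 1
  funext g
  exact Av_congr (hFG g)

lemma EA_const (c : ℝ) : EA μ h n (fun _ _ => c) = c := by
  unfold EA
  simp only [Av_const]
  simp

lemma EA_mono {F G : Env → (ℕ → Bool) → ℝ} (hF : PF μ n F) (hG : PF μ n G)
    (hFG : ∀ g, ∀ s ∈ T n, F g s ≤ G g s) : EA μ h n F ≤ EA μ h n G :=
  integral_mono hF.integrable hG.integrable fun g => Av_mono (hFG g)

lemma EA_nonneg {F : Env → (ℕ → Bool) → ℝ} (hF : ∀ g, ∀ s ∈ T n, 0 ≤ F g s) :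
    0 ≤ EA μ h n F := integral_nonneg fun g => Av_nonneg (hF g)

lemma EA_le {F : Env → (ℕ → Bool) → ℝ} (hF : PF μ n F) {c : ℝ}
    (hc : ∀ g, ∀ s ∈ T n, F g s ≤ c) : EA μ h n F ≤ c := by
  have := EA_mono (h := h) hF (PF.const c) hc
  rwa [EA_const] at this

lemma EA_add {F G : Env → (ℕ → Bool) → ℝ} (hF : PF μ n F) (hG : PF μ n G) :
    EA μ h n (fun g s => F g s + G g s) = EA μ h n F + EA μ h n G := by
  unfold EA
  rw [← integral_add hF.integrable hG.integrable]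
  simp only [Av_add]

lemma EA_sub {F G : Env → (ℕ → Bool) → ℝ} (hF : PF μ n F) (hG : PF μ n G) :
    EA μ h n (fun g s => F g s - G g s) = EA μ h n F - EA μ h n G := by
  unfold EA
  rw [← integral_sub hF.integrable hG.integrable]
  simp only [Av_sub]

lemma EA_const_mul (c : ℝ) (F : Env → (ℕ → Bool) → ℝ) :
    EA μ h n (fun g s => c * F g s) = c * EA μ h n F := by
  unfold EA
  rw [← integral_const_mul]
  simp only [Av_mul_left]

lemma EA_sum {ι : Type*} (I : Finset ι) {F : ι → Env → (ℕ → Bool) → ℝ}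
    (hF : ∀ i ∈ I, PF μ n (F i)) :
    EA μ h n (fun g s => ∑ i ∈ I, F i g s) = ∑ i ∈ I, EA μ h n (F i) := by
  unfold EA
  rw [← integral_finsetSum I fun i hi => (hF i hi).integrable]
  simp only [Av_sum]

lemma EA_ind_le_one (p : Env → (ℕ → Bool) → Prop)
    (hp : ∀ s ∈ T n, MeasurableSet {g | p g s}) : EA μ h n (fun g s => ind (p g s)) ≤ 1 :=
  EA_le (PF.ind hp) fun _ _ _ => ind_le_one _

/-- Admissible functionals of two walks. -/
def PF2 (μ : Measure ℝ) (n : ℕ) (F : Env → (ℕ → Bool) → (ℕ → Bool) → ℝ) : Prop :=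
  ∀ s ∈ T n, ∀ r ∈ T n, PMom (law μ) fun g => F g s r

lemma PF2.inner {F : Env → (ℕ → Bool) → (ℕ → Bool) → ℝ} (hF : PF2 μ n F) :
    PF μ n (fun g s => Av g h 0 0 n fun r => F g s r) :=
  fun s hs => PMom_Av fun r hr => hF s hs r hr

lemma PF2.det (F : (ℕ → Bool) → (ℕ → Bool) → ℝ) : PF2 μ n (fun _ s r => F s r) :=
  fun _ _ _ _ => PMom.const _

lemma PF2.add {F G : Env → (ℕ → Bool) → (ℕ → Bool) → ℝ} (hF : PF2 μ n F) (hG : PF2 μ n G) :
    PF2 μ n (fun g s r => F g s r + G g s r) := fun s hs r hr => (hF s hs r hr).add (hG s hs r hr)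

lemma EA2_eq (F : Env → (ℕ → Bool) → (ℕ → Bool) → ℝ) :
    EA2 μ h n F = EA μ h n (fun g s => Av g h 0 0 n fun r => F g s r) := rfl

lemma EA2_mono {F G : Env → (ℕ → Bool) → (ℕ → Bool) → ℝ} (hF : PF2 μ n F) (hG : PF2 μ n G)
    (hFG : ∀ g, ∀ s ∈ T n, ∀ r ∈ T n, F g s r ≤ G g s r) : EA2 μ h n F ≤ EA2 μ h n G := by
  rw [EA2_eq, EA2_eq]
  exact EA_mono hF.inner hG.inner fun g s hs => Av_mono fun r hr => hFG g s hs r hr

lemma EA2_nonneg {F : Env → (ℕ → Bool) → (ℕ → Bool) → ℝ}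
    (hF : ∀ g, ∀ s ∈ T n, ∀ r ∈ T n, 0 ≤ F g s r) : 0 ≤ EA2 μ h n F :=
  EA_nonneg fun g s hs => Av_nonneg fun r hr => hF g s hs r hr

lemma EA2_const (c : ℝ) : EA2 μ h n (fun _ _ _ => c) = c := by
  rw [EA2_eq]
  simp only [Av_const, EA_const]

lemma EA2_add {F G : Env → (ℕ → Bool) → (ℕ → Bool) → ℝ} (hF : PF2 μ n F) (hG : PF2 μ n G) :
    EA2 μ h n (fun g s r => F g s r + G g s r) = EA2 μ h n F + EA2 μ h n G := by
  rw [EA2_eq, EA2_eq, EA2_eq, ← EA_add hF.inner hG.inner]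
  simp only [Av_add]

lemma EA2_const_mul (c : ℝ) (F : Env → (ℕ → Bool) → (ℕ → Bool) → ℝ) :
    EA2 μ h n (fun g s r => c * F g s r) = c * EA2 μ h n F := by
  rw [EA2_eq, EA2_eq, ← EA_const_mul]
  simp only [Av_mul_left]

lemma EA2_sum {ι : Type*} (I : Finset ι) {F : ι → Env → (ℕ → Bool) → (ℕ → Bool) → ℝ}
    (hF : ∀ i ∈ I, PF2 μ n (F i)) :
    EA2 μ h n (fun g s r => ∑ i ∈ I, F i g s r) = ∑ i ∈ I, EA2 μ h n (F i) := by
  have h1 : ∑ i ∈ I, EA2 μ h n (F i) =
      ∑ i ∈ I, EA μ h n (fun g s => Av g h 0 0 n fun r => F i g s r) := rfl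
  rw [h1, ← EA_sum I fun i hi => (hF i hi).inner, EA2_eq]
  simp only [Av_sum]

/-- A functional of the first walk only. -/
lemma EA2_fst (F : Env → (ℕ → Bool) → ℝ) : EA2 μ h n (fun g s _ => F g s) = EA μ h n F := by
  rw [EA2_eq]
  simp only [Av_const]

/-- A functional of the second walk only. -/
lemma EA2_snd (F : Env → (ℕ → Bool) → ℝ) : EA2 μ h n (fun g _ r => F g r) = EA μ h n F := by
  rw [EA2_eq]
  unfold EA
  simp only [Av_const]

lemma PF2.ind {p : Env → (ℕ → Bool) → (ℕ → Bool) → Prop}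
    (hp : ∀ s ∈ T n, ∀ r ∈ T n, MeasurableSet {g | p g s r}) :
    PF2 μ n (fun g s r => ind (p g s r)) := by
  intro s hs r hr
  refine PMom.of_bounded (c := 1) ?_ fun g => ind_abs _
  unfold Pool.Agent.W_7d29a1_h47.ind
  exact Measurable.ite (hp s hs r hr) measurable_const measurable_const

end

end Pool.Agent.W_7d29a1_h47
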