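import Pool.Agent.W_7d29a1_h47.Conc
import Pool.Agent.W_7d29a1_h47.LamA

/-!
# The block lemma: kernels
-/

namespace Pool.Agent.W_7d29a1_h47

open MeasureTheory ProbabilityTheory Finset

noncomputable section

variable {μ : Measure ℝ} [IsProbabilityMeasure μ]

/-- Tilted point-to-point partition function. -/
def Kp (g : Env) (h : ℝ) (t : ℕ) (x : ℤ) (ℓ : ℕ) (y : ℤ) : ℝ :=
  Real.exp (h * ((y : ℝ) - x)) * Zp g t x ℓ y

/-- The weight of the paths up to the end of block `j` that end in `y`, with the bonuses of the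
blocks `< j`. -/
def Abl (g : Env) (h : ℝ) (t : ℕ → ℕ) (B : ℕ → Env → ℤ → ℤ → ℝ) : ℕ → ℤ → ℝ
  | 0, y => ind (y = 0)
  | j + 1, y => ∑ x ∈ Icc (-(t j : ℤ)) (t j), Abl g h t B j x *
      (Real.exp (B j g x y) * Kp g h (t j) x (t (j + 1) - t j) y)

lemma Kp_nonneg (g : Env) (h : ℝ) (t : ℕ) (x : ℤ) (ℓ : ℕ) (y : ℤ) : 0 ≤ Kp g h t x ℓ y :=
  mul_nonneg (Real.exp_pos _).le (Zp_nonneg _ _ _ _ _)

/-- `Kp` is bounded by the partition function with any other tilt. Proof. `Zp_le`. -/
lemma Kp_le (g : Env) (h h' : ℝ) (t : ℕ) (x : ℤ) (ℓ : ℕ) (y : ℤ) :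
    Kp g h t x ℓ y ≤ Real.exp (-((h' - h) * ((y : ℝ) - x))) * Z g h' t x ℓ := by
  unfold Kp
  refine (mul_le_mul_of_nonneg_left (Zp_le g h' t x ℓ y) (Real.exp_pos _).le).trans (le_of_eq ?_)
  rw [← mul_assoc, ← Real.exp_add]
  ring_nf

/-- `Zp` vanishes off the cone. -/
lemma Zp_eq_zero {g : Env} {t : ℕ} {x : ℤ} {n : ℕ} {y : ℤ} (h : y ∉ Icc (x - n) (x + n)) :
    Zp g t x n y = 0 := by
  unfold Zp
  refine Finset.sum_eq_zero fun s _ => if_neg fun hy => h ?_
  rw [← hy]
  exact pos_mem_Icc s n x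

lemma BlockA_inner (g : Env) (h : ℝ) (a : ℕ) (x : ℤ) (b : ℕ) (y : ℤ) (β : ℤ → ℝ) :
    ∑ r ∈ T b, ind (x + pos r b = y) * (wt g h a x b r * Real.exp (β (x + pos r b))) =
      Real.exp (β y) * Kp g h a x b y := by
  unfold Kp Zp
  rw [Finset.mul_sum, Finset.mul_sum]
  refine Finset.sum_congr rfl fun r _ => ?_
  by_cases hy : x + pos r b = y
  · rw [ind_true hy, if_pos hy, one_mul, mul_comm, hy]
    congr 1
    unfold wt
    rw [← Real.exp_add]
    congr 1
    rw [← hy]
    push_cast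
    ring
  · rw [ind_false hy, if_neg hy, zero_mul, mul_zero, mul_zero]

lemma BlockA_pick (a : ℕ) (s : ℕ → Bool) (Φ : ℤ → ℝ) :
    ∑ x ∈ Icc (-(a : ℤ)) a, ind (pos s a = x) * Φ x = Φ (pos s a) := by
  have h1 : pos s a ∈ Icc (-(a : ℤ)) a := by
    have := abs_le.1 (pos_abs_le s a)
    rw [Finset.mem_Icc]
    exact this
  rw [Finset.sum_eq_single (pos s a)]
  · rw [ind_true rfl, one_mul]
  · intro x _ hx
    rw [ind_false (fun h => hx h.symm), zero_mul]
  · intro h
    exact absurd h1 h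

/-- Proof. Induction on `j`. Both sides are supported on `|y| ≤ t j`. Step: `sum_split` with
`a = t j`, `b = t (j+1) - t j`; `wt_glue`, `pos_glue_le`, `pos_glue_add`; sort the first sum by the
end point `x` (`sum_end`), and for fixed `x` the sum over the second part with end point `y` is
`Kp g h (t j) x _ y` (definition of `Zp`, `wt`). -/
lemma Abl_eq (g : Env) (h : ℝ) {t : ℕ → ℕ} (B : ℕ → Env → ℤ → ℤ → ℝ) (ht0 : t 0 = 0) (j : ℕ)
    (hmono : ∀ i < j, t i ≤ t (i + 1)) (y : ℤ) :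
    Abl g h t B j y = ∑ s ∈ T (t j), ind (pos s (t j) = y) * (wt g h 0 0 (t j) s *
      Real.exp (∑ i ∈ range j, B i g (pos s (t i)) (pos s (t (i + 1))))) := by
  induction j generalizing y with
  | zero =>
    simp only [Abl, ht0, T_zero, Finset.sum_singleton, Finset.range_zero, Finset.sum_empty,
      Real.exp_zero, mul_one, pos_zero, wt, En, Int.cast_zero, mul_zero, add_zero]
    exact ind_congr eq_comm
  | succ j ih =>
    have ih' := fun x => ih (fun i hi => hmono i (by omega)) x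
    have hmon : ∀ i, i ≤ j → t i ≤ t j := by
      intro i hi
      obtain ⟨k, hk⟩ := Nat.exists_eq_add_of_le hi
      have h1 : ∀ m, i + m ≤ j → t i ≤ t (i + m) := by
        intro m
        induction m with
        | zero => intro _; exact le_rfl
        | succ m ihm =>
          intro hm
          exact (ihm (by omega)).trans (hmono (i + m) (by omega))
      rw [hk]
      exact h1 k (by omega)
    obtain ⟨b, hb⟩ : ∃ b, t (j + 1) = t j + b := Nat.exists_eq_add_of_le (hmono j (by omega))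
    have hb2 : t (j + 1) - t j = b := by omega
    have hL : Abl g h t B (j + 1) y = ∑ x ∈ Icc (-(t j : ℤ)) (t j), Abl g h t B j x *
      (Real.exp (B j g x y) * Kp g h (t j) x (t (j + 1) - t j) y) := rfl
    rw [hL, hb2]
    have h2 : ∀ x ∈ Icc (-(t j : ℤ)) (t j), Abl g h t B j x *
        (Real.exp (B j g x y) * Kp g h (t j) x b y) =
        ∑ s ∈ T (t j), (wt g h 0 0 (t j) s *
          Real.exp (∑ i ∈ range j, B i g (pos s (t i)) (pos s (t (i + 1))))) *
          (ind (pos s (t j) = x) * (Real.exp (B j g x y) * Kp g h (t j) x b y)) := by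
      intro x _
      rw [ih' x, Finset.sum_mul]
      refine Finset.sum_congr rfl fun s _ => ?_
      ring
    rw [Finset.sum_congr rfl h2, Finset.sum_comm, hb, sum_split]
    refine Finset.sum_congr rfl fun s _ => ?_
    rw [← Finset.mul_sum, BlockA_pick (t j) s (fun x => Real.exp (B j g x y) * Kp g h (t j) x b y),
      ← BlockA_inner g h (t j) (pos s (t j)) b y (fun z => B j g (pos s (t j)) z), Finset.mul_sum]
    refine Finset.sum_congr rfl fun r _ => ?_
    have h3 : ∑ i ∈ range (j + 1), B i g (pos (glue (t j) s r) (t i))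
        (pos (glue (t j) s r) (t (i + 1))) =
        ∑ i ∈ range j, B i g (pos s (t i)) (pos s (t (i + 1))) +
          B j g (pos s (t j)) (pos s (t j) + pos r b) := by
      rw [Finset.sum_range_succ]
      congr 1
      · refine Finset.sum_congr rfl fun i hi => ?_
        rw [Finset.mem_range] at hi
        rw [pos_glue_le (hmon i hi.le), pos_glue_le (hmon (i + 1) hi)]
      · rw [pos_glue_le le_rfl, hb, pos_glue_add]
    rw [h3, pos_glue_add, wt_glue, Real.exp_add, zero_add, zero_add]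
    ring

/-- Proof. Sum `Abl_eq` over `y`. -/
lemma sum_Abl (g : Env) (h : ℝ) {t : ℕ → ℕ} (B : ℕ → Env → ℤ → ℤ → ℝ) (ht0 : t 0 = 0) (j : ℕ)
    (hmono : ∀ i < j, t i ≤ t (i + 1)) :
    ∑ y ∈ Icc (-(t j : ℤ)) (t j), Abl g h t B j y = ∑ s ∈ T (t j), wt g h 0 0 (t j) s *
      Real.exp (∑ i ∈ range j, B i g (pos s (t i)) (pos s (t (i + 1)))) := by
  have h1 : ∀ y ∈ Icc (-(t j : ℤ)) (t j), Abl g h t B j y = ∑ s ∈ T (t j), ind (pos s (t j) = y) *
      (wt g h 0 0 (t j) s * Real.exp (∑ i ∈ range j, B i g (pos s (t i)) (pos s (t (i + 1))))) :=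
    fun y _ => Abl_eq g h B ht0 j hmono y
  rw [Finset.sum_congr rfl h1, Finset.sum_comm]
  exact Finset.sum_congr rfl fun s _ => BlockA_pick (t j) s (fun _ => wt g h 0 0 (t j) s *
    Real.exp (∑ i ∈ range j, B i g (pos s (t i)) (pos s (t (i + 1)))))

end

end Pool.Agent.W_7d29a1_h47
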