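import Pool.Agent.W_7d29a1_h47.BlockA

/-!
# The block lemma: moment recursion
-/

namespace Pool.Agent.W_7d29a1_h47

open MeasureTheory ProbabilityTheory Finset

noncomputable section

variable {μ : Measure ℝ} [IsProbabilityMeasure μ]

lemma BlockB_add {θ : ℝ} (hθ : 0 < θ) (hθ1 : θ ≤ 1) {a b : ℝ} (ha : 0 ≤ a) (hb : 0 ≤ b) :
    (a + b) ^ θ ≤ a ^ θ + b ^ θ := by
  lift a to NNReal using ha
  lift b to NNReal using hb
  exact_mod_cast NNReal.rpow_add_le_add_rpow a b hθ.le hθ1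

lemma BlockB_sum {ι : Type*} {θ : ℝ} (hθ : 0 < θ) (hθ1 : θ ≤ 1) (I : Finset ι) {f : ι → ℝ}
    (hf : ∀ i ∈ I, 0 ≤ f i) : (∑ i ∈ I, f i) ^ θ ≤ ∑ i ∈ I, f i ^ θ := by
  classical
  induction I using Finset.induction_on with
  | empty => simp [Real.zero_rpow hθ.ne']
  | insert i I hi ih =>
    rw [Finset.sum_insert hi, Finset.sum_insert hi]
    have h1 : ∀ j ∈ I, 0 ≤ f j := fun j hj => hf j (Finset.mem_insert_of_mem hj)
    have h2 := BlockB_add hθ hθ1 (hf i (Finset.mem_insert_self i I)) (Finset.sum_nonneg h1)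
    linarith [ih h1]

lemma BlockB_pow {F : Env → ℝ} (hF : PMom (law μ) F) (h0 : ∀ g, 0 ≤ F g) {θ : ℝ} (hθ : 0 < θ)
    (hθ1 : θ ≤ 1) : PMom (law μ) (fun g => F g ^ θ) := by
  refine ((PMom.const (P := law μ) 1).add hF).mono (hF.1.pow_const θ) fun g => ?_
  have h1 : 0 ≤ F g ^ θ := Real.rpow_nonneg (h0 g) _
  rw [abs_of_nonneg h1, abs_of_nonneg (by linarith [h0 g])]
  have h2 := BlockB_add hθ hθ1 zero_le_one (h0 g)
  have h3 : F g ^ θ ≤ (1 + F g) ^ θ :=
    Real.rpow_le_rpow (h0 g) (by linarith) hθ.le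
  have h4 : (1 + F g) ^ θ ≤ (1 + F g) ^ (1 : ℝ) :=
    Real.rpow_le_rpow_of_exponent_le (by linarith [h0 g]) hθ1
  rw [Real.rpow_one] at h4
  linarith

lemma BlockB_nonneg (g : Env) (h : ℝ) (t : ℕ → ℕ) (B : ℕ → Env → ℤ → ℤ → ℝ) (j : ℕ) :
    ∀ y, 0 ≤ Abl g h t B j y := by
  induction j with
  | zero => exact fun y => ind_nonneg _
  | succ j ih =>
    intro y
    exact Finset.sum_nonneg fun x _ => mul_nonneg (ih x)
      (mul_nonneg (Real.exp_pos _).le (Kp_nonneg _ _ _ _ _ _))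

lemma BlockB_Kp (hμ : EM μ) (h : ℝ) (t : ℕ) (x : ℤ) (ℓ : ℕ) (y : ℤ) :
    PMom (law μ) (fun g => Kp g h t x ℓ y) := (PMom_Zp hμ t x ℓ y).const_mul _

lemma BlockB_pmom (hμ : EM μ) {h : ℝ} {t : ℕ → ℕ} {B : ℕ → Env → ℤ → ℤ → ℝ} (j : ℕ)
    (hB : ∀ i < j, ∀ x y, EMom (law μ) fun g => B i g x y) :
    ∀ y, PMom (law μ) (fun g => Abl g h t B j y) := by
  induction j with
  | zero => exact fun y => PMom.const _
  | succ j ih =>
    intro y
    refine PMom.sum _ fun x _ => (ih (fun i hi => hB i (by omega)) x).mul ?_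
    exact (hB j (by omega) x y).exp'.mul (BlockB_Kp hμ h _ x _ y)

lemma BlockB_mono {t : ℕ → ℕ} {j : ℕ} (hmono : ∀ i < j, t i ≤ t (i + 1)) : ∀ i ≤ j, t i ≤ t j := by
  induction j with
  | zero =>
    intro i hi
    have : i = 0 := by omega
    rw [this]
  | succ j ih =>
    intro i hi
    rcases Nat.lt_or_ge i (j + 1) with h1 | h1
    · exact (ih (fun k hk => hmono k (by omega)) i (by omega)).trans (hmono j (by omega))
    · have : i = j + 1 := by omega
      rw [this]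

lemma BlockB_Kdep (h : ℝ) (t : ℕ) (x : ℤ) (ℓ : ℕ) (y : ℤ) :
    DependsOn (fun g : Env => Kp g h t x ℓ y) (rows t (t + ℓ)) := by
  intro g g' hg
  have := dependsOn_Zp t x ℓ y hg
  simp only at this
  simp only [Kp, this]

lemma BlockB_dep {h : ℝ} {t : ℕ → ℕ} {B : ℕ → Env → ℤ → ℤ → ℝ} (j : ℕ)
    (hmono : ∀ i < j, t i ≤ t (i + 1))
    (hBd : ∀ i < j, ∀ x y, DependsOn (fun g => B i g x y) (rows (t i) (t (i + 1)))) :
    ∀ y, DependsOn (fun g : Env => Abl g h t B j y) (rows 0 (t j)) := by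
  induction j with
  | zero => exact fun y g g' _ => rfl
  | succ j ih =>
    intro y g g' hg
    have hj := hmono j (by omega)
    show ∑ x ∈ Icc (-(t j : ℤ)) (t j), Abl g h t B j x *
      (Real.exp (B j g x y) * Kp g h (t j) x (t (j + 1) - t j) y) =
      ∑ x ∈ Icc (-(t j : ℤ)) (t j), Abl g' h t B j x *
      (Real.exp (B j g' x y) * Kp g' h (t j) x (t (j + 1) - t j) y)
    refine Finset.sum_congr rfl fun x _ => ?_
    have h1 : Abl g h t B j x = Abl g' h t B j x :=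
      ih (fun i hi => hmono i (by omega)) (fun i hi => hBd i (by omega)) x
        fun p hp => hg p ⟨hp.1, hp.2.trans_le hj⟩
    have h2 : B j g x y = B j g' x y :=
      hBd j (by omega) x y fun p hp => hg p ⟨Nat.zero_le _, hp.2⟩
    have h3 : Kp g h (t j) x (t (j + 1) - t j) y = Kp g' h (t j) x (t (j + 1) - t j) y :=
      BlockB_Kdep h (t j) x (t (j + 1) - t j) y fun p hp =>
        hg p ⟨Nat.zero_le _, by have := hp.2; omega⟩
    rw [h1, h2, h3]

/-- The moment recursion. Proof. Induction on `j`: `Abl j` is `≥ 0`, depends on `rows 0 (t j)`, all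
its powers are integrable (finite sums of products of `PMom` functions; `Real.exp (B …)` is `PMom` by
`EMom.exp'`). `(∑ a)^θ ≤ ∑ a^θ` for `0 < θ ≤ 1`, `mul_rpow`, `integral_mul_indep` with
`A = rows 0 (t j)`:
`∑_y ∫ Abl (j+1) y ^ θ ≤ ∑_x ∫ Abl j x ^ θ ∑_y ∫ (e^{B j g x y} Kp …)^θ ≤ e^{c j} ∑_x ∫ Abl j x ^ θ`
(`y` outside `Icc (x - ℓ) (x + ℓ)` contributes `0` by `Zp_eq_zero`). -/
lemma sum_Abl_rpow (hμ : EM μ) {h θ : ℝ} (hθ : 0 < θ) (hθ1 : θ ≤ 1) {t : ℕ → ℕ} (ht0 : t 0 = 0)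
    (j : ℕ) (hmono : ∀ i < j, t i ≤ t (i + 1)) {B : ℕ → Env → ℤ → ℤ → ℝ}
    (hB : ∀ i < j, ∀ x y, EMom (law μ) fun g => B i g x y)
    (hBd : ∀ i < j, ∀ x y, DependsOn (fun g => B i g x y) (rows (t i) (t (i + 1)))) {c : ℕ → ℝ}
    (hc : ∀ i < j, ∀ x : ℤ, ∑ y ∈ Icc (x - (t (i + 1) - t i : ℕ)) (x + (t (i + 1) - t i : ℕ)),
      ∫ g, (Real.exp (B i g x y) * Kp g h (t i) x (t (i + 1) - t i) y) ^ θ ∂(law μ) ≤
        Real.exp (c i)) :
    ∑ y ∈ Icc (-(t j : ℤ)) (t j), ∫ g, Abl g h t B j y ^ θ ∂(law μ) ≤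
      Real.exp (∑ i ∈ range j, c i) := by
  induction j with
  | zero =>
    rw [Finset.sum_range_zero, Real.exp_zero, ht0]
    have h1 : Icc (-((0 : ℕ) : ℤ)) ((0 : ℕ) : ℤ) = {0} := by
      ext y
      rw [Finset.mem_Icc, Finset.mem_singleton]
      push_cast
      omega
    rw [h1, Finset.sum_singleton]
    have h2 : ∀ g : Env, Abl g h t B 0 0 ^ θ = 1 := by
      intro g
      show ind ((0 : ℤ) = 0) ^ θ = 1
      rw [ind_true rfl, Real.one_rpow]
    simp only [h2]
    rw [integral_const]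
    simp
  | succ j ih =>
    have hmj : ∀ i < j, t i ≤ t (i + 1) := fun i hi => hmono i (by omega)
    have hBj : ∀ i < j, ∀ x y, EMom (law μ) fun g => B i g x y := fun i hi => hB i (by omega)
    have hdj : ∀ i < j, ∀ x y, DependsOn (fun g => B i g x y) (rows (t i) (t (i + 1))) :=
      fun i hi => hBd i (by omega)
    have ih' := ih hmj hBj hdj fun i hi => hc i (by omega)
    have hj := hmono j (by omega)
    have hcj := hc j (by omega)
    set ℓ : ℕ := t (j + 1) - t j with hℓ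
    -- the factors
    have hK0 : ∀ (g : Env) (x y : ℤ), 0 ≤ Real.exp (B j g x y) * Kp g h (t j) x ℓ y := fun g x y =>
      mul_nonneg (Real.exp_pos _).le (Kp_nonneg _ _ _ _ _ _)
    have hKm : ∀ x y, PMom (law μ) fun g => Real.exp (B j g x y) * Kp g h (t j) x ℓ y := fun x y =>
      (hB j (by omega) x y).exp'.mul (BlockB_Kp hμ h _ x _ y)
    have hKm' : ∀ x y, PMom (law μ) fun g => (Real.exp (B j g x y) * Kp g h (t j) x ℓ y) ^ θ :=
      fun x y => BlockB_pow (hKm x y) (fun g => hK0 g x y) hθ hθ1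
    have hA0 : ∀ (g : Env) (x : ℤ), 0 ≤ Abl g h t B j x := fun g x => BlockB_nonneg g h t B j x
    have hAm : ∀ x, PMom (law μ) fun g => Abl g h t B j x ^ θ := fun x =>
      BlockB_pow (BlockB_pmom hμ j hBj x) (fun g => hA0 g x) hθ hθ1
    have hind : ∀ x y, ∫ g, Abl g h t B j x ^ θ *
        (Real.exp (B j g x y) * Kp g h (t j) x ℓ y) ^ θ ∂(law μ) =
        (∫ g, Abl g h t B j x ^ θ ∂(law μ)) *
          ∫ g, (Real.exp (B j g x y) * Kp g h (t j) x ℓ y) ^ θ ∂(law μ) := by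
      intro x y
      refine integral_mul_indep (rows 0 (t j)) (hAm x).1 (hKm' x y).1 ?_ ?_
      · intro g g' hg
        have := BlockB_dep (h := h) j hmj hdj x hg
        simp only at this
        simp only [this]
      · intro g g' hg
        have h1 : B j g x y = B j g' x y :=
          hBd j (by omega) x y fun p hp => hg p (rows_subset_compl le_rfl hp)
        have h2 : Kp g h (t j) x ℓ y = Kp g' h (t j) x ℓ y :=
          BlockB_Kdep h (t j) x ℓ y fun p hp => hg p (rows_subset_compl le_rfl hp)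
        simp only [h1, h2]
    have hstep : ∀ y, ∫ g, Abl g h t B (j + 1) y ^ θ ∂(law μ) ≤
        ∑ x ∈ Icc (-(t j : ℤ)) (t j), (∫ g, Abl g h t B j x ^ θ ∂(law μ)) *
          ∫ g, (Real.exp (B j g x y) * Kp g h (t j) x ℓ y) ^ θ ∂(law μ) := by
      intro y
      have h1 : ∀ g, Abl g h t B (j + 1) y ^ θ ≤ ∑ x ∈ Icc (-(t j : ℤ)) (t j),
          Abl g h t B j x ^ θ * (Real.exp (B j g x y) * Kp g h (t j) x ℓ y) ^ θ := by
        intro g
        have h2 := BlockB_sum hθ hθ1 (Icc (-(t j : ℤ)) (t j))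
          (f := fun x => Abl g h t B j x * (Real.exp (B j g x y) * Kp g h (t j) x ℓ y))
          fun x _ => mul_nonneg (hA0 g x) (hK0 g x y)
        refine h2.trans (le_of_eq ?_)
        refine Finset.sum_congr rfl fun x _ => ?_
        exact Real.mul_rpow (hA0 g x) (hK0 g x y)
      have hint : ∀ x ∈ Icc (-(t j : ℤ)) (t j), Integrable (fun g => Abl g h t B j x ^ θ *
          (Real.exp (B j g x y) * Kp g h (t j) x ℓ y) ^ θ) (law μ) := fun x _ =>
        ((hAm x).mul (hKm' x y)).integrable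
      have h3 := integral_mono (BlockB_pow (BlockB_pmom hμ (j + 1) hB y)
        (fun g => BlockB_nonneg g h t B (j + 1) y) hθ hθ1).integrable
        (integrable_finsetSum _ hint) h1
      rw [integral_finsetSum _ hint] at h3
      refine h3.trans (le_of_eq ?_)
      exact Finset.sum_congr rfl fun x _ => hind x y
    refine (Finset.sum_le_sum fun y _ => hstep y).trans ?_
    rw [Finset.sum_comm]
    have hx : ∀ x ∈ Icc (-(t j : ℤ)) (t j), ∑ y ∈ Icc (-(t (j + 1) : ℤ)) (t (j + 1)),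
        (∫ g, Abl g h t B j x ^ θ ∂(law μ)) *
          ∫ g, (Real.exp (B j g x y) * Kp g h (t j) x ℓ y) ^ θ ∂(law μ) ≤
        (∫ g, Abl g h t B j x ^ θ ∂(law μ)) * Real.exp (c j) := by
      intro x hx
      rw [Finset.mem_Icc] at hx
      rw [← Finset.mul_sum]
      refine mul_le_mul_of_nonneg_left ?_
        (integral_nonneg fun g => Real.rpow_nonneg (hA0 g x) _)
      refine le_trans (le_of_eq ?_) (hcj x)
      symm
      refine Finset.sum_subset ?_ ?_
      · intro y hy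
        rw [Finset.mem_Icc] at hy ⊢
        omega
      · intro y _ hy
        have h1 : ∀ g : Env, (Real.exp (B j g x y) * Kp g h (t j) x ℓ y) ^ θ = 0 := by
          intro g
          unfold Kp
          rw [Zp_eq_zero hy, mul_zero, mul_zero, Real.zero_rpow hθ.ne']
        simp only [h1, integral_zero]
    refine (Finset.sum_le_sum hx).trans ?_
    rw [← Finset.sum_mul, Finset.sum_range_succ, Real.exp_add]
    exact mul_le_mul_of_nonneg_right ih' (Real.exp_pos _).le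

end

end Pool.Agent.W_7d29a1_h47
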