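import Pool.Agent.W_7d29a1_h47.Surg

/-!
# Meeting of two replicas: quenched part
-/

namespace Pool.Agent.W_7d29a1_h47

open MeasureTheory ProbabilityTheory Finset

noncomputable section

/-- The probability of meeting in a good block. -/
def cmeet (Q : ℝ) (L : ℕ) : ℝ := Real.exp (-(4 * Q)) / 4 ^ L

lemma cmeet_pos (Q : ℝ) (L : ℕ) : 0 < cmeet Q L := by unfold cmeet; positivity

lemma Chain_Av2 (g : Env) (h : ℝ) (n : ℕ) (F : (ℕ → Bool) → (ℕ → Bool) → ℝ) :
    Av2 g h n F = (∑ p ∈ T n ×ˢ T n, wt g h 0 0 n p.1 * wt g h 0 0 n p.2 * F p.1 p.2) /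
      (Z g h 0 0 n) ^ 2 := by
  have h1 : ∑ p ∈ T n ×ˢ T n, wt g h 0 0 n p.1 * wt g h 0 0 n p.2 * F p.1 p.2 =
      ∑ s ∈ T n, ∑ r ∈ T n, wt g h 0 0 n s * wt g h 0 0 n r * F s r :=
    Finset.sum_product _ _ _
  have h2 : ∀ s ∈ T n, wt g h 0 0 n s * ((∑ r ∈ T n, wt g h 0 0 n r * F s r) / Z g h 0 0 n) =
      (∑ r ∈ T n, wt g h 0 0 n s * wt g h 0 0 n r * F s r) / Z g h 0 0 n := by
    intro s _
    rw [← mul_div_assoc, Finset.mul_sum]
    congr 1
    exact Finset.sum_congr rfl fun r _ => by ring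
  unfold Av2 Av
  rw [Finset.sum_congr rfl h2, ← Finset.sum_div, h1, sq, div_div]

lemma Chain_mono {g : Env} {h : ℝ} {n : ℕ} {F G : (ℕ → Bool) → (ℕ → Bool) → ℝ}
    (hFG : ∀ s r, F s r ≤ G s r) : Av2 g h n F ≤ Av2 g h n G := by
  unfold Av2
  exact Av_mono fun s _ => Av_mono fun r _ => hFG s r

lemma Chain_add {g : Env} {h : ℝ} {n : ℕ} (F G : (ℕ → Bool) → (ℕ → Bool) → ℝ) :
    Av2 g h n (fun s r => F s r + G s r) = Av2 g h n F + Av2 g h n G := by
  unfold Av2
  rw [← Av_add]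
  refine Av_congr fun s _ => ?_
  rw [Av_add]

lemma Chain_sum {g : Env} {h : ℝ} {n : ℕ} {ι : Type*} (I : Finset ι)
    (F : ι → (ℕ → Bool) → (ℕ → Bool) → ℝ) :
    Av2 g h n (fun s r => ∑ i ∈ I, F i s r) = ∑ i ∈ I, Av2 g h n (F i) := by
  unfold Av2
  rw [← Av_sum]
  refine Av_congr fun s _ => ?_
  rw [Av_sum]

lemma Chain_const {g : Env} {h : ℝ} {n : ℕ} (c : ℝ) : Av2 g h n (fun _ _ => c) = c := by
  unfold Av2
  rw [Av_congr (G := fun _ => c) fun s _ => Av_const c, Av_const]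

/-- One block. `G ≥ 0` does not change if the block path of `s` or of `r` is replaced by one with the
same displacement. Proof. Write both sides with sums over `T n × T n` of `W(s,r) = wt s * wt r`. For
good `(s, r)` there are by `exists_meet` `a', b' ∈ T L` such that `(s', r') = (repl s a', repl r b')`
meets in the block; `W(s,r) ≤ e^{4Q} W(s', r')` (`wt_repl_le`), `G (s,r) = G (s', r')` (`hGs`, `hGr`),
and `(s', r')` is again good (same positions at `k`, `k+L`). Moreover `s = repl k L s' a''`,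
`r = repl k L r' b''` with `a'' = cut L (shf k s) ∈ T L`, `b'' = cut L (shf k r) ∈ T L` (`repl_repl`).
So `∑_{(s,r)} W G ind(good) ≤ e^{4Q} ∑_{(s,r)} ∑_{(s',r')} ind(s = repl s' a'', r = repl r' b'' for some
a'', b'') W(s',r') G(s',r') ind(good) ind(meet)`, and for given `(s', r')` at most `2^L * 2^L` pairs
`(s,r)` occur (choose a pair of functions `(s,r) ↦ (s',r')` and use
`Finset.sum_comp`/`card_fiber ≤ 4^L`, or `Finset.sum_le_sum_fiberwise…`). -/
lemma block_meet (g : Env) (h : ℝ) {Q ρ : ℝ} {w L k n : ℕ} (hρ0 : 0 ≤ ρ)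
    (hL : 4 * (w : ℝ) + 3 ≤ (1 - ρ) * L / 2) (hk : k + L ≤ n)
    {G : (ℕ → Bool) → (ℕ → Bool) → ℝ} (hG : ∀ s r, 0 ≤ G s r)
    (hGs : ∀ s r a, pos a L = pos s (k + L) - pos s k → G (repl k L s a) r = G s r)
    (hGr : ∀ s r a, pos a L = pos r (k + L) - pos r k → G s (repl k L r a) = G s r) :
    cmeet Q L * Av2 g h n (fun s r => G s r * ind (good g Q ρ w L k s r)) ≤
      Av2 g h n (fun s r => G s r * ind (good g Q ρ w L k s r) *
        ind (∃ i, k ≤ i ∧ i ≤ k + L ∧ pos s i = pos r i)) := by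
  classical
  rw [Chain_Av2, Chain_Av2, ← mul_div_assoc]
  refine div_le_div_of_nonneg_right ?_ (sq_nonneg _)
  -- the function on the right
  set F : (ℕ → Bool) × (ℕ → Bool) → ℝ := fun p => wt g h 0 0 n p.1 * wt g h 0 0 n p.2 *
    (G p.1 p.2 * ind (good g Q ρ w L k p.1 p.2) *
      ind (∃ i, k ≤ i ∧ i ≤ k + L ∧ pos p.1 i = pos p.2 i)) with hF
  have hF0 : ∀ p, 0 ≤ F p := fun p => mul_nonneg (mul_nonneg (wt_pos _ _ _ _ _ _).le
    (wt_pos _ _ _ _ _ _).le) (mul_nonneg (mul_nonneg (hG _ _) (ind_nonneg _)) (ind_nonneg _))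
  set A := (T n ×ˢ T n).filter (fun p => good g Q ρ w L k p.1 p.2) with hA
  have hmeet : ∀ p : (ℕ → Bool) × (ℕ → Bool), ∃ q : (ℕ → Bool) × (ℕ → Bool), p ∈ A →
      q ∈ T n ×ˢ T n ∧
      wt g h 0 0 n p.1 * wt g h 0 0 n p.2 * G p.1 p.2 ≤ Real.exp (4 * Q) * F q ∧
      p.1 = repl k L q.1 (cut L (shf k p.1)) ∧ p.2 = repl k L q.2 (cut L (shf k p.2)) := by
    intro p
    by_cases hp : p ∈ A
    · obtain ⟨hpT, hg⟩ := Finset.mem_filter.1 hp
      obtain ⟨hp1, hp2⟩ := Finset.mem_product.1 hpT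
      obtain ⟨a, ha, b, hb, ha', hb', i, hi, hm⟩ := exists_meet hρ0 hL hg
      refine ⟨(repl k L p.1 a, repl k L p.2 b), fun _ => ⟨?_, ?_, ?_, ?_⟩⟩
      · exact Finset.mem_product.2 ⟨repl_mem hk hp1, repl_mem hk hp2⟩
      · have hgood : good g Q ρ w L k (repl k L p.1 a) (repl k L p.2 b) := by
          unfold good at hg ⊢
          rw [pos_repl_le le_rfl, pos_repl_le le_rfl, pos_repl_ge le_rfl ha',
            pos_repl_ge le_rfl hb']
          exact hg
        have hmt : ∃ i, k ≤ i ∧ i ≤ k + L ∧ pos (repl k L p.1 a) i = pos (repl k L p.2 b) i :=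
          ⟨k + i, by omega, by omega, by rw [pos_repl_mid hi, pos_repl_mid hi, hm]⟩
        have hGeq : G (repl k L p.1 a) (repl k L p.2 b) = G p.1 p.2 := by
          rw [hGr _ _ _ hb', hGs _ _ _ ha']
        have hFv : F (repl k L p.1 a, repl k L p.2 b) = wt g h 0 0 n (repl k L p.1 a) *
            wt g h 0 0 n (repl k L p.2 b) * G p.1 p.2 := by
          simp only [hF]
          rw [ind_true hgood, ind_true hmt, hGeq, mul_one, mul_one]
        rw [hFv]
        have w1 := wt_repl_le g h hk ha'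
        have w2 := wt_repl_le g h hk hb'
        have hV1 : V g k (pos p.1 k) L ≤ Q := hg.2.2.2.2.1
        have hV2 : V g k (pos p.2 k) L ≤ Q := hg.2.2.2.2.2
        have w1' : wt g h 0 0 n p.1 ≤ Real.exp (2 * Q) * wt g h 0 0 n (repl k L p.1 a) :=
          w1.trans (mul_le_mul_of_nonneg_right (Real.exp_le_exp.2 (by linarith))
            (wt_pos _ _ _ _ _ _).le)
        have w2' : wt g h 0 0 n p.2 ≤ Real.exp (2 * Q) * wt g h 0 0 n (repl k L p.2 b) :=
          w2.trans (mul_le_mul_of_nonneg_right (Real.exp_le_exp.2 (by linarith))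
            (wt_pos _ _ _ _ _ _).le)
        have hexp : Real.exp (4 * Q) = Real.exp (2 * Q) * Real.exp (2 * Q) := by
          rw [← Real.exp_add]
          ring_nf
        calc wt g h 0 0 n p.1 * wt g h 0 0 n p.2 * G p.1 p.2
            ≤ (Real.exp (2 * Q) * wt g h 0 0 n (repl k L p.1 a)) *
              (Real.exp (2 * Q) * wt g h 0 0 n (repl k L p.2 b)) * G p.1 p.2 := by
              refine mul_le_mul_of_nonneg_right ?_ (hG _ _)
              exact mul_le_mul w1' w2' (wt_pos _ _ _ _ _ _).le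
                (mul_nonneg (Real.exp_pos _).le (wt_pos _ _ _ _ _ _).le)
          _ = _ := by
              rw [hexp]
              ring
      · exact (repl_repl k L p.1 a).symm
      · exact (repl_repl k L p.2 b).symm
    · exact ⟨p, fun h => absurd h hp⟩
  choose Φ hΦ using hmeet
  -- the left side
  have hleft : ∑ p ∈ T n ×ˢ T n, wt g h 0 0 n p.1 * wt g h 0 0 n p.2 *
      (G p.1 p.2 * ind (good g Q ρ w L k p.1 p.2)) =
      ∑ p ∈ A, wt g h 0 0 n p.1 * wt g h 0 0 n p.2 * G p.1 p.2 := by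
    rw [hA, Finset.sum_filter]
    refine Finset.sum_congr rfl fun p _ => ?_
    by_cases hg : good g Q ρ w L k p.1 p.2
    · rw [if_pos hg, ind_true hg, mul_one]
    · rw [if_neg hg, ind_false hg, mul_zero, mul_zero]
  rw [hleft]
  have h1 : ∑ p ∈ A, wt g h 0 0 n p.1 * wt g h 0 0 n p.2 * G p.1 p.2 ≤
      ∑ p ∈ A, Real.exp (4 * Q) * F (Φ p) := Finset.sum_le_sum fun p hp => (hΦ p hp).2.1
  have h2 : ∑ p ∈ A, F (Φ p) ≤ ∑ y ∈ (T n ×ˢ T n) ×ˢ (T L ×ˢ T L), F y.1 := by
    have hinj : Set.InjOn (fun p : (ℕ → Bool) × (ℕ → Bool) =>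
        (Φ p, (cut L (shf k p.1), cut L (shf k p.2)))) A := by
      intro p hp p' hp' heq
      simp only [Prod.mk.injEq] at heq
      obtain ⟨e1, e2, e3⟩ := heq
      have h3 := (hΦ p hp).2.2
      have h4 := (hΦ p' hp').2.2
      rw [e1, e2, e3] at h3
      exact Prod.ext (h3.1.trans h4.1.symm) (h3.2.trans h4.2.symm)
    have h3 : ∑ p ∈ A, F (Φ p) = ∑ y ∈ A.image (fun p : (ℕ → Bool) × (ℕ → Bool) =>
        (Φ p, (cut L (shf k p.1), cut L (shf k p.2)))), F y.1 := by
      rw [Finset.sum_image hinj]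
    rw [h3]
    refine Finset.sum_le_sum_of_subset_of_nonneg ?_ fun y _ _ => hF0 _
    intro y hy
    obtain ⟨p, hp, rfl⟩ := Finset.mem_image.1 hy
    exact Finset.mem_product.2 ⟨(hΦ p hp).1, Finset.mem_product.2 ⟨cut_mem _ _, cut_mem _ _⟩⟩
  have h3 : ∑ y ∈ (T n ×ˢ T n) ×ˢ (T L ×ˢ T L), F y.1 = 4 ^ L * ∑ p ∈ T n ×ˢ T n, F p := by
    rw [Finset.sum_product, Finset.mul_sum]
    refine Finset.sum_congr rfl fun p _ => ?_
    show ∑ _y ∈ T L ×ˢ T L, F p = 4 ^ L * F p
    rw [Finset.sum_const, Finset.card_product, card_T, nsmul_eq_mul]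
    congr 1
    push_cast
    rw [← mul_pow]
    norm_num
  rw [← Finset.mul_sum] at h1
  have h4 : ∑ p ∈ A, wt g h 0 0 n p.1 * wt g h 0 0 n p.2 * G p.1 p.2 ≤
      Real.exp (4 * Q) * (4 ^ L * ∑ p ∈ T n ×ˢ T n, F p) :=
    h1.trans (mul_le_mul_of_nonneg_left (h2.trans (le_of_eq h3)) (Real.exp_pos _).le)
  have hc : cmeet Q L * (Real.exp (4 * Q) * 4 ^ L) = 1 := by
    unfold cmeet
    rw [div_mul_eq_mul_div, ← mul_assoc, ← Real.exp_add, neg_add_cancel, Real.exp_zero, one_mul,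
      div_self (by positivity)]
  calc cmeet Q L * ∑ p ∈ A, wt g h 0 0 n p.1 * wt g h 0 0 n p.2 * G p.1 p.2
      ≤ cmeet Q L * (Real.exp (4 * Q) * (4 ^ L * ∑ p ∈ T n ×ˢ T n, F p)) :=
        mul_le_mul_of_nonneg_left h4 (cmeet_pos Q L).le
    _ = (cmeet Q L * (Real.exp (4 * Q) * 4 ^ L)) * ∑ p ∈ T n ×ˢ T n, F p := by ring
    _ = ∑ p ∈ T n ×ˢ T n, F p := by rw [hc, one_mul]

/-- Counting. For every set `Mt` of times the number of `k < N` such that there is no time of `Mt` in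
`[k - R, k)` but one in `[k, k + L]` is at most `(L+1) ((N + L)/R + 1)`. Proof. For such `k` let `m(k)` be
the smallest element of `Mt` that is `≥ k`; then `k ∈ [m - L, m]` and there is no element of `Mt` in
`[m - R, m)`. Two different values `m' < m` satisfy `m - m' > R`, and `m < N + L`. So there are at
most `(N+L)/R + 1` values of `m`, each from at most `L + 1` values of `k`. -/
lemma count_isolated (Mt : ℕ → Prop) {R L : ℕ} (hR : 1 ≤ R) (N : ℕ) :
    ∑ k ∈ range N, ind ((∀ i, k ≤ i + R → i < k → ¬ Mt i) ∧ ∃ i, k ≤ i ∧ i ≤ k + L ∧ Mt i) ≤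
      ((L : ℝ) + 1) * (((N : ℝ) + L) / R + 1) := by
  classical
  set P : ℕ → Prop := fun k => (∀ i, k ≤ i + R → i < k → ¬ Mt i) ∧
    ∃ i, k ≤ i ∧ i ≤ k + L ∧ Mt i with hP
  set M0 := (range (N + L)).filter (fun m => Mt m ∧ ∀ i, i < m → m ≤ i + R → ¬ Mt i) with hM0
  have hcard0 : M0.card ≤ (N + L) / R + 1 := by
    have h1 : M0.card ≤ (range ((N + L) / R + 1)).card := by
      refine Finset.card_le_card_of_injOn (fun m => m / R) ?_ ?_
      · intro m hm
        have h2 := Finset.mem_range.1 (Finset.mem_filter.1 hm).1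
        have h3 : m / R ≤ (N + L) / R := Nat.div_le_div_right h2.le
        simp only [Finset.coe_range, Set.mem_Iio]
        omega
      · have key : ∀ m ∈ M0, ∀ m' ∈ M0, m' < m → m / R ≠ m' / R := by
          intro m hm m' hm' hlt heq
          have h2 := (Finset.mem_filter.1 hm).2.2 m' hlt
          have h3 := (Finset.mem_filter.1 hm').2.1
          have h4 : ¬ m ≤ m' + R := fun h => h2 h h3
          have h5 := Nat.div_add_mod m R
          have h6 := Nat.div_add_mod m' R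
          have h7 := Nat.mod_lt m (show 0 < R by omega)
          rw [heq] at h5
          omega
        intro m hm m' hm' heq
        by_contra hne
        rcases Nat.lt_or_gt_of_ne hne with h | h
        · exact key m' hm' m hm h heq.symm
        · exact key m hm m' hm' h heq
    rwa [Finset.card_range] at h1
  have hsub : (range N).filter P ⊆ M0.biUnion (fun m => Finset.Icc (m - L) m) := by
    intro k hk
    obtain ⟨hkN, h1, h2⟩ := Finset.mem_filter.1 hk
    have hkN := Finset.mem_range.1 hkN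
    have hex : ∃ i, k ≤ i ∧ Mt i := by
      obtain ⟨i, hi1, _, hi3⟩ := h2
      exact ⟨i, hi1, hi3⟩
    set m := Nat.find hex with hm
    obtain ⟨m1, m2⟩ := Nat.find_spec hex
    have m3 : m ≤ k + L := by
      obtain ⟨i, hi1, hi2, hi3⟩ := h2
      exact (Nat.find_min' hex ⟨hi1, hi3⟩).trans hi2
    rw [Finset.mem_biUnion]
    refine ⟨m, Finset.mem_filter.2 ⟨Finset.mem_range.2 (by omega), m2, ?_⟩, ?_⟩
    · intro i hi1 hi2 hi3
      by_cases hik : i < k
      · exact h1 i (by omega) hik hi3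
      · exact Nat.find_min hex hi1 ⟨not_lt.1 hik, hi3⟩
    · rw [Finset.mem_Icc]
      constructor
      · omega
      · exact m1
  have hcard : ((range N).filter P).card ≤ M0.card * (L + 1) := by
    refine (Finset.card_le_card hsub).trans ?_
    refine Finset.card_biUnion_le_card_mul _ _ _ fun m _ => ?_
    rw [Nat.card_Icc]
    omega
  have hsum : ∑ k ∈ range N, ind (P k) = (((range N).filter P).card : ℝ) := by
    rw [Finset.card_filter]
    push_cast
    refine Finset.sum_congr rfl fun k _ => ?_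
    by_cases hk : P k
    · rw [ind_true hk, if_pos hk]
    · rw [ind_false hk, if_neg hk]
  rw [hsum]
  have hR' : (0 : ℝ) < R := by exact_mod_cast hR
  have h5 : (((N + L) / R : ℕ) : ℝ) ≤ ((N : ℝ) + L) / R := by
    have := Nat.cast_div_le (α := ℝ) (m := N + L) (n := R)
    push_cast at this
    exact this
  have h6 : (M0.card : ℝ) ≤ ((N : ℝ) + L) / R + 1 := by
    have h7 : (M0.card : ℝ) ≤ (((N + L) / R : ℕ) : ℝ) + 1 := by exact_mod_cast hcard0
    linarith
  have h8 : (((range N).filter P).card : ℝ) ≤ (M0.card : ℝ) * ((L : ℝ) + 1) := by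
    exact_mod_cast hcard
  calc (((range N).filter P).card : ℝ) ≤ (M0.card : ℝ) * ((L : ℝ) + 1) := h8
    _ ≤ (((N : ℝ) + L) / R + 1) * ((L : ℝ) + 1) :=
      mul_le_mul_of_nonneg_right h6 (by positivity)
    _ = _ := mul_comm _ _

/-- Proof. For each `k < N` (`N + L ≤ n + 1`) apply `block_meet` with
`G s r = ind (∀ i, k ≤ i + R → i < k → pos s i ≠ pos r i)` (depends on the times `< k` only), and sum
over `k`: `count_isolated` with `Mt i ↔ pos s i = pos r i`, pointwise in `(s, r)`. -/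
theorem meet_sum (g : Env) (h : ℝ) {Q ρ : ℝ} {w L n N R : ℕ} (hρ0 : 0 ≤ ρ) (hR : 1 ≤ R)
    (hL : 4 * (w : ℝ) + 3 ≤ (1 - ρ) * L / 2) (hN : N + L ≤ n + 1) :
    ∑ k ∈ range N, Av2 g h n (fun s r => ind (∀ i, k ≤ i + R → i < k → pos s i ≠ pos r i)) ≤
      ∑ k ∈ range N, Av2 g h n (fun s r => ind (¬ good g Q ρ w L k s r)) +
        (cmeet Q L)⁻¹ * (((L : ℝ) + 1) * (((N : ℝ) + L) / R + 1)) := by
  set G : ℕ → (ℕ → Bool) → (ℕ → Bool) → ℝ := fun k s r =>
    ind (∀ i, k ≤ i + R → i < k → pos s i ≠ pos r i) with hG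
  have hG0 : ∀ k s r, 0 ≤ G k s r := fun k s r => ind_nonneg _
  set Me : ℕ → (ℕ → Bool) → (ℕ → Bool) → ℝ := fun k s r =>
    ind (∃ i, k ≤ i ∧ i ≤ k + L ∧ pos s i = pos r i) with hMe
  have hstep : ∀ k ∈ range N, Av2 g h n (G k) ≤
      Av2 g h n (fun s r => ind (¬ good g Q ρ w L k s r)) +
        (cmeet Q L)⁻¹ * Av2 g h n (fun s r => G k s r * Me k s r) := by
    intro k hk
    have hk' := Finset.mem_range.1 hk
    have h1 := block_meet g h (Q := Q) hρ0 hL (k := k) (n := n) (by omega) (G := G k) (hG0 k)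
      (by
        intro s r a _
        refine ind_congr ⟨fun hh i hi1 hi2 => ?_, fun hh i hi1 hi2 => ?_⟩
        · have := hh i hi1 hi2
          rwa [pos_repl_le hi2.le] at this
        · rw [pos_repl_le hi2.le]
          exact hh i hi1 hi2)
      (by
        intro s r a _
        refine ind_congr ⟨fun hh i hi1 hi2 => ?_, fun hh i hi1 hi2 => ?_⟩
        · have := hh i hi1 hi2
          rwa [pos_repl_le hi2.le] at this
        · rw [pos_repl_le hi2.le]
          exact hh i hi1 hi2)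
    have h2 : Av2 g h n (fun s r => G k s r * ind (good g Q ρ w L k s r)) ≤
        (cmeet Q L)⁻¹ * Av2 g h n (fun s r => G k s r * Me k s r) := by
      rw [le_inv_mul_iff₀ (cmeet_pos Q L)]
      refine h1.trans (Chain_mono fun s r => ?_)
      refine mul_le_mul_of_nonneg_right ?_ (ind_nonneg _)
      exact mul_le_of_le_one_right (hG0 k s r) (ind_le_one _)
    have h3 : Av2 g h n (G k) ≤ Av2 g h n (fun s r => ind (¬ good g Q ρ w L k s r) +
        G k s r * ind (good g Q ρ w L k s r)) := by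
      refine Chain_mono fun s r => ?_
      by_cases hg : good g Q ρ w L k s r
      · rw [ind_true hg, ind_false (not_not.2 hg), mul_one, zero_add]
      · rw [ind_false hg, ind_true hg, mul_zero, add_zero]
        exact ind_le_one _
    rw [Chain_add] at h3
    linarith
  refine (Finset.sum_le_sum hstep).trans ?_
  rw [Finset.sum_add_distrib, ← Finset.mul_sum]
  have h6 : ∑ k ∈ range N, Av2 g h n (fun s r => G k s r * Me k s r) =
      Av2 g h n (fun s r => ∑ k ∈ range N, G k s r * Me k s r) := (Chain_sum _ _).symm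
  rw [h6]
  have h4 : Av2 g h n (fun s r => ∑ k ∈ range N, G k s r * Me k s r) ≤
      ((L : ℝ) + 1) * (((N : ℝ) + L) / R + 1) := by
    rw [← Chain_const (g := g) (h := h) (n := n) (((L : ℝ) + 1) * (((N : ℝ) + L) / R + 1))]
    refine Chain_mono fun s r => ?_
    have h5 := count_isolated (fun i => pos s i = pos r i) (L := L) hR N
    refine le_trans (le_of_eq ?_) h5
    refine Finset.sum_congr rfl fun k _ => ?_
    rw [ind_and]
  have h5 : 0 ≤ (cmeet Q L)⁻¹ := (inv_pos.2 (cmeet_pos Q L)).le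
  linarith [mul_le_mul_of_nonneg_left h4 h5]

end

end Pool.Agent.W_7d29a1_h47
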