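import Pool.Agent.W_7d29a1_h47.SiteN
import Pool.Agent.W_7d29a1_h47.SiteG

/-!
# One-site tools: the response inequality (K)
-/

namespace Pool.Agent.W_7d29a1_h47

open MeasureTheory ProbabilityTheory Finset

noncomputable section

variable {μ : Measure ℝ} [IsProbabilityMeasure μ]

/-- Auxiliary: the weight after changing one site. -/
lemma SiteK_wt (g : Env) (h : ℝ) (p : ℕ × ℤ) (u : ℝ) (n : ℕ) (s : ℕ → Bool) :
    wt (Function.update g p u) h 0 0 n s =
      wt (Function.update g p 0) h 0 0 n s * (1 - vis p n s + vis p n s * Real.exp u) := by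
  unfold wt
  rw [En_update g p u n s, En_update g p 0 n s]
  by_cases hv : p.1 < n ∧ pos s (p.1 + 1) = p.2
  · have h1 : vis p n s = 1 := ind_true hv
    rw [h1, sub_self, zero_add, one_mul, ← Real.exp_add]
    congr 1
    ring
  · have h1 : vis p n s = 0 := ind_false hv
    rw [h1]
    simp

lemma SiteK_sum (g : Env) (h : ℝ) (p : ℕ × ℤ) (u : ℝ) (n : ℕ) (F : (ℕ → Bool) → ℝ) :
    ∑ s ∈ T n, wt (Function.update g p u) h 0 0 n s * F s =
      (∑ s ∈ T n, wt (Function.update g p 0) h 0 0 n s * ((1 - vis p n s) * F s)) +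
      (∑ s ∈ T n, wt (Function.update g p 0) h 0 0 n s * (vis p n s * F s)) * Real.exp u := by
  rw [Finset.sum_mul, ← Finset.sum_add_distrib]
  refine Finset.sum_congr rfl fun s _ => ?_
  rw [SiteK_wt g h p u n s]
  ring

lemma SiteK_vis_mul (p : ℕ × ℤ) (n : ℕ) (s : ℕ → Bool) : vis p n s * vis p n s = vis p n s := by
  by_cases hv : p.1 < n ∧ pos s (p.1 + 1) = p.2
  · have h1 : vis p n s = 1 := ind_true hv
    rw [h1, mul_one]
  · have h1 : vis p n s = 0 := ind_false hv
    rw [h1, mul_zero]

lemma SiteK_vis_nonneg (p : ℕ × ℤ) (n : ℕ) (s : ℕ → Bool) : 0 ≤ vis p n s := ind_nonneg _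

lemma SiteK_vis_le (p : ℕ × ℤ) (n : ℕ) (s : ℕ → Bool) : vis p n s ≤ 1 := ind_le_one _

/-- Auxiliary: the pointwise inequality in terms of Gibbs averages. -/
lemma SiteK_point {p q : ℝ} (hpq : p < q) (g : Env) (h : ℝ) (z : ℕ × ℤ) (n : ℕ)
    (A : (ℕ → Bool) → Prop) (u u' : ℝ) :
    |phi p q u - phi p q u'| * (1 - Real.exp (-|u - u'|)) *
        ((Av (Function.update g z u) h 0 0 n fun s => vis z n s) *
          (Av (Function.update g z u) h 0 0 n fun s => ind (¬ A s))) -
      Real.exp |u - u'| * (Av (Function.update g z u) h 0 0 n fun s => vis z n s * ind (¬ A s)) ≤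
    (phi p q u - phi p q u') * ((Av (Function.update g z u) h 0 0 n fun s => ind (A s)) -
      (Av (Function.update g z u') h 0 0 n fun s => ind (A s))) := by
  set w : (ℕ → Bool) → ℝ := fun s => wt (Function.update g z 0) h 0 0 n s with hw
  have hw0 : ∀ s, 0 < w s := fun s => wt_pos _ _ _ _ _ _
  set α : ℝ := ∑ s ∈ T n, w s * ((1 - vis z n s) * ind (A s)) with hα
  set β : ℝ := ∑ s ∈ T n, w s * (vis z n s * ind (A s)) with hβ
  set γ : ℝ := ∑ s ∈ T n, w s * (1 - vis z n s) with hγ
  set ε : ℝ := ∑ s ∈ T n, w s * vis z n s with hε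
  have hα0 : 0 ≤ α := Finset.sum_nonneg fun s _ => mul_nonneg (hw0 s).le
    (mul_nonneg (by linarith [SiteK_vis_le z n s]) (ind_nonneg _))
  have hβ0 : 0 ≤ β := Finset.sum_nonneg fun s _ => mul_nonneg (hw0 s).le
    (mul_nonneg (SiteK_vis_nonneg z n s) (ind_nonneg _))
  have hαγ : α ≤ γ := Finset.sum_le_sum fun s _ => mul_le_mul_of_nonneg_left
    (mul_le_of_le_one_right (by linarith [SiteK_vis_le z n s]) (ind_le_one _)) (hw0 s).le
  have hβε : β ≤ ε := Finset.sum_le_sum fun s _ => mul_le_mul_of_nonneg_left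
    (mul_le_of_le_one_right (SiteK_vis_nonneg z n s) (ind_le_one _)) (hw0 s).le
  have hpos : 0 < γ + ε := by
    have : γ + ε = ∑ s ∈ T n, w s := by
      rw [hγ, hε, ← Finset.sum_add_distrib]
      refine Finset.sum_congr rfl fun s _ => by ring
    rw [this]
    exact Finset.sum_pos (fun s _ => hw0 s) (T_nonempty n)
  have hZ : ∀ v : ℝ, Z (Function.update g z v) h 0 0 n = γ + ε * Real.exp v := by
    intro v
    have := SiteK_sum g h z v n (fun _ => 1)
    simp only [mul_one] at this
    exact this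
  have hP : ∀ v : ℝ, (Av (Function.update g z v) h 0 0 n fun s => ind (A s)) =
      (α + β * Real.exp v) / (γ + ε * Real.exp v) := by
    intro v
    unfold Av
    rw [hZ, SiteK_sum g h z v n (fun s => ind (A s))]
  have hR : ∀ v : ℝ, (Av (Function.update g z v) h 0 0 n fun s => vis z n s) =
      ε * Real.exp v / (γ + ε * Real.exp v) := by
    intro v
    unfold Av
    rw [hZ, SiteK_sum g h z v n (fun s => vis z n s)]
    congr 1
    have h1 : ∑ s ∈ T n, wt (Function.update g z 0) h 0 0 n s * ((1 - vis z n s) * vis z n s) = 0 :=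
      Finset.sum_eq_zero fun s _ => by
        have := SiteK_vis_mul z n s
        have h2 : (1 - vis z n s) * vis z n s = 0 := by linear_combination -this
        rw [h2, mul_zero]
    rw [h1, zero_add]
    congr 1
    refine Finset.sum_congr rfl fun s _ => ?_
    rw [SiteK_vis_mul]
  have hN : ∀ v : ℝ, (Av (Function.update g z v) h 0 0 n fun s => ind (¬ A s)) =
      1 - (α + β * Real.exp v) / (γ + ε * Real.exp v) := by
    intro v
    rw [← hP v]
    have : (fun s => ind (¬ A s)) = fun s => (1 : ℝ) - ind (A s) := by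
      funext s; exact ind_not _
    rw [this, Av_sub, Av_const]
  have hY : ∀ v : ℝ, (Av (Function.update g z v) h 0 0 n fun s => vis z n s * ind (¬ A s)) =
      (ε - β) * Real.exp v / (γ + ε * Real.exp v) := by
    intro v
    unfold Av
    rw [hZ, SiteK_sum g h z v n (fun s => vis z n s * ind (¬ A s))]
    congr 1
    have h1 : ∑ s ∈ T n, wt (Function.update g z 0) h 0 0 n s *
        ((1 - vis z n s) * (vis z n s * ind (¬ A s))) = 0 :=
      Finset.sum_eq_zero fun s _ => by
        have := SiteK_vis_mul z n s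
        have h2 : (1 - vis z n s) * (vis z n s * ind (¬ A s)) = 0 := by
          linear_combination -(ind (¬ A s)) * this
        rw [h2, mul_zero]
    rw [h1, zero_add]
    congr 1
    rw [hε, hβ, ← Finset.sum_sub_distrib]
    refine Finset.sum_congr rfl fun s _ => ?_
    rw [ind_not]
    have := SiteK_vis_mul z n s
    simp only [hw]
    linear_combination (wt (Function.update g z 0) h 0 0 n s * (1 - ind (A s))) * this
  rw [hP, hP, hR, hN, hY]
  exact response_pointwise hpq hα0 hβ0 hαγ hβε hpos u u'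

lemma SiteK_phi_meas (p q : ℝ) : Measurable (phi p q) := by
  unfold phi
  fun_prop

lemma SiteK_phi_nonneg (p q u : ℝ) : 0 ≤ phi p q u := le_max_left _ _

lemma SiteK_phi_le (p q u : ℝ) : phi p q u ≤ 1 := max_le zero_le_one (min_le_left _ _)

lemma SiteK_phi_abs (p q u : ℝ) : |phi p q u| ≤ 1 := by
  rw [abs_of_nonneg (SiteK_phi_nonneg p q u)]
  exact SiteK_phi_le p q u

omit [IsProbabilityMeasure μ] in
lemma SiteK_int4 {F1 F2 F3 F4 : ℝ → ℝ} (i1 : Integrable F1 μ) (i2 : Integrable F2 μ)
    (i3 : Integrable F3 μ) (i4 : Integrable F4 μ) :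
    ∫ u, (F1 u - F2 u - F3 u + F4 u) ∂μ =
      (∫ u, F1 u ∂μ) - (∫ u, F2 u ∂μ) - (∫ u, F3 u ∂μ) + ∫ u, F4 u ∂μ := by
  have a1 : Integrable (fun u => F1 u - F2 u) μ := i1.sub i2
  have a2 : Integrable (fun u => F1 u - F2 u - F3 u) μ := a1.sub i3
  rw [integral_add a2 i4, integral_sub a1 i3, integral_sub i1 i2]

/-- Auxiliary: integration over the value of the site. -/
lemma SiteK_site (hμ : EM μ) {p q : ℝ} (hpq : p < q) {P X Y : ℝ → ℝ} (hP : Measurable P)
    (hX : Measurable X) (hY : Measurable Y) (hPb : ∀ u, |P u| ≤ 1) (hX0 : ∀ u, 0 ≤ X u)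
    (hX1 : ∀ u, X u ≤ 1) (hY0 : ∀ u, 0 ≤ Y u) (hY1 : ∀ u, Y u ≤ 1)
    (H : ∀ u u', |phi p q u - phi p q u'| * (1 - Real.exp (-|u - u'|)) * X u -
      Real.exp |u - u'| * Y u ≤ (phi p q u - phi p q u') * (P u - P u')) :
    kmin μ p q * ∫ u, X u ∂μ - Mom μ 1 * ∫ u, Real.exp |u| * Y u ∂μ ≤
      ∫ u, (phi p q u - ∫ v, phi p q v ∂μ) * P u ∂μ := by
  have hphim := SiteK_phi_meas p q
  have bdd : ∀ {F : ℝ → ℝ} {c : ℝ}, Measurable F → (∀ u, |F u| ≤ c) → Integrable F μ := by
    intro F c hF hc
    exact Integrable.of_bound hF.aestronglyMeasurable c (Filter.Eventually.of_forall fun u => by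
      rw [Real.norm_eq_abs]; exact hc u)
  have iphi : Integrable (phi p q) μ := bdd hphim (SiteK_phi_abs p q)
  have iP : Integrable P μ := bdd hP hPb
  have iX : Integrable X μ := bdd (c := 1) hX fun u => by rw [abs_of_nonneg (hX0 u)]; exact hX1 u
  have iphiP : Integrable (fun u => phi p q u * P u) μ := by
    refine bdd (c := 1) (hphim.mul hP) fun u => ?_
    rw [abs_mul]
    exact mul_le_one₀ (SiteK_phi_abs p q u) (abs_nonneg _) (hPb u)
  have iE : Integrable (fun u : ℝ => Real.exp |u|) μ := by
    have := hμ 1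
    simpa using this
  have iEY : Integrable (fun u : ℝ => Real.exp |u| * Y u) μ := by
    refine iE.mono' (by fun_prop) (Filter.Eventually.of_forall fun u => ?_)
    rw [Real.norm_eq_abs, abs_mul, abs_of_pos (Real.exp_pos _), abs_of_nonneg (hY0 u)]
    exact mul_le_of_le_one_right (Real.exp_pos _).le (hY1 u)
  have hMom : ∫ u : ℝ, Real.exp |u| ∂μ = Mom μ 1 := by
    unfold Mom
    simp
  set φb : ℝ := ∫ v, phi p q v ∂μ with hφb
  set Pb : ℝ := ∫ v, P v ∂μ with hPb'
  set J : ℝ := ∫ v, phi p q v * P v ∂μ with hJ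
  -- for fixed `u`
  have key : ∀ u, 2 * kmin μ p q * X u - Mom μ 1 * (Real.exp |u| * Y u) ≤
      phi p q u * P u - phi p q u * Pb - φb * P u + J := by
    intro u
    have iK : Integrable (fun u' => |phi p q u - phi p q u'| * (1 - Real.exp (-|u - u'|))) μ := by
      refine bdd (c := 1) (by fun_prop) fun u' => ?_
      have h1 : |phi p q u - phi p q u'| ≤ 1 := by
        rw [abs_le]
        constructor <;> linarith [SiteK_phi_nonneg p q u, SiteK_phi_nonneg p q u',
          SiteK_phi_le p q u, SiteK_phi_le p q u']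
      have h2 : Real.exp (-|u - u'|) ≤ 1 := Real.exp_le_one_iff.2 (by simp)
      have h3 := Real.exp_pos (-|u - u'|)
      rw [abs_mul, abs_abs, abs_of_nonneg (by linarith : (0:ℝ) ≤ 1 - Real.exp (-|u - u'|))]
      exact mul_le_one₀ h1 (by linarith) (by linarith)
    have iD : Integrable (fun u' : ℝ => Real.exp |u - u'|) μ := by
      refine (iE.const_mul (Real.exp |u|)).mono' (by fun_prop)
        (Filter.Eventually.of_forall fun u' => ?_)
      rw [Real.norm_eq_abs, abs_of_pos (Real.exp_pos _), ← Real.exp_add]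
      exact Real.exp_le_exp.2 (abs_sub u u')
    have hD : ∫ u' : ℝ, Real.exp |u - u'| ∂μ ≤ Real.exp |u| * Mom μ 1 := by
      rw [← hMom, ← integral_const_mul]
      refine integral_mono iD (iE.const_mul _) fun u' => ?_
      rw [← Real.exp_add]
      exact Real.exp_le_exp.2 (abs_sub u u')
    have hK := kmin_le (μ := μ) hpq u
    have h1 : ∫ u', (|phi p q u - phi p q u'| * (1 - Real.exp (-|u - u'|)) * X u -
        Real.exp |u - u'| * Y u) ∂μ ≤ ∫ u', (phi p q u - phi p q u') * (P u - P u') ∂μ := by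
      refine integral_mono ((iK.mul_const _).sub (iD.mul_const _)) ?_ (H u)
      have : (fun u' => (phi p q u - phi p q u') * (P u - P u')) =
          fun u' => phi p q u * P u - phi p q u * P u' - phi p q u' * P u + phi p q u' * P u' := by
        funext u'; ring
      rw [this]
      exact (((integrable_const _).sub (iP.const_mul _)).sub (iphi.mul_const _)).add iphiP
    have h2 : ∫ u', (phi p q u - phi p q u') * (P u - P u') ∂μ =
        phi p q u * P u - phi p q u * Pb - φb * P u + J := by
      have : (fun u' => (phi p q u - phi p q u') * (P u - P u')) =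
          fun u' => phi p q u * P u - phi p q u * P u' - phi p q u' * P u + phi p q u' * P u' := by
        funext u'; ring
      rw [this, SiteK_int4 (integrable_const (phi p q u * P u)) (iP.const_mul (phi p q u))
        (iphi.mul_const (P u)) iphiP, integral_const_mul (phi p q u) P,
        integral_mul_const (P u) (phi p q), integral_const]
      simp [hφb, hPb', hJ]
    have h3 : ∫ u', (|phi p q u - phi p q u'| * (1 - Real.exp (-|u - u'|)) * X u -
        Real.exp |u - u'| * Y u) ∂μ =
        (∫ u', |phi p q u - phi p q u'| * (1 - Real.exp (-|u - u'|)) ∂μ) * X u -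
          (∫ u', Real.exp |u - u'| ∂μ) * Y u := by
      rw [integral_sub (iK.mul_const _) (iD.mul_const _), integral_mul_const, integral_mul_const]
    rw [h3, h2] at h1
    have h4 := mul_le_mul_of_nonneg_right hK (hX0 u)
    have h5 := mul_le_mul_of_nonneg_right hD (hY0 u)
    nlinarith [h1, h4, h5]
  have hint := integral_mono (μ := μ) (((iX.const_mul (2 * kmin μ p q)).sub
    (iEY.const_mul (Mom μ 1))))
    (((iphiP.sub (iphi.mul_const Pb)).sub (iP.const_mul φb)).add (integrable_const J)) key
  have e1 : ∫ u, (2 * kmin μ p q * X u - Mom μ 1 * (Real.exp |u| * Y u)) ∂μ =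
      2 * kmin μ p q * (∫ u, X u ∂μ) - Mom μ 1 * ∫ u, Real.exp |u| * Y u ∂μ := by
    rw [integral_sub (iX.const_mul _) (iEY.const_mul _), integral_const_mul, integral_const_mul]
  have e2 : ∫ u, (phi p q u * P u - phi p q u * Pb - φb * P u + J) ∂μ =
      J - φb * Pb - φb * Pb + J := by
    rw [SiteK_int4 iphiP (iphi.mul_const Pb) (iP.const_mul φb) (integrable_const J),
      integral_const_mul, integral_mul_const, integral_const]
    simp [hJ, hφb, hPb']
  have e3 : ∫ u, (phi p q u - φb) * P u ∂μ = J - φb * Pb := by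
    have : (fun u => (phi p q u - φb) * P u) = fun u => phi p q u * P u - φb * P u := by
      funext u; ring
    rw [this, integral_sub iphiP (iP.const_mul φb), integral_const_mul]
  have h6 : 2 * kmin μ p q * (∫ u, X u ∂μ) - Mom μ 1 * ∫ u, Real.exp |u| * Y u ∂μ ≤
      J - φb * Pb - φb * Pb + J := by
    rw [← e1, ← e2]; exact hint
  have h7 : 0 ≤ ∫ u, Real.exp |u| * Y u ∂μ :=
    integral_nonneg fun u => mul_nonneg (Real.exp_pos _).le (hY0 u)
  have h8 : 0 ≤ Mom μ 1 := integral_nonneg fun u => (Real.exp_pos _).le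
  rw [e3]
  nlinarith [mul_nonneg h8 h7]

/-- **(K)** Response inequality. `φ = phi p q`, `i < n`, `A` any set of walks.
Proof. Put `y`-site `s₀ = (i, y)`. Fix all other sites; as a function of the value `u` of the site,
`Av (ind A) = (α + β e^u)/(γ + ε e^u)` with `α = ∑_{s ∈ T n, A, vis = 0} wt`, … evaluated in the
environment `update g s₀ 0`. By `integral_update` and Fubini, for every function `f(g, u)`:
`∫∫ φ(u) P u dμ(u) - (∫φ)(∫ P u) = (1/2) ∫∫ (φ u - φ u')(P u - P u') dμ dμ`, and `response_pointwise`,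
`kmin_le`, `∫ e^{|u-u'|} dμ(u') ≤ e^{|u|} Mom μ 1`. Note `∫ (φ(g s₀) - ∫φ) Av` is the left side.
(`EA`-form: `∫ Av(vis) Av(¬A)` and `∫ e^{|g s₀|} Av (vis ∧ ¬ A)`.) -/
theorem response (hμ : EM μ) {p q : ℝ} (hpq : p < q) (h : ℝ) {n i : ℕ} (hi : i < n) (y : ℤ)
    (A : (ℕ → Bool) → Prop) :
    kmin μ p q * ∫ g : Env, (Av g h 0 0 n fun s => ind (pos s (i + 1) = y)) *
          (Av g h 0 0 n fun s => ind (¬ A s)) ∂(law μ) -
        Mom μ 1 * ∫ g : Env, Real.exp |g (i, y)| *
          (Av g h 0 0 n fun s => ind (pos s (i + 1) = y ∧ ¬ A s)) ∂(law μ) ≤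
      ∫ g : Env, (phi p q (g (i, y)) - ∫ u, phi p q u ∂μ) * (Av g h 0 0 n fun s => ind (A s))
        ∂(law μ) := by
  classical
  set z : ℕ × ℤ := (i, y) with hz
  set c : ℝ := ∫ u, phi p q u ∂μ with hc
  have hvis : ∀ s, ind (pos s (i + 1) = y) = vis z n s := by
    intro s
    refine ind_congr ⟨fun h => ⟨hi, h⟩, fun h => h.2⟩
  have hvisA : ∀ s, ind (pos s (i + 1) = y ∧ ¬ A s) = vis z n s * ind (¬ A s) := by
    intro s
    rw [ind_and, hvis]
  simp only [hvis, hvisA]
  -- the three functions
  have mAv : ∀ F : (ℕ → Bool) → ℝ, Measurable (fun g : Env => Av g h 0 0 n F) := fun F =>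
    measurable_Av fun s _ => measurable_const
  have mcoord : Measurable (fun g : Env => g z) := measurable_pi_apply z
  have hphim := SiteK_phi_meas p q
  have v1 : ∀ g : Env, |Av g h 0 0 n fun s => vis z n s| ≤ 1 := fun g =>
    Av_abs_le fun s _ => by rw [abs_of_nonneg (SiteK_vis_nonneg z n s)]; exact SiteK_vis_le z n s
  have n1 : ∀ g : Env, |Av g h 0 0 n fun s => ind (¬ A s)| ≤ 1 := fun g =>
    Av_abs_le fun s _ => ind_abs _
  have a1 : ∀ g : Env, |Av g h 0 0 n fun s => ind (A s)| ≤ 1 := fun g =>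
    Av_abs_le fun s _ => ind_abs _
  have y0 : ∀ g : Env, 0 ≤ Av g h 0 0 n fun s => vis z n s * ind (¬ A s) := fun g =>
    Av_nonneg fun s _ => mul_nonneg (SiteK_vis_nonneg z n s) (ind_nonneg _)
  have y1 : ∀ g : Env, (Av g h 0 0 n fun s => vis z n s * ind (¬ A s)) ≤ 1 := fun g =>
    Av_le fun s _ => mul_le_one₀ (SiteK_vis_le z n s) (ind_nonneg _) (ind_le_one _)
  have v0 : ∀ g : Env, 0 ≤ Av g h 0 0 n fun s => vis z n s := fun g =>
    Av_nonneg fun s _ => SiteK_vis_nonneg z n s
  have n0 : ∀ g : Env, 0 ≤ Av g h 0 0 n fun s => ind (¬ A s) := fun g =>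
    Av_nonneg fun s _ => ind_nonneg _
  have I1 : Integrable (fun g : Env => (Av g h 0 0 n fun s => vis z n s) *
      (Av g h 0 0 n fun s => ind (¬ A s))) (law μ) := by
    refine (PMom.of_bounded (c := 1) ((mAv _).mul (mAv _)) fun g => ?_).integrable
    simp only [Pi.mul_apply]
    rw [abs_mul]
    exact mul_le_one₀ (v1 g) (abs_nonneg _) (n1 g)
  have I2 : Integrable (fun g : Env => Real.exp |g z| *
      (Av g h 0 0 n fun s => vis z n s * ind (¬ A s))) (law μ) := by
    refine (PMom.mul ?_ ?_).integrable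
    · exact ((EMom_coord hμ z).abs).exp'
    · refine PMom.of_bounded (c := 1) (mAv _) fun g => ?_
      rw [abs_of_nonneg (y0 g)]
      exact y1 g
  have I3 : Integrable (fun g : Env => (phi p q (g z) - c) *
      (Av g h 0 0 n fun s => ind (A s))) (law μ) := by
    refine (PMom.mul (PMom.sub ?_ (PMom.const c)) ?_).integrable
    · exact PMom.of_bounded (c := 1) (hphim.comp mcoord) fun g => SiteK_phi_abs p q _
    · exact PMom.of_bounded (c := 1) (mAv _) a1
  have hup : ∀ (g : Env), Measurable fun u : ℝ => (Function.update g z u : Env) := by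
    intro g
    refine measurable_pi_iff.2 fun r => ?_
    by_cases hr : r = z
    · subst hr
      simp only [Function.update_self]
      exact measurable_id
    · simp only [Function.update_of_ne hr]
      exact measurable_const
  -- integrability after conditioning
  have J : ∀ {F : Env → ℝ}, Integrable F (law μ) →
      Integrable (fun g => ∫ u, F (Function.update g z u) ∂μ) (law μ) := by
    intro F hF
    have h2 : Integrable (fun w : Env × ℝ => F (Function.update w.1 z w.2)) ((law μ).prod μ) :=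
      (mp_update (μ := μ) z).integrable_comp_of_integrable hF
    exact h2.integral_prod_left
  rw [integral_update z I1, integral_update z I2, integral_update z I3]
  simp only [Function.update_self]
  rw [← integral_const_mul, ← integral_const_mul, ← integral_sub ((J I1).const_mul _)]
  · refine integral_mono (((J I1).const_mul _).sub ?_) ?_ fun g => ?_
    · have := (J I2).const_mul (Mom μ 1)
      simpa only [Function.update_self] using this
    · have := J I3
      simpa only [Function.update_self] using this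
    · refine SiteK_site hμ hpq (P := fun u => Av (Function.update g z u) h 0 0 n fun s => ind (A s))
        (X := fun u => (Av (Function.update g z u) h 0 0 n fun s => vis z n s) *
          (Av (Function.update g z u) h 0 0 n fun s => ind (¬ A s)))
        (Y := fun u => Av (Function.update g z u) h 0 0 n fun s => vis z n s * ind (¬ A s))
        ((mAv _).comp (hup g)) (((mAv _).comp (hup g)).mul ((mAv _).comp (hup g)))
        ((mAv _).comp (hup g)) (fun u => a1 _) (fun u => mul_nonneg (v0 _) (n0 _))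
        (fun u => mul_le_one₀ ((le_abs_self _).trans (v1 _)) (n0 _) ((le_abs_self _).trans (n1 _)))
        (fun u => y0 _) (fun u => y1 _) fun u u' => SiteK_point hpq g h z n A u u'
  · have := (J I2).const_mul (Mom μ 1)
    simpa only [Function.update_self] using this

end

end Pool.Agent.W_7d29a1_h47
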