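import Pool.Agent.W_7d29a1_h47.Tube
import Pool.Agent.W_7d29a1_h47.SiteK

/-!
# Two replicas are close: the lower bound
-/

namespace Pool.Agent.W_7d29a1_h47

open MeasureTheory ProbabilityTheory Finset

noncomputable section

variable {μ : Measure ℝ} [IsProbabilityMeasure μ]

/-- A sum over a point of a finite set. -/
lemma CloseL_pick {R : Finset ℤ} {x : ℤ} (hx : x ∈ R) (F : ℤ → ℝ) :
    F x = ∑ y ∈ R, ind (x = y) * F y := by
  rw [Finset.sum_eq_single x]
  · rw [ind_true rfl, one_mul]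
  · intro y _ hy
    rw [ind_false (fun h => hy h.symm), zero_mul]
  · intro h
    exact absurd hx h

/-- The set of all relevant positions. -/
def CloseL_R (n T : ℕ) : Finset ℤ := Icc (-((n : ℤ) + 3 * T)) ((n : ℤ) + 3 * T)

lemma CloseL_mem (n T : ℕ) (s : ℕ → Bool) {j : ℕ} (hj : j ≤ n) : pos s j ∈ CloseL_R n T := by
  have h := abs_le.1 (pos_abs_le s j)
  unfold CloseL_R
  rw [Finset.mem_Icc]
  constructor <;> omega

/-- The tube sum as a sum over a fixed set of positions. -/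
lemma CloseL_tube (φ : ℝ → ℝ) {v : ℝ} (hv : |v| ≤ 1) {w T n k : ℕ} (hw : w ≤ T) (hk : k ≤ n)
    (g : Env) (s : ℕ → Bool) :
    tubeX φ v w g k (pos s k) T = ∑ i ∈ range T, ∑ y ∈ CloseL_R n T,
      ind (|(y : ℝ) - pos s k - v * (i + 1)| ≤ 2 * w) * φ (g (k + i, y)) := by
  unfold tubeX
  refine Finset.sum_congr rfl fun i hi => ?_
  have hiT : i < T := Finset.mem_range.1 hi
  have hpos := abs_le.1 (pos_abs_le s k)
  refine Finset.sum_subset ?_ ?_
  · intro y hy
    rw [Finset.mem_Icc] at hy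
    unfold CloseL_R
    rw [Finset.mem_Icc]
    constructor <;> omega
  · intro y _ hy
    rw [Finset.mem_Icc, not_and_or] at hy
    rw [ind_false, zero_mul]
    intro hle
    have h1 : |v * ((i : ℝ) + 1)| ≤ T := by
      rw [abs_mul, abs_of_nonneg (by positivity : (0 : ℝ) ≤ (i : ℝ) + 1)]
      have h2 : (i : ℝ) + 1 ≤ T := by exact_mod_cast hiT
      calc |v| * ((i : ℝ) + 1) ≤ 1 * ((i : ℝ) + 1) := by gcongr
        _ ≤ T := by linarith
    have h3 : (w : ℝ) ≤ T := by exact_mod_cast hw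
    rw [abs_le] at hle h1
    rcases hy with hy | hy
    · push Not at hy
      have h4 : (y : ℝ) < (pos s k : ℝ) - 3 * T := by exact_mod_cast hy
      linarith [hle.1, h1.1, h1.2]
    · push Not at hy
      have h4 : (pos s k : ℝ) + 3 * T < (y : ℝ) := by exact_mod_cast hy
      linarith [hle.2, h1.1, h1.2]

lemma CloseL_ind_PMom (h : ℝ) (n : ℕ) (A : (ℕ → Bool) → Prop) :
    PMom (law μ) (fun g : Env => Av g h 0 0 n fun s => ind (A s)) :=
  PMom_Av (F := fun _ s => ind (A s)) fun s _ => PMom.const _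

/-- The two replica term, sorted by the position of the first. -/
lemma CloseL_two (h v : ℝ) {w M n k i : ℕ} (hki : k + i + 1 ≤ n) :
    EA2 μ h n (fun _ s r => ind (2 * (w : ℝ) < |(pos s (k + i + 1) : ℝ) - pos r k - v * (i + 1)|)) =
      ∑ y ∈ CloseL_R n M, ∫ g : Env, (Av g h 0 0 n fun s => ind (pos s (k + i + 1) = y)) *
        (Av g h 0 0 n fun s => ind (¬ |(y : ℝ) - pos s k - v * (i + 1)| ≤ 2 * w)) ∂(law μ) := by
  rw [← integral_finsetSum]
  · unfold EA2 Av2
    congr 1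
    funext g
    have h1 : ∀ s ∈ T n, (Av g h 0 0 n fun r =>
        ind (2 * (w : ℝ) < |(pos s (k + i + 1) : ℝ) - pos r k - v * (i + 1)|)) =
        ∑ y ∈ CloseL_R n M, ind (pos s (k + i + 1) = y) *
          (Av g h 0 0 n fun s => ind (¬ |(y : ℝ) - pos s k - v * (i + 1)| ≤ 2 * w)) := by
      intro s _
      rw [← CloseL_pick (CloseL_mem n M s hki)
        (fun y => Av g h 0 0 n fun s => ind (¬ |(y : ℝ) - pos s k - v * (i + 1)| ≤ 2 * w))]
      exact Av_congr fun r _ => ind_congr not_le.symm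
    rw [Av_congr h1, Av_sum]
    refine Finset.sum_congr rfl fun y _ => ?_
    rw [Av_mul_right]
  · intro y _
    exact ((CloseL_ind_PMom h n _).mul (CloseL_ind_PMom h n _)).integrable

/-- The error term, sorted by the position. -/
lemma CloseL_err (hμ : EM μ) (h v : ℝ) {w M n k i : ℕ} (hki : k + i + 1 ≤ n) :
    EA μ h n (fun g s => Real.exp |g (k + i, pos s (k + i + 1))| *
        ind (2 * (w : ℝ) < |(pos s (k + i + 1) : ℝ) - pos s k - v * (i + 1)|)) =
      ∑ y ∈ CloseL_R n M, ∫ g : Env, Real.exp |g (k + i, y)| *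
          (Av g h 0 0 n fun s => ind (pos s (k + i + 1) = y ∧
            ¬ |(y : ℝ) - pos s k - v * (i + 1)| ≤ 2 * w)) ∂(law μ) := by
  rw [← integral_finsetSum]
  · unfold EA
    congr 1
    funext g
    have h1 : ∀ s ∈ T n, Real.exp |g (k + i, pos s (k + i + 1))| *
        ind (2 * (w : ℝ) < |(pos s (k + i + 1) : ℝ) - pos s k - v * (i + 1)|) =
        ∑ y ∈ CloseL_R n M, Real.exp |g (k + i, y)| * ind (pos s (k + i + 1) = y ∧
            ¬ |(y : ℝ) - pos s k - v * (i + 1)| ≤ 2 * w) := by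
      intro s _
      have h2 := CloseL_pick (CloseL_mem n M s hki)
        (fun y => Real.exp |g (k + i, y)| * ind (¬ |(y : ℝ) - pos s k - v * (i + 1)| ≤ 2 * w))
      rw [← ind_congr not_le]
      rw [h2]
      refine Finset.sum_congr rfl fun y _ => ?_
      rw [ind_and]
      ring
    rw [Av_congr h1, Av_sum]
    refine Finset.sum_congr rfl fun y _ => ?_
    rw [Av_mul_left]
  · intro y _
    exact (((EMom_coord hμ (k + i, y)).abs.exp').mul (CloseL_ind_PMom h n _)).integrable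

/-- The lower bound for the tube sum of one block. Proof. For fixed `i < T` let `R` be the integers
`|y| ≤ n + 3T`. Because `|v| ≤ 1` and `w ≤ T`, the indicator in `tubeX` vanishes for
`|y - x| > 3T`, so `tubeX φ v w g k x T = ∑_i ∑_{y ∈ R} ind (|y - x - v(i+1)| ≤ 2w) φ (g (k+i, y))`
for `x = pos s k`, `s ∈ T n`, `k ≤ n`. Take `Av` and integrate; apply `response` for each `i`, `y`
with the set `A = {s | |y - pos s k - v (i+1)| ≤ 2w}`; `φ = phi p q - ∫ phi p q`. Sum over `y ∈ R`: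
`∑_y Av (ind (pos s (k+i+1) = y)) Av (r ↦ ind ¬(|y - pos r k - v(i+1)| ≤ 2w))
= Av (s ↦ Av (r ↦ ind ¬(|pos s (k+i+1) - pos r k - v(i+1)| ≤ 2w)))` and similarly for the second
term. -/
lemma closeL (hμ : EM μ) {p q : ℝ} (hpq : p < q) (h : ℝ) {v : ℝ} (hv : |v| ≤ 1) {w T n k : ℕ}
    (hw : w ≤ T) (hk : k + T ≤ n) :
    kmin μ p q * ∑ i ∈ range T, EA2 μ h n (fun _ s r =>
        ind (2 * (w : ℝ) < |(pos s (k + i + 1) : ℝ) - pos r k - v * (i + 1)|)) -
      Mom μ 1 * ∑ i ∈ range T, EA μ h n (fun g s => Real.exp |g (k + i, pos s (k + i + 1))| *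
        ind (2 * (w : ℝ) < |(pos s (k + i + 1) : ℝ) - pos s k - v * (i + 1)|)) ≤
    EA μ h n (fun g s => tubeX (fun u => phi p q u - ∫ u', phi p q u' ∂μ) v w g k (pos s k) T) := by
  set φ : ℝ → ℝ := fun u => phi p q u - ∫ u', phi p q u' ∂μ with hφ
  have hφm : Measurable φ := (SiteG_phi_meas p q).sub measurable_const
  have hφb : ∀ u, |φ u| ≤ 1 + |∫ u', phi p q u' ∂μ| := by
    intro u
    refine (abs_sub _ _).trans ?_
    have h1 : |phi p q u| ≤ 1 := by
      rw [abs_of_nonneg (SiteG_phi_nonneg p q u)]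
      exact SiteG_phi_le p q u
    linarith
  have hφP : ∀ x : ℕ × ℤ, PMom (law μ) (fun g : Env => φ (g x)) := fun x =>
    PMom.of_bounded (hφm.comp (measurable_pi_apply x)) fun g => hφb _
  have hPF : ∀ (i : ℕ) (y : ℤ), PF μ n (fun g s =>
      ind (|(y : ℝ) - pos s k - v * (i + 1)| ≤ 2 * w) * φ (g (k + i, y))) := fun i y s _ =>
    (PMom.const _).mul (hφP _)
  have h1 : EA μ h n (fun g s => tubeX φ v w g k (pos s k) T) =
      ∑ i ∈ range T, ∑ y ∈ CloseL_R n T, ∫ g : Env, φ (g (k + i, y)) *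
        (Av g h 0 0 n fun s => ind (|(y : ℝ) - pos s k - v * (i + 1)| ≤ 2 * w)) ∂(law μ) := by
    rw [EA_congr (G := fun g s => ∑ i ∈ range T, ∑ y ∈ CloseL_R n T,
      ind (|(y : ℝ) - pos s k - v * (i + 1)| ≤ 2 * w) * φ (g (k + i, y)))
      (fun g s _ => CloseL_tube φ hv hw (by omega) g s)]
    rw [EA_sum _ fun i _ => PF.sum _ fun y _ => hPF i y]
    refine Finset.sum_congr rfl fun i _ => ?_
    rw [EA_sum _ fun y _ => hPF i y]
    refine Finset.sum_congr rfl fun y _ => ?_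
    unfold EA
    congr 1
    funext g
    rw [Av_mul_right, mul_comm]
  rw [h1, Finset.mul_sum, Finset.mul_sum, ← Finset.sum_sub_distrib]
  refine Finset.sum_le_sum fun i hi => ?_
  have hiT : i < T := Finset.mem_range.1 hi
  rw [CloseL_two (M := T) h v (by omega), CloseL_err (M := T) hμ h v (by omega), Finset.mul_sum, Finset.mul_sum,
    ← Finset.sum_sub_distrib]
  refine Finset.sum_le_sum fun y _ => ?_
  exact response hμ hpq h (show k + i < n by omega) y
    (fun s => |(y : ℝ) - pos s k - v * (i + 1)| ≤ 2 * w)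

end

end Pool.Agent.W_7d29a1_h47
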