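import Pool.Agent.W_7d29a1_h47.CloseU
import Pool.Agent.W_7d29a1_h47.CloseL

/-!
# Two replicas are close
-/

namespace Pool.Agent.W_7d29a1_h47

open MeasureTheory ProbabilityTheory Finset

noncomputable section

variable {μ : Measure ℝ} [IsProbabilityMeasure μ]

omit [IsProbabilityMeasure μ] in
lemma close_kmin_pos {p q : ℝ} (hpq : p < q) (hp : 0 < μ.real (Set.Iic p))
    (hq : 0 < μ.real (Set.Ici q)) : 0 < kmin μ p q := by
  unfold kmin
  have h1 : Real.exp (-((q - p) / 2)) < 1 := by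
    rw [Real.exp_lt_one_iff]
    linarith
  have h2 : 0 < 1 - Real.exp (-((q - p) / 2)) := by linarith
  have h3 : 0 < min (μ.real (Set.Iic p)) (μ.real (Set.Ici q)) := lt_min hp hq
  positivity

lemma close_phi_nonneg (p q u : ℝ) : 0 ≤ phi p q u := le_max_left _ _

lemma close_phi_le_one (p q u : ℝ) : phi p q u ≤ 1 := by
  unfold phi
  exact max_le zero_le_one (min_le_left _ _)

lemma close_phi_meas (p q : ℝ) : Measurable (phi p q) := by
  unfold phi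
  fun_prop

lemma close_phi_int (p q : ℝ) : Integrable (phi p q) μ := by
  refine Integrable.mono' (integrable_const (1 : ℝ)) (close_phi_meas p q).aestronglyMeasurable ?_
  refine Filter.Eventually.of_forall fun u => ?_
  rw [Real.norm_eq_abs, abs_of_nonneg (close_phi_nonneg p q u)]
  exact close_phi_le_one p q u

lemma close_phi_mean (p q : ℝ) : 0 ≤ ∫ u, phi p q u ∂μ ∧ ∫ u, phi p q u ∂μ ≤ 1 := by
  refine ⟨integral_nonneg fun u => close_phi_nonneg p q u, ?_⟩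
  have h1 := integral_mono (close_phi_int (μ := μ) p q) (integrable_const (1 : ℝ))
    fun u => close_phi_le_one p q u
  simpa using h1

lemma close_phi_abs (p q u : ℝ) : |phi p q u - ∫ u', phi p q u' ∂μ| ≤ 1 := by
  obtain ⟨h1, h2⟩ := close_phi_mean (μ := μ) p q
  have h3 := close_phi_nonneg p q u
  have h4 := close_phi_le_one p q u
  rw [abs_le]
  constructor <;> linarith

lemma close_phi_zero (p q : ℝ) : ∫ u, (phi p q u - ∫ u', phi p q u' ∂μ) ∂μ = 0 := by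
  rw [integral_sub (close_phi_int p q) (integrable_const _)]
  simp

/-- Elementary: logarithms are small. -/
lemma close_log {ε : ℝ} (hε : 0 < ε) :
    ∃ Q₀ : ℕ, 1 ≤ Q₀ ∧ ∀ Q : ℕ, Q₀ ≤ Q → 1 + 4 * Real.log Q ≤ ε * Real.sqrt Q := by
  have h1 : Filter.Tendsto (fun x : ℝ => Real.log x / x ^ (1 / 2 : ℝ)) Filter.atTop (nhds 0) :=
    (isLittleO_log_rpow_atTop (by norm_num : (0 : ℝ) < 1 / 2)).tendsto_div_nhds_zero
  have h2 : Filter.Tendsto (fun x : ℝ => x ^ (1 / 2 : ℝ)) Filter.atTop Filter.atTop :=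
    tendsto_rpow_atTop (by norm_num)
  have h3 : ∀ᶠ x : ℝ in Filter.atTop, Real.log x / x ^ (1 / 2 : ℝ) < ε / 8 :=
    h1.eventually (gt_mem_nhds (by positivity))
  have h4 : ∀ᶠ x : ℝ in Filter.atTop, 2 / ε ≤ x ^ (1 / 2 : ℝ) :=
    h2.eventually (Filter.eventually_ge_atTop _)
  have h5 := (h3.and (h4.and (Filter.eventually_gt_atTop (0 : ℝ))))
  have h6 := (tendsto_natCast_atTop_atTop (R := ℝ)).eventually h5
  obtain ⟨N, hN⟩ := Filter.eventually_atTop.1 h6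
  refine ⟨max N 1, le_max_right _ _, fun Q hQ => ?_⟩
  obtain ⟨h7, h8, h9⟩ := hN Q ((le_max_left _ _).trans hQ)
  have h10 : (0 : ℝ) < (Q : ℝ) ^ (1 / 2 : ℝ) := Real.rpow_pos_of_pos h9 _
  rw [Real.sqrt_eq_rpow]
  rw [div_lt_iff₀ h10] at h7
  have h11 : 1 ≤ ε / 2 * (Q : ℝ) ^ (1 / 2 : ℝ) := by
    rw [div_le_iff₀ hε] at h8
    linarith
  nlinarith

/-- The noise constant used below. -/
lemma close_noise (hμ : EM μ) (h : ℝ) (n i : ℕ) (χ : (ℕ → Bool) → ℤ) :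
    EA μ h n (fun g s => Real.exp (2 * |g (i, χ s)|)) ≤ CN μ (fun u => Real.exp (2 * |u|)) := by
  refine noise hμ (Ψ := fun u => Real.exp (2 * |u|)) (by fun_prop) (fun u => (Real.exp_pos _).le)
    (fun p => ?_) ?_ h n i χ
  · exact (EMom_coord hμ p).abs.exp_pmom 2
  · have h1 := hμ 3
    have h2 : (fun u : ℝ => Real.exp (2 * |u|) * Real.exp |u|) =
        fun u : ℝ => Real.exp (3 * |u|) := by
      funext u
      rw [← Real.exp_add]
      ring_nf
    rw [h2]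
    exact h1

/-- The bound for one starting time. -/
lemma close_one (hμ : EM μ) {p q : ℝ} (hpq : p < q) (hkm : 0 ≤ kmin μ p q) (h : ℝ) {v : ℝ}
    (hv : |v| ≤ 1) {w T n k : ℕ} (hw : w ≤ T) (hk : k + T ≤ n) {e : ℝ} (he : 0 < e) :
    kmin μ p q * (T * EA2 μ h n (fun _ s r => ind (4 * (w : ℝ) < |(pos s k : ℝ) - pos r k|))) ≤
      EA μ h n (fun g s => tubeX (fun u => phi p q u - ∫ u', phi p q u' ∂μ) v w g k (pos s k) T) +
        Mom μ 1 * (T * (e / 2 * CN μ (fun u => Real.exp (2 * |u|)))) +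
        (Mom μ 1 / (2 * e) + kmin μ p q) * ∑ i ∈ range T, EA μ h n (fun _ s =>
          ind (2 * (w : ℝ) < |(pos s (k + i + 1) : ℝ) - pos s k - v * (i + 1)|)) := by
  have hL := closeL hμ hpq h hv hw hk
  have hM : 0 ≤ Mom μ 1 := integral_nonneg fun u => (Real.exp_pos _).le
  have h1 : ∀ i : ℕ, EA2 μ h n (fun _ s r => ind (4 * (w : ℝ) < |(pos s k : ℝ) - pos r k|)) ≤
      EA2 μ h n (fun _ s r => ind (2 * (w : ℝ) < |(pos s (k + i + 1) : ℝ) - pos r k - v * (i + 1)|)) +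
        EA μ h n (fun _ s => ind (2 * (w : ℝ) < |(pos s (k + i + 1) : ℝ) - pos s k - v * (i + 1)|)) := by
    intro i
    have h2 : EA μ h n (fun _ s =>
        ind (2 * (w : ℝ) < |(pos s (k + i + 1) : ℝ) - pos s k - v * (i + 1)|)) =
        EA2 μ h n (fun _ s _ =>
          ind (2 * (w : ℝ) < |(pos s (k + i + 1) : ℝ) - pos s k - v * (i + 1)|)) :=
      (EA2_fst _).symm
    rw [h2, ← EA2_add (PF2.det _) (PF2.det _)]
    refine EA2_mono (PF2.det _) (PF2.det _) fun g s _ r _ => ?_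
    refine (ind_mono ?_).trans (ind_or_le _ _)
    intro h3
    by_contra h4
    push Not at h4
    obtain ⟨h5, h6⟩ := h4
    have h7 : |(pos s k : ℝ) - pos r k| ≤ |(pos s (k + i + 1) : ℝ) - pos r k - v * (i + 1)| +
        |(pos s (k + i + 1) : ℝ) - pos s k - v * (i + 1)| := by
      have h8 : (pos s k : ℝ) - pos r k = ((pos s (k + i + 1) : ℝ) - pos r k - v * (i + 1)) -
        ((pos s (k + i + 1) : ℝ) - pos s k - v * (i + 1)) := by ring
      rw [h8]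
      exact abs_sub _ _
    linarith
  have h2 : ∀ i : ℕ, EA μ h n (fun g s => Real.exp |g (k + i, pos s (k + i + 1))| *
        ind (2 * (w : ℝ) < |(pos s (k + i + 1) : ℝ) - pos s k - v * (i + 1)|)) ≤
      e / 2 * CN μ (fun u => Real.exp (2 * |u|)) + (1 / (2 * e)) * EA μ h n (fun _ s =>
        ind (2 * (w : ℝ) < |(pos s (k + i + 1) : ℝ) - pos s k - v * (i + 1)|)) := by
    intro i
    have h3 := close_noise hμ h n (k + i) (fun s => pos s (k + i + 1))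
    have hpf1 : PF μ n (fun g s => Real.exp |g (k + i, pos s (k + i + 1))|) := fun s _ =>
      (EMom_coord hμ _).abs.exp'
    have hpf2 : PF μ n (fun g s => Real.exp (2 * |g (k + i, pos s (k + i + 1))|)) := fun s _ =>
      (EMom_coord hμ _).abs.exp_pmom 2
    have hpf3 : PF μ n (fun _ s =>
      ind (2 * (w : ℝ) < |(pos s (k + i + 1) : ℝ) - pos s k - v * (i + 1)|)) := PF.det _
    have h4 : EA μ h n (fun g s => Real.exp |g (k + i, pos s (k + i + 1))| *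
        ind (2 * (w : ℝ) < |(pos s (k + i + 1) : ℝ) - pos s k - v * (i + 1)|)) ≤
        EA μ h n (fun g s => e / 2 * Real.exp (2 * |g (k + i, pos s (k + i + 1))|) + (1 / (2 * e)) *
          ind (2 * (w : ℝ) < |(pos s (k + i + 1) : ℝ) - pos s k - v * (i + 1)|)) := by
      refine EA_mono (hpf1.mul hpf3) ((hpf2.const_mul _).add (hpf3.const_mul _)) fun g s _ => ?_
      have h5 : Real.exp (2 * |g (k + i, pos s (k + i + 1))|) =
          Real.exp |g (k + i, pos s (k + i + 1))| ^ 2 := by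
        rw [← Real.exp_nat_mul]
        norm_num
      rw [h5]
      have h6 : ∀ P : Prop, ind P ^ 2 = ind P := by
        intro P
        by_cases hP : P
        · rw [ind_true hP]; norm_num
        · rw [ind_false hP]; norm_num
      have h7 := h6 (2 * (w : ℝ) < |(pos s (k + i + 1) : ℝ) - pos s k - v * (i + 1)|)
      generalize ind (2 * (w : ℝ) < |(pos s (k + i + 1) : ℝ) - pos s k - v * (i + 1)|) = b at h7 ⊢
      generalize Real.exp |g (k + i, pos s (k + i + 1))| = a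
      have h8 : 0 ≤ (e * a - b) ^ 2 := sq_nonneg _
      have h9 : e / 2 * a ^ 2 + 1 / (2 * e) * b - a * b = (e * a - b) ^ 2 / (2 * e) := by
        have h11 : (e * a - b) ^ 2 = e ^ 2 * a ^ 2 - 2 * e * a * b + b := by
          linear_combination h7
        rw [h11]
        field_simp
        ring
      have h10 : 0 ≤ (e * a - b) ^ 2 / (2 * e) := by positivity
      linarith
    refine h4.trans ?_
    rw [EA_add (hpf2.const_mul _) (hpf3.const_mul _), EA_const_mul, EA_const_mul]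
    have h5 : e / 2 * EA μ h n (fun g s => Real.exp (2 * |g (k + i, pos s (k + i + 1))|)) ≤
        e / 2 * CN μ (fun u => Real.exp (2 * |u|)) := mul_le_mul_of_nonneg_left h3 (by positivity)
    linarith
  have h3 : T * EA2 μ h n (fun _ s r => ind (4 * (w : ℝ) < |(pos s k : ℝ) - pos r k|)) ≤
      ∑ i ∈ range T, EA2 μ h n (fun _ s r =>
        ind (2 * (w : ℝ) < |(pos s (k + i + 1) : ℝ) - pos r k - v * (i + 1)|)) +
      ∑ i ∈ range T, EA μ h n (fun _ s =>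
        ind (2 * (w : ℝ) < |(pos s (k + i + 1) : ℝ) - pos s k - v * (i + 1)|)) := by
    rw [← Finset.sum_add_distrib]
    have h4 := Finset.sum_le_sum fun i (_ : i ∈ range T) => h1 i
    simpa using h4
  have h4 : ∑ i ∈ range T, EA μ h n (fun g s => Real.exp |g (k + i, pos s (k + i + 1))| *
        ind (2 * (w : ℝ) < |(pos s (k + i + 1) : ℝ) - pos s k - v * (i + 1)|)) ≤
      T * (e / 2 * CN μ (fun u => Real.exp (2 * |u|))) + (1 / (2 * e)) *
        ∑ i ∈ range T, EA μ h n (fun _ s =>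
          ind (2 * (w : ℝ) < |(pos s (k + i + 1) : ℝ) - pos s k - v * (i + 1)|)) := by
    refine (Finset.sum_le_sum fun i (_ : i ∈ range T) => h2 i).trans (le_of_eq ?_)
    rw [Finset.sum_add_distrib, Finset.mul_sum]
    simp
  have h5 := mul_le_mul_of_nonneg_left h3 hkm
  have h6 := mul_le_mul_of_nonneg_left h4 hM
  have h7 : Mom μ 1 / (2 * e) = Mom μ 1 * (1 / (2 * e)) := by ring
  rw [h7]
  rw [mul_add] at h5 h6
  rw [add_mul]
  linarith

/-- The drift bound for all times up to `T`. -/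
lemma close_drift {h₀ v C : ℝ} (hC : 0 < C) (hd : ∀ t n : ℕ, 1 ≤ t → t ≤ n →
      ∑ k ∈ range (n - t + 1), EA μ h₀ n (fun _ s => |(pos s (k + t) : ℝ) - pos s k - v * t|) ≤
        n * (C * (Real.sqrt t * (1 + Real.log t)))) {w T n : ℕ} (hw : 1 ≤ w) (hT : T ≤ n) {i : ℕ}
    (hi : i < T) :
    ∑ k ∈ range (n - T + 1), EA μ h₀ n (fun _ s =>
      ind (2 * (w : ℝ) < |(pos s (k + i + 1) : ℝ) - pos s k - v * (i + 1)|)) ≤
        n * (C * (Real.sqrt T * (1 + Real.log T))) / (2 * w) := by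
  have hw' : (1 : ℝ) ≤ w := by exact_mod_cast hw
  have h1 : ∀ k : ℕ, EA μ h₀ n (fun _ s =>
      ind (2 * (w : ℝ) < |(pos s (k + i + 1) : ℝ) - pos s k - v * (i + 1)|)) ≤
      (1 / (2 * w)) * EA μ h₀ n (fun _ s =>
        |(pos s (k + (i + 1)) : ℝ) - pos s k - v * ((i + 1 : ℕ) : ℝ)|) := by
    intro k
    rw [← EA_const_mul]
    refine EA_mono (PF.det _) (PF.det _) fun g s _ => ?_
    have h2 : ((i + 1 : ℕ) : ℝ) = (i : ℝ) + 1 := by push_cast; ring
    rw [h2, ← add_assoc k i 1]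
    have hx0 := abs_nonneg ((pos s (k + i + 1) : ℝ) - pos s k - v * (i + 1))
    generalize |(pos s (k + i + 1) : ℝ) - pos s k - v * (i + 1)| = x at hx0 ⊢
    by_cases hx : 2 * (w : ℝ) < x
    · rw [ind_true hx, one_div, inv_mul_eq_div, le_div_iff₀ (by positivity)]
      linarith
    · rw [ind_false hx]
      positivity
  have h2 : ∑ k ∈ range (n - T + 1), EA μ h₀ n (fun _ s =>
      ind (2 * (w : ℝ) < |(pos s (k + i + 1) : ℝ) - pos s k - v * (i + 1)|)) ≤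
      (1 / (2 * w)) * ∑ k ∈ range (n - (i + 1) + 1), EA μ h₀ n (fun _ s =>
        |(pos s (k + (i + 1)) : ℝ) - pos s k - v * ((i + 1 : ℕ) : ℝ)|) := by
    refine (Finset.sum_le_sum fun k _ => h1 k).trans ?_
    rw [← Finset.mul_sum]
    refine mul_le_mul_of_nonneg_left ?_ (by positivity)
    refine Finset.sum_le_sum_of_subset_of_nonneg ?_ fun k _ _ =>
      EA_nonneg fun _ _ _ => abs_nonneg _
    intro k hk
    rw [Finset.mem_range] at hk ⊢
    omega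
  have h3 := hd (i + 1) n (by omega) (by omega)
  have h4 : (0 : ℝ) < ((i + 1 : ℕ) : ℝ) := by positivity
  have h5 : ((i + 1 : ℕ) : ℝ) ≤ T := by exact_mod_cast hi
  have h6 : Real.sqrt ((i + 1 : ℕ) : ℝ) * (1 + Real.log ((i + 1 : ℕ) : ℝ)) ≤
      Real.sqrt T * (1 + Real.log T) := by
    refine mul_le_mul (Real.sqrt_le_sqrt h5) ?_ ?_ (Real.sqrt_nonneg _)
    · linarith [Real.log_le_log h4 h5]
    · have : 0 ≤ Real.log ((i + 1 : ℕ) : ℝ) := Real.log_natCast_nonneg _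
      linarith
  refine h2.trans ?_
  rw [one_div, inv_mul_eq_div]
  refine div_le_div_of_nonneg_right (h3.trans ?_) (by positivity)
  exact mul_le_mul_of_nonneg_left (mul_le_mul_of_nonneg_left h6 hC.le) (Nat.cast_nonneg _)

/-- The arithmetic in the proof of `close`. -/
lemma close_arith {C₁ C₂ n x y L ε κ η M N e K X : ℝ} (hC₁ : 0 < C₁) (hC₂ : 0 < C₂) (hn0 : 0 ≤ n)
    (hq0 : 0 < x) (hs1 : 1 ≤ y) (hs2 : y * y = x) (hlog : L ≤ ε * y) (hε : 0 < ε)
    (h6 : 0 ≤ M / (2 * e) + κ) (hkm : 0 < κ) (hK : K = C₁ + (M / (2 * e) + κ) * C₂ / 2)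
    (hKε : K * ε = κ * η / 2) (heN : M * N * e ≤ κ * η)
    (h8 : κ * (x ^ 4 * X) ≤ n * (C₁ * (x * y * x ^ 2 * L)) + n * (M * (x ^ 4 * (e / 2 * N))) +
      (M / (2 * e) + κ) * (x ^ 4 * (n * (C₂ * (x ^ 2 * L)) / (2 * x ^ 3)))) : X ≤ η * n := by
  have t1 : C₁ * (x * y * x ^ 2 * L) ≤ C₁ * ε * x ^ 4 := by
    have a1 : x * y * x ^ 2 * L ≤ x * y * x ^ 2 * (ε * y) :=
      mul_le_mul_of_nonneg_left hlog (by positivity)
    have a2 : x * y * x ^ 2 * (ε * y) = ε * x ^ 4 := by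
      linear_combination (ε * x ^ 3) * hs2
    rw [a2] at a1
    calc C₁ * (x * y * x ^ 2 * L) ≤ C₁ * (ε * x ^ 4) := mul_le_mul_of_nonneg_left a1 hC₁.le
      _ = C₁ * ε * x ^ 4 := by ring
  have t2 : x ^ 4 * (n * (C₂ * (x ^ 2 * L)) / (2 * x ^ 3)) ≤ n * (C₂ / 2 * ε * x ^ 4) := by
    have a1 : x ^ 4 * (n * (C₂ * (x ^ 2 * L)) / (2 * x ^ 3)) = n * (C₂ / 2 * (x ^ 3 * L)) := by
      field_simp
    rw [a1]
    have a2 : x ^ 3 * L ≤ ε * x ^ 4 := by
      have a3 : x ^ 3 * L ≤ x ^ 3 * (ε * y) := mul_le_mul_of_nonneg_left hlog (by positivity)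
      have a4 : y ≤ x := by
        rw [← hs2]
        exact le_mul_of_one_le_left (by linarith) hs1
      have a5 : x ^ 3 * (ε * y) ≤ x ^ 3 * (ε * x) :=
        mul_le_mul_of_nonneg_left (mul_le_mul_of_nonneg_left a4 hε.le) (by positivity)
      calc x ^ 3 * L ≤ x ^ 3 * (ε * x) := a3.trans a5
        _ = ε * x ^ 4 := by ring
    have a6 : C₂ / 2 * (x ^ 3 * L) ≤ C₂ / 2 * ε * x ^ 4 := by
      calc C₂ / 2 * (x ^ 3 * L) ≤ C₂ / 2 * (ε * x ^ 4) :=
            mul_le_mul_of_nonneg_left a2 (by positivity)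
        _ = C₂ / 2 * ε * x ^ 4 := by ring
    exact mul_le_mul_of_nonneg_left a6 hn0
  have t3 : M * (x ^ 4 * (e / 2 * N)) ≤ κ * η / 2 * x ^ 4 := by
    have a2 : M * (x ^ 4 * (e / 2 * N)) = (M * N * e) / 2 * x ^ 4 := by ring
    rw [a2]
    exact mul_le_mul_of_nonneg_right (by linarith) (by positivity)
  have t4 := mul_le_mul_of_nonneg_left t2 h6
  have t5 := mul_le_mul_of_nonneg_left t1 hn0
  have t6 := mul_le_mul_of_nonneg_left t3 hn0
  have t7 : κ * (x ^ 4 * X) ≤ n * (κ * η * x ^ 4) := by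
    have b2 : n * (C₁ * ε * x ^ 4) + n * (κ * η / 2 * x ^ 4) +
        (M / (2 * e) + κ) * (n * (C₂ / 2 * ε * x ^ 4)) = n * ((K * ε + κ * η / 2) * x ^ 4) := by
      rw [hK]
      ring
    rw [hKε] at b2
    have b3 : n * ((κ * η / 2 + κ * η / 2) * x ^ 4) = n * (κ * η * x ^ 4) := by ring
    rw [b3] at b2
    rw [← b2]
    linarith
  have t8 : 0 < κ * x ^ 4 := by positivity
  have t9 : (κ * x ^ 4) * X ≤ (κ * x ^ 4) * (η * n) := by
    calc (κ * x ^ 4) * X = κ * (x ^ 4 * X) := by ring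
      _ ≤ n * (κ * η * x ^ 4) := t7
      _ = (κ * x ^ 4) * (η * n) := by ring
  exact le_of_mul_le_mul_left t9 t8

/-- **Two replicas are close** (Section 4). Proof. Take `p q` from `exists_gap`,
`T = q₁^4`, `w = q₁^3` (`q₁` the variable `Q` below). Sum `closeL` over `k ∈ range (n - T + 1)` and use
`closeU`. For every `k, i`: if `4w < |S_k - S'_k|` then `2w < |S_{k+i+1} - S'_k - v(i+1)|` or
`2w < |S_{k+i+1} - S_k - v(i+1)|`. The latter event has by Markov and `drift` (with `t = i+1`) summed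
over `k` at most `n C √T (1 + log T)/(2w)`. Next `e^{|g|} ind ≤ (e/2) e^{2|g|} + ind/(2e)` for every
`e > 0`, and `noise` with `Ψ u = e^{2|u|}`. Altogether
`T kmin ∑_k EA2(ind(4w < |S_k - S'_k|)) ≤ n C √w √T (1+log T) + T n (kmin + M₁/(2e)) C √T (1+log T)/(2w) + T n M₁ (e/2) C'`.
Divide by `T kmin`: choose `e` small, then `Q` large: `√w √T / T = Q^{-1/2}`, `√T / w = 1/Q`. -/
theorem close (hμ : EM μ) (hnd : Nondeg μ) {h₀ δ v : ℝ} (hA : Aff μ h₀ δ v) {η : ℝ} (hη : 0 < η) :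
    ∃ Q₀ : ℕ, 1 ≤ Q₀ ∧ ∀ Q : ℕ, Q₀ ≤ Q → ∀ n : ℕ, Q ^ 4 ≤ n →
      ∑ k ∈ range (n - Q ^ 4 + 1), EA2 μ h₀ n (fun _ s r =>
        ind (4 * (Q : ℝ) ^ 3 < |(pos s k : ℝ) - pos r k|)) ≤ η * n := by
  obtain ⟨p, q, hpq, hp, hq⟩ := exists_gap hnd
  have hkm := close_kmin_pos hpq hp hq
  have hv : |v| ≤ 1 := abs_le.2 ⟨(hA.neg_one_lt hμ).le, (hA.lt_one hμ).le⟩
  have hφm : Measurable (fun u => phi p q u - ∫ u', phi p q u' ∂μ) :=
    (close_phi_meas p q).sub_const _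
  obtain ⟨C₁, hC₁, hU⟩ := closeU (μ := μ) hμ hφm (fun u => close_phi_abs p q u)
    (close_phi_zero p q) h₀ v
  obtain ⟨C₂, hC₂, hD⟩ := drift hμ hA
  have hM : 0 ≤ Mom μ 1 := integral_nonneg fun u => (Real.exp_pos _).le
  have hCN : 0 ≤ CN μ (fun u => Real.exp (2 * |u|)) := by
    unfold CN
    exact div_nonneg (integral_nonneg fun u => by positivity) (integral_nonneg fun u => by positivity)
  set N := CN μ (fun u => Real.exp (2 * |u|)) with hN
  set M := Mom μ 1 with hMdef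
  set κ := kmin μ p q with hκ
  set e : ℝ := κ * η / (M * N + 1) with he
  have hepos : 0 < e := by positivity
  set K : ℝ := C₁ + (M / (2 * e) + κ) * C₂ / 2 with hK
  have hKpos : 0 < K := by positivity
  set ε : ℝ := κ * η / (2 * K) with hε
  have hεpos : 0 < ε := by positivity
  obtain ⟨Q₁, hQ₁, hQ₂⟩ := close_log hεpos
  refine ⟨max Q₁ 2, (le_max_of_le_left hQ₁), fun Q hQ n hn => ?_⟩
  have hQ2 : 2 ≤ Q := (le_max_right _ _).trans hQ
  have hlog := hQ₂ Q ((le_max_left _ _).trans hQ)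
  have hqr : (2 : ℝ) ≤ Q := by exact_mod_cast hQ2
  have hw1 : 1 ≤ Q ^ 3 := Nat.one_le_pow _ _ (by omega)
  have hT4 : 4 ≤ Q ^ 4 := by
    calc 4 ≤ 2 ^ 4 := by norm_num
      _ ≤ Q ^ 4 := Nat.pow_le_pow_left hQ2 4
  have hwT : Q ^ 3 ≤ Q ^ 4 := Nat.pow_le_pow_right (by omega) (by norm_num)
  -- the sum over the starting times
  have h1 : ∀ k ∈ range (n - Q ^ 4 + 1), κ * (((Q ^ 4 : ℕ) : ℝ) * EA2 μ h₀ n (fun _ s r =>
      ind (4 * ((Q ^ 3 : ℕ) : ℝ) < |(pos s k : ℝ) - pos r k|))) ≤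
      EA μ h₀ n (fun g s => tubeX (fun u => phi p q u - ∫ u', phi p q u' ∂μ) v (Q ^ 3) g k
        (pos s k) (Q ^ 4)) + M * (((Q ^ 4 : ℕ) : ℝ) * (e / 2 * N)) +
        (M / (2 * e) + κ) * ∑ i ∈ range (Q ^ 4), EA μ h₀ n (fun _ s =>
          ind (2 * ((Q ^ 3 : ℕ) : ℝ) < |(pos s (k + i + 1) : ℝ) - pos s k - v * (i + 1)|)) := by
    intro k hk
    rw [Finset.mem_range] at hk
    exact close_one hμ hpq hkm.le h₀ hv hwT (by omega) hepos
  have h2 := Finset.sum_le_sum h1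
  have h2b : ∑ k ∈ range (n - Q ^ 4 + 1), (M / (2 * e) + κ) * ∑ i ∈ range (Q ^ 4),
      EA μ h₀ n (fun _ s =>
        ind (2 * ((Q ^ 3 : ℕ) : ℝ) < |(pos s (k + i + 1) : ℝ) - pos s k - v * (i + 1)|)) =
      (M / (2 * e) + κ) * ∑ i ∈ range (Q ^ 4), ∑ k ∈ range (n - Q ^ 4 + 1),
      EA μ h₀ n (fun _ s =>
        ind (2 * ((Q ^ 3 : ℕ) : ℝ) < |(pos s (k + i + 1) : ℝ) - pos s k - v * (i + 1)|)) := by
    rw [← Finset.mul_sum, Finset.sum_comm]
  rw [Finset.sum_add_distrib, Finset.sum_add_distrib, h2b, ← Finset.mul_sum, ← Finset.mul_sum] at h2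
  have h3 := hU (Q ^ 3) (Q ^ 4) n hw1 hT4 hn
  have h4 : ∑ k ∈ range (n - Q ^ 4 + 1), M * (((Q ^ 4 : ℕ) : ℝ) * (e / 2 * N)) ≤
      n * (M * (((Q ^ 4 : ℕ) : ℝ) * (e / 2 * N))) := by
    rw [Finset.sum_const, Finset.card_range, nsmul_eq_mul]
    refine mul_le_mul_of_nonneg_right ?_ (by positivity)
    have : n - Q ^ 4 + 1 ≤ n := by omega
    exact_mod_cast this
  have h5 : ∑ i ∈ range (Q ^ 4), ∑ k ∈ range (n - Q ^ 4 + 1), EA μ h₀ n (fun _ s =>
      ind (2 * ((Q ^ 3 : ℕ) : ℝ) < |(pos s (k + i + 1) : ℝ) - pos s k - v * (i + 1)|)) ≤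
      ((Q ^ 4 : ℕ) : ℝ) * (n * (C₂ * (Real.sqrt ((Q ^ 4 : ℕ) : ℝ) *
        (1 + Real.log ((Q ^ 4 : ℕ) : ℝ)))) / (2 * ((Q ^ 3 : ℕ) : ℝ))) := by
    have h6 := Finset.sum_le_sum fun i (hi : i ∈ range (Q ^ 4)) =>
      close_drift (v := v) hC₂ hD hw1 hn (Finset.mem_range.1 hi)
    refine h6.trans (le_of_eq ?_)
    rw [Finset.sum_const, Finset.card_range, nsmul_eq_mul]
  have h6 : 0 ≤ M / (2 * e) + κ := by positivity
  have h7 := mul_le_mul_of_nonneg_left h5 h6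
  have h8 : κ * (((Q ^ 4 : ℕ) : ℝ) * ∑ k ∈ range (n - Q ^ 4 + 1), EA2 μ h₀ n (fun _ s r =>
      ind (4 * ((Q ^ 3 : ℕ) : ℝ) < |(pos s k : ℝ) - pos r k|))) ≤
      n * (C₁ * (Real.sqrt ((Q ^ 3 : ℕ) : ℝ) * Real.sqrt ((Q ^ 4 : ℕ) : ℝ) *
        (1 + Real.log ((Q ^ 4 : ℕ) : ℝ)))) + n * (M * (((Q ^ 4 : ℕ) : ℝ) * (e / 2 * N))) +
      (M / (2 * e) + κ) * (((Q ^ 4 : ℕ) : ℝ) * (n * (C₂ * (Real.sqrt ((Q ^ 4 : ℕ) : ℝ) *
        (1 + Real.log ((Q ^ 4 : ℕ) : ℝ)))) / (2 * ((Q ^ 3 : ℕ) : ℝ)))) := by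
    linarith
  have h9 : ((Q ^ 4 : ℕ) : ℝ) = (Q : ℝ) ^ 4 := by push_cast; ring
  have h10 : ((Q ^ 3 : ℕ) : ℝ) = (Q : ℝ) ^ 3 := by push_cast; ring
  have h11 : Real.sqrt ((Q : ℝ) ^ 4) = (Q : ℝ) ^ 2 := by
    rw [show (Q : ℝ) ^ 4 = ((Q : ℝ) ^ 2) ^ 2 by ring]
    exact Real.sqrt_sq (by positivity)
  have h12 : Real.sqrt ((Q : ℝ) ^ 3) = Q * Real.sqrt Q := by
    rw [show (Q : ℝ) ^ 3 = (Q : ℝ) ^ 2 * Q by ring, Real.sqrt_mul (by positivity),
      Real.sqrt_sq (by positivity)]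
  have h13 : 1 + Real.log ((Q : ℝ) ^ 4) = 1 + 4 * Real.log Q := by
    rw [Real.log_pow]
    norm_num
  rw [h9, h10, h11, h12, h13] at h8
  generalize ∑ k ∈ range (n - Q ^ 4 + 1), EA2 μ h₀ n (fun _ s r =>
      ind (4 * (Q : ℝ) ^ 3 < |(pos s k : ℝ) - pos r k|)) = X at h8 ⊢
  generalize 1 + 4 * Real.log (Q : ℝ) = L at h8 hlog
  have hs1 : 1 ≤ Real.sqrt (Q : ℝ) := by
    rw [Real.one_le_sqrt]
    linarith
  have hs2 : Real.sqrt (Q : ℝ) * Real.sqrt (Q : ℝ) = Q := Real.mul_self_sqrt (by positivity)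
  have hn0 : (0 : ℝ) ≤ n := Nat.cast_nonneg _
  have hq0 : (0 : ℝ) < Q := by linarith
  have hKε : K * ε = κ * η / 2 := by
    rw [hε]
    field_simp
  have heN : M * N * e ≤ κ * η := by
    rw [he, mul_div_assoc', div_le_iff₀ (by positivity)]
    nlinarith [mul_pos hkm hη]
  exact close_arith hC₁ hC₂ hn0 hq0 hs1 hs2 hlog hεpos h6 hkm hK hKε heN h8

end

end Pool.Agent.W_7d29a1_h47
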