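import Pool.Agent.W_7d29a1_h47.DriftA
import Pool.Agent.W_7d29a1_h47.LamB

/-!
# The drift bound (W)
-/

namespace Pool.Agent.W_7d29a1_h47

open MeasureTheory ProbabilityTheory Finset

noncomputable section

variable {μ : Measure ℝ} [IsProbabilityMeasure μ]

lemma Drift_Cc_nonneg : 0 ≤ Cc μ := by
  unfold Cc
  positivity

/-- Elementary: `T * eps n ≤ n √T (log (2T+1) + 2 + C)` for `1 ≤ T ≤ n`. Proof.
`log (2n+1) ≤ log (2T+1) + log (n/T)` and `√(T/n) ≤ 1`, `√(T/n) log (n/T) ≤ 1`. -/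
lemma mul_eps_le {T n : ℕ} (hT : 1 ≤ T) (hTn : T ≤ n) :
    T * eps μ n ≤ n * (Real.sqrt T * (Real.log (2 * T + 1) + 2 + Cc μ)) := by
  have hC : 0 ≤ Cc μ := Drift_Cc_nonneg
  have hT0 : (0 : ℝ) < T := by exact_mod_cast hT
  have hT1 : (1 : ℝ) ≤ T := by exact_mod_cast hT
  have hTn' : (T : ℝ) ≤ n := by exact_mod_cast hTn
  have hn0 : (0 : ℝ) < n := by linarith
  obtain ⟨p, hp⟩ : ∃ p : ℝ, p = Real.sqrt T := ⟨_, rfl⟩
  obtain ⟨q, hq⟩ : ∃ q : ℝ, q = Real.sqrt n := ⟨_, rfl⟩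
  have hp0 : 0 < p := by rw [hp]; exact Real.sqrt_pos.2 hT0
  have hq0 : 0 < q := by rw [hq]; exact Real.sqrt_pos.2 hn0
  have hpT : (T : ℝ) = p * p := by rw [hp]; exact (Real.mul_self_sqrt hT0.le).symm
  have hqn : (n : ℝ) = q * q := by rw [hq]; exact (Real.mul_self_sqrt hn0.le).symm
  have hpq : p ≤ q := by rw [hp, hq]; exact Real.sqrt_le_sqrt hTn'
  have h1 : Real.log (2 * n + 1) ≤ Real.log (2 * T + 1) + 2 * (q / p - 1) := by
    have h2 : (2 * (n : ℝ) + 1) ≤ (2 * T + 1) * ((q / p) * (q / p)) := by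
      have h3 : (q / p) * (q / p) = n / T := by
        rw [hqn, hpT]
        field_simp
      rw [h3, ← mul_div_assoc, le_div_iff₀ hT0]
      nlinarith
    have hqp : 0 < q / p := div_pos hq0 hp0
    have h4 := Real.log_le_log (by positivity) h2
    rw [Real.log_mul (by positivity) (by positivity), Real.log_mul hqp.ne' hqp.ne'] at h4
    have h5 := Real.log_le_sub_one_of_pos hqp
    linarith
  have h6 : 0 ≤ Real.log (2 * (T : ℝ) + 1) := Real.log_nonneg (by linarith)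
  have h7 : p * (Real.log (2 * n + 1) + Cc μ) ≤ q * (Real.log (2 * T + 1) + 2 + Cc μ) := by
    have h8 : p * Real.log (2 * n + 1) ≤ p * Real.log (2 * T + 1) + 2 * (q - p) := by
      have h9 := mul_le_mul_of_nonneg_left h1 hp0.le
      have h10 : p * (Real.log (2 * T + 1) + 2 * (q / p - 1)) =
          p * Real.log (2 * T + 1) + 2 * (q - p) := by
        field_simp
      linarith
    nlinarith
  unfold eps
  rw [← hp, ← hq]
  calc (T : ℝ) * (q * (Real.log (2 * n + 1) + Cc μ))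
      = p * q * (p * (Real.log (2 * n + 1) + Cc μ)) := by rw [hpT]; ring
    _ ≤ p * q * (q * (Real.log (2 * T + 1) + 2 + Cc μ)) :=
        mul_le_mul_of_nonneg_left h7 (by positivity)
    _ = q * q * (p * (Real.log (2 * T + 1) + 2 + Cc μ)) := by ring
    _ = n * (p * (Real.log (2 * T + 1) + 2 + Cc μ)) := by rw [← hqn]

/-- the one block bound for the drift -/
lemma Drift_block (hμ : EM μ) {h₀ δ v : ℝ} (hA : Aff μ h₀ δ v) {θ : ℝ} (hθ : 0 < θ) (hθ1 : θ ≤ 1)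
    (t k : ℕ) (x : ℤ) :
    ∑ y ∈ Icc (x - t) (x + t),
      ∫ g, (Real.exp (δ * |(y : ℝ) - x - v * t|) * Kp g h₀ k x t y) ^ θ ∂(law μ) ≤
        Real.exp (θ * t * Lam μ h₀ + (Real.log (2 * t + 1) + Cc μ * θ ^ 2 * t)) := by
  have h1 : ∀ y ∈ Icc (x - t) (x + t),
      ∫ g, (Real.exp (δ * |(y : ℝ) - x - v * t|) * Kp g h₀ k x t y) ^ θ ∂(law μ) ≤
        Real.exp (θ * t * Lam μ h₀ + Cc μ * θ ^ 2 * t) := by
    intro y _
    rcases le_or_gt 0 ((y : ℝ) - x - v * t) with h | h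
    · refine (integral_Kp_rpow hμ h₀ (h₀ + δ) _ k x t y hθ hθ1).trans (le_of_eq ?_)
      rw [abs_of_nonneg h, hA.up]
      congr 1
      ring
    · refine (integral_Kp_rpow hμ h₀ (h₀ - δ) _ k x t y hθ hθ1).trans (le_of_eq ?_)
      rw [abs_of_neg h, hA.dn]
      congr 1
      ring
  refine (Finset.sum_le_sum h1).trans (le_of_eq ?_)
  rw [Finset.sum_const, Int.card_Icc, nsmul_eq_mul]
  have h2 : (x + t + 1 - (x - t)).toNat = 2 * t + 1 := by omega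
  rw [h2]
  have h3 : (((2 * t + 1 : ℕ)) : ℝ) = Real.exp (Real.log (2 * t + 1)) := by
    rw [Real.exp_log (by positivity)]
    push_cast
    rfl
  rw [h3, ← Real.exp_add]
  congr 1
  ring

/-- **(W)** Drift bound. Proof. `BM_avg` with `T = t`, `B g k x y = δ |y - x - v t|`,
`θ = 1/√t`, `c = log (2t+1) + C θ² t`: for `y - x ≥ v t` use `integral_Kp_rpow` with `b = B`,
`h' = h₀ + δ`: exponent `θ (δ (y-x-vt) - δ (y-x) + t (Λ + δ v)) + Cθ²t = θ t Λ + C θ² t` (`hA.up`); for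
`y - x < v t` use `h' = h₀ - δ` (`hA.dn`). Sum over `2t+1` values of `y`. Then divide by `δ`, use
`mul_eps_le`, `log (2t+1) ≤ 2 + log t`… -/
theorem drift (hμ : EM μ) {h₀ δ v : ℝ} (hA : Aff μ h₀ δ v) :
    ∃ C : ℝ, 0 < C ∧ ∀ t n : ℕ, 1 ≤ t → t ≤ n →
      ∑ k ∈ range (n - t + 1), EA μ h₀ n (fun _ s => |(pos s (k + t) : ℝ) - pos s k - v * t|) ≤
        n * (C * (Real.sqrt t * (1 + Real.log t))) := by
  have hC : 0 ≤ Cc μ := Drift_Cc_nonneg
  have hδ : 0 < δ := hA.pos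
  refine ⟨(10 + 4 * Cc μ) / δ, by positivity, fun t n ht htn => ?_⟩
  have ht0 : (0 : ℝ) < t := by exact_mod_cast ht
  have ht1 : (1 : ℝ) ≤ t := by exact_mod_cast ht
  have htn' : (t : ℝ) ≤ n := by exact_mod_cast htn
  have hn0 : (0 : ℝ) < n := by linarith
  obtain ⟨p, hp⟩ : ∃ p : ℝ, p = Real.sqrt t := ⟨_, rfl⟩
  have hp1 : 1 ≤ p := by
    rw [hp]
    exact Real.one_le_sqrt.2 ht1
  have hp0 : 0 < p := by linarith
  have hpt : p * p = t := by rw [hp]; exact Real.mul_self_sqrt ht0.le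
  obtain ⟨ℓ, hℓ⟩ : ∃ ℓ : ℝ, ℓ = Real.log (2 * t + 1) := ⟨_, rfl⟩
  have hℓ0 : 0 ≤ ℓ := by rw [hℓ]; exact Real.log_nonneg (by linarith)
  have hℓ1 : ℓ ≤ 2 + Real.log t := by
    have h1 : (2 * (t : ℝ) + 1) ≤ 3 * t := by linarith
    have h2 := Real.log_le_log (by positivity) h1
    rw [Real.log_mul (by norm_num) ht0.ne'] at h2
    have h3 : Real.log 3 ≤ 3 - 1 := Real.log_le_sub_one_of_pos (by norm_num)
    rw [hℓ]
    linarith
  have hlog : 0 ≤ Real.log t := Real.log_nonneg ht1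
  have hθ : 0 < p⁻¹ := by positivity
  have hθ1 : p⁻¹ ≤ 1 := inv_le_one_of_one_le₀ hp1
  have hθt : (p⁻¹) ^ 2 * t = 1 := by
    rw [← hpt]
    field_simp
  have h1 := BM_avg (n := n) hμ (h := h₀) hθ hθ1 ht htn
    (B := fun _ _ x y => δ * |(y : ℝ) - x - v * t|)
    (fun _ _ _ => EMom.const _) (fun _ _ _ _ _ _ => rfl)
    (c := Real.log (2 * t + 1) + Cc μ * (p⁻¹) ^ 2 * t)
    (add_nonneg (Real.log_nonneg (by linarith)) (by positivity))
    (fun k x => Drift_block hμ hA hθ hθ1 t k x)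
  have h2 : ∑ k ∈ range (n - t + 1), EA μ h₀ n
      (fun _ s => δ * |((pos s (k + t) : ℤ) : ℝ) - ((pos s k : ℤ) : ℝ) - v * t|) =
      δ * ∑ k ∈ range (n - t + 1), EA μ h₀ n
        (fun _ s => |(pos s (k + t) : ℝ) - pos s k - v * t|) := by
    rw [Finset.mul_sum]
    refine Finset.sum_congr rfl fun k _ => ?_
    rw [← EA_const_mul]
  rw [h2] at h1
  have h3 := mul_eps_le (μ := μ) ht htn
  rw [← hp, ← hℓ] at h3
  have h4 : Cc μ * (p⁻¹) ^ 2 * t = Cc μ := by rw [mul_assoc, hθt, mul_one]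
  rw [inv_inv, h4, ← hℓ] at h1
  obtain ⟨S, hS⟩ : ∃ S : ℝ, S = ∑ k ∈ range (n - t + 1), EA μ h₀ n
        (fun _ s => |(pos s (k + t) : ℝ) - pos s k - v * t|) := ⟨_, rfl⟩
  rw [← hS] at h1 ⊢
  rw [← hp]
  have h5 : p * (n * (ℓ + Cc μ) + 2 * t * (ℓ + Cc μ)) ≤ n * (p * (3 * (ℓ + Cc μ))) := by
    have h6 : (2 * (t : ℝ)) * (ℓ + Cc μ) ≤ 2 * n * (ℓ + Cc μ) :=
      mul_le_mul_of_nonneg_right (by linarith) (by linarith)
    nlinarith
  have h7 : δ * S ≤ n * (p * (4 * (ℓ + Cc μ) + 2)) := by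
    have h8 : n * (p * (4 * (ℓ + Cc μ) + 2)) =
        n * (p * (3 * (ℓ + Cc μ))) + n * (p * (ℓ + 2 + Cc μ)) := by ring
    rw [h8]
    exact h1.trans (add_le_add h5 h3)
  have h9 : n * (p * (4 * (ℓ + Cc μ) + 2)) ≤ n * (p * ((10 + 4 * Cc μ) * (1 + Real.log t))) := by
    refine mul_le_mul_of_nonneg_left (mul_le_mul_of_nonneg_left ?_ hp0.le) hn0.le
    nlinarith
  have h10 : δ * S ≤ δ * (n * ((10 + 4 * Cc μ) / δ * (p * (1 + Real.log t)))) := by
    refine (h7.trans h9).trans (le_of_eq ?_)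
    field_simp
  exact le_of_mul_le_mul_left h10 hδ

end

end Pool.Agent.W_7d29a1_h47
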