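import Pool.Agent.W_7d29a1_h47.Tube
import Pool.Agent.W_7d29a1_h47.Drift

/-!
# Two replicas are close: the upper bound for the tube sums
-/

namespace Pool.Agent.W_7d29a1_h47

open MeasureTheory ProbabilityTheory Finset

noncomputable section

variable {μ : Measure ℝ} [IsProbabilityMeasure μ]

lemma CloseU_rpow_le {K r : ℝ} (hK : 0 ≤ K) (hr0 : 0 ≤ r) (hr1 : r ≤ 1) : K ^ r ≤ 1 + K := by
  rcases le_total K 1 with h | h
  · have := Real.rpow_le_one hK h hr0
    linarith
  · have := Real.rpow_le_rpow_of_exponent_le h hr1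
    rw [Real.rpow_one] at this
    linarith

lemma CloseU_Kp_meas (h : ℝ) (t : ℕ) (x : ℤ) (ℓ : ℕ) (y : ℤ) :
    Measurable (fun g : Env => Kp g h t x ℓ y) := by
  unfold Kp
  fun_prop

lemma CloseU_Kp_pmom (hμ : EM μ) (h : ℝ) (t : ℕ) (x : ℤ) (ℓ : ℕ) (y : ℤ) {r : ℝ} (hr0 : 0 ≤ r)
    (hr1 : r ≤ 1) : PMom (law μ) (fun g : Env => Kp g h t x ℓ y ^ r) := by
  have h1 : PMom (law μ) (fun g : Env => Kp g h t x ℓ y) := by
    unfold Kp
    exact (PMom_Zp hμ t x ℓ y).const_mul _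
  refine ((PMom.const (P := law μ) (1 : ℝ)).add h1).mono
    ((CloseU_Kp_meas h t x ℓ y).pow_const r) fun g => ?_
  have h2 := Kp_nonneg g h t x ℓ y
  rw [abs_of_nonneg (Real.rpow_nonneg h2 r), abs_of_nonneg (by linarith)]
  exact CloseU_rpow_le h2 hr0 hr1

lemma CloseU_tube_emom {φ : ℝ → ℝ} (hφm : Measurable φ) (hφ1 : ∀ u, |φ u| ≤ 1)
    (v : ℝ) (w : ℕ) (k : ℕ) (x : ℤ) (T : ℕ) :
    EMom (law μ) (fun g : Env => tubeX φ v w g k x T) := by
  unfold tubeX
  refine EMom.sum _ fun i _ => EMom.sum _ fun y _ => ?_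
  refine EMom.of_bounded (by fun_prop) (c := 1) fun g => ?_
  rw [abs_mul]
  exact mul_le_one₀ (ind_abs _) (abs_nonneg _) (hφ1 _)

lemma CloseU_tube_dep (φ : ℝ → ℝ) (v : ℝ) (w : ℕ) (k : ℕ) (x : ℤ) (T : ℕ) :
    DependsOn (fun g : Env => tubeX φ v w g k x T) (rows k (k + T)) := by
  intro g g' hg
  unfold tubeX
  refine Finset.sum_congr rfl fun i hi => Finset.sum_congr rfl fun y _ => ?_
  have h1 := Finset.mem_range.1 hi
  rw [hg (k + i, y) ⟨by simp, by simpa using h1⟩]

/-- Cauchy-Schwarz in exponential form. -/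
lemma CloseU_cs {Ω : Type*} [MeasurableSpace Ω] {P : Measure Ω} {F G : Ω → ℝ}
    (hF : Integrable (fun w => F w ^ 2) P) (hG : Integrable (fun w => G w ^ 2) P)
    (hFG : Integrable (fun w => F w * G w) P) {α β : ℝ}
    (h1 : ∫ w, F w ^ 2 ∂P ≤ Real.exp α) (h2 : ∫ w, G w ^ 2 ∂P ≤ Real.exp β) :
    ∫ w, F w * G w ∂P ≤ Real.exp ((α + β) / 2) := by
  set s : ℝ := Real.exp ((β - α) / 2) with hs
  have hs0 : 0 < s := Real.exp_pos _
  have hpt : ∀ w, F w * G w ≤ (s / 2) * F w ^ 2 + (s⁻¹ / 2) * G w ^ 2 := by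
    intro w
    have h3 : (s / 2) * F w ^ 2 + (s⁻¹ / 2) * G w ^ 2 - F w * G w =
        (s⁻¹ / 2) * (s * F w - G w) ^ 2 := by
      field_simp
      ring
    have h4 : 0 ≤ (s⁻¹ / 2) * (s * F w - G w) ^ 2 := by positivity
    linarith
  have h5 : ∫ w, F w * G w ∂P ≤ (s / 2) * ∫ w, F w ^ 2 ∂P + (s⁻¹ / 2) * ∫ w, G w ^ 2 ∂P := by
    rw [← integral_const_mul, ← integral_const_mul, ← integral_add (hF.const_mul _)
      (hG.const_mul _)]
    exact integral_mono hFG ((hF.const_mul _).add (hG.const_mul _)) hpt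
  have h6 : s * Real.exp α = Real.exp ((α + β) / 2) := by
    rw [hs, ← Real.exp_add]
    congr 1
    ring
  have h7 : s⁻¹ * Real.exp β = Real.exp ((α + β) / 2) := by
    rw [hs, ← Real.exp_neg, ← Real.exp_add]
    congr 1
    ring
  have h8 : (s / 2) * ∫ w, F w ^ 2 ∂P ≤ (s / 2) * Real.exp α :=
    mul_le_mul_of_nonneg_left h1 (by positivity)
  have h9 : (s⁻¹ / 2) * ∫ w, G w ^ 2 ∂P ≤ (s⁻¹ / 2) * Real.exp β :=
    mul_le_mul_of_nonneg_left h2 (by positivity)
  linarith

/-- Proof. `BM_avg` with `B g k x y = λ tubeX φ v w g k x T`, `λ = 1/√w`, `θ = 1/√T`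
(`2θ ≤ 1`), `c = log (2T+1) + 10 + 2C`: `∫ (e^B Kp)^θ ≤ (∫ e^{2θ λ X})^{1/2} (∫ Kp^{2θ})^{1/2}
≤ e^{2 θ² λ² 5 w T} e^{θ T Λ + 2 C θ² T} = e^{10 + θTΛ + 2C}` by Cauchy–Schwarz, `tube_exp`, and
`integral_Kp_rpow` (with `b = 0`, `h' = h`, `2θ`), for each of the `2T+1` values of `y`. Then
`mul_eps_le`, `log (2T+1) ≤ 2 + log T`, and multiply by `√w`. -/
theorem closeU (hμ : EM μ) {φ : ℝ → ℝ} (hφm : Measurable φ) (hφ1 : ∀ u, |φ u| ≤ 1)
    (hφ0 : ∫ u, φ u ∂μ = 0) (h v : ℝ) :
    ∃ C : ℝ, 0 < C ∧ ∀ w T n : ℕ, 1 ≤ w → 4 ≤ T → T ≤ n →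
      ∑ k ∈ range (n - T + 1), EA μ h n (fun g s => tubeX φ v w g k (pos s k) T) ≤
        n * (C * (Real.sqrt w * Real.sqrt T * (1 + Real.log T))) := by
  have hC0 : 0 ≤ Cc μ := by
    unfold Cc
    positivity
  refine ⟨20 + 5 * Cc μ, by linarith, fun w T n hw hT hTn => ?_⟩
  have hw1 : (1 : ℝ) ≤ w := by exact_mod_cast hw
  have hT4 : (4 : ℝ) ≤ T := by exact_mod_cast hT
  have hTn' : (T : ℝ) ≤ n := by exact_mod_cast hTn
  have hsw : 0 < Real.sqrt w := Real.sqrt_pos.2 (by linarith)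
  have hsT : 0 < Real.sqrt T := Real.sqrt_pos.2 (by linarith)
  have hsw2 : Real.sqrt w ^ 2 = w := Real.sq_sqrt (by linarith)
  have hsT2 : Real.sqrt T ^ 2 = T := Real.sq_sqrt (by linarith)
  have hsT1 : 2 ≤ Real.sqrt T := by
    have : Real.sqrt 4 ≤ Real.sqrt T := Real.sqrt_le_sqrt hT4
    have h4 : Real.sqrt 4 = 2 := by
      rw [show (4 : ℝ) = 2 ^ 2 by norm_num, Real.sqrt_sq (by norm_num)]
    linarith
  set lam : ℝ := (Real.sqrt w)⁻¹ with hlam
  set θ : ℝ := (Real.sqrt T)⁻¹ with hθdef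
  have hθ : 0 < θ := inv_pos.2 hsT
  have hθ2 : 2 * θ ≤ 1 := by
    have h1 : θ * Real.sqrt T = 1 := inv_mul_cancel₀ hsT.ne'
    nlinarith
  have hθ1 : θ ≤ 1 := by linarith
  have hθT : θ ^ 2 * T = 1 := by
    rw [hθdef, inv_pow, hsT2, inv_mul_cancel₀ (by linarith)]
  have hlw : lam ^ 2 * w = 1 := by
    rw [hlam, inv_pow, hsw2, inv_mul_cancel₀ (by linarith)]
  have hlog1 : 0 ≤ Real.log (2 * T + 1) := Real.log_nonneg (by linarith)
  have hlogT : 0 ≤ Real.log T := Real.log_nonneg (by linarith)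
  have hlog2 : Real.log (2 * T + 1) ≤ 2 + Real.log T := by
    have h1 : Real.log (2 * T + 1) ≤ Real.log (Real.exp 2 * T) := by
      refine Real.log_le_log (by linarith) ?_
      have h2 : (3 : ℝ) ≤ Real.exp 2 := by
        have := Real.add_one_le_exp (2 : ℝ)
        linarith
      nlinarith
    rwa [Real.log_mul (Real.exp_pos _).ne' (by linarith), Real.log_exp] at h1
  set c : ℝ := Real.log (2 * T + 1) + (10 + 2 * Cc μ) with hc
  have hc0 : 0 ≤ c := by rw [hc]; linarith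
  have hkey := BM_avg (μ := μ) hμ (h := h) (θ := θ) hθ hθ1 (T := T) (n := n) (by omega) hTn
    (B := fun g k x _ => lam * tubeX φ v w g k x T)
    (fun k x _ => (CloseU_tube_emom hφm hφ1 v w k x T).const_mul lam)
    (fun k x _ g g' hg => by
      have := CloseU_tube_dep φ v w k x T hg
      simp only at this ⊢
      rw [this])
    (c := c) hc0
    (by
      intro k x
      have hone : ∀ y : ℤ, ∫ g, (Real.exp (lam * tubeX φ v w g k x T) * Kp g h k x T y) ^ θ
          ∂(law μ) ≤ Real.exp (θ * T * Lam μ h + (10 + 2 * Cc μ)) := by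
        intro y
        have hsplit : ∀ g : Env, (Real.exp (lam * tubeX φ v w g k x T) * Kp g h k x T y) ^ θ =
            Real.exp (θ * lam * tubeX φ v w g k x T) * Kp g h k x T y ^ θ := by
          intro g
          rw [Real.mul_rpow (Real.exp_pos _).le (Kp_nonneg _ _ _ _ _ _), ← Real.exp_mul]
          congr 2
          ring
        simp only [hsplit]
        have hsq1 : ∀ g : Env, Real.exp (θ * lam * tubeX φ v w g k x T) ^ 2 =
            Real.exp ((2 * θ * lam) * tubeX φ v w g k x T) := by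
          intro g
          rw [← Real.exp_nat_mul]
          congr 1
          push_cast
          ring
        have hsq2 : ∀ g : Env, (Kp g h k x T y ^ θ) ^ 2 = Kp g h k x T y ^ (2 * θ) := by
          intro g
          rw [← Real.rpow_natCast, ← Real.rpow_mul (Kp_nonneg _ _ _ _ _ _)]
          congr 1
          push_cast
          ring
        have hE := CloseU_tube_emom (μ := μ) hφm hφ1 v w k x T
        have hP1 : PMom (law μ) (fun g : Env => Real.exp (θ * lam * tubeX φ v w g k x T)) :=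
          hE.exp_pmom _
        have hP2 : PMom (law μ) (fun g : Env => Kp g h k x T y ^ θ) :=
          CloseU_Kp_pmom hμ h k x T y hθ.le hθ1
        have hI1 : ∫ g, Real.exp (θ * lam * tubeX φ v w g k x T) ^ 2 ∂(law μ) ≤
            Real.exp 20 := by
          simp only [hsq1]
          refine (tube_exp hφm hφ1 hφ0 v hw k x T (2 * θ * lam)).trans
            (Real.exp_le_exp.2 (le_of_eq ?_))
          calc (2 * θ * lam) ^ 2 * (5 * w * T) = 20 * (lam ^ 2 * w) * (θ ^ 2 * T) := by ring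
            _ = 20 := by rw [hlw, hθT]; ring
        have hI2 : ∫ g, (Kp g h k x T y ^ θ) ^ 2 ∂(law μ) ≤
            Real.exp (2 * (θ * T * Lam μ h) + 4 * Cc μ) := by
          simp only [hsq2]
          have h3 := integral_Kp_rpow (μ := μ) hμ h h 0 k x T y (θ := 2 * θ) (by linarith) hθ2
          simp only [Real.exp_zero, one_mul, sub_self, zero_mul, zero_add] at h3
          refine h3.trans (Real.exp_le_exp.2 (le_of_eq ?_))
          calc 2 * θ * (T * Lam μ h) + Cc μ * (2 * θ) ^ 2 * T =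
                2 * (θ * T * Lam μ h) + 4 * Cc μ * (θ ^ 2 * T) := by ring
            _ = 2 * (θ * T * Lam μ h) + 4 * Cc μ := by rw [hθT]; ring
        have h4 := CloseU_cs (P := law μ) hP1.sq_integrable hP2.sq_integrable
          (hP1.mul hP2).integrable hI1 hI2
        refine h4.trans (Real.exp_le_exp.2 (le_of_eq ?_))
        ring
      refine (Finset.sum_le_sum fun y _ => hone y).trans ?_
      rw [Finset.sum_const, nsmul_eq_mul, Int.card_Icc]
      have hcard : (((x + T + 1 - (x - T)).toNat : ℕ) : ℝ) = 2 * T + 1 := by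
        have h5 : (x + T + 1 - (x - T) : ℤ).toNat = 2 * T + 1 := by omega
        rw [h5]
        push_cast
        ring
      rw [hcard]
      have h6 : Real.exp (θ * T * Lam μ h + c) =
          (2 * T + 1) * Real.exp (θ * T * Lam μ h + (10 + 2 * Cc μ)) := by
        rw [hc, show θ * T * Lam μ h + (Real.log (2 * T + 1) + (10 + 2 * Cc μ)) =
          Real.log (2 * T + 1) + (θ * T * Lam μ h + (10 + 2 * Cc μ)) by ring, Real.exp_add,
          Real.exp_log (by linarith)]
      rw [h6])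
  simp only [EA_const_mul] at hkey
  rw [← Finset.mul_sum] at hkey
  have heps := mul_eps_le (μ := μ) (T := T) (n := n) (by omega) hTn
  have hθinv : θ⁻¹ = Real.sqrt T := by rw [hθdef, inv_inv]
  rw [hθinv] at hkey
  set S : ℝ := ∑ k ∈ range (n - T + 1), EA μ h n (fun g s => tubeX φ v w g k (pos s k) T) with hS
  have hn0 : (0 : ℝ) ≤ n := Nat.cast_nonneg n
  have h10 : lam * S ≤ n * (Real.sqrt T * ((20 + 5 * Cc μ) * (1 + Real.log T))) := by
    have h11 : Cc μ * θ ^ 2 * T = Cc μ := by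
      rw [mul_assoc, hθT, mul_one]
    rw [h11] at hkey
    have h12 : 2 * (T : ℝ) * (Real.log (2 * T + 1) + Cc μ) ≤
        n * (2 * (Real.log (2 * T + 1) + Cc μ)) := by
      have h13 : 0 ≤ Real.log (2 * T + 1) + Cc μ := by linarith
      nlinarith
    have h14 : Real.sqrt T * (n * c + 2 * T * (Real.log (2 * T + 1) + Cc μ)) ≤
        Real.sqrt T * (n * c + n * (2 * (Real.log (2 * T + 1) + Cc μ))) :=
      mul_le_mul_of_nonneg_left (by linarith) hsT.le
    have h15 : Real.sqrt T * (n * c + n * (2 * (Real.log (2 * T + 1) + Cc μ))) +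
        n * (Real.sqrt T * (Real.log (2 * T + 1) + 2 + Cc μ)) =
        n * (Real.sqrt T * (4 * Real.log (2 * T + 1) + 12 + 5 * Cc μ)) := by
      rw [hc]
      ring
    have h16 : 4 * Real.log (2 * T + 1) + 12 + 5 * Cc μ ≤
        (20 + 5 * Cc μ) * (1 + Real.log T) := by
      nlinarith [mul_nonneg hC0 hlogT]
    have h17 : n * (Real.sqrt T * (4 * Real.log (2 * T + 1) + 12 + 5 * Cc μ)) ≤
        n * (Real.sqrt T * ((20 + 5 * Cc μ) * (1 + Real.log T))) :=
      mul_le_mul_of_nonneg_left (mul_le_mul_of_nonneg_left h16 hsT.le) hn0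
    linarith
  have h18 : S = Real.sqrt w * (lam * S) := by
    rw [← mul_assoc, hlam, mul_inv_cancel₀ hsw.ne', one_mul]
  rw [h18]
  refine (mul_le_mul_of_nonneg_left h10 hsw.le).trans (le_of_eq ?_)
  ring

end

end Pool.Agent.W_7d29a1_h47
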