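import Pool.Agent.W_7d29a1_h47.Avg

/-!
# The effect of the last row
-/

namespace Pool.Agent.W_7d29a1_h47

open MeasureTheory ProbabilityTheory Finset

noncomputable section

variable {μ : Measure ℝ} [IsProbabilityMeasure μ]

/-- The averaged log partition function as a function of the last row: all rows except the row `t + n`
are taken from `g` and averaged, the row `t + n` is taken from `g'`. -/
def lastM (μ : Measure ℝ) (v : ℤ → ℝ) (t : ℕ) (x : ℤ) (n : ℕ) (g' : Env) : ℝ :=
  ∫ g : Env, Real.log (Zv (splice {p | p.1 ≠ t + n} g g') v t x (n + 1)) ∂(law μ)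

omit [IsProbabilityMeasure μ] in
lemma ConcB_alg {ι : Type*} (T : Finset ι) (u ζ : ι → ℝ) (hu : ∀ i ∈ T, 0 ≤ u i) (hU : 0 < ∑ i ∈ T, u i) :
    0 < ∑ i ∈ T, Real.exp (ζ i) * u i ∧
    Real.exp (2 * |Real.log (∑ i ∈ T, Real.exp (ζ i) * u i) - Real.log (∑ i ∈ T, u i)|) ≤
      (∑ i ∈ T, u i * Real.exp (2 * |ζ i|)) / ∑ i ∈ T, u i := by
  obtain ⟨U, hUd⟩ : ∃ U : ℝ, U = ∑ i ∈ T, u i := ⟨_, rfl⟩
  obtain ⟨D, hD⟩ : ∃ D : ℝ, D = ∑ i ∈ T, Real.exp (ζ i) * u i := ⟨_, rfl⟩
  obtain ⟨E, hE⟩ : ∃ E : ℝ, E = ∑ i ∈ T, Real.exp |ζ i| * u i := ⟨_, rfl⟩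
  obtain ⟨F, hF⟩ : ∃ F : ℝ, F = ∑ i ∈ T, u i * Real.exp (2 * |ζ i|) := ⟨_, rfl⟩
  rw [← hD, ← hUd, ← hF]
  rw [← hUd] at hU
  have hD0 : 0 ≤ D := by
    rw [hD]
    exact Finset.sum_nonneg fun i hi => mul_nonneg (Real.exp_pos _).le (hu i hi)
  have hDE : D ≤ E := by
    rw [hD, hE]
    exact Finset.sum_le_sum fun i hi => mul_le_mul_of_nonneg_right (Real.exp_le_exp.2 (le_abs_self _)) (hu i hi)
  have hUU : U ^ 2 ≤ D * E := by
    rw [hUd, hD, hE]
    apply Finset.sum_sq_le_sum_mul_sum_of_sq_le_mul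
    · intro i hi; exact mul_nonneg (Real.exp_pos _).le (hu i hi)
    · intro i hi; exact mul_nonneg (Real.exp_pos _).le (hu i hi)
    · intro i hi
      have h1 : 1 ≤ Real.exp (ζ i) * Real.exp |ζ i| := by
        rw [← Real.exp_add]
        apply Real.one_le_exp
        linarith [neg_abs_le (ζ i)]
      have h2 : 0 ≤ u i ^ 2 := sq_nonneg _
      nlinarith
  have hEE : E ^ 2 ≤ U * F := by
    rw [hUd, hE, hF]
    apply Finset.sum_sq_le_sum_mul_sum_of_sq_le_mul
    · intro i hi; exact hu i hi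
    · intro i hi; exact mul_nonneg (hu i hi) (Real.exp_pos _).le
    · intro i hi
      have h1 : Real.exp (2 * |ζ i|) = Real.exp |ζ i| ^ 2 := by
        rw [← Real.exp_nat_mul]
        push_cast
        rfl
      rw [h1]
      exact le_of_eq (by ring)
  have hDpos : 0 < D := by
    rcases hD0.lt_or_eq with h | h
    · exact h
    · rw [← h, zero_mul] at hUU
      have := pow_pos hU 2
      linarith
  have hEpos : 0 < E := lt_of_lt_of_le hDpos hDE
  refine ⟨hDpos, ?_⟩
  have hq : (E / U) ^ 2 ≤ F / U := by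
    rw [div_pow, div_le_div_iff₀ (by positivity) hU]
    nlinarith
  refine le_trans ?_ hq
  have h2 : Real.exp (2 * |Real.log D - Real.log U|) = Real.exp |Real.log D - Real.log U| ^ 2 := by
    rw [← Real.exp_nat_mul]
    push_cast
    rfl
  rw [h2]
  apply pow_le_pow_left₀ (Real.exp_pos _).le
  rcases abs_cases (Real.log D - Real.log U) with ⟨h, _⟩ | ⟨h, _⟩
  · rw [h, ← Real.log_div hDpos.ne' hU.ne', Real.exp_log (by positivity)]
    exact div_le_div_of_nonneg_right hDE hU.le
  · rw [h, neg_sub, ← Real.log_div hU.ne' hDpos.ne', Real.exp_log (by positivity),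
      div_le_div_iff₀ hDpos hU]
    nlinarith

omit [IsProbabilityMeasure μ] in
lemma ConcB_split (g g' : Env) (v : ℤ → ℝ) (t : ℕ) (x : ℤ) (n : ℕ) :
    Zv (splice {p | p.1 ≠ t + n} g g') v t x (n + 1) =
      ∑ s ∈ T (n + 1), Real.exp (g' (t + n, x + pos s (n + 1))) *
        (Real.exp (En g t x n s) * v (x + pos s (n + 1))) := by
  unfold Zv
  refine Finset.sum_congr rfl fun s _ => ?_
  have h1 : En (splice {p | p.1 ≠ t + n} g g') t x (n + 1) s =
      En g t x n s + g' (t + n, x + pos s (n + 1)) := by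
    unfold En
    rw [Finset.sum_range_succ]
    congr 1
    · refine Finset.sum_congr rfl fun i hi => ?_
      rw [Finset.mem_range] at hi
      apply splice_mem
      show t + i ≠ t + n
      omega
    · apply splice_not_mem
      intro h
      exact h rfl
  rw [h1, Real.exp_add]
  ring

/-- `lastM` has all exponential moments, and up to a constant `m₀` its exponential moment is bounded:
`∫ e^{2|lastM - m₀|} ≤ 2 Mom μ 2` with `m₀ = ∫ log Zv(splice A g 0) = lastM 0`.

Proof. With `A = {p | p.1 ≠ t+n}`,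
`Zv (splice A g g') v t x (n+1) = ∑ s ∈ T (n+1), e^{En g t x n s} e^{g'(t+n, x + pos s (n+1))} v(x+pos s (n+1))`
(`Finset.sum_range_succ`), so the quotient of `Zv (splice A g g')` and `Zv (splice A g 0)` is
`∑ s, p_s(g) e^{g'(t+n, x + pos s (n+1))}` with probability weights `p_s(g)` (sum over `T (n+1)`, some
may vanish). Hence `lastM g' - m₀ = ∫ log (∑ p_s e^{ζ_s}) dπ(g)`. By Jensen (convexity of `exp`)
`e^{±2 (lastM g' - m₀)} ≤ ∫ ∑ s p_s(g) e^{± 2 g'(t+n, ·)} dπ(g)`: first `e^{2∫f} ≤ ∫ e^{2f}`, then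
`(∑ p e^{ζ})² ≤ ∑ p e^{2ζ}`, and `(∑ p e^{ζ})^{-2} ≤ ∑ p e^{-2ζ}` (as `log ∑ p e^ζ ≥ ∑ p ζ`). Integrate
over `g'` (Fubini): `∫ e^{± 2 g'(t+n, y)} dπ(g') ≤ Mom μ 2` by `integral_coord`. Measurability of
`lastM`: `StronglyMeasurable.integral_prod_right`. All moments: `|lastM g'| ≤ ∫ V + ∑_y |g'(t+n,y)| + const`
over `|y - x| ≤ n+1`. -/
lemma last_row (hμ : EM μ) {v : ℤ → ℝ} {x : ℤ} {n : ℕ} (hv : Adm v x (n + 1)) (t : ℕ) :
    EMom (law μ) (lastM μ v t x n) ∧
      ∃ m₀ : ℝ, ∫ g', Real.exp (2 * |lastM μ v t x n g' - m₀|) ∂(law μ) ≤ 2 * Mom μ 2 := by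
  obtain ⟨u, hu⟩ : ∃ u : Env → (ℕ → Bool) → ℝ, u = fun g s => Real.exp (En g t x n s) * v (x + pos s (n + 1)) :=
    ⟨_, rfl⟩
  obtain ⟨ζ, hζ⟩ : ∃ ζ : Env → (ℕ → Bool) → ℝ, ζ = fun g' s => g' (t + n, x + pos s (n + 1)) := ⟨_, rfl⟩
  obtain ⟨U, hU⟩ : ∃ U : Env → ℝ, U = fun g => ∑ s ∈ T (n + 1), u g s := ⟨_, rfl⟩
  obtain ⟨A, hA⟩ : ∃ A : Set (ℕ × ℤ), A = {p | p.1 ≠ t + n} := ⟨_, rfl⟩
  have hu0 : ∀ g, ∀ s ∈ T (n + 1), 0 ≤ u g s := by
    intro g s _
    rw [hu]
    exact mul_nonneg (Real.exp_pos _).le (hv.1 _)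
  have hum : ∀ s, Measurable fun g => u g s := by
    intro s
    rw [hu]
    fun_prop
  have hUm : Measurable U := by
    rw [hU]
    exact Finset.measurable_sum _ fun s _ => hum s
  have hUpos : ∀ g, 0 < U g := by
    intro g
    rw [hU]
    obtain ⟨s, hs, h⟩ := hv.2
    refine Finset.sum_pos' (hu0 g) ⟨s, hs, ?_⟩
    rw [hu]
    exact mul_pos (Real.exp_pos _) h
  have hZ : ∀ g g', Zv (splice A g g') v t x (n + 1) = ∑ s ∈ T (n + 1), Real.exp (ζ g' s) * u g s := by
    intro g g'
    rw [hA, hu, hζ]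
    exact ConcB_split g g' v t x n
  -- log U has exponential moments
  have hUE : EMom (law μ) (fun g => Real.log (U g)) := by
    have hlo : ∀ g : Env, Real.exp (-V g t x n) * (∑ s ∈ T (n + 1), v (x + pos s (n + 1))) ≤ U g := by
      intro g
      rw [hU, hu, Finset.mul_sum]
      refine Finset.sum_le_sum fun s _ => mul_le_mul_of_nonneg_right ?_ (hv.1 _)
      exact Real.exp_le_exp.2 (abs_le.1 (En_abs_le g t x n s)).1
    have hup : ∀ g : Env, U g ≤ Real.exp (V g t x n) * (∑ s ∈ T (n + 1), v (x + pos s (n + 1))) := by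
      intro g
      rw [hU, hu, Finset.mul_sum]
      refine Finset.sum_le_sum fun s _ => mul_le_mul_of_nonneg_right ?_ (hv.1 _)
      exact Real.exp_le_exp.2 (abs_le.1 (En_abs_le g t x n s)).2
    set K : ℝ := ∑ s ∈ T (n + 1), v (x + pos s (n + 1)) with hK
    have hKpos : 0 < K := by
      obtain ⟨s, hs, h⟩ := hv.2
      exact Finset.sum_pos' (fun _ _ => hv.1 _) ⟨s, hs, h⟩
    refine ((EMom_V hμ t x n).add (EMom.const |Real.log K|)).mono (by fun_prop) fun g => ?_
    have h1 := Real.log_le_log (by positivity) (hlo g)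
    have h2 := Real.log_le_log (hUpos g) (hup g)
    rw [Real.log_mul (Real.exp_pos _).ne' hKpos.ne', Real.log_exp] at h1 h2
    have h3 := V_nonneg g t x n
    rw [abs_of_nonneg (add_nonneg h3 (abs_nonneg _))]
    exact abs_le.2 ⟨by linarith [neg_abs_le (Real.log K)], by linarith [le_abs_self (Real.log K)]⟩
  -- the quotient
  obtain ⟨L, hL⟩ : ∃ L : Env → Env → ℝ, L = fun g g' =>
    Real.log (Zv (splice A g g') v t x (n + 1)) - Real.log (U g) := ⟨_, rfl⟩
  have hLm : Measurable (fun w : Env × Env => L w.1 w.2) := by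
    rw [hL]
    have h1 : Measurable (fun w : Env × Env => splice A w.1 w.2) := (mp_splice (μ := μ) A).measurable
    have h2 : Measurable (fun g : Env => Real.log (Zv g v t x (n + 1))) := by fun_prop
    have h3 : Measurable (fun w : Env × Env => Real.log (U w.1)) := by fun_prop
    exact (h2.comp h1).sub h3
  have hLm' : ∀ g', Measurable fun g => L g g' := fun g' => by
    have h1 : Measurable (fun g : Env => ((g, g') : Env × Env)) := by fun_prop
    exact hLm.comp h1
  have hLe : ∀ g g', Real.exp (2 * |L g g'|) ≤ ∑ s ∈ T (n + 1), u g s / U g * Real.exp (2 * |ζ g' s|) := by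
    intro g g'
    have h1 := (ConcB_alg (T (n + 1)) (u g) (ζ g') (hu0 g) (by have := hUpos g; rwa [hU] at this)).2
    have h2 : Real.exp (2 * |L g g'|) ≤ (∑ s ∈ T (n + 1), u g s * Real.exp (2 * |ζ g' s|)) / U g := by
      rw [hL, hU]
      simp only
      rw [hZ]
      exact h1
    refine h2.trans (le_of_eq ?_)
    rw [Finset.sum_div]
    refine Finset.sum_congr rfl fun s _ => ?_
    ring
  have hp0 : ∀ g, ∀ s ∈ T (n + 1), 0 ≤ u g s / U g := fun g s hs => div_nonneg (hu0 g s hs) (hUpos g).le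
  have hp1 : ∀ g, ∑ s ∈ T (n + 1), u g s / U g = 1 := by
    intro g
    rw [← Finset.sum_div]
    have h1 : ∑ s ∈ T (n + 1), u g s = U g := by rw [hU]
    rw [h1, div_self (hUpos g).ne']
  obtain ⟨W, hW⟩ : ∃ W : Env → ℝ, W = fun g' => ∑ s ∈ T (n + 1), |ζ g' s| := ⟨_, rfl⟩
  have hW0 : ∀ g', 0 ≤ W g' := by
    intro g'
    rw [hW]
    exact Finset.sum_nonneg fun s _ => abs_nonneg _
  have hWE : EMom (law μ) W := by
    rw [hW, hζ]
    exact EMom.sum _ fun s _ => (EMom_coord hμ _).abs
  have hLW : ∀ g g', |L g g'| ≤ W g' := by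
    intro g g'
    have h1 : Real.exp (2 * |L g g'|) ≤ Real.exp (2 * W g') := by
      refine (hLe g g').trans ?_
      have h2 : ∑ s ∈ T (n + 1), u g s / U g * Real.exp (2 * |ζ g' s|) ≤
          ∑ s ∈ T (n + 1), u g s / U g * Real.exp (2 * W g') := by
        refine Finset.sum_le_sum fun s hs => mul_le_mul_of_nonneg_left ?_ (hp0 g s hs)
        apply Real.exp_le_exp.2
        have h3 : |ζ g' s| ≤ W g' := by
          rw [hW]
          exact Finset.single_le_sum (f := fun s => |ζ g' s|) (fun _ _ => abs_nonneg _) hs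
        linarith
      refine h2.trans (le_of_eq ?_)
      rw [← Finset.sum_mul, hp1, one_mul]
    have h2 := Real.exp_le_exp.1 h1
    linarith
  have hLint : ∀ g', Integrable (fun g => L g g') (law μ) := by
    intro g'
    refine (integrable_const (W g')).mono' (hLm' g').aestronglyMeasurable (Filter.Eventually.of_forall fun g => ?_)
    rw [Real.norm_eq_abs]
    exact hLW g g'
  obtain ⟨m₀, hm₀⟩ : ∃ m₀ : ℝ, m₀ = ∫ g, Real.log (U g) ∂(law μ) := ⟨_, rfl⟩
  have hlast : ∀ g', lastM μ v t x n g' - m₀ = ∫ g, L g g' ∂(law μ) := by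
    intro g'
    have h1 : lastM μ v t x n g' = ∫ g, (L g g' + Real.log (U g)) ∂(law μ) := by
      unfold lastM
      rw [← hA]
      congr 1
      funext g
      rw [hL]
      ring
    rw [h1, integral_add (hLint g') hUE.integrable, hm₀]
    ring
  have hYW : ∀ g', |lastM μ v t x n g' - m₀| ≤ W g' := by
    intro g'
    rw [hlast, ← Real.norm_eq_abs]
    refine (norm_integral_le_of_norm_le_const (C := W g') (Filter.Eventually.of_forall fun g => ?_)).trans ?_
    · rw [Real.norm_eq_abs]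
      exact hLW g g'
    · simp
  have hmeas : Measurable (lastM μ v t x n) := by
    have h1 : Measurable (fun w : Env × Env => splice A w.1 w.2) := (mp_splice (μ := μ) A).measurable
    have h2 : Measurable (fun g : Env => Real.log (Zv g v t x (n + 1))) := by fun_prop
    have h3 : Measurable (fun w : Env × Env => splice A w.2 w.1) := h1.comp measurable_swap
    have h4 : Measurable (fun w : Env × Env => Real.log (Zv (splice A w.2 w.1) v t x (n + 1))) := h2.comp h3
    have h5 := (h4.stronglyMeasurable).integral_prod_right' (ν := law μ)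
    have h6 : lastM μ v t x n = fun g' => ∫ g, Real.log (Zv (splice A g g') v t x (n + 1)) ∂(law μ) := by
      funext g'
      unfold lastM
      rw [hA]
    rw [h6]
    exact h5.measurable
  refine ⟨?_, m₀, ?_⟩
  · refine ((hWE.add (EMom.const |m₀|)).mono hmeas fun g' => ?_)
    rw [abs_of_nonneg (add_nonneg (hW0 g') (abs_nonneg _))]
    have h1 := hYW g'
    have h2 := abs_le.1 h1
    exact abs_le.2 ⟨by linarith [neg_abs_le m₀, h2.1], by linarith [le_abs_self m₀, h2.2]⟩
  · -- the exponential moment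
    obtain ⟨q, hq⟩ : ∃ q : (ℕ → Bool) → ℝ, q = fun s => ∫ g, u g s / U g ∂(law μ) := ⟨_, rfl⟩
    have hpint : ∀ s ∈ T (n + 1), Integrable (fun g => u g s / U g) (law μ) := by
      intro s hs
      refine (integrable_const (1 : ℝ)).mono' (((hum s).div hUm).aestronglyMeasurable)
        (Filter.Eventually.of_forall fun g => ?_)
      rw [Real.norm_eq_abs, abs_of_nonneg (hp0 g s hs), ← hp1 g]
      exact Finset.single_le_sum (f := fun s => u g s / U g) (fun s hs => hp0 g s hs) hs
    have hq0 : ∀ s ∈ T (n + 1), 0 ≤ q s := by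
      intro s hs
      rw [hq]
      exact integral_nonneg fun g => hp0 g s hs
    have hq1 : ∑ s ∈ T (n + 1), q s = 1 := by
      rw [hq]
      simp only
      rw [← integral_finsetSum _ hpint]
      simp only [hp1]
      simp
    have hkey : ∀ g', Real.exp (2 * |lastM μ v t x n g' - m₀|) ≤
        ∑ s ∈ T (n + 1), q s * Real.exp (2 * |ζ g' s|) := by
      intro g'
      have hI1 : Integrable (fun g => 2 * |L g g'|) (law μ) := (hLint g').abs.const_mul 2
      have hI2 : Integrable (fun g => Real.exp (2 * |L g g'|)) (law μ) := by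
        have hm : Measurable (fun g => Real.exp (2 * |L g g'|)) := by
          have := hLm' g'
          fun_prop
        refine (integrable_const (Real.exp (2 * W g'))).mono' hm.aestronglyMeasurable
          (Filter.Eventually.of_forall fun g => ?_)
        rw [Real.norm_eq_abs, abs_of_pos (Real.exp_pos _)]
        apply Real.exp_le_exp.2
        linarith [hLW g g']
      have h1 : Real.exp (∫ g, 2 * |L g g'| ∂(law μ)) ≤ ∫ g, Real.exp (2 * |L g g'|) ∂(law μ) :=
        convexOn_exp.map_integral_le Real.continuous_exp.continuousOn isClosed_univ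
          (Filter.Eventually.of_forall fun _ => Set.mem_univ _) hI1 hI2
      have h2 : 2 * |lastM μ v t x n g' - m₀| ≤ ∫ g, 2 * |L g g'| ∂(law μ) := by
        rw [hlast, integral_const_mul]
        have := norm_integral_le_integral_norm (μ := law μ) fun g => L g g'
        simp only [Real.norm_eq_abs] at this
        linarith
      refine (Real.exp_le_exp.2 h2).trans (h1.trans ?_)
      have h3 : ∫ g, Real.exp (2 * |L g g'|) ∂(law μ) ≤
          ∫ g, (∑ s ∈ T (n + 1), u g s / U g * Real.exp (2 * |ζ g' s|)) ∂(law μ) := by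
        apply integral_mono hI2 _ fun g => hLe g g'
        exact integrable_finsetSum _ fun s hs => (hpint s hs).mul_const _
      refine h3.trans (le_of_eq ?_)
      rw [integral_finsetSum _ fun s hs => (hpint s hs).mul_const _]
      refine Finset.sum_congr rfl fun s _ => ?_
      rw [integral_mul_const, hq]
    have hζint : ∀ s, Integrable (fun g' => Real.exp (2 * |ζ g' s|)) (law μ) := by
      intro s
      rw [hζ]
      exact (EMom_coord hμ _).2 2
    have hζval : ∀ s, ∫ g', Real.exp (2 * |ζ g' s|) ∂(law μ) = Mom μ 2 := by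
      intro s
      rw [hζ]
      exact integral_coord (μ := μ) (t + n, x + pos s (n + 1)) (f := fun u => Real.exp (2 * |u|)) (by fun_prop)
    have h1 : ∫ g', Real.exp (2 * |lastM μ v t x n g' - m₀|) ∂(law μ) ≤
        ∫ g', (∑ s ∈ T (n + 1), q s * Real.exp (2 * |ζ g' s|)) ∂(law μ) := by
      apply integral_mono_of_nonneg (Filter.Eventually.of_forall fun _ => (Real.exp_pos _).le)
      · exact integrable_finsetSum _ fun s _ => (hζint s).const_mul _
      · exact Filter.Eventually.of_forall hkey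
    refine h1.trans ?_
    rw [integral_finsetSum _ fun s _ => (hζint s).const_mul _]
    simp only [integral_const_mul, hζval]
    rw [← Finset.sum_mul, hq1, one_mul]
    have h2 : 0 ≤ Mom μ 2 := integral_nonneg fun _ => (Real.exp_pos _).le
    linarith

end

end Pool.Agent.W_7d29a1_h47
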