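import Pool.Agent.W_7d29a1_h47.ConcA
import Pool.Agent.W_7d29a1_h47.ConcB

/-!
# Concentration of the log partition function
-/

namespace Pool.Agent.W_7d29a1_h47

open MeasureTheory ProbabilityTheory Finset

noncomputable section

variable {μ : Measure ℝ} [IsProbabilityMeasure μ]

/-- Length zero: the partition function is the terminal weight. -/
lemma Conc_Zv_zero (g : Env) (v : ℤ → ℝ) (t : ℕ) (x : ℤ) : Zv g v t x 0 = v x := by
  simp [Zv, T_zero, En]

/-- The weights seen from the last but one row are admissible. -/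
lemma Conc_adm {v : ℤ → ℝ} {x : ℤ} {n : ℕ} (hv : Adm v x (n + 1)) (g : Env) (t : ℕ) :
    Adm (fun y => Zv g v (t + n) y 1) x n := by
  refine ⟨fun y => Zv_nonneg g hv.1 _ _ _, ?_⟩
  obtain ⟨s, hs, h⟩ := hv.2
  refine ⟨cut n s, cut_mem n s, ?_⟩
  refine Zv_pos g ?_ _
  refine ⟨hv.1, shf n s, shf_mem hs, ?_⟩
  rw [pos_cut_le le_rfl, add_assoc, ← pos_add]
  exact h

/-- Splitting off the last row. -/
lemma Conc_splice (v : ℤ → ℝ) (t : ℕ) (x : ℤ) (n : ℕ) (g g' : Env) :
    Zv (splice {p | p.1 ≠ t + n} g g') v t x (n + 1) =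
      Zv g (fun y => Zv g' v (t + n) y 1) t x n := by
  rw [Zv_split]
  have h1 : (fun y => Zv (splice {p | p.1 ≠ t + n} g g') v (t + n) y 1) =
      fun y => Zv g' v (t + n) y 1 := by
    funext y
    refine dependsOn_Zv v (t + n) y 1 fun p hp => ?_
    refine splice_not_mem _ _ ?_
    have h2 : p.1 = t + n := le_antisymm (Nat.lt_succ_iff.1 hp.2) hp.1
    simpa using h2
  rw [h1]
  refine dependsOn_Zv _ t x n fun p hp => ?_
  refine splice_mem _ _ ?_
  have h2 : p.1 < t + n := hp.2
  exact h2.ne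

/-- **Concentration.**

Proof. Induction on `n`. `n = 0`: `Zv g v t x 0 = v x` is constant, both sides are `1`.
Step: `Zv_split` with `b = 1`: `Zv g v t x (n+1) = Zv g (fun y => Zv g v (t+n) y 1) t x n` and
`fun y => Zv g v (t+n) y 1` depends on row `t+n` only, while for a fixed weight `v'` the function
`g ↦ Zv g v' t x n` depends on rows `t..t+n-1` only. With `A = {p | p.1 ≠ t+n}` use `mp_splice` and
Fubini with the integral over `g'` (which carries the last row) outside:
for fixed `g'`, `Zv (splice A g g') v t x (n+1) = Zv g v^{g'} t x n` with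
`v^{g'}(y) = Zv g' v (t+n) y 1`, and `Adm v^{g'} x n`. So with `m = lastM μ v t x n`,
`m(g') = ∫ log Zv g v^{g'} t x n dπ(g)`:
`∫ e^{θ(f - ∫f)} = ∫_{g'} e^{θ(m(g') - ∫m)} ∫_g e^{θ(log Zv g v^{g'} t x n - m(g'))}
≤ e^{C θ² n} ∫_{g'} e^{θ(m - ∫ m)}` (induction hypothesis, for each fixed `g'`) and the last factor is
`≤ e^{(2 Mom 2)² θ²} = e^{C θ²}` by `last_row` and `subgauss` applied to `ψ = m - m₀`. Integrability of
`(g, g') ↦ e^{θ(…)}`: `(EMom_logZv …).exp_pmom` composed with `mp_splice`. -/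
theorem conc (hμ : EM μ) (n : ℕ) : ∀ {v : ℤ → ℝ} {x : ℤ} (_ : Adm v x n) (t : ℕ) {θ : ℝ}
    (_ : |θ| ≤ 1),
    ∫ g, Real.exp (θ * (Real.log (Zv g v t x n) - ∫ g', Real.log (Zv g' v t x n) ∂(law μ)))
      ∂(law μ) ≤ Real.exp (Cc μ * θ ^ 2 * n) := by
  induction n with
  | zero =>
    intro v x hv t θ hθ
    simp only [Conc_Zv_zero]
    simp
  | succ n ih =>
    intro v x hv t θ hθ
    set A : Set (ℕ × ℤ) := {p | p.1 ≠ t + n} with hA
    set F : Env → ℝ := fun g => Real.log (Zv g v t x (n + 1)) with hF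
    have hFE : EMom (law μ) F := EMom_logZv hμ hv t
    set m : Env → ℝ := lastM μ v t x n with hm
    have hmdef : ∀ g', m g' = ∫ g, F (splice A g g') ∂(law μ) := fun g' => rfl
    obtain ⟨hmE, m₀, hm₀⟩ := last_row hμ hv t
    have hsp := mp_splice (μ := μ) A
    have hFs : EMom ((law μ).prod (law μ)) (fun w : Env × Env => F (splice A w.1 w.2)) :=
      hFE.comp hsp
    -- the mean
    have hmean : ∫ g, F g ∂(law μ) = ∫ g', m g' ∂(law μ) := by
      rw [← mp_integral hsp hFE.1.aestronglyMeasurable, integral_prod_symm _ hFs.integrable]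
      exact integral_congr_ae (Filter.Eventually.of_forall fun g' => rfl)
    set c : ℝ := ∫ g, F g ∂(law μ) with hc
    have hEmeas : Measurable (fun g : Env => Real.exp (θ * (F g - c))) := by
      have := hFE.1
      fun_prop
    have hEint : Integrable (fun g : Env => Real.exp (θ * (F g - c))) (law μ) :=
      (hFE.sub (EMom.const c)).integrable_exp θ
    have hEs : Integrable (fun w : Env × Env => Real.exp (θ * (F (splice A w.1 w.2) - c)))
        ((law μ).prod (law μ)) := integrable_splice A hEint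
    have h1 : ∫ g, Real.exp (θ * (F g - c)) ∂(law μ) =
        ∫ g', ∫ g, Real.exp (θ * (F (splice A g g') - c)) ∂(law μ) ∂(law μ) := by
      rw [← mp_integral hsp hEmeas.aestronglyMeasurable]
      exact integral_prod_symm _ hEs
    -- for a fixed last row
    have h2 : ∀ g' : Env, ∫ g, Real.exp (θ * (F (splice A g g') - c)) ∂(law μ) ≤
        Real.exp (θ * (m g' - c)) * Real.exp (Cc μ * θ ^ 2 * n) := by
      intro g'
      have e1 : ∀ g, F (splice A g g') = Real.log (Zv g (fun y => Zv g' v (t + n) y 1) t x n) := by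
        intro g
        simp only [hF]
        rw [Conc_splice]
      have e2 : m g' = ∫ g, Real.log (Zv g (fun y => Zv g' v (t + n) y 1) t x n) ∂(law μ) := by
        rw [hmdef]
        exact integral_congr_ae (Filter.Eventually.of_forall fun g => e1 g)
      have e3 : ∀ g, Real.exp (θ * (F (splice A g g') - c)) =
          Real.exp (θ * (m g' - c)) *
            Real.exp (θ * (Real.log (Zv g (fun y => Zv g' v (t + n) y 1) t x n) -
              ∫ g'', Real.log (Zv g'' (fun y => Zv g' v (t + n) y 1) t x n) ∂(law μ))) := by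
        intro g
        rw [← e2, ← e1, ← Real.exp_add]
        congr 1
        ring
      rw [integral_congr_ae (Filter.Eventually.of_forall e3), integral_const_mul]
      exact mul_le_mul_of_nonneg_left (ih (Conc_adm hv g' t) t hθ) (Real.exp_pos _).le
    have h3 : ∫ g, Real.exp (θ * (F g - c)) ∂(law μ) ≤
        ∫ g', Real.exp (θ * (m g' - c)) * Real.exp (Cc μ * θ ^ 2 * n) ∂(law μ) := by
      rw [h1]
      refine integral_mono hEs.integral_prod_right ?_ h2
      exact ((hmE.sub (EMom.const c)).integrable_exp θ).mul_const _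
    rw [integral_mul_const] at h3
    -- the last row
    have h4 : ∫ g', Real.exp (θ * (m g' - c)) ∂(law μ) ≤ Real.exp (Cc μ * θ ^ 2) := by
      have h5 := subgauss (P := law μ) (ψ := fun g' => m g' - m₀) (hmE.sub (EMom.const m₀)) hm₀ hθ
      have h6 : ∫ g', (m g' - m₀) ∂(law μ) = c - m₀ := by
        rw [integral_sub hmE.integrable (integrable_const _), ← hmean]
        simp
      rw [h6] at h5
      have h7 : (2 * Mom μ 2) ^ 2 = Cc μ := by unfold Cc; ring
      rw [h7] at h5
      refine le_trans (le_of_eq ?_) h5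
      refine integral_congr_ae (Filter.Eventually.of_forall fun g' => ?_)
      simp only
      congr 1
      ring
    calc ∫ g, Real.exp (θ * (F g - c)) ∂(law μ) ≤
        (∫ g', Real.exp (θ * (m g' - c)) ∂(law μ)) * Real.exp (Cc μ * θ ^ 2 * n) := h3
      _ ≤ Real.exp (Cc μ * θ ^ 2) * Real.exp (Cc μ * θ ^ 2 * n) :=
          mul_le_mul_of_nonneg_right h4 (Real.exp_pos _).le
      _ = Real.exp (Cc μ * θ ^ 2 * ((n + 1 : ℕ) : ℝ)) := by
          rw [← Real.exp_add]
          congr 1
          push_cast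
          ring

/-- Concentration for `Z`: `∫ Z^θ ≤ e^{θ a_n + C θ² n}`, also for negative `θ`.
Proof. `conc` with `v y = e^{h y}`, `Z_eq_Zv`, `integral_logZ`, `Real.rpow_def_of_pos`. -/
theorem conc_Z (hμ : EM μ) (h : ℝ) (t : ℕ) (x : ℤ) (n : ℕ) {θ : ℝ} (hθ : |θ| ≤ 1) :
    ∫ g, Z g h t x n ^ θ ∂(law μ) ≤ Real.exp (θ * a μ h n + Cc μ * θ ^ 2 * n) := by
  have hv : Adm (fun y : ℤ => Real.exp (h * y)) x n := Adm.of_pos (fun y => Real.exp_pos _) x n
  have h1 := conc hμ n hv t hθ
  have hE := EMom_logZv hμ hv t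
  have h2 : ∀ g : Env, Real.log (Z g h t x n) =
      -(h * x) + Real.log (Zv g (fun y : ℤ => Real.exp (h * y)) t x n) := by
    intro g
    rw [Z_eq_Zv, Real.log_mul (Real.exp_pos _).ne' (Zv_pos g hv t).ne', Real.log_exp]
  have h3 : a μ h n = -(h * x) +
      ∫ g, Real.log (Zv g (fun y : ℤ => Real.exp (h * y)) t x n) ∂(law μ) := by
    rw [← integral_logZ h t x n, integral_congr_ae (Filter.Eventually.of_forall h2),
      integral_add (integrable_const _) hE.integrable]
    simp
  have h4 : ∀ g : Env, Z g h t x n ^ θ = Real.exp (θ * a μ h n) *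
      Real.exp (θ * (Real.log (Zv g (fun y : ℤ => Real.exp (h * y)) t x n) -
        ∫ g', Real.log (Zv g' (fun y : ℤ => Real.exp (h * y)) t x n) ∂(law μ))) := by
    intro g
    rw [Real.rpow_def_of_pos (Z_pos _ _ _ _ _), ← Real.exp_add, h2 g, h3]
    congr 1
    ring
  rw [integral_congr_ae (Filter.Eventually.of_forall h4), integral_const_mul, Real.exp_add]
  exact mul_le_mul_of_nonneg_left h1 (Real.exp_pos _).le

/-- `y` can be reached from `x` in `n` steps. -/
def Reach (x : ℤ) (n : ℕ) (y : ℤ) : Prop := ∃ s ∈ T n, x + pos s n = y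

open Classical in
lemma Conc_Zp_eq (g : Env) (t : ℕ) (x : ℤ) (n : ℕ) (y : ℤ) :
    Zp g t x n y = Zv g (fun z => if z = y then 1 else 0) t x n := by
  unfold Zp Zv
  refine Finset.sum_congr rfl fun s _ => ?_
  simp only
  split_ifs <;> simp

open Classical in
lemma Conc_adm_point {x : ℤ} {n : ℕ} {y : ℤ} (hy : Reach x n y) :
    Adm (fun z => if z = y then (1 : ℝ) else 0) x n := by
  obtain ⟨s, hs, h⟩ := hy
  refine ⟨fun z => ?_, s, hs, ?_⟩
  · simp only
    split_ifs <;> norm_num
  · simp only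
    rw [if_pos h]
    norm_num

/-- Concentration for the point-to-point partition function. Proof. `conc` with
`v = fun z => if z = y then 1 else 0`; then `Zv g v t x n = Zp g t x n y`. -/
theorem conc_Zp (hμ : EM μ) {x : ℤ} {n : ℕ} {y : ℤ} (hy : Reach x n y) (t : ℕ) {θ : ℝ}
    (hθ : |θ| ≤ 1) :
    ∫ g, Real.exp (θ * (Real.log (Zp g t x n y) - ∫ g', Real.log (Zp g' t x n y) ∂(law μ)))
      ∂(law μ) ≤ Real.exp (Cc μ * θ ^ 2 * n) := by
  simp only [Conc_Zp_eq]
  exact conc hμ n (Conc_adm_point hy) t hθ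

/-- Proof. As `conc_Zp`. -/
lemma EMom_logZp (hμ : EM μ) {x : ℤ} {n : ℕ} {y : ℤ} (hy : Reach x n y) (t : ℕ) :
    EMom (law μ) (fun g : Env => Real.log (Zp g t x n y)) := by
  simp only [Conc_Zp_eq]
  exact EMom_logZv hμ (Conc_adm_point hy) t

lemma Zp_pos (g : Env) {x : ℤ} {n : ℕ} {y : ℤ} (hy : Reach x n y) (t : ℕ) : 0 < Zp g t x n y := by
  obtain ⟨s, hs, h⟩ := hy
  unfold Zp
  refine Finset.sum_pos' (fun r _ => ?_) ⟨s, hs, ?_⟩
  · split_ifs
    · exact (Real.exp_pos _).le
    · exact le_rfl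
  · rw [if_pos h]; exact Real.exp_pos _

/-- Mean absolute deviation. Proof. `conc_Zp` with `θ = ± 1/√n`, `abs_dev_le`; `n = 0` trivial. -/
lemma dev_Zp (hμ : EM μ) {x : ℤ} {n : ℕ} {y : ℤ} (hy : Reach x n y) (t : ℕ) :
    ∫ g, |Real.log (Zp g t x n y) - ∫ g', Real.log (Zp g' t x n y) ∂(law μ)| ∂(law μ) ≤
      (1 + Cc μ) * Real.sqrt n := by
  rcases Nat.eq_zero_or_pos n with rfl | hn
  · simp only [Conc_Zp_eq, Conc_Zv_zero]
    simp
  · have hn' : (0 : ℝ) < n := by exact_mod_cast hn
    have hn1 : (1 : ℝ) ≤ n := by exact_mod_cast hn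
    have hs : 0 < Real.sqrt n := Real.sqrt_pos.2 hn'
    have hs1 : 1 ≤ Real.sqrt n := by
      rw [show (1 : ℝ) = Real.sqrt 1 by simp]
      exact Real.sqrt_le_sqrt hn1
    have hsq : Real.sqrt n * Real.sqrt n = n := Real.mul_self_sqrt hn'.le
    set θ : ℝ := (Real.sqrt n)⁻¹ with hθdef
    have hθ : 0 < θ := inv_pos.2 hs
    have hθ1 : |θ| ≤ 1 := by
      rw [abs_of_pos hθ]
      exact inv_le_one_of_one_le₀ hs1
    have h1 := conc_Zp hμ hy t hθ1
    have h2 := conc_Zp (μ := μ) hμ hy t (θ := -θ) (by rw [abs_neg]; exact hθ1)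
    have h3 := abs_dev_le (EMom_logZp hμ hy t) (C := Cc μ * n) hθ
      (by refine h1.trans (le_of_eq ?_); congr 1; ring)
      (by refine h2.trans (le_of_eq ?_); congr 1; ring)
    refine h3.trans ?_
    have h4 : Real.log 2 / θ = Real.log 2 * Real.sqrt n := by
      rw [hθdef, div_inv_eq_mul]
    have h5 : Cc μ * n * θ = Cc μ * Real.sqrt n := by
      have h6 : (n : ℝ) * (Real.sqrt n)⁻¹ = Real.sqrt n := by
        rw [← div_eq_mul_inv, div_eq_iff hs.ne', hsq]
      rw [hθdef, mul_assoc, h6]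
    rw [h4, h5, add_mul]
    have h6 : Real.log 2 ≤ 1 := by
      have := Real.log_two_lt_d9
      linarith
    have := mul_le_mul_of_nonneg_right h6 hs.le
    linarith

end

end Pool.Agent.W_7d29a1_h47
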