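import Pool.Agent.W_7d29a1_h47.Avg

/-!
# Sub-Gaussian bound from exponential moments
-/

namespace Pool.Agent.W_7d29a1_h47

open MeasureTheory ProbabilityTheory Finset

noncomputable section

lemma ConcA_sq (t : ℝ) : t ^ 2 ≤ Real.exp |t| := by
  have h1 := Real.quadratic_le_exp_of_nonneg (x := |t| / 2) (by positivity)
  have h2 : |t| ≤ Real.exp (|t| / 2) := by nlinarith [sq_nonneg (|t| - 2)]
  have h3 : Real.exp |t| = Real.exp (|t| / 2) ^ 2 := by
    rw [← Real.exp_nat_mul]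
    congr 1
    push_cast
    ring
  rw [h3, ← sq_abs]
  exact pow_le_pow_left₀ (abs_nonneg _) h2 2

lemma ConcA_exp (x : ℝ) : Real.exp x ≤ 1 + x + x ^ 2 * Real.exp |x| := by
  have h1 := Complex.norm_exp_sub_sum_le_norm_mul_exp (x : ℂ) 2
  rw [Finset.sum_range_succ, Finset.sum_range_one] at h1
  simp only [pow_zero, Nat.factorial_zero, Nat.cast_one, div_one, pow_one, Nat.factorial_one] at h1
  have h2 : Complex.exp (x : ℂ) - (1 + (x : ℂ)) = ((Real.exp x - (1 + x) : ℝ) : ℂ) := by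
    push_cast
    ring
  rw [h2, Complex.norm_real, Complex.norm_real, Real.norm_eq_abs, Real.norm_eq_abs, sq_abs] at h1
  have h3 := le_abs_self (Real.exp x - (1 + x))
  linarith

lemma ConcA_tan (c x : ℝ) : Real.exp c * (1 + x - c) ≤ Real.exp x := by
  have h1 := Real.add_one_le_exp (x - c)
  have h2 : Real.exp x = Real.exp c * Real.exp (x - c) := by
    rw [← Real.exp_add]
    congr 1
    ring
  rw [h2]
  refine mul_le_mul_of_nonneg_left ?_ (Real.exp_pos _).le
  linarith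

/-- If `∫ e^{2|ψ|} ≤ K` then `∫ e^{θ (ψ - ∫ψ)} ≤ e^{K² θ²}` for `|θ| ≤ 1`.

Proof. Put `Y = ψ - ∫ ψ`. From `e^x ≤ 1 + x + x² e^{|x|} / 2` (power series) with `x = θ Y`,
`|θ| ≤ 1`, and `Y² ≤ 2 e^{|Y|}` one gets `e^{θ Y} ≤ 1 + θ Y + θ² e^{2|Y|}`. Integrate: `∫ Y = 0`,
`∫ e^{2|Y|} ≤ e^{2 |∫ψ|} ∫ e^{2|ψ|}` and `e^{2|∫ψ|} ≤ e^{2∫|ψ|} ≤ ∫ e^{2|ψ|}` (Jensen, e.g.
`e^{c} (1 + 2|ψ| - c) ≤ e^{2|ψ|}` with `c = 2∫|ψ|`, integrated). So `∫ e^{θY} ≤ 1 + θ² K² ≤ e^{K²θ²}`.
-/
lemma subgauss {Ω : Type*} [MeasurableSpace Ω] {P : Measure Ω} [IsProbabilityMeasure P] {ψ : Ω → ℝ}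
    (hψ : EMom P ψ) {K : ℝ} (hK : ∫ w, Real.exp (2 * |ψ w|) ∂P ≤ K) {θ : ℝ} (hθ : |θ| ≤ 1) :
    ∫ w, Real.exp (θ * (ψ w - ∫ w', ψ w' ∂P)) ∂P ≤ Real.exp (K ^ 2 * θ ^ 2) := by
  set m : ℝ := ∫ w', ψ w' ∂P with hm
  have hY : EMom P (fun w => ψ w - m) := hψ.sub (EMom.const m)
  have hYi : Integrable (fun w => ψ w - m) P := hY.integrable
  have hY2 := hY.2 2
  have hψ2 := hψ.2 2
  have hψa : Integrable (fun w => |ψ w|) P := hψ.integrable.abs
  have hK0 : 0 ≤ K := (integral_nonneg fun w => (Real.exp_pos _).le).trans hK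
  have h1 : ∀ w, Real.exp (θ * (ψ w - m)) ≤
      1 + θ * (ψ w - m) + θ ^ 2 * Real.exp (2 * |ψ w - m|) := by
    intro w
    set y := ψ w - m with hy
    refine (ConcA_exp (θ * y)).trans ?_
    have h2 : |θ * y| ≤ |y| := by
      rw [abs_mul]
      exact mul_le_of_le_one_left (abs_nonneg _) hθ
    have h3 := ConcA_sq y
    have h4 : Real.exp (2 * |y|) = Real.exp |y| * Real.exp |y| := by
      rw [← Real.exp_add]
      congr 1
      ring
    have h5 : (θ * y) ^ 2 * Real.exp |θ * y| ≤ θ ^ 2 * Real.exp (2 * |y|) := by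
      rw [mul_pow, mul_assoc, h4]
      refine mul_le_mul_of_nonneg_left ?_ (sq_nonneg _)
      exact mul_le_mul h3 (Real.exp_le_exp.2 h2) (Real.exp_pos _).le (Real.exp_pos _).le
    linarith
  have hm2 : Real.exp (2 * |m|) ≤ K := by
    have h6 : ∀ w, Real.exp (2 * |m|) * (1 + 2 * |ψ w| - 2 * |m|) ≤ Real.exp (2 * |ψ w|) :=
      fun w => ConcA_tan _ _
    have h7 : Integrable (fun w => Real.exp (2 * |m|) * (1 + 2 * |ψ w| - 2 * |m|)) P :=
      ((((integrable_const (1 : ℝ)).add (hψa.const_mul 2)).sub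
        (integrable_const (2 * |m|))).const_mul _)
    have h8 := integral_mono h7 hψ2 h6
    have h9 : ∫ w, Real.exp (2 * |m|) * (1 + 2 * |ψ w| - 2 * |m|) ∂P =
        Real.exp (2 * |m|) * (1 + 2 * (∫ w, |ψ w| ∂P) - 2 * |m|) := by
      have a1 : Integrable (fun w => 1 + 2 * |ψ w|) P :=
        (integrable_const (1 : ℝ)).add (hψa.const_mul 2)
      rw [integral_const_mul, integral_sub a1 (integrable_const _),
        integral_add (integrable_const _) (hψa.const_mul 2), integral_const_mul]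
      simp
    rw [h9] at h8
    have h10 : |m| ≤ ∫ w, |ψ w| ∂P := abs_integral_le_integral_abs
    have h11 : Real.exp (2 * |m|) * 1 ≤
        Real.exp (2 * |m|) * (1 + 2 * (∫ w, |ψ w| ∂P) - 2 * |m|) :=
      mul_le_mul_of_nonneg_left (by linarith) (Real.exp_pos _).le
    linarith
  have hY3 : ∫ w, Real.exp (2 * |ψ w - m|) ∂P ≤ K ^ 2 := by
    have h12 : ∀ w, Real.exp (2 * |ψ w - m|) ≤ Real.exp (2 * |m|) * Real.exp (2 * |ψ w|) := by
      intro w
      rw [← Real.exp_add]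
      refine Real.exp_le_exp.2 ?_
      have := abs_sub (ψ w) m
      linarith
    have h13 := integral_mono hY2 (hψ2.const_mul _) h12
    rw [integral_const_mul] at h13
    have h14 : Real.exp (2 * |m|) * ∫ w, Real.exp (2 * |ψ w|) ∂P ≤ K * K :=
      mul_le_mul hm2 hK (integral_nonneg fun w => (Real.exp_pos _).le) hK0
    rw [sq]
    exact h13.trans h14
  have h15 : Integrable (fun w => 1 + θ * (ψ w - m) + θ ^ 2 * Real.exp (2 * |ψ w - m|)) P :=
    ((integrable_const (1 : ℝ)).add (hYi.const_mul θ)).add (hY2.const_mul _)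
  have h16 := integral_mono (hY.integrable_exp θ) h15 h1
  have h17 : ∫ w, (1 + θ * (ψ w - m) + θ ^ 2 * Real.exp (2 * |ψ w - m|)) ∂P =
      1 + θ ^ 2 * ∫ w, Real.exp (2 * |ψ w - m|) ∂P := by
    have a1 : Integrable (fun w => 1 + θ * (ψ w - m)) P :=
      (integrable_const (1 : ℝ)).add (hYi.const_mul θ)
    have a2 : Integrable (fun w => θ ^ 2 * Real.exp (2 * |ψ w - m|)) P := hY2.const_mul _
    rw [integral_add a1 a2,
      integral_add (integrable_const _) (hYi.const_mul θ), integral_const_mul, integral_const_mul,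
      integral_sub hψ.integrable (integrable_const _)]
    simp [hm]
  rw [h17] at h16
  have h18 := mul_le_mul_of_nonneg_left hY3 (sq_nonneg θ)
  have h19 := Real.add_one_le_exp (K ^ 2 * θ ^ 2)
  refine h16.trans ?_
  linarith

/-- Sub-Gaussian bounds give `∫ |X - EX| ≤ (log 2)/θ + C θ`. Used with `θ = 1/√n`.
Proof. Jensen: `θ ∫|X - m| ≤ log ∫ e^{θ|X-m|} ≤ log (∫ e^{θ(X-m)} + ∫ e^{-θ(X-m)}) ≤ log (2 e^{C θ²})`. -/
lemma abs_dev_le {Ω : Type*} [MeasurableSpace Ω] {P : Measure Ω} [IsProbabilityMeasure P] {X : Ω → ℝ}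
    (hX : EMom P X) {C θ : ℝ} (hθ : 0 < θ)
    (h1 : ∫ w, Real.exp (θ * (X w - ∫ w', X w' ∂P)) ∂P ≤ Real.exp (C * θ ^ 2))
    (h2 : ∫ w, Real.exp (-θ * (X w - ∫ w', X w' ∂P)) ∂P ≤ Real.exp (C * θ ^ 2)) :
    ∫ w, |X w - ∫ w', X w' ∂P| ∂P ≤ Real.log 2 / θ + C * θ := by
  set m : ℝ := ∫ w', X w' ∂P with hm
  have hY : EMom P (fun w => X w - m) := hX.sub (EMom.const m)
  have hYa : Integrable (fun w => |X w - m|) P := hY.integrable.abs
  have i1 : Integrable (fun w => Real.exp (θ * (X w - m))) P := hY.integrable_exp θ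
  have i2 : Integrable (fun w => Real.exp (-θ * (X w - m))) P := hY.integrable_exp (-θ)
  set s : ℝ := Real.log 2 + C * θ ^ 2 with hs
  have hes : Real.exp s = 2 * Real.exp (C * θ ^ 2) := by
    rw [hs, Real.exp_add, Real.exp_log two_pos]
  have h3 : ∀ w, Real.exp s * (1 + θ * |X w - m| - s) ≤
      Real.exp (θ * (X w - m)) + Real.exp (-θ * (X w - m)) := by
    intro w
    refine (ConcA_tan s (θ * |X w - m|)).trans ?_
    have p1 := Real.exp_pos (θ * (X w - m))
    have p2 := Real.exp_pos (-θ * (X w - m))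
    rcases abs_cases (X w - m) with ⟨h, _⟩ | ⟨h, _⟩
    · rw [h]
      linarith
    · rw [h]
      have h4 : θ * -(X w - m) = -θ * (X w - m) := by ring
      rw [h4]
      linarith
  have h5 : Integrable (fun w => Real.exp s * (1 + θ * |X w - m| - s)) P :=
    ((((integrable_const (1 : ℝ)).add (hYa.const_mul θ)).sub (integrable_const s)).const_mul _)
  have h6 := integral_mono h5 (i1.add i2) h3
  have h7 : ∫ w, Real.exp s * (1 + θ * |X w - m| - s) ∂P =
      Real.exp s * (1 + θ * (∫ w, |X w - m| ∂P) - s) := by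
    have a1 : Integrable (fun w => 1 + θ * |X w - m|) P :=
      (integrable_const (1 : ℝ)).add (hYa.const_mul θ)
    rw [integral_const_mul, integral_sub a1 (integrable_const _),
      integral_add (integrable_const _) (hYa.const_mul θ), integral_const_mul]
    simp
  have h8 : ∫ w, ((fun w => Real.exp (θ * (X w - m))) + fun w => Real.exp (-θ * (X w - m))) w ∂P =
      ∫ w, Real.exp (θ * (X w - m)) ∂P + ∫ w, Real.exp (-θ * (X w - m)) ∂P := integral_add i1 i2
  rw [h7, h8] at h6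
  have h9 : Real.exp s * (1 + θ * (∫ w, |X w - m| ∂P) - s) ≤ Real.exp s * 1 := by
    rw [mul_one]
    linarith
  have h10 := le_of_mul_le_mul_left h9 (Real.exp_pos s)
  have h11 : Real.log 2 / θ + C * θ = s / θ := by
    rw [hs]
    field_simp
  rw [h11, le_div_iff₀ hθ]
  linarith

end

end Pool.Agent.W_7d29a1_h47
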