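import Pool.Agent.W_7d29a1_h47.Block

/-!
# The block lemma for residue classes and averaged over starting times
-/

namespace Pool.Agent.W_7d29a1_h47

open MeasureTheory ProbabilityTheory Finset

noncomputable section

variable {μ : Measure ℝ} [IsProbabilityMeasure μ]

lemma DriftA_reindex {T n : ℕ} (hT : 1 ≤ T) (hTn : T ≤ n) (f : ℕ → ℝ) :
    ∑ k ∈ range (n - T + 1), f k = ∑ r ∈ range T, ∑ i ∈ range ((n - r) / T), f (r + i * T) := by
  rw [← Finset.sum_fiberwise_of_maps_to (s := range (n - T + 1)) (t := range T)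
    (g := fun k => k % T) (fun k _ => Finset.mem_range.2 (Nat.mod_lt _ hT))]
  refine Finset.sum_congr rfl fun r hr => ?_
  have hr' := Finset.mem_range.1 hr
  refine Finset.sum_nbij' (fun k => k / T) (fun i => r + i * T) ?_ ?_ ?_ ?_ ?_
  · intro k hk
    obtain ⟨hk1, hk2⟩ := Finset.mem_filter.1 hk
    have hk1 := Finset.mem_range.1 hk1
    have h1 : T * (k / T) + k % T = k := Nat.div_add_mod k T
    rw [hk2] at h1
    refine Finset.mem_range.2 ((Nat.le_div_iff_mul_le hT).2 ?_)
    show (k / T + 1) * T ≤ n - r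
    rw [add_mul, one_mul, mul_comm (k / T) T]
    omega
  · intro i hi
    have hi' := Finset.mem_range.1 hi
    have h1 : (i + 1) * T ≤ n - r := (Nat.le_div_iff_mul_le hT).1 hi'
    rw [add_mul, one_mul] at h1
    refine Finset.mem_filter.2 ⟨Finset.mem_range.2 (by omega), ?_⟩
    show (r + i * T) % T = r
    rw [Nat.add_mul_mod_self_right, Nat.mod_eq_of_lt hr']
  · intro k hk
    obtain ⟨hk1, hk2⟩ := Finset.mem_filter.1 hk
    show r + k / T * T = k
    have h1 : T * (k / T) + k % T = k := Nat.div_add_mod k T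
    rw [hk2] at h1
    rw [mul_comm, add_comm]
    exact h1
  · intro i hi
    show (r + i * T) / T = i
    rw [Nat.add_mul_div_right _ _ hT, Nat.div_eq_of_lt hr', zero_add]
  · intro k hk
    obtain ⟨hk1, hk2⟩ := Finset.mem_filter.1 hk
    have h1 : T * (k / T) + k % T = k := Nat.div_add_mod k T
    rw [hk2] at h1
    show f k = f (r + k / T * T)
    congr 1
    rw [mul_comm, add_comm]
    exact h1.symm

/-- The times of the partition of `[0, n]` into blocks of lengths `r, T, T, …, T, rest`, where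
`M` is the number of full blocks: `0, r, r+T, …, r+MT, n`, constant `n` afterwards. -/
def tms (r T M n : ℕ) (j : ℕ) : ℕ := if j = 0 then 0 else if j ≤ M + 1 then r + (j - 1) * T else n

lemma tms_zero (r T M n : ℕ) : tms r T M n 0 = 0 := by simp [tms]

lemma tms_full (r T M n : ℕ) {j : ℕ} (hj : j ≤ M) : tms r T M n (j + 1) = r + j * T := by
  simp [tms, hj]

lemma tms_last (r T M n : ℕ) : tms r T M n (M + 2) = n := by simp [tms]

/-- Block lemma for one residue class: bonuses only on the full blocks, all of length `T`, and a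
uniform bound `e^{c}` for their kernels. Proof. `BM` with the `M + 2` blocks `tms r T M n`; for the
first block (length `r ≤ T`) and the last block (length `< T`) use `integral_Kp_rpow` with `h' = h`,
`b = 0`: `c ≤ log (2T+1) + θ ℓ Λ(h) + C θ² T` with `ℓ` the length (`ℓ` cannot be bounded by `T` in
the term `ℓ Λ(h)`). For the full blocks the hypothesis reads `c_j = θ T Λ(h) + c`. Altogether
`∑_j c_j = θ n Λ(h) + M c + 2 (log (2T+1) + C θ² T)`, and `n Λ(h) - a_n ≤ eps n` by `rate`. -/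
theorem BM_class (hμ : EM μ) {h θ : ℝ} (hθ : 0 < θ) (hθ1 : θ ≤ 1) {r T M n : ℕ} (hT : 1 ≤ T)
    (hr : r ≤ T) (hM : r + M * T ≤ n) (hM' : n ≤ r + M * T + T) {B : Env → ℕ → ℤ → ℤ → ℝ}
    (hB : ∀ k x y, EMom (law μ) fun g => B g k x y)
    (hBd : ∀ k x y, DependsOn (fun g => B g k x y) (rows k (k + T))) {c : ℝ}
    (hc : ∀ (k : ℕ) (x : ℤ), ∑ y ∈ Icc (x - T) (x + T),
      ∫ g, (Real.exp (B g k x y) * Kp g h k x T y) ^ θ ∂(law μ) ≤
        Real.exp (θ * T * Lam μ h + c)) :
    ∑ i ∈ range M, EA μ h n (fun g s => B g (r + i * T) (pos s (r + i * T)) (pos s (r + i * T + T))) ≤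
      θ⁻¹ * (M * c + 2 * (Real.log (2 * T + 1) + Cc μ * θ ^ 2 * T)) + eps μ n := by
  classical
  have hCc : 0 ≤ Cc μ := by
    unfold Cc
    positivity
  have hT0 : (0 : ℝ) ≤ T := Nat.cast_nonneg T
  set t : ℕ → ℕ := tms r T M n with ht
  have t0 : t 0 = 0 := tms_zero r T M n
  have tf : ∀ {j : ℕ}, j ≤ M → t (j + 1) = r + j * T := fun hj => tms_full r T M n hj
  have tl : t (M + 2) = n := tms_last r T M n
  -- the bonuses
  set B' : ℕ → Env → ℤ → ℤ → ℝ := fun i g x y =>
    if 1 ≤ i ∧ i ≤ M then B g (r + (i - 1) * T) x y else 0 with hB'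
  -- the constants
  set L : ℝ := Real.log (2 * T + 1) + Cc μ * θ ^ 2 * T with hL
  set c' : ℕ → ℝ := fun i =>
    if 1 ≤ i ∧ i ≤ M then θ * T * Lam μ h + c else θ * ((t (i + 1) - t i : ℕ) : ℝ) * Lam μ h + L
    with hc'
  have hlen : ∀ i < M + 2, ¬ (1 ≤ i ∧ i ≤ M) → t (i + 1) - t i ≤ T := by
    intro i hi hn
    rcases Nat.eq_zero_or_pos i with h0 | h0
    · subst h0
      rw [t0, tf (Nat.zero_le M)]
      omega
    · have h1 : i = M + 1 := by omega
      subst h1
      rw [tl, tf le_rfl]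
      omega
  have hmono : ∀ i < M + 2, t i ≤ t (i + 1) := by
    intro i hi
    rcases Nat.eq_zero_or_pos i with h0 | h0
    · subst h0
      rw [t0]
      exact Nat.zero_le _
    · obtain ⟨j, rfl⟩ : ∃ j, i = j + 1 := ⟨i - 1, by omega⟩
      rcases Nat.lt_or_ge j M with h1 | h1
      · rw [tf h1.le, tf (show j + 1 ≤ M by omega), add_mul]
        omega
      · have h2 : j = M := by omega
        subst h2
        rw [tl, tf le_rfl]
        exact hM
  have hmain := BM hμ (h := h) hθ hθ1 (M := M + 2) (n := n) (t := t) t0 tl hmono (B := B')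
    (by
      intro i hi x y
      by_cases h1 : 1 ≤ i ∧ i ≤ M
      · simp only [hB', if_pos h1]
        exact hB _ x y
      · simp only [hB', if_neg h1]
        exact EMom.const 0)
    (by
      intro i hi x y
      by_cases h1 : 1 ≤ i ∧ i ≤ M
      · obtain ⟨j, rfl⟩ : ∃ j, i = j + 1 := ⟨i - 1, by omega⟩
        simp only [hB', if_pos h1, Nat.add_sub_cancel]
        have h2 := hBd (r + j * T) x y
        rw [tf (show j ≤ M by omega), tf (show j + 1 ≤ M by omega)]
        have h3 : r + (j + 1) * T = r + j * T + T := by ring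
        rw [h3]
        exact h2
      · simp only [hB', if_neg h1]
        intro g g' _
        rfl)
    (c := c')
    (by
      intro i hi x
      by_cases h1 : 1 ≤ i ∧ i ≤ M
      · obtain ⟨j, rfl⟩ : ∃ j, i = j + 1 := ⟨i - 1, by omega⟩
        simp only [hB', hc', if_pos h1, Nat.add_sub_cancel]
        have h3 : r + (j + 1) * T - (r + j * T) = T := by
          rw [add_mul]
          omega
        rw [tf (show j ≤ M by omega), tf (show j + 1 ≤ M by omega), h3]
        exact hc (r + j * T) x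
      · simp only [hB', hc', if_neg h1]
        have h2 := hlen i hi h1
        generalize hℓ : t (i + 1) - t i = ℓ at h2 ⊢
        have h3 : ∀ y ∈ Icc (x - (ℓ : ℤ)) (x + (ℓ : ℤ)),
            ∫ g, (Real.exp 0 * Kp g h (t i) x ℓ y) ^ θ ∂(law μ) ≤
              Real.exp (θ * ℓ * Lam μ h + Cc μ * θ ^ 2 * ℓ) := by
          intro y _
          refine (integral_Kp_rpow hμ h h 0 (t i) x ℓ y hθ hθ1).trans (le_of_eq ?_)
          congr 1
          ring
        refine (Finset.sum_le_card_nsmul _ _ _ h3).trans ?_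
        rw [Int.card_Icc, nsmul_eq_mul]
        have h4 : (((x + (ℓ : ℤ) + 1 - (x - (ℓ : ℤ))).toNat : ℕ) : ℝ) = 2 * ℓ + 1 := by
          have h5 : x + (ℓ : ℤ) + 1 - (x - (ℓ : ℤ)) = ((2 * ℓ + 1 : ℕ) : ℤ) := by
            push_cast
            ring
          rw [h5, Int.toNat_natCast]
          push_cast
          ring
        have hℓT : (ℓ : ℝ) ≤ T := by exact_mod_cast h2
        have hℓ0 : (0 : ℝ) ≤ ℓ := Nat.cast_nonneg ℓ
        rw [h4, ← Real.exp_log (show (0 : ℝ) < 2 * ℓ + 1 by positivity), ← Real.exp_add]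
        refine Real.exp_le_exp.2 ?_
        have h6 : Real.log (2 * ℓ + 1) ≤ Real.log (2 * T + 1) :=
          Real.log_le_log (by positivity) (by linarith)
        have h7 : Cc μ * θ ^ 2 * ℓ ≤ Cc μ * θ ^ 2 * T :=
          mul_le_mul_of_nonneg_left hℓT (by positivity)
        rw [hL]
        linarith)
  have hEA0 : EA μ h n (fun _ _ => (0 : ℝ)) = 0 := EA_const 0
  rw [Finset.sum_range_succ, Finset.sum_range_succ', Finset.sum_range_succ,
    Finset.sum_range_succ'] at hmain
  have e1 : EA μ h n (fun g s => B' (M + 1) g (pos s (t (M + 1))) (pos s (t (M + 1 + 1)))) = 0 := by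
    simp only [hB', if_neg (show ¬ (1 ≤ M + 1 ∧ M + 1 ≤ M) by omega)]
    exact hEA0
  have e2 : EA μ h n (fun g s => B' 0 g (pos s (t 0)) (pos s (t (0 + 1)))) = 0 := by
    simp only [hB', if_neg (show ¬ (1 ≤ 0 ∧ 0 ≤ M) by omega)]
    exact hEA0
  have e3 : ∑ i ∈ range M, EA μ h n (fun g s => B' (i + 1) g (pos s (t (i + 1)))
      (pos s (t (i + 1 + 1)))) =
      ∑ i ∈ range M, EA μ h n (fun g s => B g (r + i * T) (pos s (r + i * T))
        (pos s (r + i * T + T))) := by
    refine Finset.sum_congr rfl fun i hi => ?_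
    have hi' := Finset.mem_range.1 hi
    rw [tf (show i ≤ M by omega), tf (show i + 1 ≤ M by omega)]
    have h3 : r + (i + 1) * T = r + i * T + T := by ring
    rw [h3]
    simp only [hB', if_pos (show 1 ≤ i + 1 ∧ i + 1 ≤ M by omega), Nat.add_sub_cancel]
  have e4 : c' (M + 1) = θ * ((n : ℝ) - (r + M * T)) * Lam μ h + L := by
    simp only [hc', if_neg (show ¬ (1 ≤ M + 1 ∧ M + 1 ≤ M) by omega)]
    rw [show M + 1 + 1 = M + 2 by ring, tl, tf le_rfl, Nat.cast_sub hM]
    push_cast
    ring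
  have e5 : c' 0 = θ * r * Lam μ h + L := by
    simp only [hc', if_neg (show ¬ (1 ≤ 0 ∧ 0 ≤ M) by omega)]
    rw [tf (Nat.zero_le M), t0]
    simp
  have e6 : ∑ i ∈ range M, c' (i + 1) = M * (θ * T * Lam μ h + c) := by
    rw [Finset.sum_congr rfl (fun i hi => ?_), Finset.sum_const, Finset.card_range, nsmul_eq_mul]
    have hi' := Finset.mem_range.1 hi
    simp only [hc', if_pos (show 1 ≤ i + 1 ∧ i + 1 ≤ M by omega)]
  rw [e1, e2, e3, e4, e5, e6, add_zero, add_zero] at hmain
  refine hmain.trans ?_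
  have hrate := rate hμ h n
  have e7 : θ⁻¹ * (M * (θ * T * Lam μ h + c) + (θ * r * Lam μ h + L) +
      (θ * ((n : ℝ) - (r + M * T)) * Lam μ h + L)) = θ⁻¹ * (M * c + 2 * L) + n * Lam μ h := by
    field_simp
    ring
  rw [e7]
  linarith

/-- Summation over the residue classes: average over all starting times. Proof. Sum `BM_class` over
`r ∈ range T` with `M = (n - r) / T`; the times `r + i T`, `r < T`, `i < M` are exactly the
`k ∈ range (n - T + 1)` (`k + T ≤ n`), `k = r + iT`, `i = k / T`, `r = k % T`. `∑_r M ≤ n`, and the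
remaining terms give `2 T θ⁻¹(log (2T+1) + Cθ²T) + T eps n`. -/
theorem BM_avg (hμ : EM μ) {h θ : ℝ} (hθ : 0 < θ) (hθ1 : θ ≤ 1) {T n : ℕ} (hT : 1 ≤ T)
    (hTn : T ≤ n) {B : Env → ℕ → ℤ → ℤ → ℝ}
    (hB : ∀ k x y, EMom (law μ) fun g => B g k x y)
    (hBd : ∀ k x y, DependsOn (fun g => B g k x y) (rows k (k + T))) {c : ℝ} (hc0 : 0 ≤ c)
    (hc : ∀ (k : ℕ) (x : ℤ), ∑ y ∈ Icc (x - T) (x + T),
      ∫ g, (Real.exp (B g k x y) * Kp g h k x T y) ^ θ ∂(law μ) ≤
        Real.exp (θ * T * Lam μ h + c)) :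
    ∑ k ∈ range (n - T + 1), EA μ h n (fun g s => B g k (pos s k) (pos s (k + T))) ≤
      θ⁻¹ * (n * c + 2 * T * (Real.log (2 * T + 1) + Cc μ * θ ^ 2 * T)) + T * eps μ n := by
  have h1 : ∑ k ∈ range (n - T + 1), EA μ h n (fun g s => B g k (pos s k) (pos s (k + T))) =
      ∑ r ∈ range T, ∑ i ∈ range ((n - r) / T),
        EA μ h n (fun g s => B g (r + i * T) (pos s (r + i * T)) (pos s (r + i * T + T))) :=
    DriftA_reindex hT hTn fun k => EA μ h n (fun g s => B g k (pos s k) (pos s (k + T)))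
  have h2 : ∑ r ∈ range T, (((n - r) / T : ℕ) : ℝ) ≤ n := by
    have h3 := DriftA_reindex hT hTn (fun _ => (1 : ℝ))
    simp only [Finset.sum_const, Finset.card_range, nsmul_eq_mul, mul_one] at h3
    rw [← h3]
    exact_mod_cast (by omega : n - T + 1 ≤ n)
  rw [h1]
  have h4 : ∀ r ∈ range T, ∑ i ∈ range ((n - r) / T),
      EA μ h n (fun g s => B g (r + i * T) (pos s (r + i * T)) (pos s (r + i * T + T))) ≤
        θ⁻¹ * ((((n - r) / T : ℕ) : ℝ) * c + 2 * (Real.log (2 * T + 1) + Cc μ * θ ^ 2 * T)) +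
          eps μ n := by
    intro r hr
    have hr' := Finset.mem_range.1 hr
    have h5 : (n - r) / T * T ≤ n - r := Nat.div_mul_le_self _ _
    have h6 : n - r < (n - r) / T * T + T := by
      have := Nat.lt_div_mul_add (a := n - r) (b := T) (by omega)
      omega
    exact BM_class hμ hθ hθ1 hT hr'.le (by omega) (by omega) hB hBd hc
  refine (Finset.sum_le_sum h4).trans ?_
  rw [Finset.sum_add_distrib, ← Finset.mul_sum, Finset.sum_add_distrib, ← Finset.sum_mul,
    Finset.sum_const, Finset.sum_const, Finset.card_range, nsmul_eq_mul, nsmul_eq_mul]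
  have h7 : (∑ r ∈ range T, (((n - r) / T : ℕ) : ℝ)) * c ≤ n * c :=
    mul_le_mul_of_nonneg_right h2 hc0
  have h8 : θ⁻¹ * ((∑ r ∈ range T, (((n - r) / T : ℕ) : ℝ)) * c +
      T * (2 * (Real.log (2 * T + 1) + Cc μ * θ ^ 2 * T))) ≤
      θ⁻¹ * (n * c + 2 * T * (Real.log (2 * T + 1) + Cc μ * θ ^ 2 * T)) := by
    refine mul_le_mul_of_nonneg_left ?_ (inv_nonneg.2 hθ.le)
    have h9 : (T : ℝ) * (2 * (Real.log (2 * T + 1) + Cc μ * θ ^ 2 * T)) =
      2 * T * (Real.log (2 * T + 1) + Cc μ * θ ^ 2 * T) := by ring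
    rw [h9]
    linarith
  linarith

end

end Pool.Agent.W_7d29a1_h47
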