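import Pool.Agent.W_7d29a1_h47.Path

/-!
# Measure theory for the environment
-/

namespace Pool.Agent.W_7d29a1_h47

open MeasureTheory ProbabilityTheory Finset

noncomputable section

variable {μ : Measure ℝ} [IsProbabilityMeasure μ]

/-! ### Changes of variables -/

omit [IsProbabilityMeasure μ] in
lemma mp_integral {Ω Ω' : Type*} [MeasurableSpace Ω] [MeasurableSpace Ω'] {P : Measure Ω}
    {P' : Measure Ω'} {f : Ω' → Ω} (hf : MeasurePreserving f P' P) {F : Ω → ℝ}
    (hF : AEStronglyMeasurable F P) : ∫ w, F (f w) ∂P' = ∫ w, F w ∂P := by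
  have h : AEStronglyMeasurable F (Measure.map f P') := by rw [hf.map_eq]; exact hF
  rw [← integral_map hf.measurable.aemeasurable h, hf.map_eq]

/-- Reindexing the sites by an injective map preserves the law. -/
lemma mp_reindex {f : ℕ × ℤ → ℕ × ℤ} (hf : Function.Injective f) :
    MeasurePreserving (fun g : Env => fun p => g (f p)) (law μ) (law μ) :=
  ⟨by fun_prop, Measure.map_infinitePi_infinitePi_of_inj (P := fun _ : ℕ × ℤ => μ) hf⟩

lemma map_elim :
    ((law μ).prod (law μ)).map (fun (w : Env × Env) (p : (ℕ × ℤ) ⊕ (ℕ × ℤ)) => Sum.elim w.1 w.2 p)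
      = Measure.infinitePi fun _ : (ℕ × ℤ) ⊕ (ℕ × ℤ) => μ := by
  classical
  apply Measure.eq_infinitePi
  intro s t ht
  have hm : Measurable (fun (w : Env × Env) (p : (ℕ × ℤ) ⊕ (ℕ × ℤ)) => Sum.elim w.1 w.2 p) := by
    refine measurable_pi_iff.2 fun p => ?_
    cases p with
    | inl p => simp only [Sum.elim_inl]; fun_prop
    | inr p => simp only [Sum.elim_inr]; fun_prop
  rw [Measure.map_apply hm (.pi s.countable_toSet fun i _ => ht i)]
  have h1 : (fun (w : Env × Env) (p : (ℕ × ℤ) ⊕ (ℕ × ℤ)) => Sum.elim w.1 w.2 p) ⁻¹'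
      (Set.pi (s : Set _) t) =
      (Set.pi (s.toLeft : Set _) fun p => t (Sum.inl p)) ×ˢ
        (Set.pi (s.toRight : Set _) fun p => t (Sum.inr p)) := by
    ext w
    simp only [Set.mem_preimage, Set.mem_pi, Finset.mem_coe, Set.mem_prod, Finset.mem_toLeft,
      Finset.mem_toRight]
    constructor
    · intro h
      exact ⟨fun p hp => h _ hp, fun p hp => h _ hp⟩
    · rintro ⟨h, h'⟩ p hp
      cases p with
      | inl p => exact h p hp
      | inr p => exact h' p hp
  rw [h1, Measure.prod_prod, Measure.infinitePi_pi _ (fun i _ => ht _),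
    Measure.infinitePi_pi _ (fun i _ => ht _)]
  conv_rhs => rw [← Finset.toLeft_disjSum_toRight (u := s)]
  rw [Finset.prod_disjSum]

/-- General change of variables: every site of the new environment is an own site of one of two
independent environments. -/
lemma mp_elim {σ : ℕ × ℤ → (ℕ × ℤ) ⊕ (ℕ × ℤ)} (hσ : Function.Injective σ) :
    MeasurePreserving (fun w : Env × Env => fun p => Sum.elim w.1 w.2 (σ p))
      ((law μ).prod (law μ)) (law μ) := by
  have h1 : Measurable (fun (w : Env × Env) (p : (ℕ × ℤ) ⊕ (ℕ × ℤ)) => Sum.elim w.1 w.2 p) := by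
    refine measurable_pi_iff.2 fun p => ?_
    cases p with
    | inl p => simp only [Sum.elim_inl]; fun_prop
    | inr p => simp only [Sum.elim_inr]; fun_prop
  have h2 := Measure.map_infinitePi_infinitePi_of_inj
    (P := fun _ : (ℕ × ℤ) ⊕ (ℕ × ℤ) => μ) hσ
  refine ⟨measurable_pi_iff.2 fun p => (measurable_pi_apply (σ p)).comp h1, ?_⟩
  refine Eq.trans ?_ h2
  rw [← map_elim, Measure.map_map (by fun_prop) h1]
  rfl

open Classical in
/-- The environment which is `g` on `A` and `g'` off `A`. -/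
def splice (A : Set (ℕ × ℤ)) (g g' : Env) : Env := fun p => if p ∈ A then g p else g' p

lemma splice_mem {A : Set (ℕ × ℤ)} (g g' : Env) {p : ℕ × ℤ} (hp : p ∈ A) :
    splice A g g' p = g p := by simp [splice, hp]

lemma splice_not_mem {A : Set (ℕ × ℤ)} (g g' : Env) {p : ℕ × ℤ} (hp : p ∉ A) :
    splice A g g' p = g' p := by simp [splice, hp]

lemma mp_splice (A : Set (ℕ × ℤ)) :
    MeasurePreserving (fun w : Env × Env => splice A w.1 w.2) ((law μ).prod (law μ)) (law μ) := by
  classical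
  have hσ : Function.Injective
      (fun p : ℕ × ℤ => if p ∈ A then (Sum.inl p : (ℕ × ℤ) ⊕ (ℕ × ℤ)) else Sum.inr p) := by
    intro p q h
    simp only at h
    split_ifs at h <;> simp_all
  have h := mp_elim (μ := μ) hσ
  convert h using 3 with w p
  unfold splice
  split_ifs <;> rfl

/-- Independence: functions of disjoint sets of sites. -/
lemma integral_mul_indep (A : Set (ℕ × ℤ)) {F G : Env → ℝ} (hF : Measurable F) (hG : Measurable G)
    (hFA : DependsOn F A) (hGA : DependsOn G Aᶜ) :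
    ∫ g, F g * G g ∂(law μ) = (∫ g, F g ∂(law μ)) * ∫ g, G g ∂(law μ) := by
  rw [← integral_prod_mul,
    ← mp_integral (mp_splice (μ := μ) A) (F := fun g => F g * G g)
      (hF.mul hG).aestronglyMeasurable]
  refine integral_congr_ae (Filter.Eventually.of_forall fun w => ?_)
  simp only
  congr 1
  · exact hFA fun p hp => splice_mem _ _ hp
  · exact hGA fun p hp => splice_not_mem _ _ hp

/-- Conditioning: integrate first over the sites off `A`. -/
lemma integral_splice (A : Set (ℕ × ℤ)) {F : Env → ℝ} (hF : Integrable F (law μ)) :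
    ∫ g, F g ∂(law μ) = ∫ g, ∫ g', F (splice A g g') ∂(law μ) ∂(law μ) := by
  have h1 := mp_splice (μ := μ) A
  have h2 : Integrable (fun w : Env × Env => F (splice A w.1 w.2)) ((law μ).prod (law μ)) :=
    h1.integrable_comp_of_integrable hF
  rw [← integral_prod (fun w : Env × Env => F (splice A w.1 w.2)) h2]
  exact (mp_integral h1 hF.aestronglyMeasurable).symm

lemma integrable_splice (A : Set (ℕ × ℤ)) {F : Env → ℝ} (hF : Integrable F (law μ)) :
    Integrable (fun w : Env × Env => F (splice A w.1 w.2)) ((law μ).prod (law μ)) :=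
  (mp_splice (μ := μ) A).integrable_comp_of_integrable hF

/-- The law of one site. -/
lemma mp_coord (p : ℕ × ℤ) : MeasurePreserving (fun g : Env => g p) (law μ) μ :=
  measurePreserving_eval_infinitePi (fun _ : ℕ × ℤ => μ) p

lemma integral_coord (p : ℕ × ℤ) {f : ℝ → ℝ} (hf : Measurable f) :
    ∫ g : Env, f (g p) ∂(law μ) = ∫ u, f u ∂μ := by
  exact mp_integral (mp_coord (μ := μ) p) hf.aestronglyMeasurable

open Classical in
/-- Resampling one site preserves the law. -/
lemma mp_update (p : ℕ × ℤ) :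
    MeasurePreserving (fun w : Env × ℝ => Function.update w.1 p w.2) ((law μ).prod μ) (law μ) := by
  have h1 := mp_splice (μ := μ) {p}ᶜ
  have h2 : MeasurePreserving (fun w : Env × Env => (w.1, w.2 p)) ((law μ).prod (law μ))
      ((law μ).prod μ) := (MeasurePreserving.id _).prod (mp_coord p)
  have hm : Measurable (fun w : Env × ℝ => Function.update w.1 p w.2) := by
    refine measurable_pi_iff.2 fun q => ?_
    by_cases hq : q = p
    · subst hq
      simp only [Function.update_self]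
      exact measurable_snd
    · simp only [Function.update_of_ne hq]
      fun_prop
  refine ⟨hm, ?_⟩
  rw [← h2.map_eq, Measure.map_map hm h2.measurable]
  refine Eq.trans ?_ h1.map_eq
  congr 1
  funext w q
  by_cases hq : q = p
  · subst hq
    simp [splice]
  · have : q ∈ ({p}ᶜ : Set (ℕ × ℤ)) := hq
    rw [splice_mem _ _ this]
    simp [Function.update_of_ne hq]

lemma integral_update (p : ℕ × ℤ) {F : Env → ℝ} (hF : Integrable F (law μ)) :
    ∫ g, F g ∂(law μ) = ∫ g, ∫ u, F (Function.update g p u) ∂μ ∂(law μ) := by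
  classical
  have h1 := mp_update (μ := μ) p
  have h2 : Integrable (fun w : Env × ℝ => F (Function.update w.1 p w.2)) ((law μ).prod μ) :=
    h1.integrable_comp_of_integrable hF
  rw [← integral_prod (fun w : Env × ℝ => F (Function.update w.1 p w.2)) h2]
  exact (mp_integral h1 hF.aestronglyMeasurable).symm

/-! ### Functions with all exponential or polynomial moments -/

section Moments

variable {Ω : Type*} [MeasurableSpace Ω] {P : Measure Ω}

/-- Measurable functions with all exponential moments. -/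
def EMom (P : Measure Ω) (F : Ω → ℝ) : Prop :=
  Measurable F ∧ ∀ b : ℝ, Integrable (fun w => Real.exp (b * |F w|)) P

/-- Measurable functions with all polynomial moments. -/
def PMom (P : Measure Ω) (F : Ω → ℝ) : Prop :=
  Measurable F ∧ ∀ q : ℕ, Integrable (fun w => |F w| ^ q) P

lemma EMom.measurable {F : Ω → ℝ} (h : EMom P F) : Measurable F := h.1

lemma PMom.measurable {F : Ω → ℝ} (h : PMom P F) : Measurable F := h.1

lemma EMom.mono {F G : Ω → ℝ} (hG : EMom P G) (hF : Measurable F) (hFG : ∀ w, |F w| ≤ |G w|) :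
    EMom P F := by
  refine ⟨hF, fun b => ?_⟩
  refine (hG.2 |b|).mono' (by fun_prop) (Filter.Eventually.of_forall fun w => ?_)
  rw [Real.norm_eq_abs, abs_of_pos (Real.exp_pos _)]
  refine Real.exp_le_exp.2 ?_
  calc b * |F w| ≤ |b| * |F w| := mul_le_mul_of_nonneg_right (le_abs_self b) (abs_nonneg _)
    _ ≤ |b| * |G w| := mul_le_mul_of_nonneg_left (hFG w) (abs_nonneg _)

lemma PMom.mono {F G : Ω → ℝ} (hG : PMom P G) (hF : Measurable F) (hFG : ∀ w, |F w| ≤ |G w|) :
    PMom P F := by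
  refine ⟨hF, fun q => ?_⟩
  refine (hG.2 q).mono' (by fun_prop) (Filter.Eventually.of_forall fun w => ?_)
  rw [Real.norm_eq_abs, abs_of_nonneg (by positivity)]
  exact pow_le_pow_left₀ (abs_nonneg _) (hFG w) q

lemma EMom.const [IsFiniteMeasure P] (c : ℝ) : EMom P (fun _ : Ω => c) :=
  ⟨measurable_const, fun _ => integrable_const _⟩

lemma PMom.const [IsFiniteMeasure P] (c : ℝ) : PMom P (fun _ : Ω => c) :=
  ⟨measurable_const, fun _ => integrable_const _⟩

lemma PMom.of_bounded [IsFiniteMeasure P] {F : Ω → ℝ} (hF : Measurable F) {c : ℝ}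
    (h : ∀ w, |F w| ≤ c) : PMom P F :=
  (PMom.const c).mono hF fun w => (h w).trans (le_abs_self c)

lemma EMom.of_bounded [IsFiniteMeasure P] {F : Ω → ℝ} (hF : Measurable F) {c : ℝ}
    (h : ∀ w, |F w| ≤ c) : EMom P F :=
  (EMom.const c).mono hF fun w => (h w).trans (le_abs_self c)

lemma EMom.abs {F : Ω → ℝ} (h : EMom P F) : EMom P (fun w => |F w|) :=
  h.mono (by have := h.1; fun_prop) fun w => by simp

lemma PMom.abs {F : Ω → ℝ} (h : PMom P F) : PMom P (fun w => |F w|) :=
  h.mono (by have := h.1; fun_prop) fun w => by simp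

lemma EMom.neg {F : Ω → ℝ} (h : EMom P F) : EMom P (fun w => - F w) :=
  h.mono (by have := h.1; fun_prop) fun w => by simp

lemma PMom.neg {F : Ω → ℝ} (h : PMom P F) : PMom P (fun w => - F w) :=
  h.mono (by have := h.1; fun_prop) fun w => by simp

lemma EMom.const_mul {F : Ω → ℝ} (h : EMom P F) (c : ℝ) : EMom P (fun w => c * F w) := by
  refine ⟨by have := h.1; fun_prop, fun b => ?_⟩
  convert h.2 (b * |c|) using 3
  rw [abs_mul]
  ring

lemma EMom.add {F G : Ω → ℝ} (hF : EMom P F) (hG : EMom P G) : EMom P (fun w => F w + G w) := by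
  have hF1 := hF.1
  have hG1 := hG.1
  refine ⟨by fun_prop, fun b => ?_⟩
  refine (((hF.2 (2 * |b|)).add (hG.2 (2 * |b|)))).mono' (by fun_prop)
    (Filter.Eventually.of_forall fun w => ?_)
  rw [Real.norm_eq_abs, abs_of_pos (Real.exp_pos _)]
  simp only [Pi.add_apply]
  have h1 : b * |F w + G w| ≤ |b| * |F w| + |b| * |G w| := by
    calc b * |F w + G w| ≤ |b| * |F w + G w| :=
          mul_le_mul_of_nonneg_right (le_abs_self b) (abs_nonneg _)
      _ ≤ |b| * (|F w| + |G w|) := mul_le_mul_of_nonneg_left (abs_add_le _ _) (abs_nonneg _)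
      _ = _ := by ring
  have h2 : Real.exp (|b| * |F w| + |b| * |G w|) ≤
      Real.exp (2 * |b| * |F w|) + Real.exp (2 * |b| * |G w|) := by
    rw [Real.exp_add]
    have e1 : Real.exp (2 * |b| * |F w|) = Real.exp (|b| * |F w|) ^ 2 := by
      rw [← Real.exp_nat_mul]; push_cast; ring_nf
    have e2 : Real.exp (2 * |b| * |G w|) = Real.exp (|b| * |G w|) ^ 2 := by
      rw [← Real.exp_nat_mul]; push_cast; ring_nf
    rw [e1, e2]
    nlinarith [sq_nonneg (Real.exp (|b| * |F w|) - Real.exp (|b| * |G w|)),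
      sq_nonneg (Real.exp (|b| * |F w|)), sq_nonneg (Real.exp (|b| * |G w|))]
  exact (Real.exp_le_exp.2 h1).trans h2

lemma EMom.sub {F G : Ω → ℝ} (hF : EMom P F) (hG : EMom P G) : EMom P (fun w => F w - G w) := by
  simpa [sub_eq_add_neg] using hF.add hG.neg

lemma EMom.sum [IsFiniteMeasure P] {ι : Type*} (I : Finset ι) {F : ι → Ω → ℝ}
    (h : ∀ i ∈ I, EMom P (F i)) : EMom P (fun w => ∑ i ∈ I, F i w) := by
  classical
  induction I using Finset.induction_on with
  | empty => simpa using EMom.const (P := P) 0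
  | insert i I hi ih =>
    simp only [Finset.sum_insert hi]
    exact (h i (Finset.mem_insert_self i I)).add
      (ih fun j hj => h j (Finset.mem_insert_of_mem hj))

lemma EMom.exp_pmom {F : Ω → ℝ} (h : EMom P F) (c : ℝ) : PMom P (fun w => Real.exp (c * F w)) := by
  have hm := h.1
  refine ⟨by fun_prop, fun q => ?_⟩
  refine (h.2 (q * |c|)).mono' (by fun_prop) (Filter.Eventually.of_forall fun w => ?_)
  rw [Real.norm_eq_abs, abs_of_nonneg (by positivity), abs_of_pos (Real.exp_pos _),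
    ← Real.exp_nat_mul]
  refine Real.exp_le_exp.2 ?_
  rw [mul_assoc, ← abs_mul]
  exact mul_le_mul_of_nonneg_left (le_abs_self _) (Nat.cast_nonneg q)

lemma EMom.exp' {F : Ω → ℝ} (h : EMom P F) : PMom P (fun w => Real.exp (F w)) := by
  simpa using h.exp_pmom 1

lemma EMom.pmom {F : Ω → ℝ} (h : EMom P F) : PMom P F := by
  have h1 : PMom P (fun w => Real.exp (1 * |F w|)) := h.abs.exp_pmom 1
  refine h1.mono h.1 fun w => ?_
  rw [one_mul, abs_of_pos (Real.exp_pos _)]
  linarith [Real.add_one_le_exp |F w|]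

lemma PMom.add {F G : Ω → ℝ} (hF : PMom P F) (hG : PMom P G) : PMom P (fun w => F w + G w) := by
  have hF1 := hF.1
  have hG1 := hG.1
  refine ⟨by fun_prop, fun q => ?_⟩
  refine ((((hF.2 q).add (hG.2 q))).const_mul (2 ^ q)).mono' (by fun_prop)
    (Filter.Eventually.of_forall fun w => ?_)
  rw [Real.norm_eq_abs, abs_of_nonneg (by positivity)]
  simp only [Pi.add_apply]
  have h1 : |F w + G w| ≤ 2 * max |F w| |G w| := by
    have := abs_add_le (F w) (G w)
    have := le_max_left |F w| |G w|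
    have := le_max_right |F w| |G w|
    linarith
  calc |F w + G w| ^ q ≤ (2 * max |F w| |G w|) ^ q := pow_le_pow_left₀ (abs_nonneg _) h1 q
    _ = 2 ^ q * (max |F w| |G w|) ^ q := mul_pow _ _ _
    _ ≤ 2 ^ q * (|F w| ^ q + |G w| ^ q) := by
        refine mul_le_mul_of_nonneg_left ?_ (by positivity)
        rcases max_cases |F w| |G w| with ⟨h, _⟩ | ⟨h, _⟩ <;> rw [h]
        · linarith [pow_nonneg (abs_nonneg (G w)) q]
        · linarith [pow_nonneg (abs_nonneg (F w)) q]

lemma PMom.sub {F G : Ω → ℝ} (hF : PMom P F) (hG : PMom P G) : PMom P (fun w => F w - G w) := by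
  simpa [sub_eq_add_neg] using hF.add hG.neg

lemma PMom.mul {F G : Ω → ℝ} (hF : PMom P F) (hG : PMom P G) : PMom P (fun w => F w * G w) := by
  have hF1 := hF.1
  have hG1 := hG.1
  refine ⟨by fun_prop, fun q => ?_⟩
  refine ((hF.2 (2 * q)).add (hG.2 (2 * q))).mono' (by fun_prop)
    (Filter.Eventually.of_forall fun w => ?_)
  rw [Real.norm_eq_abs, abs_of_nonneg (by positivity)]
  simp only [Pi.add_apply]
  rw [abs_mul, mul_pow, pow_mul', pow_mul']
  nlinarith [sq_nonneg (|F w| ^ q - |G w| ^ q), sq_nonneg (|F w| ^ q), sq_nonneg (|G w| ^ q)]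

lemma PMom.const_mul [IsFiniteMeasure P] {F : Ω → ℝ} (h : PMom P F) (c : ℝ) :
    PMom P (fun w => c * F w) := (PMom.const c).mul h

lemma PMom.sum [IsFiniteMeasure P] {ι : Type*} (I : Finset ι) {F : ι → Ω → ℝ}
    (h : ∀ i ∈ I, PMom P (F i)) : PMom P (fun w => ∑ i ∈ I, F i w) := by
  classical
  induction I using Finset.induction_on with
  | empty => simpa using PMom.const (P := P) 0
  | insert i I hi ih =>
    simp only [Finset.sum_insert hi]
    exact (h i (Finset.mem_insert_self i I)).add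
      (ih fun j hj => h j (Finset.mem_insert_of_mem hj))

lemma PMom.integrable {F : Ω → ℝ} (h : PMom P F) : Integrable F P := by
  have h1 := h.2 1
  simp only [pow_one] at h1
  exact (integrable_norm_iff h.1.aestronglyMeasurable).1 h1

lemma PMom.sq_integrable {F : Ω → ℝ} (h : PMom P F) : Integrable (fun w => F w ^ 2) P := by
  simpa [sq_abs] using h.2 2

lemma EMom.integrable {F : Ω → ℝ} (h : EMom P F) : Integrable F P := h.pmom.integrable

lemma EMom.integrable_exp {F : Ω → ℝ} (h : EMom P F) (c : ℝ) :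
    Integrable (fun w => Real.exp (c * F w)) P := (h.exp_pmom c).integrable

lemma EMom.comp {Ω' : Type*} [MeasurableSpace Ω'] {P' : Measure Ω'} {F : Ω → ℝ} (h : EMom P F)
    {f : Ω' → Ω} (hf : MeasurePreserving f P' P) : EMom P' (fun w => F (f w)) :=
  ⟨h.1.comp hf.measurable, fun b => hf.integrable_comp_of_integrable (h.2 b)⟩

lemma PMom.comp {Ω' : Type*} [MeasurableSpace Ω'] {P' : Measure Ω'} {F : Ω → ℝ} (h : PMom P F)
    {f : Ω' → Ω} (hf : MeasurePreserving f P' P) : PMom P' (fun w => F (f w)) :=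
  ⟨h.1.comp hf.measurable, fun q => hf.integrable_comp_of_integrable (h.2 q)⟩

end Moments

/-! ### The basic random variables -/

variable (hμ : EM μ)

include hμ

lemma EMom_coord (p : ℕ × ℤ) : EMom (law μ) (fun g : Env => g p) :=
  ⟨by fun_prop, fun b => (mp_coord (μ := μ) p).integrable_comp_of_integrable (hμ b)⟩

lemma EMom_En (t : ℕ) (x : ℤ) (n : ℕ) (s : ℕ → Bool) :
    EMom (law μ) (fun g : Env => En g t x n s) := EMom.sum _ fun _ _ => EMom_coord hμ _

lemma EMom_V (t : ℕ) (x : ℤ) (n : ℕ) : EMom (law μ) (fun g : Env => V g t x n) :=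
  EMom.sum _ fun _ _ => EMom.sum _ fun _ _ => (EMom_coord hμ _).abs

omit hμ in
@[fun_prop]
lemma measurable_En (t : ℕ) (x : ℤ) (n : ℕ) (s : ℕ → Bool) :
    Measurable (fun g : Env => En g t x n s) := by unfold En; fun_prop

omit hμ in
@[fun_prop]
lemma measurable_wt (h : ℝ) (t : ℕ) (x : ℤ) (n : ℕ) (s : ℕ → Bool) :
    Measurable (fun g : Env => wt g h t x n s) := by unfold wt; fun_prop

omit hμ in
@[fun_prop]
lemma measurable_Z (h : ℝ) (t : ℕ) (x : ℤ) (n : ℕ) :
    Measurable (fun g : Env => Z g h t x n) := by unfold Z; fun_prop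

omit hμ in
@[fun_prop]
lemma measurable_Zv (v : ℤ → ℝ) (t : ℕ) (x : ℤ) (n : ℕ) :
    Measurable (fun g : Env => Zv g v t x n) := by unfold Zv; fun_prop

omit hμ in
@[fun_prop]
lemma measurable_Zp (t : ℕ) (x : ℤ) (n : ℕ) (y : ℤ) :
    Measurable (fun g : Env => Zp g t x n y) := by
  unfold Zp
  refine Finset.measurable_sum _ fun _ _ => ?_
  split_ifs
  · fun_prop
  · fun_prop

omit hμ in
@[fun_prop]
lemma measurable_V (t : ℕ) (x : ℤ) (n : ℕ) :
    Measurable (fun g : Env => V g t x n) := by unfold V; fun_prop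

omit hμ in
lemma measurable_Av {h : ℝ} {t : ℕ} {x : ℤ} {n : ℕ} {F : Env → (ℕ → Bool) → ℝ}
    (hF : ∀ s ∈ T n, Measurable fun g => F g s) : Measurable (fun g : Env => Av g h t x n (F g)) := by
  unfold Av
  refine Measurable.div ?_ (measurable_Z h t x n)
  exact Finset.measurable_sum _ fun s hs => (measurable_wt h t x n s).mul (hF s hs)

lemma EMom_logZ (h : ℝ) (t : ℕ) (x : ℤ) (n : ℕ) :
    EMom (law μ) (fun g : Env => Real.log (Z g h t x n)) := by
  refine ((EMom_V hμ t x n).add (EMom.const ((|h| + Real.log 2) * n))).mono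
    (by fun_prop) fun g => ?_
  exact (abs_log_Z_le g h t x n).trans (le_abs_self _)

lemma EMom_logwt (h : ℝ) (t : ℕ) (x : ℤ) (n : ℕ) (s : ℕ → Bool) :
    EMom (law μ) (fun g : Env => Real.log (wt g h t x n s)) := by
  have : (fun g : Env => Real.log (wt g h t x n s)) =
      fun g => En g t x n s + h * (pos s n : ℝ) := by
    funext g; unfold wt; rw [Real.log_exp]
  rw [this]
  exact (EMom_En hμ t x n s).add (EMom.const _)

lemma PMom_wt (h : ℝ) (t : ℕ) (x : ℤ) (n : ℕ) (s : ℕ → Bool) :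
    PMom (law μ) (fun g : Env => wt g h t x n s) :=
  ((EMom_En hμ t x n s).add (EMom.const (h * (pos s n : ℝ)))).exp'

lemma PMom_Z (h : ℝ) (t : ℕ) (x : ℤ) (n : ℕ) : PMom (law μ) (fun g : Env => Z g h t x n) :=
  PMom.sum _ fun s _ => PMom_wt hμ h t x n s

lemma PMom_Z_rpow (h : ℝ) (t : ℕ) (x : ℤ) (n : ℕ) (θ : ℝ) :
    PMom (law μ) (fun g : Env => Z g h t x n ^ θ) := by
  have : (fun g : Env => Z g h t x n ^ θ) = fun g => Real.exp (θ * Real.log (Z g h t x n)) := by
    funext g
    rw [Real.rpow_def_of_pos (Z_pos _ _ _ _ _), mul_comm]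
  rw [this]
  exact (EMom_logZ hμ h t x n).exp_pmom θ

lemma PMom_Zp (t : ℕ) (x : ℤ) (n : ℕ) (y : ℤ) : PMom (law μ) (fun g : Env => Zp g t x n y) := by
  refine (PMom_Z hμ 0 t x n).mono (by fun_prop) fun g => ?_
  rw [abs_of_nonneg (Zp_nonneg _ _ _ _ _), abs_of_pos (Z_pos _ _ _ _ _)]
  simpa using Zp_le g 0 t x n y

omit hμ in
lemma abs_Av_le_sum {g : Env} {h : ℝ} {t : ℕ} {x : ℤ} {n : ℕ} (F : (ℕ → Bool) → ℝ) :
    |Av g h t x n F| ≤ ∑ s ∈ T n, |F s| :=
  Av_abs_le fun _ hs => Finset.single_le_sum (f := fun s => |F s|) (fun _ _ => abs_nonneg _) hs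

omit hμ in
lemma EMom_Av {h : ℝ} {t : ℕ} {x : ℤ} {n : ℕ} {F : Env → (ℕ → Bool) → ℝ}
    (hF : ∀ s ∈ T n, EMom (law μ) fun g => F g s) :
    EMom (law μ) (fun g : Env => Av g h t x n (F g)) := by
  refine (EMom.sum (T n) fun s hs => (hF s hs).abs).mono (measurable_Av fun s hs => (hF s hs).1)
    fun g => (abs_Av_le_sum (F g)).trans (le_abs_self _)

omit hμ in
lemma PMom_Av {h : ℝ} {t : ℕ} {x : ℤ} {n : ℕ} {F : Env → (ℕ → Bool) → ℝ}
    (hF : ∀ s ∈ T n, PMom (law μ) fun g => F g s) :
    PMom (law μ) (fun g : Env => Av g h t x n (F g)) := by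
  refine (PMom.sum (T n) fun s hs => (hF s hs).abs).mono (measurable_Av fun s hs => (hF s hs).1)
    fun g => (abs_Av_le_sum (F g)).trans (le_abs_self _)

lemma EMom_logZv {v : ℤ → ℝ} {x : ℤ} {n : ℕ} (hv : Adm v x n) (t : ℕ) :
    EMom (law μ) (fun g : Env => Real.log (Zv g v t x n)) := by
  have hlo : ∀ g : Env, Real.exp (-V g t x n) * (∑ s ∈ T n, v (x + pos s n)) ≤ Zv g v t x n := by
    intro g
    unfold Zv
    rw [Finset.mul_sum]
    refine Finset.sum_le_sum fun s _ => mul_le_mul_of_nonneg_right ?_ (hv.1 _)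
    exact Real.exp_le_exp.2 (abs_le.1 (En_abs_le g t x n s)).1
  have hup : ∀ g : Env, Zv g v t x n ≤ Real.exp (V g t x n) * (∑ s ∈ T n, v (x + pos s n)) := by
    intro g
    unfold Zv
    rw [Finset.mul_sum]
    refine Finset.sum_le_sum fun s _ => mul_le_mul_of_nonneg_right ?_ (hv.1 _)
    exact Real.exp_le_exp.2 (abs_le.1 (En_abs_le g t x n s)).2
  set K : ℝ := ∑ s ∈ T n, v (x + pos s n) with hK
  have hKpos : 0 < K := by
    obtain ⟨s, hs, h⟩ := hv.2
    exact Finset.sum_pos' (fun _ _ => hv.1 _) ⟨s, hs, h⟩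
  refine ((EMom_V hμ t x n).add (EMom.const |Real.log K|)).mono (by fun_prop) fun g => ?_
  have h1 := Real.log_le_log (by positivity) (hlo g)
  have h2 := Real.log_le_log (Zv_pos g hv t) (hup g)
  rw [Real.log_mul (Real.exp_pos _).ne' hKpos.ne', Real.log_exp] at h1 h2
  have h3 := V_nonneg g t x n
  rw [abs_of_nonneg (add_nonneg h3 (abs_nonneg _))]
  exact abs_le.2 ⟨by linarith [neg_abs_le (Real.log K)], by linarith [le_abs_self (Real.log K)]⟩

omit hμ [IsProbabilityMeasure μ]

/-! ### Dependence on sites -/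

lemma dependsOn_En (t : ℕ) (x : ℤ) (n : ℕ) (s : ℕ → Bool) :
    DependsOn (fun g : Env => En g t x n s) (rows t (t + n)) := by
  intro g g' h
  unfold En
  refine Finset.sum_congr rfl fun i hi => h _ ?_
  have := Finset.mem_range.1 hi
  exact ⟨by simp, by simpa using this⟩

lemma dependsOn_wt (h : ℝ) (t : ℕ) (x : ℤ) (n : ℕ) (s : ℕ → Bool) :
    DependsOn (fun g : Env => wt g h t x n s) (rows t (t + n)) := by
  intro g g' hg
  have := dependsOn_En t x n s hg
  simp only at this
  simp only [wt, this]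

lemma dependsOn_Z (h : ℝ) (t : ℕ) (x : ℤ) (n : ℕ) :
    DependsOn (fun g : Env => Z g h t x n) (rows t (t + n)) := by
  intro g g' hg
  exact Finset.sum_congr rfl fun s _ => dependsOn_wt h t x n s hg

lemma dependsOn_Zv (v : ℤ → ℝ) (t : ℕ) (x : ℤ) (n : ℕ) :
    DependsOn (fun g : Env => Zv g v t x n) (rows t (t + n)) := by
  intro g g' hg
  refine Finset.sum_congr rfl fun s _ => ?_
  have := dependsOn_En t x n s hg
  simp only at this
  rw [this]

lemma dependsOn_Zp (t : ℕ) (x : ℤ) (n : ℕ) (y : ℤ) :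
    DependsOn (fun g : Env => Zp g t x n y) (rows t (t + n)) := by
  intro g g' hg
  refine Finset.sum_congr rfl fun s _ => ?_
  have := dependsOn_En t x n s hg
  simp only at this
  rw [this]

lemma dependsOn_V (t : ℕ) (x : ℤ) (n : ℕ) :
    DependsOn (fun g : Env => V g t x n) (rows t (t + n)) := by
  intro g g' hg
  refine Finset.sum_congr rfl fun i hi => Finset.sum_congr rfl fun y _ => ?_
  have h1 := Finset.mem_range.1 hi
  rw [hg (t + i, y) ⟨by simp, by simpa using h1⟩]

lemma dependsOn_Av {h : ℝ} {t : ℕ} {x : ℤ} {n : ℕ} {F : Env → (ℕ → Bool) → ℝ}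
    {A : Set (ℕ × ℤ)} (hA : rows t (t + n) ⊆ A)
    (hF : ∀ s ∈ T n, DependsOn (fun g => F g s) A) :
    DependsOn (fun g : Env => Av g h t x n (F g)) A := by
  intro g g' hg
  have h1 := dependsOn_Z h t x n fun p hp => hg p (hA hp)
  simp only at h1
  simp only [Av, h1]
  congr 1
  refine Finset.sum_congr rfl fun s hs => ?_
  have h2 := dependsOn_wt h t x n s fun p hp => hg p (hA hp)
  have h3 := hF s hs hg
  simp only at h2 h3
  rw [h2, h3]

lemma rows_subset_compl {a b c d : ℕ} (h : b ≤ c) : rows c d ⊆ (rows a b)ᶜ := by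
  intro p hp hp'
  exact absurd hp.1 (by have := hp'.2; omega)

/-! ### Stationarity -/

/-- The environment shifted by `(t, x)`. -/
def shiftEnv (t : ℕ) (x : ℤ) (g : Env) : Env := fun p => g (p.1 + t, p.2 + x)

lemma mp_shiftEnv [IsProbabilityMeasure μ] (t : ℕ) (x : ℤ) :
    MeasurePreserving (shiftEnv t x) (law μ) (law μ) := by
  refine mp_reindex (f := fun p => (p.1 + t, p.2 + x)) ?_
  rintro ⟨i, y⟩ ⟨j, z⟩ h
  simp only [Prod.mk.injEq] at h
  ext
  · simp; omega
  · simp; omega

lemma En_shiftEnv (g : Env) (t t' : ℕ) (x x' : ℤ) (n : ℕ) (s : ℕ → Bool) :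
    En (shiftEnv t x g) t' x' n s = En g (t' + t) (x' + x) n s := by
  unfold En shiftEnv
  refine Finset.sum_congr rfl fun i _ => ?_
  congr 1
  ext <;> simp <;> ring

lemma wt_shiftEnv (g : Env) (h : ℝ) (t t' : ℕ) (x x' : ℤ) (n : ℕ) (s : ℕ → Bool) :
    wt (shiftEnv t x g) h t' x' n s = wt g h (t' + t) (x' + x) n s := by
  unfold wt
  rw [En_shiftEnv]

lemma Z_shiftEnv (g : Env) (h : ℝ) (t t' : ℕ) (x x' : ℤ) (n : ℕ) :
    Z (shiftEnv t x g) h t' x' n = Z g h (t' + t) (x' + x) n := by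
  unfold Z
  simp only [wt_shiftEnv]

lemma Av_shiftEnv (g : Env) (h : ℝ) (t t' : ℕ) (x x' : ℤ) (n : ℕ) (F : (ℕ → Bool) → ℝ) :
    Av (shiftEnv t x g) h t' x' n F = Av g h (t' + t) (x' + x) n F := by
  unfold Av
  simp only [wt_shiftEnv, Z_shiftEnv]

lemma integral_comp_shiftEnv [IsProbabilityMeasure μ] (t : ℕ) (x : ℤ) {F : Env → ℝ}
    (hF : Measurable F) : ∫ g, F (shiftEnv t x g) ∂(law μ) = ∫ g, F g ∂(law μ) := by
  exact mp_integral (mp_shiftEnv (μ := μ) t x) hF.aestronglyMeasurable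

lemma integral_logZ [IsProbabilityMeasure μ] (h : ℝ) (t : ℕ) (x : ℤ) (n : ℕ) :
    ∫ g, Real.log (Z g h t x n) ∂(law μ) = a μ h n := by
  unfold a
  rw [← integral_comp_shiftEnv t x (F := fun g => Real.log (Z g h 0 0 n)) (by fun_prop)]
  simp only [Z_shiftEnv, zero_add]

end

end Pool.Agent.W_7d29a1_h47
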