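import Pool.Agent.W_7d29a1_h47.InsC

/-!
# The chain of insertions: quenched part

Windows `[o + 2Rj, o + 2R(j+1)]`, `j < m`, `o + 2Rm ≤ n`; in the middle `k_j = o + 2Rj + R` of the
`j`-th window the row `j` of `g'` is inserted; the new environment is `star o R m g g'`.
-/

namespace Pool.Agent.W_7d29a1_h47

open MeasureTheory ProbabilityTheory Finset

noncomputable section

/-- The block times: `0, o, o + 2R, …, o + 2Rm, n`. -/
def tw (o R m n : ℕ) (j : ℕ) : ℕ := if j = 0 then 0 else if j ≤ m + 1 then o + 2 * R * (j - 1) else n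

lemma tw_zero (o R m n : ℕ) : tw o R m n 0 = 0 := by simp [tw]

lemma tw_succ (o R m n : ℕ) {j : ℕ} (hj : j ≤ m) : tw o R m n (j + 1) = o + 2 * R * j := by
  simp [tw, hj]

lemma tw_last (o R m n : ℕ) : tw o R m n (m + 2) = n := by simp [tw]

/-- Monotone up to the end if `o + 2Rm ≤ n`. -/
lemma tw_mono {o R m n : ℕ} (hn : o + 2 * R * m ≤ n) : ∀ i < m + 2, tw o R m n i ≤ tw o R m n (i + 1) := by
  intro i hi
  rcases i with _ | j
  · rw [tw_zero]
    exact Nat.zero_le _
  · have hj : j ≤ m := by omega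
    rw [tw_succ o R m n hj]
    rcases eq_or_lt_of_le hj with h | h
    · subst h
      rw [tw_last]
      exact hn
    · rw [tw_succ o R m n (by omega : j + 1 ≤ m)]
      have : 2 * R * j ≤ 2 * R * (j + 1) := Nat.mul_le_mul_left _ (Nat.le_succ _)
      omega

/-- The bonuses: log window ratios (tilt `h`) in the blocks `1, …, m`, nothing in the first and the
last block. -/
def Bw (h : ℝ) (o R m : ℕ) (g' : Env) (j : ℕ) (g : Env) (x y : ℤ) : ℝ :=
  if 1 ≤ j ∧ j ≤ m then Real.log (Wr h (o + 2 * R * (j - 1) + R) R g (row (j - 1) g') x y) else 0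

lemma FinA_pos {k R : ℕ} {g : Env} {ξ : ℤ → ℝ} {h : ℝ} {x y : ℤ}
    (hK : 0 < Kp g h (k - R) x (2 * R) y) :
    0 < Kp (ins k 1 g ξ) h (k - R) x (2 * R + 1) (y + 1) := by
  obtain ⟨s, _, hs⟩ := exists_walk_of_Kp hK
  have h1 := abs_le.1 (pos_abs_le s (2 * R))
  have h2 := pos_parity s (2 * R)
  push_cast at h1 h2
  refine Kp_pos_of_parity _ _ _ _ _ _ ?_ ?_
  · rw [abs_le]
    push_cast
    constructor <;> omega
  · push_cast
    omega

/-- `e^{log W} Kp g ≤ Kp g⁺` (equality if `Kp g > 0`, otherwise the left side is `0`). -/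
lemma exp_logWr_mul_le (h : ℝ) (k R : ℕ) (g : Env) (ξ : ℤ → ℝ) (x y : ℤ) :
    Real.exp (Real.log (Wr h k R g ξ x y)) * Kp g h (k - R) x (2 * R) y ≤
      Kp (ins k 1 g ξ) h (k - R) x (2 * R + 1) (y + 1) := by
  rcases eq_or_lt_of_le (Kp_nonneg g h (k - R) x (2 * R) y) with h0 | h0
  · rw [← h0, mul_zero]
    exact Kp_nonneg _ _ _ _ _ _
  · have h1 := FinA_pos (ξ := ξ) h0
    rw [Wr, Real.exp_log (div_pos h1 h0), div_mul_cancel₀ _ h0.ne']

/-- The kernel of the new environment dominates the bonus weights. Proof. Induction on `j ≤ m`.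
`j = 0`: `Abl … 1 y = ∑_x Abl … 0 x (e^0 Kp g h 0 x o y) = Kp g h 0 0 o y` and `star o R 0 = g`. Step:
`Abl (j+2) y = ∑_{x ∈ Icc (-t) t} Abl (j+1) x (e^{Bw} Kp g h t x (2R) y)`, `t = o + 2Rj`; by the induction
hypothesis and `exp_logWr_mul_le` (`k = t + R`, `k - R = t`) this is at most
`∑_x Kp (star j) h 0 0 (t + j) (x + j) * Kp (ins (t+R) 1 g (row j g')) h t x (2R+1) (y+1)`; the first
factor is the same for `star (j+1)` (`star_before`, `dependsOn_Kp`), the second one is
`Kp (star (j+1)) h (t + j) (x + j) (2R+1) (y + 1 + j)` (`star_window`, `Kp_transl`); `Kp_split` and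
positivity of the omitted terms give `≤ Kp (star (j+1)) h 0 0 (t + 2R + j + 1) (y + j + 1)`. -/
lemma Abl_le_star (h : ℝ) {o R m n : ℕ} (hn : o + 2 * R * m ≤ n) (g g' : Env) {j : ℕ} (hj : j ≤ m)
    (y : ℤ) :
    Abl g h (tw o R m n) (Bw h o R m g') (j + 1) y ≤
      Kp (star o R j g g') h 0 0 (o + 2 * R * j + j) (y + j) := by
  induction j generalizing y with
  | zero =>
    have h1 : tw o R m n (0 + 1) = o := by rw [tw_succ o R m n (Nat.zero_le m)]; simp
    have h2 : Bw h o R m g' 0 g 0 y = 0 := by simp [Bw]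
    have h3 : Icc (-((0 : ℕ) : ℤ)) ((0 : ℕ) : ℤ) = {0} := by simp
    rw [Abl, h1, tw_zero, h3, Finset.sum_singleton, h2, Abl, ind_true rfl]
    simp [star]
  | succ j ih =>
    have hj' : j ≤ m := by omega
    obtain ⟨t, ht⟩ : ∃ t : ℕ, t = o + 2 * R * j := ⟨_, rfl⟩
    have e0 : 2 * R * (j + 1) = 2 * R * j + 2 * R := by ring
    have e1 : tw o R m n (j + 1) = t := by rw [tw_succ o R m n hj', ht]
    have e2 : tw o R m n (j + 1 + 1) = t + 2 * R := by rw [tw_succ o R m n hj, ht, e0]; ring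
    have e3 : t + 2 * R - t = 2 * R := by omega
    have e4 : ∀ x : ℤ, Bw h o R m g' (j + 1) g x y =
        Real.log (Wr h (t + R) R g (row j g') x y) := by
      intro x
      unfold Bw
      rw [if_pos ⟨by omega, hj⟩, Nat.add_sub_cancel, ht]
    rw [Abl, e1, e2, e3]
    have key : ∀ x ∈ Icc (-(t : ℤ)) t, Abl g h (tw o R m n) (Bw h o R m g') (j + 1) x *
        (Real.exp (Bw h o R m g' (j + 1) g x y) * Kp g h t x (2 * R) y) ≤
        Kp (star o R (j + 1) g g') h 0 0 (t + j) (x + j) *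
          Kp (star o R (j + 1) g g') h (0 + (t + j)) (x + j) (2 * R + 1) (y + (j + 1 : ℕ)) := by
      intro x _
      have h1 := ih hj' x
      rw [← ht] at h1
      have h2 := exp_logWr_mul_le h (t + R) R g (row j g') x y
      rw [Nat.add_sub_cancel] at h2
      rw [e4 x]
      have h3 : Kp (star o R (j + 1) g g') h 0 0 (t + j) (x + j) =
          Kp (star o R j g g') h 0 0 (t + j) (x + j) := by
        refine dependsOn_Kp h 0 0 (t + j) (x + j) fun p hp => ?_
        refine star_before o R j g g' p ?_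
        have := hp.2
        omega
      have h4 : Kp (star o R (j + 1) g g') h (0 + (t + j)) (x + j) (2 * R + 1) (y + (j + 1 : ℕ)) =
          Kp (ins (t + R) 1 g (row j g')) h t x (2 * R + 1) (y + 1) := by
        have h5 : (y : ℤ) + ((j + 1 : ℕ) : ℤ) = (y + 1) + j := by push_cast; ring
        rw [h5]
        refine Kp_transl (fun i _ z => ?_) h x (y + 1)
        have h6 := star_window o R j g g' i z
        rw [← ht] at h6
        rw [← h6, zero_add]
      rw [h3, h4]
      exact mul_le_mul h1 h2 (mul_nonneg (Real.exp_pos _).le (Kp_nonneg _ _ _ _ _ _))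
        (Kp_nonneg _ _ _ _ _ _)
    refine (Finset.sum_le_sum key).trans ?_
    have e5 : o + 2 * R * (j + 1) + (j + 1) = (t + j) + (2 * R + 1) := by rw [e0, ht]; ring
    rw [e5, Kp_split]
    have e6 : ∑ x ∈ Icc (-(t : ℤ)) t, Kp (star o R (j + 1) g g') h 0 0 (t + j) (x + j) *
          Kp (star o R (j + 1) g g') h (0 + (t + j)) (x + j) (2 * R + 1) (y + (j + 1 : ℕ)) =
        ∑ z ∈ (Icc (-(t : ℤ)) t).map (addRightEmbedding (j : ℤ)),
          Kp (star o R (j + 1) g g') h 0 0 (t + j) z *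
          Kp (star o R (j + 1) g g') h (0 + (t + j)) z (2 * R + 1) (y + (j + 1 : ℕ)) := by
      rw [Finset.sum_map]
      rfl
    rw [e6]
    refine Finset.sum_le_sum_of_subset_of_nonneg ?_ fun z _ _ =>
      mul_nonneg (Kp_nonneg _ _ _ _ _ _) (Kp_nonneg _ _ _ _ _ _)
    intro z hz
    obtain ⟨x, hx, rfl⟩ := Finset.mem_map.1 hz
    rw [mem_Icc] at hx ⊢
    simp only [addRightEmbedding_apply]
    push_cast
    constructor <;> omega

/-- Sum over the last block. Proof. `Abl (m+2) y = ∑_x Abl (m+1) x Kp g h (o+2Rm) x (n - (o+2Rm)) y`;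
sum over `y ∈ Icc (-n) n`: `∑_y Kp g h t x ℓ y ≤ Z g h t x ℓ = Z (star m) h (t + m) (x + m) ℓ`
(`star_after`, `Z_transl`), `Abl_le_star` with `j = m`, `Z_split_Kp` for
`n + m = (t + m) + (n - t)`. -/
lemma sum_Abl_le_star (h : ℝ) {o R m n : ℕ} (hn : o + 2 * R * m ≤ n) (g g' : Env) :
    ∑ y ∈ Icc (-(n : ℤ)) n, Abl g h (tw o R m n) (Bw h o R m g') (m + 2) y ≤
      Z (star o R m g g') h 0 0 (n + m) := by
  obtain ⟨t, ht⟩ : ∃ t : ℕ, t = o + 2 * R * m := ⟨_, rfl⟩
  rw [← ht] at hn
  have e1 : tw o R m n (m + 1) = t := by rw [tw_succ o R m n le_rfl, ht]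
  have e2 : tw o R m n (m + 1 + 1) = n := tw_last o R m n
  have e3 : ∀ x y : ℤ, Bw h o R m g' (m + 1) g x y = 0 := by
    intro x y
    unfold Bw
    rw [if_neg (by omega)]
  have e4 : ∀ y : ℤ, Abl g h (tw o R m n) (Bw h o R m g') (m + 2) y =
      ∑ x ∈ Icc (-(t : ℤ)) t, Abl g h (tw o R m n) (Bw h o R m g') (m + 1) x *
        Kp g h t x (n - t) y := by
    intro y
    rw [show m + 2 = m + 1 + 1 from rfl, Abl, e1, e2]
    refine Finset.sum_congr rfl fun x _ => ?_
    rw [e3, Real.exp_zero, one_mul]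
  rw [Finset.sum_congr rfl fun y _ => e4 y, Finset.sum_comm]
  have e5 : ∀ x : ℤ, ∑ y ∈ Icc (-(n : ℤ)) n, Kp g h t x (n - t) y ≤ Z g h t x (n - t) := by
    intro x
    have h1 := Z_split_Kp g h t x (n - t) 0
    rw [Nat.add_zero] at h1
    rw [h1]
    have h2 : ∀ z : ℤ, Kp g h t x (n - t) z * Z g h (t + (n - t)) z 0 = Kp g h t x (n - t) z := by
      intro z
      rw [Z_zero, mul_one]
    rw [Finset.sum_congr rfl fun z _ => h2 z]
    have h3 : ∑ y ∈ Icc (-(n : ℤ)) n, Kp g h t x (n - t) y =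
        ∑ y ∈ (Icc (-(n : ℤ)) n).filter
          (fun y => y ∈ Icc (x - ((n - t : ℕ) : ℤ)) (x + ((n - t : ℕ) : ℤ))),
          Kp g h t x (n - t) y := by
      rw [Finset.sum_filter]
      refine Finset.sum_congr rfl fun y _ => ?_
      split_ifs with hy
      · rfl
      · exact Kp_eq_zero hy
    rw [h3]
    refine Finset.sum_le_sum_of_subset_of_nonneg (fun y hy => (Finset.mem_filter.1 hy).2)
      fun z _ _ => Kp_nonneg _ _ _ _ _ _
  have e6 : ∀ x : ℤ, Z g h t x (n - t) = Z (star o R m g g') h (t + m) (x + m) (n - t) := by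
    intro x
    symm
    refine Z_transl (fun i _ y => ?_) h x
    have h1 := star_after o R m g g' (t + i) y (by omega)
    rw [← h1]
    congr 2
    omega
  have key : ∀ x ∈ Icc (-(t : ℤ)) t, ∑ y ∈ Icc (-(n : ℤ)) n,
      Abl g h (tw o R m n) (Bw h o R m g') (m + 1) x * Kp g h t x (n - t) y ≤
      Kp (star o R m g g') h 0 0 (t + m) (x + m) *
        Z (star o R m g g') h (0 + (t + m)) (x + m) (n - t) := by
    intro x _
    rw [← Finset.mul_sum, zero_add, ← e6]
    have h1 := Abl_le_star h (by rw [← ht]; exact hn : o + 2 * R * m ≤ n) g g' le_rfl x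
    rw [← ht] at h1
    exact mul_le_mul h1 (e5 x) (Finset.sum_nonneg fun y _ => Kp_nonneg _ _ _ _ _ _)
      (Kp_nonneg _ _ _ _ _ _)
  refine (Finset.sum_le_sum key).trans ?_
  have e7 : n + m = (t + m) + (n - t) := by omega
  rw [e7, Z_split_Kp]
  have e8 : ∑ x ∈ Icc (-(t : ℤ)) t, Kp (star o R m g g') h 0 0 (t + m) (x + m) *
        Z (star o R m g g') h (0 + (t + m)) (x + m) (n - t) =
      ∑ z ∈ (Icc (-(t : ℤ)) t).map (addRightEmbedding (m : ℤ)),
        Kp (star o R m g g') h 0 0 (t + m) z *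
        Z (star o R m g g') h (0 + (t + m)) z (n - t) := by
    rw [Finset.sum_map]
    rfl
  rw [e8]
  refine Finset.sum_le_sum_of_subset_of_nonneg ?_ fun z _ _ =>
    mul_nonneg (Kp_nonneg _ _ _ _ _ _) (Z_pos _ _ _ _ _).le
  intro z hz
  obtain ⟨x, hx, rfl⟩ := Finset.mem_map.1 hz
  rw [mem_Icc] at hx ⊢
  simp only [addRightEmbedding_apply]
  push_cast
  constructor <;> omega

/-- Proof. `sum_Abl` (with `M = m + 2`, `tw_last`) and `sum_Abl_le_star`; the sum of the bonuses over
`i < m + 2` is the sum over the windows `i = j + 1`, `j < m`. -/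
lemma sum_wt_exp_le (h : ℝ) {o R m n : ℕ} (hn : o + 2 * R * m ≤ n) (g g' : Env) :
    ∑ s ∈ T n, wt g h 0 0 n s * Real.exp (∑ j ∈ range m, Real.log (Wr h (o + 2 * R * j + R) R g
        (row j g') (pos s (o + 2 * R * j)) (pos s (o + 2 * R * (j + 1))))) ≤
      Z (star o R m g g') h 0 0 (n + m) := by
  have h1 := sum_Abl g h (t := tw o R m n) (Bw h o R m g') (tw_zero o R m n) (m + 2) (tw_mono hn)
  rw [tw_last] at h1
  have h2 := sum_Abl_le_star h hn g g'
  rw [h1] at h2
  refine le_trans (le_of_eq ?_) h2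
  refine Finset.sum_congr rfl fun s _ => ?_
  congr 2
  rw [Finset.sum_range_succ', Finset.sum_range_succ]
  have h3 : Bw h o R m g' 0 g (pos s (tw o R m n 0)) (pos s (tw o R m n (0 + 1))) = 0 := by
    simp [Bw]
  have h4 : Bw h o R m g' (m + 1) g (pos s (tw o R m n (m + 1))) (pos s (tw o R m n (m + 1 + 1))) =
      0 := by
    simp [Bw]
  rw [h3, h4, add_zero, add_zero]
  refine Finset.sum_congr rfl fun j hj => ?_
  have hj' := Finset.mem_range.1 hj
  unfold Bw
  rw [if_pos ⟨by omega, by omega⟩, tw_succ o R m n hj'.le, tw_succ o R m n (by omega : j + 1 ≤ m),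
    Nat.add_sub_cancel]

/-- Change of tilt of the window ratio along a walk. Proof. Both kernels are positive: for the
denominator the piece of the walk (`shf`, `cut`) is a walk of length `2R` from `x` to `y`; for the
numerator add one up step (`Kp_pos_of_parity`, or `exists_walk`). `Kp_tilt` for both. -/
lemma logWr_tilt (h h' : ℝ) {k R : ℕ} (hR : R ≤ k) (g : Env) (ξ : ℤ → ℝ) (s : ℕ → Bool) :
    Real.log (Wr h' k R g ξ (pos s (k - R)) (pos s (k + R))) =
      (h' - h) + Real.log (Wr h k R g ξ (pos s (k - R)) (pos s (k + R))) := by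
  have h1 := abs_le.1 (pos_sub_abs_le s (by omega : k - R ≤ k + R))
  have h2 := pos_parity s (k - R)
  have h3 := pos_parity s (k + R)
  have h4 : ((k - R : ℕ) : ℤ) = (k : ℤ) - R := by omega
  rw [h4] at h1 h2
  push_cast at h1 h2 h3
  set x := pos s (k - R) with hx
  set y := pos s (k + R) with hy
  have hK : 0 < Kp g h (k - R) x (2 * R) y := by
    refine Kp_pos_of_parity _ _ _ _ _ _ ?_ ?_
    · rw [abs_le]
      push_cast
      constructor <;> omega
    · push_cast
      omega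
  have hN := FinA_pos (ξ := ξ) hK
  rw [Wr, Wr, Kp_tilt _ h h', Kp_tilt g h h']
  have e : Real.exp ((h' - h) * (((y + 1 : ℤ) : ℝ) - x)) * Kp (ins k 1 g ξ) h (k - R) x (2 * R + 1)
      (y + 1) / (Real.exp ((h' - h) * ((y : ℝ) - x)) * Kp g h (k - R) x (2 * R) y) =
      Real.exp (h' - h) * (Kp (ins k 1 g ξ) h (k - R) x (2 * R + 1) (y + 1) /
        Kp g h (k - R) x (2 * R) y) := by
    have e1 : Real.exp ((h' - h) * (((y + 1 : ℤ) : ℝ) - x)) =
        Real.exp (h' - h) * Real.exp ((h' - h) * ((y : ℝ) - x)) := by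
      rw [← Real.exp_add]
      congr 1
      push_cast
      ring
    rw [e1]
    have e2 := Real.exp_pos ((h' - h) * ((y : ℝ) - x))
    field_simp
  rw [e, Real.log_mul (Real.exp_pos _).ne' (div_pos hN hK).ne', Real.log_exp]

/-- **Chain inequality, quenched.** Proof. `sum_wt_exp_le` with the tilt `h'`; `wt g h' = e^{(h'-h) pos s n} wt g h`,
so the left side is `Z g h * Av g h (e^{(h'-h) pos s n + ∑ log Wr h'})`; take logarithms, Jensen
(`Av_le_log`), `logWr_tilt` (`k = o + 2Rj + R`, `k - R = o + 2Rj`, `k + R = o + 2R(j+1)`), linearity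
(`Av_add`, `Av_sum`, `Av_mul_left`, `Av_const`). -/
theorem chain_det (h h' : ℝ) {o R m n : ℕ} (hn : o + 2 * R * m ≤ n) (g g' : Env) :
    Real.log (Z g h 0 0 n) + (h' - h) * (Av g h 0 0 n (fun s => (pos s n : ℝ)) + m) +
        ∑ j ∈ range m, Av g h 0 0 n (fun s => Real.log (Wr h (o + 2 * R * j + R) R g (row j g')
          (pos s (o + 2 * R * j + R - R)) (pos s (o + 2 * R * j + R + R)))) ≤
      Real.log (Z (star o R m g g') h' 0 0 (n + m)) := by
  have h1 := sum_wt_exp_le h' hn g g'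
  set F : (ℕ → Bool) → ℝ := fun s => (h' - h) * (pos s n : ℝ) + ∑ j ∈ range m,
    Real.log (Wr h' (o + 2 * R * j + R) R g (row j g') (pos s (o + 2 * R * j))
      (pos s (o + 2 * R * (j + 1)))) with hF
  have h2 : Z g h 0 0 n * Av g h 0 0 n (fun s => Real.exp (F s)) ≤
      Z (star o R m g g') h' 0 0 (n + m) := by
    rw [Z_mul_Av]
    refine le_trans (le_of_eq ?_) h1
    refine Finset.sum_congr rfl fun s _ => ?_
    rw [hF]
    simp only
    unfold wt
    rw [← Real.exp_add, ← Real.exp_add]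
    congr 1
    ring
  have hA : 0 < Av g h 0 0 n (fun s => Real.exp (F s)) := Av_pos fun s _ => Real.exp_pos _
  have h3 := Real.log_le_log (mul_pos (Z_pos g h 0 0 n) hA) h2
  rw [Real.log_mul (Z_pos g h 0 0 n).ne' hA.ne'] at h3
  have h4 : Av g h 0 0 n F ≤ Real.log (Av g h 0 0 n (fun s => Real.exp (F s))) := Av_le_log F
  have h5 : Av g h 0 0 n F = (h' - h) * (Av g h 0 0 n (fun s => (pos s n : ℝ)) + m) +
        ∑ j ∈ range m, Av g h 0 0 n (fun s => Real.log (Wr h (o + 2 * R * j + R) R g (row j g')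
          (pos s (o + 2 * R * j + R - R)) (pos s (o + 2 * R * j + R + R)))) := by
    rw [hF, Av_add, Av_mul_left, Av_sum, mul_add, add_assoc]
    congr 1
    have h6 : ∀ j ∈ range m, Av g h 0 0 n (fun s => Real.log (Wr h' (o + 2 * R * j + R) R g
        (row j g') (pos s (o + 2 * R * j)) (pos s (o + 2 * R * (j + 1))))) =
        (h' - h) + Av g h 0 0 n (fun s => Real.log (Wr h (o + 2 * R * j + R) R g (row j g')
          (pos s (o + 2 * R * j + R - R)) (pos s (o + 2 * R * j + R + R)))) := by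
      intro j _
      have h7 : Av g h 0 0 n (fun _ => h' - h) = h' - h := Av_const _
      rw [← h7, ← Av_add]
      refine Av_congr fun s _ => ?_
      have h8 := logWr_tilt h h' (k := o + 2 * R * j + R) (R := R) (by omega) g (row j g') s
      rw [← h8]
      have h9 : o + 2 * R * j + R - R = o + 2 * R * j := by omega
      have h10 : o + 2 * R * j + R + R = o + 2 * R * (j + 1) := by ring
      rw [h9, h10]
    rw [Finset.sum_congr rfl h6, Finset.sum_add_distrib, Finset.sum_const, card_range, nsmul_eq_mul]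
    ring
  linarith

end

end Pool.Agent.W_7d29a1_h47
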