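import Pool.Agent.W_7d29a1_h47.InsD

/-!
# The expected Kullback–Leibler inequality
-/

namespace Pool.Agent.W_7d29a1_h47

open MeasureTheory ProbabilityTheory Finset

noncomputable section

variable {μ : Measure ℝ} [IsProbabilityMeasure μ]

/-- The expectation of the Gibbs average of the logarithm of the window ratio. -/
def EW (μ : Measure ℝ) (h : ℝ) (n k R : ℕ) : ℝ :=
  ∫ w, Av w.1 h 0 0 n (fun s => Real.log (Wr h k R w.1 (row 0 w.2) (pos s (k - R)) (pos s (k + R))))
    ∂(law2 μ)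

/-- The expected Kullback–Leibler distance. -/
def EKL (μ : Measure ℝ) (h : ℝ) (n k R : ℕ) : ℝ := a μ h (n + 1) - a μ h n - EW μ h n k R

lemma InsE_measurable (h : ℝ) (k R : ℕ) (x y : ℤ) :
    Measurable (fun w : Env × (ℤ → ℝ) => Real.log (Wr h k R w.1 w.2 x y)) := by
  unfold Wr
  exact Real.measurable_log.comp
    (((measurable_Kp h (k - R) x (2 * R + 1) (y + 1)).comp (measurable_ins k 1)).div
      ((measurable_Kp h (k - R) x (2 * R) y).comp measurable_fst))

lemma InsE_rowmap (j : ℕ) : Measurable (fun w : Env × Env => (w.1, row j w.2)) :=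
  measurable_fst.prodMk ((measurable_row j).comp measurable_snd)

lemma InsE_abs_log_div (A B : ℝ) :
    |Real.log (A / B)| ≤ |(|Real.log A| + |Real.log B|)| := by
  rw [abs_of_nonneg (add_nonneg (abs_nonneg (Real.log A)) (abs_nonneg (Real.log B)))]
  by_cases hA : A = 0
  · rw [hA, zero_div, Real.log_zero, abs_zero, zero_add]
    exact abs_nonneg _
  · by_cases hB : B = 0
    · rw [hB, div_zero, Real.log_zero, abs_zero, add_zero]
      exact abs_nonneg _
    · rw [Real.log_div hA hB]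
      exact abs_sub _ _

/-- Proof. `log (A / B) = log A - log B` if both are positive; in all cases
`|log (A/B)| ≤ |log A| + |log B|`; `EMom_logKp` composed with `mp_ins` and the first projection. -/
lemma EMom_logWr (hμ : EM μ) (h : ℝ) (k R : ℕ) (j : ℕ) (x y : ℤ) :
    EMom (law2 μ) (fun w => Real.log (Wr h k R w.1 (row j w.2) x y)) := by
  have h1 : EMom (law2 μ) (fun w : Env × Env =>
      Real.log (Kp (ins k 1 w.1 (row j w.2)) h (k - R) x (2 * R + 1) (y + 1))) := by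
    have h0 := (EMom_logKp hμ h (k - R) x (2 * R + 1) (y + 1)).comp (mp_ins k 1 j)
    exact h0
  have h2 : EMom (law2 μ) (fun w : Env × Env => Real.log (Kp w.1 h (k - R) x (2 * R) y)) :=
    EMom_fst (EMom_logKp hμ h (k - R) x (2 * R) y)
  have h3 : Measurable (fun w : Env × Env => Real.log (Wr h k R w.1 (row j w.2) x y)) := by
    have h0 := (InsE_measurable h k R x y).comp (InsE_rowmap j)
    exact h0
  refine (h1.abs.add h2.abs).mono h3 fun w => ?_
  exact InsE_abs_log_div (Kp (ins k 1 w.1 (row j w.2)) h (k - R) x (2 * R + 1) (y + 1))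
    (Kp w.1 h (k - R) x (2 * R) y)

lemma measurable_logWr (h : ℝ) (k R : ℕ) (x y : ℤ) :
    Measurable (fun w : Env × (ℤ → ℝ) => Real.log (Wr h k R w.1 w.2 x y)) :=
  InsE_measurable h k R x y

/-- Proof. `EMom_Av_gen` and `EMom_logWr`. -/
lemma EMom_AvW (hμ : EM μ) (h : ℝ) (n k R : ℕ) (j : ℕ) :
    EMom (law2 μ) (fun w => Av w.1 h 0 0 n (fun s =>
      Real.log (Wr h k R w.1 (row j w.2) (pos s (k - R)) (pos s (k + R))))) :=
  EMom_Av_gen measurable_fst fun _ _ => EMom_logWr hμ h k R j _ _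

/-- The row used does not matter. Proof. `integral_row`. -/
lemma EW_row (h : ℝ) (n k R : ℕ) (j : ℕ) :
    ∫ w, Av w.1 h 0 0 n (fun s =>
      Real.log (Wr h k R w.1 (row j w.2) (pos s (k - R)) (pos s (k + R)))) ∂(law2 μ) =
      EW μ h n k R :=
  integral_row j (F := fun g ξ => Av g h 0 0 n (fun s =>
      Real.log (Wr h k R g ξ (pos s (k - R)) (pos s (k + R)))))
    (measurable_Av_gen measurable_fst fun _ _ => measurable_logWr h k R _ _)

lemma InsE_PMom_Av2 (h : ℝ) (n : ℕ) (F : (ℕ → Bool) → (ℕ → Bool) → ℝ) :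
    PMom (law μ) (fun g => Av2 g h n F) := by
  unfold Av2
  exact PMom_Av fun s _ => PMom_Av fun r _ => PMom.const _

lemma InsE_int_Av2 (h : ℝ) (n k : ℕ) (F : (ℕ → Bool) → (ℕ → Bool) → ℝ) :
    Integrable (fun w : Env × Env => Av2 (ins k 1 w.1 (row 0 w.2)) h n F) (law2 μ) ∧
      ∫ w, Av2 (ins k 1 w.1 (row 0 w.2)) h n F ∂(law2 μ) = EA2 μ h n (fun _ => F) := by
  have h1 := InsE_PMom_Av2 (μ := μ) h n F
  exact ⟨(h1.comp (mp_ins k 1 0)).integrable,
    mp_integral (mp_ins k 1 0) h1.measurable.aestronglyMeasurable⟩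

lemma InsE_lin {Ω : Type*} [MeasurableSpace Ω] {P : Measure Ω} {A B : Ω → ℝ}
    (hA : Integrable A P) (hB : Integrable B P) (c d : ℝ) :
    Integrable (fun w => c * A w + d * B w) P ∧
      ∫ w, (c * A w + d * B w) ∂P = c * ∫ w, A w ∂P + d * ∫ w, B w ∂P := by
  refine ⟨(hA.const_mul c).add (hB.const_mul d), ?_⟩
  rw [integral_add (hA.const_mul c) (hB.const_mul d), integral_const_mul, integral_const_mul]

/-- Fresh row at the position of the walk. -/
lemma InsE_fresh {f : ℝ → ℝ} (hf : Measurable f) (hp : PMom μ f) (h : ℝ) (n k : ℕ) :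
    Integrable (fun w : Env × Env => Av w.1 h 0 0 n (fun s => f (row 0 w.2 (pos s k + 1))))
        (law2 μ) ∧
      ∫ w, Av w.1 h 0 0 n (fun s => f (row 0 w.2 (pos s k + 1))) ∂(law2 μ) = ∫ u, f u ∂μ := by
  have hΦ : ∀ x : ℤ, PMom (law μ) (fun g : Env => f (g (0, x + 1))) := fun x =>
    hp.comp (mp_coord (0, x + 1))
  constructor
  · exact (PMom_Av_gen (P := law2 μ) measurable_fst
      (F := fun (w : Env × Env) s => f (row 0 w.2 (pos s k + 1)))
      fun s _ => PMom_snd (hΦ (pos s k))).integrable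
  · exact integral_Av_fresh (Φ := fun x g => f (g (0, x + 1))) hΦ
      (fun x => integral_coord (0, x + 1) hf) h n k

/-- Proof. Integrate `KLf_le` with `ξ = row 0 w.2`. `∫ KLf = EKL` (`integral_lrho`). The integral of
`Av2 (ins k 1 …) h (n+1) (nm …)` is `EA2 μ h (n+1) (fun _ => nm …)` by `mp_ins`, `mp_integral`. The
integral of `Av (ind (M₁ < |ξ(pos s k + 1)|))` is `μ.real {u | M₁ < |u|}` and that of
`Av (max (|ξ …| - M₀) 0)` is `∫ max (|u| - M₀) 0 dμ` by `integral_Av_fresh`, `integral_coord`. -/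
theorem EKL_le (hμ : EM μ) (h : ℝ) {n k R : ℕ} (hR : R ≤ k) (hk : k + R ≤ n) {M₀ M₁ Y : ℝ}
    (hM₀ : 0 ≤ M₀) (hM₁ : 0 ≤ M₁) (hY : 1 ≤ Y) :
    EKL μ h n k R ≤ (1 + (|h| + M₀) + Y) *
        (Real.exp (Y + |h| + M₁) * (2 * EA2 μ h (n + 1) (fun _ => nm (k - R) k) +
          2 * EA2 μ h (n + 1) (fun _ => nm (k + 1) (k + 1 + R))) +
          4 * μ.real {u | M₁ < |u|}) +
      (3 + (|h| + M₀)) * tail μ h n k Y + ∫ u, max (|u| - M₀) 0 ∂μ := by
  have hind : Measurable (fun u : ℝ => ind (M₁ < |u|)) := by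
    unfold ind
    exact Measurable.ite (measurableSet_lt measurable_const (by fun_prop)) measurable_const
      measurable_const
  have hmax : Measurable (fun u : ℝ => max (|u| - M₀) 0) := by fun_prop
  have hPi : PMom μ (fun u : ℝ => ind (M₁ < |u|)) := PMom.of_bounded hind fun u => ind_abs _
  have hid : EMom μ (fun u : ℝ => u) := ⟨measurable_id, hμ⟩
  have hPm : PMom μ (fun u : ℝ => max (|u| - M₀) 0) := by
    refine hid.pmom.mono hmax fun u => ?_
    rw [abs_of_nonneg (le_max_right _ _)]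
    exact max_le (by linarith) (abs_nonneg u)
  obtain ⟨i1, e1⟩ := InsE_int_Av2 (μ := μ) h (n + 1) k (nm (k - R) k)
  obtain ⟨i2, e2⟩ := InsE_int_Av2 (μ := μ) h (n + 1) k (nm (k + 1) (k + 1 + R))
  obtain ⟨i3, e3⟩ := InsE_fresh hind hPi h n k
  obtain ⟨i5, e5⟩ := InsE_fresh hmax hPm h n k
  have i4 := integrable_tail hμ h n k Y
  have e3' : ∫ u, ind (M₁ < |u|) ∂μ = μ.real {u | M₁ < |u|} := by
    have hs : MeasurableSet {u : ℝ | M₁ < |u|} := measurableSet_lt measurable_const (by fun_prop)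
    rw [← integral_indicator_one hs]
    refine integral_congr_ae (Filter.Eventually.of_forall fun u => ?_)
    simp only [ind, Set.indicator, Set.mem_ofPred_eq, Pi.one_apply]
  rw [e3'] at e3
  have iL1 := (EMom_lrho hμ h n k true 0).integrable
  have iL2 := (EMom_AvW hμ h n k R 0).integrable
  have hL : ∫ w, KLf h n k R w.1 (row 0 w.2) ∂(law2 μ) = EKL μ h n k R := by
    unfold KLf EKL
    rw [integral_sub iL1 iL2, integral_lrho hμ]
    rfl
  have iL : Integrable (fun w : Env × Env => KLf h n k R w.1 (row 0 w.2)) (law2 μ) := iL1.sub iL2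
  rw [← hL]
  obtain ⟨j1, f1⟩ := InsE_lin i1 i2 2 2
  obtain ⟨j2, f2⟩ := InsE_lin j1 i3 (Real.exp (Y + |h| + M₁)) 4
  obtain ⟨j3, f3⟩ := InsE_lin j2 i4 (1 + (|h| + M₀) + Y) (3 + (|h| + M₀))
  obtain ⟨j4, f4⟩ := InsE_lin j3 i5 1 1
  have hpt : ∀ w : Env × Env, KLf h n k R w.1 (row 0 w.2) ≤
      1 * ((1 + (|h| + M₀) + Y) * (Real.exp (Y + |h| + M₁) *
        (2 * Av2 (ins k 1 w.1 (row 0 w.2)) h (n + 1) (nm (k - R) k) +
          2 * Av2 (ins k 1 w.1 (row 0 w.2)) h (n + 1) (nm (k + 1) (k + 1 + R))) +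
        4 * Av w.1 h 0 0 n (fun s => ind (M₁ < |row 0 w.2 (pos s k + 1)|))) +
      (3 + (|h| + M₀)) * (if Y ≤ Xf h n k true w.1 (row 0 w.2) then
        Xf h n k true w.1 (row 0 w.2) else 0)) +
      1 * Av w.1 h 0 0 n (fun s => max (|row 0 w.2 (pos s k + 1)| - M₀) 0) := by
    intro w
    rw [one_mul, one_mul]
    exact KLf_le w.1 (row 0 w.2) h hR hk hM₀ hM₁ hY
  refine (integral_mono iL j4 hpt).trans (le_of_eq ?_)
  rw [f4, f3, f2, f1, e1, e2, e3, e5, one_mul, one_mul]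
  rfl

end

end Pool.Agent.W_7d29a1_h47
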