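import Pool.Agent.W_7d29a1_h47.FinA
import Pool.Agent.W_7d29a1_h47.InsE
import Pool.Agent.W_7d29a1_h47.LamA

/-!
# The chain of insertions: expectations
-/

namespace Pool.Agent.W_7d29a1_h47

open MeasureTheory ProbabilityTheory Finset

noncomputable section

variable {μ : Measure ℝ} [IsProbabilityMeasure μ]

lemma FinB_EMom_pos (h : ℝ) (n : ℕ) :
    EMom (law μ) (fun g : Env => Av g h 0 0 n (fun s => (pos s n : ℝ))) :=
  EMom_Av fun _ _ => EMom.const _

omit [IsProbabilityMeasure μ] in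
lemma FinB_det (g : Env) (h δ : ℝ) (n : ℕ) :
    Real.log (Z g h 0 0 n) - δ * Av g h 0 0 n (fun s => (pos s n : ℝ)) ≤
      Real.log (Z g (h - δ) 0 0 n) := by
  have h1 : Z g (h - δ) 0 0 n = Z g h 0 0 n *
      Av g h 0 0 n (fun s => Real.exp (-δ * (pos s n : ℝ))) := by
    rw [Z_mul_Av]
    refine Finset.sum_congr rfl fun s _ => ?_
    rw [wt, wt, ← Real.exp_add]
    congr 1
    ring
  have h2 : 0 < Av g h 0 0 n (fun s => Real.exp (-δ * (pos s n : ℝ))) :=
    Av_pos fun _ _ => Real.exp_pos _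
  have h3 := Av_le_log (g := g) (h := h) (t := 0) (x := 0) (n := n)
    (fun s => -δ * (pos s n : ℝ))
  rw [Av_mul_left] at h3
  rw [h1, Real.log_mul (Z_pos _ _ _ _ _).ne' h2.ne']
  linarith

/-- **Chain inequality.** Proof. Integrate `chain_det` over `law2 μ`: `mp_star` for the right side,
`EW_row` for the window terms, `integral` of a function of the first environment
(`measurePreserving_fst`), `EMom_AvW`, `EMom_logZ`. -/
theorem chain_exp (hμ : EM μ) (h h' : ℝ) {o R m n : ℕ} (hn : o + 2 * R * m ≤ n) :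
    a μ h n + (h' - h) * (EA μ h n (fun _ s => (pos s n : ℝ)) + m) +
        ∑ j ∈ range m, EW μ h n (o + 2 * R * j + R) R ≤ a μ h' (n + m) := by
  have i1 : EMom (law2 μ) (fun w => Real.log (Z w.1 h 0 0 n)) := EMom_fst (EMom_logZ hμ h 0 0 n)
  have i2 : EMom (law2 μ) (fun w => Av w.1 h 0 0 n (fun s => (pos s n : ℝ))) :=
    EMom_fst (FinB_EMom_pos h n)
  have i3 : ∀ j ∈ range m, EMom (law2 μ) (fun w => Av w.1 h 0 0 n (fun s =>
      Real.log (Wr h (o + 2 * R * j + R) R w.1 (row j w.2)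
        (pos s (o + 2 * R * j + R - R)) (pos s (o + 2 * R * j + R + R))))) :=
    fun j _ => EMom_AvW hμ h n _ R j
  have i4 : EMom (law2 μ) (fun w => Real.log (Z (star o R m w.1 w.2) h' 0 0 (n + m))) :=
    (EMom_logZ hμ h' 0 0 (n + m)).comp (mp_star o R m)
  have i23 : Integrable (fun w : Env × Env => (h' - h) *
      (Av w.1 h 0 0 n (fun s => (pos s n : ℝ)) + m)) (law2 μ) :=
    (i2.integrable.add (integrable_const (m : ℝ))).const_mul _
  have is : Integrable (fun w : Env × Env => ∑ j ∈ range m, Av w.1 h 0 0 n (fun s =>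
      Real.log (Wr h (o + 2 * R * j + R) R w.1 (row j w.2)
        (pos s (o + 2 * R * j + R - R)) (pos s (o + 2 * R * j + R + R))))) (law2 μ) :=
    integrable_finsetSum _ fun j hj => (i3 j hj).integrable
  have key := integral_mono ((i1.integrable.add i23).add is) i4.integrable
    (fun w => chain_det h h' hn w.1 w.2)
  have e4 : ∫ w, Real.log (Z (star o R m w.1 w.2) h' 0 0 (n + m)) ∂(law2 μ) = a μ h' (n + m) := by
    rw [← integral_logZ h' 0 0 (n + m)]
    exact mp_integral (mp_star o R m) (EMom_logZ hμ h' 0 0 (n + m)).1.aestronglyMeasurable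
  have e1 : ∫ w, Real.log (Z w.1 h 0 0 n) ∂(law2 μ) = a μ h n := by
    rw [← integral_logZ h 0 0 n]
    exact mp_integral (f := fun w : Env × Env => w.1) measurePreserving_fst
      (EMom_logZ hμ h 0 0 n).1.aestronglyMeasurable
  have e2 : ∫ w, Av w.1 h 0 0 n (fun s => (pos s n : ℝ)) ∂(law2 μ) =
      EA μ h n (fun _ s => (pos s n : ℝ)) :=
    mp_integral (f := fun w : Env × Env => w.1) measurePreserving_fst
      (FinB_EMom_pos (μ := μ) h n).1.aestronglyMeasurable
  have e3 : ∫ w, ∑ j ∈ range m, Av w.1 h 0 0 n (fun s =>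
      Real.log (Wr h (o + 2 * R * j + R) R w.1 (row j w.2)
        (pos s (o + 2 * R * j + R - R)) (pos s (o + 2 * R * j + R + R)))) ∂(law2 μ) =
      ∑ j ∈ range m, EW μ h n (o + 2 * R * j + R) R := by
    rw [integral_finsetSum _ fun j hj => (i3 j hj).integrable]
    exact Finset.sum_congr rfl fun j _ => EW_row h n _ R j
  have e23 : ∫ w : Env × Env, (h' - h) * (Av w.1 h 0 0 n (fun s => (pos s n : ℝ)) + m) ∂(law2 μ) =
      (h' - h) * (EA μ h n (fun _ s => (pos s n : ℝ)) + m) := by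
    rw [integral_const_mul, integral_add i2.integrable (integrable_const (m : ℝ)), e2]
    simp
  have eL : ∫ w : Env × Env, (Real.log (Z w.1 h 0 0 n) +
      (h' - h) * (Av w.1 h 0 0 n (fun s => (pos s n : ℝ)) + m) +
      ∑ j ∈ range m, Av w.1 h 0 0 n (fun s =>
        Real.log (Wr h (o + 2 * R * j + R) R w.1 (row j w.2)
          (pos s (o + 2 * R * j + R - R)) (pos s (o + 2 * R * j + R + R))))) ∂(law2 μ) =
      a μ h n + (h' - h) * (EA μ h n (fun _ s => (pos s n : ℝ)) + m) +
        ∑ j ∈ range m, EW μ h n (o + 2 * R * j + R) R := by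
    have h1 : Integrable (fun w : Env × Env => Real.log (Z w.1 h 0 0 n) +
        (h' - h) * (Av w.1 h 0 0 n (fun s => (pos s n : ℝ)) + m)) (law2 μ) := i1.integrable.add i23
    rw [integral_add h1 is, integral_add i1.integrable i23, e1, e23, e3]
  rw [← e4, ← eL]
  exact key

/-- Lower bound for the mean end point. Proof. Pointwise
`log Z g (h - δ) 0 0 n = log Z g h 0 0 n + log Av (e^{-δ pos s n}) ≥ log Z g h 0 0 n - δ Av (pos s n)`
(`Av_le_log`); integrate. -/
lemma le_EA_pos (hμ : EM μ) (h δ : ℝ) (n : ℕ) :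
    a μ h n - δ * EA μ h n (fun _ s => (pos s n : ℝ)) ≤ a μ (h - δ) n := by
  have i1 := (EMom_logZ hμ h 0 0 n).integrable
  have i2 : Integrable (fun g : Env => δ * Av g h 0 0 n (fun s => (pos s n : ℝ))) (law μ) :=
    (FinB_EMom_pos h n).integrable.const_mul δ
  have key := integral_mono (i1.sub i2) (EMom_logZ hμ (h - δ) 0 0 n).integrable
    (fun g => FinB_det g h δ n)
  have e : ∫ g : Env, (Real.log (Z g h 0 0 n) - δ * Av g h 0 0 n (fun s => (pos s n : ℝ))) ∂(law μ) =
      a μ h n - δ * EA μ h n (fun _ s => (pos s n : ℝ)) := by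
    rw [integral_sub i1 i2, integral_const_mul]
    rfl
  rw [← e]
  exact key

end

end Pool.Agent.W_7d29a1_h47
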