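import Pool.Agent.W_7d29a1_h47.MeetA
import Pool.Agent.W_7d29a1_h47.Chain

/-!
# Two replicas meet
-/

namespace Pool.Agent.W_7d29a1_h47

open MeasureTheory ProbabilityTheory Finset

noncomputable section

variable {μ : Measure ℝ} [IsProbabilityMeasure μ]

lemma Meet_pf2_good (n : ℕ) (Q ρ : ℝ) (w L k : ℕ) :
    PF2 μ n (fun g s r => ind (¬ good g Q ρ w L k s r)) := by
  refine PF2.ind fun s _ r _ => ?_
  have h1 : MeasurableSet {g : Env | V g k (pos s k) L ≤ Q} :=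
    measurableSet_le (measurable_V k (pos s k) L) measurable_const
  have h2 : MeasurableSet {g : Env | V g k (pos r k) L ≤ Q} :=
    measurableSet_le (measurable_V k (pos r k) L) measurable_const
  have h3 : MeasurableSet {g : Env | good g Q ρ w L k s r} :=
    (MeasurableSet.const _).inter ((MeasurableSet.const _).inter ((MeasurableSet.const _).inter
      ((MeasurableSet.const _).inter (h1.inter h2))))
  exact h3.compl

lemma Meet_integrable (h : ℝ) {n : ℕ} {F : Env → (ℕ → Bool) → (ℕ → Bool) → ℝ} (hF : PF2 μ n F) :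
    Integrable (fun g => Av2 g h n (F g)) (law μ) :=
  (hF.inner (h := h)).integrable (h := h)

/-- The integrated form of `meet_sum`. -/
lemma Meet_sum (h : ℝ) {Q ρ : ℝ} {w L n N R : ℕ} (hρ0 : 0 ≤ ρ) (hR : 1 ≤ R)
    (hL : 4 * (w : ℝ) + 3 ≤ (1 - ρ) * L / 2) (hN : N + L ≤ n + 1) :
    ∑ k ∈ range N, EA2 μ h n (fun _ s r => ind (∀ i, k ≤ i + R → i < k → pos s i ≠ pos r i)) ≤
      ∑ k ∈ range N, EA2 μ h n (fun g s r => ind (¬ good g Q ρ w L k s r)) +
        (cmeet Q L)⁻¹ * (((L : ℝ) + 1) * (((N : ℝ) + L) / R + 1)) := by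
  have hJ : ∀ k ∈ range N, Integrable (fun g => Av2 g h n (fun s r =>
      ind (∀ i, k ≤ i + R → i < k → pos s i ≠ pos r i))) (law μ) := fun k _ =>
    Meet_integrable h (PF2.det fun s r => ind (∀ i, k ≤ i + R → i < k → pos s i ≠ pos r i))
  have hB : ∀ k ∈ range N, Integrable (fun g => Av2 g h n (fun s r =>
      ind (¬ good g Q ρ w L k s r))) (law μ) := fun k _ =>
    Meet_integrable h (Meet_pf2_good n Q ρ w L k)
  have h1 : ∑ k ∈ range N, EA2 μ h n (fun _ s r => ind (∀ i, k ≤ i + R → i < k → pos s i ≠ pos r i)) =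
      ∫ g, ∑ k ∈ range N, Av2 g h n (fun s r =>
        ind (∀ i, k ≤ i + R → i < k → pos s i ≠ pos r i)) ∂(law μ) :=
    (integral_finsetSum _ hJ).symm
  have h2 : ∑ k ∈ range N, EA2 μ h n (fun g s r => ind (¬ good g Q ρ w L k s r)) +
        (cmeet Q L)⁻¹ * (((L : ℝ) + 1) * (((N : ℝ) + L) / R + 1)) =
      ∫ g, (∑ k ∈ range N, Av2 g h n (fun s r => ind (¬ good g Q ρ w L k s r)) +
        (cmeet Q L)⁻¹ * (((L : ℝ) + 1) * (((N : ℝ) + L) / R + 1))) ∂(law μ) := by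
    rw [integral_add (integrable_finsetSum _ hB) (integrable_const _), integral_finsetSum _ hB,
      integral_const, probReal_univ, one_smul]
    rfl
  rw [h1, h2]
  exact integral_mono (integrable_finsetSum _ hJ)
    ((integrable_finsetSum _ hB).add (integrable_const _))
    fun g => meet_sum g h hρ0 hR hL hN

/-- **Two replicas meet.** Proof. `good_avg` with `η/4`; then `R₀` with
`(cmeet Q L)⁻¹ (L+1) · 2 / R₀ ≤ η/4`, and `n₀` large. Integrate `meet_sum` with `N = n - L + 1` over the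
environment. Substitute `k ↦ k + R`: for `k ≤ n - R`, `ind (∀ i, k ≤ i → i ≤ k + R → pos s i ≠ pos r i)
≤ ind (∀ i, k + R ≤ i + R → i < k + R → pos s i ≠ pos r i)`; the `k` with `k + R > n - L` contribute at
most `L ≤ η n/4`. -/
theorem meet (hμ : EM μ) (hnd : Nondeg μ) {h₀ δ v : ℝ} (hA : Aff μ h₀ δ v) {η : ℝ} (hη : 0 < η) :
    ∃ R₀ : ℕ, 1 ≤ R₀ ∧ ∀ R : ℕ, R₀ ≤ R → ∃ n₀ : ℕ, ∀ n : ℕ, n₀ ≤ n →
      ∑ k ∈ range (n - R + 1), EA2 μ h₀ n (fun _ s r =>
        ind (∀ i, k ≤ i → i ≤ k + R → pos s i ≠ pos r i)) ≤ η * n := by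
  obtain ⟨w, L, Q, ρ, hρ0, hL1, hL, n₁, hn₁⟩ := good_avg hμ hnd hA (show 0 < η / 4 by positivity)
  obtain ⟨A, hAdef⟩ : ∃ A : ℝ, A = (cmeet Q L)⁻¹ * ((L : ℝ) + 1) := ⟨_, rfl⟩
  have hA0 : 0 < A := by
    rw [hAdef]
    have := cmeet_pos Q L
    positivity
  refine ⟨max 1 ⌈8 * A / η⌉₊, le_max_left _ _, fun R hR => ?_⟩
  have hR1 : 1 ≤ R := (le_max_left _ _).trans hR
  have hR2 : 8 * A / η ≤ R :=
    (Nat.le_ceil _).trans (by exact_mod_cast (le_max_right _ _).trans hR)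
  have hRpos : (0 : ℝ) < R := by exact_mod_cast hR1
  refine ⟨max (max n₁ (R + L + 1)) ⌈4 * (A + L) / η⌉₊, fun n hn => ?_⟩
  have hn1 : n₁ ≤ n := ((le_max_left _ _).trans (le_max_left _ _)).trans hn
  have hn2 : R + L + 1 ≤ n := ((le_max_right _ _).trans (le_max_left _ _)).trans hn
  have hn3 : 4 * (A + L) / η ≤ n :=
    (Nat.le_ceil _).trans (by exact_mod_cast (le_max_right _ _).trans hn)
  obtain ⟨N, hN⟩ : ∃ N : ℕ, N = n - L + 1 := ⟨_, rfl⟩
  have hNL : N + L = n + 1 := by omega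
  obtain ⟨J, hJ⟩ : ∃ J : ℕ → ℝ, ∀ m, J m = EA2 μ h₀ n (fun _ s r =>
      ind (∀ i, m ≤ i + R → i < m → pos s i ≠ pos r i)) := ⟨_, fun _ => rfl⟩
  have hJ0 : ∀ m, 0 ≤ J m := fun m => by
    rw [hJ]
    exact EA2_nonneg fun _ _ _ _ _ => ind_nonneg _
  have hJ1 : ∀ m, J m ≤ 1 := fun m => by
    rw [hJ]
    have h1 := EA2_mono (μ := μ) (h := h₀) (n := n)
      (F := fun _ s r => ind (∀ i, m ≤ i + R → i < m → pos s i ≠ pos r i)) (G := fun _ _ _ => 1)
      (PF2.det fun s r => ind (∀ i, m ≤ i + R → i < m → pos s i ≠ pos r i)) (PF2.det fun _ _ => 1)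
      fun _ _ _ _ _ => ind_le_one _
    rwa [EA2_const] at h1
  -- the integrated inequality
  have hmain := Meet_sum (μ := μ) h₀ (Q := Q) (ρ := ρ) (w := w) (L := L) (n := n) (N := N) (R := R)
    hρ0 hR1 hL hNL.le
  have hgood := hn₁ n hn1
  rw [← hN] at hgood
  have hNLr : (N : ℝ) + L = n + 1 := by exact_mod_cast hNL
  rw [hNLr] at hmain
  simp only [← hJ] at hmain
  -- comparison of the sums
  have hcmp : ∑ k ∈ range (n - R + 1), EA2 μ h₀ n (fun _ s r =>
        ind (∀ i, k ≤ i → i ≤ k + R → pos s i ≠ pos r i)) ≤ ∑ m ∈ range (n + 1), J m := by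
    have h1 : ∑ k ∈ range (n - R + 1), EA2 μ h₀ n (fun _ s r =>
        ind (∀ i, k ≤ i → i ≤ k + R → pos s i ≠ pos r i)) ≤ ∑ k ∈ range (n - R + 1), J (R + k) := by
      refine Finset.sum_le_sum fun k _ => ?_
      rw [hJ]
      refine EA2_mono (PF2.det fun s r => ind (∀ i, k ≤ i → i ≤ k + R → pos s i ≠ pos r i))
        (PF2.det fun s r => ind (∀ i, R + k ≤ i + R → i < R + k → pos s i ≠ pos r i))
        fun _ s _ r _ => ind_mono fun h i hi1 hi2 => h i (by omega) (by omega)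
    have h2 : n + 1 = R + (n - R + 1) := by omega
    have h3 := Finset.sum_range_add J R (n - R + 1)
    rw [← h2] at h3
    have h4 : 0 ≤ ∑ m ∈ range R, J m := Finset.sum_nonneg fun m _ => hJ0 m
    linarith
  have hsplit : ∑ m ∈ range (n + 1), J m ≤ ∑ m ∈ range N, J m + L := by
    rw [← hNL, Finset.sum_range_add]
    have h1 : ∑ k ∈ range L, J (N + k) ≤ ∑ _k ∈ range L, (1 : ℝ) :=
      Finset.sum_le_sum fun k _ => hJ1 _
    rw [Finset.sum_const, Finset.card_range, nsmul_eq_mul, mul_one] at h1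
    linarith
  have hn0 : (1 : ℝ) ≤ n := by exact_mod_cast (by omega : 1 ≤ n)
  have e1 : (cmeet Q L)⁻¹ * (((L : ℝ) + 1) * (((n : ℝ) + 1) / R + 1)) = A * ((n + 1) / R) + A := by
    rw [hAdef]
    ring
  have e2 : A * (((n : ℝ) + 1) / R) ≤ η / 4 * n := by
    have h1 : 8 * A ≤ R * η := by
      rwa [div_le_iff₀ hη] at hR2
    rw [mul_div_assoc', div_le_iff₀ hRpos]
    have h2 : A * ((n : ℝ) + 1) ≤ A * (2 * n) := mul_le_mul_of_nonneg_left (by linarith) hA0.le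
    have h3 : 8 * A * n ≤ R * η * n := mul_le_mul_of_nonneg_right h1 (by linarith)
    linarith
  have e3 : A + L ≤ η / 4 * n := by
    rw [div_le_iff₀ hη] at hn3
    linarith
  rw [e1] at hmain
  have h5 : 0 ≤ η * (n : ℝ) := by positivity
  linarith

end

end Pool.Agent.W_7d29a1_h47
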