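import Pool.Agent.W_7d29a1_h47.UiC

/-!
# Uniform integrability in the mean
-/

namespace Pool.Agent.W_7d29a1_h47

open MeasureTheory ProbabilityTheory Finset

noncomputable section

variable {μ : Measure ℝ} [IsProbabilityMeasure μ]

omit [IsProbabilityMeasure μ] in
lemma UiD_Cc_nonneg : 0 ≤ Cc μ := by unfold Cc; positivity

omit [IsProbabilityMeasure μ] in
lemma UiD_log_nonneg (n : ℕ) : 0 ≤ Real.log (2 * (n : ℝ) + 1) := by
  apply Real.log_nonneg
  have : (0 : ℝ) ≤ n := Nat.cast_nonneg n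
  linarith

/-- `eps μ` is monotone (`Cc μ ≥ 0`). -/
lemma eps_mono {m n : ℕ} (hmn : m ≤ n) : eps μ m ≤ eps μ n := by
  unfold eps
  have hmn' : (m : ℝ) ≤ n := by exact_mod_cast hmn
  have h0 : (0 : ℝ) ≤ m := Nat.cast_nonneg m
  have hC : 0 ≤ Cc μ := UiD_Cc_nonneg
  have h1 : Real.log (2 * (m : ℝ) + 1) ≤ Real.log (2 * (n : ℝ) + 1) :=
    Real.log_le_log (by positivity) (by linarith)
  have h2 := UiD_log_nonneg m
  exact mul_le_mul (Real.sqrt_le_sqrt hmn') (by linarith) (by linarith) (Real.sqrt_nonneg _)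

lemma eps_nonneg (n : ℕ) : 0 ≤ eps μ n := by
  unfold eps
  have hC : 0 ≤ Cc μ := UiD_Cc_nonneg
  have h2 := UiD_log_nonneg n
  positivity

/-- `√n (log (2n+1) + C) / n → 0`. -/
lemma tendsto_eps_div : Filter.Tendsto (fun n : ℕ => eps μ n / n) Filter.atTop (nhds 0) := by
  have hlog : (fun x : ℝ => Real.log (2 * x + 1) + Cc μ) =o[Filter.atTop]
      (fun x : ℝ => x ^ (1 / 2 : ℝ)) := by
    have h1 : (fun x : ℝ => Real.log x) =o[Filter.atTop] (fun x : ℝ => x ^ (1 / 2 : ℝ)) :=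
      isLittleO_log_rpow_atTop (by norm_num)
    have hc : (fun _ : ℝ => Cc μ + Real.log 3) =o[Filter.atTop] (fun x : ℝ => x ^ (1 / 2 : ℝ)) := by
      rw [Asymptotics.isLittleO_const_left]
      right
      have := tendsto_rpow_atTop (y := 1 / 2) (by norm_num)
      exact tendsto_norm_atTop_atTop.comp this
    have h2 := h1.add hc
    refine Asymptotics.IsBigO.trans_isLittleO (Asymptotics.IsBigO.of_bound 1 ?_) h2
    filter_upwards [Filter.eventually_ge_atTop 1] with x hx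
    have hC : 0 ≤ Cc μ := UiD_Cc_nonneg
    have h3 : Real.log (2 * x + 1) ≤ Real.log x + Real.log 3 := by
      rw [← Real.log_mul (by linarith) (by norm_num)]
      exact Real.log_le_log (by linarith) (by linarith)
    have h4 : 0 ≤ Real.log (2 * x + 1) := Real.log_nonneg (by linarith)
    have h5 : 0 ≤ Real.log x := Real.log_nonneg hx
    have h6 : 0 ≤ Real.log 3 := Real.log_nonneg (by norm_num)
    rw [Real.norm_of_nonneg (by linarith), Real.norm_of_nonneg (by linarith)]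
    linarith
  have h1 := hlog.tendsto_div_nhds_zero.comp (tendsto_natCast_atTop_atTop (R := ℝ))
  refine h1.congr' ?_
  filter_upwards [Filter.eventually_ge_atTop 1] with n hn
  have hn' : (0 : ℝ) < n := by exact_mod_cast hn
  simp only [Function.comp]
  unfold eps
  rw [← Real.sqrt_eq_rpow]
  have hs : 0 < Real.sqrt n := Real.sqrt_pos.2 hn'
  have hss : Real.sqrt n * Real.sqrt n = n := Real.mul_self_sqrt hn'.le
  rw [div_eq_div_iff hs.ne' hn'.ne']
  calc _ = (Real.log (2 * (n : ℝ) + 1) + Cc μ) * (Real.sqrt n * Real.sqrt n) := by rw [hss]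
    _ = _ := by ring

/-- Proof. Monotone or dominated convergence: `max (|t| - K) 0 ≤ |t|`, tends to `0` pointwise as
`K → ∞`; `|t|` is integrable by `EM`. -/
lemma exists_trunc (hμ : EM μ) {ε : ℝ} (hε : 0 < ε) (K₀ : ℝ) :
    ∃ K : ℝ, 0 ≤ K ∧ K₀ ≤ K ∧ ∫ t, max (|t| - K) 0 ∂μ ≤ ε := by
  have hint : Integrable (fun u : ℝ => |u|) μ := by
    refine (hμ 1).mono' (by fun_prop) (Filter.Eventually.of_forall fun u => ?_)
    rw [Real.norm_eq_abs, abs_abs, one_mul]
    linarith [Real.add_one_le_exp |u|]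
  have hlim : Filter.Tendsto (fun m : ℕ => ∫ t, max (|t| - (m : ℝ)) 0 ∂μ) Filter.atTop
      (nhds (∫ _t : ℝ, (0 : ℝ) ∂μ)) := by
    refine tendsto_integral_of_dominated_convergence (fun u : ℝ => |u|)
      (fun m => by fun_prop) hint (fun m => Filter.Eventually.of_forall fun u => ?_)
      (Filter.Eventually.of_forall fun u => ?_)
    · rw [Real.norm_of_nonneg (le_max_right _ _)]
      exact max_le (by linarith [(Nat.cast_nonneg m : (0 : ℝ) ≤ m)]) (abs_nonneg u)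
    · apply tendsto_const_nhds.congr'
      obtain ⟨M, hM⟩ := exists_nat_ge |u|
      filter_upwards [Filter.eventually_ge_atTop M] with m hm
      have : (M : ℝ) ≤ m := by exact_mod_cast hm
      rw [max_eq_right (by linarith)]
  rw [integral_zero] at hlim
  have h1 := (hlim.eventually (gt_mem_nhds hε)).and
    (Filter.eventually_ge_atTop (Nat.ceil K₀))
  obtain ⟨m, hm1, hm2⟩ := h1.exists
  exact ⟨m, Nat.cast_nonneg m, (Nat.le_ceil K₀).trans (by exact_mod_cast hm2), hm1.le⟩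

lemma UiD_sum_range_add (f : ℕ → ℝ) (M B : ℕ) :
    ∑ n ∈ range (M + B), f n = ∑ n ∈ range M, f n + ∑ l ∈ range B, f (M + l) :=
  Finset.sum_range_add f M B

/-- Telescoping over `n`. Proof. `∑_{n ∈ [N,2N)} (a_{n+B} - a_n) = ∑_{[2N,2N+B)} a - ∑_{[N,N+B)} a`
(both sides equal `∑_{[N+B,2N+B)} a - ∑_{[N,2N)} a`), `a_n ≤ n Λ` (`a_le_Lam`) for the first sum,
`a_n ≥ n Λ - eps μ n` (`rate`) and `eps_mono` for the second; the main terms are
`∑_{l<B} ((2N + l) - (N + l)) Λ = B N Λ`. -/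
lemma sum_incr_le (hμ : EM μ) (h : ℝ) (N B : ℕ) :
    ∑ n ∈ Ico N (2 * N), (a μ h (n + B) - a μ h n - B * Lam μ h) ≤ B * eps μ (N + B) := by
  have h1 : ∑ n ∈ Ico N (2 * N), (a μ h (n + B) - a μ h n) =
      ∑ l ∈ range B, (a μ h (2 * N + l) - a μ h (N + l)) := by
    have e1 : ∑ n ∈ Ico N (2 * N), a μ h (n + B) =
        ∑ n ∈ range (2 * N + B), a μ h n - ∑ n ∈ range (N + B), a μ h n := by
      rw [Finset.sum_Ico_add' (fun n => a μ h n) N (2 * N) B,
        Finset.sum_Ico_eq_sub _ (by omega)]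
    have e2 : ∑ n ∈ Ico N (2 * N), a μ h n =
        ∑ n ∈ range (2 * N), a μ h n - ∑ n ∈ range N, a μ h n := by
      rw [Finset.sum_Ico_eq_sub _ (by omega)]
    have e3 := UiD_sum_range_add (fun n => a μ h n) (2 * N) B
    have e4 := UiD_sum_range_add (fun n => a μ h n) N B
    rw [Finset.sum_sub_distrib, Finset.sum_sub_distrib, e1, e2, e3, e4]
    ring
  have h2 : ∑ n ∈ Ico N (2 * N), (a μ h (n + B) - a μ h n - B * Lam μ h) =
      ∑ l ∈ range B, (a μ h (2 * N + l) - a μ h (N + l)) - N * (B * Lam μ h) := by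
    rw [Finset.sum_sub_distrib, h1]
    simp only [sum_const, Nat.card_Ico, nsmul_eq_mul]
    rw [show 2 * N - N = N by omega]
  rw [h2]
  have h3 : ∑ l ∈ range B, (a μ h (2 * N + l) - a μ h (N + l)) ≤
      ∑ _l ∈ range B, (N * Lam μ h + eps μ (N + B)) := by
    refine sum_le_sum fun l hl => ?_
    have hl' := mem_range.1 hl
    have i1 := a_le_Lam hμ h (2 * N + l)
    have i2 := rate hμ h (N + l)
    have i3 : eps μ (N + l) ≤ eps μ (N + B) := eps_mono (by omega)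
    push_cast at i1 i2
    linarith
  rw [sum_const, card_range, nsmul_eq_mul] at h3
  nlinarith

/-- Covering of the bulk. Proof. For `i < P ≤ B` the map `(n, k) ↦ (n + i, k + i)` is injective and
its image of `[N,2N) × [0,N)` contains `[N+B,2N) × [B,N)`; all terms are `≥ 0` (`k ≤ n`). Sum over
`i < P`. -/
lemma bulk_le {f : ℕ → ℕ → ℝ} (hf : ∀ n k, k ≤ n → 0 ≤ f n k) {N B P : ℕ} (hP : P ≤ B) :
    P * ∑ n ∈ Ico (N + B) (2 * N), ∑ k ∈ Ico B N, f n k ≤
      ∑ n ∈ Ico N (2 * N), ∑ k ∈ range N, ∑ i ∈ range P, f (n + i) (k + i) := by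
  have h1 : ∑ n ∈ Ico N (2 * N), ∑ k ∈ range N, ∑ i ∈ range P, f (n + i) (k + i) =
      ∑ i ∈ range P, ∑ n ∈ Ico N (2 * N), ∑ k ∈ range N, f (n + i) (k + i) := by
    rw [Finset.sum_comm]
    conv_rhs => rw [Finset.sum_comm]
    rw [Finset.sum_comm]
    refine sum_congr rfl fun n _ => ?_
    rw [Finset.sum_comm]
  rw [h1]
  have h2 : (P : ℝ) * ∑ n ∈ Ico (N + B) (2 * N), ∑ k ∈ Ico B N, f n k =
      ∑ _i ∈ range P, ∑ n ∈ Ico (N + B) (2 * N), ∑ k ∈ Ico B N, f n k := by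
    rw [sum_const, card_range, nsmul_eq_mul]
  rw [h2]
  refine sum_le_sum fun i hi => ?_
  have hi' : i < B := (mem_range.1 hi).trans_le hP
  have h3 : ∑ n ∈ Ico N (2 * N), ∑ k ∈ range N, f (n + i) (k + i) =
      ∑ n ∈ Ico (N + i) (2 * N + i), ∑ k ∈ Ico i (N + i), f n k := by
    rw [← Finset.sum_Ico_add' (fun n => ∑ k ∈ Ico i (N + i), f n k) N (2 * N) i]
    refine sum_congr rfl fun n _ => ?_
    have := Finset.sum_Ico_add' (fun k => f (n + i) k) 0 N i
    rw [zero_add] at this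
    rw [← this, Nat.Ico_zero_eq_range]
  rw [h3]
  have hs1 : Ico (N + B) (2 * N) ⊆ Ico (N + i) (2 * N + i) := by
    intro n hn
    rw [mem_Ico] at hn ⊢
    omega
  have hs2 : Ico B N ⊆ Ico i (N + i) := by
    intro n hn
    rw [mem_Ico] at hn ⊢
    omega
  refine (sum_le_sum_of_subset_of_nonneg hs1 fun n hn _ => ?_).trans' (sum_le_sum fun n hn => ?_)
  · refine sum_nonneg fun k hk => hf n k ?_
    rw [mem_Ico] at hn hk
    omega
  · refine sum_le_sum_of_subset_of_nonneg hs2 fun k hk _ => hf n k ?_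
    rw [mem_Ico] at hn hk
    omega

lemma UiD_sum_Ico (f : ℕ → ℝ) {B N : ℕ} (h : B ≤ N) :
    ∑ k ∈ range B, f k + ∑ k ∈ Ico B N, f k = ∑ k ∈ range N, f k :=
  Finset.sum_range_add_sum_Ico f h

/-- Boundary terms. Proof. `[N,2N) × [0,N)` minus `[N+B,2N) × [B,N)` has at most `2 B N` elements. -/
lemma boundary_le {f : ℕ → ℕ → ℝ} {C : ℝ} (hC : 0 ≤ C) (hf : ∀ n k, k ≤ n → f n k ≤ C)
    (N B : ℕ) :
    ∑ n ∈ Ico N (2 * N), ∑ k ∈ range N, f n k ≤
      ∑ n ∈ Ico (N + B) (2 * N), ∑ k ∈ Ico B N, f n k + 2 * B * N * C := by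
  have hrow : ∀ n ∈ Ico N (2 * N), ∑ k ∈ range N, f n k ≤ ∑ k ∈ Ico B N, f n k + B * C := by
    intro n hn
    rw [mem_Ico] at hn
    rcases le_total B N with hBN | hBN
    · rw [← UiD_sum_Ico (f n) hBN]
      have : ∑ k ∈ range B, f n k ≤ ∑ _k ∈ range B, C :=
        sum_le_sum fun k hk => hf n k (by have := mem_range.1 hk; omega)
      rw [sum_const, card_range, nsmul_eq_mul] at this
      linarith
    · rw [Finset.Ico_eq_empty_of_le hBN, sum_empty, zero_add]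
      have : ∑ k ∈ range N, f n k ≤ ∑ _k ∈ range N, C :=
        sum_le_sum fun k hk => hf n k (by have := mem_range.1 hk; omega)
      rw [sum_const, card_range, nsmul_eq_mul] at this
      have h2 : (N : ℝ) * C ≤ B * C := mul_le_mul_of_nonneg_right (by exact_mod_cast hBN) hC
      linarith
  have hrow2 : ∀ n ∈ Ico N (2 * N), ∑ k ∈ range N, f n k ≤ N * C := by
    intro n hn
    rw [mem_Ico] at hn
    have : ∑ k ∈ range N, f n k ≤ ∑ _k ∈ range N, C :=
      sum_le_sum fun k hk => hf n k (by have := mem_range.1 hk; omega)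
    rwa [sum_const, card_range, nsmul_eq_mul] at this
  have hN0 : (0 : ℝ) ≤ N := Nat.cast_nonneg N
  have hB0 : (0 : ℝ) ≤ B := Nat.cast_nonneg B
  rcases le_total B N with hBN | hBN
  · have hsplit : ∑ n ∈ Ico N (2 * N), ∑ k ∈ range N, f n k =
        ∑ n ∈ Ico N (N + B), ∑ k ∈ range N, f n k +
          ∑ n ∈ Ico (N + B) (2 * N), ∑ k ∈ range N, f n k :=
      (Finset.sum_Ico_consecutive _ (by omega) (by omega)).symm
    rw [hsplit]
    have h1 : ∑ n ∈ Ico N (N + B), ∑ k ∈ range N, f n k ≤ ∑ _n ∈ Ico N (N + B), (N : ℝ) * C :=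
      sum_le_sum fun n hn => hrow2 n (by rw [mem_Ico] at hn ⊢; omega)
    have h2 : ∑ n ∈ Ico (N + B) (2 * N), ∑ k ∈ range N, f n k ≤
        ∑ n ∈ Ico (N + B) (2 * N), (∑ k ∈ Ico B N, f n k + B * C) :=
      sum_le_sum fun n hn => hrow n (by rw [mem_Ico] at hn ⊢; omega)
    rw [sum_const, Nat.card_Ico, nsmul_eq_mul, show N + B - N = B by omega] at h1
    rw [sum_add_distrib, sum_const, Nat.card_Ico, nsmul_eq_mul] at h2
    have h3 : ((2 * N - (N + B) : ℕ) : ℝ) * (B * C) ≤ N * (B * C) := by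
      apply mul_le_mul_of_nonneg_right _ (by positivity)
      exact_mod_cast (by omega : 2 * N - (N + B) ≤ N)
    nlinarith
  · rw [Finset.Ico_eq_empty_of_le (by omega : 2 * N ≤ N + B), sum_empty, zero_add]
    have h1 : ∑ n ∈ Ico N (2 * N), ∑ k ∈ range N, f n k ≤ ∑ _n ∈ Ico N (2 * N), (N : ℝ) * C :=
      sum_le_sum hrow2
    rw [sum_const, Nat.card_Ico, nsmul_eq_mul, show 2 * N - N = N by omega] at h1
    have h2 : (N : ℝ) * (N * C) ≤ B * (N * C) :=
      mul_le_mul_of_nonneg_right (by exact_mod_cast hBN) (by positivity)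
    have h3 : 0 ≤ (B : ℝ) * (N * C) := by positivity
    nlinarith

/-- **Uniform integrability in the mean.** Proof. Let `c = (1+v)/4 > 0` (`Aff.neg_one_lt`). Take
`K'` from `exists_trunc` with `∫ max (|t| - K') 0 ≤ ε c/16`, and `Lam μ h + |h| + K' ≥ 1`; `B ≥ 1` and
`P` from `exists_P` with `ε c/16`; `Y = 2 B (Lam μ h + |h| + K') ≥ 1`. Sum `tail_sum_le` over
`n ∈ [N,2N)`, `k < N`; `bulk_le` and `sum_incr_le`:
`P ∑_{bulk} tail ≤ 2 (N B eps μ (N+B) + N² B ε c/16 + N² B ε c/16)`; divide by `P ≥ c B`: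
`∑_{bulk} ≤ (2/c) N eps μ (N+B) + N² ε/4`. `boundary_le` with `C = c1 μ h + |h| + ∫|u|` (`tail_le`; replace
`C` by `max C 0`). For `N` large the remaining terms are `≤ ε N²/4` each (`tendsto_eps_div`). -/
theorem ui (hμ : EM μ) {h δ v : ℝ} (hA : Aff μ h δ v) {ε : ℝ} (hε : 0 < ε) :
    ∃ Y : ℝ, 1 ≤ Y ∧ ∃ N₀ : ℕ, ∀ N : ℕ, N₀ ≤ N →
      ∑ n ∈ Ico N (2 * N), ∑ k ∈ range N, tail μ h n k Y ≤ ε * N ^ 2 := by
  obtain ⟨c, hc⟩ : ∃ c : ℝ, c = (1 + v) / 4 := ⟨_, rfl⟩
  have hc0 : 0 < c := by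
    rw [hc]; have := hA.neg_one_lt hμ; linarith
  obtain ⟨K', hK0, hK1, hK2⟩ := exists_trunc hμ (ε := ε * c / 16) (by positivity)
    (1 - Lam μ h - |h|)
  obtain ⟨B₀, hB₀⟩ := exists_P hμ hA (ε := ε * c / 16) (by positivity)
  obtain ⟨B, hBdef⟩ : ∃ B : ℕ, B = max B₀ 1 := ⟨_, rfl⟩
  have hB1 : 1 ≤ B := by rw [hBdef]; exact le_max_right _ _
  obtain ⟨P, hPB, hcP, hP⟩ := hB₀ B (by rw [hBdef]; exact le_max_left _ _)
  rw [← hc] at hcP
  have hB1' : (1 : ℝ) ≤ B := by exact_mod_cast hB1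
  obtain ⟨Y, hY⟩ : ∃ Y : ℝ, Y = 2 * (B * (Lam μ h + |h| + K')) := ⟨_, rfl⟩
  obtain ⟨C, hC⟩ : ∃ C : ℝ, C = max (c1 μ h + |h| + ∫ u, |u| ∂μ) 0 := ⟨_, rfl⟩
  have hC0 : 0 ≤ C := by rw [hC]; exact le_max_right _ _
  have htl : ∀ n k, k ≤ n → tail μ h n k Y ≤ C := fun n k hk =>
    (tail_le hμ h hk Y).trans (by rw [hC]; exact le_max_left _ _)
  have htn : ∀ n k, k ≤ n → 0 ≤ tail μ h n k Y := fun n k hk => tail_nonneg h hk Y
  -- the rate
  have hev := (tendsto_eps_div (μ := μ)).eventually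
    (gt_mem_nhds (show (0 : ℝ) < ε * c / 16 by positivity))
  obtain ⟨N₁, hN₁⟩ := Filter.eventually_atTop.1 hev
  obtain ⟨N₂, hN₂⟩ := exists_nat_ge (8 * (B * C) / ε)
  refine ⟨Y, ?_, max (max N₁ N₂) (max B 1), fun N hN => ?_⟩
  · have h1 : 1 ≤ Lam μ h + |h| + K' := by linarith
    have h2 : 1 ≤ (B : ℝ) * (Lam μ h + |h| + K') := by nlinarith
    rw [hY]; linarith
  have hNN1 : N₁ ≤ N := ((le_max_left _ _).trans (le_max_left _ _)).trans hN
  have hNN2 : N₂ ≤ N := ((le_max_right _ _).trans (le_max_left _ _)).trans hN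
  have hNB : B ≤ N := ((le_max_left _ _).trans (le_max_right _ _)).trans hN
  have hN1 : 1 ≤ N := ((le_max_right _ _).trans (le_max_right _ _)).trans hN
  have hN0 : (0 : ℝ) < N := by exact_mod_cast hN1
  have hB0 : (0 : ℝ) < B := by linarith
  -- summation
  have hsum : ∑ n ∈ Ico N (2 * N), ∑ k ∈ range N, ∑ i ∈ range P, tail μ h (n + i) (k + i) Y ≤
      2 * N * (B * eps μ (N + B)) + N ^ 2 * B * (ε * c / 4) := by
    have h1 : ∑ n ∈ Ico N (2 * N), ∑ k ∈ range N, ∑ i ∈ range P, tail μ h (n + i) (k + i) Y ≤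
        ∑ n ∈ Ico N (2 * N), ∑ _k ∈ range N,
          (2 * (a μ h (n + B) - a μ h n - B * Lam μ h) + B * (ε * c / 4)) := by
      refine sum_le_sum fun n hn => sum_le_sum fun k hk => ?_
      rw [mem_Ico] at hn
      rw [mem_range] at hk
      have h2 := tail_sum_le hμ h (show k ≤ n by omega) hPB K'
      rw [← hY] at h2
      have h3 := mul_le_mul_of_nonneg_left hK2 hB0.le
      linarith
    refine h1.trans ?_
    simp only [sum_const, card_range, nsmul_eq_mul]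
    rw [← mul_sum, sum_add_distrib, ← mul_sum]
    simp only [sum_const, Nat.card_Ico, nsmul_eq_mul]
    rw [show 2 * N - N = N by omega]
    have h4 := sum_incr_le hμ h N B
    have h5 := mul_le_mul_of_nonneg_left h4 hN0.le
    linarith
  have hbulk := bulk_le (f := fun n k => tail μ h n k Y) htn (N := N) hPB
  have hbd := boundary_le hC0 htl N B
  obtain ⟨S, hS⟩ : ∃ S : ℝ, S = ∑ n ∈ Ico (N + B) (2 * N), ∑ k ∈ Ico B N, tail μ h n k Y := ⟨_, rfl⟩
  rw [← hS] at hbulk hbd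
  have hS0 : 0 ≤ S := by
    rw [hS]
    refine sum_nonneg fun n hn => sum_nonneg fun k hk => htn n k ?_
    rw [mem_Ico] at hn hk
    omega
  have h1 : c * B * S ≤ 2 * N * (B * eps μ (N + B)) + N ^ 2 * B * (ε * c / 4) :=
    (mul_le_mul_of_nonneg_right hcP hS0).trans (hbulk.trans hsum)
  have h2 : eps μ (N + B) ≤ ε * c / 16 * (2 * N) := by
    have h3 := (hN₁ (N + B) (by omega)).le
    have h4 : (0 : ℝ) < ((N + B : ℕ) : ℝ) := by positivity
    rw [div_le_iff₀ h4] at h3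
    refine h3.trans (mul_le_mul_of_nonneg_left ?_ (by positivity))
    push_cast
    have : (B : ℝ) ≤ N := by exact_mod_cast hNB
    linarith
  have h3 : S ≤ ε * N ^ 2 / 2 := by
    have h4 : c * B * S ≤ c * B * (ε * N ^ 2 / 2) := by
      have h5 : 2 * (N : ℝ) * (B * eps μ (N + B)) ≤ 2 * N * (B * (ε * c / 16 * (2 * N))) := by
        gcongr
      refine h1.trans ?_
      nlinarith
    exact le_of_mul_le_mul_left h4 (by positivity)
  have h6 : 2 * (B : ℝ) * N * C ≤ ε * N ^ 2 / 4 := by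
    have h7 : 8 * (B * C) / ε ≤ N := hN₂.trans (by exact_mod_cast hNN2)
    rw [div_le_iff₀ hε] at h7
    have h8 := mul_le_mul_of_nonneg_left h7 hN0.le
    nlinarith
  have h9 : 0 ≤ ε * (N : ℝ) ^ 2 := by positivity
  linarith

end

end Pool.Agent.W_7d29a1_h47
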