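import Pool.Agent.W_7d29a1_h47.InsE
import Pool.Agent.W_7d29a1_h47.UiD
import Pool.Agent.W_7d29a1_h47.Meet

/-!
# The mean Kullback–Leibler distance is small
-/

namespace Pool.Agent.W_7d29a1_h47

open MeasureTheory ProbabilityTheory Finset

noncomputable section

variable {μ : Measure ℝ} [IsProbabilityMeasure μ]

/-- The no-meeting terms for one length. Proof. `meet` for the length `n + 1`; `k ↦ k - R` and
`k ↦ k + 1` are injective from `{k | R ≤ k, k + R ≤ N}` into `range (n + 1 - R + 1)`, all terms are `≥ 0`;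
`nm` is the indicator in `meet`. -/
lemma meet_nm (hμ : EM μ) (hnd : Nondeg μ) {h δ v : ℝ} (hA : Aff μ h δ v) {η : ℝ} (hη : 0 < η) :
    ∃ R : ℕ, 1 ≤ R ∧ ∃ n₀ : ℕ, ∀ n N : ℕ, n₀ ≤ n → N ≤ n →
      ∑ k ∈ Icc R (N - R), (EA2 μ h (n + 1) (fun _ => nm (k - R) k) +
        EA2 μ h (n + 1) (fun _ => nm (k + 1) (k + 1 + R))) ≤ η * (n + 1) := by
  obtain ⟨R, hR1, hm⟩ := meet hμ hnd hA (show 0 < η / 2 by positivity)
  obtain ⟨n₁, hn₁⟩ := hm R le_rfl
  refine ⟨R, hR1, n₁, fun n N hn hN => ?_⟩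
  obtain ⟨J, hJ⟩ : ∃ J : ℕ → ℝ, ∀ k, J k = EA2 μ h (n + 1) (fun _ s r =>
      ind (∀ i, k ≤ i → i ≤ k + R → pos s i ≠ pos r i)) := ⟨_, fun _ => rfl⟩
  have hJ0 : ∀ k, 0 ≤ J k := fun k => by
    rw [hJ]
    exact EA2_nonneg fun _ _ _ _ _ => ind_nonneg _
  have hs := hn₁ (n + 1) (by omega)
  simp only [← hJ] at hs
  have e1 : ∑ k ∈ Icc R (N - R), EA2 μ h (n + 1) (fun _ => nm (k - R) k) =
      ∑ k ∈ Icc R (N - R), J (k - R) := by
    refine Finset.sum_congr rfl fun k hk => ?_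
    have hk' := Finset.mem_Icc.1 hk
    have h1 : k - R + R = k := by omega
    rw [hJ, h1]
    rfl
  have e2 : ∑ k ∈ Icc R (N - R), EA2 μ h (n + 1) (fun _ => nm (k + 1) (k + 1 + R)) =
      ∑ k ∈ Icc R (N - R), J (k + 1) := by
    refine Finset.sum_congr rfl fun k hk => ?_
    rw [hJ]
    rfl
  have i1 : ∑ k ∈ Icc R (N - R), J (k - R) ≤ ∑ k ∈ range (n + 1 - R + 1), J k := by
    have hinj : Set.InjOn (fun k => k - R) (Icc R (N - R) : Finset ℕ) := by
      intro a ha b hb hab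
      have ha' := Finset.mem_Icc.1 (Finset.mem_coe.1 ha)
      have hb' := Finset.mem_Icc.1 (Finset.mem_coe.1 hb)
      simp only at hab
      omega
    rw [← Finset.sum_image (f := J) (g := fun k => k - R) hinj]
    refine Finset.sum_le_sum_of_subset_of_nonneg ?_ fun k _ _ => hJ0 k
    intro j hj
    obtain ⟨k, hk, rfl⟩ := Finset.mem_image.1 hj
    have hk' := Finset.mem_Icc.1 hk
    rw [Finset.mem_range]
    omega
  have i2 : ∑ k ∈ Icc R (N - R), J (k + 1) ≤ ∑ k ∈ range (n + 1 - R + 1), J k := by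
    have hinj : Set.InjOn (fun k => k + 1) (Icc R (N - R) : Finset ℕ) := by
      intro a ha b hb hab
      simp only at hab
      omega
    rw [← Finset.sum_image (f := J) (g := fun k => k + 1) hinj]
    refine Finset.sum_le_sum_of_subset_of_nonneg ?_ fun k _ _ => hJ0 k
    intro j hj
    obtain ⟨k, hk, rfl⟩ := Finset.mem_image.1 hj
    have hk' := Finset.mem_Icc.1 hk
    rw [Finset.mem_range]
    omega
  rw [Finset.sum_add_distrib, e1, e2]
  push_cast at hs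
  linarith

/-- Proof. `μ.real {u | M < |u|} → 0` as `M → ∞` (e.g. Markov with `∫ |u|`). -/
lemma exists_M₁ (hμ : EM μ) {ε : ℝ} (hε : 0 < ε) : ∃ M : ℝ, 0 ≤ M ∧ μ.real {u | M < |u|} ≤ ε := by
  have hint : Integrable (fun u : ℝ => |u|) μ := by
    refine (hμ 1).mono' (by fun_prop) (Filter.Eventually.of_forall fun u => ?_)
    rw [Real.norm_eq_abs, abs_abs, one_mul]
    linarith [Real.add_one_le_exp |u|]
  obtain ⟨I, hI⟩ : ∃ I : ℝ, I = ∫ u, |u| ∂μ := ⟨_, rfl⟩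
  have hI0 : 0 ≤ I := by
    rw [hI]
    exact integral_nonneg fun u => abs_nonneg u
  have hM : 0 < I / ε + 1 := by positivity
  refine ⟨I / ε + 1, hM.le, ?_⟩
  have h1 := mul_meas_ge_le_integral_of_nonneg (μ := μ) (Filter.Eventually.of_forall fun u => abs_nonneg u)
    hint (I / ε + 1)
  rw [← hI] at h1
  have h2 : μ.real {u : ℝ | I / ε + 1 < |u|} ≤ μ.real {u : ℝ | I / ε + 1 ≤ |u|} :=
    measureReal_mono fun u hu => by
      rw [Set.mem_setOf_eq] at hu ⊢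
      exact hu.le
  have h3 : I ≤ (I / ε + 1) * ε := by
    rw [add_mul, div_mul_cancel₀ _ hε.ne']
    linarith
  have h4 : (I / ε + 1) * μ.real {u : ℝ | I / ε + 1 ≤ |u|} ≤ (I / ε + 1) * ε := h1.trans h3
  exact h2.trans (le_of_mul_le_mul_left h4 hM)

/-- **The mean Kullback–Leibler distance is small.** Proof. Choose successively: `M₀` by
`exists_trunc` with `∫ max (|t| - M₀) 0 ≤ ε/4`; `Y` by `ui` with `ε / (4 (3 + |h| + M₀))`; `M₁` by
`exists_M₁` with `(1 + |h| + M₀ + Y) * 4 * μ.real {M₁ < |u|} ≤ ε/8`; then `R`, `n₀` from `meet_nm` with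
`η` such that `(1 + |h| + M₀ + Y) e^{Y + |h| + M₁} 4 η ≤ ε/4`. Sum `EKL_le` over
`n ∈ [N, 2N)`, `k ∈ [R, N-R]` (if `N < 2R` the inner sum may be taken over an empty set; take
`N ≥ n₀, 2R, 1`); `tail ≥ 0` allows to extend the `k`-sum to `range N` in `ui`; `n + 1 ≤ 2N`. -/
theorem klavg (hμ : EM μ) (hnd : Nondeg μ) {h δ v : ℝ} (hA : Aff μ h δ v) {ε : ℝ} (hε : 0 < ε) :
    ∃ R : ℕ, 1 ≤ R ∧ ∃ N₀ : ℕ, ∀ N : ℕ, N₀ ≤ N →
      ∑ n ∈ Ico N (2 * N), ∑ k ∈ Icc R (N - R), EKL μ h n k R ≤ ε * N ^ 2 := by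
  obtain ⟨M₀, hM₀, -, hI₀⟩ := exists_trunc hμ (show 0 < ε / 4 by positivity) 0
  have hT : 0 < 3 + (|h| + M₀) := by positivity
  obtain ⟨Y, hY1, N₁, hN₁⟩ := ui hμ hA (ε := ε / (4 * (3 + (|h| + M₀)))) (by positivity)
  have hY0 : 0 ≤ Y := by linarith
  obtain ⟨A, hAd⟩ : ∃ A : ℝ, A = 1 + (|h| + M₀) + Y := ⟨_, rfl⟩
  have hA0 : 0 < A := by rw [hAd]; positivity
  obtain ⟨M₁, hM₁, hm⟩ := exists_M₁ hμ (show 0 < ε / (16 * A) by positivity)
  obtain ⟨E, hEd⟩ : ∃ E : ℝ, E = Real.exp (Y + |h| + M₁) := ⟨_, rfl⟩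
  have hE0 : 0 < E := by rw [hEd]; positivity
  obtain ⟨R, hR1, n₀, hn₀⟩ := meet_nm hμ hnd hA (show 0 < ε / (16 * A * E) by positivity)
  refine ⟨R, hR1, max (max N₁ n₀) 1, fun N hN => ?_⟩
  have hNN₁ : N₁ ≤ N := ((le_max_left _ _).trans (le_max_left _ _)).trans hN
  have hNn₀ : n₀ ≤ N := ((le_max_right _ _).trans (le_max_left _ _)).trans hN
  have hN1 : 1 ≤ N := (le_max_right _ _).trans hN
  have hN1' : (1 : ℝ) ≤ N := by exact_mod_cast hN1
  have hcard : ((Icc R (N - R)).card : ℝ) ≤ N := by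
    rw [Nat.card_Icc]
    have : N - R + 1 - R ≤ N := by omega
    exact_mod_cast this
  obtain ⟨m, hmd⟩ : ∃ m : ℝ, m = μ.real {u | M₁ < |u|} := ⟨_, rfl⟩
  rw [← hmd] at hm
  obtain ⟨I, hId⟩ : ∃ I : ℝ, I = ∫ u, max (|u| - M₀) 0 ∂μ := ⟨_, rfl⟩
  rw [← hId] at hI₀
  have hm0 : 0 ≤ m := by rw [hmd]; exact measureReal_nonneg
  have hI0 : 0 ≤ I := by rw [hId]; exact integral_nonneg fun u => le_max_right _ _
  -- the sum over `k`
  have hk : ∀ n ∈ Ico N (2 * N), ∑ k ∈ Icc R (N - R), EKL μ h n k R ≤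
      A * (E * (2 * (ε / (16 * A * E) * (2 * N)))) + N * (A * (4 * m)) + N * I +
        (3 + (|h| + M₀)) * ∑ k ∈ range N, tail μ h n k Y := by
    intro n hn
    have hn' := Finset.mem_Ico.1 hn
    have h1 : ∀ k ∈ Icc R (N - R), EKL μ h n k R ≤
        A * (E * (2 * (EA2 μ h (n + 1) (fun _ => nm (k - R) k) +
          EA2 μ h (n + 1) (fun _ => nm (k + 1) (k + 1 + R))))) + (A * (4 * m) + I) +
        (3 + (|h| + M₀)) * tail μ h n k Y := by
      intro k hk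
      have hk' := Finset.mem_Icc.1 hk
      have h2 := EKL_le hμ h (n := n) (k := k) (R := R) hk'.1 (by omega) hM₀ hM₁ hY1
      rw [← hAd, ← hEd, ← hmd, ← hId] at h2
      refine h2.trans (le_of_eq ?_)
      ring
    refine (Finset.sum_le_sum h1).trans ?_
    rw [Finset.sum_add_distrib, Finset.sum_add_distrib, ← Finset.mul_sum, ← Finset.mul_sum,
      ← Finset.mul_sum, ← Finset.mul_sum, Finset.sum_const, nsmul_eq_mul]
    have h3 := hn₀ n N (hNn₀.trans hn'.1) hn'.1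
    have h4 : ε / (16 * A * E) * ((n : ℝ) + 1) ≤ ε / (16 * A * E) * (2 * N) := by
      refine mul_le_mul_of_nonneg_left ?_ (by positivity)
      have : n + 1 ≤ 2 * N := by omega
      exact_mod_cast this
    have h5 : A * (E * (2 * ∑ k ∈ Icc R (N - R), (EA2 μ h (n + 1) (fun _ => nm (k - R) k) +
        EA2 μ h (n + 1) (fun _ => nm (k + 1) (k + 1 + R))))) ≤
        A * (E * (2 * (ε / (16 * A * E) * (2 * N)))) :=
      mul_le_mul_of_nonneg_left (mul_le_mul_of_nonneg_left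
        (mul_le_mul_of_nonneg_left (h3.trans h4) (by norm_num)) hE0.le) hA0.le
    have h6 : ((Icc R (N - R)).card : ℝ) * (A * (4 * m) + I) ≤ N * (A * (4 * m) + I) :=
      mul_le_mul_of_nonneg_right hcard (by positivity)
    have h7 : ∑ k ∈ Icc R (N - R), tail μ h n k Y ≤ ∑ k ∈ range N, tail μ h n k Y := by
      refine Finset.sum_le_sum_of_subset_of_nonneg ?_ fun k hk _ => ?_
      · intro k hk
        have hk' := Finset.mem_Icc.1 hk
        rw [Finset.mem_range]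
        omega
      · have hk' := Finset.mem_range.1 hk
        exact tail_nonneg h (by omega) Y
    have h8 := mul_le_mul_of_nonneg_left h7 hT.le
    linarith
  refine (Finset.sum_le_sum hk).trans ?_
  rw [Finset.sum_add_distrib, ← Finset.mul_sum, Finset.sum_const, nsmul_eq_mul, Nat.card_Ico]
  have e1 : ((2 * N - N : ℕ) : ℝ) = N := by
    congr 1
    omega
  rw [e1]
  have t1 := mul_le_mul_of_nonneg_left (hN₁ N hNN₁) hT.le
  have t2 : (3 + (|h| + M₀)) * (ε / (4 * (3 + (|h| + M₀))) * (N : ℝ) ^ 2) = ε / 4 * (N : ℝ) ^ 2 := by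
    field_simp
  rw [t2] at t1
  have t3 : A * (E * (2 * (ε / (16 * A * E) * (2 * (N : ℝ))))) = ε / 4 * N := by
    field_simp
    ring
  have t4 : A * (4 * m) ≤ ε / 4 := by
    have := mul_le_mul_of_nonneg_left hm hA0.le
    have e : A * (ε / (16 * A)) = ε / 16 := by field_simp
    rw [e] at this
    linarith
  rw [t3]
  have hNN : (0 : ℝ) ≤ (N : ℝ) ^ 2 := by positivity
  have t5 := mul_le_mul_of_nonneg_left t4 hNN
  have t6 := mul_le_mul_of_nonneg_left hI₀ hNN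
  have t7 : (N : ℝ) * (ε / 4 * N + N * (A * (4 * m)) + N * I) =
      ε / 4 * (N : ℝ) ^ 2 + (N : ℝ) ^ 2 * (A * (4 * m)) + (N : ℝ) ^ 2 * I := by ring
  rw [t7]
  linarith

end

end Pool.Agent.W_7d29a1_h47
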