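import Pool.Agent.W_7d29a1_h47.FinB
import Pool.Agent.W_7d29a1_h47.FinC

/-!
# The contradiction
-/

namespace Pool.Agent.W_7d29a1_h47

open MeasureTheory ProbabilityTheory Finset

noncomputable section

variable {μ : Measure ℝ} [IsProbabilityMeasure μ]

/-- One chain. Proof. `chain_exp` with `h' = h + δ`, `a_le_Lam` and `hA.up` for the right side:
`≤ (n + m)(Λ + δ v)`; `EW = a_{n+1} - a_n - EKL`; `δ EA (pos s n) ≥ a_n(h) - a_n(h-δ) ≥
n Λ - eps μ n - n (Λ - δ v)` by `le_EA_pos`, `rate`, `a_le_Lam`, `hA.dn`; `a_n(h) ≥ n Λ - eps μ n`. -/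
lemma chain_KL (hμ : EM μ) {h δ v : ℝ} (hA : Aff μ h δ v) {o R m n : ℕ}
    (hn : o + 2 * R * m ≤ n) :
    m * (a μ h (n + 1) - a μ h n - Lam μ h) + m * (δ * (1 - v)) - 2 * eps μ n ≤
      ∑ j ∈ range m, EKL μ h n (o + 2 * R * j + R) R := by
  have h1 := chain_exp hμ h (h + δ) hn
  have h2 := a_le_Lam hμ (h + δ) (n + m)
  rw [hA.up] at h2
  have h3 := le_EA_pos hμ h δ n
  have h4 := a_le_Lam hμ (h - δ) n
  rw [hA.dn] at h4
  have h5 := rate hμ h n
  have h6 : ∑ j ∈ range m, EKL μ h n (o + 2 * R * j + R) R =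
      m * (a μ h (n + 1) - a μ h n) - ∑ j ∈ range m, EW μ h n (o + 2 * R * j + R) R := by
    unfold EKL
    rw [Finset.sum_sub_distrib, Finset.sum_const, Finset.card_range, nsmul_eq_mul]
  rw [h6]
  push_cast at h2
  have e1 : h + δ - h = δ := by ring
  rw [e1] at h1
  nlinarith [h1, h2, h3, h4, h5]

/-- All positions in the middle of windows. Proof. The map `(o, j) ↦ o + 2Rj + R`, `o < 2R`,
`j < (N - o)/(2R)`, is a bijection onto `{k | R ≤ k, k + R ≤ N}` (`k - R = o + 2Rj` division with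
remainder; `j < (N - o)/(2R)` iff `o + 2R(j+1) ≤ N`). If `N < 2R` both sides are sums over empty
sets: `Icc R (N - R) = ∅` because `N - R < R`. -/
lemma sum_windows {R N : ℕ} (hR : 1 ≤ R) (hN : 2 * R ≤ N) (f : ℕ → ℝ) :
    ∑ o ∈ range (2 * R), ∑ j ∈ range ((N - o) / (2 * R)), f (o + 2 * R * j + R) =
      ∑ k ∈ Icc R (N - R), f k := by
  have hR2 : 0 < 2 * R := by omega
  rw [Finset.sum_sigma']
  refine Finset.sum_nbij' (fun p => p.1 + 2 * R * p.2 + R)
    (fun k => (⟨(k - R) % (2 * R), (k - R) / (2 * R)⟩ : (_ : ℕ) × ℕ)) ?_ ?_ ?_ ?_ ?_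
  · rintro ⟨o, j⟩ hp
    rw [Finset.mem_sigma, Finset.mem_range, Finset.mem_range] at hp
    obtain ⟨ho, hj⟩ := hp
    simp only at ho hj ⊢
    have h1 : (j + 1) * (2 * R) ≤ N - o := (Nat.le_div_iff_mul_le hR2).1 hj
    have h2 : (j + 1) * (2 * R) = 2 * R * j + 2 * R := by ring
    rw [Finset.mem_Icc]
    omega
  · intro k hk
    rw [Finset.mem_Icc] at hk
    rw [Finset.mem_sigma, Finset.mem_range, Finset.mem_range]
    simp only
    refine ⟨Nat.mod_lt _ hR2, ?_⟩
    have h1 : (k - R) % (2 * R) + 2 * R * ((k - R) / (2 * R)) = k - R := Nat.mod_add_div _ _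
    have h2 : ((k - R) / (2 * R) + 1) * (2 * R) = 2 * R * ((k - R) / (2 * R)) + 2 * R := by ring
    have h3 : ((k - R) / (2 * R) + 1) * (2 * R) ≤ N - (k - R) % (2 * R) := by
      rw [h2]
      omega
    exact (Nat.le_div_iff_mul_le hR2).2 h3
  · rintro ⟨o, j⟩ hp
    rw [Finset.mem_sigma, Finset.mem_range, Finset.mem_range] at hp
    obtain ⟨ho, hj⟩ := hp
    simp only at ho hj ⊢
    have h1 : o + 2 * R * j + R - R = o + 2 * R * j := by omega
    rw [h1, Nat.add_mul_mod_self_left, Nat.mod_eq_of_lt ho, Nat.add_mul_div_left _ _ hR2,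
      Nat.div_eq_of_lt ho, zero_add]
  · intro k hk
    rw [Finset.mem_Icc] at hk
    simp only
    have h1 : (k - R) % (2 * R) + 2 * R * ((k - R) / (2 * R)) = k - R := Nat.mod_add_div _ _
    omega
  · rintro ⟨o, j⟩ _
    rfl

/-- **Contradiction.** Proof. `v < 1` (`Aff.lt_one`). `klavg` with `ε = δ(1-v)/4` gives `R, N₀`. For
`N ≥ N₀, 2R` and `o < 2R` put `m = (N - o)/(2R)`. Sum `chain_KL` over `n ∈ [N,2N)`:
`∑_n ∑_j EKL ≥ m (a_{2N} - a_N - N Λ) + N m δ(1-v) - 2N eps μ (2N) ≥ N m δ (1-v) - (m + 2N) eps μ (2N)`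
(telescoping, `rate`, `a_le_Lam`, `eps_mono`). Sum over `o < 2R`, `sum_windows`:
`∑_o m = N - 2R + 1` (take `f = 1`), so
`ε N² ≥ N (N - 2R + 1) δ (1-v) - (N + 4RN) eps μ (2N)`; divide by `N²` and let `N → ∞`
(`tendsto_eps_div`): `ε ≥ δ(1-v)`, contradiction. -/
theorem no_aff (hμ : EM μ) (hnd : Nondeg μ) {h δ v : ℝ} (hA : Aff μ h δ v) : False := by
  have hv : v < 1 := hA.lt_one hμ
  have hδ := hA.pos
  set c : ℝ := δ * (1 - v) with hc
  have hc0 : 0 < c := mul_pos hδ (by linarith)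
  obtain ⟨R, hR, N₀, hkl⟩ := klavg hμ hnd hA (ε := c / 4) (by positivity)
  have hR0 : (0 : ℝ) ≤ R := Nat.cast_nonneg R
  -- choose N
  have hev : ∀ᶠ n : ℕ in Filter.atTop, eps μ n / n < c / (8 * (1 + 4 * R)) :=
    tendsto_eps_div.eventually_lt_const (by positivity)
  obtain ⟨N₁, hN₁⟩ := Filter.eventually_atTop.1 hev
  set N : ℕ := max (max N₀ N₁) (8 * R) with hN
  have hNN₀ : N₀ ≤ N := (le_max_left _ _).trans (le_max_left _ _)
  have hNN₁ : N₁ ≤ 2 * N := by
    have : N₁ ≤ N := (le_max_right _ _).trans (le_max_left _ _)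
    omega
  have hN8 : 8 * R ≤ N := le_max_right _ _
  have hN8r : 8 * (R : ℝ) ≤ N := by exact_mod_cast hN8
  have hR1 : (1 : ℝ) ≤ R := by exact_mod_cast hR
  have hN0 : (0 : ℝ) < N := by linarith
  have hN2R : 2 * R ≤ N := by omega
  have heps := hN₁ (2 * N) hNN₁
  have heps0 : 0 ≤ eps μ (2 * N) := eps_nonneg _
  rw [div_lt_div_iff₀ (by push_cast; positivity) (by positivity)] at heps
  push_cast at heps
  -- one offset
  have hone : ∀ o ∈ range (2 * R), ((N - o) / (2 * R) : ℕ) * (N * c - eps μ (2 * N)) -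
      2 * N * eps μ (2 * N) ≤
      ∑ n ∈ Ico N (2 * N), ∑ j ∈ range ((N - o) / (2 * R)), EKL μ h n (o + 2 * R * j + R) R := by
    intro o ho
    have ho' := Finset.mem_range.1 ho
    set m : ℕ := (N - o) / (2 * R) with hm
    have hm1 : o + 2 * R * m ≤ N := by
      have h1 : 2 * R * m ≤ N - o := Nat.mul_div_le _ _
      omega
    have h1 : ∑ n ∈ Ico N (2 * N), (m * (a μ h (n + 1) - a μ h n - Lam μ h) + m * c -
        2 * eps μ (2 * N)) ≤
        ∑ n ∈ Ico N (2 * N), ∑ j ∈ range m, EKL μ h n (o + 2 * R * j + R) R := by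
      refine Finset.sum_le_sum fun n hn => ?_
      rw [Finset.mem_Ico] at hn
      have h2 := chain_KL hμ hA (o := o) (R := R) (m := m) (n := n) (hm1.trans hn.1)
      have h3 : eps μ n ≤ eps μ (2 * N) := eps_mono hn.2.le
      linarith
    refine le_trans ?_ h1
    have h4 : ∑ n ∈ Ico N (2 * N), (m * (a μ h (n + 1) - a μ h n - Lam μ h) + m * c -
        2 * eps μ (2 * N)) = m * (a μ h (2 * N) - a μ h N - N * Lam μ h) + N * (m * c) -
          2 * N * eps μ (2 * N) := by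
      rw [Finset.sum_sub_distrib, Finset.sum_add_distrib, ← Finset.mul_sum,
        Finset.sum_sub_distrib, Finset.sum_Ico_sub (a μ h) (by omega : N ≤ 2 * N)]
      simp only [Finset.sum_const, Nat.card_Ico, nsmul_eq_mul]
      have e1 : 2 * N - N = N := by omega
      rw [e1]
      ring
    rw [h4]
    have h5 := rate hμ h (2 * N)
    have h6 := a_le_Lam hμ h N
    push_cast at h5
    have h7 : -eps μ (2 * N) ≤ a μ h (2 * N) - a μ h N - N * Lam μ h := by linarith
    have h8 := mul_le_mul_of_nonneg_left h7 (Nat.cast_nonneg (α := ℝ) m)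
    linarith
  have hsum := Finset.sum_le_sum hone
  -- the right side
  have hR' : ∑ o ∈ range (2 * R), ∑ n ∈ Ico N (2 * N), ∑ j ∈ range ((N - o) / (2 * R)),
      EKL μ h n (o + 2 * R * j + R) R = ∑ n ∈ Ico N (2 * N), ∑ k ∈ Icc R (N - R), EKL μ h n k R := by
    rw [Finset.sum_comm]
    refine Finset.sum_congr rfl fun n _ => ?_
    exact sum_windows hR hN2R fun k => EKL μ h n k R
  rw [hR'] at hsum
  have hkl' := hsum.trans (hkl N hNN₀)
  -- the left side
  have hcount : ∑ o ∈ range (2 * R), (((N - o) / (2 * R) : ℕ) : ℝ) = N - 2 * R + 1 := by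
    have h1 := sum_windows hR hN2R fun _ => (1 : ℝ)
    simp only [Finset.sum_const, Finset.card_range, nsmul_eq_mul, mul_one, Nat.card_Icc] at h1
    rw [h1]
    have e1 : N - R + 1 - R = N - 2 * R + 1 := by omega
    rw [e1]
    push_cast [Nat.cast_sub hN2R]
    ring
  have hL : ∑ o ∈ range (2 * R), ((((N - o) / (2 * R) : ℕ) : ℝ) * (N * c - eps μ (2 * N)) -
      2 * N * eps μ (2 * N)) = (N - 2 * R + 1) * (N * c - eps μ (2 * N)) -
        2 * R * (2 * N * eps μ (2 * N)) := by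
    rw [Finset.sum_sub_distrib, ← Finset.sum_mul, hcount, Finset.sum_const, Finset.card_range,
      nsmul_eq_mul]
    push_cast
    ring
  rw [hL] at hkl'
  have h9 : (0 : ℝ) ≤ N - 2 * R + 1 := by linarith
  have h10 : ((N : ℝ) - 2 * R + 1) ≤ N := by linarith
  have h11 : ((N : ℝ) - 2 * R + 1) * eps μ (2 * N) ≤ N * eps μ (2 * N) :=
    mul_le_mul_of_nonneg_right h10 heps0
  have h12 : (3 / 4 * (N : ℝ)) * (N * c) ≤ ((N : ℝ) - 2 * R + 1) * (N * c) := by
    refine mul_le_mul_of_nonneg_right ?_ (by positivity)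
    linarith
  have h13 : (1 + 4 * (R : ℝ)) * (N * eps μ (2 * N)) < 1 / 4 * c * (N : ℝ) ^ 2 := by
    nlinarith
  nlinarith [h11, h12, h13, hkl', mul_pos hc0 (pow_pos hN0 2)]

end

end Pool.Agent.W_7d29a1_h47
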