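import Pool.Agent.W_7d29a1_h47.Avg

/-!
# The expected log partition function: superadditivity
-/

namespace Pool.Agent.W_7d29a1_h47

open MeasureTheory ProbabilityTheory Finset

noncomputable section

variable {μ : Measure ℝ} [IsProbabilityMeasure μ]

/-- The mean of the one-site law. -/
def m0 (μ : Measure ℝ) : ℝ := ∫ u, u ∂μ

/-- The one-step upper bound. -/
def c1 (μ : Measure ℝ) (h : ℝ) : ℝ := Real.log (2 * Real.cosh h) + Real.log (Mom μ 1)

lemma a_zero (h : ℝ) : a μ h 0 = 0 := by simp [a, Z_zero]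

/-- The Gibbs probability of a walk is between `0` and `1`. -/
lemma FreeA_wt_div (g : Env) (h : ℝ) (m : ℕ) {s : ℕ → Bool} (hs : s ∈ T m) :
    |wt g h 0 0 m s / Z g h 0 0 m| ≤ 1 := by
  have hZ := Z_pos g h 0 0 m
  rw [abs_of_nonneg (div_nonneg (wt_pos _ _ _ _ _ _).le hZ.le), div_le_one hZ]
  exact Finset.single_le_sum (f := fun s => wt g h 0 0 m s) (fun r _ => (wt_pos g h 0 0 m r).le) hs

/-- A Gibbs average of functions of the later rows. -/
lemma FreeA_avg (h : ℝ) (m k : ℕ) {F : (ℕ → Bool) → Env → ℝ} (hF : ∀ s ∈ T m, PMom (law μ) (F s))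
    (hd : ∀ s ∈ T m, DependsOn (F s) (rows m (m + k))) {c : ℝ}
    (hc : ∀ s ∈ T m, ∫ g, F s g ∂(law μ) = c) :
    ∫ g, Av g h 0 0 m (fun s => F s g) ∂(law μ) = c := by
  have hq : ∀ s ∈ T m, PMom (law μ) (fun g : Env => wt g h 0 0 m s / Z g h 0 0 m) := by
    intro s hs
    exact PMom.of_bounded (by fun_prop) fun g => FreeA_wt_div g h m hs
  have h1 : ∀ g : Env, Av g h 0 0 m (fun s => F s g) =
      ∑ s ∈ T m, (wt g h 0 0 m s / Z g h 0 0 m) * F s g := by
    intro g
    unfold Av
    rw [Finset.sum_div]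
    exact Finset.sum_congr rfl fun s _ => by ring
  have h2 : ∀ g : Env, ∑ s ∈ T m, (wt g h 0 0 m s / Z g h 0 0 m) = 1 := by
    intro g
    rw [← Finset.sum_div]
    exact div_self (Z_pos g h 0 0 m).ne'
  simp only [h1]
  rw [integral_finsetSum _ fun s hs => ((hq s hs).mul (hF s hs)).integrable]
  have h3 : ∀ s ∈ T m, ∫ g, (wt g h 0 0 m s / Z g h 0 0 m) * F s g ∂(law μ) =
      (∫ g, (wt g h 0 0 m s / Z g h 0 0 m) ∂(law μ)) * c := by
    intro s hs
    rw [integral_mul_indep (rows 0 m) (hq s hs).1 (hF s hs).1, hc s hs]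
    · intro g g' hg
      have hg' : ∀ i ∈ rows 0 (0 + m), g i = g' i := by rw [zero_add]; exact hg
      have e1 := dependsOn_wt h 0 0 m s hg'
      have e2 := dependsOn_Z h 0 0 m hg'
      simp only at e1 e2 ⊢
      rw [e1, e2]
    · intro g g' hg
      exact hd s hs fun p hp => hg p (rows_subset_compl le_rfl hp)
  rw [Finset.sum_congr rfl h3, ← Finset.sum_mul,
    ← integral_finsetSum _ fun s hs => (hq s hs).integrable]
  simp only [h2]
  simp

lemma FreeA_split (g : Env) (h : ℝ) (m n : ℕ) :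
    Z g h 0 0 (m + n) = Z g h 0 0 m * Av g h 0 0 m fun s => Z g h m (pos s m) n := by
  rw [Z_split, Z_mul_Av]
  simp only [zero_add]

open Classical in
lemma FreeA_T_one : T 1 = {(fun _ => false : ℕ → Bool), (fun i => decide (i = 0) : ℕ → Bool)} := by
  refine Finset.ext fun s => ?_
  rw [mem_T, Finset.mem_insert, Finset.mem_singleton]
  constructor
  · intro hs
    by_cases h0 : s 0 = false
    · left
      funext i
      rcases Nat.eq_zero_or_pos i with rfl | hi
      · exact h0
      · exact hs i hi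
    · right
      rw [Bool.not_eq_false] at h0
      funext i
      rcases Nat.eq_zero_or_pos i with rfl | hi
      · rw [h0]; rfl
      · rw [hs i hi]
        symm
        simp only [decide_eq_false_iff_not]
        omega
  · rintro (rfl | rfl) i hi
    · rfl
    · simp only [decide_eq_false_iff_not]
      omega

lemma FreeA_T_one_ne : (fun _ => false : ℕ → Bool) ≠ fun i => decide (i = 0) := by
  intro h
  have := congrFun h 0
  simp at this

/-- The normalisation of the tilted simple random walk. -/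
lemma FreeA_cosh_one (h : ℝ) : ∑ s ∈ T 1, Real.exp (h * (pos s 1 : ℝ)) = 2 * Real.cosh h := by
  classical
  rw [FreeA_T_one, Finset.sum_pair FreeA_T_one_ne, Real.cosh_eq]
  have h1 : pos (fun _ => false) 1 = -1 := by simp [pos, stp]
  have h2 : pos (fun i => decide (i = 0)) 1 = 1 := by simp [pos, stp]
  rw [h1, h2]
  push_cast
  ring_nf

lemma FreeA_cosh (h : ℝ) (n : ℕ) :
    ∑ s ∈ T n, Real.exp (h * (pos s n : ℝ)) = (2 * Real.cosh h) ^ n := by
  induction n with
  | zero => simp [T_zero]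
  | succ n ih =>
    rw [sum_split, pow_succ, ← ih, Finset.sum_mul]
    refine Finset.sum_congr rfl fun s _ => ?_
    rw [← FreeA_cosh_one, Finset.mul_sum]
    refine Finset.sum_congr rfl fun r _ => ?_
    rw [pos_glue_add, ← Real.exp_add]
    push_cast
    ring_nf

/-- Superadditivity. Proof. `Z_split`: `Z (m+n) = Z m * Av_m (s ↦ Z (m, pos s m) n)`, so by
`Av_le_log` `log Z (m+n) ≥ log Z m + ∑_{s ∈ T m} (wt s / Z m) log Z g h m (pos s m) n`; integrate:
`wt s / Z m` depends on `rows 0 m`, `log Z g h m _ n` on `rows m (m+n)`: `integral_mul_indep`,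
`integral_logZ`, and `∑_s wt s / Z m = 1`. -/
lemma a_add_le (hμ : EM μ) (h : ℝ) (m n : ℕ) : a μ h m + a μ h n ≤ a μ h (m + n) := by
  have hZ : ∀ s ∈ T m, PMom (law μ) (fun g : Env => Real.log (Z g h m (pos s m) n)) :=
    fun s _ => (EMom_logZ hμ h m (pos s m) n).pmom
  have havg := FreeA_avg (μ := μ) h m n (F := fun s g => Real.log (Z g h m (pos s m) n)) hZ
    (fun s _ => by
      intro g g' hg
      have := dependsOn_Z h m (pos s m) n hg
      simp only at this ⊢
      rw [this])
    (fun s _ => integral_logZ h m (pos s m) n)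
  have hpt : ∀ g : Env, Real.log (Z g h 0 0 m) + Av g h 0 0 m (fun s => Real.log (Z g h m (pos s m) n)) ≤
      Real.log (Z g h 0 0 (m + n)) := by
    intro g
    have hpos : 0 < Av g h 0 0 m fun s => Z g h m (pos s m) n := Av_pos fun s _ => Z_pos _ _ _ _ _
    rw [FreeA_split, Real.log_mul (Z_pos _ _ _ _ _).ne' hpos.ne']
    have := Av_le_log (g := g) (h := h) (t := 0) (x := 0) (n := m)
      (fun s => Real.log (Z g h m (pos s m) n))
    have e : (Av g h 0 0 m fun s => Real.exp (Real.log (Z g h m (pos s m) n))) =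
        Av g h 0 0 m fun s => Z g h m (pos s m) n :=
      Av_congr fun s _ => Real.exp_log (Z_pos _ _ _ _ _)
    rw [e] at this
    linarith
  have i1 : Integrable (fun g : Env => Real.log (Z g h 0 0 m)) (law μ) :=
    (EMom_logZ hμ h 0 0 m).integrable
  have i2 : Integrable (fun g : Env => Av g h 0 0 m (fun s => Real.log (Z g h m (pos s m) n)))
      (law μ) := (PMom_Av hZ).integrable
  have i3 : Integrable (fun g : Env => Real.log (Z g h 0 0 (m + n))) (law μ) :=
    (EMom_logZ hμ h 0 0 (m + n)).integrable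
  calc a μ h m + a μ h n = (∫ g, Real.log (Z g h 0 0 m) ∂(law μ)) +
        ∫ g, Av g h 0 0 m (fun s => Real.log (Z g h m (pos s m) n)) ∂(law μ) := by
        rw [havg]; rfl
    _ = ∫ g, (Real.log (Z g h 0 0 m) + Av g h 0 0 m (fun s => Real.log (Z g h m (pos s m) n)))
        ∂(law μ) := (integral_add i1 i2).symm
    _ ≤ ∫ g, Real.log (Z g h 0 0 (m + n)) ∂(law μ) := integral_mono (i1.add i2) i3 hpt
    _ = a μ h (m + n) := rfl

/-- One more row. Proof. `Z_split` with `b = 1`: `Z (n+1) = Z n * Av_n (s ↦ Z g h n (pos s n) 1)`.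
`∫ log (Av_n …) ≤ log ∫ Av_n …` (Jensen: `log y ≤ log c + y/c - 1` with `c = ∫ …`), and
`∫ Av_n (s ↦ Z g h n (pos s n) 1) = ∑_s ∫ (wt s / Z n) * ∫ Z g h n (pos s n) 1
 ≤ 2 cosh h * Mom μ 1` by independence; `T 1` has the two elements with first step up or down. -/
lemma a_succ_le (hμ : EM μ) (h : ℝ) (n : ℕ) : a μ h (n + 1) ≤ a μ h n + c1 μ h := by
  have hexp : Integrable (fun u : ℝ => Real.exp u) μ := by
    refine (hμ 1).mono' (by fun_prop) (Filter.Eventually.of_forall fun u => ?_)
    rw [Real.norm_eq_abs, abs_of_pos (Real.exp_pos _), one_mul]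
    exact Real.exp_le_exp.2 (le_abs_self u)
  have hM : ∫ u, Real.exp u ∂μ ≤ Mom μ 1 := by
    unfold Mom
    refine integral_mono hexp (hμ 1) fun u => ?_
    simp only [one_mul]
    exact Real.exp_le_exp.2 (le_abs_self u)
  have hM0 : 0 < ∫ u, Real.exp u ∂μ := by
    have h1 : (1 : ℝ) = ∫ _u : ℝ, (1 : ℝ) ∂μ := by simp
    have h2 : Real.exp (∫ u, u ∂μ) ≤ ∫ u, Real.exp u ∂μ := by
      have hid : Integrable (fun u : ℝ => u) μ := by
        refine (hμ 1).mono' (by fun_prop) (Filter.Eventually.of_forall fun u => ?_)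
        rw [Real.norm_eq_abs, one_mul]
        linarith [Real.add_one_le_exp |u|]
      have hpt : ∀ u : ℝ, Real.exp (∫ u, u ∂μ) * (1 + (u - ∫ u, u ∂μ)) ≤ Real.exp u := by
        intro u
        have h3 := Real.add_one_le_exp (u - ∫ u, u ∂μ)
        calc Real.exp (∫ u, u ∂μ) * (1 + (u - ∫ u, u ∂μ)) ≤
            Real.exp (∫ u, u ∂μ) * Real.exp (u - ∫ u, u ∂μ) :=
              mul_le_mul_of_nonneg_left (by linarith) (Real.exp_pos _).le
          _ = Real.exp u := by rw [← Real.exp_add]; ring_nf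
      have i0 : Integrable (fun u : ℝ => u - ∫ u, u ∂μ) μ := hid.sub (integrable_const _)
      have i1 : Integrable (fun u : ℝ => Real.exp (∫ u, u ∂μ) * (1 + (u - ∫ u, u ∂μ))) μ :=
        ((integrable_const 1).add i0).const_mul _
      have h4 := integral_mono i1 hexp hpt
      rw [integral_const_mul, integral_add (integrable_const 1) i0,
        integral_sub hid (integrable_const _)] at h4
      simpa using h4
    exact (Real.exp_pos _).trans_le h2
  obtain ⟨C, hC⟩ : ∃ C, C = 2 * Real.cosh h * ∫ u, Real.exp u ∂μ := ⟨_, rfl⟩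
  have hcosh := Real.cosh_pos h
  have hC0 : 0 < C := by rw [hC]; positivity
  have hCle : Real.log C ≤ c1 μ h := by
    unfold c1
    rw [← Real.log_mul (by positivity) (hM0.trans_le hM).ne']
    refine Real.log_le_log hC0 ?_
    rw [hC]
    exact mul_le_mul_of_nonneg_left hM (by positivity)
  have hZ : ∀ s ∈ T n, PMom (law μ) (fun g : Env => Z g h n (pos s n) 1) :=
    fun s _ => PMom_Z hμ h n (pos s n) 1
  have hone : ∀ s ∈ T n, ∫ g, Z g h n (pos s n) 1 ∂(law μ) = C := by
    intro s _
    unfold Z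
    rw [integral_finsetSum _ fun r _ => (PMom_wt hμ h n (pos s n) 1 r).integrable, hC,
      ← FreeA_cosh_one, Finset.sum_mul]
    refine Finset.sum_congr rfl fun r _ => ?_
    have e1 : ∀ g : Env, wt g h n (pos s n) 1 r =
        Real.exp (h * (pos r 1 : ℝ)) * Real.exp (g (n, pos s n + pos r 1)) := by
      intro g
      unfold wt En
      rw [Finset.sum_range_one, ← Real.exp_add, add_comm]
      rfl
    simp only [e1]
    rw [integral_const_mul, integral_coord (μ := μ) (n, pos s n + pos r 1) Real.measurable_exp]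
  have havg := FreeA_avg (μ := μ) h n 1 (F := fun s g => Z g h n (pos s n) 1) hZ
    (fun s _ => dependsOn_Z h n (pos s n) 1) hone
  have i1 : Integrable (fun g : Env => Real.log (Z g h 0 0 n)) (law μ) :=
    (EMom_logZ hμ h 0 0 n).integrable
  have i2 : Integrable (fun g : Env => Av g h 0 0 n (fun s => Z g h n (pos s n) 1))
      (law μ) := (PMom_Av hZ).integrable
  have i3 : Integrable (fun g : Env => Real.log (Z g h 0 0 (n + 1))) (law μ) :=
    (EMom_logZ hμ h 0 0 (n + 1)).integrable
  have hpt : ∀ g : Env, Real.log (Z g h 0 0 (n + 1)) ≤ Real.log (Z g h 0 0 n) +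
      ((Real.log C - 1) + C⁻¹ * Av g h 0 0 n (fun s => Z g h n (pos s n) 1)) := by
    intro g
    have hpos : 0 < Av g h 0 0 n fun s => Z g h n (pos s n) 1 := Av_pos fun s _ => Z_pos _ _ _ _ _
    rw [FreeA_split, Real.log_mul (Z_pos _ _ _ _ _).ne' hpos.ne']
    obtain ⟨W, hW⟩ : ∃ W, W = Av g h 0 0 n fun s => Z g h n (pos s n) 1 := ⟨_, rfl⟩
    rw [← hW] at hpos ⊢
    have h1 := Real.log_le_sub_one_of_pos (mul_pos (inv_pos.2 hC0) hpos)
    rw [Real.log_mul (inv_pos.2 hC0).ne' hpos.ne', Real.log_inv] at h1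
    linarith
  have i4 : Integrable (fun g : Env => (Real.log C - 1) +
      C⁻¹ * Av g h 0 0 n (fun s => Z g h n (pos s n) 1)) (law μ) :=
    (integrable_const _).add (i2.const_mul _)
  have h5 := integral_mono i3 (i1.add i4) hpt
  have h6 : ∫ g : Env, (Real.log (Z g h 0 0 n) + ((Real.log C - 1) +
      C⁻¹ * Av g h 0 0 n (fun s => Z g h n (pos s n) 1))) ∂(law μ) = a μ h n + Real.log C := by
    rw [integral_add i1 i4, integral_add (integrable_const _) (i2.const_mul _), integral_const_mul,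
      havg, inv_mul_cancel₀ hC0.ne']
    simp [a]
  have h7 : a μ h (n + 1) ≤ a μ h n + Real.log C := by
    rw [← h6]
    exact h5
  linarith

end

end Pool.Agent.W_7d29a1_h47
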