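import Pool.Agent.W_7d29a1_h47.FreeA

/-!
# The expected log partition function: bounds
-/

namespace Pool.Agent.W_7d29a1_h47

open MeasureTheory ProbabilityTheory Finset

noncomputable section

variable {μ : Measure ℝ} [IsProbabilityMeasure μ]

omit [IsProbabilityMeasure μ] in
lemma FreeB_integrable_id (hμ : EM μ) : Integrable (fun u : ℝ => u) μ := by
  refine (hμ 1).mono' (by fun_prop) (Filter.Eventually.of_forall fun u => ?_)
  rw [Real.norm_eq_abs, one_mul]
  linarith [Real.add_one_le_exp |u|]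

/-- The mean energy of a walk. -/
lemma FreeB_mean (hμ : EM μ) (t : ℕ) (x : ℤ) (n : ℕ) (s : ℕ → Bool) :
    ∫ g, En g t x n s ∂(law μ) = n * m0 μ := by
  unfold En
  rw [integral_finsetSum _ fun i _ => (EMom_coord hμ _).integrable]
  have h1 : ∀ i ∈ range n, ∫ g : Env, g (t + i, x + pos s (i + 1)) ∂(law μ) = m0 μ :=
    fun i _ => integral_coord (μ := μ) (t + i, x + pos s (i + 1)) measurable_id
  rw [Finset.sum_congr rfl h1, Finset.sum_const, Finset.card_range, nsmul_eq_mul]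

/-- The exponential moment of the energy of a walk. -/
lemma FreeB_exp_En (hμ : EM μ) (θ : ℝ) (t : ℕ) (x : ℤ) (n : ℕ) (s : ℕ → Bool) :
    ∫ g, Real.exp (θ * En g t x n s) ∂(law μ) = (∫ u, Real.exp (θ * u) ∂μ) ^ n := by
  induction n with
  | zero => simp [En]
  | succ n ih =>
    have h1 : ∀ g : Env, Real.exp (θ * En g t x (n + 1) s) =
        Real.exp (θ * En g t x n s) * Real.exp (θ * g (t + n, x + pos s (n + 1))) := by
      intro g
      rw [← Real.exp_add]
      congr 1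
      unfold En
      rw [Finset.sum_range_succ]
      ring
    simp only [h1]
    rw [integral_mul_indep (rows t (t + n)) (by fun_prop) (by fun_prop), ih, pow_succ,
      integral_coord (μ := μ) (t + n, x + pos s (n + 1)) (f := fun u => Real.exp (θ * u))
        (by fun_prop)]
    · intro g g' hg
      have := dependsOn_En t x n s hg
      simp only at this ⊢
      rw [this]
    · intro g g' hg
      simp only
      rw [hg (t + n, x + pos s (n + 1)) (by
        intro hp
        exact absurd hp.2 (by simp))]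

lemma FreeB_subadd {I : Finset (ℕ → Bool)} (hI : I.Nonempty) {w : (ℕ → Bool) → ℝ} (hw : ∀ s, 0 < w s) {θ : ℝ}
    (h1 : θ ≤ 1) : (∑ s ∈ I, w s) ^ θ ≤ ∑ s ∈ I, w s ^ θ := by
  have hS : 0 < ∑ s ∈ I, w s := Finset.sum_pos (fun s _ => hw s) hI
  obtain ⟨S, hSd⟩ : ∃ S, S = ∑ s ∈ I, w s := ⟨_, rfl⟩
  rw [← hSd] at hS ⊢
  have h2 : ∀ s ∈ I, S ^ θ * (w s / S) ≤ w s ^ θ := by
    intro s hs
    have h3 : w s / S ≤ 1 := by
      rw [div_le_one hS, hSd]
      exact Finset.single_le_sum (f := fun s => w s) (fun r _ => (hw r).le) hs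
    have h4 : (w s / S) ^ (1 : ℝ) ≤ (w s / S) ^ θ :=
      Real.rpow_le_rpow_of_exponent_ge (div_pos (hw s) hS) h3 h1
    rw [Real.rpow_one] at h4
    calc S ^ θ * (w s / S) ≤ S ^ θ * (w s / S) ^ θ :=
          mul_le_mul_of_nonneg_left h4 (Real.rpow_nonneg hS.le _)
      _ = w s ^ θ := by
          rw [← Real.mul_rpow hS.le (div_pos (hw s) hS).le, mul_div_cancel₀ _ hS.ne']
  refine le_trans (le_of_eq ?_) (Finset.sum_le_sum h2)
  rw [← Finset.mul_sum, ← Finset.sum_div, ← hSd, div_self hS.ne', mul_one]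

/-- Lower bound by Jensen. Proof. With the simple random walk weights `p_s = e^{h pos s n} / (2 cosh h)^n`
(sum over `T n` is `1`): `Z = (2 cosh h)^n ∑ p_s e^{En s}`, so `log Z ≥ n log (2 cosh h) + ∑ p_s En s`
and `∫ En g t x n s = n * m0 μ`. (`∑ s ∈ T n, e^{h pos s n} = (2 cosh h)^n`: induction with `sum_split`,
or take `Z` for the zero environment.) -/
lemma le_a (hμ : EM μ) (h : ℝ) (n : ℕ) :
    n * (Real.log (2 * Real.cosh h) + m0 μ) ≤ a μ h n := by
  have hcosh := Real.cosh_pos h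
  obtain ⟨g0, hg0⟩ : ∃ g0 : Env, ∀ p, g0 p = 0 := ⟨fun _ => 0, fun _ => rfl⟩
  have hE0 : ∀ s, En g0 0 0 n s = 0 := by
    intro s
    unfold En
    exact Finset.sum_eq_zero fun i _ => hg0 _
  have hw0 : ∀ s, wt g0 h 0 0 n s = Real.exp (h * (pos s n : ℝ)) := by
    intro s
    unfold wt
    rw [hE0, zero_add]
  have hZ0 : Z g0 h 0 0 n = (2 * Real.cosh h) ^ n := by
    unfold Z
    rw [← FreeA_cosh]
    exact Finset.sum_congr rfl fun s _ => hw0 s
  have hpt : ∀ g : Env, n * Real.log (2 * Real.cosh h) + Av g0 h 0 0 n (fun s => En g 0 0 n s) ≤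
      Real.log (Z g h 0 0 n) := by
    intro g
    have e1 : Z g h 0 0 n = Z g0 h 0 0 n * Av g0 h 0 0 n (fun s => Real.exp (En g 0 0 n s)) := by
      rw [Z_mul_Av]
      unfold Z
      refine Finset.sum_congr rfl fun s _ => ?_
      rw [hw0]
      unfold wt
      rw [← Real.exp_add, add_comm]
    have hpos : 0 < Av g0 h 0 0 n (fun s => Real.exp (En g 0 0 n s)) :=
      Av_pos fun s _ => Real.exp_pos _
    rw [e1, Real.log_mul (Z_pos _ _ _ _ _).ne' hpos.ne', hZ0, Real.log_pow]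
    have := Av_le_log (g := g0) (h := h) (t := 0) (x := 0) (n := n) (fun s => En g 0 0 n s)
    linarith
  have hEn : ∀ s ∈ T n, PMom (law μ) (fun g : Env => wt g0 h 0 0 n s * En g 0 0 n s) :=
    fun s _ => (EMom_En hμ 0 0 n s).pmom.const_mul _
  have hav : ∫ g : Env, Av g0 h 0 0 n (fun s => En g 0 0 n s) ∂(law μ) = n * m0 μ := by
    unfold Av
    rw [integral_div, integral_finsetSum _ fun s hs => (hEn s hs).integrable]
    have e2 : ∀ s ∈ T n, ∫ g : Env, wt g0 h 0 0 n s * En g 0 0 n s ∂(law μ) =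
        wt g0 h 0 0 n s * (n * m0 μ) := by
      intro s _
      rw [integral_const_mul, FreeB_mean hμ]
    rw [Finset.sum_congr rfl e2, ← Finset.sum_mul]
    exact mul_div_cancel_left₀ _ (Z_pos g0 h 0 0 n).ne'
  have i2 : Integrable (fun g : Env => Av g0 h 0 0 n (fun s => En g 0 0 n s)) (law μ) := by
    unfold Av
    exact (integrable_finsetSum _ fun s hs => (hEn s hs).integrable).div_const _
  have i3 : Integrable (fun g : Env => Real.log (Z g h 0 0 n)) (law μ) :=
    (EMom_logZ hμ h 0 0 n).integrable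
  have h5 := integral_mono ((integrable_const (n * Real.log (2 * Real.cosh h))).add i2) i3 hpt
  have h6 : ∫ g : Env, (n * Real.log (2 * Real.cosh h) + Av g0 h 0 0 n (fun s => En g 0 0 n s))
      ∂(law μ) = n * (Real.log (2 * Real.cosh h) + m0 μ) := by
    rw [integral_add (integrable_const _) i2, hav]
    simp
    ring
  rw [← h6]
  exact h5

/-- Upper bound by a fractional moment. Proof. `∫ log Z = θ⁻¹ ∫ log Z^θ ≤ θ⁻¹ log ∫ Z^θ` (Jensen),
`Z^θ ≤ ∑_s (wt s)^θ` (subadditivity of `x ↦ x^θ`, `0 < θ ≤ 1`: `Real.rpow_sum_le_sum_rpow` or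
`NNReal`/`ENNReal` version), `∫ (wt s)^θ = e^{θ h pos s n} (∫ e^{θ u} dμ)^n` (independence of the `n`
sites of the walk, all in different rows; induction on `n` with `integral_mul_indep`), and
`∑_s e^{θ h pos s n} = (2 cosh (θ h))^n`. -/
lemma a_le_theta (hμ : EM μ) (h : ℝ) (n : ℕ) {θ : ℝ} (h0 : 0 < θ) (h1 : θ ≤ 1) :
    a μ h n ≤ n * (θ⁻¹ * (Real.log (∫ u, Real.exp (θ * u) ∂μ) + Real.log (2 * Real.cosh (θ * h)))) := by
  have hcosh := Real.cosh_pos (θ * h)
  have hexp : Integrable (fun u : ℝ => Real.exp (θ * u)) μ := by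
    refine (hμ θ).mono' (by fun_prop) (Filter.Eventually.of_forall fun u => ?_)
    rw [Real.norm_eq_abs, abs_of_pos (Real.exp_pos _)]
    exact Real.exp_le_exp.2 (mul_le_mul_of_nonneg_left (le_abs_self u) h0.le)
  obtain ⟨M, hM⟩ : ∃ M, M = ∫ u, Real.exp (θ * u) ∂μ := ⟨_, rfl⟩
  have hM0 : 0 < M := by
    rw [hM]
    exact integral_exp_pos hexp
  obtain ⟨C, hC⟩ : ∃ C, C = (M * (2 * Real.cosh (θ * h))) ^ n := ⟨_, rfl⟩
  have hC0 : 0 < C := by rw [hC]; positivity
  have hlogC : Real.log C = n * (Real.log M + Real.log (2 * Real.cosh (θ * h))) := by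
    rw [hC, Real.log_pow, Real.log_mul hM0.ne' (by positivity)]
  obtain ⟨A, hA⟩ : ∃ A : Env → ℝ, ∀ g, A g = ∑ s ∈ T n, Real.exp (θ * h * (pos s n : ℝ)) *
    Real.exp (θ * En g 0 0 n s) := ⟨_, fun _ => rfl⟩
  have hterm : ∀ s ∈ T n, PMom (law μ) (fun g : Env => Real.exp (θ * h * (pos s n : ℝ)) *
      Real.exp (θ * En g 0 0 n s)) :=
    fun s _ => ((EMom_En hμ 0 0 n s).exp_pmom θ).const_mul _
  have hAeq : A = fun g => ∑ s ∈ T n, Real.exp (θ * h * (pos s n : ℝ)) *
    Real.exp (θ * En g 0 0 n s) := funext hA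
  have iA : Integrable A (law μ) := by
    rw [hAeq]
    exact integrable_finsetSum _ fun s hs => (hterm s hs).integrable
  have hAint : ∫ g, A g ∂(law μ) = C := by
    rw [hAeq, integral_finsetSum _ fun s hs => (hterm s hs).integrable]
    have e2 : ∀ s ∈ T n, ∫ g : Env, Real.exp (θ * h * (pos s n : ℝ)) *
        Real.exp (θ * En g 0 0 n s) ∂(law μ) = Real.exp (θ * h * (pos s n : ℝ)) * M ^ n := by
      intro s _
      rw [integral_const_mul, FreeB_exp_En hμ, hM]
    rw [Finset.sum_congr rfl e2, ← Finset.sum_mul, FreeA_cosh, hC, mul_comm, ← mul_pow]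
  have hpt : ∀ g : Env, Real.log (Z g h 0 0 n) ≤ θ⁻¹ * ((Real.log C - 1) + C⁻¹ * A g) := by
    intro g
    have hZ := Z_pos g h 0 0 n
    have h2 : Z g h 0 0 n ^ θ ≤ A g := by
      rw [hA]
      refine (FreeB_subadd (T_nonempty n) (w := fun s => wt g h 0 0 n s)
        (fun s => wt_pos _ _ _ _ _ _) h1).trans (le_of_eq ?_)
      refine Finset.sum_congr rfl fun s _ => ?_
      unfold wt
      rw [← Real.exp_mul, ← Real.exp_add]
      congr 1
      ring
    have hZθ : 0 < Z g h 0 0 n ^ θ := Real.rpow_pos_of_pos hZ θ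
    have hApos : 0 < A g := hZθ.trans_le h2
    have h3 : Real.log (Z g h 0 0 n) = θ⁻¹ * Real.log (Z g h 0 0 n ^ θ) := by
      rw [Real.log_rpow hZ, ← mul_assoc, inv_mul_cancel₀ h0.ne', one_mul]
    rw [h3]
    refine mul_le_mul_of_nonneg_left ?_ (inv_pos.2 h0).le
    refine (Real.log_le_log hZθ h2).trans ?_
    have h4 := Real.log_le_sub_one_of_pos (mul_pos (inv_pos.2 hC0) hApos)
    rw [Real.log_mul (inv_pos.2 hC0).ne' hApos.ne', Real.log_inv] at h4
    linarith
  have i3 : Integrable (fun g : Env => Real.log (Z g h 0 0 n)) (law μ) :=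
    (EMom_logZ hμ h 0 0 n).integrable
  have i4 : Integrable (fun g : Env => θ⁻¹ * ((Real.log C - 1) + C⁻¹ * A g)) (law μ) :=
    ((integrable_const _).add (iA.const_mul _)).const_mul _
  have h5 := integral_mono i3 i4 hpt
  have h6 : ∫ g : Env, θ⁻¹ * ((Real.log C - 1) + C⁻¹ * A g) ∂(law μ) = θ⁻¹ * Real.log C := by
    rw [integral_const_mul, integral_add (integrable_const _) (iA.const_mul _), integral_const_mul,
      hAint, inv_mul_cancel₀ hC0.ne']
    simp
  rw [h6, hlogC] at h5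
  rw [← hM]
  calc a μ h n ≤ θ⁻¹ * (n * (Real.log M + Real.log (2 * Real.cosh (θ * h)))) := h5
    _ = _ := by ring

end

end Pool.Agent.W_7d29a1_h47
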