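import Pool.Agent.W_7d29a1_h47.BlockA

/-!
# Insertion of fresh rows: definitions and laws
-/

namespace Pool.Agent.W_7d29a1_h47

open MeasureTheory ProbabilityTheory Finset

noncomputable section

variable {μ : Measure ℝ} [IsProbabilityMeasure μ]

/-- The law of two independent environments. -/
abbrev law2 (μ : Measure ℝ) : Measure (Env × Env) := (law μ).prod (law μ)

/-- Row `j` of an environment. -/
def row (j : ℕ) (g : Env) : ℤ → ℝ := fun x => g (j, x)

/-- Insertion of the row `ξ` before row `k` of `g`; the later rows of `g` are shifted by `σ` in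
space. -/
def ins (k : ℕ) (σ : ℤ) (g : Env) (ξ : ℤ → ℝ) : Env := fun p =>
  if p.1 < k then g p else if p.1 = k then ξ p.2 else g (p.1 - 1, p.2 - σ)

lemma measurable_row (j : ℕ) : Measurable (row j) := by
  unfold row; fun_prop

lemma measurable_ins (k : ℕ) (σ : ℤ) :
    Measurable (fun w : Env × (ℤ → ℝ) => ins k σ w.1 w.2) := by
  refine measurable_pi_iff.2 fun p => ?_
  unfold ins
  split_ifs <;> fun_prop

/-- Two environments from two environments: `mp_elim` for pairs. Proof. As `mp_elim`: by `map_elim`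
the law of `Sum.elim w.1 w.2` on `(ℕ × ℤ) ⊕ (ℕ × ℤ)` is the product law; the map
`u ↦ fun q => u (τ q)` preserves it (`Measure.map_infinitePi_infinitePi_of_inj`), and
`u ↦ (u ∘ inl, u ∘ inr)` maps it to `law2 μ` (it is a left inverse of `Sum.elim`, again by
`map_elim` and `Measure.map_map`). -/
lemma mp_elim2 {τ : (ℕ × ℤ) ⊕ (ℕ × ℤ) → (ℕ × ℤ) ⊕ (ℕ × ℤ)} (hτ : Function.Injective τ) :
    MeasurePreserving (fun w : Env × Env =>
      ((fun p => Sum.elim w.1 w.2 (τ (Sum.inl p)) : Env),
        (fun p => Sum.elim w.1 w.2 (τ (Sum.inr p)) : Env))) (law2 μ) (law2 μ) := by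
  have h1 : Measurable (fun (w : Env × Env) (p : (ℕ × ℤ) ⊕ (ℕ × ℤ)) => Sum.elim w.1 w.2 p) := by
    refine measurable_pi_iff.2 fun p => ?_
    cases p with
    | inl p => simp only [Sum.elim_inl]; fun_prop
    | inr p => simp only [Sum.elim_inr]; fun_prop
  have hE : MeasurePreserving (fun (w : Env × Env) (p : (ℕ × ℤ) ⊕ (ℕ × ℤ)) => Sum.elim w.1 w.2 p)
      (law2 μ) (Measure.infinitePi fun _ : (ℕ × ℤ) ⊕ (ℕ × ℤ) => μ) := ⟨h1, map_elim⟩
  have hR : MeasurePreserving (fun (u : (ℕ × ℤ) ⊕ (ℕ × ℤ) → ℝ) q => u (τ q))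
      (Measure.infinitePi fun _ : (ℕ × ℤ) ⊕ (ℕ × ℤ) => μ)
      (Measure.infinitePi fun _ : (ℕ × ℤ) ⊕ (ℕ × ℤ) => μ) :=
    ⟨by fun_prop, Measure.map_infinitePi_infinitePi_of_inj
      (P := fun _ : (ℕ × ℤ) ⊕ (ℕ × ℤ) => μ) hτ⟩
  have hm : Measurable (fun u : (ℕ × ℤ) ⊕ (ℕ × ℤ) → ℝ =>
      ((fun p => u (Sum.inl p) : Env), (fun p => u (Sum.inr p) : Env))) := by fun_prop
  have hS : MeasurePreserving (fun u : (ℕ × ℤ) ⊕ (ℕ × ℤ) → ℝ =>
      ((fun p => u (Sum.inl p) : Env), (fun p => u (Sum.inr p) : Env)))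
      (Measure.infinitePi fun _ : (ℕ × ℤ) ⊕ (ℕ × ℤ) => μ) (law2 μ) := by
    refine ⟨hm, ?_⟩
    rw [← map_elim, Measure.map_map hm h1]
    exact Measure.map_id
  exact hS.comp (hR.comp hE)

/-- Proof. `mp_elim` with the injective map
`p ↦ if p.1 < k then inl p else if p.1 = k then inr (j, p.2) else inl (p.1 - 1, p.2 - σ)`. -/
lemma mp_ins (k : ℕ) (σ : ℤ) (j : ℕ) :
    MeasurePreserving (fun w : Env × Env => ins k σ w.1 (row j w.2)) (law2 μ) (law μ) := by
  have hσ : Function.Injective (fun p : ℕ × ℤ => if p.1 < k then (Sum.inl p : (ℕ × ℤ) ⊕ (ℕ × ℤ))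
      else if p.1 = k then Sum.inr (j, p.2) else Sum.inl (p.1 - 1, p.2 - σ)) := by
    rintro ⟨a, x⟩ ⟨b, y⟩ h
    simp only at h
    split_ifs at h <;> simp only [Sum.inl.injEq, Sum.inr.injEq, Prod.mk.injEq] at h <;>
      exact Prod.ext (by show a = b; omega) (by show x = y; omega)
  have h := mp_elim (μ := μ) hσ
  convert h using 3 with w p
  unfold ins
  split_ifs <;> rfl

lemma InsA_meas (j : ℕ) {F : Env → (ℤ → ℝ) → ℝ}
    (hF : Measurable fun w : Env × (ℤ → ℝ) => F w.1 w.2) :
    Measurable fun w : Env × Env => F w.1 (row j w.2) :=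
  hF.comp (measurable_fst.prodMk ((measurable_row j).comp measurable_snd))

/-- The law of `(g, row j g')` does not depend on `j`. Proof. `mp_elim2` with the injective map
`inl p ↦ inl p`, `inr (i, y) ↦ inr (i + j, y)`, and `mp_integral`. -/
lemma integral_row (j : ℕ) {F : Env → (ℤ → ℝ) → ℝ}
    (hF : Measurable fun w : Env × (ℤ → ℝ) => F w.1 w.2) :
    ∫ w, F w.1 (row j w.2) ∂(law2 μ) = ∫ w, F w.1 (row 0 w.2) ∂(law2 μ) := by
  have hτ : Function.Injective (Sum.map id (fun p : ℕ × ℤ => (p.1 + j, p.2)) :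
      (ℕ × ℤ) ⊕ (ℕ × ℤ) → (ℕ × ℤ) ⊕ (ℕ × ℤ)) := by
    refine Function.Injective.sumMap Function.injective_id ?_
    rintro ⟨a, x⟩ ⟨b, y⟩ h
    simp only [Prod.mk.injEq] at h
    exact Prod.ext (by show a = b; omega) (by show x = y; omega)
  have h1 := mp_integral (mp_elim2 (μ := μ) hτ) (F := fun w => F w.1 (row 0 w.2))
    (InsA_meas 0 hF).aestronglyMeasurable
  rw [← h1]
  refine integral_congr_ae (Filter.Eventually.of_forall fun w => ?_)
  show F w.1 (row j w.2) = F w.1 (fun x => w.2 (0 + j, x))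
  rw [zero_add]
  rfl

/-- `i` fresh rows (the rows `0, …, i-1` of `g'`) inserted before row `k` of `g`, the later rows of
`g` being shifted by `X` in space. -/
def insB (k i : ℕ) (X : ℤ) (g g' : Env) : Env := fun p =>
  if p.1 < k then g p else if p.1 < k + i then g' (p.1 - k, p.2) else g (p.1 - i, p.2 - X)

lemma insB_zero (k : ℕ) (g g' : Env) : insB k 0 0 g g' = g := by
  funext p
  unfold insB
  by_cases h : p.1 < k <;> simp [h]

/-- One more row. Proof. Cases `p.1 < k`, `k ≤ p.1 < k + i`, `p.1 = k + i`, `p.1 > k + i`. -/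
lemma insB_succ (k i : ℕ) (X σ : ℤ) (g g' : Env) :
    insB k (i + 1) (X + σ) g g' = ins (k + i) σ (insB k i X g g') (row i g') := by
  funext p
  unfold insB ins row
  by_cases h1 : p.1 < k
  · rw [if_pos h1, if_pos (by omega)]
    exact (if_pos h1).symm
  rw [if_neg h1]
  by_cases h2 : p.1 < k + i
  · rw [if_pos (by omega), if_pos h2]
    exact ((if_neg h1).trans (if_pos h2)).symm
  by_cases h3 : p.1 = k + i
  · rw [if_pos (by omega), if_neg h2, if_pos h3, h3, Nat.add_sub_cancel_left]
  · rw [if_neg (by omega), if_neg h2, if_neg h3]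
    simp only
    rw [if_neg (by omega), if_neg (by omega)]
    congr 2
    · omega
    · ring

/-- The sites used by `insB`. -/
def InsA_tau (k i : ℕ) (X : ℤ) (p : ℕ × ℤ) : (ℕ × ℤ) ⊕ (ℕ × ℤ) :=
  if p.1 < k then Sum.inl p else if p.1 < k + i then Sum.inr (p.1 - k, p.2) else
    Sum.inl (p.1 - i, p.2 - X)

lemma InsA_insB (k i : ℕ) (X : ℤ) (g g' : Env) :
    insB k i X g g' = fun p => Sum.elim g g' (InsA_tau k i X p) := by
  funext p
  unfold insB InsA_tau
  split_ifs <;> rfl

lemma InsA_tau_inj (k i : ℕ) (X : ℤ) : Function.Injective (InsA_tau k i X) := by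
  rintro ⟨a, x⟩ ⟨b, y⟩ h
  unfold InsA_tau at h
  simp only at h
  split_ifs at h <;> simp only [Sum.inl.injEq, Sum.inr.injEq, Prod.mk.injEq] at h <;>
    exact Prod.ext (by show a = b; omega) (by show x = y; omega)

/-- The pair (environment with `i` inserted rows, next fresh row) is a pair of independent fresh
environments. Proof. `mp_elim2` with the map `τ`: `inl p ↦` the site used by `insB k i X` at `p`
(`inl p` if `p.1 < k`, `inr (p.1 - k, p.2)` if `k ≤ p.1 < k + i`, `inl (p.1 - i, p.2 - X)` otherwise),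
`inr (l, y) ↦ inr (i + l, y)`; this is injective. The second component of the image has row `0` equal
to row `i` of `g'`. Then `mp_integral`. -/
lemma integral_insB (k i : ℕ) (X : ℤ) {F : Env → (ℤ → ℝ) → ℝ}
    (hF : Measurable fun w : Env × (ℤ → ℝ) => F w.1 w.2) :
    ∫ w, F (insB k i X w.1 w.2) (row i w.2) ∂(law2 μ) = ∫ w, F w.1 (row 0 w.2) ∂(law2 μ) := by
  have hτ : Function.Injective (Sum.elim (InsA_tau k i X) (fun p : ℕ × ℤ => Sum.inr (i + p.1, p.2)) :
      (ℕ × ℤ) ⊕ (ℕ × ℤ) → (ℕ × ℤ) ⊕ (ℕ × ℤ)) := by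
    refine Function.Injective.sumElim (InsA_tau_inj k i X) ?_ ?_
    · rintro ⟨a, x⟩ ⟨b, y⟩ h
      simp only [Sum.inr.injEq, Prod.mk.injEq] at h
      exact Prod.ext (by show a = b; omega) (by show x = y; omega)
    · rintro ⟨a, x⟩ ⟨b, y⟩ h
      unfold InsA_tau at h
      simp only at h
      split_ifs at h <;> simp only [Sum.inr.injEq, Prod.mk.injEq] at h
      omega
  have h1 := mp_integral (mp_elim2 (μ := μ) hτ) (F := fun w => F w.1 (row 0 w.2))
    (InsA_meas 0 hF).aestronglyMeasurable
  rw [← h1]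
  refine integral_congr_ae (Filter.Eventually.of_forall fun w => ?_)
  show F (insB k i X w.1 w.2) (row i w.2) =
    F (fun p => Sum.elim w.1 w.2 (InsA_tau k i X p)) (fun x => w.2 (i + 0, x))
  rw [← InsA_insB]
  rfl

/-- Proof. `mp_elim` with the map `τ ∘ inl` of `integral_insB`. -/
lemma mp_insB (k i : ℕ) (X : ℤ) :
    MeasurePreserving (fun w : Env × Env => insB k i X w.1 w.2) (law2 μ) (law μ) := by
  have h := mp_elim (μ := μ) (InsA_tau_inj k i X)
  convert h using 2 with w
  exact InsA_insB k i X w.1 w.2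

/-- Windows of length `2R` after an initial piece of length `o`; in the middle of each of the first
`m` windows a fresh row is inserted and the rest is shifted by `1`. The `m`-th window starts at
time `o + 2 R m` in the old time, `o + 2 R m + m` in the new time. -/
def star (o R : ℕ) : ℕ → Env → Env → Env
  | 0, g, _ => g
  | m + 1, g, g' => ins (o + 2 * R * m + R + m) 1 (star o R m g g') (fun x => g' (m, x - m))

/-- After the last window only a shift is seen. Proof. Induction on `m` from the definitions of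
`star` and `ins`. -/
lemma star_after (o R m : ℕ) (g g' : Env) (i : ℕ) (x : ℤ) (hi : o + 2 * R * m ≤ i) :
    star o R m g g' (i + m, x + m) = g (i, x) := by
  induction m generalizing i x with
  | zero => simp [star]
  | succ m ih =>
    have e : 2 * R * (m + 1) = 2 * R * m + 2 * R := by ring
    rw [e] at hi
    unfold star ins
    simp only
    rw [if_neg (by omega), if_neg (by omega)]
    have h1 := ih i x (by omega)
    rw [← h1]
    congr 2
    push_cast
    ring

/-- Rows before the last inserted window agree. Proof. Definition of `ins`. -/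
lemma star_before (o R m : ℕ) (g g' : Env) (p : ℕ × ℤ) (hp : p.1 < o + 2 * R * m + m) :
    star o R (m + 1) g g' p = star o R m g g' p := by
  show ins (o + 2 * R * m + R + m) 1 (star o R m g g') (fun x => g' (m, x - m)) p = _
  unfold ins
  rw [if_pos (by omega)]

/-- The last window. Proof. Cases according to `i < R`, `i = R`, `i > R`; `star_after`. -/
lemma star_window (o R m : ℕ) (g g' : Env) (i : ℕ) (x : ℤ) :
    star o R (m + 1) g g' (o + 2 * R * m + m + i, x + m) =
      ins (o + 2 * R * m + R) 1 g (row m g') (o + 2 * R * m + i, x) := by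
  show ins (o + 2 * R * m + R + m) 1 (star o R m g g') (fun x => g' (m, x - m))
    (o + 2 * R * m + m + i, x + m) = _
  unfold ins
  simp only
  rcases lt_trichotomy i R with h | h | h
  · rw [if_pos (by omega), if_pos (by omega), ← star_after o R m g g' (o + 2 * R * m + i) x (by omega)]
    congr 2
    omega
  · rw [if_neg (by omega), if_pos (by omega), if_neg (by omega), if_pos (by omega)]
    unfold row
    congr 2
    ring
  · rw [if_neg (by omega), if_neg (by omega), if_neg (by omega), if_neg (by omega),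
      ← star_after o R m g g' (o + 2 * R * m + i - 1) (x - 1) (by omega)]
    congr 2
    · omega
    · ring

/-- Proof. Show by induction on `m` that
`w ↦ (star o R m w.1 w.2, fun p => w.2 (p.1 + m, p.2))` preserves `law2 μ`: the step is the composition
with `(g, u) ↦ (ins K 1 g (fun x => u (0, x - m)), fun p => u (p.1 + 1, p.2))`, `K = o + 2Rm + R + m`,
which preserves `law2 μ` by `mp_elim2`. -/
lemma mp_star (o R m : ℕ) :
    MeasurePreserving (fun w : Env × Env => star o R m w.1 w.2) (law2 μ) (law μ) := by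
  have key : MeasurePreserving (fun w : Env × Env =>
      (star o R m w.1 w.2, (fun p => w.2 (p.1 + m, p.2) : Env))) (law2 μ) (law2 μ) := by
    induction m with
    | zero => exact MeasurePreserving.id _
    | succ m ih =>
      obtain ⟨K, hK⟩ : ∃ K : ℕ, K = o + 2 * R * m + R + m := ⟨_, rfl⟩
      have hτ : Function.Injective (Sum.elim (fun p : ℕ × ℤ => if p.1 < K then
          (Sum.inl p : (ℕ × ℤ) ⊕ (ℕ × ℤ)) else if p.1 = K then Sum.inr (0, p.2 - m)
          else Sum.inl (p.1 - 1, p.2 - 1)) (fun p : ℕ × ℤ => Sum.inr (p.1 + 1, p.2)) :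
          (ℕ × ℤ) ⊕ (ℕ × ℤ) → (ℕ × ℤ) ⊕ (ℕ × ℤ)) := by
        refine Function.Injective.sumElim ?_ ?_ ?_
        · rintro ⟨a, x⟩ ⟨b, y⟩ h
          simp only at h
          split_ifs at h <;>
            simp only [Sum.inl.injEq, Sum.inr.injEq, Prod.mk.injEq] at h <;>
            exact Prod.ext (by show a = b; omega) (by show x = y; omega)
        · rintro ⟨a, x⟩ ⟨b, y⟩ h
          simp only [Sum.inr.injEq, Prod.mk.injEq] at h
          exact Prod.ext (by show a = b; omega) (by show x = y; omega)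
        · rintro ⟨a, x⟩ ⟨b, y⟩ h
          simp only at h
          split_ifs at h <;> simp only [Sum.inr.injEq, Prod.mk.injEq, reduceCtorEq] at h
          exact h.1.elim
      have h1 := (mp_elim2 (μ := μ) hτ).comp ih
      convert h1 using 1
      funext w
      refine Prod.ext ?_ ?_
      · funext p
        show ins (o + 2 * R * m + R + m) 1 (star o R m w.1 w.2) (fun x => w.2 (m, x - m)) p =
          Sum.elim (star o R m w.1 w.2) (fun p => w.2 (p.1 + m, p.2))
            (if p.1 < K then (Sum.inl p : (ℕ × ℤ) ⊕ (ℕ × ℤ)) else if p.1 = K then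
              Sum.inr (0, p.2 - m) else Sum.inl (p.1 - 1, p.2 - 1))
        unfold ins
        rw [← hK]
        split_ifs
        · rfl
        · show w.2 (m, p.2 - m) = w.2 (0 + m, p.2 - m)
          rw [zero_add]
        · rfl
      · funext p
        have e : p.1 + (m + 1) = p.1 + 1 + m := by omega
        show w.2 (p.1 + (m + 1), p.2) = w.2 (p.1 + 1 + m, p.2)
        rw [e]
  exact measurePreserving_fst.comp key

end

end Pool.Agent.W_7d29a1_h47
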