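import Pool.Agent.W_7d29a1_h47.InsK

/-!
# Swapping two walks at a meeting time
-/

namespace Pool.Agent.W_7d29a1_h47

open MeasureTheory ProbabilityTheory Finset

noncomputable section

/-- No meeting in the time interval `[a, b]`. -/
def nm (a b : ℕ) (s r : ℕ → Bool) : ℝ := ind (∀ i, a ≤ i → i ≤ b → pos s i ≠ pos r i)

lemma nm_nonneg (a b : ℕ) (s r : ℕ → Bool) : 0 ≤ nm a b s r := ind_nonneg _

lemma nm_le_one (a b : ℕ) (s r : ℕ → Bool) : nm a b s r ≤ 1 := ind_le_one _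

/-- The walk with the first `τ` steps of `r` and then the steps of `s`. -/
def InsS_sw (τ : ℕ) (s r : ℕ → Bool) : ℕ → Bool := fun i => if i < τ then r i else s i

/-- The first meeting time in `[a, b]` (`0` if there is none). -/
def InsS_tau (a b : ℕ) (s r : ℕ → Bool) : ℕ := sInf {i | a ≤ i ∧ i ≤ b ∧ pos s i = pos r i}

lemma InsS_sw_mem {n τ : ℕ} {s r : ℕ → Bool} (hs : s ∈ T n) (hr : r ∈ T n) :
    InsS_sw τ s r ∈ T n := by
  rw [mem_T] at hs hr ⊢
  intro i hi
  unfold InsS_sw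
  split_ifs
  · exact hr i hi
  · exact hs i hi

lemma InsS_pos_le {τ i : ℕ} (hi : i ≤ τ) (s r : ℕ → Bool) : pos (InsS_sw τ s r) i = pos r i := by
  refine pos_congr fun j hj => ?_
  unfold InsS_sw
  rw [if_pos (lt_of_lt_of_le hj hi)]

lemma InsS_shf (τ : ℕ) (s r : ℕ → Bool) : shf τ (InsS_sw τ s r) = shf τ s := by
  funext i
  unfold shf InsS_sw
  rw [if_neg (by omega)]

lemma InsS_pos_ge {τ i : ℕ} (hi : τ ≤ i) {s r : ℕ → Bool} (h : pos s τ = pos r τ) :
    pos (InsS_sw τ s r) i = pos s i := by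
  obtain ⟨k, rfl⟩ := Nat.exists_eq_add_of_le hi
  rw [pos_add, InsS_shf, InsS_pos_le le_rfl, ← h, ← pos_add]

lemma InsS_meet {τ : ℕ} {s r : ℕ → Bool} (h : pos s τ = pos r τ) (i : ℕ) :
    pos (InsS_sw τ s r) i = pos (InsS_sw τ r s) i ↔ pos s i = pos r i := by
  rcases le_total i τ with hi | hi
  · rw [InsS_pos_le hi, InsS_pos_le hi]
    exact eq_comm
  · rw [InsS_pos_ge hi h, InsS_pos_ge hi h.symm]

lemma InsS_tau_eq {a b τ : ℕ} {s r : ℕ → Bool} (h : pos s τ = pos r τ) :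
    InsS_tau a b (InsS_sw τ s r) (InsS_sw τ r s) = InsS_tau a b s r := by
  unfold InsS_tau
  congr 1
  ext i
  simp only [Set.mem_setOf_eq]
  rw [InsS_meet h]

lemma InsS_nm_eq {a b τ : ℕ} {s r : ℕ → Bool} (h : pos s τ = pos r τ) :
    nm a b (InsS_sw τ s r) (InsS_sw τ r s) = nm a b s r := by
  unfold nm
  refine ind_congr ⟨fun h1 i hi hi' h2 => ?_, fun h1 i hi hi' h2 => ?_⟩
  · exact h1 i hi hi' ((InsS_meet h i).2 h2)
  · exact h1 i hi hi' ((InsS_meet h i).1 h2)

lemma InsS_nm_symm (a b : ℕ) (s r : ℕ → Bool) : nm a b r s = nm a b s r := by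
  unfold nm
  exact ind_congr ⟨fun h i hi hi' h' => h i hi hi' h'.symm, fun h i hi hi' h' => h i hi hi' h'.symm⟩

lemma InsS_tau_mem {a b : ℕ} {s r : ℕ → Bool} (hm : ∃ i, a ≤ i ∧ i ≤ b ∧ pos s i = pos r i) :
    a ≤ InsS_tau a b s r ∧ InsS_tau a b s r ≤ b ∧
      pos s (InsS_tau a b s r) = pos r (InsS_tau a b s r) := by
  obtain ⟨i, hi⟩ := hm
  exact Nat.sInf_mem (s := {i | a ≤ i ∧ i ≤ b ∧ pos s i = pos r i}) ⟨i, hi⟩

lemma InsS_tau_zero {a b : ℕ} {s r : ℕ → Bool}
    (hm : ¬ ∃ i, a ≤ i ∧ i ≤ b ∧ pos s i = pos r i) : InsS_tau a b s r = 0 := by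
  unfold InsS_tau
  have h : {i | a ≤ i ∧ i ≤ b ∧ pos s i = pos r i} = ∅ := by
    rw [Set.eq_empty_iff_forall_notMem]
    intro i hi
    exact hm ⟨i, hi⟩
  rw [h, Nat.sInf_empty]

lemma InsS_tau_pos (a b : ℕ) (s r : ℕ → Bool) :
    pos s (InsS_tau a b s r) = pos r (InsS_tau a b s r) := by
  by_cases hm : ∃ i, a ≤ i ∧ i ≤ b ∧ pos s i = pos r i
  · exact (InsS_tau_mem hm).2.2
  · rw [InsS_tau_zero hm, pos_zero, pos_zero]

lemma InsS_tau_le {a b n : ℕ} (hb : b ≤ n) (s r : ℕ → Bool) : InsS_tau a b s r ≤ n := by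
  by_cases hm : ∃ i, a ≤ i ∧ i ≤ b ∧ pos s i = pos r i
  · exact (InsS_tau_mem hm).2.1.trans hb
  · rw [InsS_tau_zero hm]; exact Nat.zero_le n

lemma InsS_invol (τ : ℕ) (s r : ℕ → Bool) : InsS_sw τ (InsS_sw τ s r) (InsS_sw τ r s) = s := by
  funext i
  unfold InsS_sw
  by_cases h : i < τ
  · rw [if_pos h, if_pos h]
  · rw [if_neg h, if_neg h]

lemma InsS_wt (g : Env) (h : ℝ) {n τ : ℕ} (hτ : τ ≤ n) {s r : ℕ → Bool} (hp : pos s τ = pos r τ) :
    wt g h 0 0 n (InsS_sw τ s r) * wt g h 0 0 n (InsS_sw τ r s) =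
      wt g h 0 0 n s * wt g h 0 0 n r := by
  obtain ⟨m, rfl⟩ := Nat.exists_eq_add_of_le hτ
  have h1 : ∀ s r : ℕ → Bool, pos s τ = pos r τ → wt g h 0 0 (τ + m) (InsS_sw τ s r) =
      wt g h 0 0 τ r * wt g h (0 + τ) (0 + pos s τ) m (shf τ s) := by
    intro s r hp
    rw [wt_add, InsS_shf, InsS_pos_le le_rfl, hp]
    congr 1
    refine wt_congr fun j hj => ?_
    unfold InsS_sw
    rw [if_pos hj]
  rw [h1 s r hp, h1 r s hp.symm, wt_add g h 0 0 τ m s, wt_add g h 0 0 τ m r]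
  ring

lemma InsS_av2 (g : Env) (h : ℝ) (n : ℕ) (F : (ℕ → Bool) → (ℕ → Bool) → ℝ) :
    Av2 g h n F = (∑ p ∈ T n ×ˢ T n, wt g h 0 0 n p.1 * wt g h 0 0 n p.2 * F p.1 p.2) /
      (Z g h 0 0 n * Z g h 0 0 n) := by
  unfold Av2 Av
  rw [Finset.sum_product, ← div_div]
  congr 1
  rw [Finset.sum_div]
  refine Finset.sum_congr rfl fun s _ => ?_
  rw [← mul_div_assoc, Finset.mul_sum]
  congr 1
  refine Finset.sum_congr rfl fun r _ => ?_
  ring

lemma InsS_symm (g : Env) (h : ℝ) (n : ℕ) (F : (ℕ → Bool) → (ℕ → Bool) → ℝ) :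
    Av2 g h n F = Av2 g h n (fun s r => F r s) := by
  rw [InsS_av2, InsS_av2]
  congr 1
  rw [Finset.sum_product, Finset.sum_product_right]
  refine Finset.sum_congr rfl fun s _ => Finset.sum_congr rfl fun r _ => ?_
  ring

lemma InsS_congr {g : Env} {h : ℝ} {n : ℕ} {F G : (ℕ → Bool) → (ℕ → Bool) → ℝ}
    (hFG : ∀ s ∈ T n, ∀ r ∈ T n, F s r = G s r) : Av2 g h n F = Av2 g h n G :=
  Av_congr fun s hs => Av_congr fun r hr => hFG s hs r hr

lemma InsS_mono {g : Env} {h : ℝ} {n : ℕ} {F G : (ℕ → Bool) → (ℕ → Bool) → ℝ}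
    (hFG : ∀ s ∈ T n, ∀ r ∈ T n, F s r ≤ G s r) : Av2 g h n F ≤ Av2 g h n G :=
  Av_mono fun s hs => Av_mono fun r hr => hFG s hs r hr

lemma InsS_add (g : Env) (h : ℝ) (n : ℕ) (F G : (ℕ → Bool) → (ℕ → Bool) → ℝ) :
    Av2 g h n (fun s r => F s r + G s r) = Av2 g h n F + Av2 g h n G := by
  unfold Av2
  simp only [Av_add]

lemma InsS_sub (g : Env) (h : ℝ) (n : ℕ) (F G : (ℕ → Bool) → (ℕ → Bool) → ℝ) :
    Av2 g h n (fun s r => F s r - G s r) = Av2 g h n F - Av2 g h n G := by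
  unfold Av2
  simp only [Av_sub]

lemma InsS_mul_left (g : Env) (h : ℝ) (n : ℕ) (c : ℝ) (F : (ℕ → Bool) → (ℕ → Bool) → ℝ) :
    Av2 g h n (fun s r => c * F s r) = c * Av2 g h n F := by
  unfold Av2
  simp only [Av_mul_left]

lemma InsS_sum {ι : Type*} (g : Env) (h : ℝ) (n : ℕ) (I : Finset ι)
    (F : ι → (ℕ → Bool) → (ℕ → Bool) → ℝ) :
    Av2 g h n (fun s r => ∑ i ∈ I, F i s r) = ∑ i ∈ I, Av2 g h n (F i) := by
  have h1 : ∑ i ∈ I, Av2 g h n (F i) =
      ∑ i ∈ I, Av g h 0 0 n fun s => Av g h 0 0 n fun r => F i s r := rfl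
  rw [h1, ← Av_sum]
  unfold Av2
  simp only [Av_sum]

lemma InsS_prod (g : Env) (h : ℝ) (n : ℕ) (A B : (ℕ → Bool) → ℝ) :
    Av2 g h n (fun s r => A s * B r) = Av g h 0 0 n A * Av g h 0 0 n B := by
  unfold Av2
  simp only [Av_mul_left]
  exact Av_mul_right _ _

/-- The estimate behind the two sums. -/
lemma InsS_gen {ι : Type*} (g : Env) (h : ℝ) (n a b : ℕ) (I : Finset ι)
    (F F' : ι → (ℕ → Bool) → (ℕ → Bool) → ℝ) (h0 : ∀ i s r, 0 ≤ F i s r)
    (h0' : ∀ i s r, 0 ≤ F' i s r) (h1 : ∀ s ∈ T n, ∀ r ∈ T n, ∑ i ∈ I, F i s r ≤ 1)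
    (h1' : ∀ s ∈ T n, ∀ r ∈ T n, ∑ i ∈ I, F' i s r ≤ 1)
    (he : ∀ i ∈ I, Av2 g h n (fun s r => (1 - nm a b s r) * F i s r) =
      Av2 g h n (fun s r => (1 - nm a b s r) * F' i s r)) :
    ∑ i ∈ I, |Av2 g h n (F i) - Av2 g h n (F' i)| ≤ 2 * Av2 g h n (nm a b) := by
  have h2 : ∀ i ∈ I, |Av2 g h n (F i) - Av2 g h n (F' i)| ≤
      Av2 g h n (fun s r => nm a b s r * F i s r + nm a b s r * F' i s r) := by
    intro i hi
    have h3 : ∀ F : (ℕ → Bool) → (ℕ → Bool) → ℝ, Av2 g h n F =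
        Av2 g h n (fun s r => (1 - nm a b s r) * F s r) +
        Av2 g h n (fun s r => nm a b s r * F s r) := by
      intro F
      rw [← InsS_add]
      exact InsS_congr fun s _ r _ => by ring
    have h4 : 0 ≤ Av2 g h n (fun s r => nm a b s r * F i s r) := by
      unfold Av2
      exact Av_nonneg fun s _ => Av_nonneg fun r _ => mul_nonneg (nm_nonneg _ _ _ _) (h0 i s r)
    have h5 : 0 ≤ Av2 g h n (fun s r => nm a b s r * F' i s r) := by
      unfold Av2
      exact Av_nonneg fun s _ => Av_nonneg fun r _ => mul_nonneg (nm_nonneg _ _ _ _) (h0' i s r)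
    rw [InsS_add, h3 (F i), h3 (F' i), he i hi, abs_le]
    constructor <;> linarith
  refine (Finset.sum_le_sum h2).trans ?_
  rw [← InsS_sum, ← InsS_mul_left]
  refine InsS_mono fun s hs r hr => ?_
  rw [Finset.sum_add_distrib, ← Finset.mul_sum, ← Finset.mul_sum, two_mul]
  have h6 := nm_nonneg a b s r
  have h7 := mul_le_mul_of_nonneg_left (h1 s hs r hr) h6
  have h8 := mul_le_mul_of_nonneg_left (h1' s hs r hr) h6
  rw [mul_one] at h7 h8
  exact add_le_add h7 h8

/-- The positions are in the box. -/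
lemma InsS_box {i N : ℕ} (hi : i ≤ N) (s : ℕ → Bool) (f : ℤ → ℝ) :
    ∑ y ∈ box N, ind (pos s i = y) * f y = f (pos s i) := by
  rw [Finset.sum_eq_single (pos s i)]
  · rw [ind_true rfl, one_mul]
  · intro y _ hy
    rw [ind_false fun h => hy h.symm, zero_mul]
  · intro h
    refine absurd (mem_box.2 ?_) h
    have := pos_abs_le s i
    omega

lemma InsS_box_one {i N : ℕ} (hi : i ≤ N) (s : ℕ → Bool) :
    ∑ y ∈ box N, ind (pos s i = y) = 1 := by
  have h := InsS_box hi s (fun _ => 1)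
  simp only [mul_one] at h
  exact h

/-- **Swap of the initial segments.** Proof. Write `Av2` as a double sum over `T n × T n` with weights
`wt s * wt r / Z²`. On the pairs with a meeting in `[a, b]` let `τ` be the first meeting time `≥ a`
(`Nat.find`); the map `(s, r) ↦ (glue τ (cut τ r) (shf τ s), glue τ (cut τ s) (shf τ r))` exchanges
the first `τ` steps. Because `pos s τ = pos r τ`, the new walks are at times `i ≤ τ` at `pos r i`,
`pos s i`, at times `i ≥ τ` at `pos s i`, `pos r i`; so the meeting times, in particular `τ`, do not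
change, the map is an involution of the set of pairs meeting in `[a, b]`, the product of the weights
is the same (`wt_add` at time `τ` for the four walks), `(pos s a, pos r a)` is swapped (`a ≤ τ`), and
`(pos s b, pos r b)` is unchanged (`τ ≤ b`). `Finset.sum_bij'` / `Finset.sum_nbij'`; the factor
`1 - nm` vanishes on the other pairs. -/
theorem swap_init (g : Env) (h : ℝ) {n a b : ℕ} (hab : a ≤ b) (hb : b ≤ n)
    (G : ℤ → ℤ → ℤ → ℤ → ℝ) :
    Av2 g h n (fun s r => (1 - nm a b s r) * G (pos s a) (pos r a) (pos s b) (pos r b)) =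
      Av2 g h n (fun s r => (1 - nm a b s r) * G (pos r a) (pos s a) (pos s b) (pos r b)) := by
  rw [InsS_av2, InsS_av2]
  congr 1
  have hmem : ∀ p ∈ T n ×ˢ T n, (InsS_sw (InsS_tau a b p.1 p.2) p.1 p.2,
      InsS_sw (InsS_tau a b p.1 p.2) p.2 p.1) ∈ T n ×ˢ T n := by
    intro p hp
    rw [Finset.mem_product] at hp ⊢
    exact ⟨InsS_sw_mem hp.1 hp.2, InsS_sw_mem hp.2 hp.1⟩
  have hinv : ∀ p ∈ T n ×ˢ T n,
      (InsS_sw (InsS_tau a b (InsS_sw (InsS_tau a b p.1 p.2) p.1 p.2)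
        (InsS_sw (InsS_tau a b p.1 p.2) p.2 p.1)) (InsS_sw (InsS_tau a b p.1 p.2) p.1 p.2)
        (InsS_sw (InsS_tau a b p.1 p.2) p.2 p.1),
      InsS_sw (InsS_tau a b (InsS_sw (InsS_tau a b p.1 p.2) p.1 p.2)
        (InsS_sw (InsS_tau a b p.1 p.2) p.2 p.1)) (InsS_sw (InsS_tau a b p.1 p.2) p.2 p.1)
        (InsS_sw (InsS_tau a b p.1 p.2) p.1 p.2)) = p := by
    intro p _
    rw [InsS_tau_eq (InsS_tau_pos a b p.1 p.2), InsS_invol, InsS_invol]
  refine Finset.sum_bij' (fun p _ => (InsS_sw (InsS_tau a b p.1 p.2) p.1 p.2,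
      InsS_sw (InsS_tau a b p.1 p.2) p.2 p.1)) (fun p _ => (InsS_sw (InsS_tau a b p.1 p.2) p.1 p.2,
      InsS_sw (InsS_tau a b p.1 p.2) p.2 p.1)) hmem hmem hinv hinv ?_
  rintro ⟨s, r⟩ hp
  simp only
  have hpos := InsS_tau_pos a b s r
  rw [InsS_wt g h (InsS_tau_le hb s r) hpos, InsS_nm_eq hpos]
  by_cases hm : ∃ i, a ≤ i ∧ i ≤ b ∧ pos s i = pos r i
  · obtain ⟨h1, h2, h3⟩ := InsS_tau_mem hm
    rw [InsS_pos_le h1, InsS_pos_le h1, InsS_pos_ge h2 hpos, InsS_pos_ge h2 hpos.symm]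
  · have h4 : nm a b s r = 1 := ind_true fun i hi hi' h5 => hm ⟨i, hi, hi', h5⟩
    rw [h4, sub_self, zero_mul, zero_mul]

/-- **Swap of the final segments.** Proof. `Av2` is symmetric under the exchange of `s` and `r`
(double sum), `nm` is symmetric, so this is `swap_init` for
`G' y y' x x' = G y' y x' x`: exchange, then swap. -/
theorem swap_final (g : Env) (h : ℝ) {n a b : ℕ} (hab : a ≤ b) (hb : b ≤ n)
    (G : ℤ → ℤ → ℤ → ℤ → ℝ) :
    Av2 g h n (fun s r => (1 - nm a b s r) * G (pos s a) (pos r a) (pos s b) (pos r b)) =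
      Av2 g h n (fun s r => (1 - nm a b s r) * G (pos s a) (pos r a) (pos r b) (pos s b)) := by
  rw [InsS_symm]
  have h1 := swap_init g h hab hb (fun y₁ y₂ x₁ x₂ => G y₂ y₁ x₂ x₁)
  rw [← h1]
  exact InsS_congr fun s _ r _ => by rw [InsS_nm_symm]

/-- Joint law of the positions at times `a`, `b`. -/
def pab (g : Env) (h : ℝ) (n a b : ℕ) (y x : ℤ) : ℝ :=
  Av g h 0 0 n (fun s => ind (pos s a = y) * ind (pos s b = x))

/-- Proof. `∑_{y'} pab y' x' = Av (ind (pos b = x'))` (the positions are in `box N`), so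
`pab y x * ∑_{y'} pab y' x' = Av2 (ind (S_a = y) ind (S_b = x) ind (S'_b = x'))` (product of Gibbs
averages, `Av2` of a product) and `(∑_{y'} pab y' x) * pab y x' = Av2 (ind (S_b = x) ind (S'_a = y)
ind (S'_b = x'))`. Write `1 = (1 - nm) + nm` in both; the `(1 - nm)` parts are equal by `swap_init`
with `G y₁ y₂ x₁ x₂ = ind (y₁ = y) ind (x₁ = x) ind (x₂ = x')`. So the absolute value is at most
`Av2 (nm ind (S_a = y) ind (S_b = x) ind (S'_b = x')) + Av2 (nm ind (S'_a = y) ind (S_b = x) ind (S'_b = x'))`;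
sum over `y, x, x' ∈ box N`. -/
theorem sum_swap_init (g : Env) (h : ℝ) {n a b N : ℕ} (hab : a ≤ b) (hb : b ≤ n) (hN : n ≤ N) :
    ∑ y ∈ box N, ∑ x ∈ box N, ∑ x' ∈ box N,
      |pab g h n a b y x * (∑ y' ∈ box N, pab g h n a b y' x') -
        (∑ y' ∈ box N, pab g h n a b y' x) * pab g h n a b y x'| ≤
      2 * Av2 g h n (nm a b) := by
  have hm : ∀ x, ∑ y' ∈ box N, pab g h n a b y' x = Av g h 0 0 n (fun s => ind (pos s b = x)) := by
    intro x
    unfold pab
    rw [← Av_sum]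
    refine Av_congr fun s _ => ?_
    rw [← Finset.sum_mul, InsS_box_one (by omega) s, one_mul]
  have h1 : ∀ y x x', pab g h n a b y x * (∑ y' ∈ box N, pab g h n a b y' x') =
      Av2 g h n (fun s r => ind (pos s a = y) * ind (pos s b = x) * ind (pos r b = x')) := by
    intro y x x'
    rw [hm, InsS_prod]
    rfl
  have h2 : ∀ y x x', (∑ y' ∈ box N, pab g h n a b y' x) * pab g h n a b y x' =
      Av2 g h n (fun s r => ind (pos r a = y) * ind (pos s b = x) * ind (pos r b = x')) := by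
    intro y x x'
    rw [hm]
    unfold pab
    rw [← InsS_prod]
    exact InsS_congr fun s _ r _ => by ring
  have h3 := InsS_gen g h n a b (box N ×ˢ box N ×ˢ box N)
    (fun q s r => ind (pos s a = q.1) * ind (pos s b = q.2.1) * ind (pos r b = q.2.2))
    (fun q s r => ind (pos r a = q.1) * ind (pos s b = q.2.1) * ind (pos r b = q.2.2))
    (fun q s r => mul_nonneg (mul_nonneg (ind_nonneg _) (ind_nonneg _)) (ind_nonneg _))
    (fun q s r => mul_nonneg (mul_nonneg (ind_nonneg _) (ind_nonneg _)) (ind_nonneg _))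
    (fun s _ r _ => ?_) (fun s _ r _ => ?_) (fun q _ => ?_)
  · rw [Finset.sum_product] at h3
    refine le_trans (le_of_eq ?_) h3
    refine Finset.sum_congr rfl fun y _ => ?_
    rw [Finset.sum_product]
    refine Finset.sum_congr rfl fun x _ => Finset.sum_congr rfl fun x' _ => ?_
    rw [h1, h2]
  · rw [Finset.sum_product]
    simp only [Finset.sum_product, mul_assoc, ← Finset.mul_sum]
    rw [InsS_box_one (by omega) r]
    simp only [mul_one]
    rw [InsS_box_one (by omega) s]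
    simp only [mul_one]
    rw [InsS_box_one (by omega) s]
  · rw [Finset.sum_product]
    simp only [Finset.sum_product, mul_assoc, ← Finset.mul_sum]
    rw [InsS_box_one (by omega) r]
    simp only [mul_one]
    rw [InsS_box_one (by omega) s]
    simp only [mul_one]
    rw [InsS_box_one (by omega) r]
  · exact swap_init g h hab hb
      (fun y₁ _ x₁ x₂ => ind (y₁ = q.1) * ind (x₁ = q.2.1) * ind (x₂ = q.2.2))

/-- Proof. As `sum_swap_init`, with `swap_final`. -/
theorem sum_swap_final (g : Env) (h : ℝ) {n a b N : ℕ} (hab : a ≤ b) (hb : b ≤ n) (hN : n ≤ N) :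
    ∑ y ∈ box N, ∑ x ∈ box N, ∑ x' ∈ box N,
      |pab g h n a b x y * (∑ y' ∈ box N, pab g h n a b x' y') -
        (∑ y' ∈ box N, pab g h n a b x y') * pab g h n a b x' y| ≤
      2 * Av2 g h n (nm a b) := by
  have hm : ∀ x, ∑ y' ∈ box N, pab g h n a b x y' = Av g h 0 0 n (fun s => ind (pos s a = x)) := by
    intro x
    unfold pab
    rw [← Av_sum]
    refine Av_congr fun s _ => ?_
    rw [← Finset.mul_sum, InsS_box_one (by omega) s, mul_one]
  have h1 : ∀ y x x', pab g h n a b x y * (∑ y' ∈ box N, pab g h n a b x' y') =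
      Av2 g h n (fun s r => ind (pos s b = y) * ind (pos s a = x) * ind (pos r a = x')) := by
    intro y x x'
    rw [hm]
    unfold pab
    rw [← InsS_prod]
    exact InsS_congr fun s _ r _ => by ring
  have h2 : ∀ y x x', (∑ y' ∈ box N, pab g h n a b x y') * pab g h n a b x' y =
      Av2 g h n (fun s r => ind (pos r b = y) * ind (pos s a = x) * ind (pos r a = x')) := by
    intro y x x'
    rw [hm]
    unfold pab
    rw [← InsS_prod]
    exact InsS_congr fun s _ r _ => by ring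
  have h3 := InsS_gen g h n a b (box N ×ˢ box N ×ˢ box N)
    (fun q s r => ind (pos s b = q.1) * ind (pos s a = q.2.1) * ind (pos r a = q.2.2))
    (fun q s r => ind (pos r b = q.1) * ind (pos s a = q.2.1) * ind (pos r a = q.2.2))
    (fun q s r => mul_nonneg (mul_nonneg (ind_nonneg _) (ind_nonneg _)) (ind_nonneg _))
    (fun q s r => mul_nonneg (mul_nonneg (ind_nonneg _) (ind_nonneg _)) (ind_nonneg _))
    (fun s _ r _ => ?_) (fun s _ r _ => ?_) (fun q _ => ?_)
  · rw [Finset.sum_product] at h3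
    refine le_trans (le_of_eq ?_) h3
    refine Finset.sum_congr rfl fun y _ => ?_
    rw [Finset.sum_product]
    refine Finset.sum_congr rfl fun x _ => Finset.sum_congr rfl fun x' _ => ?_
    rw [h1, h2]
  · rw [Finset.sum_product]
    simp only [Finset.sum_product, mul_assoc, ← Finset.mul_sum]
    rw [InsS_box_one (by omega) r]
    simp only [mul_one]
    rw [InsS_box_one (by omega) s]
    simp only [mul_one]
    rw [InsS_box_one (by omega) s]
  · rw [Finset.sum_product]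
    simp only [Finset.sum_product, mul_assoc, ← Finset.mul_sum]
    rw [InsS_box_one (by omega) r]
    simp only [mul_one]
    rw [InsS_box_one (by omega) s]
    simp only [mul_one]
    rw [InsS_box_one (by omega) r]
  · exact swap_final g h hab hb
      (fun y₁ y₂ x₁ _ => ind (x₁ = q.1) * ind (y₁ = q.2.1) * ind (y₂ = q.2.2))

end

end Pool.Agent.W_7d29a1_h47
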