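import Pool.Agent.W_7d29a1_h47.BlockA

/-!
# Kernel calculus
-/

namespace Pool.Agent.W_7d29a1_h47

open MeasureTheory ProbabilityTheory Finset

noncomputable section

variable {μ : Measure ℝ} [IsProbabilityMeasure μ]

/-- The integers of absolute value at most `N`. -/
def box (N : ℕ) : Finset ℤ := Icc (-(N : ℤ)) N

lemma mem_box {N : ℕ} {x : ℤ} : x ∈ box N ↔ |x| ≤ N := by
  unfold box
  rw [Finset.mem_Icc, abs_le]

/-- `Kp` as a sum over walks. Proof. Definition of `Zp`, `wt`: if `x + pos s ℓ = y` then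
`e^{h (y - x)} e^{En} = wt`. -/
lemma Kp_eq (g : Env) (h : ℝ) (t : ℕ) (x : ℤ) (ℓ : ℕ) (y : ℤ) :
    Kp g h t x ℓ y = ∑ s ∈ T ℓ, ind (x + pos s ℓ = y) * wt g h t x ℓ s := by
  have h1 := BlockA_inner g h t x ℓ y (fun _ => 0)
  simp only [Real.exp_zero, mul_one, one_mul] at h1
  exact h1.symm

lemma Kp_eq_zero {g : Env} {h : ℝ} {t : ℕ} {x : ℤ} {ℓ : ℕ} {y : ℤ}
    (hy : y ∉ Icc (x - ℓ) (x + ℓ)) : Kp g h t x ℓ y = 0 := by
  unfold Kp
  rw [Zp_eq_zero hy, mul_zero]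

/-- Positivity depends only on the existence of a walk. -/
lemma Kp_pos {g : Env} {h : ℝ} {t : ℕ} {x : ℤ} {ℓ : ℕ} {y : ℤ} {s : ℕ → Bool} (hs : s ∈ T ℓ)
    (hy : x + pos s ℓ = y) : 0 < Kp g h t x ℓ y := by
  rw [Kp_eq]
  refine Finset.sum_pos' (fun r _ => mul_nonneg (ind_nonneg _) (wt_pos _ _ _ _ _ _).le)
    ⟨s, hs, ?_⟩
  rw [ind_true hy, one_mul]
  exact wt_pos _ _ _ _ _ _

/-- Proof. From `Kp_eq` some walk ends in `y` (otherwise the sum is `0`). -/
lemma exists_walk_of_Kp {g : Env} {h : ℝ} {t : ℕ} {x : ℤ} {ℓ : ℕ} {y : ℤ}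
    (hK : 0 < Kp g h t x ℓ y) : ∃ s ∈ T ℓ, x + pos s ℓ = y := by
  by_contra hcon
  push Not at hcon
  have h0 : Kp g h t x ℓ y = 0 := by
    rw [Kp_eq]
    refine Finset.sum_eq_zero fun s hs => ?_
    rw [ind_false (hcon s hs), zero_mul]
  exact hK.ne' h0

/-- Hence positivity does not depend on the environment, the tilt, the time. -/
lemma Kp_pos_of_pos {g g' : Env} {h h' : ℝ} {t t' : ℕ} {x : ℤ} {ℓ : ℕ} {y : ℤ}
    (hK : 0 < Kp g h t x ℓ y) : 0 < Kp g' h' t' x ℓ y := by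
  obtain ⟨s, hs, hy⟩ := exists_walk_of_Kp hK
  exact Kp_pos hs hy

lemma InsK_pos (u i : ℕ) : pos (fun j => decide (j < u)) i = 2 * (min i u : ℕ) - i := by
  induction i with
  | zero => simp
  | succ i ih =>
    rw [pos_succ, ih]
    by_cases h : i < u
    · have h1 : min (i + 1) u = i + 1 := min_eq_left h
      have h2 : min i u = i := min_eq_left h.le
      rw [h1, h2]
      simp only [h, decide_true, stp_true]
      push_cast
      ring
    · have h1 : min (i + 1) u = u := min_eq_right (by omega)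
      have h2 : min i u = u := min_eq_right (by omega)
      rw [h1, h2]
      simp only [h, decide_false, stp_false]
      push_cast
      ring

lemma InsK_path {m : ℕ} {d : ℤ} (h1 : |d| ≤ m) (h2 : d % 2 = m % 2) : ∃ r ∈ T m, pos r m = d := by
  obtain ⟨h3, h4⟩ := abs_le.1 h1
  have h5 : 0 ≤ ((m : ℤ) + d) / 2 := by omega
  obtain ⟨u, hu⟩ := Int.eq_ofNat_of_zero_le h5
  have hum : u ≤ m := by omega
  refine ⟨fun j => decide (j < u), ?_, ?_⟩
  · rw [mem_T]
    intro i hi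
    have : ¬ i < u := by omega
    simp [this]
  · rw [InsK_pos, min_eq_right hum]
    omega

/-- Proof. As `exists_path` in `Surg.lean`/`Chain.lean`: first `(ℓ + d)/2` up steps, then down steps,
`d = y - x`. -/
lemma Kp_pos_of_parity (g : Env) (h : ℝ) (t : ℕ) (x : ℤ) (ℓ : ℕ) (y : ℤ) (h1 : |y - x| ≤ ℓ)
    (h2 : (y - x) % 2 = ℓ % 2) : 0 < Kp g h t x ℓ y := by
  obtain ⟨r, hr, hr'⟩ := InsK_path h1 h2
  exact Kp_pos hr (by rw [hr']; ring)

lemma Kp_tilt (g : Env) (h h' : ℝ) (t : ℕ) (x : ℤ) (ℓ : ℕ) (y : ℤ) :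
    Kp g h' t x ℓ y = Real.exp ((h' - h) * ((y : ℝ) - x)) * Kp g h t x ℓ y := by
  unfold Kp
  rw [← mul_assoc, ← Real.exp_add]
  ring_nf

/-- One step. Proof. `T 1` has two elements. -/
lemma Kp_one (g : Env) (h : ℝ) (t : ℕ) (x : ℤ) (b : Bool) :
    Kp g h t x 1 (x + stp b) = Real.exp (g (t, x + stp b) + h * stp b) := by
  have hm : (fun i : ℕ => if i = 0 then b else false) ∈ T 1 := by
    rw [mem_T]
    intro i hi
    have : i ≠ 0 := by omega
    simp [this]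
  have hp : ∀ s : ℕ → Bool, pos s 1 = stp (s 0) := by
    intro s
    have := pos_succ s 0
    rw [pos_zero] at this
    rw [show (1 : ℕ) = 0 + 1 from rfl, this, zero_add]
  have hst : ∀ b c : Bool, stp b = stp c → b = c := by decide
  rw [Kp_eq, Finset.sum_eq_single (fun i : ℕ => if i = 0 then b else false)]
  · have h1 : x + pos (fun i : ℕ => if i = 0 then b else false) 1 = x + stp b := by
      rw [hp]
      simp
    rw [ind_true h1, one_mul]
    unfold wt En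
    rw [Finset.sum_range_one, zero_add, h1, hp]
    simp
  · intro s hs hne
    rw [ind_false, zero_mul]
    intro h1
    apply hne
    rw [hp] at h1
    have h2 := hst _ _ (add_left_cancel h1)
    funext i
    by_cases hi : i = 0
    · subst hi
      simpa using h2
    · rw [mem_T.1 hs i (by omega)]
      simp [hi]
  · intro h1
    exact absurd hm h1

/-- Sums over walks sorted by the end point. -/
lemma InsK_sum (g : Env) (h : ℝ) (t : ℕ) (x : ℤ) (a : ℕ) (S : Finset ℤ)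
    (hS : ∀ s ∈ T a, x + pos s a ∈ S) (F : ℤ → ℝ) :
    ∑ s ∈ T a, wt g h t x a s * F (x + pos s a) = ∑ z ∈ S, Kp g h t x a z * F z := by
  have h1 : ∀ z ∈ S, Kp g h t x a z * F z =
      ∑ s ∈ T a, wt g h t x a s * (ind (x + pos s a = z) * F z) := by
    intro z _
    rw [Kp_eq, Finset.sum_mul]
    refine Finset.sum_congr rfl fun s _ => ?_
    ring
  rw [Finset.sum_congr rfl h1, Finset.sum_comm]
  refine Finset.sum_congr rfl fun s hs => ?_
  rw [← Finset.mul_sum, Finset.sum_eq_single (x + pos s a)]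
  · rw [ind_true rfl, one_mul]
  · intro z _ hz
    rw [ind_false (fun e => hz e.symm), zero_mul]
  · intro h2
    exact absurd (hS s hs) h2

lemma InsK_step (g : Env) (h : ℝ) (t : ℕ) (x : ℤ) (a b : ℕ) (S : Finset ℤ)
    (hS : ∀ s ∈ T a, x + pos s a ∈ S) (G : ℤ → (ℕ → Bool) → ℝ) :
    ∑ s ∈ T (a + b), wt g h t x (a + b) s * G (x + pos s a) (shf a s) =
      ∑ z ∈ S, Kp g h t x a z * ∑ r ∈ T b, wt g h (t + a) z b r * G z r := by
  rw [← InsK_sum g h t x a S hS (fun z => ∑ r ∈ T b, wt g h (t + a) z b r * G z r), sum_split]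
  refine Finset.sum_congr rfl fun s _ => ?_
  rw [Finset.mul_sum]
  refine Finset.sum_congr rfl fun r _ => ?_
  rw [wt_glue, pos_glue_le le_rfl, shf_glue]
  ring

lemma InsK_box {x : ℤ} {a N : ℕ} (hN : |x| + a ≤ N) (s : ℕ → Bool) : x + pos s a ∈ box N := by
  rw [mem_box]
  have h1 := abs_add_le x (pos s a)
  have h2 := pos_abs_le s a
  omega

lemma InsK_one (g : Env) (h : ℝ) (t : ℕ) (x : ℤ) (a b : ℕ) {N : ℕ} (hN : |x| + a ≤ N)
    (f : ℤ → ℝ) :
    ∑ s ∈ T (a + b), wt g h t x (a + b) s * f (x + pos s a) =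
      ∑ z ∈ box N, Kp g h t x a z * (Z g h (t + a) z b * f z) := by
  rw [InsK_step g h t x a b (box N) (fun s _ => InsK_box hN s) (fun z _ => f z)]
  refine Finset.sum_congr rfl fun z _ => ?_
  rw [← Finset.sum_mul]
  rfl

lemma InsK_range {g : Env} {h : ℝ} {t : ℕ} {x : ℤ} {a : ℕ} {z : ℤ} {A B : ℝ}
    (hAB : |z| ≤ |x| + a → A = B) : Kp g h t x a z * A = Kp g h t x a z * B := by
  by_cases hz : z ∈ Icc (x - a) (x + a)
  · rw [hAB]
    rw [Finset.mem_Icc] at hz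
    have := abs_le.1 (le_refl |x|)
    rw [abs_le]
    constructor <;> omega
  · rw [Kp_eq_zero hz, zero_mul, zero_mul]

lemma InsK_two (g : Env) (h : ℝ) (t : ℕ) (x : ℤ) (a b c : ℕ) {N : ℕ} (hN : |x| + a + b ≤ N)
    (f : ℤ → ℤ → ℝ) :
    ∑ s ∈ T (a + (b + c)), wt g h t x (a + (b + c)) s * f (x + pos s a) (x + pos s (a + b)) =
      ∑ z ∈ box N, Kp g h t x a z *
        ∑ y ∈ box N, Kp g h (t + a) z b y * (Z g h (t + a + b) y c * f z y) := by
  have h1 := InsK_step g h t x a (b + c) (box N) (fun s _ => InsK_box (by omega) s)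
    (fun z r => f z (z + pos r b))
  have h2 : ∀ s ∈ T (a + (b + c)), wt g h t x (a + (b + c)) s *
      f (x + pos s a) (x + pos s (a + b)) =
      wt g h t x (a + (b + c)) s * f (x + pos s a) (x + pos s a + pos (shf a s) b) := by
    intro s _
    rw [pos_add s a b, add_assoc]
  rw [Finset.sum_congr rfl h2, h1]
  refine Finset.sum_congr rfl fun z _ => InsK_range fun hz => ?_
  exact InsK_one g h (t + a) z b c (by omega) (fun y => f z y)

lemma InsK_three (g : Env) (h : ℝ) (t : ℕ) (x : ℤ) (a b c d : ℕ) {N : ℕ}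
    (hN : |x| + a + b + c ≤ N) (f : ℤ → ℤ → ℤ → ℝ) :
    ∑ s ∈ T (a + (b + (c + d))), wt g h t x (a + (b + (c + d))) s *
        f (x + pos s a) (x + pos s (a + b)) (x + pos s (a + b + c)) =
      ∑ z ∈ box N, Kp g h t x a z *
        ∑ y ∈ box N, Kp g h (t + a) z b y *
          ∑ w ∈ box N, Kp g h (t + a + b) y c w * (Z g h (t + a + b + c) w d * f z y w) := by
  have h1 := InsK_step g h t x a (b + (c + d)) (box N) (fun s _ => InsK_box (by omega) s)
    (fun z r => f z (z + pos r b) (z + pos r (b + c)))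
  have h2 : ∀ s ∈ T (a + (b + (c + d))), wt g h t x (a + (b + (c + d))) s *
      f (x + pos s a) (x + pos s (a + b)) (x + pos s (a + b + c)) =
      wt g h t x (a + (b + (c + d))) s * f (x + pos s a) (x + pos s a + pos (shf a s) b)
        (x + pos s a + pos (shf a s) (b + c)) := by
    intro s _
    rw [add_assoc a b c, pos_add s a b, pos_add s a (b + c), add_assoc, add_assoc]
  rw [Finset.sum_congr rfl h2, h1]
  refine Finset.sum_congr rfl fun z _ => InsK_range fun hz => ?_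
  exact InsK_two g h (t + a) z b c d (by omega) (fun y w => f z y w)

/-- Chapman–Kolmogorov. Proof. `Kp_eq`, `sum_split`, `wt_glue`, `pos_glue_add`, then sort the first
sum by the end point `z` (as `sum_end`). -/
lemma Kp_split (g : Env) (h : ℝ) (t : ℕ) (x : ℤ) (a b : ℕ) (y : ℤ) :
    Kp g h t x (a + b) y =
      ∑ z ∈ Icc (x - a) (x + a), Kp g h t x a z * Kp g h (t + a) z b y := by
  have h1 : Kp g h t x (a + b) y = ∑ s ∈ T a, wt g h t x a s *
      Kp g h (t + a) (x + pos s a) b y := by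
    rw [Kp_eq, sum_split]
    refine Finset.sum_congr rfl fun s _ => ?_
    rw [Kp_eq, Finset.mul_sum]
    refine Finset.sum_congr rfl fun r _ => ?_
    rw [pos_glue_add, wt_glue, add_assoc]
    ring
  rw [h1]
  exact InsK_sum g h t x a (Icc (x - a) (x + a)) (fun s _ => pos_mem_Icc s a x)
    (fun z => Kp g h (t + a) z b y)

/-- Proof. `Z_split`, sorted by the end point. -/
lemma Z_split_Kp (g : Env) (h : ℝ) (t : ℕ) (x : ℤ) (a b : ℕ) :
    Z g h t x (a + b) = ∑ z ∈ Icc (x - a) (x + a), Kp g h t x a z * Z g h (t + a) z b := by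
  rw [Z_split]
  exact InsK_sum g h t x a (Icc (x - a) (x + a)) (fun s _ => pos_mem_Icc s a x)
    (fun z => Z g h (t + a) z b)

/-- The same sums over a larger index set (`Kp_eq_zero`). -/
lemma Kp_split_box (g : Env) (h : ℝ) (t : ℕ) (x : ℤ) (a b : ℕ) (y : ℤ) {N : ℕ}
    (hN : |x| + a ≤ N) :
    Kp g h t x (a + b) y = ∑ z ∈ box N, Kp g h t x a z * Kp g h (t + a) z b y := by
  rw [Kp_split]
  refine Finset.sum_subset ?_ ?_
  · intro z hz
    rw [mem_box]
    rw [Finset.mem_Icc] at hz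
    have := abs_le.1 (le_refl |x|)
    rw [abs_le]
    constructor <;> omega
  · intro z _ hz
    rw [Kp_eq_zero hz, zero_mul]

lemma Z_split_box (g : Env) (h : ℝ) (t : ℕ) (x : ℤ) (a b : ℕ) {N : ℕ} (hN : |x| + a ≤ N) :
    Z g h t x (a + b) = ∑ z ∈ box N, Kp g h t x a z * Z g h (t + a) z b := by
  rw [Z_split_Kp]
  refine Finset.sum_subset ?_ ?_
  · intro z hz
    rw [mem_box]
    rw [Finset.mem_Icc] at hz
    have := abs_le.1 (le_refl |x|)
    rw [abs_le]
    constructor <;> omega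
  · intro z _ hz
    rw [Kp_eq_zero hz, zero_mul]

lemma Kp_le_Z (g : Env) (h : ℝ) (t : ℕ) (x : ℤ) (ℓ : ℕ) (y : ℤ) :
    Kp g h t x ℓ y ≤ Z g h t x ℓ := by
  have := Kp_le g h h t x ℓ y
  simpa using this

/-- Translation: if the rows used are translates of each other, the weights agree. Proof. `En` is
the same sum. -/
lemma En_transl {g₁ g₂ : Env} {t₁ t₂ : ℕ} {c : ℤ} {ℓ : ℕ}
    (hg : ∀ i < ℓ, ∀ y : ℤ, g₁ (t₁ + i, y + c) = g₂ (t₂ + i, y)) (x : ℤ) (s : ℕ → Bool) :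
    En g₁ t₁ (x + c) ℓ s = En g₂ t₂ x ℓ s := by
  unfold En
  refine Finset.sum_congr rfl fun i hi => ?_
  rw [← hg i (Finset.mem_range.1 hi) (x + pos s (i + 1))]
  congr 2
  ring

lemma Kp_transl {g₁ g₂ : Env} {t₁ t₂ : ℕ} {c : ℤ} {ℓ : ℕ}
    (hg : ∀ i < ℓ, ∀ y : ℤ, g₁ (t₁ + i, y + c) = g₂ (t₂ + i, y)) (h : ℝ) (x y : ℤ) :
    Kp g₁ h t₁ (x + c) ℓ (y + c) = Kp g₂ h t₂ x ℓ y := by
  rw [Kp_eq, Kp_eq]
  refine Finset.sum_congr rfl fun s _ => ?_
  have h1 : ind (x + c + pos s ℓ = y + c) = ind (x + pos s ℓ = y) :=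
    ind_congr ⟨fun h => by linarith, fun h => by linarith⟩
  rw [h1]
  unfold wt
  rw [En_transl hg]

lemma Z_transl {g₁ g₂ : Env} {t₁ t₂ : ℕ} {c : ℤ} {ℓ : ℕ}
    (hg : ∀ i < ℓ, ∀ y : ℤ, g₁ (t₁ + i, y + c) = g₂ (t₂ + i, y)) (h : ℝ) (x : ℤ) :
    Z g₁ h t₁ (x + c) ℓ = Z g₂ h t₂ x ℓ := by
  unfold Z
  refine Finset.sum_congr rfl fun s _ => ?_
  unfold wt
  rw [En_transl hg]

/-- The joint distribution of the positions at two times. Proof. `Z_mul_Av`, `sum_split` twice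
(`n = t + ℓ + (n - t - ℓ)`), `wt_glue`, positions of glued walks, and sorting by the end points. -/
lemma Av_two (g : Env) (h : ℝ) {n t ℓ N : ℕ} (ht : t + ℓ ≤ n) (hN : n ≤ N) (f : ℤ → ℤ → ℝ) :
    Z g h 0 0 n * Av g h 0 0 n (fun s => f (pos s t) (pos s (t + ℓ))) =
      ∑ x ∈ box N, ∑ y ∈ box N,
        Kp g h 0 0 t x * Kp g h t x ℓ y * Z g h (t + ℓ) y (n - t - ℓ) * f x y := by
  obtain ⟨m, rfl⟩ : ∃ m, n = t + (ℓ + m) := ⟨n - t - ℓ, by omega⟩
  have e1 : t + (ℓ + m) - t - ℓ = m := by omega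
  have h1 := InsK_two g h 0 0 t ℓ m (N := N) (by simp only [abs_zero]; omega) f
  simp only [zero_add] at h1
  rw [Z_mul_Av, h1, e1]
  refine Finset.sum_congr rfl fun x _ => ?_
  rw [Finset.mul_sum]
  refine Finset.sum_congr rfl fun y _ => ?_
  ring

/-- One time. Proof. `Av_two` with `ℓ = 0`, or directly. -/
lemma Av_one (g : Env) (h : ℝ) {n t N : ℕ} (ht : t ≤ n) (hN : n ≤ N) (f : ℤ → ℝ) :
    Z g h 0 0 n * Av g h 0 0 n (fun s => f (pos s t)) =
      ∑ x ∈ box N, Kp g h 0 0 t x * Z g h t x (n - t) * f x := by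
  obtain ⟨m, rfl⟩ : ∃ m, n = t + m := ⟨n - t, by omega⟩
  have e1 : t + m - t = m := by omega
  have h1 := InsK_one g h 0 0 t m (N := N) (by simp only [abs_zero]; omega) f
  simp only [zero_add] at h1
  rw [Z_mul_Av, h1, e1]
  refine Finset.sum_congr rfl fun x _ => ?_
  ring

/-- Three times. Proof. As `Av_two`. -/
lemma Av_three (g : Env) (h : ℝ) {n t ℓ ℓ' N : ℕ} (ht : t + ℓ + ℓ' ≤ n) (hN : n ≤ N)
    (f : ℤ → ℤ → ℤ → ℝ) :
    Z g h 0 0 n * Av g h 0 0 n (fun s => f (pos s t) (pos s (t + ℓ)) (pos s (t + ℓ + ℓ'))) =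
      ∑ x ∈ box N, ∑ y ∈ box N, ∑ z ∈ box N,
        Kp g h 0 0 t x * Kp g h t x ℓ y * Kp g h (t + ℓ) y ℓ' z *
          Z g h (t + ℓ + ℓ') z (n - t - ℓ - ℓ') * f x y z := by
  obtain ⟨m, rfl⟩ : ∃ m, n = t + (ℓ + (ℓ' + m)) := ⟨n - t - ℓ - ℓ', by omega⟩
  have e1 : t + (ℓ + (ℓ' + m)) - t - ℓ - ℓ' = m := by omega
  have h1 := InsK_three g h 0 0 t ℓ ℓ' m (N := N) (by simp only [abs_zero]; omega) f
  simp only [zero_add] at h1
  rw [Z_mul_Av, h1, e1]
  refine Finset.sum_congr rfl fun x _ => ?_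
  rw [Finset.mul_sum]
  refine Finset.sum_congr rfl fun y _ => ?_
  rw [Finset.mul_sum, Finset.mul_sum]
  refine Finset.sum_congr rfl fun z _ => ?_
  ring

/-! ### Measurability and moments -/

@[fun_prop]
lemma measurable_Kp (h : ℝ) (t : ℕ) (x : ℤ) (ℓ : ℕ) (y : ℤ) :
    Measurable (fun g : Env => Kp g h t x ℓ y) := by
  unfold Kp; fun_prop

lemma dependsOn_Kp (h : ℝ) (t : ℕ) (x : ℤ) (ℓ : ℕ) (y : ℤ) :
    DependsOn (fun g : Env => Kp g h t x ℓ y) (rows t (t + ℓ)) := by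
  intro g g' hg
  have := dependsOn_Zp t x ℓ y hg
  simp only at this
  simp only [Kp, this]

/-- If a walk exists then `e^{-V - |h| ℓ} ≤ Kp ≤ Z`, so `|log Kp| ≤ V + (|h| + log 2) ℓ`
(`le_wt`, `Z_le`); otherwise `Kp = 0` and `log 0 = 0`. -/
lemma abs_log_Kp_le (g : Env) (h : ℝ) (t : ℕ) (x : ℤ) (ℓ : ℕ) (y : ℤ) :
    |Real.log (Kp g h t x ℓ y)| ≤ V g t x ℓ + (|h| + Real.log 2) * ℓ := by
  have hV := V_nonneg g t x ℓ
  have hl : (0 : ℝ) ≤ Real.log 2 * ℓ := by positivity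
  have hh : (0 : ℝ) ≤ |h| * ℓ := by positivity
  rcases (Kp_nonneg g h t x ℓ y).eq_or_lt with h0 | h0
  · rw [← h0, Real.log_zero, abs_zero]
    linarith
  · obtain ⟨s, hs, hy⟩ := exists_walk_of_Kp h0
    have h1 : wt g h t x ℓ s ≤ Kp g h t x ℓ y := by
      rw [Kp_eq]
      have h2 := Finset.single_le_sum
        (f := fun r => ind (x + pos r ℓ = y) * wt g h t x ℓ r)
        (fun r _ => mul_nonneg (ind_nonneg _) (wt_pos g h t x ℓ r).le) hs
      simp only [ind_true hy, one_mul] at h2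
      exact h2
    have h2 := Real.log_le_log (Real.exp_pos _) ((le_wt g h t x ℓ s).trans h1)
    have h3 := Real.log_le_log h0 ((Kp_le_Z g h t x ℓ y).trans (Z_le g h t x ℓ))
    rw [Real.log_exp] at h2 h3
    exact abs_le.2 ⟨by linarith, h3⟩

lemma EMom_logKp (hμ : EM μ) (h : ℝ) (t : ℕ) (x : ℤ) (ℓ : ℕ) (y : ℤ) :
    EMom (law μ) (fun g : Env => Real.log (Kp g h t x ℓ y)) := by
  refine ((EMom_V hμ t x ℓ).add (EMom.const ((|h| + Real.log 2) * ℓ))).mono
    (by fun_prop) fun g => ?_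
  exact (abs_log_Kp_le g h t x ℓ y).trans (le_abs_self _)

/-- Stationarity. Proof. `Kp (shiftEnv t x g) h 0 0 ℓ y = Kp g h t x ℓ (y + x)` (`Kp_transl`) and
`integral_comp_shiftEnv`. -/
lemma integral_logKp (h : ℝ) (t : ℕ) (x : ℤ) (ℓ : ℕ) (y : ℤ) :
    ∫ g, Real.log (Kp g h t x ℓ (x + y)) ∂(law μ) = ∫ g, Real.log (Kp g h 0 0 ℓ y) ∂(law μ) := by
  rw [← integral_comp_shiftEnv t x (F := fun g => Real.log (Kp g h 0 0 ℓ y)) (by fun_prop)]
  congr 1
  funext g
  congr 1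
  rw [Kp_eq, Kp_eq]
  refine Finset.sum_congr rfl fun s _ => ?_
  rw [wt_shiftEnv, zero_add, zero_add, zero_add]
  congr 1
  exact ind_congr ⟨fun h => by linarith, fun h => by linarith⟩

end

end Pool.Agent.W_7d29a1_h47
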