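import Pool.Agent.W_7d29a1_h47.InsA
import Pool.Agent.W_7d29a1_h47.InsK

/-!
# Insertion of one row: the ratio of the partition functions
-/

namespace Pool.Agent.W_7d29a1_h47

open MeasureTheory ProbabilityTheory Finset

noncomputable section

variable {μ : Measure ℝ} [IsProbabilityMeasure μ]

/-- Log ratio of the partition functions after the insertion of the row `ξ` before row `k`, with
shift `±1`. -/
def lrho (h : ℝ) (n k : ℕ) (b : Bool) (g : Env) (ξ : ℤ → ℝ) : ℝ :=
  Real.log (Z (ins k (stp b) g ξ) h 0 0 (n + 1)) - Real.log (Z g h 0 0 n)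

/-- The nonnegative increment. -/
def Xf (h : ℝ) (n k : ℕ) (b : Bool) (g : Env) (ξ : ℤ → ℝ) : ℝ :=
  lrho h n k b g ξ + |h| + Av g h 0 0 n (fun s => |ξ (pos s k + stp b)|)

/-- Lower bound by the paths whose inserted step is `b`. Proof. `n = k + m`, `n + 1 = k + (1 + m)`.
By `Z_split` twice (or `Z_split` at `k`, then at `1`),
`Z (ins …) h 0 0 (k + (1 + m)) ≥ ∑_{s ∈ T k} wt s * e^{ξ (pos s k + stp b) + h stp b} *
Z (ins …) h (k+1) (pos s k + stp b) m`: the weight of the first `k` steps only sees the rows `< k`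
(unchanged, `dependsOn_wt`), row `k` is `ξ`, and `Z (ins …) h (k+1) (x + stp b) m = Z g h k x m`
(`Z_transl`). And `Z g h 0 0 (k + m) * Av g … F = ∑_{s ∈ T k} wt s * F * Z g h k (pos s k) m` for `F`
a function of `pos s k` (`Av_one` or `sum_split`). -/
lemma Z_ins_ge (g : Env) (ξ : ℤ → ℝ) (h : ℝ) {n k : ℕ} (hk : k ≤ n) (b : Bool) :
    Z g h 0 0 n * Av g h 0 0 n (fun s => Real.exp (ξ (pos s k + stp b) + h * stp b)) ≤
      Z (ins k (stp b) g ξ) h 0 0 (n + 1) := by
  obtain ⟨m, rfl⟩ := Nat.exists_eq_add_of_le hk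
  have hw : ∀ s : ℕ → Bool, wt (ins k (stp b) g ξ) h 0 0 k s = wt g h 0 0 k s := by
    intro s
    refine dependsOn_wt h 0 0 k s fun p hp => ?_
    have hp2 : p.1 < k := by simpa using hp.2
    simp [ins, hp2]
  have hZ : ∀ x : ℤ, Real.exp (ξ (x + stp b) + h * stp b) * Z g h k x m ≤
      Z (ins k (stp b) g ξ) h k x (1 + m) := by
    intro x
    have h1 : Kp (ins k (stp b) g ξ) h k x 1 (x + stp b) =
        Real.exp (ξ (x + stp b) + h * stp b) := by
      rw [Kp_one]
      simp [ins]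
    have h2 : Z (ins k (stp b) g ξ) h (k + 1) (x + stp b) m = Z g h k x m := by
      refine Z_transl (fun i _ y => ?_) h x
      have e1 : ¬ k + 1 + i < k := by omega
      have e2 : ¬ k + 1 + i = k := by omega
      simp only [ins, e1, e2, if_false]
      congr 2
      · omega
      · ring
    rw [Z_split_Kp, ← h1, ← h2]
    refine Finset.single_le_sum (f := fun z => Kp (ins k (stp b) g ξ) h k x 1 z *
      Z (ins k (stp b) g ξ) h (k + 1) z m) (fun z _ => ?_) ?_
    · exact mul_nonneg (Kp_nonneg _ _ _ _ _ _) (Z_pos _ _ _ _ _).le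
    · rw [Finset.mem_Icc]
      have := stp_le b
      have := le_stp b
      constructor <;> push_cast <;> linarith
  rw [Z_mul_Av, sum_split, add_assoc, add_comm m 1, Z_split]
  refine Finset.sum_le_sum fun s _ => ?_
  simp only [wt_glue, pos_glue_le le_rfl, zero_add]
  rw [hw s]
  have h3 : ∑ r ∈ T m, wt g h 0 0 k s * wt g h k (pos s k) m r *
      Real.exp (ξ (pos s k + stp b) + h * stp b) =
      wt g h 0 0 k s * (Real.exp (ξ (pos s k + stp b) + h * stp b) * Z g h k (pos s k) m) := by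
    unfold Z
    rw [Finset.mul_sum, Finset.mul_sum]
    exact Finset.sum_congr rfl fun r _ => by ring
  rw [h3]
  exact mul_le_mul_of_nonneg_left (hZ _) (wt_pos _ _ _ _ _ _).le

/-- Proof. `Z_ins_ge` and Jensen (`Av_le_log`). -/
lemma lrho_ge (g : Env) (ξ : ℤ → ℝ) (h : ℝ) {n k : ℕ} (hk : k ≤ n) (b : Bool) :
    h * stp b + Av g h 0 0 n (fun s => ξ (pos s k + stp b)) ≤ lrho h n k b g ξ := by
  have h1 := Z_ins_ge g ξ h hk b
  have h2 : 0 < Av g h 0 0 n (fun s => Real.exp (ξ (pos s k + stp b) + h * stp b)) :=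
    Av_pos fun _ _ => Real.exp_pos _
  have h3 := Real.log_le_log (mul_pos (Z_pos g h 0 0 n) h2) h1
  rw [Real.log_mul (Z_pos g h 0 0 n).ne' h2.ne'] at h3
  have h4 := Av_le_log (g := g) (h := h) (t := 0) (x := 0) (n := n)
    (fun s => ξ (pos s k + stp b) + h * stp b)
  rw [Av_add, Av_const] at h4
  unfold lrho
  linarith

/-- Proof. `lrho_ge`, `|h stp b| = |h|`, `-ξ ≤ |ξ|`. -/
lemma Xf_nonneg (g : Env) (ξ : ℤ → ℝ) (h : ℝ) {n k : ℕ} (hk : k ≤ n) (b : Bool) :
    0 ≤ Xf h n k b g ξ := by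
  have h1 := lrho_ge g ξ h hk b
  have h2 := abs_Av_le (g := g) (h := h) (t := 0) (x := 0) (n := n)
    (fun s => ξ (pos s k + stp b))
  have h3 : |h * (stp b : ℝ)| = |h| := by
    rw [abs_mul]
    have : |((stp b : ℤ) : ℝ)| = 1 := by exact_mod_cast stp_abs b
    rw [this, mul_one]
  have h4 := neg_abs_le (h * (stp b : ℝ))
  have h5 := neg_abs_le (Av g h 0 0 n (fun s => ξ (pos s k + stp b)))
  rw [h3] at h4
  unfold Xf
  linarith

lemma lrho_le_Xf (g : Env) (ξ : ℤ → ℝ) (h : ℝ) (n k : ℕ) (b : Bool) :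
    lrho h n k b g ξ ≤ Xf h n k b g ξ := by
  unfold Xf
  have : 0 ≤ Av g h 0 0 n (fun s => |ξ (pos s k + stp b)|) := Av_nonneg fun _ _ => abs_nonneg _
  linarith [abs_nonneg h]

/-! ### Gibbs averages with an environment depending on another variable -/

lemma measurable_Av_gen {Ω : Type*} [MeasurableSpace Ω] {h : ℝ} {t : ℕ} {x : ℤ} {n : ℕ}
    {G : Ω → Env} (hG : Measurable G) {F : Ω → (ℕ → Bool) → ℝ}
    (hF : ∀ s ∈ T n, Measurable fun w => F w s) :
    Measurable (fun w => Av (G w) h t x n (F w)) := by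
  unfold Av
  refine Measurable.div ?_ ((measurable_Z h t x n).comp hG)
  exact Finset.measurable_sum _ fun s hs => ((measurable_wt h t x n s).comp hG).mul (hF s hs)

lemma EMom_Av_gen {Ω : Type*} [MeasurableSpace Ω] {P : Measure Ω} [IsFiniteMeasure P] {h : ℝ}
    {t : ℕ} {x : ℤ} {n : ℕ} {G : Ω → Env} (hG : Measurable G) {F : Ω → (ℕ → Bool) → ℝ}
    (hF : ∀ s ∈ T n, EMom P fun w => F w s) : EMom P (fun w => Av (G w) h t x n (F w)) := by
  refine (EMom.sum (T n) fun s hs => (hF s hs).abs).mono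
    (measurable_Av_gen hG fun s hs => (hF s hs).1)
    fun w => (abs_Av_le_sum (F w)).trans (le_abs_self _)

lemma PMom_Av_gen {Ω : Type*} [MeasurableSpace Ω] {P : Measure Ω} [IsFiniteMeasure P] {h : ℝ}
    {t : ℕ} {x : ℤ} {n : ℕ} {G : Ω → Env} (hG : Measurable G) {F : Ω → (ℕ → Bool) → ℝ}
    (hF : ∀ s ∈ T n, PMom P fun w => F w s) : PMom P (fun w => Av (G w) h t x n (F w)) := by
  refine (PMom.sum (T n) fun s hs => (hF s hs).abs).mono
    (measurable_Av_gen hG fun s hs => (hF s hs).1)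
    fun w => (abs_Av_le_sum (F w)).trans (le_abs_self _)

/-- Both coordinates. -/
lemma EMom_fst {F : Env → ℝ} (hF : EMom (law μ) F) : EMom (law2 μ) (fun w => F w.1) :=
  hF.comp measurePreserving_fst

lemma EMom_snd {F : Env → ℝ} (hF : EMom (law μ) F) : EMom (law2 μ) (fun w => F w.2) :=
  hF.comp measurePreserving_snd

lemma PMom_snd {F : Env → ℝ} (hF : PMom (law μ) F) : PMom (law2 μ) (fun w => F w.2) :=
  hF.comp measurePreserving_snd

/-! ### Measurability and moments of `lrho`, `Xf` -/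

lemma measurable_lrho (h : ℝ) (n k : ℕ) (b : Bool) :
    Measurable (fun w : Env × (ℤ → ℝ) => lrho h n k b w.1 w.2) := by
  unfold lrho
  exact (((measurable_Z h 0 0 (n + 1)).comp (measurable_ins k (stp b))).log).sub
    (((measurable_Z h 0 0 n).comp measurable_fst).log)

lemma measurable_Xf (h : ℝ) (n k : ℕ) (b : Bool) :
    Measurable (fun w : Env × (ℤ → ℝ) => Xf h n k b w.1 w.2) := by
  unfold Xf
  refine ((measurable_lrho h n k b).add measurable_const).add ?_
  refine measurable_Av_gen (G := fun w : Env × (ℤ → ℝ) => w.1) measurable_fst fun s _ => ?_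
  fun_prop

/-- Proof. `EMom_logZ` composed with `mp_ins` and with the first projection. -/
lemma EMom_lrho (hμ : EM μ) (h : ℝ) (n k : ℕ) (b : Bool) (j : ℕ) :
    EMom (law2 μ) (fun w => lrho h n k b w.1 (row j w.2)) := by
  unfold lrho
  exact ((EMom_logZ hμ h 0 0 (n + 1)).comp (mp_ins k (stp b) j)).sub
    (EMom_fst (EMom_logZ hμ h 0 0 n))

lemma EMom_Xf (hμ : EM μ) (h : ℝ) (n k : ℕ) (b : Bool) (j : ℕ) :
    EMom (law2 μ) (fun w => Xf h n k b w.1 (row j w.2)) := by
  unfold Xf
  refine ((EMom_lrho hμ h n k b j).add (EMom.const |h|)).add ?_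
  refine EMom_Av_gen (G := fun w : Env × Env => w.1) measurable_fst fun s _ => ?_
  exact EMom_snd (EMom_coord hμ (j, pos s k + stp b)).abs

/-- Proof. `mp_ins`, `mp_integral`, `integral_logZ`. -/
lemma integral_lrho (hμ : EM μ) (h : ℝ) (n k : ℕ) (b : Bool) (j : ℕ) :
    ∫ w, lrho h n k b w.1 (row j w.2) ∂(law2 μ) = a μ h (n + 1) - a μ h n := by
  unfold lrho
  have h1 := ((EMom_logZ hμ h 0 0 (n + 1)).comp (mp_ins k (stp b) j)).integrable
  have h2 := (EMom_fst (EMom_logZ hμ h 0 0 n)).integrable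
  rw [integral_sub h1 h2]
  have h3 := mp_integral (mp_ins (μ := μ) k (stp b) j)
    (F := fun g => Real.log (Z g h 0 0 (n + 1)))
    (EMom_logZ hμ h 0 0 (n + 1)).1.aestronglyMeasurable
  have h4 := mp_integral (measurePreserving_fst (μ := law μ) (ν := law μ))
    (F := fun g => Real.log (Z g h 0 0 n)) (EMom_logZ hμ h 0 0 n).1.aestronglyMeasurable
  rw [h3, h4, integral_logZ, integral_logZ]

/-- A fresh environment seen at the (independent) position of the walk. Proof. Fubini
(`integral_prod`, `PMom_Av_gen` for integrability): for fixed `g` the inner integral over `g'` is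
`Av g h 0 0 n (fun s => ∫ Φ (pos s t) dlaw) = Av (const c) = c` (finite sum, `Av_const`). -/
lemma integral_Av_fresh {Φ : ℤ → Env → ℝ} (hΦ : ∀ x, PMom (law μ) (Φ x)) {c : ℝ}
    (hc : ∀ x, ∫ g, Φ x g ∂(law μ) = c) (h : ℝ) (n t : ℕ) :
    ∫ w, Av w.1 h 0 0 n (fun s => Φ (pos s t) w.2) ∂(law2 μ) = c := by
  have h1 : Integrable (fun w : Env × Env => Av w.1 h 0 0 n (fun s => Φ (pos s t) w.2))
      (law2 μ) :=
    (PMom_Av_gen (G := fun w : Env × Env => w.1) measurable_fst
      fun s _ => PMom_snd (hΦ (pos s t))).integrable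
  rw [integral_prod _ h1]
  have h2 : ∀ g : Env, ∫ g', Av g h 0 0 n (fun s => Φ (pos s t) g') ∂(law μ) = c := by
    intro g
    unfold Av
    rw [integral_div, integral_finsetSum _ fun s _ => ((hΦ (pos s t)).integrable).const_mul _]
    have h3 : ∀ s ∈ T n, ∫ g', wt g h 0 0 n s * Φ (pos s t) g' ∂(law μ) =
        wt g h 0 0 n s * c := by
      intro s _
      rw [integral_const_mul, hc]
    rw [Finset.sum_congr rfl h3]
    exact Av_const (g := g) (h := h) (t := 0) (x := 0) (n := n) c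
  simp only [h2]
  simp

/-- Proof. `integral_lrho` and `integral_Av_fresh` with `Φ x g' = |g' (j, x + stp b)|`
(`integral_coord`). -/
lemma integral_Xf (hμ : EM μ) (h : ℝ) (n k : ℕ) (b : Bool) (j : ℕ) :
    ∫ w, Xf h n k b w.1 (row j w.2) ∂(law2 μ) =
      a μ h (n + 1) - a μ h n + |h| + ∫ u, |u| ∂μ := by
  unfold Xf
  have h1 := (EMom_lrho hμ h n k b j).integrable
  have h2 : Integrable (fun _ : Env × Env => |h|) (law2 μ) := integrable_const _
  have h3 : Integrable (fun w : Env × Env =>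
      Av w.1 h 0 0 n (fun s => |row j w.2 (pos s k + stp b)|)) (law2 μ) :=
    (EMom_Av_gen (G := fun w : Env × Env => w.1) measurable_fst
      fun s _ => EMom_snd (EMom_coord hμ (j, pos s k + stp b)).abs).integrable
  have h4 : ∫ w : Env × Env, Av w.1 h 0 0 n (fun s => |row j w.2 (pos s k + stp b)|) ∂(law2 μ) =
      ∫ u, |u| ∂μ :=
    integral_Av_fresh (Φ := fun x g' => |g' (j, x + stp b)|)
      (fun x => (EMom_coord hμ (j, x + stp b)).abs.pmom)
      (fun x => integral_coord (j, x + stp b) continuous_abs.measurable) h n k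
  have h12 : Integrable (fun w : Env × Env => lrho h n k b w.1 (row j w.2) + |h|) (law2 μ) :=
    h1.add h2
  rw [integral_add h12 h3, integral_add h1 h2, integral_lrho hμ, h4]
  simp

/-- The tail expectation of the increment. -/
def tail (μ : Measure ℝ) (h : ℝ) (n k : ℕ) (Y : ℝ) : ℝ :=
  ∫ w, (if Y ≤ Xf h n k true w.1 (row 0 w.2) then Xf h n k true w.1 (row 0 w.2) else 0) ∂(law2 μ)

/-- The integrand is measurable and dominated by `|Xf|`. -/
lemma integrable_tail (hμ : EM μ) (h : ℝ) (n k : ℕ) (Y : ℝ) :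
    Integrable (fun w : Env × Env => if Y ≤ Xf h n k true w.1 (row 0 w.2) then
      Xf h n k true w.1 (row 0 w.2) else 0) (law2 μ) := by
  have h1 := EMom_Xf hμ h n k true 0
  refine (h1.integrable).abs.mono' ?_ (Filter.Eventually.of_forall fun w => ?_)
  · exact (Measurable.ite (measurableSet_le measurable_const h1.1) h1.1
      measurable_const).aestronglyMeasurable
  · rw [Real.norm_eq_abs]
    split_ifs
    · exact le_rfl
    · rw [abs_zero]
      exact abs_nonneg _

lemma tail_nonneg (h : ℝ) {n k : ℕ} (hk : k ≤ n) (Y : ℝ) : 0 ≤ tail μ h n k Y := by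
  have _hμ : IsProbabilityMeasure μ := inferInstance
  unfold tail
  refine integral_nonneg fun w => ?_
  simp only [Pi.zero_apply]
  split_ifs
  · exact Xf_nonneg _ _ _ hk _
  · exact le_rfl

/-- Proof. `tail ≤ ∫ Xf` (`Xf_nonneg`), `integral_Xf`, `a_succ_le`. -/
lemma tail_le (hμ : EM μ) (h : ℝ) {n k : ℕ} (hk : k ≤ n) (Y : ℝ) :
    tail μ h n k Y ≤ c1 μ h + |h| + ∫ u, |u| ∂μ := by
  have h1 : tail μ h n k Y ≤ ∫ w, Xf h n k true w.1 (row 0 w.2) ∂(law2 μ) := by
    unfold tail
    refine integral_mono (integrable_tail hμ h n k Y) (EMom_Xf hμ h n k true 0).integrable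
      fun w => ?_
    simp only
    split_ifs
    · exact le_rfl
    · exact Xf_nonneg _ _ _ hk _
  rw [integral_Xf hμ] at h1
  have h2 := a_succ_le hμ h n
  linarith

end

end Pool.Agent.W_7d29a1_h47
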