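import Pool.Agent.W_7d29a1_h47.InsN
import Pool.Agent.W_7d29a1_h47.InsS
import Pool.Agent.W_7d29a1_h47.InsZ

/-!
# Insertion of one row in the middle of a window: the kernels of the abstract lemmas

Throughout `R ≤ k`, `k + R ≤ n`, `I = box (n + 2)`, `g⁺ = ins k 1 g ξ`. The kernels are
`al a x = (weight 0 → (k-R, a) → (k, x))`, `ga x b = (weight (k, x) → (k+R, b) → end)`,
`Mk x y = (weight of the inserted step from x to y + 1)`.
-/

namespace Pool.Agent.W_7d29a1_h47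

open MeasureTheory ProbabilityTheory Finset

noncomputable section

def al (g : Env) (h : ℝ) (k R : ℕ) (a x : ℤ) : ℝ := Kp g h 0 0 (k - R) a * Kp g h (k - R) a R x

def ga (g : Env) (h : ℝ) (n k R : ℕ) (x b : ℤ) : ℝ := Kp g h k x R b * Z g h (k + R) b (n - k - R)

def Mk (g : Env) (ξ : ℤ → ℝ) (h : ℝ) (k : ℕ) (x y : ℤ) : ℝ := Kp (ins k 1 g ξ) h k x 1 (y + 1)

/-- The window ratio. -/
def Wr (h : ℝ) (k R : ℕ) (g : Env) (ξ : ℤ → ℝ) (x y : ℤ) : ℝ :=
  Kp (ins k 1 g ξ) h (k - R) x (2 * R + 1) (y + 1) / Kp g h (k - R) x (2 * R) y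

variable {g : Env} {ξ : ℤ → ℝ} {h : ℝ} {n k R : ℕ}

lemma al_nonneg (a x : ℤ) : 0 ≤ al g h k R a x := mul_nonneg (Kp_nonneg _ _ _ _ _ _) (Kp_nonneg _ _ _ _ _ _)

lemma ga_nonneg (x b : ℤ) : 0 ≤ ga g h n k R x b := mul_nonneg (Kp_nonneg _ _ _ _ _ _) (Z_pos _ _ _ _ _).le

lemma Mk_nonneg (x y : ℤ) : 0 ≤ Mk g ξ h k x y := Kp_nonneg _ _ _ _ _ _

/-- Proof. `Kp_one` with the step `true`; row `k` of `ins k 1 g ξ` is `ξ`. -/
lemma Mk_diag (x : ℤ) : Mk g ξ h k x x = Real.exp (ξ (x + 1) + h) := by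
  have h1 := Kp_one (ins k 1 g ξ) h k x true
  rw [stp_true] at h1
  have h2 : ins k 1 g ξ (k, x + 1) = ξ (x + 1) := by simp [ins]
  rw [Mk, h1, h2]
  simp

lemma InsC_shift {N : ℕ} {S : Finset ℤ} {F : ℤ → ℝ} (hS : ∀ z, z ∉ S → F z = 0)
    (hN : ∀ z ∈ S, z - 1 ∈ box N) : ∑ y ∈ box N, F (y + 1) = ∑ z ∈ S, F z := by
  have h1 : ∑ y ∈ box N, F (y + 1) = ∑ z ∈ (box N).map (addRightEmbedding 1), F z := by
    rw [Finset.sum_map]
    rfl
  rw [h1]
  symm
  refine Finset.sum_subset (fun z hz => ?_) (fun z _ hz => hS z hz)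
  exact Finset.mem_map.2 ⟨z - 1, hN z hz, by simp⟩

/-- Rows `< k` of `ins k σ g ξ` are those of `g`. -/
lemma Kp_ins_before (σ : ℤ) {t ℓ : ℕ} (ht : t + ℓ ≤ k) (x y : ℤ) :
    Kp (ins k σ g ξ) h t x ℓ y = Kp g h t x ℓ y := by
  refine dependsOn_Kp h t x ℓ y (fun p hp => ?_)
  have h1 : p.1 < k := lt_of_lt_of_le hp.2 ht
  simp [ins, h1]

lemma InsC_row (σ : ℤ) {t : ℕ} (ht : k ≤ t) (i : ℕ) (y : ℤ) :
    ins k σ g ξ (t + 1 + i, y + σ) = g (t + i, y) := by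
  have h1 : ¬ (t + 1 + i < k) := by omega
  have h2 : ¬ (t + 1 + i = k) := by omega
  have h3 : t + 1 + i - 1 = t + i := by omega
  simp only [ins, h1, h2, h3, if_false, add_sub_cancel_right]

/-- Rows `> k` of `ins k σ g ξ` are translates of the rows `≥ k` of `g` (`Kp_transl`). -/
lemma Kp_ins_after (σ : ℤ) {t : ℕ} (ht : k ≤ t) (ℓ : ℕ) (x y : ℤ) :
    Kp (ins k σ g ξ) h (t + 1) (x + σ) ℓ (y + σ) = Kp g h t x ℓ y :=
  Kp_transl (fun i _ y => InsC_row σ ht i y) h x y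

lemma Z_ins_after (σ : ℤ) {t : ℕ} (ht : k ≤ t) (ℓ : ℕ) (x : ℤ) :
    Z (ins k σ g ξ) h (t + 1) (x + σ) ℓ = Z g h t x ℓ :=
  Z_transl (fun i _ y => InsC_row σ ht i y) h x

/-- `∑_{a ∈ I} al a x = Kp g h 0 0 k x`. Proof. `Kp_split_box` with `k = (k - R) + R`. -/
lemma ah_al (hR : R ≤ k) (hk : k + R ≤ n) (x : ℤ) :
    KA.ah (box (n + 2)) (al g h k R) x = Kp g h 0 0 k x := by
  have h1 := Kp_split_box g h 0 0 (k - R) R x (N := n + 2) (by
    push_cast [Nat.cast_sub hR]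
    simp only [abs_zero, zero_add]
    omega)
  rw [Nat.sub_add_cancel hR, zero_add] at h1
  exact h1.symm

/-- `∑_{b ∈ I} ga x b = Z g h k x (n - k)` if `|x| + R ≤ n + 2`. Proof. `Z_split_box`. -/
lemma gh_ga (hk : k + R ≤ n) {x : ℤ} (hx : |x| + R ≤ n + 2) :
    KA.gh (box (n + 2)) (ga g h n k R) x = Z g h k x (n - k) := by
  have h1 := Z_split_box g h k x R (n - k - R) (N := n + 2) (by
    push_cast
    exact hx)
  have h2 : R + (n - k - R) = n - k := by omega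
  rw [h2] at h1
  exact h1.symm

lemma InsC_mid (hR : R ≤ k) (hk : k + R ≤ n) (x : ℤ) :
    KA.ah (box (n + 2)) (al g h k R) x * KA.gh (box (n + 2)) (ga g h n k R) x =
      Kp g h 0 0 k x * Z g h k x (n - k) := by
  rw [ah_al hR hk]
  refine InsK_range fun hx => gh_ga hk ?_
  rw [abs_zero, zero_add] at hx
  omega

/-- Proof. `ah_al`, `gh_ga` (for `|x| ≤ k`; otherwise `Kp g h 0 0 k x = 0`), `Z_split_box`. -/
lemma Zg_eq (hR : R ≤ k) (hk : k + R ≤ n) :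
    KA.Zg (box (n + 2)) (al g h k R) (ga g h n k R) = Z g h 0 0 n := by
  have h1 := Z_split_box g h 0 0 k (n - k) (N := n + 2) (by
    push_cast
    simp only [abs_zero, zero_add]
    omega)
  have h2 : k + (n - k) = n := by omega
  rw [h2, zero_add] at h1
  rw [h1]
  exact Finset.sum_congr rfl fun x _ => InsC_mid hR hk x

/-- One inserted step and the rest: for `|x| ≤ k`,
`∑_{y ∈ I} Mk x y gh y = Z g⁺ h k x (n - k + 1)`. Proof. `Mk x y ≠ 0` only for `y ∈ {x, x - 2}`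
(`Kp_eq_zero` and parity, or `Kp_eq_zero` for `|y + 1 - x| > 1`; `|y| ≤ k + 2`), `gh_ga`,
`Z_split_Kp` for `1 + (n - k)` and `Z_ins_after`; reindex `z = y + 1`. -/
lemma sum_Mk_gh (hR : R ≤ k) (hk : k + R ≤ n) {x : ℤ} (hx : |x| ≤ k) :
    ∑ y ∈ box (n + 2), Mk g ξ h k x y * KA.gh (box (n + 2)) (ga g h n k R) y =
      Z (ins k 1 g ξ) h k x (n - k + 1) := by
  have h1 := Z_split_Kp (ins k 1 g ξ) h k x 1 (n - k)
  rw [add_comm 1 (n - k)] at h1
  rw [h1]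
  have h2 := InsC_shift (N := n + 2) (S := Icc (x - ((1 : ℕ) : ℤ)) (x + ((1 : ℕ) : ℤ)))
    (F := fun z => Kp (ins k 1 g ξ) h k x 1 z * Z (ins k 1 g ξ) h (k + 1) z (n - k))
    (fun z hz => by
      show Kp (ins k 1 g ξ) h k x 1 z * Z (ins k 1 g ξ) h (k + 1) z (n - k) = 0
      rw [Kp_eq_zero hz, zero_mul])
    (fun z hz => by
      rw [mem_Icc] at hz
      rw [mem_box, abs_le]
      have h3 := abs_le.1 hx
      push_cast at hz ⊢
      constructor <;> omega)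
  rw [← h2]
  refine Finset.sum_congr rfl fun y _ => ?_
  rw [Z_ins_after 1 le_rfl]
  show Kp (ins k 1 g ξ) h k x 1 (y + 1) * _ = _
  refine InsK_range fun hy => gh_ga hk ?_
  have h3 := abs_le.1 hy
  have h4 : |y| ≤ k + 2 := by
    rw [abs_le]
    push_cast at h3
    constructor <;> omega
  omega

lemma InsC_midM (hR : R ≤ k) (hk : k + R ≤ n) (x : ℤ) :
    KA.ah (box (n + 2)) (al g h k R) x *
        (∑ y ∈ box (n + 2), Mk g ξ h k x y * KA.gh (box (n + 2)) (ga g h n k R) y) =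
      Kp (ins k 1 g ξ) h 0 0 k x * Z (ins k 1 g ξ) h k x (n - k + 1) := by
  rw [ah_al hR hk, Kp_ins_before 1 (by omega) 0 x]
  refine InsK_range fun hx => sum_Mk_gh hR hk ?_
  rw [abs_zero, zero_add] at hx
  exact hx

/-- Proof. `ah_al`, `sum_Mk_gh`, `Kp_ins_before`, `Z_split_box` for `n + 1 = k + (n - k + 1)`. -/
lemma Zm_eq (hR : R ≤ k) (hk : k + R ≤ n) :
    KA.Zm (box (n + 2)) (al g h k R) (ga g h n k R) (Mk g ξ h k) =
      Z (ins k 1 g ξ) h 0 0 (n + 1) := by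
  have h1 := Z_split_box (ins k 1 g ξ) h 0 0 k (n - k + 1) (N := n + 2) (by
    push_cast
    simp only [abs_zero, zero_add]
    omega)
  have h2 : k + (n - k + 1) = n + 1 := by omega
  rw [h2, zero_add] at h1
  rw [h1]
  refine Finset.sum_congr rfl fun x _ => ?_
  rw [← InsC_midM hR hk x, Finset.mul_sum]
  exact Finset.sum_congr rfl fun y _ => by ring

/-- Proof. `∑_{x ∈ I} Kp g h (k-R) a R x * Kp g h k x R b = Kp g h (k-R) a (2R) b` for `|a| ≤ k - R`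
(`Kp_split_box`); for `|a| > k - R` both sides vanish. -/
lemma sum_al_ga (hR : R ≤ k) (hk : k + R ≤ n) (a b : ℤ) :
    ∑ x ∈ box (n + 2), al g h k R a x * ga g h n k R x b =
      Kp g h 0 0 (k - R) a * Kp g h (k - R) a (2 * R) b * Z g h (k + R) b (n - k - R) := by
  have h1 : ∑ x ∈ box (n + 2), al g h k R a x * ga g h n k R x b =
      Kp g h 0 0 (k - R) a * ((∑ x ∈ box (n + 2), Kp g h (k - R) a R x * Kp g h k x R b) *
        Z g h (k + R) b (n - k - R)) := by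
    rw [Finset.sum_mul, Finset.mul_sum]
    refine Finset.sum_congr rfl fun x _ => ?_
    rw [al, ga]
    ring
  rw [h1, mul_assoc]
  refine InsK_range fun ha => ?_
  rw [abs_zero, zero_add] at ha
  have h2 := Kp_split_box g h (k - R) a R R b (N := n + 2) (by
    have h3 : ((k - R : ℕ) : ℤ) = k - R := by omega
    rw [h3] at ha
    push_cast
    omega)
  rw [Nat.sub_add_cancel hR, ← two_mul] at h2
  rw [h2]

lemma InsC_inner (hk : k + R ≤ n) {x : ℤ} (hx : |x| ≤ k) (b : ℤ) :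
    ∑ y ∈ box (n + 2), Mk g ξ h k x y * Kp g h k y R b =
      Kp (ins k 1 g ξ) h k x (1 + R) (b + 1) := by
  rw [Kp_split (ins k 1 g ξ) h k x 1 R (b + 1)]
  have h2 := InsC_shift (N := n + 2) (S := Icc (x - ((1 : ℕ) : ℤ)) (x + ((1 : ℕ) : ℤ)))
    (F := fun z => Kp (ins k 1 g ξ) h k x 1 z * Kp (ins k 1 g ξ) h (k + 1) z R (b + 1))
    (fun z hz => by
      show Kp (ins k 1 g ξ) h k x 1 z * Kp (ins k 1 g ξ) h (k + 1) z R (b + 1) = 0
      rw [Kp_eq_zero hz, zero_mul])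
    (fun z hz => by
      rw [mem_Icc] at hz
      rw [mem_box, abs_le]
      have h3 := abs_le.1 hx
      push_cast at hz ⊢
      constructor <;> omega)
  rw [← h2]
  refine Finset.sum_congr rfl fun y _ => ?_
  rw [Kp_ins_after 1 le_rfl]
  rfl

/-- Proof. As `sum_al_ga`: `∑_{x,y} Kp(a → x) Mk x y Kp(y → b) = Kp g⁺ h (k-R) a (2R+1) (b+1)` by
`Kp_split` (`2R+1 = R + (1 + R)`), `Kp_ins_before`, `Kp_ins_after`. -/
lemma sum_al_Mk_ga (hR : R ≤ k) (hk : k + R ≤ n) (a b : ℤ) :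
    ∑ x ∈ box (n + 2), ∑ y ∈ box (n + 2), al g h k R a x * Mk g ξ h k x y * ga g h n k R y b =
      Kp g h 0 0 (k - R) a * Kp (ins k 1 g ξ) h (k - R) a (2 * R + 1) (b + 1) *
        Z g h (k + R) b (n - k - R) := by
  have h1 : ∑ x ∈ box (n + 2), ∑ y ∈ box (n + 2),
        al g h k R a x * Mk g ξ h k x y * ga g h n k R y b =
      Kp g h 0 0 (k - R) a * ((∑ x ∈ box (n + 2), Kp g h (k - R) a R x *
        ∑ y ∈ box (n + 2), Mk g ξ h k x y * Kp g h k y R b) *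
        Z g h (k + R) b (n - k - R)) := by
    rw [Finset.sum_mul, Finset.mul_sum]
    refine Finset.sum_congr rfl fun x _ => ?_
    rw [Finset.mul_sum, Finset.sum_mul, Finset.mul_sum]
    refine Finset.sum_congr rfl fun y _ => ?_
    rw [al, ga]
    ring
  rw [h1, mul_assoc]
  refine InsK_range fun ha => ?_
  rw [abs_zero, zero_add] at ha
  have h3 : ((k - R : ℕ) : ℤ) = k - R := by omega
  rw [h3] at ha
  have h2 := Kp_split_box (ins k 1 g ξ) h (k - R) a R (1 + R) (b + 1) (N := n + 2) (by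
    push_cast
    omega)
  have h4 : R + (1 + R) = 2 * R + 1 := by ring
  rw [Nat.sub_add_cancel hR, h4] at h2
  rw [h2]
  congr 1
  refine Finset.sum_congr rfl fun x _ => ?_
  rw [Kp_ins_before 1 (by omega) a x]
  refine InsK_range fun hx => InsC_inner hk ?_ b
  omega

/-- Proof. `mu a b = Kp Kp Z / Z` (`sum_al_ga`, `Zg_eq`), `wq a b = Wr a b` if
`Kp g h 0 0 (k-R) a ≠ 0` (`sum_al_ga`, `sum_al_Mk_ga`), and `Av_two`. -/
lemma sum_mu_wq (hR : R ≤ k) (hk : k + R ≤ n) :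
    ∑ a ∈ box (n + 2), ∑ b ∈ box (n + 2), KA.mu (box (n + 2)) (al g h k R) (ga g h n k R) a b *
        Real.log (KA.wq (box (n + 2)) (al g h k R) (ga g h n k R) (Mk g ξ h k) a b) =
      Av g h 0 0 n (fun s => Real.log (Wr h k R g ξ (pos s (k - R)) (pos s (k + R)))) := by
  have hZ := Z_pos g h 0 0 n
  refine mul_left_cancel₀ hZ.ne' ?_
  have h1 := Av_two g h (n := n) (t := k - R) (ℓ := 2 * R) (N := n + 2) (by omega) (by omega)
    (fun x y => Real.log (Wr h k R g ξ x y))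
  have h2 : k - R + 2 * R = k + R := by omega
  have h3 : n - (k - R) - 2 * R = n - k - R := by omega
  rw [h2, h3] at h1
  rw [h1, Finset.mul_sum]
  refine Finset.sum_congr rfl fun a _ => ?_
  rw [Finset.mul_sum]
  refine Finset.sum_congr rfl fun b _ => ?_
  have h4 : Z g h 0 0 n * KA.mu (box (n + 2)) (al g h k R) (ga g h n k R) a b =
      Kp g h 0 0 (k - R) a * Kp g h (k - R) a (2 * R) b * Z g h (k + R) b (n - k - R) := by
    rw [KA.mu, Zg_eq hR hk, sum_al_ga hR hk, mul_div_cancel₀ _ hZ.ne']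
  rw [← mul_assoc, h4]
  rcases eq_or_ne (Kp g h 0 0 (k - R) a) 0 with h0 | h0
  · rw [h0]
    simp
  · have hZ' := Z_pos g h (k + R) b (n - k - R)
    have h5 : KA.wq (box (n + 2)) (al g h k R) (ga g h n k R) (Mk g ξ h k) a b =
        Wr h k R g ξ a b := by
      rw [KA.wq, sum_al_ga hR hk, sum_al_Mk_ga hR hk, Wr, mul_div_mul_right _ _ hZ'.ne',
        mul_div_mul_left _ _ h0]
    rw [h5]

/-- Proof. `ah_al`, `gh_ga`, `Av_one`. -/
lemma sum_mm (hR : R ≤ k) (hk : k + R ≤ n) (f : ℤ → ℝ) :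
    ∑ x ∈ box (n + 2), KA.mm (box (n + 2)) (al g h k R) (ga g h n k R) x * f x =
      Av g h 0 0 n (fun s => f (pos s k)) := by
  have hZ := Z_pos g h 0 0 n
  refine mul_left_cancel₀ hZ.ne' ?_
  rw [Av_one g h (n := n) (t := k) (N := n + 2) (by omega) (by omega) f, Finset.mul_sum]
  refine Finset.sum_congr rfl fun x _ => ?_
  rw [KA.mm, Zg_eq hR hk, InsC_mid hR hk, ← mul_assoc, mul_div_cancel₀ _ hZ.ne']

end

end Pool.Agent.W_7d29a1_h47
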