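import Pool.Agent.W_7d29a1_h47.InsC

/-!
# Insertion of one row: the no-meeting terms
-/

namespace Pool.Agent.W_7d29a1_h47

open MeasureTheory ProbabilityTheory Finset

noncomputable section

variable {g : Env} {ξ : ℤ → ℝ} {h : ℝ} {n k R : ℕ}

lemma InsCB_pab (g : Env) (h : ℝ) {n t ℓ N : ℕ} (ht : t + ℓ ≤ n) (hN : n ≤ N) {y x : ℤ}
    (hy : y ∈ box N) (hx : x ∈ box N) :
    Z g h 0 0 n * pab g h n t (t + ℓ) y x =
      Kp g h 0 0 t y * Kp g h t y ℓ x * Z g h (t + ℓ) x (n - t - ℓ) := by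
  have h1 := Av_two g h ht hN (fun y' x' => ind (y' = y) * ind (x' = x))
  rw [pab, h1, Finset.sum_eq_single y, Finset.sum_eq_single x]
  · rw [ind_true rfl, ind_true rfl, mul_one, mul_one]
  · intro x' _ hx'
    rw [ind_false hx', mul_zero, mul_zero]
  · intro h2
    exact absurd hx h2
  · intro y' _ hy'
    refine Finset.sum_eq_zero fun x' _ => ?_
    rw [ind_false hy', zero_mul, mul_zero]
  · intro h2
    exact absurd hy h2

lemma InsCB_zl (g : Env) (h : ℝ) {n a b N : ℕ} (ha : a ≤ N) {y : ℤ} (x : ℤ) (hy : y ∉ box N) :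
    pab g h n a b y x = 0 := by
  rw [pab]
  have h1 : ∀ s ∈ T n, ind (pos s a = y) * ind (pos s b = x) = (0 : ℝ) := fun s _ => by
    rw [ind_false, zero_mul]
    rintro rfl
    exact hy (mem_box.2 ((pos_abs_le s a).trans (by exact_mod_cast ha)))
  rw [Av_congr h1, Av_const]

lemma InsCB_zr (g : Env) (h : ℝ) {n a b N : ℕ} (hb : b ≤ N) (y : ℤ) {x : ℤ} (hx : x ∉ box N) :
    pab g h n a b y x = 0 := by
  rw [pab]
  have h1 : ∀ s ∈ T n, ind (pos s a = y) * ind (pos s b = x) = (0 : ℝ) := fun s _ => by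
    rw [ind_false (p := pos s b = x), mul_zero]
    rintro rfl
    exact hx (mem_box.2 ((pos_abs_le s b).trans (by exact_mod_cast hb)))
  rw [Av_congr h1, Av_const]

lemma InsCB_shift {F : ℤ → ℝ} (hF : ∀ z, z ∉ box (n + 1) → F z = 0) :
    ∑ y ∈ box (n + 2), F (y + 1) = ∑ z ∈ box (n + 1), F z := by
  refine InsC_shift hF fun z hz => ?_
  rw [mem_box, abs_le] at hz ⊢
  push_cast at hz ⊢
  constructor <;> omega

lemma InsCB_p1 (hR : R ≤ k) (hk : k + R ≤ n) {y x : ℤ} (hy : y ∈ box (n + 2))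
    (hx : x ∈ box (n + 2)) :
    KA.p1 (box (n + 2)) (al g h k R) (ga g h n k R) (Mk g ξ h k) y x =
      pab (ins k 1 g ξ) h (n + 1) (k - R) k y x := by
  have hZ := Z_pos (ins k 1 g ξ) h 0 0 (n + 1)
  refine mul_left_cancel₀ hZ.ne' ?_
  have h1 := InsCB_pab (ins k 1 g ξ) h (n := n + 1) (t := k - R) (ℓ := R) (N := n + 2) (by omega)
    (by omega) hy hx
  have h2 : n + 1 - (k - R) - R = n - k + 1 := by omega
  rw [h2, Nat.sub_add_cancel hR] at h1
  rw [h1, KA.p1, Zm_eq hR hk, mul_div_cancel₀ _ hZ.ne', al, Kp_ins_before 1 (by omega),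
    Kp_ins_before 1 (by omega), mul_assoc, mul_assoc]
  refine InsK_range fun hy' => InsK_range fun hx' => sum_Mk_gh hR hk ?_
  rw [abs_zero, zero_add] at hy'
  omega

/-- Proof. `p1 a x = al a x * Z g⁺ h k x (n - k + 1) / Z g⁺ = pab g⁺ h (n+1) (k-R) k a x` by `Av_two` for
`g⁺` (with `f a' x' = ind (a' = a) ind (x' = x)`), `sum_Mk_gh`, `Kp_ins_before`. Then
`sum_swap_init`. -/
lemma N1_le (hR : R ≤ k) (hk : k + R ≤ n) :
    KA.N1 (box (n + 2)) (al g h k R) (ga g h n k R) (Mk g ξ h k) ≤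
      2 * Av2 (ins k 1 g ξ) h (n + 1) (nm (k - R) k) := by
  refine le_trans (le_of_eq ?_) (sum_swap_init (ins k 1 g ξ) h (n := n + 1) (a := k - R) (b := k)
    (N := n + 2) (by omega) (by omega) (by omega))
  rw [KA.N1]
  refine Finset.sum_congr rfl fun y hy => Finset.sum_congr rfl fun x hx =>
    Finset.sum_congr rfl fun x' hx' => ?_
  have h1 : ∀ z ∈ box (n + 2),
      ∑ a' ∈ box (n + 2), KA.p1 (box (n + 2)) (al g h k R) (ga g h n k R) (Mk g ξ h k) a' z =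
        ∑ y' ∈ box (n + 2), pab (ins k 1 g ξ) h (n + 1) (k - R) k y' z := fun z hz =>
    Finset.sum_congr rfl fun a' ha' => InsCB_p1 hR hk ha' hz
  rw [h1 x hx, h1 x' hx', InsCB_p1 hR hk hy hx, InsCB_p1 hR hk hy hx']

lemma InsCB_left (hR : R ≤ k) (hk : k + R ≤ n) (y : ℤ) :
    ∑ x ∈ box (n + 2), KA.ah (box (n + 2)) (al g h k R) x * Mk g ξ h k x y =
      Kp (ins k 1 g ξ) h 0 0 (k + 1) (y + 1) := by
  have h1 := Kp_split_box (ins k 1 g ξ) h 0 0 k 1 (y + 1) (N := n + 2) (by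
    push_cast
    simp only [abs_zero, zero_add]
    omega)
  rw [zero_add] at h1
  rw [h1]
  refine Finset.sum_congr rfl fun x _ => ?_
  rw [ah_al hR hk, Kp_ins_before 1 (by omega) 0 x]
  rfl

lemma InsCB_p2 (hR : R ≤ k) (hk : k + R ≤ n) {y b : ℤ} (hy : y ∈ box (n + 2))
    (hb : b ∈ box (n + 2)) :
    KA.p2 (box (n + 2)) (al g h k R) (ga g h n k R) (Mk g ξ h k) y b =
      pab (ins k 1 g ξ) h (n + 1) (k + 1) (k + 1 + R) (y + 1) (b + 1) := by
  have hZ := Z_pos (ins k 1 g ξ) h 0 0 (n + 1)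
  refine mul_left_cancel₀ hZ.ne' ?_
  have hb3 : ∀ z ∈ box (n + 2), z + 1 ∈ box (n + 3) := fun z hz => by
    rw [mem_box, abs_le] at hz ⊢
    push_cast at hz ⊢
    constructor <;> omega
  have h1 := InsCB_pab (ins k 1 g ξ) h (n := n + 1) (t := k + 1) (ℓ := R) (N := n + 3) (by omega)
    (by omega) (hb3 y hy) (hb3 b hb)
  have h2 : n + 1 - (k + 1) - R = n - k - R := by omega
  have h3 : k + 1 + R = k + R + 1 := by omega
  rw [h2, Kp_ins_after 1 le_rfl] at h1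
  rw [h1, h3, Z_ins_after 1 (by omega), KA.p2, Zm_eq hR hk, mul_div_cancel₀ _ hZ.ne',
    InsCB_left hR hk, ga]
  ring

/-- Proof. `p2 y b = pab g⁺ h (n+1) (k+1) (k+1+R) (y+1) (b+1)`: `∑_x ah x Mk x y = Kp g⁺ h 0 0 (k+1) (y+1)`
(`Kp_split_box`), `ga y b = Kp g⁺ h (k+1) (y+1) R (b+1) * Z g⁺ h (k+1+R) (b+1) (n-k-R)`
(`Kp_ins_after`, `Z_ins_after`), `Av_two`. Then `sum_swap_final` with `N = n + 3`: the shifted index
`y + 1` runs through a subset of `box (n + 3)` which contains `box (n + 1)`, where `pab` is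
supported; all terms are `≥ 0`. -/
lemma N2_le (hR : R ≤ k) (hk : k + R ≤ n) :
    KA.N2 (box (n + 2)) (al g h k R) (ga g h n k R) (Mk g ξ h k) ≤
      2 * Av2 (ins k 1 g ξ) h (n + 1) (nm (k + 1) (k + 1 + R)) := by
  refine le_trans (le_of_eq ?_) (sum_swap_final (ins k 1 g ξ) h (n := n + 1) (a := k + 1)
    (b := k + 1 + R) (N := n + 1) (by omega) (by omega) le_rfl)
  obtain ⟨P, hP⟩ : ∃ P : ℤ → ℤ → ℝ, P = pab (ins k 1 g ξ) h (n + 1) (k + 1) (k + 1 + R) := ⟨_, rfl⟩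
  have hl : ∀ y b, y ∉ box (n + 1) → P y b = 0 := fun y b hy => by
    rw [hP]
    exact InsCB_zl _ _ (by omega) b hy
  have hr : ∀ y b, b ∉ box (n + 1) → P y b = 0 := fun y b hb => by
    rw [hP]
    exact InsCB_zr _ _ (by omega) y hb
  have hs : ∀ z ∈ box (n + 2),
      ∑ b' ∈ box (n + 2), KA.p2 (box (n + 2)) (al g h k R) (ga g h n k R) (Mk g ξ h k) z b' =
        ∑ b' ∈ box (n + 1), P (z + 1) b' := fun z hz => by
    rw [← InsCB_shift (F := fun b' => P (z + 1) b') (fun b' hb' => hr _ _ hb')]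
    refine Finset.sum_congr rfl fun b' hb' => ?_
    rw [InsCB_p2 hR hk hz hb', hP]
  have hq : ∀ z, z ∉ box (n + 1) → ∑ b' ∈ box (n + 1), P z b' = 0 := fun z hz =>
    Finset.sum_eq_zero fun b' _ => hl _ _ hz
  rw [KA.N2, ← hP]
  have h1 : ∀ b ∈ box (n + 2), ∀ y ∈ box (n + 2), ∀ y' ∈ box (n + 2),
      |KA.p2 (box (n + 2)) (al g h k R) (ga g h n k R) (Mk g ξ h k) y b *
          (∑ b' ∈ box (n + 2), KA.p2 (box (n + 2)) (al g h k R) (ga g h n k R) (Mk g ξ h k) y' b') -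
        (∑ b' ∈ box (n + 2), KA.p2 (box (n + 2)) (al g h k R) (ga g h n k R) (Mk g ξ h k) y b') *
          KA.p2 (box (n + 2)) (al g h k R) (ga g h n k R) (Mk g ξ h k) y' b| =
      |P (y + 1) (b + 1) * (∑ b' ∈ box (n + 1), P (y' + 1) b') -
        (∑ b' ∈ box (n + 1), P (y + 1) b') * P (y' + 1) (b + 1)| := by
    intro b hb y hy y' hy'
    rw [hs y hy, hs y' hy', InsCB_p2 hR hk hy hb, InsCB_p2 hR hk hy' hb, hP]
  rw [Finset.sum_congr rfl fun b hb => Finset.sum_congr rfl fun y hy =>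
    Finset.sum_congr rfl fun y' hy' => h1 b hb y hy y' hy']
  have h2 : ∀ b y, ∑ y' ∈ box (n + 2), |P y b * (∑ b' ∈ box (n + 1), P (y' + 1) b') -
        (∑ b' ∈ box (n + 1), P y b') * P (y' + 1) b| =
      ∑ y' ∈ box (n + 1), |P y b * (∑ b' ∈ box (n + 1), P y' b') -
        (∑ b' ∈ box (n + 1), P y b') * P y' b| := fun b y =>
    InsCB_shift (F := fun y' => |P y b * (∑ b' ∈ box (n + 1), P y' b') -
        (∑ b' ∈ box (n + 1), P y b') * P y' b|) (fun y' hy' => by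
      show |P y b * (∑ b' ∈ box (n + 1), P y' b') -
        (∑ b' ∈ box (n + 1), P y b') * P y' b| = 0
      rw [hq y' hy', hl y' b hy', mul_zero, mul_zero, sub_zero, abs_zero])
  have h3 : ∀ b, ∑ y ∈ box (n + 2), ∑ y' ∈ box (n + 1),
        |P (y + 1) b * (∑ b' ∈ box (n + 1), P y' b') -
        (∑ b' ∈ box (n + 1), P (y + 1) b') * P y' b| =
      ∑ y ∈ box (n + 1), ∑ y' ∈ box (n + 1), |P y b * (∑ b' ∈ box (n + 1), P y' b') -
        (∑ b' ∈ box (n + 1), P y b') * P y' b| := fun b =>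
    InsCB_shift (F := fun y => ∑ y' ∈ box (n + 1), |P y b * (∑ b' ∈ box (n + 1), P y' b') -
        (∑ b' ∈ box (n + 1), P y b') * P y' b|) (fun y hy => Finset.sum_eq_zero fun y' _ => by
      rw [hq y hy, hl y b hy, zero_mul, zero_mul, sub_zero, abs_zero])
  have h4 : ∑ b ∈ box (n + 2), ∑ y ∈ box (n + 1), ∑ y' ∈ box (n + 1),
        |P y (b + 1) * (∑ b' ∈ box (n + 1), P y' b') -
        (∑ b' ∈ box (n + 1), P y b') * P y' (b + 1)| =
      ∑ b ∈ box (n + 1), ∑ y ∈ box (n + 1), ∑ y' ∈ box (n + 1),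
        |P y b * (∑ b' ∈ box (n + 1), P y' b') -
        (∑ b' ∈ box (n + 1), P y b') * P y' b| :=
    InsCB_shift (F := fun b => ∑ y ∈ box (n + 1), ∑ y' ∈ box (n + 1),
        |P y b * (∑ b' ∈ box (n + 1), P y' b') -
        (∑ b' ∈ box (n + 1), P y b') * P y' b|) (fun b hb => Finset.sum_eq_zero fun y _ =>
          Finset.sum_eq_zero fun y' _ => by
      rw [hr y b hb, hr y' b hb, zero_mul, mul_zero, sub_zero, abs_zero])
  rw [← h4]
  refine Finset.sum_congr rfl fun b _ => ?_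
  rw [← h3]
  exact Finset.sum_congr rfl fun y _ => h2 _ _

end

end Pool.Agent.W_7d29a1_h47
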