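import Pool.Agent.W_7d29a1_h47.InsCB

/-!
# The Kullback–Leibler inequality for the insertion of one row
-/

namespace Pool.Agent.W_7d29a1_h47

open MeasureTheory ProbabilityTheory Finset

noncomputable section

/-- The Kullback–Leibler distance between the law of the window end points for `g` and for the
environment with inserted row: `log ρ - Av log W`. -/
def KLf (h : ℝ) (n k R : ℕ) (g : Env) (ξ : ℤ → ℝ) : ℝ :=
  lrho h n k true g ξ -
    Av g h 0 0 n (fun s => Real.log (Wr h k R g ξ (pos s (k - R)) (pos s (k + R))))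

/-- The bound of the total variation distance. -/
def TVb (h : ℝ) (n k R : ℕ) (M₁ Y : ℝ) (g : Env) (ξ : ℤ → ℝ) : ℝ :=
  Real.exp (Y + |h| + M₁) * (2 * Av2 (ins k 1 g ξ) h (n + 1) (nm (k - R) k) +
      2 * Av2 (ins k 1 g ξ) h (n + 1) (nm (k + 1) (k + 1 + R))) +
    4 * Av g h 0 0 n (fun s => ind (M₁ < |ξ (pos s k + 1)|))

lemma InsD_log (g : Env) (ξ : ℤ → ℝ) (h : ℝ) {n k R : ℕ} (hR : R ≤ k) (hk : k + R ≤ n) :
    Real.log (KA.Zm (box (n + 2)) (al g h k R) (ga g h n k R) (Mk g ξ h k) /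
      KA.Zg (box (n + 2)) (al g h k R) (ga g h n k R)) = lrho h n k true g ξ := by
  rw [Zm_eq hR hk, Zg_eq hR hk, Real.log_div (Z_pos _ _ _ _ _).ne' (Z_pos _ _ _ _ _).ne', lrho,
    stp_true]

lemma InsD_mm_nonneg (g : Env) (h : ℝ) {n k R : ℕ} (hR : R ≤ k) (hk : k + R ≤ n) (x : ℤ) :
    0 ≤ KA.mm (box (n + 2)) (al g h k R) (ga g h n k R) x := by
  rw [KA.mm, Zg_eq hR hk]
  exact div_nonneg (mul_nonneg (KA.InsM_ah_nonneg (fun a x => al_nonneg a x) x)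
    (KA.InsM_gh_nonneg (fun x b => ga_nonneg x b) x)) (Z_pos _ _ _ _ _).le

lemma InsD_Av2_nonneg (g : Env) (h : ℝ) (n a b : ℕ) : 0 ≤ Av2 g h n (nm a b) :=
  Av_nonneg fun s _ => Av_nonneg fun r _ => nm_nonneg a b s r

lemma InsD_TVb_nonneg (g : Env) (ξ : ℤ → ℝ) (h : ℝ) (n k R : ℕ) (M₁ Y : ℝ) :
    0 ≤ TVb h n k R M₁ Y g ξ := by
  have h1 := InsD_Av2_nonneg (ins k 1 g ξ) h (n + 1) (k - R) k
  have h2 := InsD_Av2_nonneg (ins k 1 g ξ) h (n + 1) (k + 1) (k + 1 + R)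
  have h3 : 0 ≤ Av g h 0 0 n (fun s => ind (M₁ < |ξ (pos s k + 1)|)) :=
    Av_nonneg fun s _ => ind_nonneg _
  rw [TVb]
  have h4 := mul_nonneg (Real.exp_pos (Y + |h| + M₁)).le
    (add_nonneg (mul_nonneg zero_le_two h1) (mul_nonneg zero_le_two h2))
  linarith

lemma InsD_tv (g : Env) (ξ : ℤ → ℝ) (h : ℝ) {n k R : ℕ} (hR : R ≤ k) (hk : k + R ≤ n)
    {M₁ Y : ℝ} (hlog : lrho h n k true g ξ ≤ Y) :
    ∑ a ∈ box (n + 2), ∑ b ∈ box (n + 2), |KA.mu (box (n + 2)) (al g h k R) (ga g h n k R) a b -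
        KA.mu' (box (n + 2)) (al g h k R) (ga g h n k R) (Mk g ξ h k) a b| ≤
      TVb h n k R M₁ Y g ξ := by
  have hZ : 0 < KA.Zg (box (n + 2)) (al g h k R) (ga g h n k R) := by
    rw [Zg_eq hR hk]
    exact Z_pos _ _ _ _ _
  have hMd : ∀ x, 0 < Mk g ξ h k x x := fun x => by
    rw [Mk_diag]
    exact Real.exp_pos _
  have hρ : KA.Zm (box (n + 2)) (al g h k R) (ga g h n k R) (Mk g ξ h k) ≤
      Real.exp Y * KA.Zg (box (n + 2)) (al g h k R) (ga g h n k R) := by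
    have hlog' := hlog
    rw [← InsD_log g ξ h hR hk] at hlog'
    have hZm : 0 < KA.Zm (box (n + 2)) (al g h k R) (ga g h n k R) (Mk g ξ h k) := by
      rw [Zm_eq hR hk]
      exact Z_pos _ _ _ _ _
    have h1 := (Real.log_le_iff_le_exp (div_pos hZm hZ)).1 hlog'
    exact (div_le_iff₀ hZ).1 h1
  have h1 := KA.tv_abs (I := box (n + 2)) (α := al g h k R) (γ := ga g h n k R) (M := Mk g ξ h k)
    (fun a x => al_nonneg a x) (fun x b => ga_nonneg x b) (fun x y => Mk_nonneg x y) hMd hZ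
    (κ := Real.exp (-(|h| + M₁))) (ρ := Real.exp Y) (Real.exp_pos _) hρ
  refine h1.trans ?_
  have h2 : Real.exp Y / Real.exp (-(|h| + M₁)) = Real.exp (Y + |h| + M₁) := by
    rw [← Real.exp_sub]
    congr 1
    ring
  rw [h2, TVb]
  refine add_le_add (mul_le_mul_of_nonneg_left (add_le_add (N1_le hR hk) (N2_le hR hk))
    (Real.exp_pos _).le) (mul_le_mul_of_nonneg_left ?_ (by norm_num))
  rw [← sum_mm hR hk (fun x => ind (M₁ < |ξ (x + 1)|))]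
  refine Finset.sum_le_sum fun x _ => ?_
  have h3 := InsD_mm_nonneg g h hR hk x
  split_ifs with h4
  · rw [Mk_diag, Real.exp_lt_exp] at h4
    have h5 : M₁ < |ξ (x + 1)| := by
      have h6 := neg_abs_le h
      have h7 := neg_le_abs (ξ (x + 1))
      linarith
    rw [ind_true h5, mul_one]
  · exact mul_nonneg h3 (ind_nonneg _)

/-- Proof. `KA.kl_abs` with `I = box (n+2)`, `α = al`, `γ = ga`, `M = Mk`, `ℓ x = |h| + |ξ (x+1)|`
(`Mk_diag`), `L0 = |h| + M₀`, `X = Xf h n k true g ξ` (`Xf_nonneg`, `lrho_le_Xf`, `Zg_eq`, `Zm_eq`: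
`Zm/Zg = Z g⁺ / Z g`, `log` of it is `lrho`, `stp true = 1`), `B = TVb`. The hypothesis `hB`: if
`lrho ≤ Y` then `Zm ≤ e^Y Zg`, `KA.tv_abs` with `ρ = e^Y`, `κ = e^{-(|h| + M₁)}`: `Mk x x < κ` implies
`M₁ < |ξ (x+1)|`; `ρ/κ = e^{Y + |h| + M₁}`; `N1_le`, `N2_le`, `sum_mm` with `f x = ind (M₁ < |ξ (x+1)|)`.
The left side is `KLf` by `sum_mu_wq`; the last term of `kl_abs` is
`Av (max (|ξ (pos s k + 1)| - M₀) 0)` by `sum_mm`. -/
theorem KLf_le (g : Env) (ξ : ℤ → ℝ) (h : ℝ) {n k R : ℕ} (hR : R ≤ k) (hk : k + R ≤ n)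
    {M₀ M₁ Y : ℝ} (hM₀ : 0 ≤ M₀) (hM₁ : 0 ≤ M₁) (hY : 1 ≤ Y) :
    KLf h n k R g ξ ≤ (1 + (|h| + M₀) + Y) * TVb h n k R M₁ Y g ξ +
      (3 + (|h| + M₀)) * (if Y ≤ Xf h n k true g ξ then Xf h n k true g ξ else 0) +
      Av g h 0 0 n (fun s => max (|ξ (pos s k + 1)| - M₀) 0) := by
  have hZ : 0 < KA.Zg (box (n + 2)) (al g h k R) (ga g h n k R) := by
    rw [Zg_eq hR hk]
    exact Z_pos _ _ _ _ _
  have hMd : ∀ x, 0 < Mk g ξ h k x x := fun x => by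
    rw [Mk_diag]
    exact Real.exp_pos _
  have hℓ : ∀ x, |Real.log (Mk g ξ h k x x)| ≤ |h| + |ξ (x + 1)| := fun x => by
    rw [Mk_diag, Real.log_exp, add_comm |h|]
    exact abs_add_le _ _
  have h1 := KA.kl_abs (I := box (n + 2)) (α := al g h k R) (γ := ga g h n k R) (M := Mk g ξ h k)
    (fun a x => al_nonneg a x) (fun x b => ga_nonneg x b) (fun x y => Mk_nonneg x y) hMd hZ
    (ℓ := fun x => |h| + |ξ (x + 1)|) hℓ (L0 := |h| + M₀) (X := Xf h n k true g ξ) (Y := Y)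
    (B := TVb h n k R M₁ Y g ξ) (add_nonneg (abs_nonneg h) hM₀)
    (Xf_nonneg g ξ h (by omega) true)
    (by
      rw [InsD_log g ξ h hR hk]
      exact lrho_le_Xf g ξ h n k true)
    hY (InsD_TVb_nonneg g ξ h n k R M₁ Y)
    (fun hl => InsD_tv g ξ h hR hk (by rwa [InsD_log g ξ h hR hk] at hl))
  rw [InsD_log g ξ h hR hk, sum_mu_wq hR hk] at h1
  have h2 : ∑ x ∈ box (n + 2), KA.mm (box (n + 2)) (al g h k R) (ga g h n k R) x *
        max (|h| + |ξ (x + 1)| - (|h| + M₀)) 0 =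
      Av g h 0 0 n (fun s => max (|ξ (pos s k + 1)| - M₀) 0) := by
    rw [← sum_mm hR hk (fun x => max (|ξ (x + 1)| - M₀) 0)]
    refine Finset.sum_congr rfl fun x _ => ?_
    rw [add_sub_add_left_eq_sub]
  rw [h2] at h1
  exact h1

end

end Pool.Agent.W_7d29a1_h47
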