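import Mathlib

/-!
# Finite algebra: two products of kernels, total variation

`I` is a finite index set. `α a x`, `γ x b` are nonnegative kernels, `M x y` the kernel of the
inserted step, `M x x > 0`. The unperturbed measure on pairs is `mu a b ∝ ∑_x α a x γ x b`, the
perturbed one `mu' a b ∝ ∑_{x,y} α a x M x y γ y b`.
-/

namespace Pool.Agent.W_7d29a1_h47.KA

open Finset

noncomputable section

variable {ι : Type*} (I : Finset ι) (α γ M : ι → ι → ℝ)

def ah (x : ι) : ℝ := ∑ a ∈ I, α a x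

def gh (x : ι) : ℝ := ∑ b ∈ I, γ x b

def Zg : ℝ := ∑ x ∈ I, ah I α x * gh I γ x

def Zm : ℝ := ∑ x ∈ I, ∑ y ∈ I, ah I α x * M x y * gh I γ y

def mu (a b : ι) : ℝ := (∑ x ∈ I, α a x * γ x b) / Zg I α γ

def mu' (a b : ι) : ℝ := (∑ x ∈ I, ∑ y ∈ I, α a x * M x y * γ y b) / Zm I α γ M

/-- The middle marginal of the unperturbed measure. -/
def mm (x : ι) : ℝ := ah I α x * gh I γ x / Zg I α γ

/-- Perturbed measure: joint law of (left end, position before the inserted step). -/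
def p1 (a x : ι) : ℝ := α a x * (∑ y ∈ I, M x y * gh I γ y) / Zm I α γ M

/-- Perturbed measure: joint law of (position after the inserted step, right end). -/
def p2 (y b : ι) : ℝ := (∑ x ∈ I, ah I α x * M x y) * γ y b / Zm I α γ M

def N1 : ℝ := ∑ a ∈ I, ∑ x ∈ I, ∑ x' ∈ I,
  |p1 I α γ M a x * (∑ a' ∈ I, p1 I α γ M a' x') - (∑ a' ∈ I, p1 I α γ M a' x) * p1 I α γ M a x'|

def N2 : ℝ := ∑ b ∈ I, ∑ y ∈ I, ∑ y' ∈ I,
  |p2 I α γ M y b * (∑ b' ∈ I, p2 I α γ M y' b') - (∑ b' ∈ I, p2 I α γ M y b') * p2 I α γ M y' b|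

variable {I α γ M}

/-- Abstract inequality. -/
lemma InsM_core {m : ι → ℝ} {m12 q r : ι → ι → ℝ} (hm0 : ∀ x ∈ I, 0 ≤ m x)
    (h120 : ∀ x ∈ I, ∀ y ∈ I, 0 ≤ m12 x y) (hq0 : ∀ x ∈ I, ∀ a ∈ I, 0 ≤ q x a)
    (hr0 : ∀ x ∈ I, ∀ a ∈ I, 0 ≤ r x a) (hm : ∑ x ∈ I, m x = 1)
    (h12 : ∑ x ∈ I, ∑ y ∈ I, m12 x y = 1) (hq : ∀ x ∈ I, ∑ a ∈ I, q x a ≤ 1)
    (hr : ∀ x ∈ I, ∑ b ∈ I, r x b ≤ 1) :
    ∑ a ∈ I, ∑ b ∈ I, |(∑ x ∈ I, m x * (q x a * r x b)) -
        ∑ x ∈ I, ∑ y ∈ I, m12 x y * (q x a * r y b)| ≤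
      (∑ x ∈ I, ∑ x' ∈ I, m x * (∑ y ∈ I, m12 x' y) * ∑ a ∈ I, |q x a - q x' a|) +
        ∑ x ∈ I, ∑ y ∈ I, m x * (∑ x' ∈ I, m12 x' y) * ∑ b ∈ I, |r x b - r y b| := by
  have h1 : ∀ a ∈ I, ∀ b ∈ I, |(∑ x ∈ I, m x * (q x a * r x b)) -
        ∑ x ∈ I, ∑ y ∈ I, m12 x y * (q x a * r y b)| ≤
      ∑ x ∈ I, ∑ x' ∈ I, ∑ y ∈ I,
        m x * m12 x' y * (|q x a - q x' a| * r x b + q x' a * |r x b - r y b|) := by
    intro a ha b hb
    have e : (∑ x ∈ I, m x * (q x a * r x b)) -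
        ∑ x ∈ I, ∑ y ∈ I, m12 x y * (q x a * r y b) =
        ∑ x ∈ I, ∑ x' ∈ I, ∑ y ∈ I, m x * m12 x' y * (q x a * r x b - q x' a * r y b) := by
      have e1 : (∑ x ∈ I, m x * (q x a * r x b)) =
          ∑ x ∈ I, ∑ x' ∈ I, ∑ y ∈ I, m x * m12 x' y * (q x a * r x b) := by
        calc (∑ x ∈ I, m x * (q x a * r x b))
            = ∑ x ∈ I, m x * (q x a * r x b) * (∑ x' ∈ I, ∑ y ∈ I, m12 x' y) := by
              rw [h12]; simp
          _ = _ := by
              refine Finset.sum_congr rfl fun x _ => ?_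
              rw [Finset.mul_sum]
              refine Finset.sum_congr rfl fun x' _ => ?_
              rw [Finset.mul_sum]
              refine Finset.sum_congr rfl fun y _ => ?_
              ring
      have e2 : (∑ x ∈ I, ∑ y ∈ I, m12 x y * (q x a * r y b)) =
          ∑ x ∈ I, ∑ x' ∈ I, ∑ y ∈ I, m x * m12 x' y * (q x' a * r y b) := by
        calc (∑ x' ∈ I, ∑ y ∈ I, m12 x' y * (q x' a * r y b))
            = (∑ x ∈ I, m x) * ∑ x' ∈ I, ∑ y ∈ I, m12 x' y * (q x' a * r y b) := by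
              rw [hm]; simp
          _ = _ := by
              rw [Finset.sum_mul]
              refine Finset.sum_congr rfl fun x _ => ?_
              rw [Finset.mul_sum]
              refine Finset.sum_congr rfl fun x' _ => ?_
              rw [Finset.mul_sum]
              refine Finset.sum_congr rfl fun y _ => ?_
              ring
      rw [e1, e2, ← Finset.sum_sub_distrib]
      refine Finset.sum_congr rfl fun x _ => ?_
      rw [← Finset.sum_sub_distrib]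
      refine Finset.sum_congr rfl fun x' _ => ?_
      rw [← Finset.sum_sub_distrib]
      refine Finset.sum_congr rfl fun y _ => ?_
      ring
    rw [e]
    refine (Finset.abs_sum_le_sum_abs _ _).trans (Finset.sum_le_sum fun x hx => ?_)
    refine (Finset.abs_sum_le_sum_abs _ _).trans (Finset.sum_le_sum fun x' hx' => ?_)
    refine (Finset.abs_sum_le_sum_abs _ _).trans (Finset.sum_le_sum fun y hy => ?_)
    rw [abs_mul, abs_of_nonneg (mul_nonneg (hm0 x hx) (h120 x' hx' y hy))]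
    refine mul_le_mul_of_nonneg_left ?_ (mul_nonneg (hm0 x hx) (h120 x' hx' y hy))
    have e3 : q x a * r x b - q x' a * r y b =
        (q x a - q x' a) * r x b + q x' a * (r x b - r y b) := by ring
    rw [e3]
    refine (abs_add_le _ _).trans ?_
    rw [abs_mul, abs_mul, abs_of_nonneg (hr0 x hx b hb), abs_of_nonneg (hq0 x' hx' a ha)]
  have h2 : ∑ a ∈ I, ∑ b ∈ I, |(∑ x ∈ I, m x * (q x a * r x b)) -
        ∑ x ∈ I, ∑ y ∈ I, m12 x y * (q x a * r y b)| ≤
      ∑ x ∈ I, ∑ x' ∈ I, ∑ y ∈ I, m x * m12 x' y *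
        ((∑ a ∈ I, |q x a - q x' a|) + ∑ b ∈ I, |r x b - r y b|) := by
    refine (Finset.sum_le_sum fun a ha => Finset.sum_le_sum fun b hb => h1 a ha b hb).trans ?_
    have e4 : ∑ a ∈ I, ∑ b ∈ I, ∑ x ∈ I, ∑ x' ∈ I, ∑ y ∈ I,
        m x * m12 x' y * (|q x a - q x' a| * r x b + q x' a * |r x b - r y b|) =
        ∑ x ∈ I, ∑ x' ∈ I, ∑ y ∈ I, m x * m12 x' y *
          ((∑ a ∈ I, |q x a - q x' a|) * (∑ b ∈ I, r x b) +
            (∑ a ∈ I, q x' a) * ∑ b ∈ I, |r x b - r y b|) := by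
      have e5 : ∀ a ∈ I, ∑ b ∈ I, ∑ x ∈ I, ∑ x' ∈ I, ∑ y ∈ I,
          m x * m12 x' y * (|q x a - q x' a| * r x b + q x' a * |r x b - r y b|) =
          ∑ x ∈ I, ∑ x' ∈ I, ∑ y ∈ I, m x * m12 x' y *
            (|q x a - q x' a| * (∑ b ∈ I, r x b) + q x' a * ∑ b ∈ I, |r x b - r y b|) := by
        intro a _
        rw [Finset.sum_comm]
        refine Finset.sum_congr rfl fun x _ => ?_
        rw [Finset.sum_comm]
        refine Finset.sum_congr rfl fun x' _ => ?_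
        rw [Finset.sum_comm]
        refine Finset.sum_congr rfl fun y _ => ?_
        rw [← Finset.mul_sum, Finset.sum_add_distrib, ← Finset.mul_sum, ← Finset.mul_sum]
      rw [Finset.sum_congr rfl e5, Finset.sum_comm]
      refine Finset.sum_congr rfl fun x _ => ?_
      rw [Finset.sum_comm]
      refine Finset.sum_congr rfl fun x' _ => ?_
      rw [Finset.sum_comm]
      refine Finset.sum_congr rfl fun y _ => ?_
      rw [← Finset.mul_sum, Finset.sum_add_distrib, ← Finset.sum_mul, ← Finset.sum_mul]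
    rw [e4]
    refine Finset.sum_le_sum fun x hx => Finset.sum_le_sum fun x' hx' =>
      Finset.sum_le_sum fun y hy => ?_
    refine mul_le_mul_of_nonneg_left ?_ (mul_nonneg (hm0 x hx) (h120 x' hx' y hy))
    refine add_le_add ?_ ?_
    · exact mul_le_of_le_one_right (Finset.sum_nonneg fun a _ => abs_nonneg _) (hr x hx)
    · exact mul_le_of_le_one_left (Finset.sum_nonneg fun a _ => abs_nonneg _) (hq x' hx')
  refine h2.trans (le_of_eq ?_)
  rw [← Finset.sum_add_distrib]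
  refine Finset.sum_congr rfl fun x _ => ?_
  have e6 : ∑ y ∈ I, m x * (∑ x' ∈ I, m12 x' y) * ∑ b ∈ I, |r x b - r y b| =
      ∑ x' ∈ I, ∑ y ∈ I, m x * m12 x' y * ∑ b ∈ I, |r x b - r y b| := by
    rw [Finset.sum_comm]
    refine Finset.sum_congr rfl fun y _ => ?_
    rw [Finset.mul_sum (s := I) (f := fun x' => m12 x' y), Finset.sum_mul]
  rw [e6, ← Finset.sum_add_distrib]
  refine Finset.sum_congr rfl fun x' _ => ?_
  rw [Finset.mul_sum (s := I) (f := fun y => m12 x' y), Finset.sum_mul, ← Finset.sum_add_distrib]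
  refine Finset.sum_congr rfl fun y _ => ?_
  ring

/-- One of the two sums, compared with the perturbed marginal. -/
lemma InsM_cmp {m m1 : ι → ℝ} {q p : ι → ι → ℝ} (hm0 : ∀ x ∈ I, 0 ≤ m x)
    (hm10 : ∀ x ∈ I, 0 ≤ m1 x) (hm1 : ∑ x ∈ I, m1 x = 1)
    (hq0 : ∀ x ∈ I, ∀ a ∈ I, 0 ≤ q x a) (hq : ∀ x ∈ I, ∑ a ∈ I, q x a ≤ 1)
    (hp : ∀ x ∈ I, ∀ a ∈ I, p x a = m1 x * q x a) (P : ι → Prop) [DecidablePred P] {c : ℝ}
    (hc : 0 ≤ c) (hcm : ∀ x ∈ I, ¬ P x → m x ≤ c * m1 x) :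
    ∑ x ∈ I, ∑ x' ∈ I, m x * m1 x' * ∑ a ∈ I, |q x a - q x' a| ≤
      c * (∑ a ∈ I, ∑ x ∈ I, ∑ x' ∈ I, |p x a * m1 x' - m1 x * p x' a|) +
        2 * ∑ x ∈ I, (if P x then m x else 0) := by
  have hD : ∀ x ∈ I, ∀ x' ∈ I, ∑ a ∈ I, |q x a - q x' a| ≤ 2 := by
    intro x hx x' hx'
    calc ∑ a ∈ I, |q x a - q x' a| ≤ ∑ a ∈ I, (q x a + q x' a) := by
          refine Finset.sum_le_sum fun a ha => ?_
          rw [abs_le]
          constructor
          · linarith [hq0 x hx a ha, hq0 x' hx' a ha]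
          · linarith [hq0 x hx a ha, hq0 x' hx' a ha]
      _ = (∑ a ∈ I, q x a) + ∑ a ∈ I, q x' a := Finset.sum_add_distrib
      _ ≤ 2 := by linarith [hq x hx, hq x' hx']
  have hle : ∀ x ∈ I, m x ≤ c * m1 x + (if P x then m x else 0) := by
    intro x hx
    by_cases hP : P x
    · rw [if_pos hP]
      have := mul_nonneg hc (hm10 x hx)
      linarith
    · rw [if_neg hP, add_zero]
      exact hcm x hx hP
  have h1 : ∑ x ∈ I, ∑ x' ∈ I, m x * m1 x' * ∑ a ∈ I, |q x a - q x' a| ≤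
      ∑ x ∈ I, ∑ x' ∈ I, (c * (m1 x * m1 x' * ∑ a ∈ I, |q x a - q x' a|) +
        (if P x then m x else 0) * m1 x' * 2) := by
    refine Finset.sum_le_sum fun x hx => Finset.sum_le_sum fun x' hx' => ?_
    have hD0 : 0 ≤ ∑ a ∈ I, |q x a - q x' a| := Finset.sum_nonneg fun a _ => abs_nonneg _
    have hif : 0 ≤ (if P x then m x else 0) := by
      split_ifs
      · exact hm0 x hx
      · exact le_rfl
    calc m x * m1 x' * ∑ a ∈ I, |q x a - q x' a|
        ≤ (c * m1 x + (if P x then m x else 0)) * m1 x' * ∑ a ∈ I, |q x a - q x' a| := by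
          refine mul_le_mul_of_nonneg_right ?_ hD0
          exact mul_le_mul_of_nonneg_right (hle x hx) (hm10 x' hx')
      _ = c * (m1 x * m1 x' * ∑ a ∈ I, |q x a - q x' a|) +
          (if P x then m x else 0) * m1 x' * ∑ a ∈ I, |q x a - q x' a| := by ring
      _ ≤ _ := by
          refine add_le_add le_rfl ?_
          exact mul_le_mul_of_nonneg_left (hD x hx x' hx') (mul_nonneg hif (hm10 x' hx'))
  refine h1.trans (le_of_eq ?_)
  have e1 : ∑ x ∈ I, ∑ x' ∈ I, (c * (m1 x * m1 x' * ∑ a ∈ I, |q x a - q x' a|) +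
        (if P x then m x else 0) * m1 x' * 2) =
      c * (∑ x ∈ I, ∑ x' ∈ I, m1 x * m1 x' * ∑ a ∈ I, |q x a - q x' a|) +
        ∑ x ∈ I, ∑ x' ∈ I, (if P x then m x else 0) * m1 x' * 2 := by
    rw [Finset.mul_sum, ← Finset.sum_add_distrib]
    refine Finset.sum_congr rfl fun x _ => ?_
    rw [Finset.mul_sum, ← Finset.sum_add_distrib]
  rw [e1]
  congr 1
  · congr 1
    rw [Finset.sum_comm' (t' := I) (s' := fun _ => I) (by tauto)]
    rw [Finset.sum_comm]
    rw [Finset.sum_comm (s := I) (t := I)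
      (f := fun a x => ∑ x' ∈ I, |p x a * m1 x' - m1 x * p x' a|)]
    refine Finset.sum_congr rfl fun x hx => ?_
    rw [Finset.sum_comm]
    refine Finset.sum_congr rfl fun x' hx' => ?_
    rw [Finset.mul_sum]
    refine Finset.sum_congr rfl fun a ha => ?_
    rw [hp x hx a ha, hp x' hx' a ha]
    have e2 : m1 x * q x a * m1 x' - m1 x * (m1 x' * q x' a) =
        m1 x * m1 x' * (q x a - q x' a) := by ring
    rw [e2, abs_mul, abs_of_nonneg (mul_nonneg (hm10 x hx) (hm10 x' hx'))]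
  · rw [Finset.mul_sum]
    refine Finset.sum_congr rfl fun x _ => ?_
    calc ∑ x' ∈ I, (if P x then m x else 0) * m1 x' * 2
        = (if P x then m x else 0) * 2 * ∑ x' ∈ I, m1 x' := by
          rw [Finset.mul_sum]
          refine Finset.sum_congr rfl fun x' _ => ?_
          ring
      _ = 2 * (if P x then m x else 0) := by rw [hm1]; ring

lemma InsM_ah_nonneg (hα : ∀ a x, 0 ≤ α a x) (x : ι) : 0 ≤ ah I α x :=
  Finset.sum_nonneg fun a _ => hα a x

lemma InsM_gh_nonneg (hγ : ∀ x b, 0 ≤ γ x b) (x : ι) : 0 ≤ gh I γ x :=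
  Finset.sum_nonneg fun b _ => hγ x b

/-- `Zm ≥ ∑_x ah x M x x gh x > 0`, since some `ah x gh x` with `x ∈ I` is positive. -/
lemma Zm_pos (hα : ∀ a x, 0 ≤ α a x) (hγ : ∀ x b, 0 ≤ γ x b) (hM : ∀ x y, 0 ≤ M x y)
    (hMd : ∀ x, 0 < M x x) (hZ : 0 < Zg I α γ) : 0 < Zm I α γ M := by
  have h1 : ∃ x ∈ I, 0 < ah I α x * gh I γ x := by
    by_contra hcon
    push Not at hcon
    have : Zg I α γ ≤ 0 := Finset.sum_nonpos fun x hx => hcon x hx
    linarith
  obtain ⟨x, hx, hpos⟩ := h1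
  have hterm : ∀ x y, 0 ≤ ah I α x * M x y * gh I γ y := fun x y =>
    mul_nonneg (mul_nonneg (InsM_ah_nonneg hα x) (hM x y)) (InsM_gh_nonneg hγ y)
  have h2 : 0 < ah I α x * M x x * gh I γ x := by
    have e : ah I α x * M x x * gh I γ x = ah I α x * gh I γ x * M x x := by ring
    rw [e]
    exact mul_pos hpos (hMd x)
  have h3 : ah I α x * M x x * gh I γ x ≤ ∑ y ∈ I, ah I α x * M x y * gh I γ y :=
    Finset.single_le_sum (f := fun y => ah I α x * M x y * gh I γ y)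
      (fun y _ => hterm x y) hx
  have h4 : ∑ y ∈ I, ah I α x * M x y * gh I γ y ≤ Zm I α γ M :=
    Finset.single_le_sum (f := fun x => ∑ y ∈ I, ah I α x * M x y * gh I γ y)
      (fun x _ => Finset.sum_nonneg fun y _ => hterm x y) hx
  linarith

lemma sum_mu (hZ : 0 < Zg I α γ) : ∑ a ∈ I, ∑ b ∈ I, mu I α γ a b = 1 := by
  have e : ∑ a ∈ I, ∑ b ∈ I, mu I α γ a b = Zg I α γ / Zg I α γ := by
    unfold mu
    simp_rw [← Finset.sum_div]
    congr 1
    unfold Zg ah gh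
    have e1 : ∀ a ∈ I, ∑ b ∈ I, ∑ x ∈ I, α a x * γ x b =
        ∑ x ∈ I, α a x * ∑ b ∈ I, γ x b := by
      intro a _
      rw [Finset.sum_comm]
      exact Finset.sum_congr rfl fun x _ => (Finset.mul_sum _ _ _).symm
    rw [Finset.sum_congr rfl e1, Finset.sum_comm]
    exact Finset.sum_congr rfl fun x _ => (Finset.sum_mul _ _ _).symm
  rw [e, div_self hZ.ne']

lemma sum_mu' (hZ : 0 < Zm I α γ M) : ∑ a ∈ I, ∑ b ∈ I, mu' I α γ M a b = 1 := by
  have e : ∑ a ∈ I, ∑ b ∈ I, mu' I α γ M a b = Zm I α γ M / Zm I α γ M := by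
    unfold mu'
    simp_rw [← Finset.sum_div]
    congr 1
    unfold Zm ah gh
    have e1 : ∀ a ∈ I, ∑ b ∈ I, ∑ x ∈ I, ∑ y ∈ I, α a x * M x y * γ y b =
        ∑ x ∈ I, ∑ y ∈ I, α a x * M x y * ∑ b ∈ I, γ y b := by
      intro a _
      rw [Finset.sum_comm]
      refine Finset.sum_congr rfl fun x _ => ?_
      rw [Finset.sum_comm]
      exact Finset.sum_congr rfl fun y _ => (Finset.mul_sum _ _ _).symm
    rw [Finset.sum_congr rfl e1, Finset.sum_comm]
    refine Finset.sum_congr rfl fun x _ => ?_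
    rw [Finset.sum_comm]
    refine Finset.sum_congr rfl fun y _ => ?_
    rw [Finset.sum_mul, Finset.sum_mul]
  rw [e, div_self hZ.ne']

lemma sum_mm (hZ : 0 < Zg I α γ) : ∑ x ∈ I, mm I α γ x = 1 := by
  unfold mm
  rw [← Finset.sum_div]
  exact div_self hZ.ne'

/-- **Total variation bound.** Proof. Put `q x a = α a x / ah x`, `r x b = γ x b / gh x` (division by
zero gives zero, and then also `α a x = 0`, `γ x b = 0`, because a sum of nonnegative terms over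
`I` vanishes; `a, b, x ∈ I`). Put `m x = mm x`, `m1 x = ∑_{a'} p1 a' x = ah x (∑_y M x y gh y)/Zm`,
`m2 y = ∑_{b'} p2 y b'`, `m12 x y = ah x M x y gh y / Zm`. Then `mu a b = ∑_x m x q x a r x b`,
`mu' a b = ∑_{x',y'} m12 x' y' q x' a r y' b`, `∑ m = 1 = ∑ m12`, the marginals of `m12` are `m1`,
`m2`, so `mu a b - mu' a b = ∑_x ∑_{x',y'} m x m12 x' y' (q x a r x b - q x' a r y' b)` and, with
`|q r - q' r'| ≤ |q - q'| r + q' |r - r'|` and `∑_b r x b ≤ 1`, `∑_a q x a ≤ 1`: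
`∑_{a,b} |mu - mu'| ≤ ∑_{x,x'} m x m1 x' ∑_a |q x a - q x' a| + ∑_{x,y'} m x m2 y' ∑_b |r x b - r y' b|`.
If `M x x ≥ κ` then `m1 x ≥ ah x M x x gh x / Zm = m x M x x Zg / Zm ≥ m x κ / ρ`, the same for `m2`.
If `M x x < κ` use `∑_a |q x a - q x' a| ≤ 2`, `∑ m1 = 1`. Finally
`m1 x m1 x' |q x a - q x' a| = |p1 a x m1 x' - m1 x p1 a x'|`, since `p1 a x = m1 x q x a`, similarly
`p2 y b = m2 y r y b`. -/
theorem tv_abs (hα : ∀ a x, 0 ≤ α a x) (hγ : ∀ x b, 0 ≤ γ x b) (hM : ∀ x y, 0 ≤ M x y)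
    (hMd : ∀ x, 0 < M x x) (hZ : 0 < Zg I α γ) {κ ρ : ℝ} (hκ : 0 < κ)
    (hρ : Zm I α γ M ≤ ρ * Zg I α γ) :
    ∑ a ∈ I, ∑ b ∈ I, |mu I α γ a b - mu' I α γ M a b| ≤
      ρ / κ * (N1 I α γ M + N2 I α γ M) +
        4 * ∑ x ∈ I, (if M x x < κ then mm I α γ x else 0) := by
  have hZm : 0 < Zm I α γ M := Zm_pos hα hγ hM hMd hZ
  have hρ0 : 0 < ρ := by
    by_contra hcon
    push Not at hcon
    have : ρ * Zg I α γ ≤ 0 := mul_nonpos_of_nonpos_of_nonneg hcon hZ.le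
    linarith
  have ha0 : ∀ x, 0 ≤ ah I α x := InsM_ah_nonneg hα
  have hg0 : ∀ x, 0 ≤ gh I γ x := InsM_gh_nonneg hγ
  have hα' : ∀ x ∈ I, ∀ a ∈ I, ah I α x * (α a x / ah I α x) = α a x := by
    intro x _ a ha
    rcases eq_or_lt_of_le (ha0 x) with h | h
    · have h1 : α a x = 0 := by
        have h2 : α a x ≤ ah I α x :=
          Finset.single_le_sum (f := fun a => α a x) (fun a _ => hα a x) ha
        exact le_antisymm (by rw [h]; exact h2) (hα a x)
      rw [← h, h1]; simp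
    · field_simp
  have hγ' : ∀ x ∈ I, ∀ b ∈ I, gh I γ x * (γ x b / gh I γ x) = γ x b := by
    intro x _ b hb
    rcases eq_or_lt_of_le (hg0 x) with h | h
    · have h1 : γ x b = 0 := by
        have h2 : γ x b ≤ gh I γ x :=
          Finset.single_le_sum (f := fun b => γ x b) (fun b _ => hγ x b) hb
        exact le_antisymm (by rw [h]; exact h2) (hγ x b)
      rw [← h, h1]; simp
    · field_simp
  have hq0 : ∀ x ∈ I, ∀ a ∈ I, 0 ≤ α a x / ah I α x := fun x _ a _ =>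
    div_nonneg (hα a x) (ha0 x)
  have hr0 : ∀ x ∈ I, ∀ b ∈ I, 0 ≤ γ x b / gh I γ x := fun x _ b _ =>
    div_nonneg (hγ x b) (hg0 x)
  have hq1 : ∀ x ∈ I, ∑ a ∈ I, α a x / ah I α x ≤ 1 := by
    intro x _
    rw [← Finset.sum_div]
    exact div_self_le_one _
  have hr1 : ∀ x ∈ I, ∑ b ∈ I, γ x b / gh I γ x ≤ 1 := by
    intro x _
    rw [← Finset.sum_div]
    exact div_self_le_one _
  have hm0 : ∀ x ∈ I, 0 ≤ mm I α γ x := fun x _ =>
    div_nonneg (mul_nonneg (ha0 x) (hg0 x)) hZ.le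
  have h120 : ∀ x ∈ I, ∀ y ∈ I, 0 ≤ ah I α x * M x y * gh I γ y / Zm I α γ M := fun x _ y _ =>
    div_nonneg (mul_nonneg (mul_nonneg (ha0 x) (hM x y)) (hg0 y)) hZm.le
  have h12 : ∑ x ∈ I, ∑ y ∈ I, ah I α x * M x y * gh I γ y / Zm I α γ M = 1 := by
    simp_rw [← Finset.sum_div]
    exact div_self hZm.ne'
  -- the marginals
  have hm1 : ∀ x, ∑ y ∈ I, ah I α x * M x y * gh I γ y / Zm I α γ M =
      ∑ a' ∈ I, p1 I α γ M a' x := by
    intro x
    unfold p1
    rw [← Finset.sum_div, ← Finset.sum_div, ← Finset.sum_mul]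
    congr 1
    rw [Finset.mul_sum]
    refine Finset.sum_congr rfl fun y _ => ?_
    unfold ah
    ring
  have hm2 : ∀ y, ∑ x ∈ I, ah I α x * M x y * gh I γ y / Zm I α γ M =
      ∑ b' ∈ I, p2 I α γ M y b' := by
    intro y
    unfold p2
    rw [← Finset.sum_div, ← Finset.sum_div, ← Finset.mul_sum, Finset.sum_mul]
    rfl
  have hmu : ∀ a ∈ I, ∀ b ∈ I, mu I α γ a b - mu' I α γ M a b =
      (∑ x ∈ I, mm I α γ x * (α a x / ah I α x * (γ x b / gh I γ x))) -
        ∑ x ∈ I, ∑ y ∈ I, ah I α x * M x y * gh I γ y / Zm I α γ M *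
          (α a x / ah I α x * (γ y b / gh I γ y)) := by
    intro a ha b hb
    unfold mu mu' mm
    congr 1
    · rw [Finset.sum_div]
      refine Finset.sum_congr rfl fun x hx => ?_
      conv_lhs => rw [← hα' x hx a ha, ← hγ' x hx b hb]
      ring
    · rw [Finset.sum_div]
      refine Finset.sum_congr rfl fun x hx => ?_
      rw [Finset.sum_div]
      refine Finset.sum_congr rfl fun y hy => ?_
      conv_lhs => rw [← hα' x hx a ha, ← hγ' y hy b hb]
      ring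
  rw [Finset.sum_congr rfl fun a ha => Finset.sum_congr rfl fun b hb => by rw [hmu a ha b hb]]
  refine (InsM_core (q := fun x a => α a x / ah I α x) (r := fun x b => γ x b / gh I γ x)
    (m12 := fun x y => ah I α x * M x y * gh I γ y / Zm I α γ M)
    hm0 h120 hq0 hr0 (sum_mm hZ) h12 hq1 hr1).trans ?_
  simp only [hm1, hm2]
  have hm10 : ∀ x ∈ I, 0 ≤ ∑ a' ∈ I, p1 I α γ M a' x := by
    intro x hx
    rw [← hm1]
    exact Finset.sum_nonneg fun y hy => h120 x hx y hy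
  have hm20 : ∀ y ∈ I, 0 ≤ ∑ b' ∈ I, p2 I α γ M y b' := by
    intro y hy
    rw [← hm2]
    exact Finset.sum_nonneg fun x hx => h120 x hx y hy
  have hm11 : ∑ x ∈ I, ∑ a' ∈ I, p1 I α γ M a' x = 1 := by
    rw [← h12]
    exact Finset.sum_congr rfl fun x _ => (hm1 x).symm
  have hm21 : ∑ y ∈ I, ∑ b' ∈ I, p2 I α γ M y b' = 1 := by
    rw [← h12]
    conv_rhs => rw [Finset.sum_comm]
    exact Finset.sum_congr rfl fun x _ => (hm2 x).symm
  have hkey : ∀ x ∈ I, ∀ v : ℝ, ah I α x * M x x * gh I γ x / Zm I α γ M ≤ v →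
      ¬ M x x < κ → mm I α γ x ≤ ρ / κ * v := by
    intro x _ v hv hx
    push Not at hx
    have hag : 0 ≤ ah I α x * gh I γ x := mul_nonneg (ha0 x) (hg0 x)
    have h1 : ah I α x * M x x * gh I γ x ≤ v * Zm I α γ M := (div_le_iff₀ hZm).1 hv
    have hv0 : 0 ≤ v := le_trans
      (div_nonneg (mul_nonneg (mul_nonneg (ha0 x) (hM x x)) (hg0 x)) hZm.le) hv
    have h2 : ah I α x * gh I γ x * κ ≤ ah I α x * gh I γ x * M x x :=
      mul_le_mul_of_nonneg_left hx hag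
    have h3 : v * Zm I α γ M ≤ v * (ρ * Zg I α γ) := mul_le_mul_of_nonneg_left hρ hv0
    unfold mm
    rw [div_mul_eq_mul_div, div_le_div_iff₀ hZ hκ]
    nlinarith
  have hB1 := InsM_cmp (I := I) (m := mm I α γ) (m1 := fun x => ∑ a' ∈ I, p1 I α γ M a' x)
    (q := fun x a => α a x / ah I α x) (p := fun x a => p1 I α γ M a x) hm0 hm10 hm11 hq0 hq1
    (by
      intro x hx a ha
      show p1 I α γ M a x = (∑ a' ∈ I, p1 I α γ M a' x) * (α a x / ah I α x)
      rw [← hm1]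
      unfold p1
      conv_lhs => rw [← hα' x hx a ha]
      rw [← Finset.sum_div]
      have e : ∑ y ∈ I, ah I α x * M x y * gh I γ y = ah I α x * ∑ y ∈ I, M x y * gh I γ y := by
        rw [Finset.mul_sum]
        exact Finset.sum_congr rfl fun y _ => by ring
      rw [e]
      ring)
    (fun x => M x x < κ) (div_nonneg hρ0.le hκ.le)
    (by
      intro x hx hP
      refine hkey x hx _ ?_ hP
      show ah I α x * M x x * gh I γ x / Zm I α γ M ≤ ∑ a' ∈ I, p1 I α γ M a' x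
      rw [← hm1]
      exact Finset.single_le_sum (f := fun y => ah I α x * M x y * gh I γ y / Zm I α γ M)
        (fun y hy => h120 x hx y hy) hx)
  have hB2 := InsM_cmp (I := I) (m := mm I α γ) (m1 := fun y => ∑ b' ∈ I, p2 I α γ M y b')
    (q := fun x b => γ x b / gh I γ x) (p := fun y b => p2 I α γ M y b) hm0 hm20 hm21 hr0 hr1
    (by
      intro y hy b hb
      show p2 I α γ M y b = (∑ b' ∈ I, p2 I α γ M y b') * (γ y b / gh I γ y)
      rw [← hm2]
      unfold p2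
      conv_lhs => rw [← hγ' y hy b hb]
      rw [← Finset.sum_div, ← Finset.sum_mul]
      ring)
    (fun x => M x x < κ) (div_nonneg hρ0.le hκ.le)
    (by
      intro y hy hP
      refine hkey y hy _ ?_ hP
      show ah I α y * M y y * gh I γ y / Zm I α γ M ≤ ∑ b' ∈ I, p2 I α γ M y b'
      rw [← hm2]
      exact Finset.single_le_sum (f := fun x => ah I α x * M x y * gh I γ y / Zm I α γ M)
        (fun x hx => h120 x hx y hy) hy)
  have e1 : N1 I α γ M = ∑ a ∈ I, ∑ x ∈ I, ∑ x' ∈ I,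
      |p1 I α γ M a x * (∑ a' ∈ I, p1 I α γ M a' x') -
        (∑ a' ∈ I, p1 I α γ M a' x) * p1 I α γ M a x'| := rfl
  have e2 : N2 I α γ M = ∑ b ∈ I, ∑ y ∈ I, ∑ y' ∈ I,
      |p2 I α γ M y b * (∑ b' ∈ I, p2 I α γ M y' b') -
        (∑ b' ∈ I, p2 I α γ M y b') * p2 I α γ M y' b| := rfl
  rw [e1, e2, mul_add]
  beta_reduce at hB1 hB2
  linarith [hB1, hB2]

end

end Pool.Agent.W_7d29a1_h47.KA
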