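import Pool.Agent.W_7d29a1_h47.InsM

/-!
# Finite algebra: the Kullback–Leibler bound
-/

namespace Pool.Agent.W_7d29a1_h47.KA

open Finset

noncomputable section

variable {ι : Type*} (I : Finset ι) (α γ M : ι → ι → ℝ)

/-- The quotient of the two window kernels. -/
def wq (a b : ι) : ℝ :=
  (∑ x ∈ I, ∑ y ∈ I, α a x * M x y * γ y b) / (∑ x ∈ I, α a x * γ x b)

variable {I α γ M}

/-- the diagonal part -/
lemma InsN_diag (hα : ∀ a x, 0 ≤ α a x) (hγ : ∀ x b, 0 ≤ γ x b) (hM : ∀ x y, 0 ≤ M x y) (a b : ι) :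
    ∑ x ∈ I, α a x * γ x b * M x x ≤ ∑ x ∈ I, ∑ y ∈ I, α a x * M x y * γ y b := by
  refine sum_le_sum fun x hx => ?_
  have h1 := single_le_sum (f := fun y => α a x * M x y * γ y b)
    (fun y _ => mul_nonneg (mul_nonneg (hα a x) (hM x y)) (hγ y b)) hx
  refine le_trans (le_of_eq ?_) h1
  ring

lemma InsN_diag_pos (hα : ∀ a x, 0 ≤ α a x) (hγ : ∀ x b, 0 ≤ γ x b) (hMd : ∀ x, 0 < M x x)
    {a b : ι} (hu : 0 < ∑ x ∈ I, α a x * γ x b) : 0 < ∑ x ∈ I, α a x * γ x b * M x x := by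
  have h0 : ∀ x ∈ I, 0 ≤ α a x * γ x b * M x x := fun x _ =>
    mul_nonneg (mul_nonneg (hα a x) (hγ x b)) (hMd x).le
  refine lt_of_le_of_ne (sum_nonneg h0) fun h => ?_
  have h1 := (sum_eq_zero_iff_of_nonneg h0).1 h.symm
  have h2 : ∑ x ∈ I, α a x * γ x b = 0 := sum_eq_zero fun x hx =>
    (mul_eq_zero.1 (h1 x hx)).resolve_right (hMd x).ne'
  exact hu.ne' h2

/-- `log x ≤ (1 - 1/x) (1 + log x)` for `x ≥ 1`, i.e. `1 + log x ≤ x`. -/
lemma log_le_mul {x : ℝ} (hx : 1 ≤ x) : Real.log x ≤ (1 - 1 / x) * (1 + Real.log x) := by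
  have hx0 : 0 < x := by linarith
  have h1 := Real.log_le_sub_one_of_pos hx0
  have h2 : (1 - 1 / x) * (1 + Real.log x) - Real.log x = (x - 1 - Real.log x) / x := by
    field_simp
    ring
  have h3 : 0 ≤ (x - 1 - Real.log x) / x := div_nonneg (by linarith) hx0.le
  linarith

/-- Jensen for the logarithm with the diagonal of `M`: if `u := ∑_x α a x γ x b > 0` then
`log (wq a b) ≥ - (∑_x α a x γ x b ℓ x) / u`. Proof. `wq a b ≥ ∑_x (α a x γ x b / u) M x x` and concavity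
of `log` (or `log y ≥ ∑ p_x log M x x` for `y = ∑ p_x M x x`), `log (M x x) ≥ - ℓ x`. -/
lemma log_wq_ge (hα : ∀ a x, 0 ≤ α a x) (hγ : ∀ x b, 0 ≤ γ x b) (hM : ∀ x y, 0 ≤ M x y)
    (hMd : ∀ x, 0 < M x x) {ℓ : ι → ℝ} (hℓ : ∀ x, |Real.log (M x x)| ≤ ℓ x) {a b : ι}
    (hu : 0 < ∑ x ∈ I, α a x * γ x b) :
    -((∑ x ∈ I, α a x * γ x b * ℓ x) / (∑ x ∈ I, α a x * γ x b)) ≤ Real.log (wq I α γ M a b) := by
  set u : ℝ := ∑ x ∈ I, α a x * γ x b with hu'
  have hS := InsN_diag_pos (M := M) hα hγ hMd hu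
  set T : ℝ := ∑ x ∈ I, α a x * γ x b * M x x with hT
  have hS0 : 0 < T / u := div_pos hS hu
  have h1 : T / u ≤ wq I α γ M a b := by
    unfold wq
    exact div_le_div_of_nonneg_right (InsN_diag hα hγ hM a b) hu.le
  have h2 : Real.log (T / u) ≤ Real.log (wq I α γ M a b) := Real.log_le_log hS0 h1
  have h3 : ∀ x ∈ I, α a x * γ x b * -ℓ x ≤
      α a x * γ x b * (Real.log (T / u) - 1) + α a x * γ x b * M x x / (T / u) := by
    intro x _
    have h4 := Real.log_le_sub_one_of_pos (div_pos (hMd x) hS0)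
    rw [Real.log_div (hMd x).ne' hS0.ne'] at h4
    have h5 : -ℓ x ≤ Real.log (M x x) := (abs_le.1 (hℓ x)).1
    have h6 : -ℓ x ≤ (Real.log (T / u) - 1) + M x x / (T / u) := by linarith
    have h7 := mul_le_mul_of_nonneg_left h6 (mul_nonneg (hα a x) (hγ x b))
    refine h7.trans (le_of_eq ?_)
    ring
  have h8 := sum_le_sum h3
  rw [sum_add_distrib, ← sum_mul, ← sum_div, ← hu', ← hT] at h8
  have h9 : ∑ x ∈ I, α a x * γ x b * -ℓ x = -∑ x ∈ I, α a x * γ x b * ℓ x := by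
    rw [← sum_neg_distrib]
    exact sum_congr rfl fun x _ => by ring
  have h10 : T / (T / u) = u := by field_simp
  rw [h9, h10] at h8
  refine le_trans ?_ h2
  rw [← neg_div, div_le_iff₀ hu]
  linarith

/-- **Kullback–Leibler bound.** Proof. For `a, b ∈ I` with `mu a b > 0`: `mu' a b > 0` and
`mu a b / mu' a b = (Zm/Zg) / wq a b`, so the left side is `∑_{a,b} mu log (mu / mu')` (`sum_mu`),
where terms with `mu a b = 0` are dropped. Terms with `mu a b ≤ mu' a b` are `≤ 0`; for the others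
`log_le_mul` with `x = mu/mu'` gives `mu log (mu/mu') ≤ (mu - mu')⁺ (1 + log (Zm/Zg) - log wq)
≤ (mu - mu')⁺ (1 + (log (Zm/Zg))⁺ + ℓ̄)`, with `mu a b ℓ̄ a b = (∑_x α a x γ x b ℓ x)/Zg` (`log_wq_ge`).
Put `TV = ∑ (mu - mu')⁺ ≤ min 1 (∑ |mu - mu'|)`. Next `ℓ̄ ≤ L0 + (average of (ℓ - L0)⁺)` and
`(mu - mu')⁺ ≤ mu`, so `∑ (mu - mu')⁺ ℓ̄ ≤ L0 TV + ∑_x mm x (ℓ x - L0)⁺` (`∑_{a,b} α a x γ x b / Zg = mm x`).
`TV (log (Zm/Zg))⁺ ≤ Y TV + X ind (Y ≤ X)` and `TV ≤ B + ind (Y ≤ X)` (if `log (Zm/Zg) > Y` then `Y ≤ X`).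
Altogether `≤ (1 + L0 + Y)(B + ind (Y ≤ X)) + X ind (Y ≤ X) + ∑_x mm x (ℓ x - L0)⁺`, and
`(1 + L0 + Y) ind (Y ≤ X) ≤ (2 + L0) X ind (Y ≤ X)` because `Y ≥ 1`. -/
theorem kl_abs (hα : ∀ a x, 0 ≤ α a x) (hγ : ∀ x b, 0 ≤ γ x b) (hM : ∀ x y, 0 ≤ M x y)
    (hMd : ∀ x, 0 < M x x) (hZ : 0 < Zg I α γ) {ℓ : ι → ℝ} (hℓ : ∀ x, |Real.log (M x x)| ≤ ℓ x)
    {L0 X Y B : ℝ} (hL0 : 0 ≤ L0) (hX : 0 ≤ X) (hXρ : Real.log (Zm I α γ M / Zg I α γ) ≤ X)
    (hY : 1 ≤ Y) (hB0 : 0 ≤ B)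
    (hB : Real.log (Zm I α γ M / Zg I α γ) ≤ Y →
      ∑ a ∈ I, ∑ b ∈ I, |mu I α γ a b - mu' I α γ M a b| ≤ B) :
    Real.log (Zm I α γ M / Zg I α γ) -
        ∑ a ∈ I, ∑ b ∈ I, mu I α γ a b * Real.log (wq I α γ M a b) ≤
      (1 + L0 + Y) * B + (3 + L0) * (if Y ≤ X then X else 0) +
        ∑ x ∈ I, mm I α γ x * max (ℓ x - L0) 0 := by
  have hZm : 0 < Zm I α γ M := Zm_pos hα hγ hM hMd hZ
  set R := Real.log (Zm I α γ M / Zg I α γ) with hR
  obtain ⟨P, hP⟩ : ∃ P : ι → ι → ℝ, ∀ a b, P a b = max (mu I α γ a b - mu' I α γ M a b) 0 :=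
    ⟨_, fun _ _ => rfl⟩
  have hu0 : ∀ a b, 0 ≤ ∑ x ∈ I, α a x * γ x b := fun a b =>
    sum_nonneg fun x _ => mul_nonneg (hα a x) (hγ x b)
  have hmu0 : ∀ a b, 0 ≤ mu I α γ a b := fun a b => div_nonneg (hu0 a b) hZ.le
  have hmu'0 : ∀ a b, 0 ≤ mu' I α γ M a b := fun a b => div_nonneg (sum_nonneg fun x _ =>
    sum_nonneg fun y _ => mul_nonneg (mul_nonneg (hα a x) (hM x y)) (hγ y b)) hZm.le
  have hP0 : ∀ a b, 0 ≤ P a b := fun a b => by
    rw [hP]
    exact le_max_right _ _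
  have hPmu : ∀ a b, P a b ≤ mu I α γ a b := fun a b => by
    rw [hP]
    exact max_le (by linarith [hmu'0 a b]) (hmu0 a b)
  have hPabs : ∀ a b, P a b ≤ |mu I α γ a b - mu' I α γ M a b| := fun a b => by
    rw [hP]
    exact max_le (le_abs_self _) (abs_nonneg _)
  have hRp : 0 ≤ max R 0 := le_max_right _ _
  have key : ∀ a ∈ I, ∀ b ∈ I, mu I α γ a b * (R - Real.log (wq I α γ M a b)) ≤
      P a b * (1 + max R 0 + L0) +
        (∑ x ∈ I, α a x * γ x b * max (ℓ x - L0) 0) / Zg I α γ := by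
    intro a _ b _
    have he0 : 0 ≤ ∑ x ∈ I, α a x * γ x b * max (ℓ x - L0) 0 := sum_nonneg fun x _ =>
      mul_nonneg (mul_nonneg (hα a x) (hγ x b)) (le_max_right _ _)
    have he1 := div_nonneg he0 hZ.le
    have hr0 : 0 ≤ P a b * (1 + max R 0 + L0) := mul_nonneg (hP0 a b) (by linarith)
    rcases eq_or_lt_of_le (hu0 a b) with hu | hu
    · have h1 : mu I α γ a b = 0 := by
        unfold mu
        rw [← hu, zero_div]
      rw [h1, zero_mul]
      linarith
    · have hlog := log_wq_ge hα hγ hM hMd hℓ hu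
      have hmu : 0 < mu I α γ a b := div_pos hu hZ
      have hv : 0 < ∑ x ∈ I, ∑ y ∈ I, α a x * M x y * γ y b :=
        (InsN_diag_pos hα hγ hMd hu).trans_le (InsN_diag hα hγ hM a b)
      have hmu' : 0 < mu' I α γ M a b := div_pos hv hZm
      have hwq : 0 < wq I α γ M a b := div_pos hv hu
      have hlq : Real.log (mu I α γ a b / mu' I α γ M a b) =
          R - Real.log (wq I α γ M a b) := by
        rw [hR, ← Real.log_div (div_pos hZm hZ).ne' hwq.ne']
        congr 1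
        unfold mu mu' wq
        field_simp
      rw [← hlq]
      rcases le_or_gt (mu I α γ a b) (mu' I α γ M a b) with hc | hc
      · have h1 : Real.log (mu I α γ a b / mu' I α γ M a b) ≤ 0 :=
          Real.log_nonpos (by positivity) ((div_le_one hmu').2 hc)
        have h2 : mu I α γ a b * Real.log (mu I α γ a b / mu' I α γ M a b) ≤ 0 :=
          mul_nonpos_of_nonneg_of_nonpos hmu.le h1
        linarith
      · have h1 : 1 ≤ mu I α γ a b / mu' I α γ M a b := (one_le_div hmu').2 hc.le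
        have h2 := log_le_mul h1
        have hPe : P a b = mu I α γ a b - mu' I α γ M a b := by
          rw [hP]
          exact max_eq_left (by linarith)
        have h3 : mu I α γ a b * ((1 - 1 / (mu I α γ a b / mu' I α γ M a b)) *
            (1 + Real.log (mu I α γ a b / mu' I α γ M a b))) =
            P a b * (1 + Real.log (mu I α γ a b / mu' I α γ M a b)) := by
          rw [hPe]
          field_simp
        have h4 := mul_le_mul_of_nonneg_left h2 hmu.le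
        rw [h3] at h4
        refine h4.trans ?_
        rw [hlq]
        set u : ℝ := ∑ x ∈ I, α a x * γ x b with hu'
        have h5 : (∑ x ∈ I, α a x * γ x b * ℓ x) / u ≤
            L0 + (∑ x ∈ I, α a x * γ x b * max (ℓ x - L0) 0) / u := by
          rw [div_le_iff₀ hu, add_mul, div_mul_cancel₀ _ hu.ne', hu', mul_sum, ← sum_add_distrib]
          refine sum_le_sum fun x _ => ?_
          have h6 : ℓ x ≤ L0 + max (ℓ x - L0) 0 := by
            have := le_max_left (ℓ x - L0) 0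
            linarith
          have h7 := mul_le_mul_of_nonneg_left h6 (mul_nonneg (hα a x) (hγ x b))
          refine h7.trans (le_of_eq ?_)
          ring
        have h8 : 1 + (R - Real.log (wq I α γ M a b)) ≤ (1 + max R 0 + L0) +
            (∑ x ∈ I, α a x * γ x b * max (ℓ x - L0) 0) / u := by
          have := le_max_left R 0
          linarith
        have h9 := mul_le_mul_of_nonneg_left h8 (hP0 a b)
        rw [mul_add] at h9
        have h10 : P a b * ((∑ x ∈ I, α a x * γ x b * max (ℓ x - L0) 0) / u) ≤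
            mu I α γ a b * ((∑ x ∈ I, α a x * γ x b * max (ℓ x - L0) 0) / u) :=
          mul_le_mul_of_nonneg_right (hPmu a b) (by positivity)
        have h11 : mu I α γ a b * ((∑ x ∈ I, α a x * γ x b * max (ℓ x - L0) 0) / u) =
            (∑ x ∈ I, α a x * γ x b * max (ℓ x - L0) 0) / Zg I α γ := by
          have h12 : mu I α γ a b = u / Zg I α γ := rfl
          rw [h12]
          field_simp
        linarith
  -- summation
  have hL : R - ∑ a ∈ I, ∑ b ∈ I, mu I α γ a b * Real.log (wq I α γ M a b) =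
      ∑ a ∈ I, ∑ b ∈ I, mu I α γ a b * (R - Real.log (wq I α γ M a b)) := by
    have h1 : R - ∑ a ∈ I, ∑ b ∈ I, mu I α γ a b * Real.log (wq I α γ M a b) =
        R * (∑ a ∈ I, ∑ b ∈ I, mu I α γ a b) -
          ∑ a ∈ I, ∑ b ∈ I, mu I α γ a b * Real.log (wq I α γ M a b) := by
      rw [sum_mu hZ, mul_one]
    rw [h1, mul_sum, ← sum_sub_distrib]
    refine sum_congr rfl fun a _ => ?_
    rw [mul_sum, ← sum_sub_distrib]
    exact sum_congr rfl fun b _ => by ring
  have hsum := sum_le_sum fun a ha => sum_le_sum fun b hb => key a ha b hb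
  rw [← hL] at hsum
  have hmm : ∑ a ∈ I, ∑ b ∈ I, (∑ x ∈ I, α a x * γ x b * max (ℓ x - L0) 0) / Zg I α γ =
      ∑ x ∈ I, mm I α γ x * max (ℓ x - L0) 0 := by
    have h1 : ∀ x ∈ I, mm I α γ x * max (ℓ x - L0) 0 =
        ∑ a ∈ I, ∑ b ∈ I, α a x * γ x b * max (ℓ x - L0) 0 / Zg I α γ := by
      intro x _
      unfold mm ah gh
      rw [sum_mul_sum, sum_div, sum_mul]
      refine sum_congr rfl fun a _ => ?_
      rw [sum_div, sum_mul]
      exact sum_congr rfl fun b _ => by ring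
    rw [sum_congr rfl h1]
    symm
    rw [sum_comm]
    refine sum_congr rfl fun a _ => ?_
    rw [sum_comm]
    refine sum_congr rfl fun b _ => ?_
    rw [sum_div]
  set TV : ℝ := ∑ a ∈ I, ∑ b ∈ I, P a b with hTV
  have hsplit : ∑ a ∈ I, ∑ b ∈ I, (P a b * (1 + max R 0 + L0) +
      (∑ x ∈ I, α a x * γ x b * max (ℓ x - L0) 0) / Zg I α γ) =
      TV * (1 + max R 0 + L0) + ∑ x ∈ I, mm I α γ x * max (ℓ x - L0) 0 := by
    rw [← hmm, hTV, sum_mul, ← sum_add_distrib]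
    refine sum_congr rfl fun a _ => ?_
    rw [sum_mul, ← sum_add_distrib]
  rw [hsplit] at hsum
  have hTV0 : 0 ≤ TV := sum_nonneg fun a _ => sum_nonneg fun b _ => hP0 a b
  have hTV1 : TV ≤ 1 := by
    rw [← sum_mu hZ]
    exact sum_le_sum fun a _ => sum_le_sum fun b _ => hPmu a b
  have hfin : TV * (1 + max R 0 + L0) ≤
      (1 + L0 + Y) * B + (3 + L0) * (if Y ≤ X then X else 0) := by
    rcases le_or_gt R Y with hc | hc
    · have h1 : TV ≤ B := (sum_le_sum fun a _ => sum_le_sum fun b _ => hPabs a b).trans (hB hc)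
      have h2 : max R 0 ≤ Y := max_le hc (by linarith)
      have h3 : TV * (1 + max R 0 + L0) ≤ B * (1 + Y + L0) :=
        mul_le_mul h1 (by linarith) (by linarith) hB0
      have h4 : 0 ≤ (3 + L0) * (if Y ≤ X then X else 0) := by
        refine mul_nonneg (by linarith) ?_
        split_ifs
        · exact hX
        · exact le_rfl
      linarith
    · have h1 : Y ≤ X := hc.le.trans hXρ
      rw [if_pos h1]
      have h2 : max R 0 ≤ X := max_le hXρ hX
      have h3 : TV * (1 + max R 0 + L0) ≤ 1 * (1 + X + L0) :=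
        mul_le_mul hTV1 (by linarith) (by linarith) zero_le_one
      have h4 : 0 ≤ (1 + L0 + Y) * B := mul_nonneg (by linarith) hB0
      have h5 : 1 ≤ X := hY.trans h1
      nlinarith
  linarith

end

end Pool.Agent.W_7d29a1_h47.KA
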