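import Pool.Agent.W_7d29a1_h47.SiteK

/-!
# Localization: response inequality for one row
-/

namespace Pool.Agent.W_7d29a1_h47

open MeasureTheory ProbabilityTheory Finset

noncomputable section

variable {μ : Measure ℝ} [IsProbabilityMeasure μ]

/-- Auxiliary: a sum over a row against the indicator of the position. -/
lemma LocC_sum {n k : ℕ} (hk : k < n) {Y : ℕ} (hY : n ≤ Y) (s : ℕ → Bool) (f : ℤ → ℝ) :
    ∑ y ∈ Icc (-(Y : ℤ)) Y, ind (pos s (k + 1) = y) * f y = f (pos s (k + 1)) := by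
  have hmem : pos s (k + 1) ∈ Icc (-(Y : ℤ)) Y := by
    have h1 := pos_abs_le s (k + 1)
    rw [abs_le] at h1
    rw [Finset.mem_Icc]
    omega
  rw [Finset.sum_eq_single (pos s (k + 1))]
  · rw [ind_true rfl, one_mul]
  · intro y _ hy
    rw [ind_false fun h => hy h.symm, zero_mul]
  · exact fun h => absurd hmem h

-- The three terms of the response inequality in the form of joint averages.
omit [IsProbabilityMeasure μ] in
lemma LocC_term1 (h : ℝ) {n k : ℕ} (y : ℤ) (A : (ℕ → Bool) → Prop) :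
    EA2 μ h n (fun _ s r => ind (pos s (k + 1) = y) * ind (¬ A r)) =
      ∫ g : Env, (Av g h 0 0 n fun s => ind (pos s (k + 1) = y)) *
          (Av g h 0 0 n fun s => ind (¬ A s)) ∂(law μ) := by
  unfold EA2 Av2
  congr 1
  funext g
  rw [← Av_mul_right]
  refine Av_congr fun s _ => ?_
  rw [← Av_mul_left]

omit [IsProbabilityMeasure μ] in
lemma LocC_term2 (h : ℝ) {n k : ℕ} (y : ℤ) (A : (ℕ → Bool) → Prop) :
    EA μ h n (fun g s => Real.exp |g (k, y)| * ind (pos s (k + 1) = y ∧ ¬ A s)) =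
      ∫ g : Env, Real.exp |g (k, y)| *
          (Av g h 0 0 n fun s => ind (pos s (k + 1) = y ∧ ¬ A s)) ∂(law μ) := by
  unfold EA
  congr 1
  funext g
  rw [← Av_mul_left]

omit [IsProbabilityMeasure μ] in
lemma LocC_term3 (h p q : ℝ) {n k : ℕ} (y : ℤ) (A : (ℕ → Bool) → Prop) :
    EA μ h n (fun g s => ind (A s) * (phi p q (g (k, y)) - ∫ u, phi p q u ∂μ)) =
      ∫ g : Env, (phi p q (g (k, y)) - ∫ u, phi p q u ∂μ) *
        (Av g h 0 0 n fun s => ind (A s)) ∂(law μ) := by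
  unfold EA
  congr 1
  funext g
  rw [← Av_mul_left]
  refine Av_congr fun s _ => ?_
  ring

/-- One row of a tube with a path dependent centre `ctr s`. Proof. Apply `response` with `i = k`, each
`y ∈ Icc (-Y) Y` and `A = {s | |y - ctr s| ≤ w}`, and sum over `y`; `|pos s (k+1)| ≤ n ≤ Y`, so
`∑_y ind (pos s (k+1) = y) f y = f (pos s (k+1))`:
`∑_y Av (ind (pos s (k+1) = y)) Av (r ↦ ind ¬(|y - ctr r| ≤ w)) = Av2 (ind ¬(|pos s (k+1) - ctr r| ≤ w))`. -/
theorem row_response (hμ : EM μ) {p q : ℝ} (hpq : p < q) (h : ℝ) {n k : ℕ} (hk : k < n)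
    (ctr : (ℕ → Bool) → ℝ) (w : ℝ) {Y : ℕ} (hY : n ≤ Y) :
    kmin μ p q * EA2 μ h n (fun _ s r => ind (w < |(pos s (k + 1) : ℝ) - ctr r|)) -
        Mom μ 1 * EA μ h n (fun g s => Real.exp |g (k, pos s (k + 1))| *
          ind (w < |(pos s (k + 1) : ℝ) - ctr s|)) ≤
      EA μ h n (fun g s => ∑ y ∈ Icc (-(Y : ℤ)) Y,
        ind (|(y : ℝ) - ctr s| ≤ w) * (phi p q (g (k, y)) - ∫ u, phi p q u ∂μ)) := by
  set A : ℤ → (ℕ → Bool) → Prop := fun y s => |(y : ℝ) - ctr s| ≤ w with hA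
  have hAn : ∀ (y : ℤ) (s : ℕ → Bool), (¬ A y s) ↔ w < |(y : ℝ) - ctr s| := fun y s => not_le
  have pphi : ∀ y : ℤ, PMom (law μ) (fun g : Env => phi p q (g (k, y)) - ∫ u, phi p q u ∂μ) :=
    fun y => (PMom.of_bounded (c := 1) ((SiteG_phi_meas p q).comp (measurable_pi_apply _))
      fun g => by
        simp only [Function.comp]
        rw [abs_of_nonneg (SiteG_phi_nonneg _ _ _)]
        exact SiteG_phi_le _ _ _).sub (PMom.const _)
  -- the right side
  have e3 : EA μ h n (fun g s => ∑ y ∈ Icc (-(Y : ℤ)) Y,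
        ind (|(y : ℝ) - ctr s| ≤ w) * (phi p q (g (k, y)) - ∫ u, phi p q u ∂μ)) =
      ∑ y ∈ Icc (-(Y : ℤ)) Y, ∫ g : Env, (phi p q (g (k, y)) - ∫ u, phi p q u ∂μ) *
        (Av g h 0 0 n fun s => ind (A y s)) ∂(law μ) := by
    rw [EA_sum]
    · exact Finset.sum_congr rfl fun y _ => LocC_term3 h p q y (A y)
    · exact fun y _ s _ => (pphi y).const_mul _
  -- the first term
  have e1 : EA2 μ h n (fun _ s r => ind (w < |(pos s (k + 1) : ℝ) - ctr r|)) =
      ∑ y ∈ Icc (-(Y : ℤ)) Y, ∫ g : Env, (Av g h 0 0 n fun s => ind (pos s (k + 1) = y)) *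
          (Av g h 0 0 n fun s => ind (¬ A y s)) ∂(law μ) := by
    have e : (fun (_ : Env) (s r : ℕ → Bool) => ind (w < |(pos s (k + 1) : ℝ) - ctr r|)) =
        fun (_ : Env) (s r : ℕ → Bool) => ∑ y ∈ Icc (-(Y : ℤ)) Y,
          ind (pos s (k + 1) = y) * ind (¬ A y r) := by
      funext _ s r
      rw [LocC_sum hk hY s fun y => ind (¬ A y r)]
      exact ind_congr (hAn _ _).symm
    rw [e, EA2_sum]
    · exact Finset.sum_congr rfl fun y _ => LocC_term1 h y (A y)
    · exact fun y _ => PF2.det _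
  -- the second term
  have e2 : EA μ h n (fun g s => Real.exp |g (k, pos s (k + 1))| *
          ind (w < |(pos s (k + 1) : ℝ) - ctr s|)) =
      ∑ y ∈ Icc (-(Y : ℤ)) Y, ∫ g : Env, Real.exp |g (k, y)| *
          (Av g h 0 0 n fun s => ind (pos s (k + 1) = y ∧ ¬ A y s)) ∂(law μ) := by
    have e : (fun (g : Env) (s : ℕ → Bool) => Real.exp |g (k, pos s (k + 1))| *
          ind (w < |(pos s (k + 1) : ℝ) - ctr s|)) =
        fun (g : Env) (s : ℕ → Bool) => ∑ y ∈ Icc (-(Y : ℤ)) Y,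
          Real.exp |g (k, y)| * ind (pos s (k + 1) = y ∧ ¬ A y s) := by
      funext g s
      have h1 : ∀ y : ℤ, Real.exp |g (k, y)| * ind (pos s (k + 1) = y ∧ ¬ A y s) =
          ind (pos s (k + 1) = y) * (Real.exp |g (k, y)| * ind (¬ A y s)) := by
        intro y
        rw [ind_and]
        ring
      simp only [h1]
      rw [LocC_sum hk hY s fun y => Real.exp |g (k, y)| * ind (¬ A y s)]
      congr 1
      exact ind_congr (hAn _ _).symm
    rw [e, EA_sum]
    · exact Finset.sum_congr rfl fun y _ => LocC_term2 h y (A y)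
    · exact fun y _ s _ => (((EMom_coord hμ (k, y)).abs).exp').mul (PMom.const _)
  rw [e1, e2, e3, Finset.mul_sum, Finset.mul_sum, ← Finset.sum_sub_distrib]
  exact Finset.sum_le_sum fun y _ => response hμ hpq h hk y (A y)

end

end Pool.Agent.W_7d29a1_h47
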