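import Pool.Agent.W_7d29a1_h47.LocB
import Pool.Agent.W_7d29a1_h47.LocC

/-!
# Full density path localization
-/

namespace Pool.Agent.W_7d29a1_h47

open MeasureTheory ProbabilityTheory Finset

noncomputable section

variable {μ : Measure ℝ} [IsProbabilityMeasure μ]

lemma Loc_sum_range (f : ℕ → ℝ) (T : ℕ) : ∀ N : ℕ,
    ∑ k ∈ range (N * T), f k = ∑ j ∈ range N, ∑ u ∈ range T, f (j * T + u)
  | 0 => by simp
  | N + 1 => by
      rw [Nat.succ_mul, Finset.sum_range_add, Loc_sum_range f T N, Finset.sum_range_succ]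

omit [IsProbabilityMeasure μ] in
lemma Loc_Mom_nonneg (b : ℝ) : 0 ≤ Mom μ b :=
  integral_nonneg fun _ => (Real.exp_pos _).le

lemma Loc_kmin_nonneg {p q : ℝ} (hpq : p < q) : 0 ≤ kmin μ p q := by
  unfold kmin
  have h1 : Real.exp (-((q - p) / 2)) ≤ 1 := by
    rw [Real.exp_le_one_iff]
    linarith
  have h2 : 0 ≤ min (μ.real (Set.Iic p)) (μ.real (Set.Ici q)) :=
    le_min measureReal_nonneg measureReal_nonneg
  exact mul_nonneg (mul_nonneg (by norm_num) (by linarith)) h2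

/-- The centred function. -/
def Loc_phi (μ : Measure ℝ) (p q : ℝ) (u : ℝ) : ℝ := phi p q u - ∫ v, phi p q v ∂μ

omit [IsProbabilityMeasure μ] in
lemma Loc_phi_meas (p q : ℝ) : Measurable (Loc_phi μ p q) :=
  (SiteK_phi_meas p q).sub measurable_const

lemma Loc_phi_int (p q : ℝ) : Integrable (phi p q) μ :=
  Integrable.of_bound (SiteK_phi_meas p q).aestronglyMeasurable 1
    (Filter.Eventually.of_forall fun u => by
      rw [Real.norm_eq_abs]
      exact SiteK_phi_abs p q u)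

lemma Loc_phi_abs (p q u : ℝ) : |Loc_phi μ p q u| ≤ 1 := by
  have h0 : 0 ≤ ∫ v, phi p q v ∂μ := integral_nonneg fun v => SiteK_phi_nonneg p q v
  have h1 : ∫ v, phi p q v ∂μ ≤ 1 := by
    calc ∫ v, phi p q v ∂μ ≤ ∫ _, (1 : ℝ) ∂μ :=
          integral_mono (Loc_phi_int p q) (integrable_const _) fun v => SiteK_phi_le p q v
      _ = 1 := by simp
  have h2 := SiteK_phi_nonneg p q u
  have h3 := SiteK_phi_le p q u
  unfold Loc_phi
  rw [abs_le]
  constructor <;> linarith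

lemma Loc_phi_zero (p q : ℝ) : ∫ u, Loc_phi μ p q u ∂μ = 0 := by
  unfold Loc_phi
  rw [integral_sub (Loc_phi_int p q) (integrable_const _)]
  simp

/-- The noise bound for `exp (2 |g|)`. -/
lemma Loc_noise (hμ : EM μ) (h : ℝ) (n k : ℕ) (χ : (ℕ → Bool) → ℤ) :
    EA μ h n (fun g s => Real.exp (2 * |g (k, χ s)|)) ≤ CN μ (fun u => Real.exp (2 * |u|)) := by
  refine noise (Ψ := fun u => Real.exp (2 * |u|)) hμ (by fun_prop) (fun u => (Real.exp_pos _).le)
    (fun p => ((EMom_coord hμ p).abs).exp_pmom 2) ?_ h n k χ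
  have h3 := hμ 3
  refine h3.congr (Filter.Eventually.of_forall fun u => ?_)
  simp only
  rw [← Real.exp_add]
  congr 1
  ring

/-- One row. -/
lemma Loc_row (hμ : EM μ) {p q : ℝ} (hpq : p < q) (h : ℝ) {m : ℕ} (hm : 1 ≤ m) (i : ℕ) {n : ℕ}
    {j u : ℕ} (hu : u < (4 * m) ^ (i + 1)) (hk : j * (4 * m) ^ (i + 1) + u < n) {e : ℝ}
    (he : 0 < e) :
    kmin μ p q * EA2 μ h n (fun _ s r => ind (16 * (4 * (m : ℝ)) ^ i <
        |(pos s (j * (4 * m) ^ (i + 1) + u + 1) : ℝ) - pos r (j * (4 * m) ^ (i + 1) + u + 1)|)) ≤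
      EA μ h n (fun g s => ∑ y ∈ Icc (-(n : ℤ)) n,
        ind (|(y : ℝ) - chd (4 * (4 * m) ^ i) ((4 * m) ^ (i + 1))
          (cc (4 * (4 * m) ^ i) ((4 * m) ^ (i + 1)) j s)
          (cc (4 * (4 * m) ^ i) ((4 * m) ^ (i + 1)) (j + 1) s) (u + 1)| ≤
            2 * ((4 * (4 * m) ^ i : ℕ) : ℝ)) *
          Loc_phi μ p q (g (j * (4 * m) ^ (i + 1) + u, y))) +
        Mom μ 1 * (e / 2) * CN μ (fun u => Real.exp (2 * |u|)) +
        (kmin μ p q + Mom μ 1 / (2 * e)) * EA μ h n (fun _ s => ind (badb (4 * m) i s j)) := by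
  set T : ℕ := (4 * m) ^ (i + 1) with hT
  set w : ℕ := 4 * (4 * m) ^ i with hw
  set k : ℕ := j * T + u with hk'
  set ctr : (ℕ → Bool) → ℝ := fun s => chd w T (cc w T j s) (cc w T (j + 1) s) (u + 1) with hctr
  have hM : 1 ≤ 4 * m := by omega
  have hr := row_response hμ hpq h hk ctr (2 * (w : ℝ)) (Y := n) le_rfl
  have hwr : (w : ℝ) = 4 * (4 * (m : ℝ)) ^ i := by
    rw [hw]
    push_cast
    ring
  have hk0 := Loc_kmin_nonneg (μ := μ) hpq
  have hM0 := Loc_Mom_nonneg (μ := μ) 1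
  -- the walk leaves the tube only in bad blocks
  have htube : ∀ s : ℕ → Bool, 2 * (w : ℝ) < |(pos s (k + 1) : ℝ) - ctr s| → badb (4 * m) i s j := by
    intro s hs
    by_contra hb
    have h1 := in_tube hM i j hb (u := u + 1) (by omega)
    have h2 : (pos s (j * (4 * m) ^ (i + 1) + (u + 1)) : ℝ) = (pos s (k + 1) : ℝ) := by
      rw [hk', hT, add_assoc]
    rw [h2] at h1
    push_cast at h1
    rw [hctr] at hs
    simp only at hs
    rw [hwr] at hs
    linarith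
  have hind : ∀ s : ℕ → Bool, ind (2 * (w : ℝ) < |(pos s (k + 1) : ℝ) - ctr s|) ≤
      ind (badb (4 * m) i s j) := fun s => ind_mono (htube s)
  have pfb : PF μ n (fun (_ : Env) s => ind (badb (4 * m) i s j)) := PF.det _
  have pfe : PF μ n (fun g s => Real.exp (2 * |g (k, pos s (k + 1))|)) := fun s _ =>
    ((EMom_coord hμ (k, pos s (k + 1))).abs).exp_pmom 2
  have pfe1 : PF μ n (fun g s => Real.exp |g (k, pos s (k + 1))| *
      ind (2 * (w : ℝ) < |(pos s (k + 1) : ℝ) - ctr s|)) := fun s _ =>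
    (((EMom_coord hμ (k, pos s (k + 1))).abs).exp').mul (PMom.const _)
  -- the second term
  have hB : EA μ h n (fun g s => Real.exp |g (k, pos s (k + 1))| *
      ind (2 * (w : ℝ) < |(pos s (k + 1) : ℝ) - ctr s|)) ≤
      e / 2 * CN μ (fun u => Real.exp (2 * |u|)) +
        1 / (2 * e) * EA μ h n (fun _ s => ind (badb (4 * m) i s j)) := by
    have h1 : EA μ h n (fun g s => Real.exp |g (k, pos s (k + 1))| *
        ind (2 * (w : ℝ) < |(pos s (k + 1) : ℝ) - ctr s|)) ≤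
        EA μ h n (fun g s => e / 2 * Real.exp (2 * |g (k, pos s (k + 1))|) +
          1 / (2 * e) * ind (badb (4 * m) i s j)) := by
      refine EA_mono pfe1 ((pfe.const_mul _).add (pfb.const_mul _)) fun g s _ => ?_
      set x := Real.exp |g (k, pos s (k + 1))| with hx
      have hx2 : Real.exp (2 * |g (k, pos s (k + 1))|) = x ^ 2 := by
        rw [hx, ← Real.exp_nat_mul]
        norm_num
      rw [hx2]
      have hx0 : 0 < x := Real.exp_pos _
      by_cases hP : 2 * (w : ℝ) < |(pos s (k + 1) : ℝ) - ctr s|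
      · rw [ind_true hP, ind_true (htube s hP), mul_one, mul_one]
        have h2 : e / 2 * x ^ 2 + 1 / (2 * e) - x = (e * x - 1) ^ 2 / (2 * e) := by
          field_simp
          ring
        have h3 : 0 ≤ (e * x - 1) ^ 2 / (2 * e) := by positivity
        linarith
      · rw [ind_false hP, mul_zero]
        have h4 := ind_nonneg (badb (4 * m) i s j)
        positivity
    refine h1.trans ?_
    rw [EA_add (pfe.const_mul _) (pfb.const_mul _), EA_const_mul, EA_const_mul]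
    have h5 := Loc_noise hμ h n k fun s => pos s (k + 1)
    have h6 : 0 ≤ e / 2 := by positivity
    exact add_le_add (mul_le_mul_of_nonneg_left h5 h6) le_rfl
  -- the first term
  have hA : EA2 μ h n (fun _ s r => ind (16 * (4 * (m : ℝ)) ^ i <
        |(pos s (k + 1) : ℝ) - pos r (k + 1)|)) ≤
      EA2 μ h n (fun _ s r => ind (2 * (w : ℝ) < |(pos s (k + 1) : ℝ) - ctr r|)) +
        EA μ h n (fun _ s => ind (badb (4 * m) i s j)) := by
    have h1 : EA2 μ h n (fun _ s r => ind (16 * (4 * (m : ℝ)) ^ i <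
        |(pos s (k + 1) : ℝ) - pos r (k + 1)|)) ≤
        EA2 μ h n (fun _ s r => ind (2 * (w : ℝ) < |(pos s (k + 1) : ℝ) - ctr r|) +
          ind (badb (4 * m) i r j)) := by
      refine EA2_mono (PF2.det _) (PF2.det _) fun g s _ r _ => ?_
      by_cases hP : 16 * (4 * (m : ℝ)) ^ i < |(pos s (k + 1) : ℝ) - pos r (k + 1)|
      · rw [ind_true hP]
        by_cases hQ : 2 * (w : ℝ) < |(pos s (k + 1) : ℝ) - ctr r|
        · rw [ind_true hQ]
          linarith [ind_nonneg (badb (4 * m) i r j)]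
        · have hR : 2 * (w : ℝ) < |(pos r (k + 1) : ℝ) - ctr r| := by
            push Not at hQ
            by_contra hcon
            push Not at hcon
            have h2 : |(pos s (k + 1) : ℝ) - pos r (k + 1)| ≤
                |(pos s (k + 1) : ℝ) - ctr r| + |(pos r (k + 1) : ℝ) - ctr r| := by
              have h3 := abs_sub ((pos s (k + 1) : ℝ) - ctr r) ((pos r (k + 1) : ℝ) - ctr r)
              have h4 : (pos s (k + 1) : ℝ) - ctr r - ((pos r (k + 1) : ℝ) - ctr r) =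
                  (pos s (k + 1) : ℝ) - pos r (k + 1) := by ring
              rw [h4] at h3
              exact h3
            linarith [h2, hQ, hcon, hP, hwr]
          rw [ind_true (htube r hR)]
          linarith [ind_nonneg (2 * (w : ℝ) < |(pos s (k + 1) : ℝ) - ctr r|)]
      · rw [ind_false hP]
        exact add_nonneg (ind_nonneg _) (ind_nonneg _)
    refine h1.trans (le_of_eq ?_)
    rw [EA2_add (PF2.det _) (PF2.det _)]
    congr 1
    exact EA2_snd (μ := μ) (h := h) (n := n) fun _ s => ind (badb (4 * m) i s j)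
  have hA' := mul_le_mul_of_nonneg_left hA hk0
  have hB' := mul_le_mul_of_nonneg_left hB hM0
  have hr' : kmin μ p q * EA2 μ h n (fun _ s r => ind (2 * (w : ℝ) < |(pos s (k + 1) : ℝ) - ctr r|)) -
        Mom μ 1 * EA μ h n (fun g s => Real.exp |g (k, pos s (k + 1))| *
          ind (2 * (w : ℝ) < |(pos s (k + 1) : ℝ) - ctr s|)) ≤
      EA μ h n (fun g s => ∑ y ∈ Icc (-(n : ℤ)) n,
        ind (|(y : ℝ) - ctr s| ≤ 2 * (w : ℝ)) * Loc_phi μ p q (g (k, y))) := hr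
  have e1 : Mom μ 1 * (e / 2 * CN μ (fun u => Real.exp (2 * |u|)) +
        1 / (2 * e) * EA μ h n (fun _ s => ind (badb (4 * m) i s j))) =
      Mom μ 1 * (e / 2) * CN μ (fun u => Real.exp (2 * |u|)) +
        Mom μ 1 / (2 * e) * EA μ h n (fun _ s => ind (badb (4 * m) i s j)) := by
    ring
  rw [e1] at hB'
  rw [mul_add] at hA'
  rw [add_mul]
  linarith [hA', hB', hr']

/-- A good choice of `m`. -/
lemma Loc_exists_m {d : ℝ} (hd : 0 < d) :
    ∃ m : ℕ, 1 ≤ m ∧ 2 * Real.sqrt (5 * Real.log (2 * m + 3) / m) ≤ d := by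
  obtain ⟨K, hK⟩ := exists_nat_ge (100 / d ^ 2 + 1)
  have hd2 : 0 < d ^ 2 := by positivity
  have hK1 : (1 : ℝ) ≤ K := by
    have : 0 ≤ 100 / d ^ 2 := by positivity
    linarith
  have hK0 : (0 : ℝ) < K := by linarith
  refine ⟨K ^ 2, ?_, ?_⟩
  · have : 1 ≤ K := by exact_mod_cast hK1
    exact Nat.one_le_pow _ _ this
  · push_cast
    have h1 : Real.log (2 * (K : ℝ) ^ 2 + 3) ≤ 2 * Real.sqrt (2 * (K : ℝ) ^ 2 + 3) := by
      have h2 : Real.log (Real.sqrt (2 * (K : ℝ) ^ 2 + 3)) ≤ Real.sqrt (2 * (K : ℝ) ^ 2 + 3) := by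
        have h3 : 0 < Real.sqrt (2 * (K : ℝ) ^ 2 + 3) := Real.sqrt_pos.2 (by positivity)
        have h4 := Real.log_le_sub_one_of_pos h3
        linarith
      rw [Real.log_sqrt (by positivity)] at h2
      linarith
    have h5 : Real.sqrt (2 * (K : ℝ) ^ 2 + 3) ≤ 5 / 2 * K := by
      rw [Real.sqrt_le_left (by positivity)]
      nlinarith
    have h6 : 5 * Real.log (2 * (K : ℝ) ^ 2 + 3) / (K : ℝ) ^ 2 ≤ (d / 2) ^ 2 := by
      rw [div_le_iff₀ (by positivity)]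
      have h7 : 5 * Real.log (2 * (K : ℝ) ^ 2 + 3) ≤ 25 * K := by linarith
      have h8 : 100 / d ^ 2 ≤ K := by linarith
      rw [div_le_iff₀ hd2] at h8
      have h9 : (25 : ℝ) * K ≤ (d / 2) ^ 2 * (K : ℝ) ^ 2 := by nlinarith
      linarith
    have h10 : Real.sqrt (5 * Real.log (2 * (K : ℝ) ^ 2 + 3) / (K : ℝ) ^ 2) ≤ d / 2 := by
      rw [Real.sqrt_le_left (by positivity)]
      exact h6
    linarith

/-- One scale. `M = 4m`, `w = 4 M^i`, `T = M^{i+1} = m w`, `N` blocks, `N T ≤ n`. Proof. Sum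
`row_response` (half width `2w`, `ctr s = chd w T (cc j s) (cc (j+1) s) (u+1)` for the row
`k = jT + u`, `Y = n`) over `j < N`, `u < T`; the right side is `≤ 2 N T √(…)` by `skel_upper`. For every
row `ind (4w < |S_{k+1} - S'_{k+1}|) ≤ ind (2w < |S_{k+1} - ctr S'|) + ind (2w < |S'_{k+1} - ctr S'|)`, and
`ind (2w < |S_{k+1} - ctr S|) ≤ ind (badb M i S j)` (`in_tube`). For the second term
`e^{|g|} ind ≤ (e/2) e^{2|g|} + ind/(2e)` and `noise` with `Ψ u = e^{2|u|}`. -/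
lemma one_scale (hμ : EM μ) {p q : ℝ} (hpq : p < q) (h : ℝ) {m : ℕ} (hm : 1 ≤ m) (i : ℕ) {N n : ℕ}
    (hN : N * (4 * m) ^ (i + 1) ≤ n) {e : ℝ} (he : 0 < e) :
    kmin μ p q * ∑ k ∈ range (N * (4 * m) ^ (i + 1)), EA2 μ h n (fun _ s r =>
        ind (16 * (4 * (m : ℝ)) ^ i < |(pos s (k + 1) : ℝ) - pos r (k + 1)|)) ≤
      (N * (4 * (m : ℝ)) ^ (i + 1)) * (2 * Real.sqrt (5 * Real.log (2 * m + 3) / m) +
          Mom μ 1 * (e / 2) * CN μ (fun u => Real.exp (2 * |u|))) +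
        (kmin μ p q + Mom μ 1 / (2 * e)) * EA μ h n (fun _ s => ∑ j ∈ range N,
          (4 * (m : ℝ)) ^ (i + 1) * ind (badb (4 * m) i s j)) := by
  have hM : 1 ≤ 4 * m := by omega
  set T : ℕ := (4 * m) ^ (i + 1) with hT
  set w : ℕ := 4 * (4 * m) ^ i with hw
  have hw1 : 1 ≤ w := by
    have : 1 ≤ (4 * m) ^ i := Nat.one_le_pow _ _ hM
    omega
  have hmw : m * w = T := by
    rw [hw, hT, pow_succ]
    ring
  have hTr : (T : ℝ) = (4 * (m : ℝ)) ^ (i + 1) := by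
    rw [hT]
    push_cast
    ring
  have hwr : (m : ℝ) * (w : ℝ) = (T : ℝ) := by exact_mod_cast hmw
  set K := kmin μ p q + Mom μ 1 / (2 * e) with hK
  set C := Mom μ 1 * (e / 2) * CN μ (fun u => Real.exp (2 * |u|)) with hC
  -- sum over the rows
  have h1 : kmin μ p q * ∑ k ∈ range (N * T), EA2 μ h n (fun _ s r =>
        ind (16 * (4 * (m : ℝ)) ^ i < |(pos s (k + 1) : ℝ) - pos r (k + 1)|)) ≤
      ∑ j ∈ range N, ∑ u ∈ range T, (EA μ h n (fun g s => ∑ y ∈ Icc (-(n : ℤ)) n,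
        ind (|(y : ℝ) - chd w T (cc w T j s) (cc w T (j + 1) s) (u + 1)| ≤ 2 * (w : ℝ)) *
          Loc_phi μ p q (g (j * T + u, y))) + C +
        K * EA μ h n (fun _ s => ind (badb (4 * m) i s j))) := by
    rw [Finset.mul_sum, Loc_sum_range _ T N]
    refine Finset.sum_le_sum fun j hj => Finset.sum_le_sum fun u hu => ?_
    have hj' := Finset.mem_range.1 hj
    have hu' := Finset.mem_range.1 hu
    have hk : j * T + u < n := by
      have h2 : (j + 1) * T ≤ N * T := Nat.mul_le_mul_right _ hj'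
      have h3 : (j + 1) * T = j * T + T := by ring
      omega
    exact Loc_row hμ hpq h hm i hu' hk he
  refine h1.trans ?_
  have e1 : ∑ j ∈ range N, ∑ u ∈ range T, (EA μ h n (fun g s => ∑ y ∈ Icc (-(n : ℤ)) n,
        ind (|(y : ℝ) - chd w T (cc w T j s) (cc w T (j + 1) s) (u + 1)| ≤ 2 * (w : ℝ)) *
          Loc_phi μ p q (g (j * T + u, y))) + C +
        K * EA μ h n (fun _ s => ind (badb (4 * m) i s j))) =
      (∑ j ∈ range N, ∑ u ∈ range T, EA μ h n (fun g s => ∑ y ∈ Icc (-(n : ℤ)) n,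
        ind (|(y : ℝ) - chd w T (cc w T j s) (cc w T (j + 1) s) (u + 1)| ≤ 2 * (w : ℝ)) *
          Loc_phi μ p q (g (j * T + u, y)))) + N * T * C +
      K * ∑ j ∈ range N, (T : ℝ) * EA μ h n (fun _ s => ind (badb (4 * m) i s j)) := by
    simp only [Finset.sum_add_distrib, Finset.sum_const, Finset.card_range, nsmul_eq_mul]
    rw [Finset.mul_sum]
    congr 1
    · congr 1
      ring
    · refine Finset.sum_congr rfl fun j _ => ?_
      ring
  rw [e1]
  have pfy : ∀ (j u : ℕ), PF μ n (fun g s => ∑ y ∈ Icc (-(n : ℤ)) n,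
        ind (|(y : ℝ) - chd w T (cc w T j s) (cc w T (j + 1) s) (u + 1)| ≤ 2 * (w : ℝ)) *
          Loc_phi μ p q (g (j * T + u, y))) := by
    intro j u s _
    refine PMom.sum _ fun y _ => PMom.const_mul (PMom.of_bounded (c := 1)
      ((Loc_phi_meas p q).comp (measurable_pi_apply _)) fun g => Loc_phi_abs _ _ _) _
  have e2 : (∑ j ∈ range N, ∑ u ∈ range T, EA μ h n (fun g s => ∑ y ∈ Icc (-(n : ℤ)) n,
        ind (|(y : ℝ) - chd w T (cc w T j s) (cc w T (j + 1) s) (u + 1)| ≤ 2 * (w : ℝ)) *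
          Loc_phi μ p q (g (j * T + u, y)))) =
      EA μ h n (fun g s => ∑ j ∈ range N,
        Xch (Loc_phi μ p q) w T n g j (cc w T j s) (cc w T (j + 1) s)) := by
    rw [EA_sum (range N) (F := fun j g s => Xch (Loc_phi μ p q) w T n g j (cc w T j s)
      (cc w T (j + 1) s)) fun j _ => PF.sum (range T) fun u _ => pfy j u]
    refine Finset.sum_congr rfl fun j _ => ?_
    exact (EA_sum (range T) fun u _ => pfy j u).symm
  have h2 := skel_upper (Loc_phi_meas p q) (Loc_phi_abs (μ := μ) p q) (Loc_phi_zero p q) h hw1 hm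
    n N n
  rw [hmw] at h2
  rw [e2]
  have e3 : EA μ h n (fun _ s => ∑ j ∈ range N,
          (4 * (m : ℝ)) ^ (i + 1) * ind (badb (4 * m) i s j)) =
      ∑ j ∈ range N, (T : ℝ) * EA μ h n (fun _ s => ind (badb (4 * m) i s j)) := by
    rw [EA_sum (range N) (F := fun j _ s => (4 * (m : ℝ)) ^ (i + 1) * ind (badb (4 * m) i s j))
      fun j _ => PF.det _]
    refine Finset.sum_congr rfl fun j _ => ?_
    rw [hTr]
    exact EA_const_mul _ _
  rw [e3, ← hTr]
  have e4 : (N * (T : ℝ)) * (2 * Real.sqrt (5 * Real.log (2 * m + 3) / m) + C) =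
      2 * (N * (m * w)) * Real.sqrt (5 * Real.log (2 * m + 3) / m) + N * T * C := by
    rw [hwr]
    ring
  rw [e4]
  linarith [h2]

/-- **Full density path localization.** Proof. `exists_gap` gives `p < q` with `kmin > 0`. Choose `e`
with `Mom 1 (e/2) CN ≤ kmin η/8`, `m` with `2 √(5 log (2m+3)/m) ≤ kmin η/8`, `J` with
`(kmin + Mom 1/(2e)) 4 m² ≤ J kmin η/8`; `M = 4m`, `K = 16 M^J` (as natural number), `n ≥ 8 M^J/η`,
`N₀ = n / M^J`. By `bad_time` (integrated) some scale `i < J` has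
`EA (∑_{j < N₀ M^{J-1-i}} M^{i+1} ind badb) ≤ 4 m² N₀ M^J / J ≤ 4m² n/J`. Use `one_scale` with this `i`,
`N = N₀ M^{J-1-i}` (`N M^{i+1} = N₀ M^J ≤ n`); `16 M^i ≤ K`; the remaining times (`t = 0`, and those after
`N₀ M^J`) are at most `M^J + 1`. -/
theorem localize (hμ : EM μ) (hnd : Nondeg μ) (h : ℝ) {η : ℝ} (hη : 0 < η) :
    ∃ K n₀ : ℕ, ∀ n : ℕ, n₀ ≤ n →
      ∑ t ∈ range (n + 1), EA2 μ h n (fun _ s r => ind ((K : ℤ) < |pos s t - pos r t|)) ≤ η * n := by
  obtain ⟨p, q, hpq, hp, hq⟩ := exists_gap hnd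
  have hκ : 0 < kmin μ p q := by
    unfold kmin
    have h1 : Real.exp (-((q - p) / 2)) < 1 := by
      rw [Real.exp_lt_one_iff]
      linarith
    have h2 : 0 < min (μ.real (Set.Iic p)) (μ.real (Set.Ici q)) := lt_min hp hq
    exact mul_pos (mul_pos (by norm_num) (by linarith)) h2
  set κ := kmin μ p q with hκd
  have hM0 : 0 ≤ Mom μ 1 := Loc_Mom_nonneg 1
  set CNo := CN μ (fun u => Real.exp (2 * |u|)) with hCN
  have hCN0 : 0 ≤ CNo := by
    refine div_nonneg (integral_nonneg fun u => ?_) (integral_nonneg fun u => (Real.exp_pos _).le)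
    exact mul_nonneg (Real.exp_pos _).le (Real.exp_pos _).le
  set e : ℝ := κ * η / (4 * (Mom μ 1 * CNo + 1)) with he
  have hMC : 0 ≤ Mom μ 1 * CNo := mul_nonneg hM0 hCN0
  have he0 : 0 < e := by positivity
  have hnoise : Mom μ 1 * (e / 2) * CNo ≤ κ * η / 8 := by
    have h1 : Mom μ 1 * (e / 2) * CNo = κ * η / 8 * (Mom μ 1 * CNo / (Mom μ 1 * CNo + 1)) := by
      rw [he]
      field_simp
      ring
    rw [h1]
    have h2 : Mom μ 1 * CNo / (Mom μ 1 * CNo + 1) ≤ 1 := by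
      rw [div_le_one (by linarith)]
      linarith
    exact mul_le_of_le_one_right (by positivity) h2
  obtain ⟨m, hm, hmd⟩ := Loc_exists_m (d := κ * η / 8) (by positivity)
  obtain ⟨J, hJ⟩ := exists_nat_ge
    ((κ + Mom μ 1 / (2 * e)) * (4 * (m : ℝ) ^ 2) / (κ * η / 8) + 1)
  have hJ' : (κ + Mom μ 1 / (2 * e)) * (4 * (m : ℝ) ^ 2) ≤ J * (κ * η / 8) := by
    have h1 : (κ + Mom μ 1 / (2 * e)) * (4 * (m : ℝ) ^ 2) / (κ * η / 8) ≤ J := by linarith
    rwa [div_le_iff₀ (by positivity)] at h1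
  have hJ0 : 0 < J := by
    have h1 : 0 ≤ (κ + Mom μ 1 / (2 * e)) * (4 * (m : ℝ) ^ 2) / (κ * η / 8) := by positivity
    have h2 : (0 : ℝ) < J := by linarith
    exact_mod_cast h2
  have hM1 : 1 ≤ 4 * m := by omega
  obtain ⟨n₀, hn₀⟩ := exists_nat_ge (8 * (4 * (m : ℝ)) ^ J / η)
  refine ⟨16 * (4 * m) ^ J, n₀, fun n hn => ?_⟩
  set N₀ : ℕ := n / (4 * m) ^ J with hN₀
  have hMJ1 : 1 ≤ (4 * m) ^ J := Nat.one_le_pow _ _ hM1
  have hN₀n : N₀ * (4 * m) ^ J ≤ n := Nat.div_mul_le_self _ _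
  have hnN₀ : n < N₀ * (4 * m) ^ J + (4 * m) ^ J := by
    have h1 := Nat.lt_div_mul_add (a := n) (b := (4 * m) ^ J) (by omega)
    exact h1
  have hn8 : (4 * (m : ℝ)) ^ J ≤ η * n / 8 := by
    have h1 : 8 * (4 * (m : ℝ)) ^ J / η ≤ n := hn₀.trans (by exact_mod_cast hn)
    rw [div_le_iff₀ hη] at h1
    linarith
  have hN₀r : (N₀ : ℝ) * (4 * (m : ℝ)) ^ J ≤ n := by exact_mod_cast hN₀n
  have hJr : (0 : ℝ) < J := by exact_mod_cast hJ0
  -- choose the scale
  have hscale : ∃ i ∈ range J, EA μ h n (fun _ s => ∑ j ∈ range (N₀ * (4 * m) ^ (J - 1 - i)),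
      (4 * (m : ℝ)) ^ (i + 1) * ind (badb (4 * m) i s j)) ≤ 4 * (m : ℝ) ^ 2 * n / J := by
    have hne : (range J).Nonempty := ⟨0, Finset.mem_range.2 hJ0⟩
    refine Finset.exists_le_of_sum_le hne ?_
    rw [Finset.sum_const, Finset.card_range, nsmul_eq_mul]
    rw [← EA_sum (range J) (F := fun i _ s => ∑ j ∈ range (N₀ * (4 * m) ^ (J - 1 - i)),
      (4 * (m : ℝ)) ^ (i + 1) * ind (badb (4 * m) i s j)) fun i _ => PF.det _]
    have e1 : (J : ℝ) * (4 * (m : ℝ) ^ 2 * n / J) = 4 * (m : ℝ) ^ 2 * n := by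
      field_simp
    rw [e1]
    refine EA_le (PF.det _) fun _ s _ => ?_
    have h1 := bad_time hM1 J N₀ s
    push_cast at h1
    refine h1.trans ?_
    have e2 : (4 * (m : ℝ)) ^ 2 / 4 * (N₀ * (4 * (m : ℝ)) ^ J) =
        4 * (m : ℝ) ^ 2 * (N₀ * (4 * (m : ℝ)) ^ J) := by ring
    rw [e2]
    exact mul_le_mul_of_nonneg_left hN₀r (by positivity)
  obtain ⟨i, hi, hbad⟩ := hscale
  have hi' := Finset.mem_range.1 hi
  set N : ℕ := N₀ * (4 * m) ^ (J - 1 - i) with hN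
  have hNT : N * (4 * m) ^ (i + 1) = N₀ * (4 * m) ^ J := by
    rw [hN, mul_assoc, ← pow_add]
    congr 2
    omega
  have hone := one_scale hμ hpq h hm i (N := N) (n := n) (by rw [hNT]; exact hN₀n) he0
  rw [hNT] at hone
  have hNTr : (N : ℝ) * (4 * (m : ℝ)) ^ (i + 1) = N₀ * (4 * (m : ℝ)) ^ J := by
    have h1 : ((N * (4 * m) ^ (i + 1) : ℕ) : ℝ) = ((N₀ * (4 * m) ^ J : ℕ) : ℝ) := by rw [hNT]
    push_cast at h1
    exact h1
  rw [hNTr] at hone
  have hn0 : (0 : ℝ) ≤ n := Nat.cast_nonneg n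
  -- the right side
  have hR1 : (N₀ * (4 * (m : ℝ)) ^ J) * (2 * Real.sqrt (5 * Real.log (2 * m + 3) / m) +
      Mom μ 1 * (e / 2) * CNo) ≤ n * (κ * η / 8 + κ * η / 8) := by
    refine mul_le_mul hN₀r (add_le_add hmd hnoise) ?_ hn0
    have h1 := Real.sqrt_nonneg (5 * Real.log (2 * (m : ℝ) + 3) / m)
    have h2 : 0 ≤ Mom μ 1 * (e / 2) * CNo := by positivity
    linarith
  have hR2 : (κ + Mom μ 1 / (2 * e)) * EA μ h n (fun _ s => ∑ j ∈ range N,
          (4 * (m : ℝ)) ^ (i + 1) * ind (badb (4 * m) i s j)) ≤ n * (κ * η / 8) := by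
    have h1 : 0 ≤ κ + Mom μ 1 / (2 * e) := by positivity
    refine (mul_le_mul_of_nonneg_left hbad h1).trans ?_
    have h2 : (κ + Mom μ 1 / (2 * e)) * (4 * (m : ℝ) ^ 2 * n / J) =
        (κ + Mom μ 1 / (2 * e)) * (4 * (m : ℝ) ^ 2) * n / J := by ring
    rw [h2, div_le_iff₀ hJr]
    have h3 := mul_le_mul_of_nonneg_right hJ' hn0
    linarith
  have hmain : ∑ k ∈ range (N₀ * (4 * m) ^ J), EA2 μ h n (fun _ s r =>
        ind (16 * (4 * (m : ℝ)) ^ i < |(pos s (k + 1) : ℝ) - pos r (k + 1)|)) ≤ 3 / 8 * η * n := by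
    have h1 := hone.trans (add_le_add hR1 hR2)
    have h2 : n * (κ * η / 8 + κ * η / 8) + n * (κ * η / 8) = κ * (3 / 8 * η * n) := by ring
    rw [h2] at h1
    exact le_of_mul_le_mul_left h1 hκ
  -- the sum over all times
  set f : ℕ → ℝ := fun t => EA2 μ h n (fun _ s r =>
    ind (((16 * (4 * m) ^ J : ℕ) : ℤ) < |pos s t - pos r t|)) with hf
  have hf1 : ∀ t, f t ≤ 1 := by
    intro t
    have h1 := EA2_mono (μ := μ) (h := h) (n := n) (F := fun _ s r =>
      ind (((16 * (4 * m) ^ J : ℕ) : ℤ) < |pos s t - pos r t|)) (G := fun _ _ _ => 1)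
      (PF2.det _) (PF2.det _) fun _ s _ r _ => ind_le_one _
    rwa [EA2_const] at h1
  have hf2 : ∀ k, f (k + 1) ≤ EA2 μ h n (fun _ s r =>
        ind (16 * (4 * (m : ℝ)) ^ i < |(pos s (k + 1) : ℝ) - pos r (k + 1)|)) := by
    intro k
    refine EA2_mono (PF2.det _) (PF2.det _) fun _ s _ r _ => ind_mono fun hlt => ?_
    have h1 : ((((16 * (4 * m) ^ J : ℕ) : ℤ)) : ℝ) < ((|pos s (k + 1) - pos r (k + 1)| : ℤ) : ℝ) := by
      exact_mod_cast hlt
    push_cast at h1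
    have h2 : (4 * (m : ℝ)) ^ i ≤ (4 * (m : ℝ)) ^ J := by
      refine pow_le_pow_right₀ ?_ hi'.le
      have : (1 : ℝ) ≤ ((4 * m : ℕ) : ℝ) := by exact_mod_cast hM1
      push_cast at this
      exact this
    linarith
  have h3 : ∑ t ∈ range (n + 1), f t = (∑ k ∈ range n, f (k + 1)) + f 0 :=
    Finset.sum_range_succ' f n
  obtain ⟨d, hd⟩ := Nat.exists_eq_add_of_le hN₀n
  have h4 : ∑ k ∈ range n, f (k + 1) = (∑ k ∈ range (N₀ * (4 * m) ^ J), f (k + 1)) +
      ∑ x ∈ range d, f (N₀ * (4 * m) ^ J + x + 1) := by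
    conv_lhs => rw [hd]
    rw [Finset.sum_range_add]
  have h5 : ∑ x ∈ range d, f (N₀ * (4 * m) ^ J + x + 1) ≤ d := by
    calc ∑ x ∈ range d, f (N₀ * (4 * m) ^ J + x + 1) ≤ ∑ x ∈ range d, (1 : ℝ) :=
          Finset.sum_le_sum fun x _ => hf1 _
      _ = d := by simp
  have h6 : (d : ℝ) ≤ (4 * (m : ℝ)) ^ J := by
    have h7 : d ≤ (4 * m) ^ J := by omega
    exact_mod_cast h7
  have h8 : (1 : ℝ) ≤ (4 * (m : ℝ)) ^ J := by exact_mod_cast hMJ1
  have h9 : ∑ k ∈ range (N₀ * (4 * m) ^ J), f (k + 1) ≤ 3 / 8 * η * n :=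
    (Finset.sum_le_sum fun k _ => hf2 k).trans hmain
  have h10 := hf1 0
  have h11 : ∑ t ∈ range (n + 1), f t ≤ 3 / 8 * η * n + 2 * (4 * (m : ℝ)) ^ J := by
    rw [h3, h4]
    linarith
  have h12 : ∑ t ∈ range (n + 1), f t ≤ η * n := by
    have h13 : 0 ≤ η * n := by positivity
    linarith
  exact h12

end

end Pool.Agent.W_7d29a1_h47
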