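import Pool.Agent.W_7d29a1_h47.Path

/-!
# Localization: every walk is in its own chord tube at most scales (deterministic)
-/

namespace Pool.Agent.W_7d29a1_h47

open Finset

noncomputable section

/-- The increment of the walk over the `j`-th block of length `M ^ i`. -/
def Dsc (M i : ℕ) (s : ℕ → Bool) (j : ℕ) : ℝ := (pos s ((j + 1) * M ^ i) : ℝ) - pos s (j * M ^ i)

/-- The fluctuation of the increments over the `M` sub-blocks of length `M ^ i` of the `j`-th block of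
length `M ^ (i + 1)`. -/
def Vsc (M i : ℕ) (s : ℕ → Bool) (j : ℕ) : ℝ :=
  ∑ l ∈ range M, (Dsc M i s (j * M + l) - Dsc M (i + 1) s j / M) ^ 2

/-- The `j`-th block of length `M ^ (i + 1)` is bad if the sub-block increments fluctuate too much. -/
def badb (M i : ℕ) (s : ℕ → Bool) (j : ℕ) : Prop := 4 * ((M : ℝ) ^ i) ^ 2 / M < Vsc M i s j

lemma LocA_sum (M i : ℕ) (s : ℕ → Bool) (j l : ℕ) :
    ∑ k ∈ range l, Dsc M i s (j * M + k) =
      (pos s (j * M ^ (i + 1) + l * M ^ i) : ℝ) - pos s (j * M ^ (i + 1)) := by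
  have h := Finset.sum_range_sub (fun k => (pos s ((j * M + k) * M ^ i) : ℝ)) l
  have h0 : (j * M + 0) * M ^ i = j * M ^ (i + 1) := by ring
  have hl : (j * M + l) * M ^ i = j * M ^ (i + 1) + l * M ^ i := by ring
  simp only [h0, hl] at h
  rw [← h]
  refine Finset.sum_congr rfl fun k _ => ?_
  unfold Dsc
  rw [add_assoc (j * M) k 1]

lemma LocA_sum_all (M i : ℕ) (s : ℕ → Bool) (j : ℕ) :
    ∑ k ∈ range M, Dsc M i s (j * M + k) = Dsc M (i + 1) s j := by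
  rw [LocA_sum]
  unfold Dsc
  have h1 : j * M ^ (i + 1) + M * M ^ i = (j + 1) * M ^ (i + 1) := by ring
  rw [h1]

/-- Proof. `∑_l Dsc M i s (j M + l) = Dsc M (i+1) s j` (telescoping), so
`Vsc = ∑_l Dsc_l² - (Dsc M (i+1) s j)²/M`. -/
lemma Vsc_eq {M : ℕ} (hM : 1 ≤ M) (i : ℕ) (s : ℕ → Bool) (j : ℕ) :
    Vsc M i s j = ∑ l ∈ range M, Dsc M i s (j * M + l) ^ 2 - Dsc M (i + 1) s j ^ 2 / M := by
  have hM0 : (M : ℝ) ≠ 0 := by
    have : 0 < M := hM
    positivity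
  have h1 := LocA_sum_all M i s j
  unfold Vsc
  set D : ℝ := Dsc M (i + 1) s j with hD
  have h2 : ∀ l ∈ range M, (Dsc M i s (j * M + l) - D / M) ^ 2 =
      Dsc M i s (j * M + l) ^ 2 - 2 * (D / M) * Dsc M i s (j * M + l) + (D / M) ^ 2 := by
    intro l _
    ring
  rw [Finset.sum_congr rfl h2, Finset.sum_add_distrib, Finset.sum_sub_distrib, ← Finset.mul_sum, h1,
    Finset.sum_const, Finset.card_range, nsmul_eq_mul]
  field_simp
  ring

lemma LocA_regroup (M N : ℕ) (f : ℕ → ℝ) :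
    ∑ j ∈ range N, ∑ l ∈ range M, f (j * M + l) = ∑ k ∈ range (N * M), f k := by
  induction N with
  | zero => simp
  | succ N ih =>
    rw [Finset.sum_range_succ, ih, Nat.succ_mul, Finset.sum_range_add]

/-- Proof. Induction on `J` (for all `N₀`) or telescoping: with
`Q i = ∑_{j < N₀ M^{J-i}} Dsc M i s j ^ 2 / M ^ i` one has `M^{-i} ∑_{j < N₀ M^{J-1-i}} Vsc M i s j = Q i - Q (i+1)`
for `i < J` (`Vsc_eq`, regroup the blocks, `Finset.sum_range` over `N * M` as double sum), `Q i ≥ 0`,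
`Q 0 ≤ N₀ M^J` (`|Dsc M 0 s j| = 1`). -/
lemma sum_Vsc_le {M : ℕ} (hM : 1 ≤ M) (J N₀ : ℕ) (s : ℕ → Bool) :
    ∑ i ∈ range J, (∑ j ∈ range (N₀ * M ^ (J - 1 - i)), Vsc M i s j) / (M : ℝ) ^ i ≤
      (N₀ : ℝ) * M ^ J := by
  have hM' : (0 : ℝ) < M := by exact_mod_cast hM
  set Q : ℕ → ℝ := fun i => (∑ j ∈ range (N₀ * M ^ (J - i)), Dsc M i s j ^ 2) / (M : ℝ) ^ i with hQ
  have h1 : ∀ i ∈ range J, (∑ j ∈ range (N₀ * M ^ (J - 1 - i)), Vsc M i s j) / (M : ℝ) ^ i =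
      Q i - Q (i + 1) := by
    intro i hi
    have hi' := Finset.mem_range.1 hi
    have e1 : N₀ * M ^ (J - i) = N₀ * M ^ (J - 1 - i) * M := by
      have : J - i = (J - 1 - i) + 1 := by omega
      rw [this, pow_succ]
      ring
    have e2 : J - (i + 1) = J - 1 - i := by omega
    simp only [hQ, e1, e2]
    rw [← LocA_regroup M (N₀ * M ^ (J - 1 - i)) (fun k => Dsc M i s k ^ 2)]
    rw [Finset.sum_congr rfl fun j _ => Vsc_eq hM i s j, Finset.sum_sub_distrib, sub_div,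
      ← Finset.sum_div, pow_succ]
    congr 1
    rw [div_div, mul_comm (M : ℝ)]
  rw [Finset.sum_congr rfl h1, Finset.sum_range_sub']
  have h2 : 0 ≤ Q J := by
    simp only [hQ]
    exact div_nonneg (Finset.sum_nonneg fun j _ => sq_nonneg _) (by positivity)
  have h3 : Q 0 = (N₀ : ℝ) * M ^ J := by
    simp only [hQ, pow_zero, div_one, Nat.sub_zero]
    have h4 : ∀ j ∈ range (N₀ * M ^ J), Dsc M 0 s j ^ 2 = 1 := by
      intro j _
      unfold Dsc
      rw [pow_zero, mul_one, mul_one, pos_succ]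
      push_cast
      have h5 : stp (s j) = 1 ∨ stp (s j) = -1 := by cases s j <;> simp
      rcases h5 with h5 | h5 <;> rw [h5] <;> push_cast <;> ring
    rw [Finset.sum_congr rfl h4, Finset.sum_const, Finset.card_range, nsmul_eq_mul]
    push_cast
    ring
  linarith

/-- Total time in bad blocks, summed over the scales. Proof. `ind (badb) ≤ Vsc * M / (4 M^{2i})`, so
`M^{i+1} ind (badb) ≤ (M²/4) Vsc / M^i`; `sum_Vsc_le`. -/
theorem bad_time {M : ℕ} (hM : 1 ≤ M) (J N₀ : ℕ) (s : ℕ → Bool) :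
    ∑ i ∈ range J, ∑ j ∈ range (N₀ * M ^ (J - 1 - i)), (M : ℝ) ^ (i + 1) * ind (badb M i s j) ≤
      (M : ℝ) ^ 2 / 4 * (N₀ * M ^ J) := by
  have hM' : (0 : ℝ) < M := by exact_mod_cast hM
  have h1 : ∀ i ∈ range J, ∑ j ∈ range (N₀ * M ^ (J - 1 - i)),
      (M : ℝ) ^ (i + 1) * ind (badb M i s j) ≤
        (M : ℝ) ^ 2 / 4 * ((∑ j ∈ range (N₀ * M ^ (J - 1 - i)), Vsc M i s j) / (M : ℝ) ^ i) := by
    intro i _
    rw [Finset.sum_div, Finset.mul_sum]
    refine Finset.sum_le_sum fun j _ => ?_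
    have hV : 0 ≤ Vsc M i s j := Finset.sum_nonneg fun _ _ => sq_nonneg _
    have hp : (0 : ℝ) < (M : ℝ) ^ i := by positivity
    by_cases hb : badb M i s j
    · rw [ind_true hb, mul_one]
      have hb' : 4 * ((M : ℝ) ^ i) ^ 2 / M < Vsc M i s j := hb
      have h2 : (M : ℝ) ^ 2 / 4 * ((4 * ((M : ℝ) ^ i) ^ 2 / M) / (M : ℝ) ^ i) =
          (M : ℝ) ^ (i + 1) := by
        rw [pow_succ]
        field_simp
        try ring
      rw [← h2]
      refine mul_le_mul_of_nonneg_left ?_ (by positivity)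
      exact div_le_div_of_nonneg_right hb'.le hp.le
    · rw [ind_false hb, mul_zero]
      exact mul_nonneg (by positivity) (div_nonneg hV hp.le)
  refine (Finset.sum_le_sum h1).trans ?_
  rw [← Finset.mul_sum]
  exact mul_le_mul_of_nonneg_left (sum_Vsc_le hM J N₀ s) (by positivity)

/-- The coarse position at the beginning of block `j` (blocks of length `T`, resolution `w`). -/
def cc (w T : ℕ) (j : ℕ) (s : ℕ → Bool) : ℤ := pos s (j * T) / (w : ℤ)

/-- The chord between the coarse positions `a` and `b` over a block of length `T`, at time `u`. -/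
def chd (w T : ℕ) (a b : ℤ) (u : ℝ) : ℝ := w * a + (w * b - w * a) * u / T

/-- In a good block the walk stays in the tube of half width `2 w` around its coarse chord
(`T = M^{i+1}`, `w = 4 M^i`). Proof. Write `u = l M^i + u'`, `u' ≤ M^i`. With `D = Dsc M (i+1) s j`:
`|pos s (jT + u) - pos s (jT) - D u/T| ≤ |∑_{l' < l} (Dsc_{l'} - D/M)| + |pos s (jT+u) - pos s (jT + l M^i)| + |D| u'/T
≤ √(M Vsc) + 2 M^i ≤ 2 M^i + 2 M^i = w` (Cauchy–Schwarz, `¬ badb`: `M * Vsc ≤ 4 M^{2i}`), and the chord between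
the exact end positions differs from the coarse one by at most `w` (`0 ≤ x - w (x / w) < w`). -/
theorem in_tube {M : ℕ} (hM : 1 ≤ M) (i j : ℕ) {s : ℕ → Bool} (hb : ¬ badb M i s j) {u : ℕ}
    (hu : u ≤ M ^ (i + 1)) :
    |(pos s (j * M ^ (i + 1) + u) : ℝ) - chd (4 * M ^ i) (M ^ (i + 1))
      (cc (4 * M ^ i) (M ^ (i + 1)) j s) (cc (4 * M ^ i) (M ^ (i + 1)) (j + 1) s) u| ≤
        2 * (4 * (M : ℝ) ^ i) := by
  have hM' : (0 : ℝ) < M := by exact_mod_cast hM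
  have hm0 : 0 < M ^ i := by positivity
  have hm : (0 : ℝ) < (M : ℝ) ^ i := by positivity
  have hT : (0 : ℝ) < (M : ℝ) ^ (i + 1) := by positivity
  have hTm : (M : ℝ) ^ (i + 1) = M * (M : ℝ) ^ i := by rw [pow_succ]; ring
  -- the decomposition of the time
  obtain ⟨l, u', hul, hu'⟩ : ∃ l u', u = l * M ^ i + u' ∧ u' < M ^ i :=
    ⟨u / M ^ i, u % M ^ i, by rw [mul_comm]; exact (Nat.div_add_mod u (M ^ i)).symm,
      Nat.mod_lt _ hm0⟩
  have hlM : l ≤ M := by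
    by_contra hc
    have h1 : (M + 1) * M ^ i ≤ l * M ^ i := Nat.mul_le_mul_right _ (by omega)
    have h2 : M ^ (i + 1) = M * M ^ i := by rw [pow_succ]; ring
    have h3 : (M + 1) * M ^ i = M * M ^ i + M ^ i := by ring
    omega
  set D : ℝ := Dsc M (i + 1) s j with hD
  set x : ℤ := pos s (j * M ^ (i + 1)) with hx
  set y : ℤ := pos s ((j + 1) * M ^ (i + 1)) with hy
  have hDxy : D = (y : ℝ) - x := rfl
  -- the sum of the fluctuations
  have h1 : (∑ k ∈ range l, (Dsc M i s (j * M + k) - D / M)) =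
      (pos s (j * M ^ (i + 1) + l * M ^ i) : ℝ) - x - l * (D / M) := by
    rw [Finset.sum_sub_distrib, LocA_sum, Finset.sum_const, Finset.card_range, nsmul_eq_mul]
  have h2 : (∑ k ∈ range l, (Dsc M i s (j * M + k) - D / M)) ^ 2 ≤ (2 * (M : ℝ) ^ i) ^ 2 := by
    have h4 : (∑ k ∈ range l, (Dsc M i s (j * M + k) - D / M)) ^ 2 ≤
        ((range l).card : ℝ) * ∑ k ∈ range l, (Dsc M i s (j * M + k) - D / M) ^ 2 :=
      sq_sum_le_card_mul_sum_sq
    have h5 : ∑ k ∈ range l, (Dsc M i s (j * M + k) - D / M) ^ 2 ≤ Vsc M i s j := by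
      unfold Vsc
      exact Finset.sum_le_sum_of_subset_of_nonneg (Finset.range_subset_range.2 hlM)
        fun _ _ _ => sq_nonneg _
    have h6 : Vsc M i s j ≤ 4 * ((M : ℝ) ^ i) ^ 2 / M := not_lt.1 hb
    have h7 : ((range l).card : ℝ) ≤ M := by
      rw [Finset.card_range]
      exact_mod_cast hlM
    calc _ ≤ ((range l).card : ℝ) * ∑ k ∈ range l, (Dsc M i s (j * M + k) - D / M) ^ 2 := h4
      _ ≤ (M : ℝ) * (4 * ((M : ℝ) ^ i) ^ 2 / M) :=
          mul_le_mul h7 (h5.trans h6) (Finset.sum_nonneg fun _ _ => sq_nonneg _) hM'.le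
      _ = (2 * (M : ℝ) ^ i) ^ 2 := by
          field_simp
          ring
  have h3 : |∑ k ∈ range l, (Dsc M i s (j * M + k) - D / M)| ≤ 2 * (M : ℝ) ^ i :=
    abs_le_of_sq_le_sq h2 (by positivity)
  rw [h1] at h3
  -- the last incomplete sub-block
  have hu'R : (u' : ℝ) ≤ (M : ℝ) ^ i := by exact_mod_cast hu'.le
  have h4 : |(pos s (j * M ^ (i + 1) + u) : ℝ) - pos s (j * M ^ (i + 1) + l * M ^ i)| ≤
      (M : ℝ) ^ i := by
    have h5 := pos_sub_abs_le s (i := j * M ^ (i + 1) + l * M ^ i) (j := j * M ^ (i + 1) + u)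
      (by omega)
    have h6 : ((j * M ^ (i + 1) + u : ℕ) : ℤ) - ((j * M ^ (i + 1) + l * M ^ i : ℕ) : ℤ) = u' := by
      rw [hul]
      push_cast
      ring
    rw [h6] at h5
    have h7 : (|pos s (j * M ^ (i + 1) + u) - pos s (j * M ^ (i + 1) + l * M ^ i)| : ℝ) ≤
        (u' : ℝ) := by exact_mod_cast h5
    exact h7.trans hu'R
  have h5 : |D| ≤ (M : ℝ) ^ (i + 1) := by
    have h6 := pos_sub_abs_le s (i := j * M ^ (i + 1)) (j := (j + 1) * M ^ (i + 1))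
      (Nat.mul_le_mul_right _ (by omega))
    have h7 : (((j + 1) * M ^ (i + 1) : ℕ) : ℤ) - ((j * M ^ (i + 1) : ℕ) : ℤ) =
        ((M ^ (i + 1) : ℕ) : ℤ) := by
      push_cast
      ring
    rw [h7] at h6
    have h8 : (|y - x| : ℝ) ≤ ((M ^ (i + 1) : ℕ) : ℝ) := by exact_mod_cast h6
    rw [hDxy]
    refine h8.trans (le_of_eq ?_)
    push_cast
    ring
  have h6 : |D * u' / (M : ℝ) ^ (i + 1)| ≤ (M : ℝ) ^ i := by
    have hu0 : |(u' : ℝ)| = u' := abs_of_nonneg (Nat.cast_nonneg u')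
    rw [abs_div, abs_mul, abs_of_pos hT, hu0, div_le_iff₀ hT]
    calc |D| * u' ≤ (M : ℝ) ^ (i + 1) * (M : ℝ) ^ i :=
          mul_le_mul h5 hu'R (Nat.cast_nonneg _) hT.le
      _ = (M : ℝ) ^ i * (M : ℝ) ^ (i + 1) := mul_comm _ _
  -- distance to the exact chord
  have huR : (u : ℝ) = l * (M : ℝ) ^ i + u' := by
    rw [hul]
    push_cast
    ring
  have h7 : |(pos s (j * M ^ (i + 1) + u) : ℝ) - (x + ((y : ℝ) - x) * u / (M : ℝ) ^ (i + 1))| ≤
      4 * (M : ℝ) ^ i := by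
    have h8 : (pos s (j * M ^ (i + 1) + u) : ℝ) - (x + ((y : ℝ) - x) * u / (M : ℝ) ^ (i + 1)) =
        ((pos s (j * M ^ (i + 1) + l * M ^ i) : ℝ) - x - l * (D / M)) +
        ((pos s (j * M ^ (i + 1) + u) : ℝ) - pos s (j * M ^ (i + 1) + l * M ^ i)) -
        D * u' / (M : ℝ) ^ (i + 1) := by
      have h9 : D * u / (M : ℝ) ^ (i + 1) = l * (D / M) + D * u' / (M : ℝ) ^ (i + 1) := by
        rw [huR, hTm]
        field_simp
      rw [← hDxy, h9]
      ring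
    rw [h8]
    have h9 := abs_sub
      (((pos s (j * M ^ (i + 1) + l * M ^ i) : ℝ) - x - l * (D / M)) +
        ((pos s (j * M ^ (i + 1) + u) : ℝ) - pos s (j * M ^ (i + 1) + l * M ^ i)))
      (D * u' / (M : ℝ) ^ (i + 1))
    have h10 := abs_add_le ((pos s (j * M ^ (i + 1) + l * M ^ i) : ℝ) - x - l * (D / M))
      ((pos s (j * M ^ (i + 1) + u) : ℝ) - pos s (j * M ^ (i + 1) + l * M ^ i))
    linarith
  -- distance of the chords
  have hw : (0 : ℤ) < ((4 * M ^ i : ℕ) : ℤ) := by positivity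
  have hwR : (((4 * M ^ i : ℕ) : ℤ) : ℝ) = 4 * (M : ℝ) ^ i := by push_cast; ring
  have hfl : ∀ z : ℤ, 0 ≤ (z : ℝ) - 4 * (M : ℝ) ^ i * ((z / ((4 * M ^ i : ℕ) : ℤ) : ℤ) : ℝ) ∧
      (z : ℝ) - 4 * (M : ℝ) ^ i * ((z / ((4 * M ^ i : ℕ) : ℤ) : ℤ) : ℝ) ≤ 4 * (M : ℝ) ^ i := by
    intro z
    have e1 := Int.mul_ediv_add_emod z ((4 * M ^ i : ℕ) : ℤ)
    have e2 := Int.emod_nonneg z hw.ne'
    have e3 := Int.emod_lt_of_pos z hw
    have e4 : (z : ℝ) = 4 * (M : ℝ) ^ i * ((z / ((4 * M ^ i : ℕ) : ℤ) : ℤ) : ℝ) +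
        ((z % ((4 * M ^ i : ℕ) : ℤ) : ℤ) : ℝ) := by
      rw [← hwR]
      exact_mod_cast e1.symm
    have e5 : (0 : ℝ) ≤ ((z % ((4 * M ^ i : ℕ) : ℤ) : ℤ) : ℝ) := by exact_mod_cast e2
    have e6 : ((z % ((4 * M ^ i : ℕ) : ℤ) : ℤ) : ℝ) ≤ 4 * (M : ℝ) ^ i := by
      rw [← hwR]
      exact_mod_cast e3.le
    constructor <;> linarith
  obtain ⟨hx1, hx2⟩ := hfl x
  obtain ⟨hy1, hy2⟩ := hfl y
  unfold chd cc
  rw [← hx, ← hy]
  have hcast : ((4 * M ^ i : ℕ) : ℝ) = 4 * (M : ℝ) ^ i := by push_cast; ring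
  have hcast2 : ((M ^ (i + 1) : ℕ) : ℝ) = (M : ℝ) ^ (i + 1) := by push_cast; ring
  rw [hcast, hcast2]
  set w : ℝ := 4 * (M : ℝ) ^ i with hwdef
  set α : ℝ := ((x / ((4 * M ^ i : ℕ) : ℤ) : ℤ) : ℝ) with hα
  set β : ℝ := ((y / ((4 * M ^ i : ℕ) : ℤ) : ℤ) : ℝ) with hβ
  set r : ℝ := (u : ℝ) / (M : ℝ) ^ (i + 1) with hr
  have hr0 : 0 ≤ r := by positivity
  have hr1 : r ≤ 1 := by
    rw [hr, div_le_one hT]
    exact_mod_cast hu
  have h8 : |(x + ((y : ℝ) - x) * u / (M : ℝ) ^ (i + 1)) - (w * α + (w * β - w * α) * u /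
      (M : ℝ) ^ (i + 1))| ≤ w := by
    have h9 : (x + ((y : ℝ) - x) * u / (M : ℝ) ^ (i + 1)) - (w * α + (w * β - w * α) * u /
        (M : ℝ) ^ (i + 1)) = (x - w * α) * (1 - r) + (y - w * β) * r := by
      rw [hr]
      field_simp
      ring
    rw [h9]
    have h10 : 0 ≤ (x - w * α) * (1 - r) + (y - w * β) * r :=
      add_nonneg (mul_nonneg hx1 (by linarith)) (mul_nonneg hy1 hr0)
    rw [abs_of_nonneg h10]
    have h11 : (x - w * α) * (1 - r) ≤ w * (1 - r) :=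
      mul_le_mul_of_nonneg_right hx2 (by linarith)
    have h12 : (y - w * β) * r ≤ w * r := mul_le_mul_of_nonneg_right hy2 hr0
    linarith
  have h9 := abs_sub_le (pos s (j * M ^ (i + 1) + u) : ℝ)
    (x + ((y : ℝ) - x) * u / (M : ℝ) ^ (i + 1))
    (w * α + (w * β - w * α) * u / (M : ℝ) ^ (i + 1))
  linarith

/-- Proof. `|pos s ((j+1)T) - pos s (jT)| ≤ T = m w`, so the floor quotients differ by at most `m + 1`. -/
lemma cc_step {w m : ℕ} (hw : 1 ≤ w) (j : ℕ) (s : ℕ → Bool) :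
    |cc w (m * w) (j + 1) s - cc w (m * w) j s| ≤ m + 1 := by
  have hw' : (0 : ℤ) < (w : ℤ) := by exact_mod_cast hw
  have h6 := pos_sub_abs_le s (i := j * (m * w)) (j := (j + 1) * (m * w))
    (Nat.mul_le_mul_right _ (by omega))
  have h7 : (((j + 1) * (m * w) : ℕ) : ℤ) - ((j * (m * w) : ℕ) : ℤ) = (m : ℤ) * w := by
    push_cast
    ring
  rw [h7] at h6
  unfold cc
  set x : ℤ := pos s (j * (m * w)) with hx
  set y : ℤ := pos s ((j + 1) * (m * w)) with hy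
  obtain ⟨h8, h9⟩ := abs_le.1 h6
  have h10 : y / (w : ℤ) ≤ x / (w : ℤ) + m := by
    rw [← Int.add_mul_ediv_right x m hw'.ne']
    exact Int.ediv_le_ediv hw' (by linarith)
  have h11 : x / (w : ℤ) ≤ y / (w : ℤ) + m := by
    rw [← Int.add_mul_ediv_right y m hw'.ne']
    exact Int.ediv_le_ediv hw' (by linarith)
  rw [abs_le]
  constructor <;> linarith

lemma cc_zero (w T : ℕ) (s : ℕ → Bool) : cc w T 0 s = 0 := by simp [cc]

end

end Pool.Agent.W_7d29a1_h47
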