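import Pool.Agent.W_7d29a1_h47.Avg
import Pool.Agent.W_7d29a1_h47.LocA

/-!
# Localization: upper bound for the chord tube sums
-/

namespace Pool.Agent.W_7d29a1_h47

open MeasureTheory ProbabilityTheory Finset

noncomputable section

variable {μ : Measure ℝ} [IsProbabilityMeasure μ]

/-- The sum of `φ` over the tube of half width `2w` around the coarse chord from `a` to `b` in the
block of the rows `[jT, (j+1)T)`; `Y` is the (irrelevant) spatial cut off. -/
def Xch (φ : ℝ → ℝ) (w T Y : ℕ) (g : Env) (j : ℕ) (a b : ℤ) : ℝ :=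
  ∑ i ∈ range T, ∑ y ∈ Icc (-(Y : ℤ)) Y,
    ind (|(y : ℝ) - chd w T a b (i + 1)| ≤ 2 * w) * φ (g (j * T + i, y))

omit [IsProbabilityMeasure μ] in
open Classical in
lemma LocB_card {w : ℕ} (hw : 1 ≤ w) (Y : ℕ) (c : ℝ) :
    ((Icc (-(Y : ℤ)) Y).filter (fun y : ℤ => |(y : ℝ) - c| ≤ 2 * w)).card ≤ 5 * w := by
  have hsub : (Icc (-(Y : ℤ)) Y).filter (fun y : ℤ => |(y : ℝ) - c| ≤ 2 * w) ⊆
      Icc ⌈c - 2 * w⌉ ⌊c + 2 * w⌋ := by
    intro y hy
    rw [Finset.mem_filter] at hy
    have h1 := abs_le.1 hy.2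
    rw [Finset.mem_Icc]
    constructor
    · refine Int.ceil_le.2 ?_
      linarith [h1.1]
    · refine Int.le_floor.2 ?_
      linarith [h1.2]
  refine (Finset.card_le_card hsub).trans ?_
  rw [Int.card_Icc]
  have h2 : ((⌊c + 2 * w⌋ : ℤ) : ℝ) ≤ c + 2 * w := Int.floor_le _
  have h3 : c - 2 * w ≤ ((⌈c - 2 * w⌉ : ℤ) : ℝ) := Int.le_ceil _
  have h4 : ((⌊c + 2 * w⌋ + 1 - ⌈c - 2 * w⌉ : ℤ) : ℝ) ≤ ((5 * w : ℤ) : ℝ) := by
    push_cast
    have h5 : (1 : ℝ) ≤ w := by exact_mod_cast hw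
    linarith
  have h6 : ⌊c + 2 * w⌋ + 1 - ⌈c - 2 * w⌉ ≤ (5 * w : ℤ) := by exact_mod_cast h4
  omega

lemma LocB_one {φ : ℝ → ℝ} (hφm : Measurable φ) (hφ1 : ∀ u, |φ u| ≤ 1) (hφ0 : ∫ u, φ u ∂μ = 0)
    (c : ℝ) : ∫ u, Real.exp (c * φ u) ∂μ ≤ Real.exp (c ^ 2) := by
  have hint : Integrable φ μ := by
    refine (integrable_const (1 : ℝ)).mono' hφm.aestronglyMeasurable
      (Filter.Eventually.of_forall fun u => ?_)
    exact hφ1 u
  have hpt : ∀ u, Real.exp (c * φ u) ≤ Real.cosh c + φ u * Real.sinh c := by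
    intro u
    have h1 := abs_le.1 (hφ1 u)
    have h2 := convexOn_exp.2 (Set.mem_univ c) (Set.mem_univ (-c))
      (show 0 ≤ (1 + φ u) / 2 by linarith) (show 0 ≤ (1 - φ u) / 2 by linarith) (by ring)
    simp only [smul_eq_mul] at h2
    have h3 : (1 + φ u) / 2 * c + (1 - φ u) / 2 * -c = c * φ u := by ring
    rw [h3] at h2
    rw [Real.cosh_eq, Real.sinh_eq]
    linarith
  have hb : Integrable (fun u => Real.exp (c * φ u)) μ := by
    refine (integrable_const (Real.exp |c|)).mono' (by fun_prop)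
      (Filter.Eventually.of_forall fun u => ?_)
    rw [Real.norm_eq_abs, abs_of_pos (Real.exp_pos _)]
    refine Real.exp_le_exp.2 ?_
    calc c * φ u ≤ |c * φ u| := le_abs_self _
      _ = |c| * |φ u| := abs_mul _ _
      _ ≤ |c| * 1 := mul_le_mul_of_nonneg_left (hφ1 u) (abs_nonneg _)
      _ = |c| := mul_one _
  calc ∫ u, Real.exp (c * φ u) ∂μ ≤ ∫ u, (Real.cosh c + φ u * Real.sinh c) ∂μ :=
        integral_mono hb ((integrable_const _).add (hint.mul_const _)) hpt
    _ = Real.cosh c := by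
        rw [integral_add (integrable_const _) (hint.mul_const _), integral_mul_const, hφ0]
        simp
    _ ≤ Real.exp (c ^ 2 / 2) := Real.cosh_le_exp_half_sq c
    _ ≤ Real.exp (c ^ 2) := Real.exp_le_exp.2 (by nlinarith [sq_nonneg c])

lemma LocB_exp_sum {φ : ℝ → ℝ} (hφm : Measurable φ) (hφ1 : ∀ u, |φ u| ≤ 1)
    (hφ0 : ∫ u, φ u ∂μ = 0) (c : ℝ) (S : Finset (ℕ × ℤ)) :
    ∫ g, Real.exp (∑ p ∈ S, c * φ (g p)) ∂(law μ) ≤ Real.exp (c ^ 2 * S.card) := by
  classical
  induction S using Finset.induction_on with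
  | empty => simp
  | insert p S hp ih =>
    have h1 : ∀ g : Env, Real.exp (∑ q ∈ insert p S, c * φ (g q)) =
        Real.exp (c * φ (g p)) * Real.exp (∑ q ∈ S, c * φ (g q)) := by
      intro g
      rw [Finset.sum_insert hp, Real.exp_add]
    simp only [h1]
    rw [integral_mul_indep {p} (by fun_prop) (by fun_prop) ?_ ?_,
      integral_coord p (f := fun u => Real.exp (c * φ u)) (by fun_prop)]
    · rw [Finset.card_insert_of_notMem hp]
      push_cast
      have h2 : c ^ 2 * ((S.card : ℝ) + 1) = c ^ 2 + c ^ 2 * S.card := by ring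
      rw [h2, Real.exp_add]
      exact mul_le_mul (LocB_one hφm hφ1 hφ0 c) ih
        (integral_nonneg fun g => (Real.exp_pos _).le) (Real.exp_pos _).le
    · intro g g' hg
      simp only
      rw [hg p (Set.mem_singleton p)]
    · intro g g' hg
      simp only
      congr 1
      refine Finset.sum_congr rfl fun q hq => ?_
      rw [hg q ?_]
      intro hqp
      rw [Set.mem_singleton_iff] at hqp
      exact hp (hqp ▸ hq)

/-- Exponential moment of one block. Proof. As in the docstring of `Tube.tube_exp`: the sites are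
distinct, hence independent; `∫ e^{c φ} dμ ≤ e^{c²}` because `e^u ≤ u + e^{u²}`, `∫ φ = 0`, `|φ| ≤ 1`;
for each row at most `4 w + 1 ≤ 5 w` integers `y` satisfy the condition. -/
lemma Xch_exp {φ : ℝ → ℝ} (hφm : Measurable φ) (hφ1 : ∀ u, |φ u| ≤ 1) (hφ0 : ∫ u, φ u ∂μ = 0)
    {w : ℕ} (hw : 1 ≤ w) (T Y j : ℕ) (a b : ℤ) (c : ℝ) :
    ∫ g, Real.exp (c * Xch φ w T Y g j a b) ∂(law μ) ≤ Real.exp (c ^ 2 * (5 * w * T)) := by
  classical
  set S : Finset (ℕ × ℤ) := (range T).biUnion fun i =>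
    ((Icc (-(Y : ℤ)) Y).filter
        (fun y : ℤ => |(y : ℝ) - chd w T a b (i + 1)| ≤ 2 * w)).image (fun y => (j * T + i, y))
    with hS
  have hdisj : Set.PairwiseDisjoint (↑(range T) : Set ℕ) (fun i =>
    ((Icc (-(Y : ℤ)) Y).filter
        (fun y : ℤ => |(y : ℝ) - chd w T a b (i + 1)| ≤ 2 * w)).image
          (fun y => (j * T + i, y))) := by
    intro i _ j' _ hij
    refine Finset.disjoint_left.2 fun p hp hq => hij ?_
    obtain ⟨y, -, rfl⟩ := Finset.mem_image.1 hp
    obtain ⟨z, -, hz⟩ := Finset.mem_image.1 hq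
    have := congrArg Prod.fst hz
    simp only at this
    omega
  have hsum : ∀ g : Env, c * Xch φ w T Y g j a b = ∑ p ∈ S, c * φ (g p) := by
    intro g
    unfold Xch
    rw [hS, Finset.sum_biUnion hdisj, Finset.mul_sum]
    refine Finset.sum_congr rfl fun i _ => ?_
    rw [Finset.sum_image (fun y _ z _ h => by
      have := congrArg Prod.snd h
      simpa using this), Finset.mul_sum, Finset.sum_filter]
    refine Finset.sum_congr rfl fun y _ => ?_
    unfold ind
    split_ifs with h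
    · rw [one_mul]
    · rw [zero_mul, mul_zero]
  have hcard : (S.card : ℝ) ≤ 5 * w * T := by
    have h1 : S.card ≤ ∑ i ∈ range T, 5 * w := by
      rw [hS]
      refine Finset.card_biUnion_le.trans (Finset.sum_le_sum fun i _ => ?_)
      exact Finset.card_image_le.trans (LocB_card hw Y _)
    rw [Finset.sum_const, Finset.card_range, smul_eq_mul] at h1
    have h2 : (S.card : ℝ) ≤ ((T * (5 * w) : ℕ) : ℝ) := by exact_mod_cast h1
    push_cast at h2
    linarith
  simp only [hsum]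
  refine (LocB_exp_sum hφm hφ1 hφ0 c S).trans (Real.exp_le_exp.2 ?_)
  exact mul_le_mul_of_nonneg_left hcard (sq_nonneg c)

/-- Sum over the skeletons (coarse positions, steps at most `m + 1`) up to block `N` that end in `b`
of `e^{c · tube sum}`. -/
def Usk (φ : ℝ → ℝ) (w T Y m : ℕ) (c : ℝ) (g : Env) : ℕ → ℤ → ℝ
  | 0, b => ind (b = 0)
  | N + 1, b => ∑ a ∈ Icc (b - (m + 1)) (b + (m + 1)),
      Usk φ w T Y m c g N a * Real.exp (c * Xch φ w T Y g N a b)

omit [IsProbabilityMeasure μ] in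
lemma LocB_Usk_nonneg (φ : ℝ → ℝ) (w T Y m : ℕ) (c : ℝ) (g : Env) (N : ℕ) (b : ℤ) :
    0 ≤ Usk φ w T Y m c g N b := by
  induction N generalizing b with
  | zero => exact ind_nonneg _
  | succ N ih =>
    rw [Usk]
    exact Finset.sum_nonneg fun a _ => mul_nonneg (ih a) (Real.exp_pos _).le

omit [IsProbabilityMeasure μ] in
lemma LocB_Usk_zero (φ : ℝ → ℝ) (w T Y m : ℕ) (c : ℝ) (g : Env) (N : ℕ) (b : ℤ)
    (hb : b ∉ Icc (-(N * (m + 1) : ℤ)) (N * (m + 1))) :
    Usk φ w T Y m c g N b = 0 := by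
  induction N generalizing b with
  | zero =>
    rw [Usk]
    refine ind_false fun h => hb ?_
    subst h
    simp
  | succ N ih =>
    rw [Usk]
    refine Finset.sum_eq_zero fun a ha => ?_
    rw [ih a, zero_mul]
    intro h
    apply hb
    rw [Finset.mem_Icc] at h ha ⊢
    push_cast
    constructor <;> nlinarith [h.1, h.2, ha.1, ha.2]

omit [IsProbabilityMeasure μ] in
lemma LocB_cc_abs {w m : ℕ} (hw : 1 ≤ w) (s : ℕ → Bool) (N : ℕ) :
    cc w (m * w) N s ∈ Icc (-(N * (m + 1) : ℤ)) (N * (m + 1)) := by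
  induction N with
  | zero => simp [cc_zero]
  | succ N ih =>
    have h1 := abs_le.1 (cc_step (m := m) hw N s)
    rw [Finset.mem_Icc] at ih ⊢
    push_cast
    constructor <;> nlinarith [ih.1, ih.2, h1.1, h1.2]

/-- Every walk contributes to the skeleton sum. Proof. Induction on `N`: `cc_zero`, `cc_step`
(`T = m w`), one term of a sum of nonnegative terms. -/
lemma Usk_ge (φ : ℝ → ℝ) {w m : ℕ} (hw : 1 ≤ w) (Y : ℕ) (c : ℝ) (g : Env) (s : ℕ → Bool) (N : ℕ) :
    Real.exp (c * ∑ j ∈ range N, Xch φ w (m * w) Y g j (cc w (m * w) j s) (cc w (m * w) (j + 1) s)) ≤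
      Usk φ w (m * w) Y m c g N (cc w (m * w) N s) := by
  induction N with
  | zero =>
    rw [cc_zero, Usk, ind_true rfl]
    simp
  | succ N ih =>
    rw [Usk, Finset.sum_range_succ, mul_add, Real.exp_add]
    refine (mul_le_mul_of_nonneg_right ih (Real.exp_pos _).le).trans ?_
    have hmem : cc w (m * w) N s ∈ Icc (cc w (m * w) (N + 1) s - (m + 1))
        (cc w (m * w) (N + 1) s + (m + 1)) := by
      have h1 := abs_le.1 (cc_step (m := m) hw N s)
      rw [Finset.mem_Icc]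
      constructor <;> linarith [h1.1, h1.2]
    exact Finset.single_le_sum
      (f := fun a => Usk φ w (m * w) Y m c g N a *
        Real.exp (c * Xch φ w (m * w) Y g N a (cc w (m * w) (N + 1) s)))
      (fun a _ => mul_nonneg (LocB_Usk_nonneg φ w (m * w) Y m c g N a) (Real.exp_pos _).le) hmem

lemma LocB_EMom_Xch {φ : ℝ → ℝ} (hφm : Measurable φ) (hφ1 : ∀ u, |φ u| ≤ 1) (w T Y j : ℕ)
    (a b : ℤ) : EMom (law μ) (fun g => Xch φ w T Y g j a b) := by
  unfold Xch
  refine EMom.sum _ fun i _ => EMom.sum _ fun y _ => EMom.const_mul ?_ _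
  exact EMom.of_bounded (c := 1) (hφm.comp (measurable_pi_apply _)) fun g => hφ1 _

lemma LocB_PMom_Usk {φ : ℝ → ℝ} (hφm : Measurable φ) (hφ1 : ∀ u, |φ u| ≤ 1) (w T Y m : ℕ)
    (c : ℝ) (N : ℕ) (b : ℤ) : PMom (law μ) (fun g => Usk φ w T Y m c g N b) := by
  induction N generalizing b with
  | zero => exact PMom.const _
  | succ N ih =>
    simp only [Usk]
    exact PMom.sum _ fun a _ => (ih a).mul ((LocB_EMom_Xch hφm hφ1 w T Y N a b).exp_pmom c)

omit [IsProbabilityMeasure μ] in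
lemma LocB_dep_Xch (φ : ℝ → ℝ) (w T Y j : ℕ) (a b : ℤ) :
    DependsOn (fun g : Env => Xch φ w T Y g j a b) (rows (j * T) ((j + 1) * T)) := by
  intro g g' hg
  simp only [Xch]
  refine Finset.sum_congr rfl fun i hi => Finset.sum_congr rfl fun y _ => ?_
  have h1 := Finset.mem_range.1 hi
  rw [hg (j * T + i, y) ⟨by simp, by simp only; rw [add_mul, one_mul]; omega⟩]

omit [IsProbabilityMeasure μ] in
lemma LocB_dep_Usk (φ : ℝ → ℝ) (w T Y m : ℕ) (c : ℝ) (N : ℕ) (b : ℤ) :
    DependsOn (fun g : Env => Usk φ w T Y m c g N b) (rows 0 (N * T)) := by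
  induction N generalizing b with
  | zero =>
    intro g g' _
    rfl
  | succ N ih =>
    intro g g' hg
    simp only [Usk]
    refine Finset.sum_congr rfl fun a _ => ?_
    have h1 := ih a (x := g) (y := g') fun p hp => hg p ⟨hp.1, lt_of_lt_of_le hp.2 (by
      rw [add_mul, one_mul]; omega)⟩
    have h2 := LocB_dep_Xch φ w T Y N a b (x := g) (y := g') fun p hp => hg p ⟨Nat.zero_le _, hp.2⟩
    simp only at h1 h2
    rw [h1, h2]

/-- Proof. Induction on `N`. `Usk N b = 0` for `|b| > N (m+1)`. `Usk N a` depends on `rows 0 (N T)`,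
`Xch … N a b` on `rows (N T) ((N+1) T)`: `integral_mul_indep`, `Xch_exp`; each `a` has `2m+3` successors
`b`. -/
lemma integral_Usk {φ : ℝ → ℝ} (hφm : Measurable φ) (hφ1 : ∀ u, |φ u| ≤ 1) (hφ0 : ∫ u, φ u ∂μ = 0)
    {w : ℕ} (hw : 1 ≤ w) (T Y m : ℕ) (c : ℝ) (N : ℕ) :
    ∫ g, ∑ b ∈ Icc (-(N * (m + 1) : ℤ)) (N * (m + 1)), Usk φ w T Y m c g N b ∂(law μ) ≤
      ((2 * m + 3) * Real.exp (c ^ 2 * (5 * w * T))) ^ N := by
  induction N with
  | zero =>
    simp [Usk, ind_true]
  | succ N ih =>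
    set E : ℝ := Real.exp (c ^ 2 * (5 * w * T)) with hE
    have hE0 : 0 ≤ E := (Real.exp_pos _).le
    set u : ℤ → ℝ := fun a => ∫ g, Usk φ w T Y m c g N a ∂(law μ) with hu
    have hu0 : ∀ a, 0 ≤ u a := fun a =>
      integral_nonneg fun g => LocB_Usk_nonneg φ w T Y m c g N a
    have huz : ∀ a, a ∉ Icc (-(N * (m + 1) : ℤ)) (N * (m + 1)) → u a = 0 := by
      intro a ha
      simp only [hu]
      simp only [LocB_Usk_zero φ w T Y m c _ N a ha]
      simp
    have hsumu : ∑ a ∈ Icc (-(N * (m + 1) : ℤ)) (N * (m + 1)), u a ≤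
        ((2 * m + 3) * E) ^ N := by
      rw [← integral_finsetSum _ fun a _ => (LocB_PMom_Usk hφm hφ1 w T Y m c N a).integrable]
      exact ih
    have hterm : ∀ a b : ℤ,
        ∫ g, Usk φ w T Y m c g N a * Real.exp (c * Xch φ w T Y g N a b) ∂(law μ) ≤ u a * E := by
      intro a b
      have hXm := (LocB_EMom_Xch (μ := μ) hφm hφ1 w T Y N a b).measurable
      have hUm := (LocB_PMom_Usk (μ := μ) hφm hφ1 w T Y m c N a).measurable
      rw [integral_mul_indep (rows 0 (N * T)) hUm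
        (by fun_prop) (LocB_dep_Usk φ w T Y m c N a) ?_]
      · exact mul_le_mul_of_nonneg_left (Xch_exp hφm hφ1 hφ0 hw T Y N a b c) (hu0 a)
      · intro g g' hg
        have h2 := LocB_dep_Xch φ w T Y N a b (x := g) (y := g') fun p hp =>
          hg p (rows_subset_compl le_rfl hp)
        simp only at h2 ⊢
        rw [h2]
    have hI : ∀ a b : ℤ, Integrable
        (fun g => Usk φ w T Y m c g N a * Real.exp (c * Xch φ w T Y g N a b)) (law μ) :=
      fun a b => ((LocB_PMom_Usk hφm hφ1 w T Y m c N a).mul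
        ((LocB_EMom_Xch hφm hφ1 w T Y N a b).exp_pmom c)).integrable
    have h1 : ∫ g, ∑ b ∈ Icc (-(((N + 1 : ℕ) : ℤ) * (m + 1))) (((N + 1 : ℕ) : ℤ) * (m + 1)),
        Usk φ w T Y m c g (N + 1) b ∂(law μ) =
        ∑ b ∈ Icc (-(((N + 1 : ℕ) : ℤ) * (m + 1))) (((N + 1 : ℕ) : ℤ) * (m + 1)),
          ∑ a ∈ Icc (b - ((m : ℤ) + 1)) (b + (m + 1)),
          ∫ g, Usk φ w T Y m c g N a * Real.exp (c * Xch φ w T Y g N a b) ∂(law μ) := by
      rw [integral_finsetSum _ fun b _ => (LocB_PMom_Usk hφm hφ1 w T Y m c (N + 1) b).integrable]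
      refine Finset.sum_congr rfl fun b _ => ?_
      simp only [Usk]
      rw [integral_finsetSum _ fun a _ => hI a b]
    rw [h1]
    have h2 : ∑ b ∈ Icc (-(((N + 1 : ℕ) : ℤ) * (m + 1))) (((N + 1 : ℕ) : ℤ) * (m + 1)),
          ∑ a ∈ Icc (b - ((m : ℤ) + 1)) (b + (m + 1)),
          ∫ g, Usk φ w T Y m c g N a * Real.exp (c * Xch φ w T Y g N a b) ∂(law μ) ≤
        ∑ b ∈ Icc (-(((N + 1 : ℕ) : ℤ) * (m + 1))) (((N + 1 : ℕ) : ℤ) * (m + 1)),
          ∑ a ∈ Icc (-(N * (m + 1) : ℤ)) (N * (m + 1)),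
            if a ∈ Icc (b - ((m : ℤ) + 1)) (b + (m + 1)) then u a * E else 0 := by
      refine Finset.sum_le_sum fun b _ => ?_
      calc ∑ a ∈ Icc (b - ((m : ℤ) + 1)) (b + (m + 1)),
          ∫ g, Usk φ w T Y m c g N a * Real.exp (c * Xch φ w T Y g N a b) ∂(law μ)
          ≤ ∑ a ∈ Icc (b - ((m : ℤ) + 1)) (b + (m + 1)), u a * E :=
            Finset.sum_le_sum fun a _ => hterm a b
        _ = ∑ a ∈ (Icc (b - ((m : ℤ) + 1)) (b + (m + 1))).filter
              (fun a => a ∈ Icc (-(N * (m + 1) : ℤ)) (N * (m + 1))), u a * E := by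
            rw [Finset.sum_filter]
            refine Finset.sum_congr rfl fun a _ => ?_
            split_ifs with h
            · rfl
            · rw [huz a h, zero_mul]
        _ = ∑ a ∈ (Icc (-(N * (m + 1) : ℤ)) (N * (m + 1))).filter
              (fun a => a ∈ Icc (b - ((m : ℤ) + 1)) (b + (m + 1))), u a * E := by
            refine Finset.sum_congr ?_ fun _ _ => rfl
            ext a
            simp only [Finset.mem_filter]
            tauto
        _ ≤ _ := le_of_eq (Finset.sum_filter _ _)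
    refine h2.trans ?_
    rw [Finset.sum_comm]
    have h3 : ∀ a ∈ Icc (-(N * (m + 1) : ℤ)) (N * (m + 1)),
        ∑ b ∈ Icc (-(((N + 1 : ℕ) : ℤ) * (m + 1))) (((N + 1 : ℕ) : ℤ) * (m + 1)),
          (if a ∈ Icc (b - ((m : ℤ) + 1)) (b + (m + 1)) then u a * E else 0) ≤
        (2 * m + 3) * (u a * E) := by
      intro a _
      rw [← Finset.sum_filter, Finset.sum_const, nsmul_eq_mul]
      refine mul_le_mul_of_nonneg_right ?_ (mul_nonneg (hu0 a) hE0)
      have h4 : ((Icc (-(((N + 1 : ℕ) : ℤ) * (m + 1))) (((N + 1 : ℕ) : ℤ) * (m + 1))).filter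
          (fun b => a ∈ Icc (b - ((m : ℤ) + 1)) (b + (m + 1)))).card ≤ 2 * m + 3 := by
        have h5 : (Icc (-(((N + 1 : ℕ) : ℤ) * (m + 1))) (((N + 1 : ℕ) : ℤ) * (m + 1))).filter
            (fun b => a ∈ Icc (b - ((m : ℤ) + 1)) (b + (m + 1))) ⊆
            Icc (a - ((m : ℤ) + 1)) (a + (m + 1)) := by
          intro b hb
          have h6 := (Finset.mem_filter.1 hb).2
          rw [Finset.mem_Icc] at h6 ⊢
          constructor <;> linarith [h6.1, h6.2]
        refine (Finset.card_le_card h5).trans ?_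
        rw [Int.card_Icc]
        omega
      exact_mod_cast h4
    refine (Finset.sum_le_sum h3).trans ?_
    rw [← Finset.mul_sum, ← Finset.sum_mul, pow_succ]
    have h7 : (2 * (m : ℝ) + 3) * ((∑ a ∈ Icc (-(N * (m + 1) : ℤ)) (N * (m + 1)), u a) * E) =
        (∑ a ∈ Icc (-(N * (m + 1) : ℤ)) (N * (m + 1)), u a) * ((2 * (m : ℝ) + 3) * E) := by ring
    rw [h7]
    exact mul_le_mul_of_nonneg_right hsumu (by positivity)

/-- **Upper bound.** Proof. For `c > 0`, by `Av_le_log` and `Usk_ge`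
`c * Av (∑_j Xch …) ≤ log (∑_b Usk … N b)` (for every `s`, `cc N s` is in the range); integrate,
Jensen (`∫ log F ≤ log ∫ F`), `integral_Usk`:
`EA (∑ Xch) ≤ N (log (2m+3)/c + 5 c w T)`, `T = m w`. Take `c = √(log (2m+3)/(5 w T))`:
`= 2 N √(5 w T log (2m+3)) = 2 N T √(5 log (2m+3)/m)`. -/
theorem skel_upper {φ : ℝ → ℝ} (hφm : Measurable φ) (hφ1 : ∀ u, |φ u| ≤ 1)
    (hφ0 : ∫ u, φ u ∂μ = 0) (h : ℝ) {w m : ℕ} (hw : 1 ≤ w) (hm : 1 ≤ m) (Y N n : ℕ) :
    EA μ h n (fun g s => ∑ j ∈ range N,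
        Xch φ w (m * w) Y g j (cc w (m * w) j s) (cc w (m * w) (j + 1) s)) ≤
      2 * (N * (m * w)) * Real.sqrt (5 * Real.log (2 * m + 3) / m) := by
  set F : Env → (ℕ → Bool) → ℝ := fun g s => ∑ j ∈ range N,
        Xch φ w (m * w) Y g j (cc w (m * w) j s) (cc w (m * w) (j + 1) s) with hF
  have hwR : (1 : ℝ) ≤ w := by exact_mod_cast hw
  have hmR : (1 : ℝ) ≤ m := by exact_mod_cast hm
  have hPF : PF μ n F := by
    intro s _
    exact PMom.sum _ fun j _ => (LocB_EMom_Xch hφm hφ1 _ _ _ _ _ _).pmom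
  set L : ℝ := Real.log (2 * m + 3) with hL
  have hLpos : 0 < L := Real.log_pos (by linarith)
  set D : ℝ := 5 * w * (m * w) with hD
  have hDpos : 0 < D := by positivity
  have key : ∀ c : ℝ, 0 < c → c * EA μ h n F ≤ N * (L + c ^ 2 * D) := by
    intro c hc
    set K : ℝ := ((2 * m + 3) * Real.exp (c ^ 2 * (5 * w * ((m * w : ℕ) : ℝ)))) ^ N with hK
    have hKpos : 0 < K := by positivity
    set S : Env → ℝ := fun g => ∑ b ∈ Icc (-(N * (m + 1) : ℤ)) (N * (m + 1)),
      Usk φ w (m * w) Y m c g N b with hS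
    have hSint : Integrable S (law μ) :=
      (PMom.sum _ fun b _ => LocB_PMom_Usk hφm hφ1 w (m * w) Y m c N b).integrable
    have hSle : ∫ g, S g ∂(law μ) ≤ K := integral_Usk hφm hφ1 hφ0 hw (m * w) Y m c N
    have hexp : ∀ g s, Real.exp (c * F g s) ≤ S g := by
      intro g s
      refine (Usk_ge φ hw Y c g s N).trans ?_
      exact Finset.single_le_sum (f := fun b => Usk φ w (m * w) Y m c g N b)
        (fun b _ => LocB_Usk_nonneg φ w (m * w) Y m c g N b) (LocB_cc_abs hw s N)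
    have hpt : ∀ g, c * Av g h 0 0 n (F g) ≤ Real.log K + S g / K - 1 := by
      intro g
      have hSpos : 0 < S g := by
        obtain ⟨s, _⟩ := T_nonempty n
        exact lt_of_lt_of_le (Real.exp_pos _) (hexp g s)
      rw [← Av_mul_left]
      refine (Av_le_log _).trans ?_
      have h1 : Real.log (Av g h 0 0 n fun s => Real.exp (c * F g s)) ≤ Real.log (S g) :=
        Real.log_le_log (Av_pos fun s _ => Real.exp_pos _) (Av_le fun s _ => hexp g s)
      refine h1.trans ?_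
      have h2 := Real.log_le_sub_one_of_pos (div_pos hSpos hKpos)
      rw [Real.log_div hSpos.ne' hKpos.ne'] at h2
      linarith
    have h3 : c * EA μ h n F ≤ ∫ g, (Real.log K + S g / K - 1) ∂(law μ) := by
      unfold EA
      rw [← integral_const_mul]
      refine integral_mono (hPF.integrable.const_mul c) ?_ hpt
      exact (((integrable_const _).add (hSint.div_const K)).sub (integrable_const _))
    have h4 : ∫ g, (Real.log K + S g / K - 1) ∂(law μ) ≤ Real.log K := by
      have h7 : Integrable (fun _ : Env => Real.log K) (law μ) := integrable_const _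
      have h8 : Integrable (fun g : Env => S g / K) (law μ) := hSint.div_const K
      have h9 : Integrable (fun g : Env => Real.log K + S g / K) (law μ) := h7.add h8
      have h10 : ∫ g, (Real.log K + S g / K - 1) ∂(law μ) =
          Real.log K + (∫ g, S g ∂(law μ)) / K - 1 := by
        rw [integral_sub h9 (integrable_const _), integral_add h7 h8, integral_div]
        simp
      rw [h10]
      have h5 : (∫ g, S g ∂(law μ)) / K ≤ 1 := (div_le_one hKpos).2 hSle
      linarith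
    have h6 : Real.log K = N * (L + c ^ 2 * D) := by
      rw [hK, Real.log_pow, Real.log_mul (by positivity) (Real.exp_pos _).ne', Real.log_exp]
      push_cast
      rfl
    linarith
  set c : ℝ := Real.sqrt (L / D) with hc
  have hcpos : 0 < c := Real.sqrt_pos.2 (div_pos hLpos hDpos)
  have hc2 : c ^ 2 = L / D := Real.sq_sqrt (div_pos hLpos hDpos).le
  have h1 := key c hcpos
  have h2 : c ^ 2 * D = L := by rw [hc2]; field_simp
  rw [h2] at h1
  have h3 : c * ((m * w) * Real.sqrt (5 * L / m)) = L := by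
    have h4 : (m * w) * Real.sqrt (5 * L / m) = Real.sqrt (L * D) := by
      rw [← Real.sqrt_sq (show (0 : ℝ) ≤ m * w by positivity), ← Real.sqrt_mul (sq_nonneg _)]
      congr 1
      rw [hD]
      field_simp
    rw [h4, hc, ← Real.sqrt_mul (div_pos hLpos hDpos).le]
    have h5 : L / D * (L * D) = L ^ 2 := by field_simp
    rw [h5, Real.sqrt_sq hLpos.le]
  have h6 : c * EA μ h n F ≤ c * (2 * (N * (m * w)) * Real.sqrt (5 * L / m)) := by
    calc c * EA μ h n F ≤ N * (L + L) := h1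
      _ = 2 * N * L := by ring
      _ = 2 * N * (c * ((m * w) * Real.sqrt (5 * L / m))) := by rw [h3]
      _ = c * (2 * (N * (m * w)) * Real.sqrt (5 * L / m)) := by ring
  exact le_of_mul_le_mul_left h6 hcpos

end

end Pool.Agent.W_7d29a1_h47
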