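import Pool.Agent.W_7d29a1_h47.Path

/-!
# Path surgery inside a block
-/

namespace Pool.Agent.W_7d29a1_h47

open MeasureTheory ProbabilityTheory Finset

noncomputable section

/-- Positions of the walk with `u` steps up, then down. -/
lemma Surg_pos (u i : ℕ) : pos (fun j => decide (j < u)) i = 2 * (min i u : ℕ) - (i : ℤ) := by
  induction i with
  | zero => simp
  | succ i ih =>
    rw [pos_succ, ih]
    by_cases h : i < u
    · have h1 : min (i + 1) u = i + 1 := min_eq_left h
      have h2 : min i u = i := min_eq_left h.le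
      rw [h1, h2]
      simp only [h, decide_true, stp_true]
      push_cast
      ring
    · have h1 : min (i + 1) u = u := min_eq_right (by omega)
      have h2 : min i u = u := min_eq_right (by omega)
      rw [h1, h2]
      simp only [h, decide_false, stp_false]
      push_cast
      ring

/-- Every displacement of the right parity is realised. Proof. First `(m + d)/2` steps up, then
down. -/
lemma exists_path {m : ℕ} {d : ℤ} (h1 : |d| ≤ m) (h2 : d % 2 = m % 2) : ∃ r ∈ T m, pos r m = d := by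
  obtain ⟨h3, h4⟩ := abs_le.1 h1
  have h5 : 0 ≤ ((m : ℤ) + d) / 2 := by omega
  obtain ⟨u, hu⟩ := Int.eq_ofNat_of_zero_le h5
  have hum : u ≤ m := by omega
  refine ⟨fun j => decide (j < u), ?_, ?_⟩
  · rw [mem_T]
    intro i hi
    have : ¬ i < u := by omega
    simp [this]
  · rw [Surg_pos, min_eq_right hum]
    omega

/-- Replacement of the steps in `[k, k + L)` by `r`. -/
def repl (k L : ℕ) (s r : ℕ → Bool) : ℕ → Bool := fun i =>
  if i < k then s i else if i < k + L then r (i - k) else s i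

lemma repl_mem {k L n : ℕ} (hk : k + L ≤ n) {s r : ℕ → Bool} (hs : s ∈ T n) : repl k L s r ∈ T n := by
  rw [mem_T] at hs ⊢
  intro i hi
  have h1 : ¬ i < k := by omega
  have h2 : ¬ i < k + L := by omega
  simp only [repl, h1, h2, if_false]
  exact hs i hi

lemma pos_repl_le {k L i : ℕ} (hi : i ≤ k) (s r : ℕ → Bool) : pos (repl k L s r) i = pos s i := by
  refine pos_congr fun j hj => ?_
  have h1 : j < k := by omega
  simp only [repl, h1, if_true]

lemma pos_repl_mid {k L i : ℕ} (hi : i ≤ L) (s r : ℕ → Bool) :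
    pos (repl k L s r) (k + i) = pos s k + pos r i := by
  rw [pos_add, pos_repl_le le_rfl]
  congr 1
  refine pos_congr fun j hj => ?_
  have h1 : ¬ k + j < k := by omega
  have h2 : k + j < k + L := by omega
  simp only [shf, repl, h1, h2, if_true, if_false]
  rw [Nat.add_sub_cancel_left]

lemma Surg_shf (k L : ℕ) (s r : ℕ → Bool) : shf (k + L) (repl k L s r) = shf (k + L) s := by
  funext i
  have h1 : ¬ k + L + i < k := by omega
  have h2 : ¬ k + L + i < k + L := by omega
  simp only [shf, repl, h1, h2, if_false]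

/-- If the displacement is the same, positions after the block do not change. -/
lemma pos_repl_ge {k L i : ℕ} (hi : k + L ≤ i) {s r : ℕ → Bool}
    (hr : pos r L = pos s (k + L) - pos s k) : pos (repl k L s r) i = pos s i := by
  obtain ⟨j, rfl⟩ := Nat.exists_eq_add_of_le hi
  rw [pos_add (repl k L s r) (k + L) j, pos_add s (k + L) j, Surg_shf, pos_repl_mid le_rfl, hr]
  ring

/-- Undoing a replacement. -/
lemma repl_repl (k L : ℕ) (s r : ℕ → Bool) : repl k L (repl k L s r) (cut L (shf k s)) = s := by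
  funext i
  by_cases h1 : i < k
  · simp only [repl, h1, if_true]
  · by_cases h2 : i < k + L
    · have h3 : i - k < L := by omega
      have h4 : k + (i - k) = i := by omega
      simp only [repl, h1, h2, if_true, if_false, cut, h3, shf, h4]
    · simp only [repl, h1, h2, if_false]

/-- The weights of two paths that differ only in the block `[k, k+L)` (same displacement) differ at
most by the factor `e^{2 V}`, `V` the noise of the cone of the block. Proof. The energies differ only
in rows `k..k+L-1`, and each block energy is at most `V g k (pos s k) L` in absolute value. -/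
lemma wt_repl_le (g : Env) (h : ℝ) {k L n : ℕ} (hk : k + L ≤ n) {s r : ℕ → Bool}
    (hr : pos r L = pos s (k + L) - pos s k) :
    wt g h 0 0 n s ≤ Real.exp (2 * V g k (pos s k) L) * wt g h 0 0 n (repl k L s r) := by
  obtain ⟨m, rfl⟩ := Nat.exists_eq_add_of_le hk
  have hpos : pos (repl k L s r) (k + L + m) = pos s (k + L + m) := pos_repl_ge (by omega) hr
  have hposL : pos (repl k L s r) (k + L) = pos s (k + L) := pos_repl_ge le_rfl hr
  have hposk : pos (repl k L s r) k = pos s k := pos_repl_le le_rfl s r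
  have hE1 : En g 0 0 k (repl k L s r) = En g 0 0 k s := by
    refine En_congr fun j hj => ?_
    simp only [repl, hj, if_true]
  have h1 := En_abs_le g (0 + k) (0 + pos s k) L (shf k s)
  have h2 := En_abs_le g (0 + k) (0 + pos s k) L (shf k (repl k L s r))
  rw [zero_add, zero_add] at h1 h2
  unfold wt
  rw [← Real.exp_add, hpos]
  apply Real.exp_le_exp.2
  rw [En_add g 0 0 (k + L) m s, En_add g 0 0 k L s, En_add g 0 0 (k + L) m (repl k L s r),
    En_add g 0 0 k L (repl k L s r), hE1, hposk, hposL, Surg_shf, zero_add, zero_add]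
  have h3 := (abs_le.1 h1).2
  have h4 := (abs_le.1 h2).1
  simp only [zero_add]
  linarith

/-- The good block event: replicas close at both ends, moderate displacements, moderate noise. -/
def good (g : Env) (Q ρ : ℝ) (w L k : ℕ) (s r : ℕ → Bool) : Prop :=
  |pos s k - pos r k| ≤ 4 * (w : ℤ) ∧ |pos s (k + L) - pos r (k + L)| ≤ 4 * (w : ℤ) ∧
    |(pos s (k + L) : ℝ) - pos s k| ≤ ρ * L ∧ |(pos r (k + L) : ℝ) - pos r k| ≤ ρ * L ∧
    V g k (pos s k) L ≤ Q ∧ V g k (pos r k) L ≤ Q

/-- In a good block one can replace both block paths such that they meet. Proof. Let `x, x', y, y'`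
be the end points, `τ = L / 2`, and `z` an integer with the parity of `x + τ` and
`|z - (x + y)/2| ≤ 1`. Then `|z - x| ≤ ρ L/2 + 1`, `|z - x'| ≤ ρL/2 + 1 + 4w`,
`|y - z|, |y' - z| ≤ ρL/2 + 1 + 4w`, all `≤ τ` resp. `L - τ` by `hL`; parities agree (`pos_parity`).
Take paths from `exists_path` and glue them. -/
lemma exists_meet {g : Env} {Q ρ : ℝ} {w L k : ℕ} {s r : ℕ → Bool} (hρ0 : 0 ≤ ρ)
    (hL : 4 * (w : ℝ) + 3 ≤ (1 - ρ) * L / 2) (hg : good g Q ρ w L k s r) :
    ∃ a ∈ T L, ∃ b ∈ T L, pos a L = pos s (k + L) - pos s k ∧ pos b L = pos r (k + L) - pos r k ∧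
      ∃ i ≤ L, pos s k + pos a i = pos r k + pos b i := by
  obtain ⟨h1, h2, h3, h4, -, -⟩ := hg
  obtain ⟨τ, hτ⟩ : ∃ τ : ℕ, τ = L / 2 := ⟨_, rfl⟩
  have hτL : τ ≤ L := by omega
  have px := pos_parity s k
  have px' := pos_parity r k
  have py := pos_parity s (k + L)
  have py' := pos_parity r (k + L)
  generalize pos s k = x at *
  generalize pos r k = x' at *
  generalize pos s (k + L) = y at *
  generalize pos r (k + L) = y' at *
  -- the meeting point
  obtain ⟨z, hz1, hz2, hz3⟩ : ∃ z : ℤ, (z - x - τ) % 2 = 0 ∧ 2 * z ≤ x + y + 2 ∧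
      x + y - 2 ≤ 2 * z := by
    by_cases hp : ((x + y) / 2 - x - τ) % 2 = 0
    · exact ⟨(x + y) / 2, hp, by omega, by omega⟩
    · exact ⟨(x + y) / 2 + 1, by omega, by omega, by omega⟩
  have hz2' : 2 * (z : ℝ) ≤ x + y + 2 := by exact_mod_cast hz2
  have hz3' : (x : ℝ) + y - 2 ≤ 2 * z := by exact_mod_cast hz3
  have h1' : |(x : ℝ) - x'| ≤ 4 * w := by exact_mod_cast h1
  have h2' : |(y : ℝ) - y'| ≤ 4 * w := by exact_mod_cast h2
  obtain ⟨a1, a2⟩ := abs_le.1 h1'
  obtain ⟨b1, b2⟩ := abs_le.1 h2'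
  obtain ⟨c1, c2⟩ := abs_le.1 h3
  obtain ⟨d1, d2⟩ := abs_le.1 h4
  have hτ1 : (L : ℝ) ≤ 2 * τ + 1 := by
    have : L ≤ 2 * τ + 1 := by omega
    exact_mod_cast this
  have hτ2 : 2 * (τ : ℝ) ≤ L := by
    have : 2 * τ ≤ L := by omega
    exact_mod_cast this
  have hτ3 : ((L - τ : ℕ) : ℝ) = L - τ := by
    rw [Nat.cast_sub hτL]
  have hw : (0 : ℝ) ≤ w := Nat.cast_nonneg w
  have e1 : |z - x| ≤ (τ : ℤ) := by
    have : |(z : ℝ) - x| ≤ τ := by
      rw [abs_le]
      constructor <;> nlinarith
    exact_mod_cast this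
  have e2 : |z - x'| ≤ (τ : ℤ) := by
    have : |(z : ℝ) - x'| ≤ τ := by
      rw [abs_le]
      constructor <;> nlinarith
    exact_mod_cast this
  have e3 : |y - z| ≤ ((L - τ : ℕ) : ℤ) := by
    have : |(y : ℝ) - z| ≤ ((L - τ : ℕ) : ℝ) := by
      rw [hτ3, abs_le]
      constructor <;> nlinarith
    exact_mod_cast this
  have e4 : |y' - z| ≤ ((L - τ : ℕ) : ℤ) := by
    have : |(y' : ℝ) - z| ≤ ((L - τ : ℕ) : ℝ) := by
      rw [hτ3, abs_le]
      constructor <;> nlinarith
    exact_mod_cast this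
  push_cast at py py'
  obtain ⟨p1, hp1, hp1'⟩ := exists_path e1 (by omega)
  obtain ⟨q1, hq1, hq1'⟩ := exists_path e2 (by omega)
  obtain ⟨p2, hp2, hp2'⟩ := exists_path e3 (by omega)
  obtain ⟨q2, hq2, hq2'⟩ := exists_path e4 (by omega)
  have hL' : τ + (L - τ) = L := by omega
  refine ⟨glue τ p1 p2, ?_, glue τ q1 q2, ?_, ?_, ?_, τ, hτL, ?_⟩
  · have := glue_mem (a := τ) (s := p1) hp2
    rwa [hL'] at this
  · have := glue_mem (a := τ) (s := q1) hq2
    rwa [hL'] at this
  · have := pos_glue_add τ (L - τ) p1 p2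
    rw [hL', hp1', hp2'] at this
    rw [this]
    ring
  · have := pos_glue_add τ (L - τ) q1 q2
    rw [hL', hq1', hq2'] at this
    rw [this]
    ring
  · rw [pos_glue_le le_rfl, pos_glue_le le_rfl, hp1', hq1']
    ring

end

end Pool.Agent.W_7d29a1_h47
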