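import Pool.Agent.W_7d29a1_h47.Close
import Pool.Agent.W_7d29a1_h47.Surg

/-!
# Most blocks are good
-/

namespace Pool.Agent.W_7d29a1_h47

open MeasureTheory ProbabilityTheory Finset

noncomputable section

variable {μ : Measure ℝ} [IsProbabilityMeasure μ]

lemma MeetA_CN_nonneg : 0 ≤ CN μ (fun u => |u|) := by
  unfold CN
  exact div_nonneg (integral_nonneg fun u => by positivity) (integral_nonneg fun u => by positivity)

lemma MeetA_V_eq (g : Env) (k : ℕ) (x : ℤ) (L : ℕ) :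
    V g k x L = ∑ i ∈ range L, ∑ z ∈ Icc (-((i : ℤ) + 1)) ((i : ℤ) + 1), |g (k + i, x + z)| := by
  unfold V
  refine Finset.sum_congr rfl fun i _ => ?_
  refine Finset.sum_bij' (fun y _ => y - x) (fun z _ => x + z) ?_ ?_ ?_ ?_ ?_
  · intro y hy
    rw [Finset.mem_Icc] at hy ⊢
    constructor <;> omega
  · intro y hy
    rw [Finset.mem_Icc] at hy ⊢
    constructor <;> omega
  · intro y _
    simp
  · intro y _
    simp
  · intro y _
    simp

lemma MeetA_PF (hμ : EM μ) (n k i : ℕ) (z : ℤ) :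
    PF μ n (fun g s => |g (k + i, pos s k + z)|) := fun s _ => (EMom_coord hμ _).abs.pmom

lemma MeetA_PF_V (hμ : EM μ) (n k L : ℕ) :
    PF μ n (fun g s => V g k (pos s k) L) := fun s _ => (EMom_V hμ _ _ _).pmom

/-- The cone noise at a point of the path. Proof. `noise` with `Ψ = |·|` for each of the
`∑_{i<L} (2i+3) ≤ L (2L+1)` sites `(k+i, pos s k + z)`, `|z| ≤ i+1`. -/
lemma EA_V_le (hμ : EM μ) (h : ℝ) (n k L : ℕ) :
    EA μ h n (fun g s => V g k (pos s k) L) ≤ L * (2 * L + 1) * CN μ (fun u => |u|) := by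
  have h1 : EA μ h n (fun g s => V g k (pos s k) L) =
      ∑ i ∈ range L, ∑ z ∈ Icc (-((i : ℤ) + 1)) ((i : ℤ) + 1),
        EA μ h n (fun g s => |g (k + i, pos s k + z)|) := by
    rw [EA_congr (G := fun g s => ∑ i ∈ range L, ∑ z ∈ Icc (-((i : ℤ) + 1)) ((i : ℤ) + 1),
      |g (k + i, pos s k + z)|) fun g s _ => MeetA_V_eq g k (pos s k) L]
    rw [EA_sum (range L) (F := fun i g s => ∑ z ∈ Icc (-((i : ℤ) + 1)) ((i : ℤ) + 1),
      |g (k + i, pos s k + z)|) fun i _ => PF.sum _ fun z _ => MeetA_PF hμ n k i z]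
    refine Finset.sum_congr rfl fun i _ => ?_
    exact EA_sum (Icc (-((i : ℤ) + 1)) ((i : ℤ) + 1))
      (F := fun z g s => |g (k + i, pos s k + z)|) fun z _ => MeetA_PF hμ n k i z
  rw [h1]
  have hint : Integrable (fun u : ℝ => |u| * Real.exp |u|) μ := by
    refine (hμ 2).mono' (by fun_prop) (Filter.Eventually.of_forall fun u => ?_)
    rw [Real.norm_eq_abs, abs_of_nonneg (by positivity), show 2 * |u| = |u| + |u| by ring,
      Real.exp_add]
    refine mul_le_mul_of_nonneg_right ?_ (Real.exp_pos _).le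
    linarith [Real.add_one_le_exp |u|]
  have h2 : ∀ i ∈ range L, ∀ z ∈ Icc (-((i : ℤ) + 1)) ((i : ℤ) + 1),
      EA μ h n (fun g s => |g (k + i, pos s k + z)|) ≤ CN μ (fun u => |u|) := by
    intro i _ z _
    exact noise hμ (Ψ := fun u => |u|) (by fun_prop) (fun u => abs_nonneg u)
      (fun p => (EMom_coord hμ p).abs.pmom) hint h n (k + i) (fun s => pos s k + z)
  have h3 : ∀ i ∈ range L, ∑ z ∈ Icc (-((i : ℤ) + 1)) ((i : ℤ) + 1),
      EA μ h n (fun g s => |g (k + i, pos s k + z)|) ≤ (2 * L + 1) * CN μ (fun u => |u|) := by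
    intro i hi
    refine (Finset.sum_le_card_nsmul _ _ _ (h2 i hi)).trans ?_
    rw [nsmul_eq_mul]
    refine mul_le_mul_of_nonneg_right ?_ MeetA_CN_nonneg
    rw [Int.card_Icc]
    have h4 : ((i : ℤ) + 1 + 1 - -((i : ℤ) + 1)).toNat = 2 * i + 3 := by omega
    rw [h4]
    have h5 := Finset.mem_range.1 hi
    have h6 : 2 * i + 3 ≤ 2 * L + 1 := by omega
    exact_mod_cast h6
  refine (Finset.sum_le_card_nsmul _ _ _ h3).trans ?_
  rw [nsmul_eq_mul, Finset.card_range, mul_assoc]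

lemma MeetA_not_good (g : Env) (Q ρ : ℝ) (w L k : ℕ) (s r : ℕ → Bool) :
    ind (¬ good g Q ρ w L k s r) ≤
      ind (4 * (w : ℝ) < |(pos s k : ℝ) - pos r k|) +
      ind (4 * (w : ℝ) < |(pos s (k + L) : ℝ) - pos r (k + L)|) +
      ind (ρ * L < |(pos s (k + L) : ℝ) - pos s k|) +
      ind (ρ * L < |(pos r (k + L) : ℝ) - pos r k|) +
      ind (Q < V g k (pos s k) L) + ind (Q < V g k (pos r k) L) := by
  by_cases hg : good g Q ρ w L k s r
  · rw [ind_false (not_not.2 hg)]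
    have := ind_nonneg (4 * (w : ℝ) < |(pos s k : ℝ) - pos r k|)
    have := ind_nonneg (4 * (w : ℝ) < |(pos s (k + L) : ℝ) - pos r (k + L)|)
    have := ind_nonneg (ρ * L < |(pos s (k + L) : ℝ) - pos s k|)
    have := ind_nonneg (ρ * L < |(pos r (k + L) : ℝ) - pos r k|)
    have := ind_nonneg (Q < V g k (pos s k) L)
    have := ind_nonneg (Q < V g k (pos r k) L)
    linarith
  · rw [ind_true hg]
    by_contra hc
    push Not at hc
    have e1 := ind_nonneg (4 * (w : ℝ) < |(pos s k : ℝ) - pos r k|)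
    have e2 := ind_nonneg (4 * (w : ℝ) < |(pos s (k + L) : ℝ) - pos r (k + L)|)
    have e3 := ind_nonneg (ρ * L < |(pos s (k + L) : ℝ) - pos s k|)
    have e4 := ind_nonneg (ρ * L < |(pos r (k + L) : ℝ) - pos r k|)
    have e5 := ind_nonneg (Q < V g k (pos s k) L)
    have e6 := ind_nonneg (Q < V g k (pos r k) L)
    have aux : ∀ p : Prop, ind p < 1 → ¬ p := fun p hp h => by rw [ind_true h] at hp; linarith
    have f1 := not_lt.1 (aux _ (by linarith : ind (4 * (w : ℝ) < |(pos s k : ℝ) - pos r k|) < 1))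
    have f2 := not_lt.1 (aux _ (by linarith :
      ind (4 * (w : ℝ) < |(pos s (k + L) : ℝ) - pos r (k + L)|) < 1))
    have f3 := not_lt.1 (aux _ (by linarith : ind (ρ * L < |(pos s (k + L) : ℝ) - pos s k|) < 1))
    have f4 := not_lt.1 (aux _ (by linarith : ind (ρ * L < |(pos r (k + L) : ℝ) - pos r k|) < 1))
    have f5 := not_lt.1 (aux _ (by linarith : ind (Q < V g k (pos s k) L) < 1))
    have f6 := not_lt.1 (aux _ (by linarith : ind (Q < V g k (pos r k) L) < 1))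
    refine hg ⟨?_, ?_, f3, f4, f5, f6⟩
    · exact_mod_cast f1
    · exact_mod_cast f2

/-- The displacement events. -/
lemma MeetA_disp {v : ℝ} (hv : |v| < 1) {L : ℕ} (hL : 1 ≤ L) (d : ℝ) :
    ind ((1 + |v|) / 2 * L < |d|) ≤ ((1 - |v|) / 2 * L)⁻¹ * |d - v * L| := by
  have hL' : (1 : ℝ) ≤ L := by exact_mod_cast hL
  have hc : 0 < (1 - |v|) / 2 * L := by
    have : 0 < 1 - |v| := by linarith
    positivity
  have h1 : ind ((1 + |v|) / 2 * L < |d|) ≤ ind ((1 - |v|) / 2 * L ≤ |d - v * L|) := by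
    refine ind_mono fun h => ?_
    have h2 : |d| ≤ |d - v * L| + |v| * L := by
      have h3 := abs_add_le (d - v * L) (v * L)
      rw [abs_mul v (L : ℝ), abs_of_pos (by linarith : (0 : ℝ) < L)] at h3
      simpa using h3
    nlinarith
  refine h1.trans ((ind_le_div hc (abs_nonneg _)).trans ?_)
  rw [div_eq_mul_inv, mul_comm]

lemma MeetA_noise {Q : ℝ} (hQ : 0 < Q) {x : ℝ} (hx : 0 ≤ x) : ind (Q < x) ≤ Q⁻¹ * x := by
  refine (ind_mono fun h : Q < x => h.le).trans ((ind_le_div hQ hx).trans ?_)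
  rw [div_eq_mul_inv, mul_comm]

/-- For given parameters: the total bound. -/
lemma MeetA_total (hμ : EM μ) {h₀ v : ℝ} (hv : |v| < 1) {w L n : ℕ} {Q : ℝ} (hQ : 0 < Q)
    (hL : 1 ≤ L) (hn : L ≤ n) {A B : ℝ}
    (hA : ∑ k ∈ range (n - L + 1), EA2 μ h₀ n (fun _ s r =>
        ind (4 * (w : ℝ) < |(pos s k : ℝ) - pos r k|)) ≤ A)
    (hB : ∑ k ∈ range (n - L + 1), EA μ h₀ n (fun _ s =>
        |(pos s (k + L) : ℝ) - pos s k - v * L|) ≤ B) :
    ∑ k ∈ range (n - L + 1), EA2 μ h₀ n (fun g s r =>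
        ind (¬ good g Q ((1 + |v|) / 2) w L k s r)) ≤
      A + (A + L) + 2 * (((1 - |v|) / 2 * L)⁻¹ * B) +
        2 * (Q⁻¹ * (n * (L * (2 * L + 1) * CN μ (fun u => |u|)))) := by
  classical
  set ρ := (1 + |v|) / 2 with hρ
  set D := ((1 - |v|) / 2 * L)⁻¹ with hD
  have hmeas : ∀ (k : ℕ) (s : ℕ → Bool), MeasurableSet {g : Env | Q < V g k (pos s k) L} :=
    fun k s => measurableSet_lt measurable_const (measurable_V k (pos s k) L)
  -- pointwise in `k`
  have hk : ∀ k ∈ range (n - L + 1), EA2 μ h₀ n (fun g s r => ind (¬ good g Q ρ w L k s r)) ≤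
      EA2 μ h₀ n (fun _ s r => ind (4 * (w : ℝ) < |(pos s k : ℝ) - pos r k|)) +
      EA2 μ h₀ n (fun _ s r => ind (4 * (w : ℝ) < |(pos s (k + L) : ℝ) - pos r (k + L)|)) +
      D * EA μ h₀ n (fun _ s => |(pos s (k + L) : ℝ) - pos s k - v * L|) +
      D * EA μ h₀ n (fun _ s => |(pos s (k + L) : ℝ) - pos s k - v * L|) +
      Q⁻¹ * EA μ h₀ n (fun g s => V g k (pos s k) L) +
      Q⁻¹ * EA μ h₀ n (fun g s => V g k (pos s k) L) := by
    intro k _
    have m1 : PF2 μ n (fun g s r => ind (¬ good g Q ρ w L k s r)) := by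
      refine PF2.ind fun s _ r _ => ?_
      unfold good
      have e : {g : Env | ¬(|pos s k - pos r k| ≤ 4 * (w : ℤ) ∧
          |pos s (k + L) - pos r (k + L)| ≤ 4 * (w : ℤ) ∧
          |(pos s (k + L) : ℝ) - pos s k| ≤ ρ * L ∧ |(pos r (k + L) : ℝ) - pos r k| ≤ ρ * L ∧
          V g k (pos s k) L ≤ Q ∧ V g k (pos r k) L ≤ Q)} =
          ({g : Env | |pos s k - pos r k| ≤ 4 * (w : ℤ)} ∩
          ({g : Env | |pos s (k + L) - pos r (k + L)| ≤ 4 * (w : ℤ)} ∩
          ({g : Env | |(pos s (k + L) : ℝ) - pos s k| ≤ ρ * L} ∩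
          ({g : Env | |(pos r (k + L) : ℝ) - pos r k| ≤ ρ * L} ∩
          ({g : Env | V g k (pos s k) L ≤ Q} ∩ {g : Env | V g k (pos r k) L ≤ Q})))))ᶜ := by
        ext g
        simp only [Set.mem_setOf_eq, Set.mem_compl_iff, Set.mem_inter_iff]
      rw [e]
      refine MeasurableSet.compl ?_
      refine (MeasurableSet.const _).inter ((MeasurableSet.const _).inter
        ((MeasurableSet.const _).inter ((MeasurableSet.const _).inter (MeasurableSet.inter ?_ ?_))))
      · exact measurableSet_le (measurable_V k (pos s k) L) measurable_const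
      · exact measurableSet_le (measurable_V k (pos r k) L) measurable_const
    have m2 : PF2 μ n (fun _ s r => ind (4 * (w : ℝ) < |(pos s k : ℝ) - pos r k|)) :=
      PF2.det _
    have m3 : PF2 μ n (fun _ s r =>
        ind (4 * (w : ℝ) < |(pos s (k + L) : ℝ) - pos r (k + L)|)) := PF2.det _
    have m4 : PF2 μ n (fun _ s (_ : ℕ → Bool) =>
        D * |(pos s (k + L) : ℝ) - pos s k - v * L|) := PF2.det _
    have m5 : PF2 μ n (fun _ (_ : ℕ → Bool) r =>
        D * |(pos r (k + L) : ℝ) - pos r k - v * L|) := PF2.det _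
    have m6 : PF2 μ n (fun g s (_ : ℕ → Bool) => Q⁻¹ * V g k (pos s k) L) :=
      fun s _ r _ => (EMom_V hμ k (pos s k) L).pmom.const_mul _
    have m7 : PF2 μ n (fun g (_ : ℕ → Bool) r => Q⁻¹ * V g k (pos r k) L) :=
      fun s _ r _ => (EMom_V hμ k (pos r k) L).pmom.const_mul _
    have h1 : EA2 μ h₀ n (fun g s r => ind (¬ good g Q ρ w L k s r)) ≤
        EA2 μ h₀ n (fun g s r => ind (4 * (w : ℝ) < |(pos s k : ℝ) - pos r k|) +
          ind (4 * (w : ℝ) < |(pos s (k + L) : ℝ) - pos r (k + L)|) +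
          D * |(pos s (k + L) : ℝ) - pos s k - v * L| +
          D * |(pos r (k + L) : ℝ) - pos r k - v * L| +
          Q⁻¹ * V g k (pos s k) L + Q⁻¹ * V g k (pos r k) L) := by
      refine EA2_mono m1 (((((m2.add m3).add m4).add m5).add m6).add m7) fun g s _ r _ => ?_
      refine (MeetA_not_good g Q ρ w L k s r).trans ?_
      have g1 := MeetA_disp hv hL ((pos s (k + L) : ℝ) - pos s k)
      have g2 := MeetA_disp hv hL ((pos r (k + L) : ℝ) - pos r k)
      have g3 := MeetA_noise hQ (V_nonneg g k (pos s k) L)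
      have g4 := MeetA_noise hQ (V_nonneg g k (pos r k) L)
      rw [← hρ, ← hD] at g1 g2
      linarith
    refine h1.trans (le_of_eq ?_)
    rw [EA2_add ((((m2.add m3).add m4).add m5).add m6) m7, EA2_add (((m2.add m3).add m4).add m5) m6,
      EA2_add ((m2.add m3).add m4) m5, EA2_add (m2.add m3) m4, EA2_add m2 m3]
    rw [EA2_fst (fun g s => D * |(pos s (k + L) : ℝ) - pos s k - v * L|),
      EA2_snd (fun g r => D * |(pos r (k + L) : ℝ) - pos r k - v * L|),
      EA2_fst (fun g s => Q⁻¹ * V g k (pos s k) L), EA2_snd (fun g r => Q⁻¹ * V g k (pos r k) L),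
      EA_const_mul, EA_const_mul]
  refine (Finset.sum_le_sum hk).trans ?_
  simp only [Finset.sum_add_distrib, ← Finset.mul_sum]
  have hD0 : 0 ≤ D := by
    rw [hD]
    have : 0 < 1 - |v| := by linarith
    positivity
  have hQ0 : 0 ≤ Q⁻¹ := by positivity
  -- the noise terms
  have hcard : ((range (n - L + 1)).card : ℝ) ≤ n := by
    rw [Finset.card_range]
    have : n - L + 1 ≤ n := by omega
    exact_mod_cast this
  have hV : ∑ k ∈ range (n - L + 1), EA μ h₀ n (fun g s => V g k (pos s k) L) ≤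
      n * (L * (2 * L + 1) * CN μ (fun u => |u|)) := by
    refine (Finset.sum_le_card_nsmul _ _ _ fun k _ => EA_V_le hμ h₀ n k L).trans ?_
    rw [nsmul_eq_mul]
    refine mul_le_mul_of_nonneg_right hcard ?_
    have := MeetA_CN_nonneg (μ := μ)
    positivity
  -- the shifted sum
  have hS : ∑ k ∈ range (n - L + 1), EA2 μ h₀ n (fun _ s r =>
      ind (4 * (w : ℝ) < |(pos s (k + L) : ℝ) - pos r (k + L)|)) ≤ A + L := by
    set f : ℕ → ℝ := fun k => EA2 μ h₀ n (fun _ s r =>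
      ind (4 * (w : ℝ) < |(pos s k : ℝ) - pos r k|)) with hf
    have f0 : ∀ k, 0 ≤ f k := fun k => EA2_nonneg fun _ _ _ _ _ => ind_nonneg _
    have f1 : ∀ k, f k ≤ 1 := by
      intro k
      have := EA2_mono (μ := μ) (h := h₀) (n := n)
        (PF2.det fun s r => ind (4 * (w : ℝ) < |(pos s k : ℝ) - pos r k|))
        (PF2.det fun _ _ => 1) fun _ _ _ _ _ => ind_le_one _
      rwa [EA2_const] at this
    have e1 : ∑ k ∈ range (n - L + 1), f (k + L) ≤
        ∑ k ∈ range (n - L + 1), f k + ∑ k ∈ Ico (n - L + 1) (n + 1), f k := by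
      have e2 : ∑ k ∈ range (n - L + 1), f (k + L) = ∑ k ∈ Ico L (n + 1), f k := by
        rw [Finset.range_eq_Ico, Finset.sum_Ico_add' f 0 (n - L + 1) L]
        congr 2
        · omega
        · omega
      rw [e2, Finset.range_eq_Ico, Finset.sum_Ico_consecutive f (Nat.zero_le _) (by omega)]
      refine Finset.sum_le_sum_of_subset_of_nonneg ?_ fun k _ _ => f0 k
      exact Finset.Ico_subset_Ico (Nat.zero_le _) le_rfl
    have e3 : ∑ k ∈ Ico (n - L + 1) (n + 1), f k ≤ L := by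
      refine (Finset.sum_le_card_nsmul _ _ _ fun k _ => f1 k).trans ?_
      rw [nsmul_eq_mul, mul_one, Nat.card_Ico]
      have : n + 1 - (n - L + 1) = L := by omega
      rw [this]
    exact e1.trans (add_le_add hA e3)
  have hB' := mul_le_mul_of_nonneg_left hB hD0
  have hV' := mul_le_mul_of_nonneg_left hV hQ0
  linarith

/-- Most blocks are good. Proof. With `ρ = (1 + |v|)/2`, `L = q^4`, `w = q^3`: `ind (¬ good)` is at
most the sum of six indicators; `close` for the first two (for the second, `k + L ≤ n - L` except for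
at most `L` values of `k`, which contribute `≤ L ≤ η' n`), Markov and `drift` with `t = L` for the
displacements (`|Δ| > ρ L` implies `|Δ - v L| ≥ (1-|v|)/2 * L`; `√L (1+log L)/L → 0`), Markov and
`EA_V_le` for the noise, `Q` large depending on `L`. Also `4w + 3 ≤ (1-ρ) L/2` for `q` large. -/
lemma good_avg (hμ : EM μ) (hnd : Nondeg μ) {h₀ δ v : ℝ} (hA : Aff μ h₀ δ v) {η : ℝ} (hη : 0 < η) :
    ∃ (w L : ℕ) (Q ρ : ℝ), 0 ≤ ρ ∧ 1 ≤ L ∧ 4 * (w : ℝ) + 3 ≤ (1 - ρ) * L / 2 ∧ ∃ n₀ : ℕ,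
      ∀ n : ℕ, n₀ ≤ n → ∑ k ∈ range (n - L + 1), EA2 μ h₀ n (fun g s r =>
        ind (¬ good g Q ρ w L k s r)) ≤ η * n := by
  have hv : |v| < 1 := abs_lt.2 ⟨hA.neg_one_lt hμ, hA.lt_one hμ⟩
  set κ : ℝ := (1 - |v|) / 2 with hκ
  have hκ0 : 0 < κ := by rw [hκ]; linarith
  obtain ⟨Q₀, hQ₀, hclose⟩ := close hμ hnd hA (show (0 : ℝ) < η / 7 by positivity)
  obtain ⟨C, hC, hdrift⟩ := drift hμ hA
  -- choice of `q`
  obtain ⟨q₁, hq₁⟩ := exists_nat_ge (14 / κ)
  obtain ⟨q₂, hq₂⟩ := exists_nat_ge (C * 5 / κ / (η / 7))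
  set q : ℕ := max Q₀ (max q₁ q₂) with hq
  have hqQ : Q₀ ≤ q := le_max_left _ _
  have hq1 : 1 ≤ q := hQ₀.trans hqQ
  have hq1' : (1 : ℝ) ≤ q := by exact_mod_cast hq1
  have hqa : 14 / κ ≤ q := hq₁.trans (by exact_mod_cast (le_max_left q₁ q₂).trans (le_max_right _ _))
  have hqb : C * 5 / κ / (η / 7) ≤ q :=
    hq₂.trans (by exact_mod_cast (le_max_right q₁ q₂).trans (le_max_right _ _))
  have hL1 : 1 ≤ q ^ 4 := Nat.one_le_pow _ _ hq1
  set CNv : ℝ := CN μ (fun u => |u|) with hCNv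
  have hCN0 : 0 ≤ CNv := MeetA_CN_nonneg
  set Lr : ℝ := ((q ^ 4 : ℕ) : ℝ) with hLr
  have hLr0 : 0 < Lr := by rw [hLr]; exact_mod_cast hL1
  set Qv : ℝ := (Lr * (2 * Lr + 1) * CNv + 1) / (η / 7) with hQv
  have hQv0 : 0 < Qv := by rw [hQv]; positivity
  obtain ⟨n₁, hn₁⟩ := exists_nat_ge (Lr / (η / 7))
  refine ⟨q ^ 3, q ^ 4, Qv, (1 + |v|) / 2, by positivity, hL1, ?_, max (q ^ 4) n₁, ?_⟩
  · have h1 : 1 - (1 + |v|) / 2 = κ := by rw [hκ]; ring
    rw [h1]
    push_cast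
    have h2 : 14 ≤ κ * q := by
      rw [div_le_iff₀ hκ0] at hqa
      linarith
    have h3 : (1 : ℝ) ≤ (q : ℝ) ^ 3 := one_le_pow₀ hq1'
    have h4 : κ * (q : ℝ) ^ 4 / 2 = (κ * q) * (q : ℝ) ^ 3 / 2 := by ring
    rw [h4]
    nlinarith
  · intro n hn
    have hnL : q ^ 4 ≤ n := (le_max_left _ _).trans hn
    have hn1 : n₁ ≤ n := (le_max_right _ _).trans hn
    have hn1' : (n₁ : ℝ) ≤ n := by exact_mod_cast hn1
    have hn0 : (0 : ℝ) ≤ n := Nat.cast_nonneg n
    have hAA : ∑ k ∈ range (n - q ^ 4 + 1), EA2 μ h₀ n (fun _ s r =>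
        ind (4 * ((q ^ 3 : ℕ) : ℝ) < |(pos s k : ℝ) - pos r k|)) ≤ η / 7 * n := by
      have := hclose q hqQ n hnL
      push_cast
      exact this
    have hBB := hdrift (q ^ 4) n hL1 hnL
    refine (MeetA_total hμ hv hQv0 hL1 hnL hAA hBB).trans ?_
    rw [← hκ, ← hLr, ← hCNv]
    -- the drift term
    have hsq : Real.sqrt Lr = (q : ℝ) ^ 2 := by
      rw [hLr]
      push_cast
      rw [show (q : ℝ) ^ 4 = ((q : ℝ) ^ 2) ^ 2 by ring]
      exact Real.sqrt_sq (by positivity)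
    have hlog : Real.log Lr ≤ 4 * q := by
      rw [hLr]
      push_cast
      rw [Real.log_pow]
      push_cast
      have := Real.log_le_sub_one_of_pos (by linarith : (0 : ℝ) < q)
      linarith
    have t1 : (κ * Lr)⁻¹ * (n * (C * (Real.sqrt Lr * (1 + Real.log Lr)))) ≤ η / 7 * n := by
      rw [hsq]
      have hLq : Lr = (q : ℝ) ^ 4 := by rw [hLr]; push_cast; ring
      have u1 : C * ((q : ℝ) ^ 2 * (1 + Real.log Lr)) ≤ C * ((q : ℝ) ^ 2 * (5 * q)) := by
        refine mul_le_mul_of_nonneg_left (mul_le_mul_of_nonneg_left ?_ (by positivity)) hC.le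
        linarith
      have u2 : C * ((q : ℝ) ^ 2 * (5 * q)) ≤ (η / 7) * (κ * Lr) := by
        rw [hLq]
        have u3 : C * 5 ≤ (η / 7) * κ * q := by
          rw [div_div, div_le_iff₀ (by positivity)] at hqb
          linarith
        calc C * ((q : ℝ) ^ 2 * (5 * q)) = (C * 5) * (q : ℝ) ^ 3 := by ring
          _ ≤ ((η / 7) * κ * q) * (q : ℝ) ^ 3 := mul_le_mul_of_nonneg_right u3 (by positivity)
          _ = (η / 7) * (κ * (q : ℝ) ^ 4) := by ring
      calc (κ * Lr)⁻¹ * (n * (C * ((q : ℝ) ^ 2 * (1 + Real.log Lr))))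
          ≤ (κ * Lr)⁻¹ * (n * ((η / 7) * (κ * Lr))) :=
            mul_le_mul_of_nonneg_left (mul_le_mul_of_nonneg_left (u1.trans u2) hn0) (by positivity)
        _ = η / 7 * n := by field_simp
    -- the noise term
    have t2 : Qv⁻¹ * (n * (Lr * (2 * Lr + 1) * CNv)) ≤ η / 7 * n := by
      have u1 : Lr * (2 * Lr + 1) * CNv ≤ (η / 7) * Qv := by
        rw [hQv, mul_div_cancel₀ _ (by positivity : (η / 7) ≠ 0)]
        linarith
      calc Qv⁻¹ * (n * (Lr * (2 * Lr + 1) * CNv)) ≤ Qv⁻¹ * (n * ((η / 7) * Qv)) :=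
            mul_le_mul_of_nonneg_left (mul_le_mul_of_nonneg_left u1 hn0) (by positivity)
        _ = η / 7 * n := by field_simp
    -- the boundary term
    have t3 : Lr ≤ η / 7 * n := by
      have := hn₁.trans hn1'
      rw [div_le_iff₀ (by positivity)] at this
      linarith
    linarith

end

end Pool.Agent.W_7d29a1_h47
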