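import Pool.Agent.W_7d29a1_h47.Drift

/-!
# Block slopes are bounded away from `-1` and `1`
-/

namespace Pool.Agent.W_7d29a1_h47

open MeasureTheory ProbabilityTheory Finset

noncomputable section

variable {μ : Measure ℝ} [IsProbabilityMeasure μ]

/-- The one block bound, for both directions. -/
lemma SlopeB_block (hμ : EM μ) {h τ v : ℝ} (hs : Lam μ (h + τ) - Lam μ h ≤ v) {θ : ℝ} (hθ : 0 < θ)
    (hθ1 : θ ≤ 1) (t k : ℕ) (x : ℤ) :
    ∑ y ∈ Icc (x - t) (x + t),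
      ∫ g, (Real.exp (max 0 (τ * ((y : ℝ) - x) - v * t)) * Kp g h k x t y) ^ θ ∂(law μ) ≤
        Real.exp (θ * t * Lam μ h + (Real.log (2 * t + 1) + Cc μ * θ ^ 2 * t)) := by
  have h1 : ∀ y ∈ Icc (x - t) (x + t),
      ∫ g, (Real.exp (max 0 (τ * ((y : ℝ) - x) - v * t)) * Kp g h k x t y) ^ θ ∂(law μ) ≤
        Real.exp (θ * t * Lam μ h + Cc μ * θ ^ 2 * t) := by
    intro y _
    rcases le_or_gt 0 (τ * ((y : ℝ) - x) - v * t) with h2 | h2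
    · refine (integral_Kp_rpow hμ h (h + τ) _ k x t y hθ hθ1).trans (Real.exp_le_exp.2 ?_)
      rw [max_eq_right h2]
      have h3 : (t : ℝ) * (Lam μ (h + τ) - Lam μ h) ≤ t * v :=
        mul_le_mul_of_nonneg_left hs (Nat.cast_nonneg t)
      have h4 : θ * (τ * ((y : ℝ) - x) - v * t - (h + τ - h) * ((y : ℝ) - x) + t * Lam μ (h + τ)) ≤
          θ * (t * Lam μ h) := by
        refine mul_le_mul_of_nonneg_left ?_ hθ.le
        have h5 : τ * ((y : ℝ) - x) - v * t - (h + τ - h) * ((y : ℝ) - x) + t * Lam μ (h + τ) =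
            t * (Lam μ (h + τ) - Lam μ h) - t * v + t * Lam μ h := by ring
        rw [h5]
        linarith
      have h6 : θ * (t * Lam μ h) = θ * t * Lam μ h := by ring
      linarith
    · refine (integral_Kp_rpow hμ h h _ k x t y hθ hθ1).trans (le_of_eq ?_)
      rw [max_eq_left h2.le]
      congr 1
      ring
  refine (Finset.sum_le_sum h1).trans (le_of_eq ?_)
  rw [Finset.sum_const, Int.card_Icc, nsmul_eq_mul]
  have h2 : (x + t + 1 - (x - t)).toNat = 2 * t + 1 := by omega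
  rw [h2]
  have h3 : (((2 * t + 1 : ℕ)) : ℝ) = Real.exp (Real.log (2 * t + 1)) := by
    rw [Real.exp_log (by positivity)]
    push_cast
    rfl
  rw [h3, ← Real.exp_add]
  congr 1
  ring

/-- The averaged bound, for both directions. -/
lemma SlopeB_sum (hμ : EM μ) {h τ v : ℝ} (hs : Lam μ (h + τ) - Lam μ h ≤ v) {t n : ℕ} (ht : 1 ≤ t)
    (htn : t ≤ n) :
    ∑ k ∈ range (n - t + 1), EA μ h n (fun _ s =>
      max 0 (τ * ((pos s (k + t) : ℝ) - pos s k) - v * t)) ≤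
        n * ((10 + 4 * Cc μ) * (Real.sqrt t * (1 + Real.log t))) := by
  have hC : 0 ≤ Cc μ := Drift_Cc_nonneg
  have ht0 : (0 : ℝ) < t := by exact_mod_cast ht
  have ht1 : (1 : ℝ) ≤ t := by exact_mod_cast ht
  have htn' : (t : ℝ) ≤ n := by exact_mod_cast htn
  have hn0 : (0 : ℝ) < n := by linarith
  obtain ⟨p, hp⟩ : ∃ p : ℝ, p = Real.sqrt t := ⟨_, rfl⟩
  have hp1 : 1 ≤ p := by
    rw [hp]
    exact Real.one_le_sqrt.2 ht1
  have hp0 : 0 < p := by linarith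
  have hpt : p * p = t := by rw [hp]; exact Real.mul_self_sqrt ht0.le
  obtain ⟨ℓ, hℓ⟩ : ∃ ℓ : ℝ, ℓ = Real.log (2 * t + 1) := ⟨_, rfl⟩
  have hℓ0 : 0 ≤ ℓ := by rw [hℓ]; exact Real.log_nonneg (by linarith)
  have hℓ1 : ℓ ≤ 2 + Real.log t := by
    have h1 : (2 * (t : ℝ) + 1) ≤ 3 * t := by linarith
    have h2 := Real.log_le_log (by positivity) h1
    rw [Real.log_mul (by norm_num) ht0.ne'] at h2
    have h3 : Real.log 3 ≤ 3 - 1 := Real.log_le_sub_one_of_pos (by norm_num)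
    rw [hℓ]
    linarith
  have hlog : 0 ≤ Real.log t := Real.log_nonneg ht1
  have hθ : 0 < p⁻¹ := by positivity
  have hθ1 : p⁻¹ ≤ 1 := inv_le_one_of_one_le₀ hp1
  have hθt : (p⁻¹) ^ 2 * t = 1 := by
    rw [← hpt]
    field_simp
  have h1 := BM_avg (n := n) hμ (h := h) hθ hθ1 ht htn
    (B := fun _ _ x y => max 0 (τ * ((y : ℝ) - x) - v * t))
    (fun _ _ _ => EMom.const _) (fun _ _ _ _ _ _ => rfl)
    (c := Real.log (2 * t + 1) + Cc μ * (p⁻¹) ^ 2 * t)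
    (add_nonneg (Real.log_nonneg (by linarith)) (by positivity))
    (fun k x => SlopeB_block hμ hs hθ hθ1 t k x)
  have h3 := mul_eps_le (μ := μ) ht htn
  rw [← hp, ← hℓ] at h3
  have h4 : Cc μ * (p⁻¹) ^ 2 * t = Cc μ := by rw [mul_assoc, hθt, mul_one]
  rw [inv_inv, h4, ← hℓ] at h1
  rw [← hp]
  refine h1.trans ?_
  have h5 : p * (n * (ℓ + Cc μ) + 2 * t * (ℓ + Cc μ)) ≤ n * (p * (3 * (ℓ + Cc μ))) := by
    have h6 : (2 * (t : ℝ)) * (ℓ + Cc μ) ≤ 2 * n * (ℓ + Cc μ) :=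
      mul_le_mul_of_nonneg_right (by linarith) (by linarith)
    nlinarith
  have h7 : p * (n * (ℓ + Cc μ) + 2 * t * (ℓ + Cc μ)) + t * eps μ n ≤
      n * (p * (4 * (ℓ + Cc μ) + 2)) := by
    have h8 : n * (p * (4 * (ℓ + Cc μ) + 2)) =
        n * (p * (3 * (ℓ + Cc μ))) + n * (p * (ℓ + 2 + Cc μ)) := by ring
    rw [h8]
    exact add_le_add h5 h3
  refine h7.trans ?_
  have h9 : n * (p * (4 * (ℓ + Cc μ) + 2)) ≤ n * (p * ((10 + 4 * Cc μ) * (1 + Real.log t))) := by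
    refine mul_le_mul_of_nonneg_left (mul_le_mul_of_nonneg_left ?_ hp0.le) hn0.le
    nlinarith
  refine h9.trans (le_of_eq ?_)
  ring

lemma SlopeB_ind {m q x : ℝ} (hq : 0 < q) (hx : m + q < x) : 1 ≤ q⁻¹ * max 0 (x - m) := by
  have h1 : q ≤ max 0 (x - m) := le_max_of_le_right (by linarith)
  calc (1 : ℝ) = q⁻¹ * q := (inv_mul_cancel₀ hq.ne').symm
    _ ≤ q⁻¹ * max 0 (x - m) := mul_le_mul_of_nonneg_left h1 (inv_nonneg.2 hq.le)

lemma SlopeB_lim {A ε : ℝ} (hε : 0 < ε) : ∃ T₀ : ℕ, ∀ T : ℕ, T₀ ≤ T → 1 ≤ T ∧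
    A * (Real.sqrt T * (1 + Real.log T)) ≤ ε * T := by
  have h1 : Filter.Tendsto (fun x : ℝ => Real.log x ^ 1 / (1 * x + 0)) Filter.atTop (nhds 0) :=
    Real.tendsto_pow_log_div_mul_add_atTop 1 0 1 one_ne_zero
  have h2 : Filter.Tendsto (fun x : ℝ => x⁻¹) Filter.atTop (nhds 0) := tendsto_inv_atTop_zero
  have h3 : Filter.Tendsto (fun x : ℝ => A * (x⁻¹ + 2 * (Real.log x ^ 1 / (1 * x + 0))))
      Filter.atTop (nhds (A * (0 + 2 * 0))) := (h2.add (h1.const_mul 2)).const_mul A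
  have h4 : A * (0 + 2 * 0) = (0 : ℝ) := by ring
  rw [h4] at h3
  have h5 : Filter.Tendsto (fun T : ℕ => Real.sqrt (T : ℝ)) Filter.atTop Filter.atTop :=
    Real.tendsto_sqrt_atTop.comp tendsto_natCast_atTop_atTop
  have h6 := (h3.comp h5).eventually (gt_mem_nhds hε)
  obtain ⟨T₀, hT₀⟩ := Filter.eventually_atTop.1 h6
  refine ⟨max T₀ 1, fun T hT => ⟨(le_max_right _ _).trans hT, ?_⟩⟩
  have h7 := hT₀ T ((le_max_left _ _).trans hT)
  have hT1 : (1 : ℝ) ≤ T := by exact_mod_cast (le_max_right _ _).trans hT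
  have hT0 : (0 : ℝ) < T := by linarith
  simp only [Function.comp, pow_one, one_mul, add_zero] at h7
  obtain ⟨p, hp⟩ : ∃ p : ℝ, p = Real.sqrt T := ⟨_, rfl⟩
  have hp0 : 0 < p := by rw [hp]; exact Real.sqrt_pos.2 hT0
  have hpT : (T : ℝ) = p * p := by rw [hp]; exact (Real.mul_self_sqrt hT0.le).symm
  have h8 : Real.log T = 2 * Real.log p := by
    rw [hpT, Real.log_mul hp0.ne' hp0.ne']
    ring
  rw [← hp] at h7 ⊢
  rw [h8]
  have h9 : A * (p * (1 + 2 * Real.log p)) = A * (p⁻¹ + 2 * (Real.log p / p)) * (p * p) := by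
    field_simp
  rw [h9, hpT]
  exact mul_le_mul_of_nonneg_right h7.le (mul_self_nonneg p)

/-- Both directions at once. -/
lemma SlopeB_main (hμ : EM μ) {h τ : ℝ} (hs : Lam μ (h + τ) - Lam μ h < 1) :
    ∃ ρ : ℝ, 0 ≤ ρ ∧ ρ < 1 ∧ ∀ η : ℝ, 0 < η → ∃ T₀ : ℕ, ∀ T : ℕ, T₀ ≤ T → ∀ n : ℕ, T ≤ n →
      ∑ k ∈ range (n - T + 1), EA μ h n (fun _ s =>
        ind (ρ * T < τ * ((pos s (k + T) : ℝ) - pos s k))) ≤ η * n := by
  obtain ⟨w, hw⟩ : ∃ w : ℝ, w = max (Lam μ (h + τ) - Lam μ h) 0 := ⟨_, rfl⟩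
  have hw1 : w < 1 := by
    rw [hw]
    exact max_lt hs zero_lt_one
  have hw0 : 0 ≤ w := by rw [hw]; exact le_max_right _ _
  have hsw : Lam μ (h + τ) - Lam μ h ≤ w := by rw [hw]; exact le_max_left _ _
  refine ⟨(1 + w) / 2, by linarith, by linarith, fun η hη => ?_⟩
  have hd : 0 < (1 - w) / 2 := by linarith
  obtain ⟨T₀, hT₀⟩ := SlopeB_lim (A := 10 + 4 * Cc μ) (ε := η * ((1 - w) / 2)) (by positivity)
  refine ⟨T₀, fun T hT n hTn => ?_⟩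
  obtain ⟨hT1, hT2⟩ := hT₀ T hT
  have hT0 : (0 : ℝ) < T := by exact_mod_cast hT1
  have hn0 : (0 : ℝ) ≤ n := Nat.cast_nonneg n
  have hq : 0 < (1 - w) / 2 * T := by positivity
  have h1 : ∀ k ∈ range (n - T + 1), EA μ h n (fun _ s =>
        ind ((1 + w) / 2 * T < τ * ((pos s (k + T) : ℝ) - pos s k))) ≤
      ((1 - w) / 2 * T)⁻¹ * EA μ h n (fun _ s =>
        max 0 (τ * ((pos s (k + T) : ℝ) - pos s k) - w * T)) := by
    intro k _
    rw [← EA_const_mul]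
    refine EA_mono (PF.det _) (PF.det _) fun g s _ => ?_
    by_cases hc : (1 + w) / 2 * T < τ * ((pos s (k + T) : ℝ) - pos s k)
    · rw [ind_true hc]
      refine SlopeB_ind hq ?_
      have h2 : w * T + (1 - w) / 2 * T = (1 + w) / 2 * T := by ring
      rw [h2]
      exact hc
    · rw [ind_false hc]
      exact mul_nonneg (inv_nonneg.2 hq.le) (le_max_left _ _)
  refine (Finset.sum_le_sum h1).trans ?_
  rw [← Finset.mul_sum]
  have h2 := SlopeB_sum hμ hsw hT1 hTn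
  have h3 : ((1 - w) / 2 * T)⁻¹ * ∑ k ∈ range (n - T + 1), EA μ h n (fun _ s =>
        max 0 (τ * ((pos s (k + T) : ℝ) - pos s k) - w * T)) ≤
      ((1 - w) / 2 * T)⁻¹ * (n * (η * ((1 - w) / 2) * T)) := by
    refine mul_le_mul_of_nonneg_left ?_ (inv_nonneg.2 hq.le)
    exact h2.trans (mul_le_mul_of_nonneg_left hT2 hn0)
  refine h3.trans (le_of_eq ?_)
  have hw2 : (1 - w) / 2 ≠ 0 := hd.ne'
  have h4 : (n : ℝ) * (η * ((1 - w) / 2) * T) = ((1 - w) / 2 * T) * (η * n) := by ring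
  rw [h4, inv_mul_cancel_left₀ hq.ne']

/-- Most block slopes are bounded away from `1`. Proof. Let `σ = Λ(h+1) - Λ(h) < 1` (`slope_lt_one`),
`v₁ = (1 + max σ 0)/2`, so `σ < v₁ < 1`, `ρ = (1 + v₁)/2`. `BM_avg` with `B g k x y = max 0 (y - x - v₁ T)`,
`θ = 1/√T`, `c = log (2T+1) + C θ² T`: for `y - x ≥ v₁ T` `integral_Kp_rpow` with `b = B`, `h' = h + 1`
has the exponent `θ (-v₁ T + T Λ(h+1)) + Cθ²T ≤ θ T Λ(h) + C θ² T`; for `y - x < v₁ T` use `h' = h`, `b = 0`.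
So `∑_k EA (max 0 (Δ_k - v₁ T)) ≤ n C' √T (1 + log T)` (with `mul_eps_le`, or directly `eps`), and
`ind (ρ T < Δ) ≤ max 0 (Δ - v₁T)/((ρ - v₁) T)`. -/
lemma slope_up (hμ : EM μ) (h : ℝ) : ∃ ρ : ℝ, 0 ≤ ρ ∧ ρ < 1 ∧ ∀ η : ℝ, 0 < η → ∃ T₀ : ℕ, ∀ T : ℕ,
    T₀ ≤ T → ∀ n : ℕ, T ≤ n → ∑ k ∈ range (n - T + 1), EA μ h n (fun _ s =>
      ind (ρ * T < (pos s (k + T) : ℝ) - pos s k)) ≤ η * n := by
  obtain ⟨ρ, h0, h1, h2⟩ := SlopeB_main hμ (h := h) (τ := 1) (by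
    have := slope_lt_one hμ (show h < h + 1 by linarith)
    linarith)
  refine ⟨ρ, h0, h1, fun η hη => ?_⟩
  obtain ⟨T₀, hT₀⟩ := h2 η hη
  refine ⟨T₀, fun T hT n hTn => ?_⟩
  have h3 := hT₀ T hT n hTn
  simp only [one_mul] at h3
  exact h3

/-- The same for `-1`. Proof. As `slope_up` with `B = max 0 (-(y - x) - v₁ T)`, `h' = h - 1` and
`neg_one_lt_slope`: `Λ(h-1) - Λ(h) < 1`. -/
lemma slope_dn (hμ : EM μ) (h : ℝ) : ∃ ρ : ℝ, 0 ≤ ρ ∧ ρ < 1 ∧ ∀ η : ℝ, 0 < η → ∃ T₀ : ℕ, ∀ T : ℕ,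
    T₀ ≤ T → ∀ n : ℕ, T ≤ n → ∑ k ∈ range (n - T + 1), EA μ h n (fun _ s =>
      ind (ρ * T < -((pos s (k + T) : ℝ) - pos s k))) ≤ η * n := by
  obtain ⟨ρ, h0, h1, h2⟩ := SlopeB_main hμ (h := h) (τ := -1) (by
    have := neg_one_lt_slope hμ (show h + -1 < h by linarith)
    linarith)
  refine ⟨ρ, h0, h1, fun η hη => ?_⟩
  obtain ⟨T₀, hT₀⟩ := h2 η hη
  refine ⟨T₀, fun T hT n hTn => ?_⟩
  have h3 := hT₀ T hT n hTn
  simp only [neg_one_mul] at h3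
  exact h3

end

end Pool.Agent.W_7d29a1_h47
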