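import Pool.Agent.W_7d29a1_h47.Loc
import Pool.Agent.W_7d29a1_h47.SlopeB
import Pool.Agent.W_7d29a1_h47.MeetA
import Pool.Agent.W_7d29a1_h47.Chain

/-!
# Meeting of two replicas in every window, for every tilt
-/

namespace Pool.Agent.W_7d29a1_h47

open MeasureTheory ProbabilityTheory Finset

noncomputable section

variable {μ : Measure ℝ} [IsProbabilityMeasure μ]

lemma MeetAll_pf2_good (n : ℕ) (Q ρ : ℝ) (w L k : ℕ) :
    PF2 μ n (fun g s r => ind (¬ good g Q ρ w L k s r)) := by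
  refine PF2.ind fun s _ r _ => ?_
  have h1 : MeasurableSet {g : Env | V g k (pos s k) L ≤ Q} :=
    measurableSet_le (measurable_V k (pos s k) L) measurable_const
  have h2 : MeasurableSet {g : Env | V g k (pos r k) L ≤ Q} :=
    measurableSet_le (measurable_V k (pos r k) L) measurable_const
  have h3 : MeasurableSet {g : Env | good g Q ρ w L k s r} :=
    (MeasurableSet.const _).inter ((MeasurableSet.const _).inter ((MeasurableSet.const _).inter
      ((MeasurableSet.const _).inter (h1.inter h2))))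
  exact h3.compl

lemma MeetAll_integrable (h : ℝ) {n : ℕ} {F : Env → (ℕ → Bool) → (ℕ → Bool) → ℝ} (hF : PF2 μ n F) :
    Integrable (fun g => Av2 g h n (F g)) (law μ) :=
  (hF.inner (h := h)).integrable (h := h)

/-- The integrated form of `meet_sum`. -/
lemma MeetAll_sum (h : ℝ) {Q ρ : ℝ} {w L n N R : ℕ} (hρ0 : 0 ≤ ρ) (hR : 1 ≤ R)
    (hL : 4 * (w : ℝ) + 3 ≤ (1 - ρ) * L / 2) (hN : N + L ≤ n + 1) :
    ∑ k ∈ range N, EA2 μ h n (fun _ s r => ind (∀ i, k ≤ i + R → i < k → pos s i ≠ pos r i)) ≤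
      ∑ k ∈ range N, EA2 μ h n (fun g s r => ind (¬ good g Q ρ w L k s r)) +
        (cmeet Q L)⁻¹ * (((L : ℝ) + 1) * (((N : ℝ) + L) / R + 1)) := by
  have hJ : ∀ k ∈ range N, Integrable (fun g => Av2 g h n (fun s r =>
      ind (∀ i, k ≤ i + R → i < k → pos s i ≠ pos r i))) (law μ) := fun k _ =>
    MeetAll_integrable h (PF2.det fun s r => ind (∀ i, k ≤ i + R → i < k → pos s i ≠ pos r i))
  have hB : ∀ k ∈ range N, Integrable (fun g => Av2 g h n (fun s r =>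
      ind (¬ good g Q ρ w L k s r))) (law μ) := fun k _ =>
    MeetAll_integrable h (MeetAll_pf2_good n Q ρ w L k)
  have h1 : ∑ k ∈ range N, EA2 μ h n (fun _ s r => ind (∀ i, k ≤ i + R → i < k → pos s i ≠ pos r i)) =
      ∫ g, ∑ k ∈ range N, Av2 g h n (fun s r =>
        ind (∀ i, k ≤ i + R → i < k → pos s i ≠ pos r i)) ∂(law μ) :=
    (integral_finsetSum _ hJ).symm
  have h2 : ∑ k ∈ range N, EA2 μ h n (fun g s r => ind (¬ good g Q ρ w L k s r)) +
        (cmeet Q L)⁻¹ * (((L : ℝ) + 1) * (((N : ℝ) + L) / R + 1)) =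
      ∫ g, (∑ k ∈ range N, Av2 g h n (fun s r => ind (¬ good g Q ρ w L k s r)) +
        (cmeet Q L)⁻¹ * (((L : ℝ) + 1) * (((N : ℝ) + L) / R + 1))) ∂(law μ) := by
    rw [integral_add (integrable_finsetSum _ hB) (integrable_const _), integral_finsetSum _ hB,
      integral_const, probReal_univ, one_smul]
    rfl
  rw [h1, h2]
  exact integral_mono (integrable_finsetSum _ hJ)
    ((integrable_finsetSum _ hB).add (integrable_const _))
    fun g => meet_sum g h hρ0 hR hL hN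

/-- The displacement events. -/
lemma MeetAll_disp {ρ ρ₁ ρ₂ : ℝ} (h1 : ρ₁ ≤ ρ) (h2 : ρ₂ ≤ ρ) (L : ℕ) (d : ℝ) :
    ind (ρ * L < |d|) ≤ ind (ρ₁ * L < d) + ind (ρ₂ * L < -d) := by
  have e1 := ind_nonneg (ρ₁ * L < d)
  have e2 := ind_nonneg (ρ₂ * L < -d)
  have hL : (0 : ℝ) ≤ L := Nat.cast_nonneg L
  by_cases hd : ρ * L < |d|
  · rw [ind_true hd]
    rcases lt_abs.1 hd with h | h
    · have : ρ₁ * L < d := lt_of_le_of_lt (mul_le_mul_of_nonneg_right h1 hL) h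
      rw [ind_true this]
      linarith
    · have : ρ₂ * L < -d := lt_of_le_of_lt (mul_le_mul_of_nonneg_right h2 hL) h
      rw [ind_true this]
      linarith
  · rw [ind_false hd]
    linarith

/-- The distance events. -/
lemma MeetAll_dist (K : ℕ) (x y : ℤ) :
    ind (4 * (K : ℝ) < |(x : ℝ) - y|) ≤ ind ((K : ℤ) < |x - y|) := by
  refine ind_mono fun h => ?_
  have h1 : (4 * (K : ℤ) : ℤ) < |x - y| := by exact_mod_cast h
  omega

/-- For given parameters: the bound for one block. -/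
lemma MeetAll_block (hμ : EM μ) (h : ℝ) {ρ ρ₁ ρ₂ Q : ℝ} (hρ₁ : ρ₁ ≤ ρ) (hρ₂ : ρ₂ ≤ ρ) (hQ : 0 < Q)
    (K L n k : ℕ) :
    EA2 μ h n (fun g s r => ind (¬ good g Q ρ K L k s r)) ≤
      EA2 μ h n (fun _ s r => ind ((K : ℤ) < |pos s k - pos r k|)) +
      EA2 μ h n (fun _ s r => ind ((K : ℤ) < |pos s (k + L) - pos r (k + L)|)) +
      EA μ h n (fun _ s => ind (ρ₁ * L < (pos s (k + L) : ℝ) - pos s k)) +
      EA μ h n (fun _ s => ind (ρ₂ * L < -((pos s (k + L) : ℝ) - pos s k))) +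
      EA μ h n (fun _ s => ind (ρ₁ * L < (pos s (k + L) : ℝ) - pos s k)) +
      EA μ h n (fun _ s => ind (ρ₂ * L < -((pos s (k + L) : ℝ) - pos s k))) +
      Q⁻¹ * EA μ h n (fun g s => V g k (pos s k) L) +
      Q⁻¹ * EA μ h n (fun g s => V g k (pos s k) L) := by
  classical
  have m1 : PF2 μ n (fun g s r => ind (¬ good g Q ρ K L k s r)) := MeetAll_pf2_good n Q ρ K L k
  have m2 : PF2 μ n (fun _ s r => ind ((K : ℤ) < |pos s k - pos r k|)) := PF2.det _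
  have m3 : PF2 μ n (fun _ s r => ind ((K : ℤ) < |pos s (k + L) - pos r (k + L)|)) := PF2.det _
  have m4 : PF2 μ n (fun _ s (_ : ℕ → Bool) =>
      ind (ρ₁ * L < (pos s (k + L) : ℝ) - pos s k)) := PF2.det _
  have m5 : PF2 μ n (fun _ s (_ : ℕ → Bool) =>
      ind (ρ₂ * L < -((pos s (k + L) : ℝ) - pos s k))) := PF2.det _
  have m6 : PF2 μ n (fun _ (_ : ℕ → Bool) r =>
      ind (ρ₁ * L < (pos r (k + L) : ℝ) - pos r k)) := PF2.det _
  have m7 : PF2 μ n (fun _ (_ : ℕ → Bool) r =>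
      ind (ρ₂ * L < -((pos r (k + L) : ℝ) - pos r k))) := PF2.det _
  have m8 : PF2 μ n (fun g s (_ : ℕ → Bool) => Q⁻¹ * V g k (pos s k) L) :=
    fun s _ r _ => (EMom_V hμ k (pos s k) L).pmom.const_mul _
  have m9 : PF2 μ n (fun g (_ : ℕ → Bool) r => Q⁻¹ * V g k (pos r k) L) :=
    fun s _ r _ => (EMom_V hμ k (pos r k) L).pmom.const_mul _
  have h1 : EA2 μ h n (fun g s r => ind (¬ good g Q ρ K L k s r)) ≤
      EA2 μ h n (fun g s r => ind ((K : ℤ) < |pos s k - pos r k|) +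
        ind ((K : ℤ) < |pos s (k + L) - pos r (k + L)|) +
        ind (ρ₁ * L < (pos s (k + L) : ℝ) - pos s k) +
        ind (ρ₂ * L < -((pos s (k + L) : ℝ) - pos s k)) +
        ind (ρ₁ * L < (pos r (k + L) : ℝ) - pos r k) +
        ind (ρ₂ * L < -((pos r (k + L) : ℝ) - pos r k)) +
        Q⁻¹ * V g k (pos s k) L + Q⁻¹ * V g k (pos r k) L) := by
    refine EA2_mono m1 (((((((m2.add m3).add m4).add m5).add m6).add m7).add m8).add m9)
      fun g s _ r _ => ?_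
    refine (MeetA_not_good g Q ρ K L k s r).trans ?_
    have g1 := MeetAll_disp hρ₁ hρ₂ L ((pos s (k + L) : ℝ) - pos s k)
    have g2 := MeetAll_disp hρ₁ hρ₂ L ((pos r (k + L) : ℝ) - pos r k)
    have g3 := MeetA_noise hQ (V_nonneg g k (pos s k) L)
    have g4 := MeetA_noise hQ (V_nonneg g k (pos r k) L)
    have g5 := MeetAll_dist K (pos s k) (pos r k)
    have g6 := MeetAll_dist K (pos s (k + L)) (pos r (k + L))
    linarith
  refine h1.trans (le_of_eq ?_)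
  rw [EA2_add ((((((m2.add m3).add m4).add m5).add m6).add m7).add m8) m9,
    EA2_add (((((m2.add m3).add m4).add m5).add m6).add m7) m8,
    EA2_add ((((m2.add m3).add m4).add m5).add m6) m7,
    EA2_add (((m2.add m3).add m4).add m5) m6, EA2_add ((m2.add m3).add m4) m5,
    EA2_add (m2.add m3) m4, EA2_add m2 m3]
  rw [EA2_fst (fun g s => ind (ρ₁ * L < (pos s (k + L) : ℝ) - pos s k)),
    EA2_fst (fun g s => ind (ρ₂ * L < -((pos s (k + L) : ℝ) - pos s k))),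
    EA2_snd (fun g r => ind (ρ₁ * L < (pos r (k + L) : ℝ) - pos r k)),
    EA2_snd (fun g r => ind (ρ₂ * L < -((pos r (k + L) : ℝ) - pos r k))),
    EA2_fst (fun g s => Q⁻¹ * V g k (pos s k) L), EA2_snd (fun g r => Q⁻¹ * V g k (pos r k) L),
    EA_const_mul]

/-- For given parameters: the total bound. -/
lemma MeetAll_total (hμ : EM μ) (h : ℝ) {ρ ρ₁ ρ₂ Q : ℝ} (hρ₁ : ρ₁ ≤ ρ) (hρ₂ : ρ₂ ≤ ρ) (hQ : 0 < Q)
    {K L n : ℕ} (hL : 1 ≤ L) (hn : L ≤ n) {A B C : ℝ}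
    (hA : ∑ t ∈ range (n + 1), EA2 μ h n (fun _ s r => ind ((K : ℤ) < |pos s t - pos r t|)) ≤ A)
    (hB : ∑ k ∈ range (n - L + 1), EA μ h n (fun _ s =>
      ind (ρ₁ * L < (pos s (k + L) : ℝ) - pos s k)) ≤ B)
    (hC : ∑ k ∈ range (n - L + 1), EA μ h n (fun _ s =>
      ind (ρ₂ * L < -((pos s (k + L) : ℝ) - pos s k))) ≤ C) :
    ∑ k ∈ range (n - L + 1), EA2 μ h n (fun g s r => ind (¬ good g Q ρ K L k s r)) ≤
      A + A + B + C + B + C + 2 * (Q⁻¹ * (n * (L * (2 * L + 1) * CN μ (fun u => |u|)))) := by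
  refine (Finset.sum_le_sum fun k _ => MeetAll_block hμ h hρ₁ hρ₂ hQ K L n k).trans ?_
  simp only [Finset.sum_add_distrib, ← Finset.mul_sum]
  have hQ0 : 0 ≤ Q⁻¹ := by positivity
  -- the noise terms
  have hcard : ((range (n - L + 1)).card : ℝ) ≤ n := by
    rw [Finset.card_range]
    have : n - L + 1 ≤ n := by omega
    exact_mod_cast this
  have hV : ∑ k ∈ range (n - L + 1), EA μ h n (fun g s => V g k (pos s k) L) ≤
      n * (L * (2 * L + 1) * CN μ (fun u => |u|)) := by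
    refine (Finset.sum_le_card_nsmul _ _ _ fun k _ => EA_V_le hμ h n k L).trans ?_
    rw [nsmul_eq_mul]
    refine mul_le_mul_of_nonneg_right hcard ?_
    have := MeetA_CN_nonneg (μ := μ)
    positivity
  -- the distance terms
  obtain ⟨f, hf⟩ : ∃ f : ℕ → ℝ, ∀ t, f t = EA2 μ h n (fun _ s r =>
      ind ((K : ℤ) < |pos s t - pos r t|)) := ⟨_, fun _ => rfl⟩
  have f0 : ∀ t, 0 ≤ f t := fun t => by
    rw [hf]
    exact EA2_nonneg fun _ _ _ _ _ => ind_nonneg _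
  simp only [← hf] at hA ⊢
  have hA1 : ∑ k ∈ range (n - L + 1), f k ≤ A := by
    refine le_trans (Finset.sum_le_sum_of_subset_of_nonneg ?_ fun k _ _ => f0 k) hA
    exact Finset.range_subset_range.2 (by omega)
  have hA2 : ∑ k ∈ range (n - L + 1), f (k + L) ≤ A := by
    refine le_trans ?_ hA
    have e1 : n + 1 = L + (n - L + 1) := by omega
    have e2 := Finset.sum_range_add f L (n - L + 1)
    rw [← e1] at e2
    have e3 : 0 ≤ ∑ m ∈ range L, f m := Finset.sum_nonneg fun m _ => f0 m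
    have e4 : ∑ k ∈ range (n - L + 1), f (k + L) = ∑ k ∈ range (n - L + 1), f (L + k) :=
      Finset.sum_congr rfl fun k _ => by rw [add_comm]
    linarith
  have hV' := mul_le_mul_of_nonneg_left hV hQ0
  linarith

/-- Most blocks are good, for every tilt. Proof. `ρ` the maximum of the two values from `slope_up`,
`slope_dn`; `w = K` from `localize` with `η/8`; then `L` large (`slope_up`, `slope_dn` with `η/8`,
`4 w + 3 ≤ (1-ρ) L/2`), `Q` large (`EA_V_le`, Markov). `ind (¬ good)` is at most the sum of the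
indicators of the six conditions (the first two by `localize`, four conditions twice). -/
lemma good_all (hμ : EM μ) (hnd : Nondeg μ) (h : ℝ) {η : ℝ} (hη : 0 < η) :
    ∃ (w L : ℕ) (Q ρ : ℝ), 0 ≤ ρ ∧ 1 ≤ L ∧ 4 * (w : ℝ) + 3 ≤ (1 - ρ) * L / 2 ∧ ∃ n₀ : ℕ,
      ∀ n : ℕ, n₀ ≤ n → ∑ k ∈ range (n - L + 1), EA2 μ h n (fun g s r =>
        ind (¬ good g Q ρ w L k s r)) ≤ η * n := by
  obtain ⟨ρ₁, hρ₁0, hρ₁1, hup⟩ := slope_up hμ h
  obtain ⟨ρ₂, hρ₂0, hρ₂1, hdn⟩ := slope_dn hμ h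
  have hη8 : 0 < η / 8 := by positivity
  obtain ⟨K, n₁, hloc⟩ := localize hμ hnd h hη8
  obtain ⟨T₁, hT₁⟩ := hup (η / 8) hη8
  obtain ⟨T₂, hT₂⟩ := hdn (η / 8) hη8
  obtain ⟨ρ, hρ⟩ : ∃ ρ : ℝ, ρ = max ρ₁ ρ₂ := ⟨_, rfl⟩
  have hρ1 : ρ < 1 := by rw [hρ]; exact max_lt hρ₁1 hρ₂1
  have hρa : ρ₁ ≤ ρ := by rw [hρ]; exact le_max_left _ _
  have hρb : ρ₂ ≤ ρ := by rw [hρ]; exact le_max_right _ _
  obtain ⟨L₁, hL₁⟩ := exists_nat_ge ((4 * (K : ℝ) + 3) * 2 / (1 - ρ))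
  obtain ⟨L, hL⟩ : ∃ L : ℕ, L = max (max 1 L₁) (max T₁ T₂) := ⟨_, rfl⟩
  have hL1 : 1 ≤ L := by rw [hL]; exact (le_max_left _ _).trans (le_max_left _ _)
  have hLL : L₁ ≤ L := by rw [hL]; exact (le_max_right _ _).trans (le_max_left _ _)
  have hLT₁ : T₁ ≤ L := by rw [hL]; exact (le_max_left _ _).trans (le_max_right _ _)
  have hLT₂ : T₂ ≤ L := by rw [hL]; exact (le_max_right _ _).trans (le_max_right _ _)
  obtain ⟨CNv, hCNv⟩ : ∃ CNv : ℝ, CNv = CN μ (fun u => |u|) := ⟨_, rfl⟩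
  have hCN0 : 0 ≤ CNv := by rw [hCNv]; exact MeetA_CN_nonneg
  obtain ⟨Q, hQ⟩ : ∃ Q : ℝ, Q = ((L : ℝ) * (2 * L + 1) * CNv + 1) / (η / 8) := ⟨_, rfl⟩
  have hQ0 : 0 < Q := by rw [hQ]; positivity
  refine ⟨K, L, Q, ρ, hρ₁0.trans hρa, hL1, ?_, max L n₁, fun n hn => ?_⟩
  · have h1 : 0 < 1 - ρ := by linarith
    have h2 : (4 * (K : ℝ) + 3) * 2 / (1 - ρ) ≤ L := hL₁.trans (by exact_mod_cast hLL)
    rw [div_le_iff₀ h1] at h2
    linarith
  · have hnL : L ≤ n := (le_max_left _ _).trans hn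
    have hn1 : n₁ ≤ n := (le_max_right _ _).trans hn
    have hn0 : (0 : ℝ) ≤ n := Nat.cast_nonneg n
    have key := MeetAll_total hμ h hρa hρb hQ0 hL1 hnL (hloc n hn1) (hT₁ L hLT₁ n hnL)
      (hT₂ L hLT₂ n hnL)
    refine key.trans ?_
    rw [← hCNv]
    have t2 : Q⁻¹ * (n * (L * (2 * L + 1) * CNv)) ≤ η / 8 * n := by
      have u1 : (L : ℝ) * (2 * L + 1) * CNv ≤ (η / 8) * Q := by
        rw [hQ, mul_div_cancel₀ _ (by positivity : (η / 8) ≠ 0)]
        linarith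
      calc Q⁻¹ * (n * (L * (2 * L + 1) * CNv)) ≤ Q⁻¹ * (n * ((η / 8) * Q)) :=
            mul_le_mul_of_nonneg_left (mul_le_mul_of_nonneg_left u1 hn0) (by positivity)
        _ = η / 8 * n := by field_simp
    linarith

/-- **Two replicas meet, for every tilt.** Proof. As `Meet.meet` with `good_all` instead of
`good_avg`. -/
theorem meet_all (hμ : EM μ) (hnd : Nondeg μ) (h : ℝ) {η : ℝ} (hη : 0 < η) :
    ∃ R₀ : ℕ, 1 ≤ R₀ ∧ ∀ R : ℕ, R₀ ≤ R → ∃ n₀ : ℕ, ∀ n : ℕ, n₀ ≤ n →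
      ∑ k ∈ range (n - R + 1), EA2 μ h n (fun _ s r =>
        ind (∀ i, k ≤ i → i ≤ k + R → pos s i ≠ pos r i)) ≤ η * n := by
  obtain ⟨w, L, Q, ρ, hρ0, hL1, hL, n₁, hn₁⟩ := good_all hμ hnd h (show 0 < η / 4 by positivity)
  obtain ⟨A, hAdef⟩ : ∃ A : ℝ, A = (cmeet Q L)⁻¹ * ((L : ℝ) + 1) := ⟨_, rfl⟩
  have hA0 : 0 < A := by
    rw [hAdef]
    have := cmeet_pos Q L
    positivity
  refine ⟨max 1 ⌈8 * A / η⌉₊, le_max_left _ _, fun R hR => ?_⟩
  have hR1 : 1 ≤ R := (le_max_left _ _).trans hR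
  have hR2 : 8 * A / η ≤ R :=
    (Nat.le_ceil _).trans (by exact_mod_cast (le_max_right _ _).trans hR)
  have hRpos : (0 : ℝ) < R := by exact_mod_cast hR1
  refine ⟨max (max n₁ (R + L + 1)) ⌈4 * (A + L) / η⌉₊, fun n hn => ?_⟩
  have hn1 : n₁ ≤ n := ((le_max_left _ _).trans (le_max_left _ _)).trans hn
  have hn2 : R + L + 1 ≤ n := ((le_max_right _ _).trans (le_max_left _ _)).trans hn
  have hn3 : 4 * (A + L) / η ≤ n :=
    (Nat.le_ceil _).trans (by exact_mod_cast (le_max_right _ _).trans hn)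
  obtain ⟨N, hN⟩ : ∃ N : ℕ, N = n - L + 1 := ⟨_, rfl⟩
  have hNL : N + L = n + 1 := by omega
  obtain ⟨J, hJ⟩ : ∃ J : ℕ → ℝ, ∀ m, J m = EA2 μ h n (fun _ s r =>
      ind (∀ i, m ≤ i + R → i < m → pos s i ≠ pos r i)) := ⟨_, fun _ => rfl⟩
  have hJ0 : ∀ m, 0 ≤ J m := fun m => by
    rw [hJ]
    exact EA2_nonneg fun _ _ _ _ _ => ind_nonneg _
  have hJ1 : ∀ m, J m ≤ 1 := fun m => by
    rw [hJ]
    have h1 := EA2_mono (μ := μ) (h := h) (n := n)
      (F := fun _ s r => ind (∀ i, m ≤ i + R → i < m → pos s i ≠ pos r i)) (G := fun _ _ _ => 1)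
      (PF2.det fun s r => ind (∀ i, m ≤ i + R → i < m → pos s i ≠ pos r i)) (PF2.det fun _ _ => 1)
      fun _ _ _ _ _ => ind_le_one _
    rwa [EA2_const] at h1
  -- the integrated inequality
  have hmain := MeetAll_sum (μ := μ) h (Q := Q) (ρ := ρ) (w := w) (L := L) (n := n) (N := N) (R := R)
    hρ0 hR1 hL hNL.le
  have hgood := hn₁ n hn1
  rw [← hN] at hgood
  have hNLr : (N : ℝ) + L = n + 1 := by exact_mod_cast hNL
  rw [hNLr] at hmain
  simp only [← hJ] at hmain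
  -- comparison of the sums
  have hcmp : ∑ k ∈ range (n - R + 1), EA2 μ h n (fun _ s r =>
        ind (∀ i, k ≤ i → i ≤ k + R → pos s i ≠ pos r i)) ≤ ∑ m ∈ range (n + 1), J m := by
    have h1 : ∑ k ∈ range (n - R + 1), EA2 μ h n (fun _ s r =>
        ind (∀ i, k ≤ i → i ≤ k + R → pos s i ≠ pos r i)) ≤ ∑ k ∈ range (n - R + 1), J (R + k) := by
      refine Finset.sum_le_sum fun k _ => ?_
      rw [hJ]
      refine EA2_mono (PF2.det fun s r => ind (∀ i, k ≤ i → i ≤ k + R → pos s i ≠ pos r i))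
        (PF2.det fun s r => ind (∀ i, R + k ≤ i + R → i < R + k → pos s i ≠ pos r i))
        fun _ s _ r _ => ind_mono fun h i hi1 hi2 => h i (by omega) (by omega)
    have h2 : n + 1 = R + (n - R + 1) := by omega
    have h3 := Finset.sum_range_add J R (n - R + 1)
    rw [← h2] at h3
    have h4 : 0 ≤ ∑ m ∈ range R, J m := Finset.sum_nonneg fun m _ => hJ0 m
    linarith
  have hsplit : ∑ m ∈ range (n + 1), J m ≤ ∑ m ∈ range N, J m + L := by
    rw [← hNL, Finset.sum_range_add]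
    have h1 : ∑ k ∈ range L, J (N + k) ≤ ∑ _k ∈ range L, (1 : ℝ) :=
      Finset.sum_le_sum fun k _ => hJ1 _
    rw [Finset.sum_const, Finset.card_range, nsmul_eq_mul, mul_one] at h1
    linarith
  have hn0 : (1 : ℝ) ≤ n := by exact_mod_cast (by omega : 1 ≤ n)
  have e1 : (cmeet Q L)⁻¹ * (((L : ℝ) + 1) * (((n : ℝ) + 1) / R + 1)) = A * ((n + 1) / R) + A := by
    rw [hAdef]
    ring
  have e2 : A * (((n : ℝ) + 1) / R) ≤ η / 4 * n := by
    have h1 : 8 * A ≤ R * η := by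
      rwa [div_le_iff₀ hη] at hR2
    rw [mul_div_assoc', div_le_iff₀ hRpos]
    have h2 : A * ((n : ℝ) + 1) ≤ A * (2 * n) := mul_le_mul_of_nonneg_left (by linarith) hA0.le
    have h3 : 8 * A * n ≤ R * η * n := mul_le_mul_of_nonneg_right h1 (by linarith)
    linarith
  have e3 : A + L ≤ η / 4 * n := by
    rw [div_le_iff₀ hη] at hn3
    linarith
  rw [e1] at hmain
  have h5 : 0 ≤ η * (n : ℝ) := by positivity
  linarith

end

end Pool.Agent.W_7d29a1_h47
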