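import Pool.Agent.W_7d29a1_h47.Main
import Pool.Agent.W_7d29a1_h47.ModelL
import Pool.Agent.W_7d29a1_h47.MeetAll

/-!
# Localization for the objects of the problem
-/

namespace Pool.Agent.W_7d29a1_h47

open MeasureTheory ProbabilityTheory Finset Filter Topology

noncomputable section

lemma forceE_eq (β h : ℝ) (ω : ℕ × ℤ → ℝ) (n : ℕ) (F : (ℕ → Bool) → ℝ) :
    forceE β h ω n (fun s => F (ext s)) = Av (toEnv β ω) h 0 0 n F := by
  unfold forceE polE Av
  rw [endMGF_eq, den_eq]
  have h0 := (Z_pos (toEnv β ω) 0 0 0 n).ne'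
  have h1 := (Z_pos (toEnv β ω) h 0 0 n).ne'
  have h2 : ∑ s : Fin n → Bool, F (ext s) * Real.exp (h * (walk s n : ℝ)) *
      Real.exp (β * energy ω s) = ∑ s ∈ T n, wt (toEnv β ω) h 0 0 n s * F s := by
    rw [sum_T_eq]
    refine Finset.sum_congr rfl fun s _ => ?_
    rw [mul_assoc, weight_eq, mul_comm]
  rw [h2]
  field_simp

lemma pairP_eq (β h : ℝ) (ω : ℕ × ℤ → ℝ) (n : ℕ) (A : (Fin n → Bool) → (Fin n → Bool) → Prop)
    (B : (ℕ → Bool) → (ℕ → Bool) → Prop) (hAB : ∀ s r, A s r ↔ B (ext s) (ext r)) :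
    pairP β h ω n A = Av2 (toEnv β ω) h n (fun s r => ind (B s r)) := by
  classical
  unfold pairP Av2
  rw [← forceE_eq]
  congr 1
  funext s
  rw [← forceE_eq]
  congr 1
  funext r
  unfold ind
  simp only [hAB]

variable {Ω : Type*} [MeasurableSpace Ω] {P : Measure Ω} [IsProbabilityMeasure P]
    {ω : ℕ × ℤ → Ω → ℝ}

lemma integral_pairP (hmeas : ∀ p, Measurable (ω p)) (hindep : iIndepFun ω P)
    (hident : ∀ p q, IdentDistrib (ω p) (ω q) P P) (β h : ℝ) (n : ℕ)
    (A : (Fin n → Bool) → (Fin n → Bool) → Prop)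
    (B : (ℕ → Bool) → (ℕ → Bool) → Prop) (hAB : ∀ s r, A s r ↔ B (ext s) (ext r)) :
    ∫ x, pairP β h (fun p => ω p x) n A ∂P =
      EA2 (P.map fun x => β * ω (0, 0) x) h n (fun _ s r => ind (B s r)) := by
  have hmp := map_toEnv hmeas hindep hident β
  have h1 : ∀ x, pairP β h (fun p => ω p x) n A =
      Av2 (toEnv β fun p => ω p x) h n (fun s r => ind (B s r)) := fun x =>
    pairP_eq β h _ n A B hAB
  simp only [h1]
  unfold EA2
  rw [← hmp.map_eq, integral_map hmp.measurable.aemeasurable]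
  refine Measurable.aestronglyMeasurable ?_
  unfold Av2
  exact measurable_Av fun s _ => measurable_Av fun r _ => measurable_const

/-- Sums over the site: the interval around the position of the second walk. -/
lemma forceE_eq' (β h : ℝ) (ω : ℕ × ℤ → ℝ) (n : ℕ) (F : (Fin n → Bool) → ℝ) :
    forceE β h ω n F = Av (toEnv β ω) h 0 0 n (fun r => F fun i => r i) := by
  rw [← forceE_eq]
  congr 1
  funext s
  have : (fun i : Fin n => ext s i) = s := by
    funext i; simp [ext]
  rw [this]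

lemma forceE_le_of (β h : ℝ) (ω : ℕ × ℤ → ℝ) (n : ℕ) {F : (Fin n → Bool) → ℝ} {c : ℝ}
    (hF : ∀ s, F s ≤ c) : forceE β h ω n F ≤ c := by
  rw [forceE_eq']
  exact Av_le fun s _ => hF _

lemma forceE_nonneg_of (β h : ℝ) (ω : ℕ × ℤ → ℝ) (n : ℕ) {F : (Fin n → Bool) → ℝ}
    (hF : ∀ s, 0 ≤ F s) : 0 ≤ forceE β h ω n F := by
  rw [forceE_eq']
  exact Av_nonneg fun s _ => hF _

lemma favP_bdd (β h : ℝ) (ω : ℕ × ℤ → ℝ) (n t K : ℕ) :
    BddAbove (Set.range fun y : ℤ => forceE β h ω n fun s =>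
      if |walk s t - y| ≤ K then (1 : ℝ) else 0) := by
  refine ⟨1, ?_⟩
  rintro _ ⟨y, rfl⟩
  refine forceE_le_of β h ω n fun s => ?_
  split_ifs <;> norm_num

lemma favP_le_one (β h : ℝ) (ω : ℕ × ℤ → ℝ) (n t K : ℕ) : favP β h ω n t K ≤ 1 := by
  classical
  unfold favP
  refine ciSup_le fun y => forceE_le_of β h ω n fun s => ?_
  split_ifs <;> norm_num

lemma favP_nonneg (β h : ℝ) (ω : ℕ × ℤ → ℝ) (n t K : ℕ) : 0 ≤ favP β h ω n t K := by
  classical
  have h1 : 0 ≤ forceE β h ω n fun s => if |walk s t - 0| ≤ K then (1 : ℝ) else 0 := by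
    refine forceE_nonneg_of β h ω n fun s => ?_
    split_ifs <;> norm_num
  refine h1.trans ?_
  unfold favP
  convert le_ciSup (favP_bdd β h ω n t K) 0 using 1

lemma favP_ge (β h : ℝ) (ω : ℕ × ℤ → ℝ) (n t K : ℕ) :
    (pairP β h ω n fun s r => |walk s t - walk r t| ≤ K) ≤ favP β h ω n t K := by
  classical
  unfold pairP
  refine forceE_le_of β h ω n fun s => ?_
  refine le_trans (le_of_eq ?_) (le_ciSup (favP_bdd β h ω n t K) (walk s t))
  congr 1
  funext r
  by_cases hh : |walk r t - walk s t| ≤ K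
  · rw [if_pos hh, if_pos (by beta_reduce; rwa [abs_sub_comm])]
  · rw [if_neg hh, if_neg (by beta_reduce; rwa [abs_sub_comm])]

lemma measurable_forceE {hmeas : ∀ p, Measurable (ω p)} (β h : ℝ) (n : ℕ)
    (F : (Fin n → Bool) → ℝ) : Measurable fun x => forceE β h (fun p => ω p x) n F := by
  have h1 : ∀ x, forceE β h (fun p => ω p x) n F =
      Av (toEnv β fun p => ω p x) h 0 0 n (fun r => F fun i => r i) := fun x => forceE_eq' _ _ _ _ _
  simp only [h1]
  have h2 : Measurable fun g : Env => Av g h 0 0 n (fun r => F fun i => r i) :=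
    measurable_Av fun s _ => measurable_const
  refine h2.comp (measurable_pi_iff.2 fun p => ?_)
  exact (hmeas _).const_mul β

lemma integrable_favP (hmeas : ∀ p, Measurable (ω p)) (β h : ℝ) (n t K : ℕ) :
    Integrable (fun x => favP β h (fun p => ω p x) n t K) P := by
  classical
  have hm : Measurable fun x => favP β h (fun p => ω p x) n t K := by
    unfold favP
    exact Measurable.iSup fun y => measurable_forceE (hmeas := hmeas) β h n _
  refine (integrable_const (1 : ℝ)).mono' hm.aestronglyMeasurable (ae_of_all _ fun x => ?_)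
  rw [Real.norm_eq_abs, abs_of_nonneg (favP_nonneg _ _ _ _ _ _)]
  exact favP_le_one _ _ _ _ _ _

lemma integrable_pairP (hmeas : ∀ p, Measurable (ω p)) (β h : ℝ) (n : ℕ)
    (A : (Fin n → Bool) → (Fin n → Bool) → Prop) :
    Integrable (fun x => pairP β h (fun p => ω p x) n A) P := by
  classical
  have h1 : ∀ x, pairP β h (fun p => ω p x) n A =
      Av (toEnv β fun p => ω p x) h 0 0 n (fun s =>
        Av (toEnv β fun p => ω p x) h 0 0 n fun r =>
          if A (fun i => s i) (fun i => r i) then (1 : ℝ) else 0) := by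
    intro x
    unfold pairP
    rw [forceE_eq']
    congr 1
    funext s
    rw [forceE_eq']
  have hm : Measurable fun x => pairP β h (fun p => ω p x) n A := by
    simp only [h1]
    have h2 : Measurable fun g : Env => Av g h 0 0 n (fun s => Av g h 0 0 n fun r =>
          if A (fun i => s i) (fun i => r i) then (1 : ℝ) else 0) :=
      measurable_Av fun s _ => measurable_Av fun r _ => measurable_const
    exact h2.comp (measurable_pi_iff.2 fun p => (hmeas _).const_mul β)
  refine (integrable_const (1 : ℝ)).mono' hm.aestronglyMeasurable (ae_of_all _ fun x => ?_)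
  have h3 : 0 ≤ pairP β h (fun p => ω p x) n A := by
    unfold pairP
    refine forceE_nonneg_of _ _ _ _ fun s => forceE_nonneg_of _ _ _ _ fun r => ?_
    split_ifs <;> norm_num
  have h4 : pairP β h (fun p => ω p x) n A ≤ 1 := by
    unfold pairP
    refine forceE_le_of _ _ _ _ fun s => forceE_le_of _ _ _ _ fun r => ?_
    split_ifs <;> norm_num
  rw [Real.norm_eq_abs, abs_of_nonneg h3]
  exact h4

lemma pairP_compl (β h : ℝ) (ω : ℕ × ℤ → ℝ) (n : ℕ) (A B : (Fin n → Bool) → (Fin n → Bool) → Prop)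
    (hAB : ∀ s r, ¬ A s r → B s r) : 1 - pairP β h ω n A ≤ pairP β h ω n B := by
  classical
  have h1 : ∀ C : (Fin n → Bool) → (Fin n → Bool) → Prop, pairP β h ω n C =
      Av (toEnv β ω) h 0 0 n (fun s => Av (toEnv β ω) h 0 0 n fun r =>
          if C (fun i => s i) (fun i => r i) then (1 : ℝ) else 0) := by
    intro C
    unfold pairP
    rw [forceE_eq']
    congr 1
    funext s
    rw [forceE_eq']
  rw [h1, h1, sub_le_iff_le_add', ← Av_add]
  have h2 : Av (toEnv β ω) h 0 0 n (fun _ => (1 : ℝ)) = 1 := Av_const 1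
  refine h2.symm.le.trans (Av_mono fun s _ => ?_)
  rw [← Av_add]
  refine h2.symm.le.trans (Av_mono fun r _ => ?_)
  by_cases hA : A (fun i => s i) (fun i => r i)
  · rw [if_pos hA]
    split_ifs <;> norm_num
  · rw [if_neg hA, if_pos (hAB _ _ hA)]
    norm_num

/-- **Localization.** -/
theorem main_loc (hmeas : ∀ p, Measurable (ω p)) (hindep : iIndepFun ω P)
    (hident : ∀ p q, IdentDistrib (ω p) (ω q) P P) (hnc : ¬ ∃ c : ℝ, ∀ᵐ x ∂P, ω (0, 0) x = c)
    (hexp : ∀ b : ℝ, Integrable (fun x => Real.exp (b * ω (0, 0) x)) P) {β : ℝ} (hβ : 0 < β)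
    (h : ℝ) {ε : ℝ} (hε : 0 < ε) :
    ∃ K n₀ : ℕ, ∀ n : ℕ, n₀ ≤ n →
      (∑ k ∈ range (n - K + 1), ∫ x, pairP β h (fun p => ω p x) n
        (fun s r => ∀ i, k ≤ i → i ≤ k + K → walk s i ≠ walk r i) ∂P ≤ ε * n) ∧
      (1 - ε) * n ≤ ∑ t ∈ range (n + 1), ∫ x, favP β h (fun p => ω p x) n t K ∂P := by
  classical
  set μ : Measure ℝ := P.map fun x => β * ω (0, 0) x with hμdef
  have hm0 : Measurable fun x => β * ω (0, 0) x := (hmeas _).const_mul β
  have hprob : IsProbabilityMeasure μ := Measure.isProbabilityMeasure_map hm0.aemeasurable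
  have hμ : EM μ := EM_of (hmeas _) hexp β
  have hnd : Nondeg μ := Nondeg_of (hmeas _) hnc hβ
  obtain ⟨R, hR1, hR⟩ := meet_all hμ hnd h (show 0 < ε / 2 by positivity)
  obtain ⟨n₁, hn₁⟩ := hR R le_rfl
  obtain ⟨n₂, hn₂⟩ := hR (2 * R) (by omega)
  have key : ∀ n k R' : ℕ, k + R' ≤ n → ∫ x, pairP β h (fun p => ω p x) n
        (fun s r => ∀ i, k ≤ i → i ≤ k + R' → walk s i ≠ walk r i) ∂P =
      EA2 μ h n (fun _ s r => ind (∀ i, k ≤ i → i ≤ k + R' → pos s i ≠ pos r i)) := by
    intro n k R' hk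
    refine integral_pairP hmeas hindep hident β h n _ _ fun s r => ?_
    refine forall_congr' fun i => forall_congr' fun _ => forall_congr' fun hi => ?_
    rw [walk_eq s (hi.trans hk), walk_eq r (hi.trans hk)]
  refine ⟨2 * R, max (max n₁ n₂) (max (2 * R) ⌈2 * (R : ℝ) / ε⌉₊), fun n hn => ⟨?_, ?_⟩⟩
  · have h2 : n₂ ≤ n := ((le_max_right _ _).trans (le_max_left _ _)).trans hn
    have h3 : 2 * R ≤ n := ((le_max_left _ _).trans (le_max_right _ _)).trans hn
    refine le_trans (le_of_eq (Finset.sum_congr rfl fun k hk => ?_)) ((hn₂ n h2).trans ?_)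
    · rw [Finset.mem_range] at hk
      exact key n k (2 * R) (by omega)
    · have : (0 : ℝ) ≤ n := Nat.cast_nonneg n
      nlinarith
  · have h2 : n₁ ≤ n := ((le_max_left _ _).trans (le_max_left _ _)).trans hn
    have h3 : 2 * R ≤ n := ((le_max_left _ _).trans (le_max_right _ _)).trans hn
    have h4 : 2 * (R : ℝ) / ε ≤ n :=
      (Nat.le_ceil _).trans (by exact_mod_cast ((le_max_right _ _).trans (le_max_right _ _)).trans hn)
    rw [div_le_iff₀ hε] at h4
    have h5 : ∀ t ∈ range (n - R + 1), 1 - EA2 μ h n (fun _ s r =>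
        ind (∀ i, t ≤ i → i ≤ t + R → pos s i ≠ pos r i)) ≤
          ∫ x, favP β h (fun p => ω p x) n t (2 * R) ∂P := by
      intro t ht
      rw [Finset.mem_range] at ht
      rw [← key n t R (by omega)]
      have h6 : (1 : ℝ) - ∫ x, pairP β h (fun p => ω p x) n
          (fun s r => ∀ i, t ≤ i → i ≤ t + R → walk s i ≠ walk r i) ∂P =
          ∫ x, (1 - pairP β h (fun p => ω p x) n
          (fun s r => ∀ i, t ≤ i → i ≤ t + R → walk s i ≠ walk r i)) ∂P := by
        rw [integral_sub (integrable_const _) (integrable_pairP hmeas _ _ _ _), integral_const,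
          probReal_univ, one_smul]
      rw [h6]
      refine integral_mono ((integrable_const _).sub (integrable_pairP hmeas _ _ _ _))
        (integrable_favP hmeas β h n t (2 * R)) fun x => ?_
      refine (pairP_compl β h (fun p => ω p x) n _ _ fun s r hsr => ?_).trans
        (favP_ge β h (fun p => ω p x) n t (2 * R))
      push Not at hsr
      obtain ⟨i, hi1, hi2, hi3⟩ := hsr
      have hin : i ≤ n := by omega
      have htn : t ≤ n := by omega
      rw [walk_eq s hin, walk_eq r hin] at hi3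
      rw [walk_eq s htn, walk_eq r htn]
      obtain ⟨d, rfl⟩ : ∃ d, i = t + d := ⟨i - t, by omega⟩
      have e1 := pos_sub_abs_le (ext s) (show t ≤ t + d by omega)
      have e2 := pos_sub_abs_le (ext r) (show t ≤ t + d by omega)
      have e3 : (d : ℤ) ≤ R := by omega
      rw [abs_le] at e1 e2 ⊢
      push_cast at e1 e2 ⊢
      constructor <;> linarith [e1.1, e1.2, e2.1, e2.2]
    have h7 : ∑ t ∈ range (n - R + 1), ∫ x, favP β h (fun p => ω p x) n t (2 * R) ∂P ≤
        ∑ t ∈ range (n + 1), ∫ x, favP β h (fun p => ω p x) n t (2 * R) ∂P := by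
      refine Finset.sum_le_sum_of_subset_of_nonneg (Finset.range_subset_range.2 (by omega))
        fun t _ _ => integral_nonneg fun x => favP_nonneg _ _ _ _ _ _
    have h8 := Finset.sum_le_sum h5
    rw [Finset.sum_sub_distrib] at h8
    have h9 := hn₁ n h2
    have h10 : (∑ _t ∈ range (n - R + 1), (1 : ℝ)) = n - R + 1 := by
      rw [Finset.sum_const, Finset.card_range, nsmul_eq_mul, mul_one]
      push_cast [Nat.cast_sub (show R ≤ n by omega)]
      ring
    rw [h10] at h8
    linarith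

end

end Pool.Agent.W_7d29a1_h47
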