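import Pool.Agent.W_7d29a1_h47.Avg

/-!
# One-site tools: the noise lemma (N)
-/

namespace Pool.Agent.W_7d29a1_h47

open MeasureTheory ProbabilityTheory Finset

noncomputable section

variable {μ : Measure ℝ} [IsProbabilityMeasure μ]

/-- Number of visits (0 or 1) of the walk from `(0,0)` at the site `p`, i.e. the coefficient of
`g p` in the energy: `En (update g p u) = En g + (u - g p) * vis`. -/
def vis (p : ℕ × ℤ) (n : ℕ) (s : ℕ → Bool) : ℝ := ind (p.1 < n ∧ pos s (p.1 + 1) = p.2)

/-- Proof. Only the summand `i = p.1` of `En` can see `p`. -/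
lemma En_update (g : Env) (p : ℕ × ℤ) (u : ℝ) (n : ℕ) (s : ℕ → Bool) :
    En (Function.update g p u) 0 0 n s = En g 0 0 n s + (u - g p) * vis p n s := by
  unfold En vis
  have h1 : ∀ i ∈ range n, Function.update g p u (0 + i, 0 + pos s (i + 1)) =
      g (0 + i, 0 + pos s (i + 1)) +
        if i = p.1 then (u - g p) * ind (pos s (p.1 + 1) = p.2) else 0 := by
    intro i _
    by_cases h : i = p.1
    · subst h
      by_cases h2 : pos s (p.1 + 1) = p.2
      · have h3 : ((0 + p.1, 0 + pos s (p.1 + 1)) : ℕ × ℤ) = p := by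
          ext <;> simp [h2]
        rw [h3, Function.update_self, if_pos rfl, ind_true h2]
        ring
      · have h3 : ((0 + p.1, 0 + pos s (p.1 + 1)) : ℕ × ℤ) ≠ p := by
          intro e
          apply h2
          have := congrArg Prod.snd e
          simpa using this
        rw [Function.update_of_ne h3, if_pos rfl, ind_false h2]
        ring
    · have h3 : ((0 + i, 0 + pos s (i + 1)) : ℕ × ℤ) ≠ p := by
        intro e
        apply h
        have := congrArg Prod.fst e
        simpa using this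
      rw [Function.update_of_ne h3, if_neg h, add_zero]
  rw [Finset.sum_congr rfl h1, Finset.sum_add_distrib, Finset.sum_ite_eq']
  congr 1
  by_cases h : p.1 < n
  · rw [if_pos (Finset.mem_range.2 h)]
    congr 1
    exact ind_congr ⟨fun a => ⟨h, a⟩, fun a => a.2⟩
  · rw [if_neg (by simpa using h), ind_false (fun a => h a.1), mul_zero]

/-- Changing one site by `u - g p` changes Gibbs averages of nonnegative functions at most by the
factor `e^{|u - g p|}`. Proof. `e^{-(d)^-} wt ≤ wt' ≤ e^{d^+} wt` with `d = u - g p`, for the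
numerator and for `Z`. -/
lemma Av_update_le (g : Env) (h : ℝ) (p : ℕ × ℤ) (u : ℝ) (n : ℕ) {F : (ℕ → Bool) → ℝ}
    (hF : ∀ s ∈ T n, 0 ≤ F s) :
    Av (Function.update g p u) h 0 0 n F ≤ Real.exp |u - g p| * Av g h 0 0 n F := by
  have hw : ∀ s, wt (Function.update g p u) h 0 0 n s =
      Real.exp ((u - g p) * vis p n s) * wt g h 0 0 n s := by
    intro s
    unfold wt
    rw [En_update, ← Real.exp_add]
    congr 1
    ring
  have hv0 : ∀ s, 0 ≤ vis p n s := fun s => ind_nonneg _
  have hv1 : ∀ s, vis p n s ≤ 1 := fun s => ind_le_one _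
  have hup : ∀ s, wt (Function.update g p u) h 0 0 n s ≤
      Real.exp (max (u - g p) 0) * wt g h 0 0 n s := by
    intro s
    rw [hw s]
    refine mul_le_mul_of_nonneg_right (Real.exp_le_exp.2 ?_) (wt_pos _ _ _ _ _ _).le
    calc (u - g p) * vis p n s ≤ max (u - g p) 0 * vis p n s :=
          mul_le_mul_of_nonneg_right (le_max_left _ _) (hv0 s)
      _ ≤ max (u - g p) 0 * 1 := mul_le_mul_of_nonneg_left (hv1 s) (le_max_right _ _)
      _ = max (u - g p) 0 := mul_one _
  have hlo : ∀ s, Real.exp (-(max (-(u - g p)) 0)) * wt g h 0 0 n s ≤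
      wt (Function.update g p u) h 0 0 n s := by
    intro s
    rw [hw s]
    refine mul_le_mul_of_nonneg_right (Real.exp_le_exp.2 ?_) (wt_pos _ _ _ _ _ _).le
    have h1 : -(u - g p) * vis p n s ≤ max (-(u - g p)) 0 * vis p n s :=
      mul_le_mul_of_nonneg_right (le_max_left _ _) (hv0 s)
    have h2 : max (-(u - g p)) 0 * vis p n s ≤ max (-(u - g p)) 0 * 1 :=
      mul_le_mul_of_nonneg_left (hv1 s) (le_max_right _ _)
    linarith
  have hnum : (∑ s ∈ T n, wt (Function.update g p u) h 0 0 n s * F s) ≤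
      Real.exp (max (u - g p) 0) * ∑ s ∈ T n, wt g h 0 0 n s * F s := by
    rw [Finset.mul_sum]
    refine Finset.sum_le_sum fun s hs => ?_
    rw [← mul_assoc]
    exact mul_le_mul_of_nonneg_right (hup s) (hF s hs)
  have hden : Real.exp (-(max (-(u - g p)) 0)) * Z g h 0 0 n ≤
      Z (Function.update g p u) h 0 0 n := by
    unfold Z
    rw [Finset.mul_sum]
    exact Finset.sum_le_sum fun s _ => hlo s
  have hnum0 : 0 ≤ ∑ s ∈ T n, wt g h 0 0 n s * F s :=
    Finset.sum_nonneg fun s hs => mul_nonneg (wt_pos _ _ _ _ _ _).le (hF s hs)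
  have hZ : 0 < Z g h 0 0 n := Z_pos _ _ _ _ _
  have hZ' : 0 < Z (Function.update g p u) h 0 0 n := Z_pos _ _ _ _ _
  have habs : |u - g p| = max (u - g p) 0 + max (-(u - g p)) 0 := by
    rcases le_total 0 (u - g p) with h0 | h0
    · rw [abs_of_nonneg h0, max_eq_left h0, max_eq_right (by linarith), add_zero]
    · rw [abs_of_nonpos h0, max_eq_right h0, max_eq_left (by linarith), zero_add]
  unfold Av
  rw [div_le_iff₀ hZ', habs, Real.exp_add]
  refine hnum.trans ?_
  have h3 : Real.exp (max (-(u - g p)) 0) * Real.exp (-(max (-(u - g p)) 0)) = 1 := by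
    rw [← Real.exp_add, add_neg_cancel, Real.exp_zero]
  have h4 : Z g h 0 0 n ≤ Real.exp (max (-(u - g p)) 0) * Z (Function.update g p u) h 0 0 n := by
    calc Z g h 0 0 n = Real.exp (max (-(u - g p)) 0) *
          (Real.exp (-(max (-(u - g p)) 0)) * Z g h 0 0 n) := by
          rw [← mul_assoc, h3, one_mul]
      _ ≤ _ := mul_le_mul_of_nonneg_left hden (Real.exp_pos _).le
  calc Real.exp (max (u - g p) 0) * ∑ s ∈ T n, wt g h 0 0 n s * F s
      = Real.exp (max (u - g p) 0) * ((∑ s ∈ T n, wt g h 0 0 n s * F s) / Z g h 0 0 n) *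
          Z g h 0 0 n := by
        field_simp
    _ ≤ Real.exp (max (u - g p) 0) * ((∑ s ∈ T n, wt g h 0 0 n s * F s) / Z g h 0 0 n) *
          (Real.exp (max (-(u - g p)) 0) * Z (Function.update g p u) h 0 0 n) :=
        mul_le_mul_of_nonneg_left h4
          (mul_nonneg (Real.exp_pos _).le (div_nonneg hnum0 hZ.le))
    _ = _ := by ring

/-- The noise constant of `Ψ`. -/
def CN (μ : Measure ℝ) (Ψ : ℝ → ℝ) : ℝ :=
  (∫ u, Ψ u * Real.exp |u| ∂μ) / ∫ u, Real.exp (-|u|) ∂μ

lemma SiteN_den_pos (μ : Measure ℝ) [IsProbabilityMeasure μ] :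
    0 < ∫ u, Real.exp (-|u|) ∂μ := by
  refine integral_exp_pos ?_
  refine Integrable.of_bound (C := 1) (by fun_prop) ?_
  refine Filter.Eventually.of_forall fun u => ?_
  rw [Real.norm_eq_abs, abs_of_pos (Real.exp_pos _)]
  exact Real.exp_le_one_iff.2 (neg_nonpos.2 (abs_nonneg u))

/-- The Gibbs average after resampling one site is measurable in the resampled value. -/
lemma SiteN_meas_update (h : ℝ) (n : ℕ) (F : (ℕ → Bool) → ℝ) (g : Env) (p : ℕ × ℤ) :
    Measurable fun u : ℝ => Av (Function.update g p u) h 0 0 n F := by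
  have h1 : Measurable fun g : Env => Av g h 0 0 n F :=
    measurable_Av (F := fun _ s => F s) fun s _ => measurable_const
  exact h1.comp (measurable_update g)

/-- The one-site comparison, for fixed environment. -/
lemma SiteN_one {Ψ : ℝ → ℝ} (hΨ : ∀ u, 0 ≤ Ψ u)
    (hΨj : Integrable (fun u => Ψ u * Real.exp |u|) μ) (h : ℝ) (n : ℕ) (g : Env) (p : ℕ × ℤ)
    {F : (ℕ → Bool) → ℝ} (hF : ∀ s ∈ T n, 0 ≤ F s) (hF1 : ∀ s ∈ T n, F s ≤ 1) :
    ∫ u, Ψ u * Av (Function.update g p u) h 0 0 n F ∂μ ≤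
      CN μ Ψ * ∫ u, Av (Function.update g p u) h 0 0 n F ∂μ := by
  have hden := SiteN_den_pos μ
  have hnum : 0 ≤ ∫ u, Ψ u * Real.exp |u| ∂μ :=
    integral_nonneg fun u => mul_nonneg (hΨ u) (Real.exp_pos _).le
  have hA0 : 0 ≤ Av (Function.update g p 0) h 0 0 n F := Av_nonneg hF
  have hup : ∀ u, Av (Function.update g p u) h 0 0 n F ≤
      Real.exp |u| * Av (Function.update g p 0) h 0 0 n F := by
    intro u
    have := Av_update_le (Function.update g p 0) h p u n hF
    rw [Function.update_idem, Function.update_self, sub_zero] at this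
    exact this
  have hlo : ∀ u, Av (Function.update g p 0) h 0 0 n F ≤
      Real.exp |u| * Av (Function.update g p u) h 0 0 n F := by
    intro u
    have := Av_update_le (Function.update g p u) h p 0 n hF
    rw [Function.update_idem, Function.update_self, zero_sub, abs_neg] at this
    exact this
  have hlo' : ∀ u, Real.exp (-|u|) * Av (Function.update g p 0) h 0 0 n F ≤
      Av (Function.update g p u) h 0 0 n F := by
    intro u
    have h1 := mul_le_mul_of_nonneg_left (hlo u) (Real.exp_pos (-|u|)).le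
    rw [← mul_assoc, ← Real.exp_add, neg_add_cancel, Real.exp_zero, one_mul] at h1
    exact h1
  have h1 : ∫ u, Ψ u * Av (Function.update g p u) h 0 0 n F ∂μ ≤
      ∫ u, Ψ u * Real.exp |u| * Av (Function.update g p 0) h 0 0 n F ∂μ := by
    refine integral_mono_of_nonneg ?_ (hΨj.mul_const _) ?_
    · exact Filter.Eventually.of_forall fun u => mul_nonneg (hΨ u) (Av_nonneg hF)
    · refine Filter.Eventually.of_forall fun u => ?_
      change Ψ u * Av (Function.update g p u) h 0 0 n F ≤
        Ψ u * Real.exp |u| * Av (Function.update g p 0) h 0 0 n F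
      rw [mul_assoc]
      exact mul_le_mul_of_nonneg_left (hup u) (hΨ u)
  rw [integral_mul_const] at h1
  have h2 : ∫ u, Real.exp (-|u|) * Av (Function.update g p 0) h 0 0 n F ∂μ ≤
      ∫ u, Av (Function.update g p u) h 0 0 n F ∂μ := by
    refine integral_mono_of_nonneg ?_ ?_ ?_
    · exact Filter.Eventually.of_forall fun u => mul_nonneg (Real.exp_pos _).le hA0
    · refine Integrable.of_bound (C := 1)
        (SiteN_meas_update h n F g p).aestronglyMeasurable ?_
      refine Filter.Eventually.of_forall fun u => ?_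
      rw [Real.norm_eq_abs, abs_of_nonneg (Av_nonneg hF)]
      exact Av_le hF1
    · exact Filter.Eventually.of_forall fun u => hlo' u
  rw [integral_mul_const] at h2
  have h3 : Av (Function.update g p 0) h 0 0 n F ≤
      (∫ u, Av (Function.update g p u) h 0 0 n F ∂μ) / ∫ u, Real.exp (-|u|) ∂μ := by
    rw [le_div_iff₀ hden, mul_comm]
    exact h2
  calc ∫ u, Ψ u * Av (Function.update g p u) h 0 0 n F ∂μ
      ≤ (∫ u, Ψ u * Real.exp |u| ∂μ) * Av (Function.update g p 0) h 0 0 n F := h1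
    _ ≤ (∫ u, Ψ u * Real.exp |u| ∂μ) *
        ((∫ u, Av (Function.update g p u) h 0 0 n F ∂μ) / ∫ u, Real.exp (-|u|) ∂μ) :=
        mul_le_mul_of_nonneg_left h3 hnum
    _ = CN μ Ψ * ∫ u, Av (Function.update g p u) h 0 0 n F ∂μ := by
        unfold CN
        ring

/-- The noise lemma for a fixed site. -/
lemma SiteN_site {Ψ : ℝ → ℝ} (hΨ : ∀ u, 0 ≤ Ψ u) (p : ℕ × ℤ)
    (hΨi : PMom (law μ) fun g : Env => Ψ (g p))
    (hΨj : Integrable (fun u => Ψ u * Real.exp |u|) μ) (h : ℝ) (n : ℕ)
    {F : (ℕ → Bool) → ℝ} (hF : ∀ s ∈ T n, 0 ≤ F s) (hF1 : ∀ s ∈ T n, F s ≤ 1) :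
    ∫ g, Ψ (g p) * Av g h 0 0 n F ∂(law μ) ≤ CN μ Ψ * ∫ g, Av g h 0 0 n F ∂(law μ) := by
  have hA : Integrable (fun g : Env => Av g h 0 0 n F) (law μ) :=
    PF.integrable (F := fun _ s => F s) (PF.det F)
  have hm : Measurable fun g : Env => Av g h 0 0 n F :=
    measurable_Av (F := fun _ s => F s) fun s _ => measurable_const
  have hPA : PMom (law μ) fun g : Env => Ψ (g p) * Av g h 0 0 n F := by
    refine hΨi.mul ?_
    refine PMom.of_bounded (c := 1) hm fun g => ?_
    rw [abs_of_nonneg (Av_nonneg hF)]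
    exact Av_le hF1
  rw [integral_update p hPA.integrable, integral_update p hA, ← integral_const_mul]
  have hA2 : Integrable (fun w : Env × ℝ => Av (Function.update w.1 p w.2) h 0 0 n F)
      ((law μ).prod μ) := (mp_update (μ := μ) p).integrable_comp_of_integrable hA
  refine integral_mono_of_nonneg ?_ (hA2.integral_prod_left.const_mul _) ?_
  · refine Filter.Eventually.of_forall fun g => ?_
    exact integral_nonneg fun u => mul_nonneg (hΨ _) (Av_nonneg hF)
  · refine Filter.Eventually.of_forall fun g => ?_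
    have := SiteN_one (μ := μ) hΨ hΨj h n g p hF hF1
    simpa only [Function.update_self] using this

/-- **(N)** Noise lemma. Proof. Sort by the value `y` of `χ`, `|y| ≤ b`:
`Av (s ↦ Ψ (g (i, χ s))) = ∑_y Ψ (g (i,y)) Av (s ↦ ind (χ s = y))`. Fix `y`, `p = (i, y)`, put
`A_u = Av (update g p u) (ind (χ = y))`. By `integral_update`
`∫ Ψ(g p) A = ∫ ∫ Ψ(u) A_u dμ(u) dπ`, `A_u ≤ e^{|u|} A_0` (`Av_update_le` at `update g p 0`),
`A_0 e^{-|u'|} ≤ A_{u'}`, so `A_0 ∫ e^{-|u'|} ≤ ∫ A_{u'} dμ(u')`. Hence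
`∫ Ψ(g p) A ≤ CN μ Ψ * ∫ A` and `∑_y ∫ A = 1`. -/
theorem noise (hμ : EM μ) {Ψ : ℝ → ℝ} (hΨm : Measurable Ψ) (hΨ : ∀ u, 0 ≤ Ψ u)
    (hΨi : ∀ p : ℕ × ℤ, PMom (law μ) fun g : Env => Ψ (g p))
    (hΨj : Integrable (fun u => Ψ u * Real.exp |u|) μ) (h : ℝ) (n i : ℕ) (χ : (ℕ → Bool) → ℤ) :
    EA μ h n (fun g s => Ψ (g (i, χ s))) ≤ CN μ Ψ := by
  have h1 : EA μ h n (fun g s => Ψ (g (i, χ s))) =
      EA μ h n (fun g s => ∑ y ∈ (T n).image χ, Ψ (g (i, y)) * ind (χ s = y)) := by
    refine EA_congr fun g s hs => ?_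
    rw [Finset.sum_eq_single (χ s)]
    · rw [ind_true rfl, mul_one]
    · intro y _ hy
      rw [ind_false (fun e => hy e.symm), mul_zero]
    · intro hn
      exact absurd (Finset.mem_image_of_mem χ hs) hn
  have hPF : ∀ y ∈ (T n).image χ, PF μ n (fun g s => Ψ (g (i, y)) * ind (χ s = y)) := by
    intro y _ s _
    exact (hΨi (i, y)).mul (PMom.const _)
  rw [h1, EA_sum _ hPF]
  have h2 : ∀ y ∈ (T n).image χ, EA μ h n (fun g s => Ψ (g (i, y)) * ind (χ s = y)) ≤
      CN μ Ψ * EA μ h n (fun _ s => ind (χ s = y)) := by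
    intro y _
    have h3 := SiteN_site (μ := μ) hΨ (i, y) (hΨi (i, y)) hΨj h n
      (F := fun s => ind (χ s = y)) (fun s _ => ind_nonneg _) (fun s _ => ind_le_one _)
    unfold EA
    simp only [Av_mul_left]
    exact h3
  refine (Finset.sum_le_sum h2).trans ?_
  rw [← Finset.mul_sum, ← EA_sum _ fun y _ => PF.det fun s => ind (χ s = y)]
  have h4 : EA μ h n (fun _ s => ∑ y ∈ (T n).image χ, ind (χ s = y)) = 1 := by
    rw [← EA_const (μ := μ) (h := h) (n := n) 1]
    refine EA_congr fun g s hs => ?_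
    rw [Finset.sum_eq_single (χ s)]
    · rw [ind_true rfl]
    · intro y _ hy
      rw [ind_false (fun e => hy e.symm)]
    · intro hn
      exact absurd (Finset.mem_image_of_mem χ hs) hn
  rw [h4, mul_one]

end

end Pool.Agent.W_7d29a1_h47
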