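import Pool.Agent.W_7d29a1_h47.Avg

/-!
# Tube sums
-/

namespace Pool.Agent.W_7d29a1_h47

open MeasureTheory ProbabilityTheory Finset

noncomputable section

variable {μ : Measure ℝ} [IsProbabilityMeasure μ]

/-- The sum of `φ (g site)` over the moving tube of half width `2w` started in `x` at time `k`. -/
def tubeX (φ : ℝ → ℝ) (v : ℝ) (w : ℕ) (g : Env) (k : ℕ) (x : ℤ) (T : ℕ) : ℝ :=
  ∑ i ∈ range T, ∑ y ∈ Icc (x - 3 * T) (x + 3 * T),
    ind (|(y : ℝ) - x - v * (i + 1)| ≤ 2 * w) * φ (g (k + i, y))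

omit [IsProbabilityMeasure μ] in
open Classical in
lemma Tube_card_nat (v : ℝ) {w : ℕ} (hw : 1 ≤ w) (x : ℤ) (T i : ℕ) :
    ((Icc (x - 3 * T) (x + 3 * T)).filter
        (fun y : ℤ => |(y : ℝ) - x - v * (i + 1)| ≤ 2 * w)).card ≤ 5 * w := by
  set c : ℝ := (x : ℝ) + v * (i + 1) with hc
  have hsub : (Icc (x - 3 * T) (x + 3 * T)).filter
      (fun y : ℤ => |(y : ℝ) - x - v * (i + 1)| ≤ 2 * w) ⊆ Icc ⌈c - 2 * w⌉ ⌊c + 2 * w⌋ := by
    intro y hy
    rw [Finset.mem_filter] at hy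
    have h1 := abs_le.1 hy.2
    rw [Finset.mem_Icc]
    constructor
    · refine Int.ceil_le.2 ?_
      linarith [h1.1]
    · refine Int.le_floor.2 ?_
      linarith [h1.2]
  refine (Finset.card_le_card hsub).trans ?_
  rw [Int.card_Icc]
  have h2 : ((⌊c + 2 * w⌋ : ℤ) : ℝ) ≤ c + 2 * w := Int.floor_le _
  have h3 : c - 2 * w ≤ ((⌈c - 2 * w⌉ : ℤ) : ℝ) := Int.le_ceil _
  have h4 : ((⌊c + 2 * w⌋ + 1 - ⌈c - 2 * w⌉ : ℤ) : ℝ) ≤ ((5 * w : ℤ) : ℝ) := by
    push_cast
    have h5 : (1 : ℝ) ≤ w := by exact_mod_cast hw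
    linarith
  have h6 : ⌊c + 2 * w⌋ + 1 - ⌈c - 2 * w⌉ ≤ (5 * w : ℤ) := by exact_mod_cast h4
  omega

/-- For fixed `i` at most `5 w` values of `y` are in the tube. Proof. The integers in an interval of
length `4w` number at most `4w + 1`. -/
lemma tube_card (v : ℝ) {w : ℕ} (hw : 1 ≤ w) (x : ℤ) (T i : ℕ) :
    ∑ y ∈ Icc (x - 3 * T) (x + 3 * T), ind (|(y : ℝ) - x - v * (i + 1)| ≤ 2 * w) ≤ 5 * w := by
  classical
  have h0 : ∑ y ∈ Icc (x - 3 * T) (x + 3 * T), ind (|(y : ℝ) - x - v * (i + 1)| ≤ 2 * w) =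
      (((Icc (x - 3 * T) (x + 3 * T)).filter
        (fun y : ℤ => |(y : ℝ) - x - v * (i + 1)| ≤ 2 * w)).card : ℝ) := by
    rw [Finset.card_filter]
    push_cast
    refine Finset.sum_congr rfl fun y _ => ?_
    unfold ind
    split_ifs <;> rfl
  rw [h0]
  exact_mod_cast Tube_card_nat v hw x T i

lemma Tube_one {φ : ℝ → ℝ} (hφm : Measurable φ) (hφ1 : ∀ u, |φ u| ≤ 1) (hφ0 : ∫ u, φ u ∂μ = 0)
    (c : ℝ) : ∫ u, Real.exp (c * φ u) ∂μ ≤ Real.exp (c ^ 2) := by
  have hint : Integrable φ μ := by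
    refine (integrable_const (1 : ℝ)).mono' hφm.aestronglyMeasurable
      (Filter.Eventually.of_forall fun u => ?_)
    exact hφ1 u
  have hpt : ∀ u, Real.exp (c * φ u) ≤ Real.cosh c + φ u * Real.sinh c := by
    intro u
    have h1 := abs_le.1 (hφ1 u)
    have h2 := convexOn_exp.2 (Set.mem_univ c) (Set.mem_univ (-c))
      (show 0 ≤ (1 + φ u) / 2 by linarith) (show 0 ≤ (1 - φ u) / 2 by linarith) (by ring)
    simp only [smul_eq_mul] at h2
    have h3 : (1 + φ u) / 2 * c + (1 - φ u) / 2 * -c = c * φ u := by ring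
    rw [h3] at h2
    rw [Real.cosh_eq, Real.sinh_eq]
    linarith
  have hb : Integrable (fun u => Real.exp (c * φ u)) μ := by
    refine (integrable_const (Real.exp |c|)).mono' (by fun_prop)
      (Filter.Eventually.of_forall fun u => ?_)
    rw [Real.norm_eq_abs, abs_of_pos (Real.exp_pos _)]
    refine Real.exp_le_exp.2 ?_
    calc c * φ u ≤ |c * φ u| := le_abs_self _
      _ = |c| * |φ u| := abs_mul _ _
      _ ≤ |c| * 1 := mul_le_mul_of_nonneg_left (hφ1 u) (abs_nonneg _)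
      _ = |c| := mul_one _
  calc ∫ u, Real.exp (c * φ u) ∂μ ≤ ∫ u, (Real.cosh c + φ u * Real.sinh c) ∂μ :=
        integral_mono hb ((integrable_const _).add (hint.mul_const _)) hpt
    _ = Real.cosh c := by
        rw [integral_add (integrable_const _) (hint.mul_const _), integral_mul_const, hφ0]
        simp
    _ ≤ Real.exp (c ^ 2 / 2) := Real.cosh_le_exp_half_sq c
    _ ≤ Real.exp (c ^ 2) := Real.exp_le_exp.2 (by nlinarith [sq_nonneg c])

lemma Tube_exp_sum {φ : ℝ → ℝ} (hφm : Measurable φ) (hφ1 : ∀ u, |φ u| ≤ 1)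
    (hφ0 : ∫ u, φ u ∂μ = 0) (c : ℝ) (S : Finset (ℕ × ℤ)) :
    ∫ g, Real.exp (∑ p ∈ S, c * φ (g p)) ∂(law μ) ≤ Real.exp (c ^ 2 * S.card) := by
  classical
  induction S using Finset.induction_on with
  | empty => simp
  | insert p S hp ih =>
    have h1 : ∀ g : Env, Real.exp (∑ q ∈ insert p S, c * φ (g q)) =
        Real.exp (c * φ (g p)) * Real.exp (∑ q ∈ S, c * φ (g q)) := by
      intro g
      rw [Finset.sum_insert hp, Real.exp_add]
    simp only [h1]
    rw [integral_mul_indep {p} (by fun_prop) (by fun_prop) ?_ ?_,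
      integral_coord p (f := fun u => Real.exp (c * φ u)) (by fun_prop)]
    · rw [Finset.card_insert_of_notMem hp]
      push_cast
      have h2 : c ^ 2 * ((S.card : ℝ) + 1) = c ^ 2 + c ^ 2 * S.card := by ring
      rw [h2, Real.exp_add]
      exact mul_le_mul (Tube_one hφm hφ1 hφ0 c) ih
        (integral_nonneg fun g => (Real.exp_pos _).le) (Real.exp_pos _).le
    · intro g g' hg
      simp only
      rw [hg p (Set.mem_singleton p)]
    · intro g g' hg
      simp only
      congr 1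
      refine Finset.sum_congr rfl fun q hq => ?_
      rw [hg q ?_]
      intro hqp
      rw [Set.mem_singleton_iff] at hqp
      exact hp (hqp ▸ hq)

/-- Exponential moments of the tube sum. Proof. The sites are distinct, hence independent
(`integral_mul_indep` and induction over the finite set of sites, or `iIndepFun` and
`iIndepFun.integral_prod`…), and `∫ e^{c φ} dμ ≤ e^{c²}` because `e^u ≤ u + e^{u²}`, `∫ φ = 0`,
`|φ| ≤ 1`; the number of sites is `≤ 5 w T` (`tube_card`). -/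
lemma tube_exp {φ : ℝ → ℝ} (hφm : Measurable φ) (hφ1 : ∀ u, |φ u| ≤ 1) (hφ0 : ∫ u, φ u ∂μ = 0)
    (v : ℝ) {w : ℕ} (hw : 1 ≤ w) (k : ℕ) (x : ℤ) (T : ℕ) (c : ℝ) :
    ∫ g, Real.exp (c * tubeX φ v w g k x T) ∂(law μ) ≤ Real.exp (c ^ 2 * (5 * w * T)) := by
  classical
  set S : Finset (ℕ × ℤ) := (range T).biUnion fun i =>
    ((Icc (x - 3 * T) (x + 3 * T)).filter
        (fun y : ℤ => |(y : ℝ) - x - v * (i + 1)| ≤ 2 * w)).image (fun y => (k + i, y)) with hS
  have hdisj : Set.PairwiseDisjoint (↑(range T) : Set ℕ) (fun i =>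
    ((Icc (x - 3 * T) (x + 3 * T)).filter
        (fun y : ℤ => |(y : ℝ) - x - v * (i + 1)| ≤ 2 * w)).image (fun y => (k + i, y))) := by
    intro i _ j _ hij
    refine Finset.disjoint_left.2 fun p hp hq => hij ?_
    obtain ⟨y, -, rfl⟩ := Finset.mem_image.1 hp
    obtain ⟨z, -, hz⟩ := Finset.mem_image.1 hq
    have := congrArg Prod.fst hz
    simp only at this
    omega
  have hsum : ∀ g : Env, c * tubeX φ v w g k x T = ∑ p ∈ S, c * φ (g p) := by
    intro g
    unfold tubeX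
    rw [hS, Finset.sum_biUnion hdisj, Finset.mul_sum]
    refine Finset.sum_congr rfl fun i _ => ?_
    rw [Finset.sum_image (fun y _ z _ h => by
      have := congrArg Prod.snd h
      simpa using this), Finset.mul_sum, Finset.sum_filter]
    refine Finset.sum_congr rfl fun y _ => ?_
    unfold ind
    split_ifs with h
    · rw [one_mul]
    · rw [zero_mul, mul_zero]
  have hcard : (S.card : ℝ) ≤ 5 * w * T := by
    have h1 : S.card ≤ ∑ i ∈ range T, 5 * w := by
      rw [hS]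
      refine Finset.card_biUnion_le.trans (Finset.sum_le_sum fun i _ => ?_)
      exact Finset.card_image_le.trans (Tube_card_nat v hw x T i)
    rw [Finset.sum_const, Finset.card_range, smul_eq_mul] at h1
    have h2 : (S.card : ℝ) ≤ ((T * (5 * w) : ℕ) : ℝ) := by exact_mod_cast h1
    push_cast at h2
    linarith
  simp only [hsum]
  refine (Tube_exp_sum hφm hφ1 hφ0 c S).trans (Real.exp_le_exp.2 ?_)
  exact mul_le_mul_of_nonneg_left hcard (sq_nonneg c)

end

end Pool.Agent.W_7d29a1_h47
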