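import Pool.Agent.W_7d29a1_h47.Block
import Pool.Agent.W_7d29a1_h47.LamB
import Pool.Agent.W_7d29a1_h47.InsK

/-!
# A good end point for a block of length `B`
-/

namespace Pool.Agent.W_7d29a1_h47

open MeasureTheory ProbabilityTheory Finset

noncomputable section

variable {μ : Measure ℝ} [IsProbabilityMeasure μ]

lemma UiA_logKp (g : Env) (h : ℝ) {B : ℕ} {x : ℤ} (hx : Reach 0 B x) :
    Real.log (Kp g h 0 0 B x) = h * x + Real.log (Zp g 0 0 B x) := by
  unfold Kp
  rw [Real.log_mul (Real.exp_pos _).ne' (Zp_pos g hx 0).ne', Real.log_exp]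
  push_cast
  ring

lemma UiA_Kp_pos (g : Env) (h : ℝ) {B : ℕ} {x : ℤ} (hx : Reach 0 B x) : 0 < Kp g h 0 0 B x :=
  mul_pos (Real.exp_pos _) (Zp_pos g hx 0)

lemma UiA_int (hμ : EM μ) (h : ℝ) {B : ℕ} {x : ℤ} (hx : Reach 0 B x) :
    ∫ g, Real.log (Kp g h 0 0 B x) ∂(law μ) =
      h * x + ∫ g, Real.log (Zp g 0 0 B x) ∂(law μ) := by
  rw [integral_congr_ae (Filter.Eventually.of_forall fun g => UiA_logKp g h hx),
    integral_add (integrable_const _) (EMom_logZp hμ hx 0).integrable]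
  simp

/-- Fractional moment of the point-to-point partition function. Proof.
`log Kp g h 0 0 B x = h x + log Zp g 0 0 B x`, so `Kp^θ = e^{θ E log Kp} e^{θ (log Zp - E log Zp)}`
(`Real.rpow_def_of_pos`, `Zp_pos`) and `conc_Zp`. -/
lemma integral_Kp_rpow_conc (hμ : EM μ) (h : ℝ) {B : ℕ} {x : ℤ} (hx : Reach 0 B x) {θ : ℝ}
    (hθ : |θ| ≤ 1) :
    ∫ g, Kp g h 0 0 B x ^ θ ∂(law μ) ≤
      Real.exp (θ * (∫ g, Real.log (Kp g h 0 0 B x) ∂(law μ)) + Cc μ * θ ^ 2 * B) := by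
  have h1 := conc_Zp hμ hx 0 hθ
  have h4 : ∀ g : Env, Kp g h 0 0 B x ^ θ =
      Real.exp (θ * ∫ g, Real.log (Kp g h 0 0 B x) ∂(law μ)) *
      Real.exp (θ * (Real.log (Zp g 0 0 B x) - ∫ g', Real.log (Zp g' 0 0 B x) ∂(law μ))) := by
    intro g
    rw [Real.rpow_def_of_pos (UiA_Kp_pos g h hx), ← Real.exp_add, UiA_logKp g h hx,
      UiA_int hμ h hx]
    congr 1
    ring
  rw [integral_congr_ae (Filter.Eventually.of_forall h4), integral_const_mul, Real.exp_add]
  exact mul_le_mul_of_nonneg_left h1 (Real.exp_pos _).le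

/-- Proof. Let `θ = 1/√B ≤ 1`. `e^{θ a_B} ≤ ∫ Z^θ` (Jensen, `a = ∫ log Z`),
`Z = ∑_{x ∈ Icc (-B) B} Kp g h 0 0 B x` (`Z_split_Kp` with `b = 0`, `Z_zero`), `(∑ a)^θ ≤ ∑ a^θ`, so
`e^{θ a_B} ≤ ∑_x ∫ Kp_x^θ`. The terms of unreachable `x` vanish (`Kp = 0`, `0^θ = 0`). If all
reachable `x` had `∫ log Kp_x < a_B - eps μ B` then by `integral_Kp_rpow_conc` the sum would be
`< (2B+1) e^{θ (a_B - eps μ B) + Cc θ² B} = e^{θ a_B}`, because
`θ eps μ B = log (2B+1) + Cc μ` and `θ² B = 1`. -/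
lemma exists_good_end (hμ : EM μ) (h : ℝ) {B : ℕ} (hB : 1 ≤ B) :
    ∃ x : ℤ, Reach 0 B x ∧ a μ h B - eps μ B ≤ ∫ g, Real.log (Kp g h 0 0 B x) ∂(law μ) := by
  by_contra hcon
  push Not at hcon
  have hB0 : (0 : ℝ) < B := by exact_mod_cast hB
  have hB1 : (1 : ℝ) ≤ B := by exact_mod_cast hB
  obtain ⟨r, hr⟩ : ∃ r : ℝ, r = Real.sqrt B := ⟨_, rfl⟩
  have hr1 : 1 ≤ r := by
    rw [hr]
    exact Real.one_le_sqrt.2 hB1
  have hr0 : 0 < r := by linarith
  have hrr : r * r = B := by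
    rw [hr]
    exact Real.mul_self_sqrt hB0.le
  obtain ⟨θ, hθd⟩ : ∃ θ : ℝ, θ = r⁻¹ := ⟨_, rfl⟩
  have hθ : 0 < θ := by rw [hθd]; exact inv_pos.2 hr0
  have hθ1 : θ ≤ 1 := by rw [hθd]; exact inv_le_one_of_one_le₀ hr1
  have hθr : θ * r = 1 := by rw [hθd]; exact inv_mul_cancel₀ hr0.ne'
  have hθB : θ ^ 2 * B = 1 := by
    rw [← hrr]
    calc θ ^ 2 * (r * r) = (θ * r) * (θ * r) := by ring
      _ = 1 := by rw [hθr]; ring
  have hθe : θ * eps μ B = Real.log (2 * B + 1) + Cc μ := by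
    unfold eps
    rw [← hr, ← mul_assoc, hθr, one_mul]
  -- Jensen
  have hJ : Real.exp (θ * a μ h B) ≤ ∫ g, Z g h 0 0 B ^ θ ∂(law μ) := by
    have hlog := (EMom_logZ hμ h 0 0 B).integrable
    have h1 : ∀ g : Env, Real.exp (θ * a μ h B) * (1 + θ * (Real.log (Z g h 0 0 B) - a μ h B)) ≤
        Z g h 0 0 B ^ θ := by
      intro g
      rw [Real.rpow_def_of_pos (Z_pos g h 0 0 B)]
      have h2 := Real.add_one_le_exp (θ * (Real.log (Z g h 0 0 B) - a μ h B))
      have h3 := mul_le_mul_of_nonneg_left h2 (Real.exp_pos (θ * a μ h B)).le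
      rw [← Real.exp_add] at h3
      refine (le_of_eq (by ring)).trans (h3.trans (le_of_eq ?_))
      congr 1
      ring
    have h2 : Integrable (fun g : Env => Real.exp (θ * a μ h B) *
        (1 + θ * (Real.log (Z g h 0 0 B) - a μ h B))) (law μ) :=
      ((integrable_const (1 : ℝ)).add ((hlog.sub (integrable_const _)).const_mul θ)).const_mul _
    have h3 := integral_mono h2 (PMom_Z_rpow hμ h 0 0 B θ).integrable h1
    refine le_trans (le_of_eq ?_) h3
    have hi : Integrable (fun g : Env => θ * (Real.log (Z g h 0 0 B) - a μ h B)) (law μ) :=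
      (hlog.sub (integrable_const _)).const_mul θ
    rw [integral_const_mul, integral_add (integrable_const _) hi, integral_const_mul,
      integral_sub hlog (integrable_const _)]
    have h4 : ∫ g, Real.log (Z g h 0 0 B) ∂(law μ) = a μ h B := rfl
    rw [h4]
    simp
  -- subadditivity
  have hZ : ∀ g : Env, Z g h 0 0 B = ∑ x ∈ Icc (0 - (B : ℤ)) (0 + B), Kp g h 0 0 B x := by
    intro g
    have h1 := Z_split_Kp g h 0 0 B 0
    simp only [Z_zero, mul_one] at h1
    exact h1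
  have hKi : ∀ x : ℤ, Integrable (fun g : Env => Kp g h 0 0 B x ^ θ) (law μ) := fun x =>
    Block_rpow_int (BlockB_Kp hμ h 0 0 B x) (fun g => Kp_nonneg _ _ _ _ _ _) hθ hθ1
  have hS : ∫ g, Z g h 0 0 B ^ θ ∂(law μ) ≤
      ∑ x ∈ Icc (0 - (B : ℤ)) (0 + B), ∫ g, Kp g h 0 0 B x ^ θ ∂(law μ) := by
    rw [← integral_finsetSum _ fun x _ => hKi x]
    refine integral_mono (PMom_Z_rpow hμ h 0 0 B θ).integrable
      (integrable_finsetSum _ fun x _ => hKi x) fun g => ?_
    simp only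
    rw [hZ g]
    exact Block_rpow_sum _ _ (fun x _ => Kp_nonneg _ _ _ _ _ _) hθ hθ1
  have hT : ∀ x ∈ Icc (0 - (B : ℤ)) (0 + B), ∫ g, Kp g h 0 0 B x ^ θ ∂(law μ) <
      Real.exp (θ * a μ h B - Real.log (2 * B + 1)) := by
    intro x _
    by_cases hx : Reach 0 B x
    · refine (integral_Kp_rpow_conc hμ h hx (by rw [abs_of_pos hθ]; exact hθ1)).trans_lt
        (Real.exp_lt_exp.2 ?_)
      have h1 := mul_lt_mul_of_pos_left (hcon x hx) hθ
      have h2 : Cc μ * θ ^ 2 * B = Cc μ := by rw [mul_assoc, hθB, mul_one]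
      rw [h2]
      have h3 : θ * (a μ h B - eps μ B) = θ * a μ h B - (Real.log (2 * B + 1) + Cc μ) := by
        rw [mul_sub, hθe]
      linarith
    · have h1 : ∀ g : Env, Kp g h 0 0 B x ^ θ = 0 := by
        intro g
        have h2 : Kp g h 0 0 B x = 0 := by
          by_contra hne
          exact hx (exists_walk_of_Kp (lt_of_le_of_ne (Kp_nonneg _ _ _ _ _ _) (Ne.symm hne)))
        rw [h2, Real.zero_rpow hθ.ne']
      simp only [h1, integral_zero]
      exact Real.exp_pos _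
  have hne : (Icc (0 - (B : ℤ)) (0 + B)).Nonempty := ⟨0, by rw [Finset.mem_Icc]; constructor <;> omega⟩
  have hlt := Finset.sum_lt_sum_of_nonempty hne hT
  rw [Finset.sum_const, Int.card_Icc, nsmul_eq_mul] at hlt
  have hcard : ((0 + (B : ℤ) + 1 - (0 - (B : ℤ))).toNat : ℝ) = 2 * B + 1 := by
    have h4 : (0 + (B : ℤ) + 1 - (0 - (B : ℤ))).toNat = 2 * B + 1 := by omega
    rw [h4]
    push_cast
    ring
  rw [hcard, Real.exp_sub, Real.exp_log (by positivity), mul_div_cancel₀] at hlt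
  · exact absurd (hJ.trans hS) (not_le.2 hlt)
  · positivity

/-- Proof. For `h' = h ± δ`: `log Kp g h 0 0 B x ≤ -((h' - h) x) + log Z g h' 0 0 B` (`Kp_le`,
positivity from `hx`), integrate, `a_le_Lam`, and `hA.up`, `hA.dn`:
`∫ log Kp ≤ B Λ ∓ δ (x - v B)`. -/
lemma logKp_le (hμ : EM μ) {h δ v : ℝ} (hA : Aff μ h δ v) {B : ℕ} {x : ℤ} (hx : Reach 0 B x) :
    ∫ g, Real.log (Kp g h 0 0 B x) ∂(law μ) + δ * |(x : ℝ) - v * B| ≤ B * Lam μ h := by
  have hK := (EMom_logKp hμ h 0 0 B x).integrable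
  have key : ∀ c : ℝ, ∫ g, Real.log (Kp g h 0 0 B x) ∂(law μ) ≤
      -(c * x) + B * Lam μ (h + c) := by
    intro c
    have hZi := (EMom_logZ hμ (h + c) 0 0 B).integrable
    have h1 : ∀ g : Env, Real.log (Kp g h 0 0 B x) ≤ -(c * x) + Real.log (Z g (h + c) 0 0 B) := by
      intro g
      have h2 := Real.log_le_log (UiA_Kp_pos g h hx) (Kp_le g h (h + c) 0 0 B x)
      rw [Real.log_mul (Real.exp_pos _).ne' (Z_pos _ _ _ _ _).ne', Real.log_exp] at h2
      refine h2.trans (le_of_eq ?_)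
      push_cast
      ring
    have h2 := integral_mono hK ((integrable_const (-(c * (x : ℝ)))).add hZi) h1
    refine h2.trans ?_
    show ∫ g, (-(c * (x : ℝ)) + Real.log (Z g (h + c) 0 0 B)) ∂(law μ) ≤ _
    rw [integral_add (integrable_const _) hZi]
    have h4 : ∫ g, Real.log (Z g (h + c) 0 0 B) ∂(law μ) = a μ (h + c) B := rfl
    rw [h4]
    simp only [integral_const, probReal_univ, one_smul]
    have := a_le_Lam hμ (h + c) B
    linarith
  have k1 := key δ
  have k2 := key (-δ)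
  rw [hA.up] at k1
  rw [← sub_eq_add_neg, hA.dn] at k2
  have hδ := hA.pos
  rcases abs_cases ((x : ℝ) - v * B) with ⟨h1, _⟩ | ⟨h1, _⟩
  · rw [h1]
    nlinarith
  · rw [h1]
    nlinarith

/-- **Good end point.** Proof. `x` from `exists_good_end`; `a_B ≥ B Λ - eps μ B` by `rate`; so
`B Λ - ∫ log Kp ≤ 2 eps μ B`, and `logKp_le` gives the first bound.
`max (B Λ - log Kp) 0 ≤ (B Λ - ∫ log Kp) + |log Kp - ∫ log Kp|` (the bracket is `≥ 0` by `logKp_le`),
and `dev_Zp` (`log Kp = h x + log Zp`). -/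
theorem exists_xB (hμ : EM μ) {h δ v : ℝ} (hA : Aff μ h δ v) {B : ℕ} (hB : 1 ≤ B) :
    ∃ x : ℤ, Reach 0 B x ∧ δ * |(x : ℝ) - v * B| ≤ 2 * eps μ B ∧
      ∫ g, max (B * Lam μ h - Real.log (Kp g h 0 0 B x)) 0 ∂(law μ) ≤
        2 * eps μ B + (1 + Cc μ) * Real.sqrt B := by
  obtain ⟨x, hx, h1⟩ := exists_good_end (μ := μ) hμ h hB
  refine ⟨x, hx, ?_, ?_⟩
  · have h2 := logKp_le hμ hA hx
    have h3 := rate hμ h B
    linarith
  · have h2 := logKp_le hμ hA hx
    have h3 := rate hμ h B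
    have h0 : 0 ≤ δ * |(x : ℝ) - v * B| := mul_nonneg hA.pos.le (abs_nonneg _)
    have hK := (EMom_logKp hμ h 0 0 B x).integrable
    obtain ⟨m, hm⟩ : ∃ m : ℝ, m = ∫ g, Real.log (Kp g h 0 0 B x) ∂(law μ) := ⟨_, rfl⟩
    rw [← hm] at h1 h2
    have h4 : ∀ g : Env, max (B * Lam μ h - Real.log (Kp g h 0 0 B x)) 0 ≤
        (B * Lam μ h - m) + |Real.log (Kp g h 0 0 B x) - m| := by
      intro g
      have h5 := neg_abs_le (Real.log (Kp g h 0 0 B x) - m)
      have h6 := abs_nonneg (Real.log (Kp g h 0 0 B x) - m)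
      exact max_le (by linarith) (by linarith)
    have hab : Integrable (fun g : Env => |Real.log (Kp g h 0 0 B x) - m|) (law μ) :=
      (hK.sub (integrable_const m)).abs
    have hmx : Integrable (fun g : Env => max (B * Lam μ h - Real.log (Kp g h 0 0 B x)) 0)
        (law μ) := ((integrable_const (B * Lam μ h)).sub hK).pos_part
    have h5 := integral_mono hmx ((integrable_const (B * Lam μ h - m)).add hab) h4
    refine h5.trans ?_
    show ∫ g, ((B * Lam μ h - m) + |Real.log (Kp g h 0 0 B x) - m|) ∂(law μ) ≤ _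
    rw [integral_add (integrable_const _) hab]
    simp only [integral_const, probReal_univ, one_smul]
    have h6 : ∫ g, |Real.log (Kp g h 0 0 B x) - m| ∂(law μ) ≤ (1 + Cc μ) * Real.sqrt B := by
      refine le_trans (le_of_eq ?_) (dev_Zp hμ hx 0)
      refine integral_congr_ae (Filter.Eventually.of_forall fun g => ?_)
      simp only
      rw [hm, UiA_int hμ h hx, UiA_logKp g h hx]
      congr 1
      ring
    linarith

/-- The walk with `P` up steps followed by down steps. -/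
def upto (P : ℕ) : ℕ → Bool := fun l => decide (l < P)

/-- Proof. Sum of `P` ones and `B - P` minus ones. -/
lemma pos_upto {P B : ℕ} (h : P ≤ B) : pos (upto P) B = 2 * (P : ℤ) - B := by
  unfold upto
  rw [InsK_pos, min_eq_right h]

/-- Proof. `exists_xB` for large `B`: `x = 2P - B` with `P ≤ B` (parity and `|x| ≤ B` from
`pos_parity`, `pos_abs_le`), `pos_upto`. `P = (B + x)/2 ≥ (B + vB - 2 eps/δ)/2 ≥ (1+v)/4 * B` when
`eps μ B ≤ δ (1+v) B/4`; `eps μ B / B → 0`, `√B / B → 0`; `v > -1` by `Aff.neg_one_lt`. -/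
theorem exists_P (hμ : EM μ) {h δ v : ℝ} (hA : Aff μ h δ v) {ε : ℝ} (hε : 0 < ε) :
    ∃ B₀ : ℕ, ∀ B : ℕ, B₀ ≤ B → ∃ P : ℕ, P ≤ B ∧ (1 + v) / 4 * B ≤ P ∧
      ∫ g, max (B * Lam μ h - Real.log (Kp g h 0 0 B (pos (upto P) B))) 0 ∂(law μ) ≤ ε * B := by
  have hδ := hA.pos
  have hv := Aff.neg_one_lt hμ hA
  obtain ⟨e, he⟩ : ∃ e : ℝ, e = min (ε / 4) (δ * (1 + v) / 4) := ⟨_, rfl⟩
  have he0 : 0 < e := by
    rw [he]
    refine lt_min (by linarith) ?_
    have : 0 < δ * (1 + v) := mul_pos hδ (by linarith)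
    linarith
  have he1 : e ≤ ε / 4 := by rw [he]; exact min_le_left _ _
  have he2 : e ≤ δ * (1 + v) / 4 := by rw [he]; exact min_le_right _ _
  -- the error terms are small
  have hC : 0 ≤ Cc μ := by
    unfold Cc
    positivity
  have hlim : Filter.Tendsto (fun B : ℕ => (Real.log 3 + Cc μ + (1 + Cc μ)) / Real.sqrt B +
      Real.log B / Real.sqrt B) Filter.atTop (nhds 0) := by
    have h1 : Filter.Tendsto (fun B : ℕ => Real.sqrt B) Filter.atTop Filter.atTop :=
      Real.tendsto_sqrt_atTop.comp tendsto_natCast_atTop_atTop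
    have h2 : Filter.Tendsto (fun B : ℕ => (Real.log 3 + Cc μ + (1 + Cc μ)) / Real.sqrt B)
        Filter.atTop (nhds 0) := h1.const_div_atTop _
    have h3 : Filter.Tendsto (fun B : ℕ => Real.log B / Real.sqrt B) Filter.atTop (nhds 0) := by
      have h4 := (isLittleO_log_rpow_atTop (r := 1 / 2) (by norm_num)).tendsto_div_nhds_zero
      have h5 := h4.comp tendsto_natCast_atTop_atTop
      refine h5.congr fun B => ?_
      simp only [Function.comp]
      rw [Real.sqrt_eq_rpow]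
    simpa using h2.add h3
  obtain ⟨B₁, hB₁⟩ := Filter.eventually_atTop.1 (hlim.eventually (gt_mem_nhds he0))
  refine ⟨max B₁ 1, fun B hB => ?_⟩
  have hB1 : 1 ≤ B := (le_max_right _ _).trans hB
  have hsm := hB₁ B ((le_max_left _ _).trans hB)
  have hBr : (1 : ℝ) ≤ B := by exact_mod_cast hB1
  have hB0 : (0 : ℝ) < B := by linarith
  have hs0 : 0 < Real.sqrt B := Real.sqrt_pos.2 hB0
  have hss : Real.sqrt B * Real.sqrt B = B := Real.mul_self_sqrt hB0.le
  have hlog0 : 0 ≤ Real.log B := Real.log_nonneg hBr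
  have hlog3 : 0 ≤ Real.log 3 := Real.log_nonneg (by norm_num)
  have htot : (Real.log 3 + Cc μ + (1 + Cc μ) + Real.log B) * Real.sqrt B ≤ e * B := by
    rw [← add_div, div_lt_iff₀ hs0] at hsm
    have := mul_le_mul_of_nonneg_right hsm.le hs0.le
    rw [mul_assoc, hss] at this
    exact this
  have hlogb : Real.log (2 * B + 1) ≤ Real.log 3 + Real.log B := by
    rw [← Real.log_mul (by norm_num) hB0.ne']
    exact Real.log_le_log (by positivity) (by linarith)
  have heps : eps μ B ≤ (Real.log 3 + Cc μ + Real.log B) * Real.sqrt B := by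
    unfold eps
    rw [mul_comm]
    exact mul_le_mul_of_nonneg_right (by linarith) hs0.le
  have hCs : 0 ≤ (1 + Cc μ) * Real.sqrt B := by positivity
  have heB : eps μ B ≤ e * B := by nlinarith
  have heS : (1 + Cc μ) * Real.sqrt B ≤ e * B := by
    have : 0 ≤ (Real.log 3 + Cc μ + Real.log B) * Real.sqrt B := by positivity
    nlinarith
  obtain ⟨x, hx, h1, h2⟩ := exists_xB hμ hA hB1
  obtain ⟨s, hs, hsx⟩ := hx
  rw [zero_add] at hsx
  have hab := pos_abs_le s B
  have hpar := pos_parity s B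
  rw [hsx] at hab hpar
  rw [abs_le] at hab
  obtain ⟨P, hP⟩ : ∃ P : ℕ, 2 * (P : ℤ) = B + x := by
    refine ⟨((B + x) / 2).toNat, ?_⟩
    have h3 : 0 ≤ ((B : ℤ) + x) / 2 := by omega
    rw [Int.toNat_of_nonneg h3]
    omega
  have hPB : P ≤ B := by omega
  refine ⟨P, hPB, ?_, ?_⟩
  · have h3 : (2 : ℝ) * P = B + x := by exact_mod_cast hP
    have h4 : δ * (v * B - x) ≤ 2 * eps μ B := by
      refine le_trans (mul_le_mul_of_nonneg_left ?_ hδ.le) h1
      rw [abs_sub_comm]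
      exact le_abs_self _
    have h5 : e * B ≤ δ * (1 + v) / 4 * B := mul_le_mul_of_nonneg_right he2 hB0.le
    have h6 : δ * (v * B - x) ≤ δ * ((1 + v) / 2 * B) := by
      refine h4.trans ?_
      have : δ * ((1 + v) / 2 * B) = 2 * (δ * (1 + v) / 4 * B) := by ring
      rw [this]
      linarith
    have h7 := le_of_mul_le_mul_left h6 hδ
    linarith
  · rw [pos_upto hPB]
    have h3 : 2 * (P : ℤ) - B = x := by omega
    rw [h3]
    refine h2.trans ?_
    have h5 : e * B ≤ ε / 4 * B := mul_le_mul_of_nonneg_right he1 hB0.le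
    have h6 : 0 ≤ ε / 4 * B := by positivity
    linarith

end

end Pool.Agent.W_7d29a1_h47
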