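import Pool.Agent.W_7d29a1_h47.UiA
import Pool.Agent.W_7d29a1_h47.InsZ

/-!
# `B` successive insertions: pointwise facts

`u : ℕ → Bool` is the sequence of the shifts; the environment with `i` inserted rows is
`insB k i (pos u i) g g'`.
-/

namespace Pool.Agent.W_7d29a1_h47

open MeasureTheory ProbabilityTheory Finset

noncomputable section

/-- The `i`-th increment. -/
def XB (h : ℝ) (n k : ℕ) (u : ℕ → Bool) (i : ℕ) (g g' : Env) : ℝ :=
  Xf h (n + i) (k + i) (u i) (insB k i (pos u i) g g') (row i g')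

/-- The `i`-th noise term. -/
def CB (h : ℝ) (n k : ℕ) (u : ℕ → Bool) (i : ℕ) (K' : ℝ) (g g' : Env) : ℝ :=
  Av (insB k i (pos u i) g g') h 0 0 (n + i)
    (fun s => max (|row i g' (pos s (k + i) + stp (u i))| - K') 0)

/-- Total log ratio. -/
def lB (h : ℝ) (n k : ℕ) (u : ℕ → Bool) (B : ℕ) (g g' : Env) : ℝ :=
  Real.log (Z (insB k B (pos u B) g g') h 0 0 (n + B)) - Real.log (Z g h 0 0 n)

/-- Telescoping. Proof. `insB_succ` with `pos_succ`, `insB_zero`, `Finset.sum_range_succ`. -/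
lemma sum_lrho (h : ℝ) (n k : ℕ) (u : ℕ → Bool) (B : ℕ) (g g' : Env) :
    ∑ i ∈ range B, lrho h (n + i) (k + i) (u i) (insB k i (pos u i) g g') (row i g') =
      lB h n k u B g g' := by
  induction B with
  | zero =>
    unfold lB
    rw [pos_zero, insB_zero]
    simp
  | succ B ih =>
    rw [Finset.sum_range_succ, ih]
    unfold lB lrho
    rw [← insB_succ, ← pos_succ, ← add_assoc]
    ring

lemma UiB_Kp_pos (g' : Env) (h : ℝ) (x : ℤ) (u : ℕ → Bool) (B : ℕ) :
    0 < Kp g' h 0 x B (x + pos u B) :=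
  Kp_pos (cut_mem B u) (by rw [pos_cut_le le_rfl])

lemma UiB_Z_ge (h : ℝ) {n k : ℕ} (hk : k ≤ n) (u : ℕ → Bool) (B : ℕ) (g g' : Env) :
    Z g h 0 0 n * Av g h 0 0 n (fun s => Kp g' h 0 (pos s k) B (pos s k + pos u B)) ≤
      Z (insB k B (pos u B) g g') h 0 0 (n + B) := by
  obtain ⟨m, rfl⟩ : ∃ m, n = k + m := ⟨n - k, by omega⟩
  obtain ⟨I, hI⟩ : ∃ I : Env, I = insB k B (pos u B) g g' := ⟨_, rfl⟩
  rw [← hI, Av_one g h (t := k) (N := k + m) (by omega) le_rfl
    (fun x => Kp g' h 0 x B (x + pos u B)), show k + m + B = k + (B + m) by omega,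
    Z_split_box I h 0 0 k (B + m) (N := k + m) (by simp)]
  refine Finset.sum_le_sum fun z _ => ?_
  have e1 : Kp I h 0 0 k z = Kp g h 0 0 k z := by
    have := Kp_transl (g₁ := I) (g₂ := g) (t₁ := 0) (t₂ := 0) (c := 0) (ℓ := k) (fun i hi y => by
      rw [hI]
      unfold insB
      simp [hi]) h 0 z
    simpa using this
  have e2 : Kp I h k z B (z + pos u B) = Kp g' h 0 z B (z + pos u B) := by
    have := Kp_transl (g₁ := I) (g₂ := g') (t₁ := k) (t₂ := 0) (c := 0) (ℓ := B) (fun i hi y => by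
      rw [hI]
      unfold insB
      simp [hi]) h z (z + pos u B)
    simpa using this
  have e3 : Z I h (k + B) (z + pos u B) m = Z g h k z m :=
    Z_transl (g₁ := I) (g₂ := g) (t₁ := k + B) (t₂ := k) (c := pos u B) (ℓ := m) (fun i hi y => by
      rw [hI]
      unfold insB
      simp only
      rw [if_neg (by omega), if_neg (by omega)]
      congr 2
      · omega
      · ring) h z
  have h1 : Kp I h k z B (z + pos u B) * Z I h (k + B) (z + pos u B) m ≤ Z I h k z (B + m) := by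
    rw [Z_split_Kp I h k z B m]
    refine Finset.single_le_sum (f := fun y => Kp I h k z B y * Z I h (k + B) y m)
      (fun y _ => mul_nonneg (Kp_nonneg _ _ _ _ _ _) (Z_pos _ _ _ _ _).le) ?_
    exact pos_mem_Icc u B z
  rw [e2, e3] at h1
  rw [e1, zero_add, Nat.add_sub_cancel_left]
  have h2 := mul_le_mul_of_nonneg_left h1 (Kp_nonneg g h 0 0 k z)
  calc _ = Kp g h 0 0 k z * (Kp g' h 0 z B (z + pos u B) * Z g h k z m) := by ring
    _ ≤ _ := h2

/-- Lower bound of the total ratio by the paths that cross the `B` inserted rows from `x` to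
`x + pos u B`. Proof. `n + B = k + (B + (n - k))`; `Z_split_Kp` twice and positivity:
`Z (insB …) (n+B) ≥ ∑_x Kp g h 0 0 k x * Kp (insB …) h k x B (x + X) * Z (insB …) h (k+B) (x+X) (n-k)`,
`X = pos u B`. Rows `< k` are those of `g`; rows `k + i`, `i < B`, are the rows `i` of `g'`, so the second
kernel is `Kp g' h 0 x B (x + X)` (`Kp_transl` with `c = 0`); the last factor is `Z g h k x (n-k)`
(`Z_transl`). By `Av_one` this is `Z g * Av g (Kp g' h 0 (pos s k) B (pos s k + X))`. All kernels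
are positive (`Kp_pos`, walk `cut B u`); Jensen (`Av_le_log`). -/
lemma lB_ge (h : ℝ) {n k : ℕ} (hk : k ≤ n) (u : ℕ → Bool) (B : ℕ) (g g' : Env) :
    Av g h 0 0 n (fun s => Real.log (Kp g' h 0 (pos s k) B (pos s k + pos u B))) ≤
      lB h n k u B g g' := by
  have h1 := UiB_Z_ge h hk u B g g'
  have h2 := Av_le_log (g := g) (h := h) (t := 0) (x := 0) (n := n)
    (fun s => Real.log (Kp g' h 0 (pos s k) B (pos s k + pos u B)))
  have h3 : ∀ s : ℕ → Bool, Real.exp (Real.log (Kp g' h 0 (pos s k) B (pos s k + pos u B))) =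
      Kp g' h 0 (pos s k) B (pos s k + pos u B) := fun s => Real.exp_log (UiB_Kp_pos g' h _ u B)
  simp only [h3] at h2
  refine h2.trans ?_
  have h4 : 0 < Av g h 0 0 n (fun s => Kp g' h 0 (pos s k) B (pos s k + pos u B)) :=
    Av_pos fun s _ => UiB_Kp_pos g' h _ u B
  have h5 := Real.log_le_log (mul_pos (Z_pos g h 0 0 n) h4) h1
  rw [Real.log_mul (Z_pos g h 0 0 n).ne' h4.ne'] at h5
  unfold lB
  linarith

/-- Proof. `lB_ge`: `c - lB ≤ Av (c - log Kp) ≤ Av (max …)`, and `0 ≤ Av (max …)`. -/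
lemma max_lB_le (h : ℝ) {n k : ℕ} (hk : k ≤ n) (u : ℕ → Bool) (B : ℕ) (c : ℝ) (g g' : Env) :
    max (c - lB h n k u B g g') 0 ≤
      Av g h 0 0 n (fun s => max (c - Real.log (Kp g' h 0 (pos s k) B (pos s k + pos u B))) 0) := by
  refine max_le ?_ (Av_nonneg fun s _ => le_max_right _ _)
  have h1 := lB_ge h hk u B g g'
  have h2 := Av_mono (g := g) (h := h) (t := 0) (x := 0) (n := n)
    (F := fun s => c - Real.log (Kp g' h 0 (pos s k) B (pos s k + pos u B)))
    (G := fun s => max (c - Real.log (Kp g' h 0 (pos s k) B (pos s k + pos u B))) 0)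
    (fun s _ => le_max_left _ _)
  rw [Av_sub, Av_const] at h2
  linarith

lemma XB_nonneg (h : ℝ) {n k : ℕ} (hk : k ≤ n) (u : ℕ → Bool) (i : ℕ) (g g' : Env) :
    0 ≤ XB h n k u i g g' := Xf_nonneg _ _ _ (by omega) _

/-- Proof. Elementary: if no `x i` reaches `2c` the left side is `0`; otherwise `S = ∑ x i ≥ 2c`, so
`2 (S - c) ≥ S ≥` the left side. -/
lemma sum_trunc_le {B : ℕ} {x : ℕ → ℝ} (hx : ∀ i < B, 0 ≤ x i) {c : ℝ} :
    ∑ i ∈ range B, (if 2 * c ≤ x i then x i else 0) ≤ 2 * max ((∑ i ∈ range B, x i) - c) 0 := by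
  by_cases hex : ∃ i ∈ range B, 2 * c ≤ x i
  · obtain ⟨i, hi, hci⟩ := hex
    have hx' : ∀ j ∈ range B, 0 ≤ x j := fun j hj => hx j (mem_range.1 hj)
    have h1 : x i ≤ ∑ j ∈ range B, x j := Finset.single_le_sum hx' hi
    have h2 : ∑ i ∈ range B, (if 2 * c ≤ x i then x i else 0) ≤ ∑ i ∈ range B, x i := by
      refine Finset.sum_le_sum fun j hj => ?_
      split_ifs
      · exact le_rfl
      · exact hx' j hj
    have h3 := le_max_left ((∑ i ∈ range B, x i) - c) 0
    linarith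
  · push Not at hex
    have h1 : ∑ i ∈ range B, (if 2 * c ≤ x i then x i else 0) = 0 := by
      refine Finset.sum_eq_zero fun j hj => if_neg (not_le.2 (hex j hj))
    rw [h1]
    have := le_max_right ((∑ i ∈ range B, x i) - c) 0
    linarith

/-- **Pointwise bound.** With `Λ` any real number and `c = B (Λ + |h| + K')`:
`∑ X_i 1(2c ≤ X_i) ≤ 2 ((lB - B Λ) + max (B Λ - lB) 0 + ∑ CB_i)`. Proof. `sum_trunc_le` with
`XB_nonneg`; `∑ X_i = lB + B |h| + ∑ Av |row i g' …|` (`sum_lrho`) and `|ξ| ≤ K' + max (|ξ| - K') 0`, so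
`∑ X_i - c ≤ (lB - B Λ) + ∑ CB_i`; `max (y + z) 0 ≤ max y 0 + z` for `z ≥ 0`, and
`max y 0 = y + max (-y) 0`. -/
lemma sum_XB_trunc_le (h : ℝ) {n k : ℕ} (hk : k ≤ n) (u : ℕ → Bool) (B : ℕ) (lam K' : ℝ)
    (g g' : Env) :
    ∑ i ∈ range B, (if 2 * (B * (lam + |h| + K')) ≤ XB h n k u i g g' then XB h n k u i g g' else 0) ≤
      2 * ((lB h n k u B g g' - B * lam) + max (B * lam - lB h n k u B g g') 0 +
        ∑ i ∈ range B, CB h n k u i K' g g') := by
  refine (sum_trunc_le fun i _ => XB_nonneg h hk u i g g').trans ?_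
  have hCB : ∀ i, 0 ≤ CB h n k u i K' g g' := fun i => Av_nonneg fun s _ => le_max_right _ _
  have hCBs : 0 ≤ ∑ i ∈ range B, CB h n k u i K' g g' := Finset.sum_nonneg fun i _ => hCB i
  have h1 : ∑ i ∈ range B, XB h n k u i g g' ≤
      lB h n k u B g g' + B * |h| + B * K' + ∑ i ∈ range B, CB h n k u i K' g g' := by
    have h2 : ∀ i ∈ range B, XB h n k u i g g' ≤
        lrho h (n + i) (k + i) (u i) (insB k i (pos u i) g g') (row i g') +
          (|h| + K' + CB h n k u i K' g g') := by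
      intro i _
      unfold XB Xf CB
      have h3 := Av_mono (g := insB k i (pos u i) g g') (h := h) (t := 0) (x := 0) (n := n + i)
        (F := fun s => |row i g' (pos s (k + i) + stp (u i))|)
        (G := fun s => K' + max (|row i g' (pos s (k + i) + stp (u i))| - K') 0)
        (fun s _ => by
          have := le_max_left (|row i g' (pos s (k + i) + stp (u i))| - K') 0
          linarith)
      rw [Av_add, Av_const] at h3
      linarith
    have h4 := Finset.sum_le_sum h2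
    rw [Finset.sum_add_distrib, sum_lrho, Finset.sum_add_distrib, Finset.sum_const, card_range,
      nsmul_eq_mul] at h4
    linarith
  obtain ⟨y, hy⟩ : ∃ y : ℝ, y = lB h n k u B g g' - B * lam := ⟨_, rfl⟩
  obtain ⟨z, hz⟩ : ∃ z : ℝ, z = ∑ i ∈ range B, CB h n k u i K' g g' := ⟨_, rfl⟩
  have h5 : (∑ i ∈ range B, XB h n k u i g g') - B * (lam + |h| + K') ≤ y + z := by
    rw [hy, hz]; linarith
  have h6 : B * lam - lB h n k u B g g' = -y := by rw [hy]; ring
  rw [h6, ← hy, ← hz]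
  rw [← hz] at hCBs
  have h7 : max ((∑ i ∈ range B, XB h n k u i g g') - B * (lam + |h| + K')) 0 ≤
      y + max (-y) 0 + z := by
    refine max_le ?_ ?_
    · have := le_max_right (-y) 0
      linarith
    · have := le_max_left (-y) 0
      linarith
  linarith

end

end Pool.Agent.W_7d29a1_h47
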