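import Pool.Agent.W_7d29a1_h47.UiB

/-!
# `B` successive insertions: expectations
-/

namespace Pool.Agent.W_7d29a1_h47

open MeasureTheory ProbabilityTheory Finset

noncomputable section

variable {μ : Measure ℝ} [IsProbabilityMeasure μ]

/-! ### Auxiliary moments -/

omit [IsProbabilityMeasure μ] in
lemma UiC_max_EMom {Ω : Type*} [MeasurableSpace Ω] {P : Measure Ω} {F : Ω → ℝ} (hF : EMom P F) :
    EMom P (fun w => max (F w) 0) := by
  refine hF.mono (hF.1.max measurable_const) fun w => ?_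
  rw [abs_of_nonneg (le_max_right _ _)]
  exact max_le (le_abs_self _) (abs_nonneg _)

lemma UiC_noise_meas (h : ℝ) (n j : ℕ) (σ : ℤ) (K' : ℝ) :
    Measurable (fun w : Env × (ℤ → ℝ) =>
      Av w.1 h 0 0 n (fun s => max (|w.2 (pos s j + σ)| - K') 0)) := by
  refine measurable_Av_gen (G := fun w : Env × (ℤ → ℝ) => w.1) measurable_fst fun s _ => ?_
  have h1 : Measurable (fun w : Env × (ℤ → ℝ) => w.2 (pos s j + σ)) := by fun_prop
  fun_prop

lemma UiC_row_EMom (hμ : EM μ) (i : ℕ) (y : ℤ) :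
    EMom (law2 μ) (fun w => row i w.2 y) := by
  unfold row
  exact EMom_snd (EMom_coord hμ (i, y))

/-- Proof. `EMom_logZ` composed with `mp_insB` and the first projection. -/
lemma EMom_lB (hμ : EM μ) (h : ℝ) (n k : ℕ) (u : ℕ → Bool) (B : ℕ) :
    EMom (law2 μ) (fun w => lB h n k u B w.1 w.2) := by
  unfold lB
  exact ((EMom_logZ hμ h 0 0 (n + B)).comp (mp_insB k B (pos u B))).sub
    (EMom_fst (EMom_logZ hμ h 0 0 n))

/-- Proof. `mp_insB`, `mp_integral`. -/
lemma integral_lB (hμ : EM μ) (h : ℝ) (n k : ℕ) (u : ℕ → Bool) (B : ℕ) :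
    ∫ w, lB h n k u B w.1 w.2 ∂(law2 μ) = a μ h (n + B) - a μ h n := by
  unfold lB
  have h1 : Measurable (fun g : Env => Real.log (Z g h 0 0 (n + B))) := by fun_prop
  have h2 : Measurable (fun g : Env => Real.log (Z g h 0 0 n)) := by fun_prop
  rw [integral_sub
    (((EMom_logZ hμ h 0 0 (n + B)).comp (mp_insB k B (pos u B))).integrable)
    ((EMom_fst (EMom_logZ hμ h 0 0 n)).integrable)]
  congr 1
  · have h3 := mp_integral (mp_insB (μ := μ) k B (pos u B))
      (F := fun g => Real.log (Z g h 0 0 (n + B))) h1.aestronglyMeasurable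
    exact h3
  · have h3 := mp_integral (measurePreserving_fst (μ := law μ) (ν := law μ))
      (F := fun g => Real.log (Z g h 0 0 n)) h2.aestronglyMeasurable
    exact h3

lemma UiC_Kp_EMom (hμ : EM μ) (h : ℝ) (B : ℕ) (X : ℤ) (c : ℝ) (x : ℤ) :
    EMom (law μ) (fun g : Env => max (c - Real.log (Kp g h 0 x B (x + X))) 0) :=
  UiC_max_EMom ((EMom.const c).sub (EMom_logKp hμ h 0 x B (x + X)))

lemma UiC_Kp_int (h : ℝ) (B : ℕ) (X : ℤ) (c : ℝ) (x : ℤ) :
    ∫ g : Env, max (c - Real.log (Kp g h 0 x B (x + X))) 0 ∂(law μ) =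
      ∫ g, max (c - Real.log (Kp g h 0 0 B X)) 0 ∂(law μ) := by
  rw [← integral_comp_shiftEnv 0 x
    (F := fun g : Env => max (c - Real.log (Kp g h 0 0 B X)) 0) (by fun_prop)]
  refine integral_congr_ae (Filter.Eventually.of_forall fun g => ?_)
  have h1 : Kp g h 0 (0 + x) B (X + x) = Kp (shiftEnv 0 x g) h 0 0 B X :=
    Kp_transl (fun i _ y => rfl) h 0 X
  rw [zero_add, add_comm X x] at h1
  simp only [h1]

/-- Proof. `max_lB_le` and `integral_Av_fresh` with
`Φ x g' = max (c - log (Kp g' h 0 x B (x + pos u B))) 0`; its integral does not depend on `x` by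
translation (`Kp_transl`, `integral_comp_shiftEnv` with the shift `(0, x)`). -/
lemma integral_max_lB_le (hμ : EM μ) (h : ℝ) {n k : ℕ} (hk : k ≤ n) (u : ℕ → Bool) (B : ℕ) (c : ℝ) :
    ∫ w, max (c - lB h n k u B w.1 w.2) 0 ∂(law2 μ) ≤
      ∫ g, max (c - Real.log (Kp g h 0 0 B (pos u B))) 0 ∂(law μ) := by
  have hΦ : ∀ x : ℤ, PMom (law μ)
      (fun g : Env => max (c - Real.log (Kp g h 0 x B (x + pos u B))) 0) := fun x =>
    (UiC_Kp_EMom hμ h B (pos u B) c x).pmom
  have h1 := integral_Av_fresh (μ := μ)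
    (Φ := fun x g => max (c - Real.log (Kp g h 0 x B (x + pos u B))) 0) hΦ
    (fun x => UiC_Kp_int h B (pos u B) c x) h n k
  rw [← h1]
  refine integral_mono ?_ ?_ fun w => max_lB_le h hk u B c w.1 w.2
  · exact (UiC_max_EMom ((EMom.const c).sub (EMom_lB hμ h n k u B))).integrable
  · refine (EMom_Av_gen (G := fun w : Env × Env => w.1) measurable_fst fun s _ => ?_).integrable
    exact EMom_snd (UiC_Kp_EMom hμ h B (pos u B) c (pos s k))

/-- Proof. By `integral_insB` (with `X = pos u i`, `F g ξ = Av g h 0 0 (n+i) (max (|ξ …| - K') 0)`) it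
equals `∫ Av w.1 … (max (|row 0 w.2 (pos s (k+i) + stp (u i))| - K') 0) ∂law2`, and `integral_Av_fresh`,
`integral_coord`. -/
lemma integral_CB (hμ : EM μ) (h : ℝ) (n k : ℕ) (u : ℕ → Bool) (i : ℕ) (K' : ℝ) :
    ∫ w, CB h n k u i K' w.1 w.2 ∂(law2 μ) = ∫ t, max (|t| - K') 0 ∂μ := by
  have h1 := integral_insB (μ := μ) k i (pos u i)
    (F := fun g ξ => Av g h 0 0 (n + i) (fun s => max (|ξ (pos s (k + i) + stp (u i))| - K') 0))
    (UiC_noise_meas h (n + i) (k + i) (stp (u i)) K')
  unfold CB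
  refine h1.trans ?_
  have h2 := integral_Av_fresh (μ := μ)
    (Φ := fun x g => max (|g (0, x + stp (u i))| - K') 0) (c := ∫ t, max (|t| - K') 0 ∂μ) ?_ ?_
    h (n + i) (k + i)
  · exact h2
  · intro x
    exact (UiC_max_EMom (((EMom_coord hμ (0, x + stp (u i))).abs).sub (EMom.const K'))).pmom
  · intro x
    exact integral_coord (μ := μ) (0, x + stp (u i)) (f := fun t => max (|t| - K') 0)
      (by fun_prop)

lemma integrable_CB (hμ : EM μ) (h : ℝ) (n k : ℕ) (u : ℕ → Bool) (i : ℕ) (K' : ℝ) :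
    Integrable (fun w : Env × Env => CB h n k u i K' w.1 w.2) (law2 μ) := by
  unfold CB
  refine (EMom_Av_gen (G := fun w : Env × Env => insB k i (pos u i) w.1 w.2)
    (mp_insB (μ := μ) k i (pos u i)).measurable fun s _ => ?_).integrable
  exact UiC_max_EMom ((UiC_row_EMom hμ i (pos s (k + i) + stp (u i))).abs.sub (EMom.const K'))

/-- Proof. If `u i = true`: `integral_insB` with `X = pos u i` and
`F g ξ = if Y ≤ Xf h (n+i) (k+i) true g ξ then Xf … else 0` (measurable). -/
lemma integral_XB_tail (h : ℝ) (n k : ℕ) (u : ℕ → Bool) {i : ℕ} (hi : u i = true) (Y : ℝ) :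
    ∫ w, (if Y ≤ XB h n k u i w.1 w.2 then XB h n k u i w.1 w.2 else 0) ∂(law2 μ) =
      tail μ h (n + i) (k + i) Y := by
  have hX := measurable_Xf h (n + i) (k + i) true
  have hm : Measurable (fun w : Env × (ℤ → ℝ) =>
      if Y ≤ Xf h (n + i) (k + i) true w.1 w.2 then Xf h (n + i) (k + i) true w.1 w.2 else 0) :=
    Measurable.ite (measurableSet_le measurable_const hX) hX measurable_const
  have h1 := integral_insB (μ := μ) k i (pos u i)
    (F := fun g ξ => if Y ≤ Xf h (n + i) (k + i) true g ξ then Xf h (n + i) (k + i) true g ξ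
      else 0) hm
  unfold XB tail
  rw [hi]
  exact h1

lemma UiC_XB_EMom (hμ : EM μ) (h : ℝ) (n k : ℕ) (u : ℕ → Bool) (i : ℕ) :
    EMom (law2 μ) (fun w => XB h n k u i w.1 w.2) := by
  have e1 : (fun w : Env × Env => XB h n k u i w.1 w.2) = fun w =>
      (Real.log (Z (insB k (i + 1) (pos u i + stp (u i)) w.1 w.2) h 0 0 (n + i + 1)) -
        Real.log (Z (insB k i (pos u i) w.1 w.2) h 0 0 (n + i))) + |h| +
        Av (insB k i (pos u i) w.1 w.2) h 0 0 (n + i)
          (fun s => |row i w.2 (pos s (k + i) + stp (u i))|) := by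
    funext w
    unfold XB Xf lrho
    rw [insB_succ]
  rw [e1]
  refine ((((EMom_logZ hμ h 0 0 (n + i + 1)).comp (mp_insB k (i + 1) _)).sub
    ((EMom_logZ hμ h 0 0 (n + i)).comp (mp_insB k i (pos u i)))).add (EMom.const |h|)).add ?_
  refine EMom_Av_gen (G := fun w : Env × Env => insB k i (pos u i) w.1 w.2)
    (mp_insB (μ := μ) k i (pos u i)).measurable fun s _ => ?_
  exact (UiC_row_EMom hμ i (pos s (k + i) + stp (u i))).abs

/-- Integrability of the truncated increments (both signs). -/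
lemma integrable_XB_trunc (hμ : EM μ) (h : ℝ) (n k : ℕ) (u : ℕ → Bool) (i : ℕ) (Y : ℝ) :
    Integrable (fun w : Env × Env => if Y ≤ XB h n k u i w.1 w.2 then XB h n k u i w.1 w.2 else 0)
      (law2 μ) := by
  have h0 := UiC_XB_EMom hμ h n k u i
  have h1 := h0.1
  refine (h0.mono (Measurable.ite (measurableSet_le measurable_const h1) h1 measurable_const)
    fun w => ?_).integrable
  split_ifs
  · exact le_rfl
  · rw [abs_zero]; exact abs_nonneg _

/-- **Tail bound for fixed `n, k`.** Proof. Integrate `sum_XB_trunc_le` with `u = upto P`,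
`lam = Lam μ h`; drop the (nonnegative, `XB_nonneg`) terms `P ≤ i < B` on the left, for `i < P` use
`integral_XB_tail` (`upto P i = true`); `integral_lB`, `integral_max_lB_le` with `c = B * Lam μ h`,
`integral_CB`. -/
theorem tail_sum_le (hμ : EM μ) (h : ℝ) {n k B P : ℕ} (hk : k ≤ n) (hP : P ≤ B) (K' : ℝ) :
    ∑ i ∈ range P, tail μ h (n + i) (k + i) (2 * (B * (Lam μ h + |h| + K'))) ≤
      2 * ((a μ h (n + B) - a μ h n - B * Lam μ h) +
        (∫ g, max (B * Lam μ h - Real.log (Kp g h 0 0 B (pos (upto P) B))) 0 ∂(law μ)) +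
        B * ∫ t, max (|t| - K') 0 ∂μ) := by
  set Y : ℝ := 2 * (B * (Lam μ h + |h| + K')) with hY
  -- the left side is at most the full sum
  have h1 : ∑ i ∈ range P, tail μ h (n + i) (k + i) Y ≤
      ∑ i ∈ range B, ∫ w, (if Y ≤ XB h n k (upto P) i w.1 w.2 then
        XB h n k (upto P) i w.1 w.2 else 0) ∂(law2 μ) := by
    have h2 : ∑ i ∈ range P, tail μ h (n + i) (k + i) Y =
        ∑ i ∈ range P, ∫ w, (if Y ≤ XB h n k (upto P) i w.1 w.2 then
          XB h n k (upto P) i w.1 w.2 else 0) ∂(law2 μ) := by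
      refine Finset.sum_congr rfl fun i hi => ?_
      have hi' : upto P i = true := by
        unfold upto
        exact decide_eq_true (Finset.mem_range.1 hi)
      exact (integral_XB_tail h n k (upto P) hi' Y).symm
    rw [h2]
    refine Finset.sum_le_sum_of_subset_of_nonneg (Finset.range_mono hP) fun i _ _ => ?_
    refine integral_nonneg fun w => ?_
    show 0 ≤ (if Y ≤ XB h n k (upto P) i w.1 w.2 then XB h n k (upto P) i w.1 w.2 else 0)
    split_ifs
    · exact XB_nonneg h hk _ _ _ _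
    · exact le_rfl
  refine h1.trans ?_
  rw [← integral_finsetSum _ fun i _ => integrable_XB_trunc hμ h n k (upto P) i Y]
  have hlB := EMom_lB hμ h n k (upto P) B
  have hI1 : Integrable (fun w : Env × Env => lB h n k (upto P) B w.1 w.2 - B * Lam μ h)
      (law2 μ) := (hlB.sub (EMom.const _)).integrable
  have hI2 : Integrable (fun w : Env × Env => max (B * Lam μ h - lB h n k (upto P) B w.1 w.2) 0)
      (law2 μ) := (UiC_max_EMom ((EMom.const _).sub hlB)).integrable
  have hI3 : Integrable (fun w : Env × Env => ∑ i ∈ range B, CB h n k (upto P) i K' w.1 w.2)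
      (law2 μ) := integrable_finsetSum _ fun i _ => integrable_CB hμ h n k (upto P) i K'
  have h3 : ∫ w, ∑ i ∈ range B, (if Y ≤ XB h n k (upto P) i w.1 w.2 then
        XB h n k (upto P) i w.1 w.2 else 0) ∂(law2 μ) ≤
      ∫ w, 2 * ((lB h n k (upto P) B w.1 w.2 - B * Lam μ h) +
        max (B * Lam μ h - lB h n k (upto P) B w.1 w.2) 0 +
        ∑ i ∈ range B, CB h n k (upto P) i K' w.1 w.2) ∂(law2 μ) := by
    refine integral_mono
      (integrable_finsetSum _ fun i _ => integrable_XB_trunc hμ h n k (upto P) i Y)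
      (((hI1.add hI2).add hI3).const_mul 2) fun w => ?_
    exact sum_XB_trunc_le h hk (upto P) B (Lam μ h) K' w.1 w.2
  refine h3.trans ?_
  rw [integral_const_mul]
  have e2 : ∫ w, ((lB h n k (upto P) B w.1 w.2 - B * Lam μ h) +
        max (B * Lam μ h - lB h n k (upto P) B w.1 w.2) 0 +
        ∑ i ∈ range B, CB h n k (upto P) i K' w.1 w.2) ∂(law2 μ) =
      (a μ h (n + B) - a μ h n - B * Lam μ h) +
        (∫ w, max (B * Lam μ h - lB h n k (upto P) B w.1 w.2) 0 ∂(law2 μ)) +
        B * ∫ t, max (|t| - K') 0 ∂μ := by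
    have e3 := integral_add (hI1.add hI2) hI3
    have e4 := integral_add hI1 hI2
    simp only [Pi.add_apply] at e3 e4
    rw [e3, e4, integral_finsetSum _ fun i _ => integrable_CB hμ h n k (upto P) i K']
    simp only [integral_CB hμ]
    rw [integral_sub hlB.integrable (integrable_const _), integral_lB hμ]
    simp
  rw [e2]
  have h4 := integral_max_lB_le hμ h hk (upto P) B (B * Lam μ h)
  linarith

end

end Pool.Agent.W_7d29a1_h47
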